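import Pool.Agent.H15.C6.REG

/-!
Module AFC.  From a cherry partition to an absorber.  `F0 = H ∪ N` is partitioned into the cherries of
`J`.  Output `W, R` with `Dec (F0 ∪ W)`, `Dec R`, `Dec (W ∪ R)`.

Proof.  (Constants: everything except `Z` has bounded size `≤ C(k)`; `ε := min(ε0,η)/4`.)
1. For each `t ∈ J` choose successively a vertex `z_t ∈ S` with `Gam t.1 z_t`, `Gam z_t t.2.2`, all `z_t`
 distinct and outside `Z ∪ X ∪ V(F0)` (hypothesis `hcom` with `Z'` = that set plus earlier choices).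
2. By `pick` (index set `J × Fin 2`) choose distinct private `m1_t` (common neighbour of `t.1, z_t`) and `m2_t`
 (common neighbour of `z_t, t.2.2`) in `U`, outside `Z ∪ X ∪ V(F0) ∪ {z's}`.
 `J' := {(t.1, m1_t, z_t)} ∪ {(z_t, m2_t, t.2.2)}`, `W := J'.biUnion chE`.  For `t = (x,m,y)`:
 `x m y m2 z m1` is a six-cycle, so `Dec (F0 ∪ W)`.
3. `w := J'.val.map (ends)`, `card w = 2|J| = |F0|`, so `3 ∣ card w`.  Degrees of `w` are even: for `v`,
 `#{t : v is an end of t} ≡ deg F0 v (mod 2)` (a cherry centred at `v` contributes 2), and each `z_t`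
 is in two pairs.  `π w` by `hπ`.  Apply `hsolv` with `Z' := Z ∪ {all m's} ` (so the triangle vertices are
 outside `Z` and are no middle vertices, or vertices of `w`): lists `Tp, Tm`.
4. By `pick` choose for every triangle of `Tm` (index `Fin Tm.length × Fin 3`) private middle vertices for its
 three sides, outside `Z ∪ X ∪ V(F0) ∪ {z's, m's} ∪ V(Tp) ∪ V(Tm)`.  `R :=` union of these cherries.
 `Dec R` by `regroup` with `T = Tm`; `Dec (W ∪ R)` by `regroup` with `T = Tp` (index a sum type; the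
 multiset of ends is `w + bd Tm = bd Tp`).
 `Tp.length` is determined: `3 Tp.length = card w + 3 Tm.length`.
Every edge of `W ∪ R` has a private middle vertex as one end (outside `X ∪ Z ∪ V(F0)`), so it is not inside
`X` and not in `F0`; its other end is in `X`, or in `V(F0)` (`hF0Z`), or a chosen vertex outside `Z`.
-/

open Finset

namespace H15C6

section afc

variable {V ι : Type} [DecidableEq V]

theorem afc_mem_chE {t : V × V × V} {e : Sym2 V} :
    e ∈ chE t ↔ e = s(t.1, t.2.1) ∨ e = s(t.2.1, t.2.2) := by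
  simp [chE]

theorem afc_mid {t : V × V × V} {e : Sym2 V} (he : e ∈ chE t) : t.2.1 ∈ e := by
  rcases afc_mem_chE.1 he with rfl | rfl
  · exact Sym2.mem_mk_right _ _
  · exact Sym2.mem_mk_left _ _

theorem afc_ends {t : V × V × V} {e : Sym2 V} {v : V} (he : e ∈ chE t) (hv : v ∈ e) :
    v = t.1 ∨ v = t.2.1 ∨ v = t.2.2 := by
  rcases afc_mem_chE.1 he with rfl | rfl <;> rw [Sym2.mem_iff] at hv <;> tauto

theorem afc_disj {I : Finset ι} {x m y : ι → V}
    (hm : ∀ j ∈ I, ∀ j' ∈ I, m j = m j' → j = j')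
    (hmx : ∀ j ∈ I, ∀ j' ∈ I, m j ≠ x j' ∧ m j ≠ y j') :
    ∀ j ∈ I, ∀ j' ∈ I, j ≠ j' → Disjoint (chE (x j, m j, y j)) (chE (x j', m j', y j')) := by
  intro j hj j' hj' hne
  rw [Finset.disjoint_left]
  intro e he he'
  rcases afc_ends he' (afc_mid he) with h | h | h
  · exact (hmx j hj j' hj').1 h
  · exact hne (hm j hj j' hj' h)
  · exact (hmx j hj j' hj').2 h

theorem afc_deg_chE {x m y v : V} (h1 : x ≠ m) (h2 : m ≠ y) (h3 : x ≠ y) :
    Even (deg (chE (x, m, y)) v + if v ∈ s(x, y) then 1 else 0) := by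
  have hne : s(x, m) ≠ s(m, y) := by
    intro h
    rw [Sym2.eq_iff] at h
    rcases h with ⟨h, _⟩ | ⟨h, _⟩
    · exact h1 h
    · exact h3 h
  have hd : deg (chE (x, m, y)) v = (if v ∈ s(x, m) then 1 else 0) + if v ∈ s(m, y) then 1 else 0 := by
    unfold deg
    rw [Finset.card_filter]
    show ∑ e ∈ ({s(x, m), s(m, y)} : Finset (Sym2 V)), (if v ∈ e then 1 else 0) = _
    rw [Finset.sum_pair hne]
  rw [hd]
  simp only [Sym2.mem_iff]
  by_cases hvx : v = x
  · subst hvx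
    simp [h1, h3]
  · by_cases hvm : v = m
    · subst hvm
      simp [hvx, h2]
    · by_cases hvy : v = y
      · subst hvy
        simp [hvx, hvm]
      · simp [hvx, hvm, hvy]

theorem afc_parity [DecidableEq ι] {I : Finset ι} {x m y : ι → V}
    (hm : ∀ j ∈ I, ∀ j' ∈ I, m j = m j' → j = j')
    (hmx : ∀ j ∈ I, ∀ j' ∈ I, m j ≠ x j' ∧ m j ≠ y j') (hxy : ∀ j ∈ I, x j ≠ y j)
    (hE : EvenDeg (I.biUnion (fun j => chE (x j, m j, y j)))) (v : V) :
    Even (I.filter (fun j => v ∈ s(x j, y j))).card := by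
  have h1 : deg (I.biUnion (fun j => chE (x j, m j, y j))) v =
      ∑ j ∈ I, deg (chE (x j, m j, y j)) v := by
    unfold deg
    rw [Finset.filter_biUnion, Finset.card_biUnion]
    intro j hj j' hj' hne
    exact Finset.disjoint_filter_filter (afc_disj hm hmx j hj j' hj' hne)
  have h2 := hE v
  rw [h1] at h2
  have h3 : Even (∑ j ∈ I, (deg (chE (x j, m j, y j)) v + if v ∈ s(x j, y j) then 1 else 0)) := by
    refine Finset.even_sum _ fun j hj => ?_
    exact afc_deg_chE (fun h => (hmx j hj j hj).1 h.symm) (hmx j hj j hj).2 (hxy j hj)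
  rw [Finset.sum_add_distrib, ← Finset.card_filter] at h3
  exact (Nat.even_add.1 h3).1 h2

/-- a cherry and two private cherries with a common end form a six-cycle -/
theorem afc_isC6 {x m y m2 z m1 : V} (h01 : x ≠ m) (h02 : x ≠ y) (h03 : x ≠ m2) (h04 : x ≠ z)
    (h05 : x ≠ m1) (h12 : m ≠ y) (h13 : m ≠ m2) (h14 : m ≠ z) (h15 : m ≠ m1) (h23 : y ≠ m2)
    (h24 : y ≠ z) (h25 : y ≠ m1) (h34 : m2 ≠ z) (h35 : m2 ≠ m1) (h45 : z ≠ m1) :
    IsC6 (chE (x, m, y) ∪ (chE (x, m1, z) ∪ chE (z, m2, y))) := by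
  refine ⟨![x, m, y, m2, z, m1], ?_, ?_⟩
  · intro i j hij
    fin_cases i <;> fin_cases j <;> simp_all
  · ext e
    simp only [mem_cyc, Finset.mem_union, afc_mem_chE, Fin.exists_fin_succ]
    simp
    constructor
    · rintro ((h | h) | (h | h) | (h | h))
      · left; exact h.symm
      · right; left; exact h.symm
      · right; right; right; right; right; rw [h]; exact Sym2.eq_swap
      · right; right; right; right; left; rw [h]; exact Sym2.eq_swap
      · right; right; right; left; rw [h]; exact Sym2.eq_swap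
      · right; right; left; rw [h]; exact Sym2.eq_swap
    · rintro (h | h | h | h | h | h)
      · left; left; exact h.symm
      · left; right; exact h.symm
      · right; right; right; rw [← h]; exact Sym2.eq_swap
      · right; right; left; rw [← h]; exact Sym2.eq_swap
      · right; left; right; rw [← h]; exact Sym2.eq_swap
      · right; left; left; rw [← h]; exact Sym2.eq_swap

/-- middle vertices -/
theorem afc_mids [DecidableEq ι] [Nonempty V] {E : Finset (Sym2 V)} {U : Finset V} {η : ℝ}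
    (I : Finset ι) (x y : ι → V) (hG : ∀ j ∈ I, Gam E U η (x j) (y j)) (Q : Finset V)
    (hQ : ((Q.card + I.card : ℕ) : ℝ) < η * U.card) :
    ∃ m : ι → V, (∀ j ∈ I, m j ∈ U ∧ s(x j, m j) ∈ E ∧ s(m j, y j) ∈ E ∧ m j ∉ Q) ∧
      (∀ j ∈ I, ∀ j' ∈ I, m j = m j' → j = j') := by
  obtain ⟨f, hf1, hf2⟩ := pick I (fun j => U.filter (fun m => s(x j, m) ∈ E ∧ s(m, y j) ∈ E)) Q (by
    intro j hj
    have h1 := (hG j hj).2
    have h2 : ((Q.card + I.card : ℕ) : ℝ) < (cn E U (x j) (y j) : ℝ) := lt_of_lt_of_le hQ h1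
    exact_mod_cast h2)
  refine ⟨f, fun j hj => ?_, hf2⟩
  have := hf1 j hj
  rw [Finset.mem_filter] at this
  exact ⟨this.1.1, this.1.2.1, this.1.2.2, this.2⟩

/-- the vertices `z_t` -/
theorem afc_zs [Nonempty V] {E : Finset (Sym2 V)} {U S : Finset V} {η ε0 : ℝ}
    (J : Finset (V × V × V))
    (hcom : ∀ t ∈ J, ∀ Z' : Finset V, (Z'.card : ℝ) ≤ ε0 * U.card →
      ∃ z ∈ S, z ∉ Z' ∧ Gam E U η t.1 z ∧ Gam E U η z t.2.2) (Q : Finset V)
    (hQ : ((Q.card + J.card : ℕ) : ℝ) < ε0 * U.card) :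
    ∃ z : V × V × V → V, (∀ t ∈ J, z t ∈ S ∧ Gam E U η t.1 (z t) ∧ Gam E U η (z t) t.2.2 ∧
      z t ∉ Q) ∧ ∀ t ∈ J, ∀ t' ∈ J, z t = z t' → t = t' := by
  classical
  obtain ⟨f, hf1, hf2⟩ := pick J
    (fun t => S.filter (fun z => Gam E U η t.1 z ∧ Gam E U η z t.2.2)) Q (by
    intro t ht
    by_contra hlt
    rw [not_lt] at hlt
    have h1 : (((S.filter (fun z => Gam E U η t.1 z ∧ Gam E U η z t.2.2)).card : ℕ) : ℝ) ≤
        ε0 * U.card := by
      have h2 : (((S.filter (fun z => Gam E U η t.1 z ∧ Gam E U η z t.2.2)).card : ℕ) : ℝ) ≤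
        ((Q.card + J.card : ℕ) : ℝ) := by exact_mod_cast hlt
      linarith
    obtain ⟨z, hzS, hz1, hz2⟩ := hcom t ht _ h1
    exact hz1 (Finset.mem_filter.2 ⟨hzS, hz2⟩))
  refine ⟨f, fun j hj => ?_, hf2⟩
  have := hf1 j hj
  rw [Finset.mem_filter] at this
  exact ⟨this.1.1, this.1.2.1, this.1.2.2, this.2⟩

/-- vertices of an edge set -/
def afc_V (F : Finset (Sym2 V)) : Finset V := F.biUnion Sym2.toFinset

theorem afc_mem_V {F : Finset (Sym2 V)} {v : V} : v ∈ afc_V F ↔ ∃ e ∈ F, v ∈ e := by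
  simp [afc_V]

theorem afc_card_V (F : Finset (Sym2 V)) : (afc_V F).card ≤ 2 * F.card := by
  unfold afc_V
  refine Finset.card_biUnion_le.trans ?_
  rw [mul_comm]
  refine Finset.sum_le_card_nsmul _ _ _ fun e _ => ?_
  rw [Sym2.card_toFinset]
  split_ifs <;> norm_num

theorem afc_card_chE {t : V × V × V} (h : t.1 ≠ t.2.2) (h2 : t.1 ≠ t.2.1) : (chE t).card = 2 := by
  unfold chE
  rw [Finset.card_pair]
  intro h'
  rw [Sym2.eq_iff] at h'
  rcases h' with ⟨h', _⟩ | ⟨h', _⟩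
  · exact h2 h'
  · exact h h'

theorem afc_card_chE_le (t : V × V × V) : (chE t).card ≤ 2 := by
  unfold chE
  exact Finset.card_le_two

theorem afc_card_J {F : Finset (Sym2 V)} {J : Finset (V × V × V)} (h : CherryPart F J) :
    F.card = 2 * J.card := by
  rw [← h.2.2, Finset.card_biUnion]
  · rw [Finset.sum_congr rfl (fun t ht => afc_card_chE (h.1 t ht).2.2 (h.1 t ht).1)]
    simp [mul_comm]
  · intro t ht t' ht' hne
    exact h.2.1 t ht t' ht' hne

theorem afc_mem_bd {T : List (V × V × V)} {e : Sym2 V} (h : e ∈ bd T) :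
    ∃ t ∈ T, e = s(t.1, t.2.1) ∨ e = s(t.2.1, t.2.2) ∨ e = s(t.2.2, t.1) := by
  induction T with
  | nil => simp [bd] at h
  | cons a T ih =>
    have h1 : bd (a :: T) = sides a + bd T := by simp [bd]
    rw [h1, Multiset.mem_add] at h
    rcases h with h | h
    · refine ⟨a, List.mem_cons_self, ?_⟩
      simpa [sides] using h
    · obtain ⟨t, ht, ht2⟩ := ih h
      exact ⟨t, List.mem_cons_of_mem _ ht, ht2⟩

theorem afc_card_bd (T : List (V × V × V)) : (bd T).card = 3 * T.length := by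
  induction T with
  | nil => simp [bd]
  | cons a T ih =>
    have h1 : bd (a :: T) = sides a + bd T := by simp [bd]
    rw [h1, Multiset.card_add, ih]
    simp [sides]
    ring

end afc


theorem absorb_from_cherries (η ε0 : ℝ) (hη : 0 < η) (hε0 : 0 < ε0) (k0 : ℕ) :
    ∃ ε : ℝ, 0 < ε ∧ ∀ k : ℕ, ∃ C n0 : ℕ, ∀ (V : Type) [Fintype V] [DecidableEq V]
      (U S : Finset V) (E : Finset (Sym2 V)) (π : Multiset (Sym2 V) → Prop) (X Z : Finset V)
      (F0 : Finset (Sym2 V)) (J : Finset (V × V × V)),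
      n0 ≤ U.card → E ⊆ U.sym2 → Loopless E → S ⊆ U → X ⊆ U → X.card ≤ k →
      (Z.card : ℝ) ≤ ε * U.card → F0 ⊆ E → EvenDeg F0 → 6 ∣ F0.card → F0.card ≤ k →
      CherryPart F0 J → (∀ t ∈ J, t.1 ∈ S ∧ t.2.2 ∈ S) →
      (∀ e ∈ F0, ∀ x ∈ e, x ∉ X → x ∉ Z) →
      (∀ t ∈ J, ∀ Z' : Finset V, (Z'.card : ℝ) ≤ ε0 * U.card →
        ∃ z ∈ S, z ∉ Z' ∧ Gam E U η t.1 z ∧ Gam E U η z t.2.2) →
      (∀ (w : Multiset (Sym2 V)) (Z' : Finset V), (Z'.card : ℝ) ≤ ε0 * U.card →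
        (∀ e ∈ w, ∃ x y, e = s(x, y) ∧ x ∈ S ∧ y ∈ S ∧ Gam E U η x y) →
        (∀ v, Even (w.countP (fun e => v ∈ e))) → 3 ∣ w.card → π w →
        Solv (Gam E U η) {v | v ∈ S ∧ (v ∉ Z' ∨ ∃ e ∈ w, v ∈ e)} (k0 * w.card) w) →
      (∀ J' : Finset (V × V × V), (∀ t ∈ J', t.1 ≠ t.2.1 ∧ t.2.1 ≠ t.2.2 ∧ t.1 ≠ t.2.2) →
        (∀ t ∈ J', ∀ t' ∈ J', t ≠ t' → Disjoint (chE t) (chE t')) →
        J'.biUnion chE ⊆ E → Disjoint F0 (J'.biUnion chE) → Dec (F0 ∪ J'.biUnion chE) →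
        π (J'.val.map (fun t => s(t.1, t.2.2)))) →
      ∃ W R : Finset (Sym2 V), W ⊆ E ∧ R ⊆ E ∧ Disjoint F0 W ∧ Disjoint F0 R ∧ Disjoint W R ∧
        Dec (F0 ∪ W) ∧ Dec R ∧ Dec (W ∪ R) ∧ (∀ e ∈ W ∪ R, e ∉ X.sym2) ∧
        (∀ e ∈ W ∪ R, ∀ x ∈ e, x ∉ X → x ∉ Z) ∧ W.card + R.card ≤ C := by
  set δ : ℝ := min ε0 η with hδ
  have hδ0 : 0 < δ := lt_min hε0 hη
  refine ⟨δ / 4, by positivity, fun k => ?_⟩
  set B : ℕ := (k + 1) * (k0 + 1) with hB
  refine ⟨2 * k + 6 * (k0 * k), ⌈100 * (B : ℝ) / δ⌉₊ + 1, ?_⟩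
  intro V _ _ U S E π X Z F0 J hn0 hEU hEl hSU hXU hXk hZ hF0E hF0ev hF06 hF0k hJ hJS hF0Z hcom
    hsolv hπ
  classical
  -- numbers
  have hkB : k ≤ B := by rw [hB]; nlinarith
  have hkkB : k0 * k ≤ B := by rw [hB]; nlinarith
  have hB1 : 1 ≤ B := by rw [hB]; nlinarith
  have hBN : 100 * (B : ℝ) ≤ δ * U.card := by
    have h1 : 100 * (B : ℝ) / δ ≤ ⌈100 * (B : ℝ) / δ⌉₊ := Nat.le_ceil _
    have h2 : ((⌈100 * (B : ℝ) / δ⌉₊ : ℕ) : ℝ) ≤ U.card := by
      exact_mod_cast (by omega : ⌈100 * (B : ℝ) / δ⌉₊ ≤ U.card)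
    have h3 := h1.trans h2
    rw [div_le_iff₀ hδ0] at h3
    linarith
  have hB1' : (1 : ℝ) ≤ B := by exact_mod_cast hB1
  have hnum : ∀ a : ℕ, a ≤ Z.card + 14 * B → (a : ℝ) < δ * U.card := by
    intro a ha
    have h1 : (a : ℝ) ≤ Z.card + 14 * B := by exact_mod_cast ha
    linarith
  have hδε : δ * U.card ≤ ε0 * U.card :=
    mul_le_mul_of_nonneg_right (min_le_left _ _) (Nat.cast_nonneg _)
  have hδη : δ * U.card ≤ η * U.card :=
    mul_le_mul_of_nonneg_right (min_le_right _ _) (Nat.cast_nonneg _)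
  have hUpos : 0 < U.card := by omega
  obtain ⟨v0, hv0⟩ := Finset.card_pos.1 hUpos
  have : Nonempty V := ⟨v0⟩
  have hFJ := afc_card_J hJ
  have hVF := afc_card_V F0
  -- the vertices z
  set Q0 : Finset V := Z ∪ X ∪ afc_V F0 with hQ0
  have hQ0c : Q0.card ≤ Z.card + X.card + (afc_V F0).card :=
    (Finset.card_union_le _ _).trans (Nat.add_le_add_right (Finset.card_union_le _ _) _)
  obtain ⟨z, hz, hzinj⟩ := afc_zs J hcom Q0 (lt_of_lt_of_le (hnum _ (by omega)) hδε)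
  have hVJ : ∀ t ∈ J, t.1 ∈ afc_V F0 ∧ t.2.1 ∈ afc_V F0 ∧ t.2.2 ∈ afc_V F0 := by
    intro t ht
    have h1 : s(t.1, t.2.1) ∈ F0 := by
      rw [← hJ.2.2]
      exact Finset.mem_biUnion.2 ⟨t, ht, afc_mem_chE.2 (Or.inl rfl)⟩
    have h2 : s(t.2.1, t.2.2) ∈ F0 := by
      rw [← hJ.2.2]
      exact Finset.mem_biUnion.2 ⟨t, ht, afc_mem_chE.2 (Or.inr rfl)⟩
    exact ⟨afc_mem_V.2 ⟨_, h1, Sym2.mem_mk_left _ _⟩, afc_mem_V.2 ⟨_, h1, Sym2.mem_mk_right _ _⟩,
      afc_mem_V.2 ⟨_, h2, Sym2.mem_mk_right _ _⟩⟩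
  have hzQ : ∀ t ∈ J, z t ∉ Z ∧ z t ∉ X ∧ z t ∉ afc_V F0 := by
    intro t ht
    have h1 := (hz t ht).2.2.2
    simp only [hQ0, Finset.mem_union, not_or] at h1
    exact ⟨h1.1.1, h1.1.2, h1.2⟩
  -- the cherries of `W`
  set I1 : Finset ((V × V × V) × Bool) := J ×ˢ Finset.univ with hI1
  set x1 : (V × V × V) × Bool → V := fun j => cond j.2 (z j.1) j.1.1 with hx1
  set y1 : (V × V × V) × Bool → V := fun j => cond j.2 j.1.2.2 (z j.1) with hy1
  have hI1c : I1.card = 2 * J.card := by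
    rw [hI1, Finset.card_product]
    simp [mul_comm]
  have hI1J : ∀ j ∈ I1, j.1 ∈ J := fun j hj => (Finset.mem_product.1 hj).1
  have hG1 : ∀ j ∈ I1, Gam E U η (x1 j) (y1 j) := by
    rintro ⟨t, b⟩ hj
    have ht := hI1J _ hj
    cases b
    · exact (hz t ht).2.1
    · exact (hz t ht).2.2.1
  set Q1 : Finset V := Q0 ∪ J.image z with hQ1
  have hQ1c : Q1.card ≤ Q0.card + J.card :=
    (Finset.card_union_le _ _).trans (Nat.add_le_add_left Finset.card_image_le _)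
  obtain ⟨m1, hm1, hm1inj⟩ := afc_mids I1 x1 y1 hG1 Q1 (lt_of_lt_of_le (hnum _ (by omega)) hδη)
  -- ends of the cherries of `W`
  have hend1 : ∀ j ∈ I1, (x1 j ∈ afc_V F0 ∨ x1 j ∈ J.image z) ∧ (y1 j ∈ afc_V F0 ∨ y1 j ∈ J.image z) := by
    rintro ⟨t, b⟩ hj
    have ht := hI1J _ hj
    cases b
    · exact ⟨Or.inl (hVJ t ht).1, Or.inr (Finset.mem_image_of_mem _ ht)⟩
    · exact ⟨Or.inr (Finset.mem_image_of_mem _ ht), Or.inl (hVJ t ht).2.2⟩
  have hm1Q : ∀ j ∈ I1, m1 j ∉ Z ∧ m1 j ∉ X ∧ m1 j ∉ afc_V F0 ∧ m1 j ∉ J.image z := by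
    intro j hj
    have h1 := (hm1 j hj).2.2.2
    simp only [hQ1, hQ0, Finset.mem_union, not_or] at h1
    exact ⟨h1.1.1.1, h1.1.1.2, h1.1.2, h1.2⟩
  have hmx1 : ∀ j ∈ I1, ∀ j' ∈ I1, m1 j ≠ x1 j' ∧ m1 j ≠ y1 j' := by
    intro j hj j' hj'
    have h1 := hm1Q j hj
    have h2 := hend1 j' hj'
    constructor
    · intro h
      rw [h] at h1
      rcases h2.1 with h3 | h3
      · exact h1.2.2.1 h3
      · exact h1.2.2.2 h3
    · intro h
      rw [h] at h1
      rcases h2.2 with h3 | h3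
      · exact h1.2.2.1 h3
      · exact h1.2.2.2 h3
  set W : Finset (Sym2 V) := I1.biUnion (fun j => chE (x1 j, m1 j, y1 j)) with hW
  have hWE : W ⊆ E := by
    intro e he
    obtain ⟨j, hj, he⟩ := Finset.mem_biUnion.1 he
    rcases afc_mem_chE.1 he with rfl | rfl
    · exact (hm1 j hj).2.1
    · exact (hm1 j hj).2.2.1
  have hF0W : Disjoint F0 W := by
    rw [Finset.disjoint_left]
    intro e he he'
    obtain ⟨j, hj, he'⟩ := Finset.mem_biUnion.1 he'
    exact (hm1Q j hj).2.2.1 (afc_mem_V.2 ⟨e, he, afc_mid he'⟩)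
  have hdis1 := afc_disj hm1inj hmx1
  have hDec1 : Dec (F0 ∪ W) := by
    have h1 : F0 ∪ W = J.biUnion (fun t => chE t ∪ (chE (t.1, m1 (t, false), z t) ∪
        chE (z t, m1 (t, true), t.2.2))) := by
      rw [← hJ.2.2, hW, hI1]
      ext e
      rw [Finset.mem_union, Finset.mem_biUnion, Finset.mem_biUnion, Finset.mem_biUnion]
      constructor
      · rintro (⟨t, ht, he⟩ | ⟨⟨t, b⟩, hj, he⟩)
        · exact ⟨t, ht, Finset.mem_union.2 (Or.inl he)⟩
        · have ht := (Finset.mem_product.1 hj).1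
          cases b
          · exact ⟨t, ht, Finset.mem_union.2 (Or.inr (Finset.mem_union.2 (Or.inl he)))⟩
          · exact ⟨t, ht, Finset.mem_union.2 (Or.inr (Finset.mem_union.2 (Or.inr he)))⟩
      · rintro ⟨t, ht, he⟩
        rw [Finset.mem_union, Finset.mem_union] at he
        rcases he with he | he | he
        · exact Or.inl ⟨t, ht, he⟩
        · exact Or.inr ⟨(t, false), Finset.mem_product.2 ⟨ht, Finset.mem_univ _⟩, he⟩
        · exact Or.inr ⟨(t, true), Finset.mem_product.2 ⟨ht, Finset.mem_univ _⟩, he⟩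
    have hmemI : ∀ t ∈ J, ∀ b, (t, b) ∈ I1 := fun t ht b =>
      Finset.mem_product.2 ⟨ht, Finset.mem_univ _⟩
    rw [h1]
    refine Dec.biUnion ?_ ?_
    · intro t ht
      have hd := hJ.1 t ht
      have hv := hVJ t ht
      have hzt := hzQ t ht
      have hf := hm1Q (t, false) (hmemI t ht false)
      have hg := hm1Q (t, true) (hmemI t ht true)
      have hzi : z t ∈ J.image z := Finset.mem_image_of_mem _ ht
      have hfg : m1 (t, true) ≠ m1 (t, false) := by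
        intro h
        have := hm1inj _ (hmemI t ht true) _ (hmemI t ht false) h
        simp at this
      refine (afc_isC6 (m2 := m1 (t, true)) (z := z t) (m1 := m1 (t, false)) hd.1 hd.2.2 (fun h => hg.2.2.1 (h ▸ hv.1)) (fun h => hzt.2.2 (h ▸ hv.1))
        (fun h => hf.2.2.1 (h ▸ hv.1)) hd.2.1 (fun h => hg.2.2.1 (h ▸ hv.2.1))
        (fun h => hzt.2.2 (h ▸ hv.2.1)) (fun h => hf.2.2.1 (h ▸ hv.2.1))
        (fun h => hg.2.2.1 (h ▸ hv.2.2)) (fun h => hzt.2.2 (h ▸ hv.2.2))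
        (fun h => hf.2.2.1 (h ▸ hv.2.2)) (fun h => hg.2.2.2 (h ▸ hzi)) hfg
        (fun h => hf.2.2.2 (h ▸ hzi))).dec
    · intro t ht t' ht' hne
      rw [Finset.disjoint_left]
      intro e he he'
      have hcase : ∀ s ∈ J, e ∈ chE s ∪ (chE (s.1, m1 (s, false), z s) ∪
          chE (z s, m1 (s, true), s.2.2)) → e ∈ chE s ∨
            ∃ b, e ∈ chE (x1 (s, b), m1 (s, b), y1 (s, b)) := by
        intro s hs hes
        rw [Finset.mem_union, Finset.mem_union] at hes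
        rcases hes with hes | hes | hes
        · exact Or.inl hes
        · exact Or.inr ⟨false, hes⟩
        · exact Or.inr ⟨true, hes⟩
      have hF : ∀ s ∈ J, e ∈ chE s → e ∈ F0 := by
        intro s hs hes
        rw [← hJ.2.2]
        exact Finset.mem_biUnion.2 ⟨s, hs, hes⟩
      have hWm : ∀ s ∈ J, ∀ b, e ∈ chE (x1 (s, b), m1 (s, b), y1 (s, b)) → e ∈ W := by
        intro s hs b hes
        exact Finset.mem_biUnion.2 ⟨(s, b), hmemI s hs b, hes⟩
      rcases hcase t ht he with h2 | ⟨b, h2⟩ <;> rcases hcase t' ht' he' with h3 | ⟨b', h3⟩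
      · exact Finset.disjoint_left.1 (hJ.2.1 t ht t' ht' hne) h2 h3
      · exact Finset.disjoint_left.1 hF0W (hF t ht h2) (hWm t' ht' b' h3)
      · exact Finset.disjoint_left.1 hF0W (hF t' ht' h3) (hWm t ht b h2)
      · refine Finset.disjoint_left.1 (hdis1 (t, b) (hmemI t ht b) (t', b') (hmemI t' ht' b') ?_) h2 h3
        intro h
        exact hne (congrArg Prod.fst h)
  -- the multiset of ends
  have hinj1 : Set.InjOn (fun j => (x1 j, m1 j, y1 j)) (I1 : Set ((V × V × V) × Bool)) := by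
    intro j hj j' hj' h
    exact hm1inj j hj j' hj' (congrArg (fun q : V × V × V => q.2.1) h)
  set J' : Finset (V × V × V) := I1.image (fun j => (x1 j, m1 j, y1 j)) with hJ'
  have hJ'W : J'.biUnion chE = W := by
    rw [hJ', Finset.image_biUnion]
  have hmap : J'.val.map (fun t => s(t.1, t.2.2)) = I1.val.map (fun j => s(x1 j, y1 j)) := by
    rw [hJ', Finset.image_val_of_injOn hinj1, Multiset.map_map]
    rfl
  have hπw := hπ J' (by
      intro t ht
      obtain ⟨j, hj, rfl⟩ := Finset.mem_image.1 ht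
      exact ⟨fun h => (hmx1 j hj j hj).1 h.symm, (hmx1 j hj j hj).2, (hG1 j hj).1⟩) (by
      intro t ht t' ht' hne
      obtain ⟨j, hj, rfl⟩ := Finset.mem_image.1 ht
      obtain ⟨j', hj', rfl⟩ := Finset.mem_image.1 ht'
      exact hdis1 j hj j' hj' (fun h => hne (by rw [h])))
    (by rw [hJ'W]; exact hWE) (by rw [hJ'W]; exact hF0W) (by rw [hJ'W]; exact hDec1)
  rw [hmap] at hπw
  set w : Multiset (Sym2 V) := I1.val.map (fun j => s(x1 j, y1 j)) with hw
  have hwc : w.card = F0.card := by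
    rw [hw, Multiset.card_map, hFJ]
    exact hI1c
  have hEvW : EvenDeg W := by
    have h1 := EvenDeg.sdiff hDec1.even hF0ev Finset.subset_union_left
    rwa [Finset.union_sdiff_cancel_left hF0W] at h1
  have hweven : ∀ v, Even (w.countP (fun e => v ∈ e)) := by
    intro v
    rw [hw, Multiset.countP_map]
    exact afc_parity hm1inj hmx1 (fun j hj => (hG1 j hj).1) hEvW v
  have hends : ∀ j ∈ I1, x1 j ∈ S ∧ y1 j ∈ S := by
    rintro ⟨t, b⟩ hj
    have ht := hI1J _ hj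
    cases b
    · exact ⟨(hJS t ht).1, (hz t ht).1⟩
    · exact ⟨(hz t ht).1, (hJS t ht).2⟩
  obtain ⟨Tp, Tm, hTp, hTm, hTml, hTT⟩ := hsolv w (Z ∪ I1.image m1) (by
      have h1 : ((Z ∪ I1.image m1).card : ℝ) < δ * U.card := hnum _ (by
        have h2 := Finset.card_union_le Z (I1.image m1)
        have h3 : (I1.image m1).card ≤ I1.card := Finset.card_image_le
        omega)
      linarith) (by
      intro e he
      obtain ⟨j, hj, rfl⟩ := Multiset.mem_map.1 he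
      exact ⟨x1 j, y1 j, rfl, (hends j hj).1, (hends j hj).2, hG1 j hj⟩) hweven (by
      rw [hwc]
      exact dvd_trans (by norm_num) hF06) hπw
  -- vertices of the pairs of `w`
  have hwv : ∀ e ∈ w, ∀ v ∈ e, (v ∈ afc_V F0 ∨ v ∈ J.image z) := by
    intro e he v hv
    obtain ⟨j, hj, rfl⟩ := Multiset.mem_map.1 he
    rcases Sym2.mem_iff.1 hv with rfl | rfl
    · exact (hend1 j hj).1
    · exact (hend1 j hj).2
  have hQm : ∀ v, (v ∈ S ∧ (v ∉ Z ∪ I1.image m1 ∨ ∃ e ∈ w, v ∈ e)) → ∀ j ∈ I1, m1 j ≠ v := by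
    rintro v ⟨_, hv⟩ j hj rfl
    rcases hv with hv | ⟨e, he, hv⟩
    · exact hv (Finset.mem_union_right _ (Finset.mem_image_of_mem _ hj))
    · rcases hwv e he _ hv with h | h
      · exact (hm1Q j hj).2.2.1 h
      · exact (hm1Q j hj).2.2.2 h
  have hXZ : ∀ v, (v ∈ afc_V F0 ∨ v ∈ J.image z) → v ∉ X → v ∉ Z := by
    intro v hv hvX
    rcases hv with hv | hv
    · obtain ⟨e, he, hve⟩ := afc_mem_V.1 hv
      exact hF0Z e he v hve hvX
    · obtain ⟨t, ht, rfl⟩ := Finset.mem_image.1 hv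
      exact (hzQ t ht).1
  have hQZ : ∀ v, (v ∈ S ∧ (v ∉ Z ∪ I1.image m1 ∨ ∃ e ∈ w, v ∈ e)) → v ∉ X → v ∉ Z := by
    rintro v ⟨_, hv⟩ hvX
    rcases hv with hv | ⟨e, he, hv⟩
    · exact fun h => hv (Finset.mem_union_left _ h)
    · exact hXZ v (hwv e he v hv) hvX
  -- the sides of the triangles of `Tm`
  have hrep : ∀ e : Sym2 V, ∃ p : V × V, s(p.1, p.2) = e := by
    intro e
    induction e using Sym2.ind with
    | _ a b => exact ⟨(a, b), rfl⟩
  choose rep hrep using hrep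
  set I2 : Finset (Sym2 V × ℕ) := (bd Tm).toEnumFinset with hI2
  set x2 : Sym2 V × ℕ → V := fun j => (rep j.1).1 with hx2
  set y2 : Sym2 V × ℕ → V := fun j => (rep j.1).2 with hy2
  have hxy2 : ∀ j, s(x2 j, y2 j) = j.1 := fun j => hrep j.1
  have hmap2 : I2.val.map (fun j => s(x2 j, y2 j)) = bd Tm := by
    rw [Multiset.map_congr rfl (fun j _ => hxy2 j)]
    exact Multiset.map_toEnumFinset_fst _
  have hI2c : I2.card = 3 * Tm.length := by
    rw [← afc_card_bd, ← hmap2, Multiset.card_map]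
    rfl
  have hI2c' : I2.card ≤ 3 * (k0 * k) := by
    rw [hI2c]
    refine Nat.mul_le_mul_left 3 (hTml.trans ?_)
    rw [hwc]
    exact Nat.mul_le_mul_left _ hF0k
  have hG2 : ∀ j ∈ I2, Gam E U η (x2 j) (y2 j) ∧
      (x2 j ∈ S ∧ (x2 j ∉ Z ∪ I1.image m1 ∨ ∃ e ∈ w, x2 j ∈ e)) ∧
      (y2 j ∈ S ∧ (y2 j ∉ Z ∪ I1.image m1 ∨ ∃ e ∈ w, y2 j ∈ e)) := by
    intro j hj
    have h1 := Multiset.mem_of_mem_toEnumFinset hj
    obtain ⟨t, ht, h2⟩ := afc_mem_bd h1
    obtain ⟨g1, g2, g3, q1, q2, q3⟩ := hTm t ht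
    rw [← hxy2 j] at h2
    rcases h2 with h2 | h2 | h2 <;> rw [Sym2.eq_iff] at h2 <;>
      rcases h2 with ⟨h2, h3⟩ | ⟨h2, h3⟩ <;> rw [h2, h3]
    · exact ⟨g1, q1, q2⟩
    · exact ⟨g1.symm, q2, q1⟩
    · exact ⟨g2, q2, q3⟩
    · exact ⟨g2.symm, q3, q2⟩
    · exact ⟨g3, q3, q1⟩
    · exact ⟨g3.symm, q1, q3⟩
  set Q2 : Finset V := Q1 ∪ I1.image m1 ∪ (I2.image x2 ∪ I2.image y2) with hQ2
  have hQ2c : Q2.card ≤ Q1.card + I1.card + (I2.card + I2.card) := by
    refine (Finset.card_union_le _ _).trans (Nat.add_le_add ?_ ?_)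
    · exact (Finset.card_union_le _ _).trans (Nat.add_le_add_left Finset.card_image_le _)
    · exact (Finset.card_union_le _ _).trans (Nat.add_le_add Finset.card_image_le
        Finset.card_image_le)
  obtain ⟨m2, hm2, hm2inj⟩ := afc_mids I2 x2 y2 (fun j hj => (hG2 j hj).1) Q2
    (lt_of_lt_of_le (hnum _ (by omega)) hδη)
  have hm2Q : ∀ j ∈ I2, m2 j ∉ Z ∧ m2 j ∉ X ∧ m2 j ∉ afc_V F0 ∧ m2 j ∉ J.image z ∧
      m2 j ∉ I1.image m1 ∧ m2 j ∉ I2.image x2 ∧ m2 j ∉ I2.image y2 := by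
    intro j hj
    have h1 := (hm2 j hj).2.2.2
    simp only [hQ2, hQ1, hQ0, Finset.mem_union, not_or] at h1
    exact ⟨h1.1.1.1.1.1, h1.1.1.1.1.2, h1.1.1.1.2, h1.1.1.2, h1.1.2, h1.2.1, h1.2.2⟩
  have hmx2 : ∀ j ∈ I2, ∀ j' ∈ I2, m2 j ≠ x2 j' ∧ m2 j ≠ y2 j' := by
    intro j hj j' hj'
    have h1 := hm2Q j hj
    exact ⟨fun h => h1.2.2.2.2.2.1 (h ▸ Finset.mem_image_of_mem _ hj'),
      fun h => h1.2.2.2.2.2.2 (h ▸ Finset.mem_image_of_mem _ hj')⟩
  have hmx21 : ∀ j ∈ I2, ∀ j' ∈ I1, m2 j ≠ x1 j' ∧ m2 j ≠ m1 j' ∧ m2 j ≠ y1 j' := by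
    intro j hj j' hj'
    have h1 := hm2Q j hj
    have h2 := hend1 j' hj'
    refine ⟨fun h => ?_, fun h => h1.2.2.2.2.1 (h ▸ Finset.mem_image_of_mem _ hj'), fun h => ?_⟩
    · rw [h] at h1
      rcases h2.1 with h3 | h3
      · exact h1.2.2.1 h3
      · exact h1.2.2.2.1 h3
    · rw [h] at h1
      rcases h2.2 with h3 | h3
      · exact h1.2.2.1 h3
      · exact h1.2.2.2.1 h3
  have hmx12 : ∀ j ∈ I1, ∀ j' ∈ I2, m1 j ≠ x2 j' ∧ m1 j ≠ y2 j' := by
    intro j hj j' hj'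
    exact ⟨hQm _ (hG2 j' hj').2.1 j hj, hQm _ (hG2 j' hj').2.2 j hj⟩
  set R : Finset (Sym2 V) := I2.biUnion (fun j => chE (x2 j, m2 j, y2 j)) with hR
  have hRE : R ⊆ E := by
    intro e he
    obtain ⟨j, hj, he⟩ := Finset.mem_biUnion.1 he
    rcases afc_mem_chE.1 he with rfl | rfl
    · exact (hm2 j hj).2.1
    · exact (hm2 j hj).2.2.1
  have hF0R : Disjoint F0 R := by
    rw [Finset.disjoint_left]
    intro e he he'
    obtain ⟨j, hj, he'⟩ := Finset.mem_biUnion.1 he'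
    exact (hm2Q j hj).2.2.1 (afc_mem_V.2 ⟨e, he, afc_mid he'⟩)
  have hWR : Disjoint W R := by
    rw [Finset.disjoint_left]
    intro e he he'
    obtain ⟨j', hj', he⟩ := Finset.mem_biUnion.1 he
    obtain ⟨j, hj, he'⟩ := Finset.mem_biUnion.1 he'
    have h1 := hmx21 j hj j' hj'
    rcases afc_ends he (afc_mid he') with h | h | h
    · exact h1.1 h
    · exact h1.2.1 h
    · exact h1.2.2 h
  have htri : ∀ (T : List (V × V × V)) (Q : Set V), (∀ t ∈ T, GTri (Gam E U η) Q t) →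
      ∀ t ∈ T, t.1 ≠ t.2.1 ∧ t.2.1 ≠ t.2.2 ∧ t.2.2 ≠ t.1 := by
    intro T Q hT t ht
    exact ⟨(hT t ht).1.1, (hT t ht).2.1.1, (hT t ht).2.2.1.1⟩
  have hDecR : Dec R := regroup I2 x2 m2 y2 Tm hm2inj hmx2 (htri _ _ hTm) hmap2
  have hDecWR : Dec (W ∪ R) := by
    have h1 := regroup (I1.disjSum I2) (Sum.elim x1 x2) (Sum.elim m1 m2) (Sum.elim y1 y2) Tp
      (by
        intro j hj j' hj' h
        rcases j with j | j <;> rcases j' with j' | j'
        · rw [Finset.inl_mem_disjSum] at hj hj'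
          exact congrArg Sum.inl (hm1inj j hj j' hj' h)
        · rw [Finset.inl_mem_disjSum] at hj
          rw [Finset.inr_mem_disjSum] at hj'
          exact absurd h.symm (hmx21 j' hj' j hj).2.1
        · rw [Finset.inr_mem_disjSum] at hj
          rw [Finset.inl_mem_disjSum] at hj'
          exact absurd h (hmx21 j hj j' hj').2.1
        · rw [Finset.inr_mem_disjSum] at hj hj'
          exact congrArg Sum.inr (hm2inj j hj j' hj' h))
      (by
        intro j hj j' hj'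
        rcases j with j | j <;> rcases j' with j' | j'
        · rw [Finset.inl_mem_disjSum] at hj hj'
          exact hmx1 j hj j' hj'
        · rw [Finset.inl_mem_disjSum] at hj
          rw [Finset.inr_mem_disjSum] at hj'
          exact hmx12 j hj j' hj'
        · rw [Finset.inr_mem_disjSum] at hj
          rw [Finset.inl_mem_disjSum] at hj'
          exact ⟨(hmx21 j hj j' hj').1, (hmx21 j hj j' hj').2.2⟩
        · rw [Finset.inr_mem_disjSum] at hj hj'
          exact hmx2 j hj j' hj')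
      (htri _ _ hTp) (by
        rw [← hTT, ← hmap2, hw, Finset.val_disjSum, Multiset.disjSum, Multiset.map_add,
          Multiset.map_map, Multiset.map_map]
        rfl)
    have h2 : (I1.disjSum I2).biUnion (fun j => chE (Sum.elim x1 x2 j, Sum.elim m1 m2 j,
        Sum.elim y1 y2 j)) = W ∪ R := by
      ext e
      rw [Finset.mem_union, Finset.mem_biUnion, Finset.mem_biUnion, Finset.mem_biUnion]
      constructor
      · rintro ⟨j, hj, he⟩
        rcases j with j | j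
        · rw [Finset.inl_mem_disjSum] at hj
          exact Or.inl ⟨j, hj, he⟩
        · rw [Finset.inr_mem_disjSum] at hj
          exact Or.inr ⟨j, hj, he⟩
      · rintro (⟨j, hj, he⟩ | ⟨j, hj, he⟩)
        · exact ⟨Sum.inl j, Finset.inl_mem_disjSum.2 hj, he⟩
        · exact ⟨Sum.inr j, Finset.inr_mem_disjSum.2 hj, he⟩
    rwa [h2] at h1
  refine ⟨W, R, hWE, hRE, hF0W, hF0R, hWR, hDec1, hDecR, hDecWR, ?_, ?_, ?_⟩
  · intro e he heX
    rw [Finset.mem_sym2_iff] at heX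
    rcases Finset.mem_union.1 he with he | he
    · obtain ⟨j, hj, he⟩ := Finset.mem_biUnion.1 he
      exact (hm1Q j hj).2.1 (heX _ (afc_mid he))
    · obtain ⟨j, hj, he⟩ := Finset.mem_biUnion.1 he
      exact (hm2Q j hj).2.1 (heX _ (afc_mid he))
  · intro e he v hv hvX
    rcases Finset.mem_union.1 he with he | he
    · obtain ⟨j, hj, he⟩ := Finset.mem_biUnion.1 he
      rcases afc_ends he hv with h | h | h
      · rw [h] at hvX ⊢
        exact hXZ _ (hend1 j hj).1 hvX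
      · rw [h]
        exact (hm1Q j hj).1
      · rw [h] at hvX ⊢
        exact hXZ _ (hend1 j hj).2 hvX
    · obtain ⟨j, hj, he⟩ := Finset.mem_biUnion.1 he
      rcases afc_ends he hv with h | h | h
      · rw [h] at hvX ⊢
        exact hQZ _ (hG2 j hj).2.1 hvX
      · rw [h]
        exact (hm2Q j hj).1
      · rw [h] at hvX ⊢
        exact hQZ _ (hG2 j hj).2.2 hvX
  · have h1 : W.card ≤ I1.card * 2 :=
      Finset.card_biUnion_le.trans (Finset.sum_le_card_nsmul _ _ _ fun j _ => afc_card_chE_le _)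
    have h2 : R.card ≤ I2.card * 2 :=
      Finset.card_biUnion_le.trans (Finset.sum_le_card_nsmul _ _ _ fun j _ => afc_card_chE_le _)
    omega

end H15C6
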