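import Pool.Agent.H15.C6.ALGA

/-!
Module ALGE.  The algebra for the exceptional pattern with four classes (`cl = 0,1,2,3` are the classes
`V1,V2,V3,V4`).  `Γ` joins all pairs of distinct vertices except those of types `{0,3}` and `{1,2}`.

`K4Prop` holds for `S1 := {x ∈ S : cl x ≠ 3}` (witnesses `z,w` in class 0) and for
`S4 := {x ∈ S : cl x ≠ 0}` (witnesses in class 3).  Take `p, q, c` all in class 1 (in `S ∩ Q`): `alpha_exists`
gives `α1` on `S1` and `α4` on `S4`, with the *same* reference edge `pq`.  Every `Γ`-edge lies inside `S1` or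
inside `S4`.  For `x` in class 1 or 2 put `δ x := α1 x - α4 x`; `2 δ x` is `Gen 32`; for distinct `x, z` of
the same class (1 or 2) `δ x + δ z` is `Gen 114` (both `≡ e(xz)`), hence `δ x - δ x0` is `Gen 146` for a
fixed `x0` of that class (in `S ∩ Q`).
Let `α := α1` on classes 0,1,2 and `α4` on class 3.  For a `Γ`-edge `xz` not of type `{1,3}`, `{2,3}`:
`e(xz) ≡ α x + α z` (`Gen 57`).  For `x` in class 1 or 2 and `z` in class 3:
`e(xz) ≡ α4 x + α4 z = α x + α z - δ x`.  Hence the indicator of `w` is, up to `O(card w)` triangles,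
`∑_{ends} α - n13 δ(x1) - n23 δ(x2)`, where `nij` is the number of edges of `w` of type `{i,j}`.  The first sum is
treated as in `alg_nb`.  Degree parity: summing even degrees over class 0: `n01 + n02` even (type
`{0,3}` does not occur); over class 1: `n01 + n13` even; over class 3: `n13 + n23` even.
As `n01` is even (`hpar`), `n13` and `n23` are even, and `n13 δ(x1) = (n13/2) (2 δ(x1))` is `Gen (32 n13)`.
Note: `(w.map (Sym2.map cl)).count s(0,1)` is `n01`.
-/

open Finset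

namespace H15C6

/-- pairs of classes without common neighbours -/
def BadPair (a b : Fin 4) : Prop :=
  (a = 0 ∧ b = 3) ∨ (a = 3 ∧ b = 0) ∨ (a = 1 ∧ b = 2) ∨ (a = 2 ∧ b = 1)

instance (a b : Fin 4) : Decidable (BadPair a b) := by unfold BadPair; infer_instance

theorem alge_half {V : Type} [DecidableEq V] (M : Multiset V) (h : ∀ v, Even (M.count v)) :
    ∃ H : Multiset V, M = H + H := by
  refine ⟨∑ v ∈ M.toFinset, (M.count v / 2) • {v}, ?_⟩
  have h1 := Multiset.toFinset_sum_count_nsmul_eq M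
  rw [← Finset.sum_add_distrib]
  conv_lhs => rw [← h1]
  refine Finset.sum_congr rfl fun v _ => ?_
  rw [← add_nsmul]
  obtain ⟨k, hk⟩ := h v
  congr 1
  omega

theorem alge_sum_pair {V A : Type} [AddCommMonoid A] (l : Multiset (V × V)) (f : V → A) :
    ((l.map Prod.fst + l.map Prod.snd).map f).sum = (l.map (fun p => f p.1 + f p.2)).sum := by
  rw [Multiset.map_add, Multiset.sum_add, Multiset.map_map, Multiset.map_map,
    Multiset.sum_map_add]
  rfl

theorem alge_countP {V : Type} [DecidableEq V] (l : Multiset (V × V)) (v : V)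
    (hl : ∀ p ∈ l, p.1 ≠ p.2) :
    (l.map Prod.fst + l.map Prod.snd).count v =
      (l.map (fun p => s(p.1, p.2))).countP (fun e => v ∈ e) := by
  induction l using Multiset.induction_on with
  | empty => simp
  | cons p l ih =>
    have h1 := ih (fun p hp => hl p (Multiset.mem_cons_of_mem hp))
    have h2 := hl p (Multiset.mem_cons_self p l)
    rw [Multiset.map_cons, Multiset.map_cons, Multiset.map_cons, Multiset.countP_cons, ← h1]
    rw [Multiset.count_add, Multiset.count_add, Multiset.count_cons, Multiset.count_cons]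
    have h3 : (if v ∈ s(p.1, p.2) then 1 else 0) =
        (if v = p.1 then 1 else 0) + (if v = p.2 then 1 else 0) := by
      by_cases ha : v = p.1
      · have hb : v ≠ p.2 := fun h => h2 (ha.symm.trans h)
        rw [if_pos ha, if_neg hb, if_pos (Sym2.mem_iff.2 (Or.inl ha))]
      · by_cases hb : v = p.2
        · rw [if_neg ha, if_pos hb, if_pos (Sym2.mem_iff.2 (Or.inr hb))]
        · rw [if_neg ha, if_neg hb, if_neg]
          rw [Sym2.mem_iff]
          tauto
    rw [h3]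
    omega

theorem alge_count {β γ : Type} [DecidableEq γ] (l : Multiset β) (f : β → γ) (a : γ) :
    (l.map f).count a = (l.map (fun b => if f b = a then 1 else 0)).sum := by
  induction l using Multiset.induction_on with
  | empty => simp
  | cons p l ih =>
    rw [Multiset.map_cons, Multiset.count_cons, ih, Multiset.map_cons, Multiset.sum_cons,
      add_comm]
    congr 1
    by_cases h : f p = a
    · rw [if_pos h, if_pos h.symm]
    · rw [if_neg h, if_neg (fun h' => h h'.symm)]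

theorem alge_even {β : Type} (l : Multiset β) (g : β → ℕ) (h : ∀ b ∈ l, Even (g b)) :
    Even (l.map g).sum := by
  induction l using Multiset.induction_on with
  | empty => simp
  | cons p l ih =>
    rw [Multiset.map_cons, Multiset.sum_cons]
    exact (h p (Multiset.mem_cons_self p l)).add
      (ih fun b hb => h b (Multiset.mem_cons_of_mem hb))

theorem alge_le {β : Type} (l : Multiset β) (g : β → ℕ) (h : ∀ b ∈ l, g b ≤ 1) :
    (l.map g).sum ≤ l.card := by
  induction l using Multiset.induction_on with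
  | empty => simp
  | cons p l ih =>
    rw [Multiset.map_cons, Multiset.sum_cons, Multiset.card_cons]
    have h1 := h p (Multiset.mem_cons_self p l)
    have h2 := ih fun b hb => h b (Multiset.mem_cons_of_mem hb)
    omega

theorem alge_nsmul {β A : Type} [AddCommMonoid A] (l : Multiset β) (g : β → ℕ) (y : A) :
    (l.map (fun r => g r • y)).sum = (l.map g).sum • y := by
  induction l using Multiset.induction_on with
  | empty => simp
  | cons r l ih =>
    rw [Multiset.map_cons, Multiset.sum_cons, ih, Multiset.map_cons, Multiset.sum_cons, add_nsmul]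

theorem alge_par1 : ∀ a b : Fin 4, ¬ BadPair a b →
    Even ((if a = 1 then 1 else 0) + (if b = 1 then 1 else 0) +
      ((if s(a, b) = s((0 : Fin 4), 1) then 1 else 0) +
        (if s(a, b) = s((1 : Fin 4), 3) then 1 else 0)) : ℕ) := by
  decide

theorem alge_par3 : ∀ a b : Fin 4, ¬ BadPair a b →
    Even ((if a = 3 then 1 else 0) + (if b = 3 then 1 else 0) +
      ((if s(a, b) = s((1 : Fin 4), 3) then 1 else 0) +
        (if s(a, b) = s((2 : Fin 4), 3) then 1 else 0)) : ℕ) := by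
  decide

theorem alge_K4 {V : Type} [DecidableEq V] {Γ : V → V → Prop} {cl : V → Fin 4} {S Q : Set V}
    (hΓ' : ∀ x y, x ∈ S → y ∈ S → x ≠ y → ¬ BadPair (cl x) (cl y) → Γ x y)
    (hmany : ∀ i : Fin 4, ∀ F : Finset V, F.card ≤ 8 → ∃ z ∈ S, z ∈ Q ∧ cl z = i ∧ z ∉ F)
    (i : Fin 4) (P : Fin 4 → Prop) (hPi : P i) (hP : ∀ a, P a → ¬ BadPair i a) :
    K4Prop Γ {x | x ∈ S ∧ P (cl x)} Q := by
  intro x1 h1 x2 h2 x3 h3 x4 h4
  obtain ⟨z, hzS, hzQ, hzc, hzF⟩ := hmany i {x1, x2, x3, x4}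
    (Finset.card_le_four.trans (by norm_num))
  obtain ⟨w, hwS, hwQ, hwc, hwF⟩ := hmany i (insert z {x1, x2, x3, x4}) (by
    have h5 := Finset.card_insert_le z {x1, x2, x3, x4}
    have h6 : ({x1, x2, x3, x4} : Finset V).card ≤ 4 := Finset.card_le_four
    omega)
  simp only [Finset.mem_insert, Finset.mem_singleton, not_or] at hzF hwF
  obtain ⟨hz1, hz2, hz3, hz4⟩ := hzF
  obtain ⟨hwz, hw1, hw2, hw3, hw4⟩ := hwF
  have hz : ∀ x, x ∈ S → P (cl x) → z ≠ x → Γ z x := fun x hx hPx hne =>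
    hΓ' z x hzS hx hne (by rw [hzc]; exact hP _ hPx)
  have hw : ∀ x, x ∈ S → P (cl x) → w ≠ x → Γ w x := fun x hx hPx hne =>
    hΓ' w x hwS hx hne (by rw [hwc]; exact hP _ hPx)
  refine ⟨z, w, ⟨hzS, by rw [hzc]; exact hPi⟩, ⟨hwS, by rw [hwc]; exact hPi⟩, hzQ, hwQ,
    hz w hwS (by rw [hwc]; exact hPi) (fun h => hwz h.symm), ⟨?_, ?_, ?_, ?_⟩, ?_, ?_, ?_, ?_⟩
  · exact hz x1 h1.1 h1.2 hz1
  · exact hz x2 h2.1 h2.2 hz2
  · exact hz x3 h3.1 h3.2 hz3
  · exact hz x4 h4.1 h4.2 hz4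
  · exact hw x1 h1.1 h1.2 hw1
  · exact hw x2 h2.1 h2.2 hw2
  · exact hw x3 h3.1 h3.2 hw3
  · exact hw x4 h4.1 h4.2 hw4

theorem alg_e3 {V : Type} [DecidableEq V] (Γ : V → V → Prop) (hsym : ∀ x y, Γ x y → Γ y x)
    (hirr : ∀ x, ¬ Γ x x) (cl : V → Fin 4) (S Q : Set V)
    (hΓ : ∀ x y, x ∈ S → y ∈ S → Γ x y → ¬ BadPair (cl x) (cl y))
    (hΓ' : ∀ x y, x ∈ S → y ∈ S → x ≠ y → ¬ BadPair (cl x) (cl y) → Γ x y)
    (hmany : ∀ i : Fin 4, ∀ F : Finset V, F.card ≤ 8 → ∃ z ∈ S, z ∈ Q ∧ cl z = i ∧ z ∉ F)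
    (w : Multiset (Sym2 V))
    (hw : ∀ e ∈ w, ∃ x y, e = s(x, y) ∧ x ∈ S ∧ x ∈ Q ∧ y ∈ S ∧ y ∈ Q ∧ Γ x y)
    (heven : ∀ v, Even (w.countP (fun e => v ∈ e))) (h3 : 3 ∣ w.card)
    (hpar : Even ((w.map (Sym2.map cl)).count s(0, 1))) :
    Solv Γ Q (1000 * w.card) w := by
  obtain ⟨p, hpS, hpQ, hp1, -⟩ := hmany 1 ∅ (by simp)
  obtain ⟨q, hqS, hqQ, hq1, hqp⟩ := hmany 1 {p} (by simp)
  obtain ⟨x2, hx2S, hx2Q, hx2c, -⟩ := hmany 2 ∅ (by simp)
  have hpq : Γ p q := hΓ' p q hpS hqS (by rintro rfl; simp at hqp) (by rw [hp1, hq1]; decide)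
  have hK1 := alge_K4 hΓ' hmany 0 (fun a => a ≠ 3) (by decide) (by decide)
  have hK4 := alge_K4 hΓ' hmany 3 (fun a => a ≠ 0) (by decide) (by decide)
  obtain ⟨h6, -, α1, hα1, hα1'⟩ := alpha_exists hsym hirr _ hK1 p q p ⟨hpS, by rw [hp1]; decide⟩
    hpQ ⟨hqS, by rw [hq1]; decide⟩ hqQ hpq ⟨hpS, by rw [hp1]; decide⟩ hpQ
  obtain ⟨-, -, α4, hα4, hα4'⟩ := alpha_exists hsym hirr _ hK4 p q p ⟨hpS, by rw [hp1]; decide⟩
    hpQ ⟨hqS, by rw [hq1]; decide⟩ hqQ hpq ⟨hpS, by rw [hp1]; decide⟩ hpQ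
  -- the difference
  have hd2 : ∀ x, x ∈ S → x ∈ Q → cl x ≠ 0 → cl x ≠ 3 → Gen Γ Q 32 (2 • (α1 x - α4 x)) := by
    intro x hxS hxQ hx0 hx3
    have h := (hα1 x ⟨hxS, hx3⟩ hxQ).sub (hα4 x ⟨hxS, hx0⟩ hxQ)
    have he : (2 • α1 x - 4 • e1 p q) - (2 • α4 x - 4 • e1 p q) = 2 • (α1 x - α4 x) := by abel
    rwa [he] at h
  have hdd : ∀ x z, x ∈ S → x ∈ Q → z ∈ S → z ∈ Q → cl x ≠ 0 → cl x ≠ 3 → cl z = cl x →
      Gen Γ Q 146 ((α1 x - α4 x) - (α1 z - α4 z)) := by
    intro x z hxS hxQ hzS hzQ hx0 hx3 hzx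
    by_cases hne : x = z
    · rw [hne, sub_self]
      exact Gen.zero.mono (by norm_num)
    · have hg : Γ x z := hΓ' x z hxS hzS hne (by
        rw [hzx]
        generalize cl x = i at hx0 hx3
        revert i
        decide)
      have h1 := hα1' x z ⟨hxS, hx3⟩ hxQ ⟨hzS, by rw [hzx]; exact hx3⟩ hzQ hg
      have h2 := hα4' x z ⟨hxS, hx0⟩ hxQ ⟨hzS, by rw [hzx]; exact hx0⟩ hzQ hg
      have h4 := (h2.sub h1).sub (hd2 z hzS hzQ (by rw [hzx]; exact hx0) (by rw [hzx]; exact hx3))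
      have he : (e1 x z - α4 x - α4 z - (e1 x z - α1 x - α1 z)) - 2 • (α1 z - α4 z) =
          (α1 x - α4 x) - (α1 z - α4 z) := by abel
      rw [he] at h4
      exact h4.mono (by norm_num)
  -- the combined function
  obtain ⟨α, hαdef⟩ : ∃ α : V → Sym2 V → ℤ, ∀ x, α x = if cl x = 3 then α4 x else α1 x :=
    ⟨_, fun _ => rfl⟩
  have hαa : ∀ x, cl x ≠ 3 → α x = α1 x := fun x hx => by rw [hαdef, if_neg hx]
  have hαb : ∀ x, cl x = 3 → α x = α4 x := fun x hx => by rw [hαdef, if_pos hx]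
  have hα2 : ∀ x, x ∈ S → x ∈ Q → Gen Γ Q 16 (2 • α x - 4 • e1 p q) := by
    intro x hxS hxQ
    by_cases hx : cl x = 3
    · rw [hαb x hx]
      exact hα4 x ⟨hxS, by rw [hx]; decide⟩ hxQ
    · rw [hαa x hx]
      exact hα1 x ⟨hxS, hx⟩ hxQ
  -- one orientation
  have hone : ∀ x z, x ∈ S → x ∈ Q → z ∈ S → z ∈ Q → Γ x z → cl z = 3 → cl x ≠ 3 →
      Gen Γ Q 203 (e1 x z - (α x + α z) +
        (if s(cl x, cl z) = s((1 : Fin 4), 3) then 1 else 0) • (α1 p - α4 p) +
        (if s(cl x, cl z) = s((2 : Fin 4), 3) then 1 else 0) • (α1 x2 - α4 x2)) := by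
    intro x z hxS hxQ hzS hzQ hg hz3 hx3
    have hx0 : cl x ≠ 0 := by
      intro h0
      apply hΓ x z hxS hzS hg
      rw [h0, hz3]
      decide
    have h1 := hα4' x z ⟨hxS, hx0⟩ hxQ ⟨hzS, by rw [hz3]; decide⟩ hzQ hg
    have hx12 : cl x = 1 ∨ cl x = 2 := by
      generalize cl x = i at hx0 hx3
      revert i
      decide
    rw [hαa x hx3, hαb z hz3, hz3]
    rcases hx12 with hx1 | hx1
    · have h2 := h1.sub (hdd x p hxS hxQ hpS hpQ hx0 hx3 (by rw [hx1, hp1]))
      have he : e1 x z - α4 x - α4 z - (α1 x - α4 x - (α1 p - α4 p)) =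
        e1 x z - (α1 x + α4 z) +
        (if s(cl x, 3) = s((1 : Fin 4), 3) then 1 else 0) • (α1 p - α4 p) +
        (if s(cl x, 3) = s((2 : Fin 4), 3) then 1 else 0) • (α1 x2 - α4 x2) := by
        rw [hx1, if_pos rfl, if_neg (by decide), one_nsmul, zero_nsmul]
        abel
      rw [he] at h2
      exact h2
    · have h2 := h1.sub (hdd x x2 hxS hxQ hx2S hx2Q hx0 hx3 (by rw [hx1, hx2c]))
      have he : e1 x z - α4 x - α4 z - (α1 x - α4 x - (α1 x2 - α4 x2)) =
        e1 x z - (α1 x + α4 z) +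
        (if s(cl x, 3) = s((1 : Fin 4), 3) then 1 else 0) • (α1 p - α4 p) +
        (if s(cl x, 3) = s((2 : Fin 4), 3) then 1 else 0) • (α1 x2 - α4 x2) := by
        rw [hx1, if_pos rfl, if_neg (by decide), one_nsmul, zero_nsmul]
        abel
      rw [he] at h2
      exact h2
  have hall : ∀ x z, x ∈ S → x ∈ Q → z ∈ S → z ∈ Q → Γ x z →
      Gen Γ Q 203 (e1 x z - (α x + α z) +
        (if s(cl x, cl z) = s((1 : Fin 4), 3) then 1 else 0) • (α1 p - α4 p) +
        (if s(cl x, cl z) = s((2 : Fin 4), 3) then 1 else 0) • (α1 x2 - α4 x2)) := by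
    intro x z hxS hxQ hzS hzQ hg
    by_cases hx : cl x = 3
    · by_cases hz : cl z = 3
      · have h1 := hα4' x z ⟨hxS, by rw [hx]; decide⟩ hxQ ⟨hzS, by rw [hz]; decide⟩ hzQ hg
        rw [hαb x hx, hαb z hz, hx, hz, if_neg (by decide), if_neg (by decide), zero_nsmul,
          zero_nsmul, add_zero, add_zero]
        rw [sub_sub] at h1
        exact h1.mono (by norm_num)
      · have h1 := hone z x hzS hzQ hxS hxQ (hsym x z hg) hx hz
        rw [e1_comm x z, add_comm (α x), Sym2.eq_swap (a := cl x)]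
        exact h1
    · by_cases hz : cl z = 3
      · exact hone x z hxS hxQ hzS hzQ hg hz hx
      · have h1 := hα1' x z ⟨hxS, hx⟩ hxQ ⟨hzS, hz⟩ hzQ hg
        have h2 : s(cl x, cl z) ≠ s((1 : Fin 4), 3) := by
          generalize cl x = i at hx
          generalize cl z = j at hz
          revert i j
          decide
        have h4 : s(cl x, cl z) ≠ s((2 : Fin 4), 3) := by
          generalize cl x = i at hx
          generalize cl z = j at hz
          revert i j
          decide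
        rw [hαa x hx, hαa z hz, if_neg h2, if_neg h4, zero_nsmul,
          zero_nsmul, add_zero, add_zero]
        rw [sub_sub] at h1
        exact h1.mono (by norm_num)
  -- ordered pairs
  obtain ⟨l, hl⟩ : ∃ l : Multiset (V × V), l.map (fun p => s(p.1, p.2)) = w := by
    have h1 : ∀ e : Sym2 V, ∃ p : V × V, s(p.1, p.2) = e := by
      intro e
      induction e using Sym2.ind with
      | _ a b => exact ⟨(a, b), rfl⟩
    choose g hg using h1
    refine ⟨w.map g, ?_⟩
    rw [Multiset.map_map]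
    conv_rhs => rw [← Multiset.map_id w]
    exact Multiset.map_congr rfl fun e _ => hg e
  have hlw : ∀ r ∈ l, r.1 ∈ S ∧ r.1 ∈ Q ∧ r.2 ∈ S ∧ r.2 ∈ Q ∧ Γ r.1 r.2 := by
    intro r hr
    obtain ⟨x, y, hxy, hxS, hxQ, hyS, hyQ, hg⟩ := hw s(r.1, r.2) (by
      rw [← hl]
      exact Multiset.mem_map_of_mem _ hr)
    rw [Sym2.eq_iff] at hxy
    rcases hxy with ⟨h1, h2⟩ | ⟨h1, h2⟩
    · rw [h1, h2]
      exact ⟨hxS, hxQ, hyS, hyQ, hg⟩
    · rw [h1, h2]
      exact ⟨hyS, hyQ, hxS, hxQ, hsym _ _ hg⟩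
  have hcard : w.card = l.card := by rw [← hl, Multiset.card_map]
  have hbad : ∀ r ∈ l, ¬ BadPair (cl r.1) (cl r.2) := fun r hr =>
    hΓ _ _ (hlw r hr).1 (hlw r hr).2.2.1 (hlw r hr).2.2.2.2
  obtain ⟨H, hH⟩ := alge_half (l.map Prod.fst + l.map Prod.snd) (by
    intro v
    rw [alge_countP l v, hl]
    · exact heven v
    · intro r hr h
      have := (hlw r hr).2.2.2.2
      rw [h] at this
      exact hirr _ this)
  have hHcard : H.card = l.card := by
    have h1 := congrArg Multiset.card hH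
    rw [Multiset.card_add, Multiset.card_add, Multiset.card_map, Multiset.card_map] at h1
    omega
  have hHmem : ∀ v ∈ H, v ∈ S ∧ v ∈ Q := by
    intro v hv
    have h1 : v ∈ l.map Prod.fst + l.map Prod.snd := by
      rw [hH]
      exact Multiset.mem_add.2 (Or.inl hv)
    rw [Multiset.mem_add, Multiset.mem_map, Multiset.mem_map] at h1
    rcases h1 with ⟨r, hr, rfl⟩ | ⟨r, hr, rfl⟩
    · exact ⟨(hlw r hr).1, (hlw r hr).2.1⟩
    · exact ⟨(hlw r hr).2.2.1, (hlw r hr).2.2.2.1⟩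
  -- sums over pairs
  have hsumf : ∀ f : V → ℕ, Even (l.map (fun r => f r.1 + f r.2)).sum := by
    intro f
    rw [← alge_sum_pair, hH, Multiset.map_add, Multiset.sum_add]
    exact ⟨_, rfl⟩
  -- the numbers of edges
  have h01 : Even (l.map (fun r => if s(cl r.1, cl r.2) = s((0 : Fin 4), 1) then 1 else 0)).sum := by
    rw [← hl, Multiset.map_map] at hpar
    have h1 := alge_count l (Sym2.map cl ∘ fun p => s(p.1, p.2)) s((0 : Fin 4), 1)
    rw [h1] at hpar
    exact hpar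
  have h13 : Even (l.map (fun r => if s(cl r.1, cl r.2) = s((1 : Fin 4), 3) then 1 else 0)).sum := by
    have h1 := alge_even l (fun r => (if cl r.1 = 1 then 1 else 0) + (if cl r.2 = 1 then 1 else 0) +
      ((if s(cl r.1, cl r.2) = s((0 : Fin 4), 1) then 1 else 0) +
        (if s(cl r.1, cl r.2) = s((1 : Fin 4), 3) then 1 else 0)))
      (fun r hr => alge_par1 _ _ (hbad r hr))
    rw [Multiset.sum_map_add, Multiset.sum_map_add (f := fun r : V × V =>
      (if s(cl r.1, cl r.2) = s((0 : Fin 4), 1) then 1 else 0))] at h1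
    have h2 := hsumf (fun v => if cl v = 1 then 1 else 0)
    exact (Nat.even_add.1 ((Nat.even_add.1 h1).1 h2)).1 h01
  have h23 : Even (l.map (fun r => if s(cl r.1, cl r.2) = s((2 : Fin 4), 3) then 1 else 0)).sum := by
    have h1 := alge_even l (fun r => (if cl r.1 = 3 then 1 else 0) + (if cl r.2 = 3 then 1 else 0) +
      ((if s(cl r.1, cl r.2) = s((1 : Fin 4), 3) then 1 else 0) +
        (if s(cl r.1, cl r.2) = s((2 : Fin 4), 3) then 1 else 0)))
      (fun r hr => alge_par3 _ _ (hbad r hr))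
    rw [Multiset.sum_map_add, Multiset.sum_map_add (f := fun r : V × V =>
      (if s(cl r.1, cl r.2) = s((1 : Fin 4), 3) then 1 else 0))] at h1
    have h2 := hsumf (fun v => if cl v = 3 then 1 else 0)
    exact (Nat.even_add.1 ((Nat.even_add.1 h1).1 h2)).1 h13
  have hl13 := alge_le l (fun r => if s(cl r.1, cl r.2) = s((1 : Fin 4), 3) then 1 else 0)
    (fun r _ => by split_ifs <;> norm_num)
  have hl23 := alge_le l (fun r => if s(cl r.1, cl r.2) = s((2 : Fin 4), 3) then 1 else 0)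
    (fun r _ => by split_ifs <;> norm_num)
  obtain ⟨a, ha⟩ := h13
  obtain ⟨b, hb⟩ := h23
  rw [ha] at hl13
  rw [hb] at hl23
  -- the final computation
  have hA := Gen.msum l (fun r => e1 r.1 r.2 - (α r.1 + α r.2) +
        (if s(cl r.1, cl r.2) = s((1 : Fin 4), 3) then 1 else 0) • (α1 p - α4 p) +
        (if s(cl r.1, cl r.2) = s((2 : Fin 4), 3) then 1 else 0) • (α1 x2 - α4 x2)) 203
    (fun r hr => hall r.1 r.2 (hlw r hr).1 (hlw r hr).2.1 (hlw r hr).2.2.1 (hlw r hr).2.2.2.1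
      (hlw r hr).2.2.2.2)
  have hB := Gen.msum H (fun v => 2 • α v - 4 • e1 p q) 16
    (fun v hv => hα2 v (hHmem v hv).1 (hHmem v hv).2)
  obtain ⟨k, hk⟩ := h3
  have hC := Gen.nsmul (2 * k) h6
  have hD := Gen.nsmul a (hd2 p hpS hpQ (by rw [hp1]; decide) (by rw [hp1]; decide))
  have hE := Gen.nsmul b (hd2 x2 hx2S hx2Q (by rw [hx2c]; decide) (by rw [hx2c]; decide))
  have hfin := (((hA.add hB).add hC).sub hD).sub hE
  apply solv_of_gen
  have hsum : (fun e => (w.count e : ℤ)) = (l.map (fun r => e1 r.1 r.2)).sum := by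
    rw [← hl]
    exact count_eq_sum l
  have hAs : (l.map (fun r => e1 r.1 r.2 - (α r.1 + α r.2) +
        (if s(cl r.1, cl r.2) = s((1 : Fin 4), 3) then 1 else 0) • (α1 p - α4 p) +
        (if s(cl r.1, cl r.2) = s((2 : Fin 4), 3) then 1 else 0) • (α1 x2 - α4 x2))).sum =
      (l.map (fun r => e1 r.1 r.2)).sum - (H.map (fun v => 2 • α v)).sum +
        (a + a) • (α1 p - α4 p) + (b + b) • (α1 x2 - α4 x2) := by
    rw [Multiset.sum_map_add, Multiset.sum_map_add, Multiset.sum_map_sub, ← ha, ← hb,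
      ← alge_sum_pair, hH, Multiset.map_add, Multiset.sum_add]
    rw [alge_nsmul, alge_nsmul]
    congr 2
    rw [← Multiset.sum_map_add]
    congr 2
    refine Multiset.map_congr rfl fun v _ => ?_
    rw [two_nsmul]
  have hBs : (H.map (fun v => 2 • α v - 4 • e1 p q)).sum =
      (H.map (fun v => 2 • α v)).sum - (4 * (3 * k)) • e1 p q := by
    rw [Multiset.sum_map_sub, Multiset.map_const', Multiset.sum_replicate, hHcard, ← hcard, hk,
      ← mul_nsmul']
    ring_nf
  rw [hAs, hBs] at hfin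
  have hfe : (l.map (fun r => e1 r.1 r.2)).sum - (H.map (fun v => 2 • α v)).sum +
        (a + a) • (α1 p - α4 p) + (b + b) • (α1 x2 - α4 x2) +
      ((H.map (fun v => 2 • α v)).sum - (4 * (3 * k)) • e1 p q) +
      (2 * k) • (6 • e1 p q) - a • (2 • (α1 p - α4 p)) - b • (2 • (α1 x2 - α4 x2)) =
      (fun e => (w.count e : ℤ)) := by
    rw [hsum]
    simp only [← mul_nsmul', add_nsmul]
    have h1 : 4 * (3 * k) = 2 * k * 6 := by ring
    rw [h1, show a * 2 = a + a by ring, show b * 2 = b + b by ring, add_nsmul, add_nsmul]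
    abel
  rw [hfe] at hfin
  refine hfin.mono ?_
  rw [hHcard]
  omega

end H15C6
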