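import Pool.Agent.H15.C6.Defs

/-!
Module PAIR2 (part of PAIR).  Three small combinatorial lemmas.

`assign`: choose for every edge of `F` one of its end vertices as its *centre*.  If `e` meets `X`
take an end in `X`; else if `e` meets `B` take an end in `B`; else an arbitrary end.
Then `x ∉ B` is a non-centre end of at most `deg F x ≤ lam` edges, and for `x ∈ B` such an edge has
its centre (the other end) in `B`, so there are at most `|B| ≤ lam` of them.

`cherry_pairing`: for every centre `v` pair up the edges of `F` centred at `v` arbitrarily, leaving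
one over iff their number is odd; `J` is the set of cherries `(u,v,w)`, `M` the set of left-over
edges.  (Induction on `|F|`: if two edges have the same centre, remove them.)

`fix_edges`: greedy choice, for the vertices of `O` one after the other, of `r v ∈ S` adjacent to `v`,
such that no vertex is chosen more than `l` times, and the edges `s(v, r v)` are distinct.  When
treating `v`: forbidden are the `≤ |O|/l` vertices already chosen `l` times and the `≤ l`
earlier `v'` with `r v' = v`.
-/

open Finset

namespace H15C6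

variable {V : Type} [Fintype V] [DecidableEq V]

omit [Fintype V] in
theorem pair2_aux (ctr : Sym2 V → V) (n : ℕ) : ∀ (F : Finset (Sym2 V)), F.card = n →
    (∀ e ∈ F, ctr e ∈ e) →
    ∃ (J : Finset (V × V × V)) (M : Finset (Sym2 V)), M ⊆ F ∧
      (∀ t ∈ J, t.1 ≠ t.2.2 ∧ s(t.1, t.2.1) ∈ F \ M ∧ s(t.2.1, t.2.2) ∈ F \ M ∧
        ctr s(t.1, t.2.1) = t.2.1 ∧ ctr s(t.2.1, t.2.2) = t.2.1) ∧
      (∀ t ∈ J, ∀ t' ∈ J, t ≠ t' → Disjoint (chE t) (chE t')) ∧
      J.biUnion chE = F \ M ∧
      2 * J.card + M.card = F.card ∧
      (∀ e ∈ M, ∀ e' ∈ M, ctr e = ctr e' → e = e') ∧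
      (∀ v, (∃ e ∈ M, ctr e = v) ↔ Odd (F.filter (fun e => ctr e = v)).card) := by
  induction n using Nat.strong_induction_on with
  | _ n ih =>
  intro F hFn hctr
  by_cases hinj : ∀ e ∈ F, ∀ e' ∈ F, ctr e = ctr e' → e = e'
  · refine ⟨∅, F, Finset.Subset.refl F, by simp, by simp, by simp, by simp, hinj, fun v => ?_⟩
    have hle : (F.filter (fun e => ctr e = v)).card ≤ 1 := by
      rw [Finset.card_le_one]
      intro a ha b hb
      rw [Finset.mem_filter] at ha hb
      exact hinj a ha.1 b hb.1 (ha.2.trans hb.2.symm)
    constructor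
    · rintro ⟨e, he, hev⟩
      have hpos : 0 < (F.filter (fun e => ctr e = v)).card :=
        Finset.card_pos.2 ⟨e, Finset.mem_filter.2 ⟨he, hev⟩⟩
      have h1 : (F.filter (fun e => ctr e = v)).card = 1 := by omega
      rw [h1]
      exact odd_one
    · intro hodd
      obtain ⟨e, he⟩ := Finset.card_pos.1 hodd.pos
      rw [Finset.mem_filter] at he
      exact ⟨e, he.1, he.2⟩
  · push Not at hinj
    obtain ⟨e, he, e', he', hcc, hne⟩ := hinj
    set v := ctr e with hv
    obtain ⟨u, hu⟩ := Sym2.mem_iff_exists.1 (hctr e he)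
    obtain ⟨w, hw⟩ := Sym2.mem_iff_exists.1 (hctr e' he')
    rw [← hv] at hu
    rw [← hcc] at hw
    have huw : u ≠ w := by
      rintro rfl
      exact hne (hu.trans hw.symm)
    set F' := (F.erase e).erase e' with hF'
    have he'E : e' ∈ F.erase e := Finset.mem_erase.2 ⟨hne.symm, he'⟩
    have hcard : F'.card + 2 = F.card := by
      rw [hF', Finset.card_erase_of_mem he'E, Finset.card_erase_of_mem he]
      have h1 : 0 < (F.erase e).card := Finset.card_pos.2 ⟨e', he'E⟩
      rw [Finset.card_erase_of_mem he] at h1
      omega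
    have hF'F : F' ⊆ F := (Finset.erase_subset _ _).trans (Finset.erase_subset _ _)
    have heF' : e ∉ F' := fun h => Finset.notMem_erase e F (Finset.mem_of_mem_erase h)
    have he'F' : e' ∉ F' := Finset.notMem_erase e' _
    obtain ⟨J, M, h1, h2, h3, h4, h5, h6, h7⟩ := ih F'.card (by omega) F' rfl
      (fun x hx => hctr x (hF'F hx))
    have hch : chE (u, v, w) = {e, e'} := by
      show ({s(u, v), s(v, w)} : Finset (Sym2 V)) = {e, e'}
      rw [Sym2.eq_swap, ← hu, ← hw]
    have hJsub : ∀ t ∈ J, chE t ⊆ F' := by
      intro t ht x hx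
      have h8 : x ∈ J.biUnion chE := Finset.mem_biUnion.2 ⟨t, ht, hx⟩
      rw [h4] at h8
      exact (Finset.mem_sdiff.1 h8).1
    have hdis : ∀ t ∈ J, Disjoint (chE (u, v, w)) (chE t) := by
      intro t ht
      rw [hch, Finset.disjoint_left]
      intro x hx hx'
      rw [Finset.mem_insert, Finset.mem_singleton] at hx
      rcases hx with rfl | rfl
      · exact heF' (hJsub t ht hx')
      · exact he'F' (hJsub t ht hx')
    have hnotJ : (u, v, w) ∉ J := by
      intro h
      have h8 := hJsub _ h
      rw [hch] at h8
      exact heF' (h8 (Finset.mem_insert_self _ _))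
    have heM : e ∉ M := fun h => heF' (h1 h)
    have he'M : e' ∉ M := fun h => he'F' (h1 h)
    refine ⟨insert (u, v, w) J, M, h1.trans hF'F, ?_, ?_, ?_, ?_, h6, ?_⟩
    · intro t ht
      rw [Finset.mem_insert] at ht
      rcases ht with rfl | ht
      · refine ⟨huw, ?_, ?_, ?_, ?_⟩
        · show s(u, v) ∈ F \ M
          rw [Sym2.eq_swap, ← hu]
          exact Finset.mem_sdiff.2 ⟨he, heM⟩
        · show s(v, w) ∈ F \ M
          rw [← hw]
          exact Finset.mem_sdiff.2 ⟨he', he'M⟩
        · show ctr s(u, v) = v
          rw [Sym2.eq_swap, ← hu]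
        · show ctr s(v, w) = v
          rw [← hw]
          exact hcc.symm
      · obtain ⟨a1, a2, a3, a4, a5⟩ := h2 t ht
        exact ⟨a1, Finset.sdiff_subset_sdiff hF'F (Finset.Subset.refl _) a2,
          Finset.sdiff_subset_sdiff hF'F (Finset.Subset.refl _) a3, a4, a5⟩
    · intro t ht t' ht' htt'
      rw [Finset.mem_insert] at ht ht'
      rcases ht with rfl | ht <;> rcases ht' with rfl | ht'
      · exact absurd rfl htt'
      · exact hdis t' ht'
      · exact (hdis t ht).symm
      · exact h3 t ht t' ht' htt'
    · rw [Finset.biUnion_insert, h4, hch]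
      ext x
      simp only [Finset.mem_union, Finset.mem_insert, Finset.mem_singleton, Finset.mem_sdiff, hF',
        Finset.mem_erase]
      constructor
      · rintro ((rfl | rfl) | ⟨⟨-, -, h8⟩, h9⟩)
        · exact ⟨he, heM⟩
        · exact ⟨he', he'M⟩
        · exact ⟨h8, h9⟩
      · rintro ⟨h8, h9⟩
        by_cases hx : x = e
        · exact Or.inl (Or.inl hx)
        · by_cases hx' : x = e'
          · exact Or.inl (Or.inr hx')
          · exact Or.inr ⟨⟨hx', hx, h8⟩, h9⟩
    · rw [Finset.card_insert_of_notMem hnotJ]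
      omega
    · intro x
      rw [h7 x]
      by_cases hx : v = x
      · have h8 : (F.filter (fun y => ctr y = x)).card =
            (F'.filter (fun y => ctr y = x)).card + 2 := by
          have h9 : F.filter (fun y => ctr y = x) =
              insert e (insert e' (F'.filter (fun y => ctr y = x))) := by
            ext y
            simp only [Finset.mem_filter, Finset.mem_insert, hF', Finset.mem_erase]
            constructor
            · rintro ⟨b1, b2⟩
              by_cases hy : y = e
              · exact Or.inl hy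
              · by_cases hy' : y = e'
                · exact Or.inr (Or.inl hy')
                · exact Or.inr (Or.inr ⟨⟨hy', hy, b1⟩, b2⟩)
            · rintro (rfl | rfl | ⟨⟨-, -, b1⟩, b2⟩)
              · exact ⟨he, hx⟩
              · exact ⟨he', hcc.symm.trans hx⟩
              · exact ⟨b1, b2⟩
          rw [h9, Finset.card_insert_of_notMem, Finset.card_insert_of_notMem]
          · intro h
            exact he'F' (Finset.mem_filter.1 h).1
          · intro h
            rw [Finset.mem_insert] at h
            rcases h with h | h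
            · exact hne h
            · exact heF' (Finset.mem_filter.1 h).1
        rw [h8, Nat.odd_add]
        simp
      · have h8 : F.filter (fun y => ctr y = x) = F'.filter (fun y => ctr y = x) := by
          ext y
          simp only [Finset.mem_filter, hF', Finset.mem_erase]
          constructor
          · rintro ⟨b1, b2⟩
            refine ⟨⟨?_, ?_, b1⟩, b2⟩
            · rintro rfl
              exact hx (hcc.trans b2)
            · rintro rfl
              exact hx b2
          · rintro ⟨⟨-, -, b1⟩, b2⟩
            exact ⟨b1, b2⟩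
        rw [h8]

theorem cherry_pairing (F : Finset (Sym2 V)) (hF : Loopless F) (ctr : Sym2 V → V)
    (hctr : ∀ e ∈ F, ctr e ∈ e) :
    ∃ (J : Finset (V × V × V)) (M : Finset (Sym2 V)), M ⊆ F ∧
      (∀ t ∈ J, t.1 ≠ t.2.2 ∧ s(t.1, t.2.1) ∈ F \ M ∧ s(t.2.1, t.2.2) ∈ F \ M ∧
        ctr s(t.1, t.2.1) = t.2.1 ∧ ctr s(t.2.1, t.2.2) = t.2.1) ∧
      (∀ t ∈ J, ∀ t' ∈ J, t ≠ t' → Disjoint (chE t) (chE t')) ∧
      J.biUnion chE = F \ M ∧
      2 * J.card + M.card = F.card ∧
      (∀ e ∈ M, ∀ e' ∈ M, ctr e = ctr e' → e = e') ∧
      (∀ v, (∃ e ∈ M, ctr e = v) ↔ Odd (F.filter (fun e => ctr e = v)).card) :=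
  pair2_aux ctr F.card F rfl hctr

end H15C6
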