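import Pool.Agent.H15.C6.ADefs
import Pool.Agent.H15.C6.PAIR

/-!
Module HUB.  For an even graph `H` with an even number of edges inside a small set `X`, and a hub
`w0`, there is a decomposable set `N` of new edges such that `H ∪ N` can be partitioned into cherries.

Proof.  Choose any centre function `ctr` for `H` (`assign` with `X = B = univ`, or by choice) and take
`J0, M` from `cherry_pairing`: `M` has at most one edge `m_x` for every centre `x`; let
`O := {x : some edge of M has centre x} ⊆ X`.  `|M| = |O| ≡ |H| ≡ 0 (mod 2)`.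
For every `x ∈ O`, `x ≠ w0`, choose six... four private vertices: `q, q'` with `s(x,q) ∈ E`,
`Gam q w0` (at least `ζ|U|` candidates; use `pick` with index set `(O \ {w0}) × Fin 2`, avoiding
`Z ∪ X ∪ {w0}`), and then `p, p'` common neighbours of `w0` and `q` (resp. `q'`), again by `pick`, avoiding also
the `q`'s.  `c_x = w0 p q x q' p'` is a six-cycle; `N := ⋃ c_x` (edge-disjoint: every edge has a private
end, or is `w0 p`).  Cherries of `H ∪ N`: those of `J0`; for `x ∈ O \ {w0}` with `m_x = s(y,x)`: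
`(y,x,q)`, `(q,p,w0)`, `(x,q',p')`; and there remain the edges `s(p'_x, w0)`, `x ∈ O \ {w0}`, and `m_{w0}` if
`w0 ∈ O`: an even number of edges at `w0`, paired arbitrarily (apply `cherry_pairing` with constant
centre `w0`).
-/

open Finset

namespace H15C6

/-- an edge set with a centre function all of whose fibres are even is a union of cherries -/
theorem hub_even {V : Type} [Fintype V] [DecidableEq V] (F : Finset (Sym2 V)) (hF : Loopless F)
    (ctr : Sym2 V → V) (hctr : ∀ e ∈ F, ctr e ∈ e)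
    (hev : ∀ v, Even (F.filter (fun e => ctr e = v)).card) : ∃ J, CherryPart F J := by
  obtain ⟨J, M, hMF, hJ1, hJ2, hJ3, -, -, hM⟩ := cherry_pairing F hF ctr hctr
  have hM0 : M = ∅ := by
    rw [Finset.eq_empty_iff_forall_notMem]
    intro e he
    have h1 := (hM (ctr e)).1 ⟨e, he, rfl⟩
    exact (Nat.not_even_iff_odd.2 h1) (hev (ctr e))
  subst hM0
  rw [Finset.sdiff_empty] at hJ3
  refine ⟨J, ?_, hJ2, hJ3⟩
  intro t ht
  obtain ⟨h1, h2, h3, -, -⟩ := hJ1 t ht
  rw [Finset.sdiff_empty] at h2 h3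
  exact ⟨hF.ne h2, hF.ne h3, h1⟩

theorem hub_union {V : Type} [DecidableEq V] {F F' : Finset (Sym2 V)}
    {J J' : Finset (V × V × V)} (h : CherryPart F J) (h' : CherryPart F' J')
    (hd : Disjoint F F') : CherryPart (F ∪ F') (J ∪ J') := by
  have hsub : ∀ t ∈ J, chE t ⊆ F := fun t ht => h.2.2 ▸ Finset.subset_biUnion_of_mem chE ht
  have hsub' : ∀ t ∈ J', chE t ⊆ F' := fun t ht => h'.2.2 ▸ Finset.subset_biUnion_of_mem chE ht
  refine ⟨?_, ?_, ?_⟩
  · intro t ht
    rcases Finset.mem_union.1 ht with ht | ht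
    · exact h.1 t ht
    · exact h'.1 t ht
  · intro t ht t' ht' hne
    rcases Finset.mem_union.1 ht with ht | ht <;> rcases Finset.mem_union.1 ht' with ht' | ht'
    · exact h.2.1 t ht t' ht' hne
    · exact Finset.disjoint_of_subset_left (hsub t ht)
        (Finset.disjoint_of_subset_right (hsub' t' ht') hd)
    · exact Finset.disjoint_of_subset_left (hsub' t ht)
        (Finset.disjoint_of_subset_right (hsub t' ht') hd.symm)
    · exact h'.2.1 t ht t' ht' hne
  · rw [Finset.union_biUnion, h.2.2, h'.2.2]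

theorem hub_cyc_mem {V : Type} [DecidableEq V] (v : Fin 6 → V) (e : Sym2 V) :
    e ∈ cyc v ↔ s(v 0, v 1) = e ∨ s(v 1, v 2) = e ∨ s(v 2, v 3) = e ∨ s(v 3, v 4) = e ∨
      s(v 4, v 5) = e ∨ s(v 5, v 0) = e := by
  rw [mem_cyc]
  constructor
  · rintro ⟨i, hi⟩
    fin_cases i
    · left; exact hi
    · right; left; exact hi
    · right; right; left; exact hi
    · right; right; right; left; exact hi
    · right; right; right; right; left; exact hi
    · right; right; right; right; right; exact hi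
  · rintro (h | h | h | h | h | h)
    · exact ⟨0, h⟩
    · exact ⟨1, h⟩
    · exact ⟨2, h⟩
    · exact ⟨3, h⟩
    · exact ⟨4, h⟩
    · exact ⟨5, h⟩

/-- the three edges of the path from the vertex to the hub -/
def hubP {V : Type} [DecidableEq V] (w0 : V) (f g : V × Bool → V) (j : V × Bool) :
    Finset (Sym2 V) := {s(j.1, f j), s(f j, g j), s(g j, w0)}

/-- the cherry taken from this path -/
def hubT {V : Type} (w0 : V) (f g : V × Bool → V) (j : V × Bool) : V × V × V :=
  if j.2 then (f j, g j, w0) else (j.1, f j, g j)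

/-- the remaining edge -/
def hubR {V : Type} (w0 : V) (f g : V × Bool → V) (j : V × Bool) : Sym2 V :=
  if j.2 then s(j.1, f j) else s(g j, w0)

/-- its centre -/
def hubC {V : Type} (w0 : V) (j : V × Bool) : V := if j.2 then j.1 else w0

theorem hubP_eq {V : Type} [DecidableEq V] (w0 : V) (f g : V × Bool → V) (j : V × Bool) :
    hubP w0 f g j = {hubR w0 f g j} ∪ chE (hubT w0 f g j) := by
  obtain ⟨x, b⟩ := j
  cases b
  · simp only [hubP, hubR, hubT, chE, Bool.false_eq_true, if_false]
    ext e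
    simp only [Finset.mem_insert, Finset.mem_singleton, Finset.mem_union]
    tauto
  · simp only [hubP, hubR, hubT, chE, if_true]
    ext e
    simp only [Finset.mem_insert, Finset.mem_singleton, Finset.mem_union]

/-- the data of the construction -/
structure HubD {V : Type} [DecidableEq V] (X : Finset V) (w0 : V) (I : Finset (V × Bool))
    (f g : V × Bool → V) : Prop where
  mem : ∀ j ∈ I, j.1 ∈ X
  ne : ∀ j ∈ I, j.1 ≠ w0
  fX : ∀ j ∈ I, f j ∉ X
  gX : ∀ j ∈ I, g j ∉ X
  fw : ∀ j ∈ I, f j ≠ w0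
  gw : ∀ j ∈ I, g j ≠ w0
  fi : ∀ j ∈ I, ∀ j' ∈ I, f j = f j' → j = j'
  gi : ∀ j ∈ I, ∀ j' ∈ I, g j = g j' → j = j'
  fg : ∀ j ∈ I, ∀ j' ∈ I, g j ≠ f j'

theorem HubD.xf {V : Type} [DecidableEq V] {X : Finset V} {w0 : V} {I : Finset (V × Bool)}
    {f g : V × Bool → V} (h : HubD X w0 I f g) {j j' : V × Bool} (hj : j ∈ I) (hj' : j' ∈ I) :
    j.1 ≠ f j' := fun e => h.fX j' hj' (e ▸ h.mem j hj)

theorem HubD.xg {V : Type} [DecidableEq V] {X : Finset V} {w0 : V} {I : Finset (V × Bool)}
    {f g : V × Bool → V} (h : HubD X w0 I f g) {j j' : V × Bool} (hj : j ∈ I) (hj' : j' ∈ I) :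
    j.1 ≠ g j' := fun e => h.gX j' hj' (e ▸ h.mem j hj)

theorem hub_priv {V : Type} [DecidableEq V] {w0 : V} {f g : V × Bool → V} {j : V × Bool}
    {e : Sym2 V} (he : e ∈ hubP w0 f g j) :
    (f j ∈ e ∨ g j ∈ e) ∧ ∀ v ∈ e, v = j.1 ∨ v = f j ∨ v = g j ∨ v = w0 := by
  simp only [hubP, Finset.mem_insert, Finset.mem_singleton] at he
  rcases he with rfl | rfl | rfl
  · refine ⟨Or.inl (Sym2.mem_mk_right _ _), fun v hv => ?_⟩
    rw [Sym2.mem_iff] at hv; tauto
  · refine ⟨Or.inl (Sym2.mem_mk_left _ _), fun v hv => ?_⟩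
    rw [Sym2.mem_iff] at hv; tauto
  · refine ⟨Or.inr (Sym2.mem_mk_left _ _), fun v hv => ?_⟩
    rw [Sym2.mem_iff] at hv; tauto

theorem hub_disj {V : Type} [DecidableEq V] {X : Finset V} {w0 : V} {I : Finset (V × Bool)}
    {f g : V × Bool → V} (h : HubD X w0 I f g) {j j' : V × Bool} (hj : j ∈ I) (hj' : j' ∈ I)
    (hne : j ≠ j') : Disjoint (hubP w0 f g j) (hubP w0 f g j') := by
  rw [Finset.disjoint_left]
  intro e he he'
  obtain ⟨h1, -⟩ := hub_priv he
  obtain ⟨-, h2⟩ := hub_priv he'
  rcases h1 with h1 | h1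
  · rcases h2 _ h1 with e1 | e1 | e1 | e1
    · exact h.xf hj' hj e1.symm
    · exact hne (h.fi j hj j' hj' e1)
    · exact h.fg j' hj' j hj e1.symm
    · exact h.fw j hj e1
  · rcases h2 _ h1 with e1 | e1 | e1 | e1
    · exact h.xg hj' hj e1.symm
    · exact h.fg j hj j' hj' e1
    · exact hne (h.gi j hj j' hj' e1)
    · exact h.gw j hj e1

theorem hub_notX {V : Type} [DecidableEq V] {X : Finset V} {w0 : V} {I : Finset (V × Bool)}
    {f g : V × Bool → V} (h : HubD X w0 I f g) {j : V × Bool} (hj : j ∈ I) {e : Sym2 V}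
    (he : e ∈ hubP w0 f g j) : e ∉ X.sym2 := by
  intro hX
  rw [Finset.mem_sym2_iff] at hX
  rcases (hub_priv he).1 with h1 | h1
  · exact h.fX j hj (hX _ h1)
  · exact h.gX j hj (hX _ h1)

theorem hub_R_notin {V : Type} [DecidableEq V] {X : Finset V} {w0 : V} {I : Finset (V × Bool)}
    {f g : V × Bool → V} (h : HubD X w0 I f g) {j : V × Bool} (hj : j ∈ I) :
    hubR w0 f g j ∉ chE (hubT w0 f g j) := by
  have a1 := h.xg hj hj
  have a2 := h.xf hj hj
  have a3 := h.fg j hj j hj
  have a4 := h.fw j hj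
  have a5 := h.gw j hj
  have a6 := h.ne j hj
  obtain ⟨x, b⟩ := j
  cases b
  · simp only [hubR, hubT, chE, Bool.false_eq_true, if_false, Finset.mem_insert,
      Finset.mem_singleton, Sym2.eq_iff, not_or, not_and]
    refine ⟨⟨fun e => absurd e a1.symm, fun e => absurd e a3⟩, ⟨fun e => absurd e a3, fun _ e => ?_⟩⟩
    exact a4 e.symm
  · simp only [hubR, hubT, chE, if_true, Finset.mem_insert,
      Finset.mem_singleton, Sym2.eq_iff, not_or, not_and]
    exact ⟨⟨fun e => absurd e a2, fun e => absurd e a1⟩, ⟨fun e => absurd e a1, fun e => absurd e a6⟩⟩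

theorem hub_cyc {V : Type} [DecidableEq V] {X : Finset V} {w0 : V} {I : Finset (V × Bool)}
    {f g : V × Bool → V} (h : HubD X w0 I f g) {x : V} (h1 : (x, true) ∈ I) (h2 : (x, false) ∈ I) :
    IsC6 (hubP w0 f g (x, true) ∪ hubP w0 f g (x, false)) := by
  have hne : ((x, true) : V × Bool) ≠ (x, false) := by simp
  have a1 := h.xf h1 h1
  have a2 := h.xf h1 h2
  have a3 := h.xg h1 h1
  have a4 := h.xg h1 h2
  have a5 := h.ne _ h1
  have a6 := h.fw _ h1
  have a7 := h.fw _ h2
  have a8 := h.gw _ h1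
  have a9 := h.gw _ h2
  have b1 : f (x, true) ≠ f (x, false) := fun e => hne (h.fi _ h1 _ h2 e)
  have b2 : g (x, true) ≠ g (x, false) := fun e => hne (h.gi _ h1 _ h2 e)
  have b3 := h.fg _ h1 _ h1
  have b4 := h.fg _ h1 _ h2
  have b5 := h.fg _ h2 _ h1
  have b6 := h.fg _ h2 _ h2
  simp only at a1 a2 a3 a4 a5
  refine ⟨![w0, g (x, true), f (x, true), x, f (x, false), g (x, false)], ?_, ?_⟩
  · intro i k hik
    fin_cases i <;> fin_cases k <;> first
      | rfl
      | (exfalso; simp at hik; first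
          | exact a1 hik | exact a2 hik | exact a3 hik | exact a4 hik | exact a5 hik
          | exact a6 hik | exact a7 hik | exact a8 hik | exact a9 hik | exact b1 hik
          | exact b2 hik | exact b3 hik | exact b4 hik | exact b5 hik | exact b6 hik
          | exact a1 hik.symm | exact a2 hik.symm | exact a3 hik.symm | exact a4 hik.symm
          | exact a5 hik.symm | exact a6 hik.symm | exact a7 hik.symm | exact a8 hik.symm
          | exact a9 hik.symm | exact b1 hik.symm | exact b2 hik.symm | exact b3 hik.symm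
          | exact b4 hik.symm | exact b5 hik.symm | exact b6 hik.symm)
  · ext e
    rw [hub_cyc_mem]
    simp only [hubP, Finset.mem_union, Finset.mem_insert, Finset.mem_singleton]
    change _ ↔ s(w0, g (x, true)) = e ∨ s(g (x, true), f (x, true)) = e ∨ s(f (x, true), x) = e ∨
      s(x, f (x, false)) = e ∨ s(f (x, false), g (x, false)) = e ∨ s(g (x, false), w0) = e
    rw [Sym2.eq_swap (a := w0), Sym2.eq_swap (a := g (x, true)) (b := f (x, true)),
      Sym2.eq_swap (a := f (x, true)) (b := x)]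
    constructor
    · rintro ((h | h | h) | (h | h | h)) <;> simp [h]
    · rintro (h | h | h | h | h | h) <;> simp [h]

theorem hub_dec {V : Type} [DecidableEq V] {X : Finset V} {w0 : V} {O : Finset V}
    {f g : V × Bool → V} (h : HubD X w0 (O ×ˢ Finset.univ) f g) :
    Dec ((O ×ˢ (Finset.univ : Finset Bool)).biUnion (hubP w0 f g)) := by
  have e : (O ×ˢ (Finset.univ : Finset Bool)).biUnion (hubP w0 f g) =
      O.biUnion (fun x => hubP w0 f g (x, true) ∪ hubP w0 f g (x, false)) := by
    ext e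
    simp only [Finset.mem_biUnion, Finset.mem_product, Finset.mem_univ, and_true, Prod.exists,
      Bool.exists_bool, Finset.mem_union]
    constructor
    · rintro ⟨x, h1 | h1⟩
      · exact ⟨x, h1.1, Or.inr h1.2⟩
      · exact ⟨x, h1.1, Or.inl h1.2⟩
    · rintro ⟨x, h1, h2 | h2⟩
      · exact ⟨x, Or.inr ⟨h1, h2⟩⟩
      · exact ⟨x, Or.inl ⟨h1, h2⟩⟩
  rw [e]
  have hm : ∀ x ∈ O, ∀ b : Bool, (x, b) ∈ O ×ˢ (Finset.univ : Finset Bool) := by
    intro x hx b
    simp [hx]
  apply Dec.biUnion
  · intro x hx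
    exact (hub_cyc h (hm x hx true) (hm x hx false)).dec
  · intro x hx y hy hxy
    rw [Finset.disjoint_union_left, Finset.disjoint_union_right, Finset.disjoint_union_right]
    refine ⟨⟨?_, ?_⟩, ⟨?_, ?_⟩⟩ <;>
      exact hub_disj h (hm x hx _) (hm y hy _) (by simp [hxy])

theorem hub_T_part {V : Type} [DecidableEq V] {X : Finset V} {w0 : V} {I : Finset (V × Bool)}
    {f g : V × Bool → V} (h : HubD X w0 I f g) :
    CherryPart ((I.image (hubT w0 f g)).biUnion chE) (I.image (hubT w0 f g)) := by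
  refine ⟨?_, ?_, rfl⟩
  · intro t ht
    obtain ⟨j, hj, rfl⟩ := Finset.mem_image.1 ht
    have a1 := h.xg hj hj
    have a2 := h.xf hj hj
    have a3 := h.fg j hj j hj
    have a4 := h.fw j hj
    have a5 := h.gw j hj
    obtain ⟨x, b⟩ := j
    cases b
    · simp only [hubT, Bool.false_eq_true, if_false]
      exact ⟨a2, a3.symm, a1⟩
    · simp only [hubT, if_true]
      exact ⟨a3.symm, a5, a4⟩
  · intro t ht t' ht' hne
    obtain ⟨j, hj, rfl⟩ := Finset.mem_image.1 ht
    obtain ⟨j', hj', rfl⟩ := Finset.mem_image.1 ht'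
    have hjj : j ≠ j' := fun e => hne (by rw [e])
    have hd := hub_disj h hj hj' hjj
    refine Finset.disjoint_of_subset_left ?_ (Finset.disjoint_of_subset_right ?_ hd)
    · rw [hubP_eq]; exact Finset.subset_union_right
    · rw [hubP_eq]; exact Finset.subset_union_right

theorem hub_R_inj {V : Type} [DecidableEq V] {X : Finset V} {w0 : V} {I : Finset (V × Bool)}
    {f g : V × Bool → V} (h : HubD X w0 I f g) {j j' : V × Bool} (hj : j ∈ I) (hj' : j' ∈ I)
    (he : hubR w0 f g j = hubR w0 f g j') : j = j' := by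
  by_contra hne
  have hd := hub_disj h hj hj' hne
  have h1 : hubR w0 f g j ∈ hubP w0 f g j := by
    rw [hubP_eq]; exact Finset.mem_union_left _ (Finset.mem_singleton_self _)
  have h2 : hubR w0 f g j ∈ hubP w0 f g j' := by
    rw [hubP_eq, he]; exact Finset.mem_union_left _ (Finset.mem_singleton_self _)
  exact Finset.disjoint_left.1 hd h1 h2

theorem hub_count {V : Type} [DecidableEq V] (O : Finset V) (w0 v : V) :
    ((O ×ˢ (Finset.univ : Finset Bool)).filter (fun j => hubC w0 j = v)).card =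
      (if v ∈ O then 1 else 0) + (if w0 = v then O.card else 0) := by
  rw [Finset.card_filter, Finset.sum_product]
  simp only [Fintype.sum_bool, hubC, if_true, Bool.false_eq_true, if_false]
  rw [Finset.sum_add_distrib, Finset.sum_const]
  congr 1
  · simp
  · split_ifs <;> simp

theorem hub_R_part {V : Type} [Fintype V] [DecidableEq V] {X : Finset V} {w0 : V}
    {H : Finset (Sym2 V)} (hH : Loopless H) (hHX : H ⊆ X.sym2) (h2 : 2 ∣ H.card)
    {ct : Sym2 V → V} (hct : ∀ e, ct e ∈ e)
    {O : Finset V} (hO : O = (X.filter (fun v => Odd (H.filter (fun e => ct e = v)).card)).erase w0)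
    {f g : V × Bool → V} (h : HubD X w0 (O ×ˢ Finset.univ) f g) :
    ∃ J, CherryPart (H ∪ (O ×ˢ (Finset.univ : Finset Bool)).image (hubR w0 f g)) J := by
  classical
  set I := O ×ˢ (Finset.univ : Finset Bool) with hI
  have hRP : ∀ j ∈ I, hubR w0 f g j ∈ hubP w0 f g j := by
    intro j _
    rw [hubP_eq]; exact Finset.mem_union_left _ (Finset.mem_singleton_self _)
  have hRH : ∀ j ∈ I, hubR w0 f g j ∉ H := fun j hj hjH => hub_notX h hj (hRP j hj) (hHX hjH)
  set c : Sym2 V → V := fun e =>
    if e ∈ H then ct e else if hx : ∃ j ∈ I, hubR w0 f g j = e then hubC w0 hx.choose else ct e with hc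
  have hcH : ∀ e ∈ H, c e = ct e := by
    intro e he
    simp only [hc, if_pos he]
  have hcR : ∀ j ∈ I, c (hubR w0 f g j) = hubC w0 j := by
    intro j hj
    have hx : ∃ j' ∈ I, hubR w0 f g j' = hubR w0 f g j := ⟨j, hj, rfl⟩
    simp only [hc, if_neg (hRH j hj), dif_pos hx]
    have h3 := hx.choose_spec
    rw [hub_R_inj h h3.1 hj h3.2]
  have hd : Disjoint H (I.image (hubR w0 f g)) := by
    rw [Finset.disjoint_right]
    intro e he
    obtain ⟨j, hj, rfl⟩ := Finset.mem_image.1 he
    exact hRH j hj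
  apply hub_even _ _ c
  · intro e he
    rcases Finset.mem_union.1 he with he | he
    · rw [hcH e he]; exact hct e
    · obtain ⟨j, hj, rfl⟩ := Finset.mem_image.1 he
      rw [hcR j hj]
      obtain ⟨x, b⟩ := j
      cases b
      · simp only [hubC, hubR, Bool.false_eq_true, if_false]
        exact Sym2.mem_mk_right _ _
      · simp only [hubC, hubR, if_true]
        exact Sym2.mem_mk_left _ _
  · intro v
    have e1 : (H ∪ I.image (hubR w0 f g)).filter (fun e => c e = v) =
        (H.filter (fun e => ct e = v)) ∪ (I.filter (fun j => hubC w0 j = v)).image (hubR w0 f g) := by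
      rw [Finset.filter_union]
      congr 1
      · apply Finset.filter_congr
        intro e he
        rw [hcH e he]
      · ext e
        simp only [Finset.mem_filter, Finset.mem_image]
        constructor
        · rintro ⟨⟨j, hj, rfl⟩, hv⟩
          rw [hcR j hj] at hv
          exact ⟨j, ⟨hj, hv⟩, rfl⟩
        · rintro ⟨j, ⟨hj, hv⟩, rfl⟩
          refine ⟨⟨j, hj, rfl⟩, ?_⟩
          rw [hcR j hj]
          exact hv
    rw [e1, Finset.card_union_of_disjoint, Finset.card_image_of_injOn, hub_count]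
    · -- parity
      set a : V → ℕ := fun v => (H.filter (fun e => ct e = v)).card with ha
      have hzero : ∀ v, v ∉ X → a v = 0 := by
        intro v hv
        simp only [ha]
        rw [Finset.card_eq_zero, Finset.filter_eq_empty_iff]
        intro e he hev
        have := hHX he
        rw [Finset.mem_sym2_iff] at this
        exact hv (hev ▸ this _ (hct e))
      have hsum : ∑ v ∈ X, a v = H.card := by
        rw [← Finset.card_eq_sum_card_fiberwise]
        intro e he
        have := hHX he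
        rw [Finset.mem_sym2_iff] at this
        exact this _ (hct e)
      have hev : Even (X.filter (fun v => Odd (a v))).card := by
        rw [← Finset.even_sum_iff_even_card_odd, hsum]
        exact even_iff_two_dvd.2 h2
      change Even (a v + ((if v ∈ O then 1 else 0) + (if w0 = v then O.card else 0)))
      by_cases hw : w0 = v
      · subst hw
        have h3 : w0 ∉ O := by rw [hO]; simp
        rw [if_neg h3, if_pos rfl, zero_add]
        by_cases h4 : w0 ∈ X.filter (fun v => Odd (a v))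
        · have h5 : O.card + 1 = (X.filter (fun v => Odd (a v))).card := by
            rw [hO]; exact Finset.card_erase_add_one h4
          have h6 : Odd (a w0) := (Finset.mem_filter.1 h4).2
          rw [← h5] at hev
          have h7 : Odd O.card := by
            rcases Nat.even_or_odd O.card with h8 | h8
            · exfalso
              rw [Nat.even_add_one] at hev
              exact hev h8
            · exact h8
          exact h6.add_odd h7
        · have h5 : O = X.filter (fun v => Odd (a v)) := by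
            rw [hO]; exact Finset.erase_eq_of_notMem h4
          have h6 : Even (a w0) := by
            by_cases hX : w0 ∈ X
            · rw [← Nat.not_odd_iff_even]
              intro h7
              exact h4 (Finset.mem_filter.2 ⟨hX, h7⟩)
            · rw [hzero w0 hX]; exact Even.zero
          rw [← h5] at hev
          exact h6.add hev
      · rw [if_neg hw, add_zero]
        by_cases h3 : v ∈ O
        · rw [if_pos h3]
          have h4 : v ∈ X.filter (fun v => Odd (a v)) := by
            rw [hO] at h3; exact Finset.mem_of_mem_erase h3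
          exact (Finset.mem_filter.1 h4).2.add_one
        · rw [if_neg h3, add_zero]
          by_cases hX : v ∈ X
          · rw [← Nat.not_odd_iff_even]
            intro h7
            apply h3
            rw [hO]
            exact Finset.mem_erase.2 ⟨fun e => hw e.symm, Finset.mem_filter.2 ⟨hX, h7⟩⟩
          · rw [hzero v hX]; exact Even.zero
    · intro j hj j' hj' he
      exact hub_R_inj h (Finset.mem_filter.1 hj).1 (Finset.mem_filter.1 hj').1 he
    · rw [Finset.disjoint_left]
      intro e he he'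
      obtain ⟨j, hj, rfl⟩ := Finset.mem_image.1 he'
      exact hRH j (Finset.mem_filter.1 hj).1 (Finset.mem_filter.1 he).1
  · apply Loopless.union hH
    intro x hx
    obtain ⟨j, hj, he⟩ := Finset.mem_image.1 hx
    have a2 := h.xf hj hj
    have a5 := h.gw j hj
    obtain ⟨y, b⟩ := j
    cases b
    · simp only [hubR, Bool.false_eq_true, if_false, Sym2.eq_iff] at he
      rcases he with ⟨e1, e2⟩ | ⟨e1, e2⟩ <;> exact a5 (e1.trans e2.symm)
    · simp only [hubR, if_true, Sym2.eq_iff] at he
      rcases he with ⟨e1, e2⟩ | ⟨e1, e2⟩ <;> exact a2 (e1.trans e2.symm)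

theorem hub_cherries (ζ η : ℝ) (hζ : 0 < ζ) (hη : 0 < η) :
    ∃ ε : ℝ, 0 < ε ∧ ∀ k : ℕ, ∃ n0 : ℕ, ∀ (V : Type) [Fintype V] [DecidableEq V]
      (U : Finset V) (E : Finset (Sym2 V)) (X Z : Finset V) (H : Finset (Sym2 V)) (w0 : V),
      n0 ≤ U.card → E ⊆ U.sym2 → Loopless E → X ⊆ U → X.card ≤ k →
      (Z.card : ℝ) ≤ ε * U.card → H ⊆ E → H ⊆ X.sym2 → EvenDeg H → 2 ∣ H.card →
      w0 ∈ U → w0 ∉ Z →
      (∀ x ∈ U, x ≠ w0 → ∀ Q : Finset V, (Q.card : ℝ) < ζ * U.card →
        ∃ q ∈ U, q ∉ Q ∧ s(x, q) ∈ E ∧ Gam E U η q w0) →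
      ∃ (N : Finset (Sym2 V)) (J : Finset (V × V × V)), N ⊆ E ∧ Disjoint H N ∧ Dec N ∧
        CherryPart (H ∪ N) J ∧ (∀ e ∈ N, e ∉ X.sym2) ∧ (∀ e ∈ N, ∀ x ∈ e, x ∉ X → x ∉ Z) ∧
        N.card ≤ 6 * X.card := by
  classical
  set m := min ζ η with hm
  have hm0 : 0 < m := lt_min hζ hη
  refine ⟨m / 2, by positivity, fun k => ⟨⌈(5 * (k : ℝ) + 2) / (m / 2)⌉₊ + 1, ?_⟩⟩
  intro V _ _ U E X Z H w0 hn hEU hEL hXU hXk hZ hHE hHX hHev hH2 hw0U hw0Z hyp
  haveI : Nonempty V := ⟨w0⟩
  have hbig : 5 * (k : ℝ) + 2 < m / 2 * U.card := by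
    have h1 : (5 * (k : ℝ) + 2) / (m / 2) ≤ ⌈(5 * (k : ℝ) + 2) / (m / 2)⌉₊ := Nat.le_ceil _
    have h2 : ((⌈(5 * (k : ℝ) + 2) / (m / 2)⌉₊ + 1 : ℕ) : ℝ) ≤ U.card := by exact_mod_cast hn
    push_cast at h2
    have h3 : (5 * (k : ℝ) + 2) / (m / 2) < U.card := by linarith
    rw [div_lt_iff₀ (by positivity)] at h3
    linarith
  have hmζ : m * U.card ≤ ζ * U.card := by gcongr; exact min_le_left _ _
  have hmη : m * U.card ≤ η * U.card := by gcongr; exact min_le_right _ _
  set ct : Sym2 V → V := fun e => e.out.1 with hctd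
  have hct : ∀ e, ct e ∈ e := fun e => Sym2.out_fst_mem e
  set O := (X.filter (fun v => Odd (H.filter (fun e => ct e = v)).card)).erase w0 with hO
  have hOX : O ⊆ X := (Finset.erase_subset _ _).trans (Finset.filter_subset _ _)
  have hOk : O.card ≤ k := (Finset.card_le_card hOX).trans hXk
  set I := O ×ˢ (Finset.univ : Finset Bool) with hI
  have hIk : I.card ≤ 2 * k := by
    rw [hI, Finset.card_product, Finset.card_univ, Fintype.card_bool]
    omega
  set Q1 := Z ∪ X ∪ {w0} with hQ1
  have hQ1c : (Q1.card : ℝ) ≤ m / 2 * U.card + k + 1 := by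
    have h1 : Q1.card ≤ Z.card + X.card + 1 := by
      refine (Finset.card_union_le _ _).trans ?_
      rw [Finset.card_singleton]
      exact Nat.add_le_add_right (Finset.card_union_le _ _) 1
    have h2 : (Q1.card : ℝ) ≤ (Z.card : ℝ) + X.card + 1 := by exact_mod_cast h1
    have h3 : (X.card : ℝ) ≤ k := by exact_mod_cast hXk
    linarith
  have hIkR : (I.card : ℝ) ≤ 2 * k := by exact_mod_cast hIk
  -- first choice
  set cand1 : V × Bool → Finset V := fun j =>
    U.filter (fun q => s(j.1, q) ∈ E ∧ Gam E U η q w0) with hcand1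
  have hc1 : ∀ j ∈ I, Q1.card + I.card < (cand1 j).card := by
    intro j hj
    have hjO : j.1 ∈ O := (Finset.mem_product.1 hj).1
    have hjw : j.1 ≠ w0 := (Finset.mem_erase.1 hjO).1
    have h1 : ζ * U.card ≤ (cand1 j).card := by
      by_contra h2
      rw [not_le] at h2
      obtain ⟨q, hqU, hqQ, hq1, hq2⟩ := hyp j.1 (hXU (hOX hjO)) hjw _ h2
      exact hqQ (Finset.mem_filter.2 ⟨hqU, hq1, hq2⟩)
    have h3 : ((Q1.card + I.card : ℕ) : ℝ) < (cand1 j).card := by
      push_cast
      have hk0 : (0 : ℝ) ≤ k := Nat.cast_nonneg k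
      linarith
    exact_mod_cast h3
  obtain ⟨f, hf1, hf2⟩ := pick I cand1 Q1 hc1
  -- second choice
  set Q2 := Q1 ∪ I.image f with hQ2
  set cand2 : V × Bool → Finset V := fun j =>
    U.filter (fun q => s(f j, q) ∈ E ∧ s(q, w0) ∈ E) with hcand2
  have hc2 : ∀ j ∈ I, Q2.card + I.card < (cand2 j).card := by
    intro j hj
    have hg := (Finset.mem_filter.1 (hf1 j hj).1).2.2
    have h1 : η * U.card ≤ (cand2 j).card := hg.2
    have h2 : Q2.card ≤ Q1.card + I.card :=
      (Finset.card_union_le _ _).trans (Nat.add_le_add_left Finset.card_image_le _)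
    have h2R : (Q2.card : ℝ) ≤ Q1.card + I.card := by exact_mod_cast h2
    have h3 : ((Q2.card + I.card : ℕ) : ℝ) < (cand2 j).card := by
      push_cast
      have hk0 : (0 : ℝ) ≤ k := Nat.cast_nonneg k
      linarith
    exact_mod_cast h3
  obtain ⟨g, hg1, hg2⟩ := pick I cand2 Q2 hc2
  have fQ : ∀ j ∈ I, f j ∉ Z ∧ f j ∉ X ∧ f j ≠ w0 := by
    intro j hj
    have h1 := (hf1 j hj).2
    simp only [hQ1, Finset.mem_union, Finset.mem_singleton, not_or] at h1
    exact ⟨h1.1.1, h1.1.2, h1.2⟩
  have gQ : ∀ j ∈ I, g j ∉ Z ∧ g j ∉ X ∧ g j ≠ w0 ∧ g j ∉ I.image f := by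
    intro j hj
    have h1 := (hg1 j hj).2
    simp only [hQ2, hQ1, Finset.mem_union, Finset.mem_singleton, not_or] at h1
    exact ⟨h1.1.1.1, h1.1.1.2, h1.1.2, h1.2⟩
  have hD : HubD X w0 I f g := by
    refine ⟨?_, ?_, fun j hj => (fQ j hj).2.1, fun j hj => (gQ j hj).2.1,
      fun j hj => (fQ j hj).2.2, fun j hj => (gQ j hj).2.2.1, hf2, hg2, ?_⟩
    · intro j hj; exact hOX (Finset.mem_product.1 hj).1
    · intro j hj; exact (Finset.mem_erase.1 (Finset.mem_product.1 hj).1).1
    · intro j hj j' hj' he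
      exact (gQ j hj).2.2.2 (Finset.mem_image.2 ⟨j', hj', he.symm⟩)
  have hHL : Loopless H := hEL.mono hHE
  obtain ⟨J1, hJ1⟩ := hub_R_part hHL hHX hH2 hct hO hD
  have hJ2 := hub_T_part hD
  have hNeq : I.biUnion (hubP w0 f g) =
      I.image (hubR w0 f g) ∪ (I.image (hubT w0 f g)).biUnion chE := by
    ext e
    simp only [Finset.mem_biUnion, Finset.mem_union, Finset.mem_image, hubP_eq,
      Finset.mem_singleton]
    constructor
    · rintro ⟨j, hj, h1 | h1⟩
      · exact Or.inl ⟨j, hj, h1.symm⟩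
      · exact Or.inr ⟨_, ⟨j, hj, rfl⟩, h1⟩
    · rintro (⟨j, hj, h1⟩ | ⟨_, ⟨j, hj, rfl⟩, h1⟩)
      · exact ⟨j, hj, Or.inl h1.symm⟩
      · exact ⟨j, hj, Or.inr h1⟩
  have hNX : ∀ e ∈ I.biUnion (hubP w0 f g), e ∉ X.sym2 := by
    intro e he
    obtain ⟨j, hj, h1⟩ := Finset.mem_biUnion.1 he
    exact hub_notX hD hj h1
  refine ⟨I.biUnion (hubP w0 f g), J1 ∪ I.image (hubT w0 f g), ?_, ?_, hub_dec hD, ?_, hNX, ?_, ?_⟩
  · intro e he
    obtain ⟨j, hj, h1⟩ := Finset.mem_biUnion.1 he
    have h2 := (Finset.mem_filter.1 (hf1 j hj).1).2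
    have h3 := (Finset.mem_filter.1 (hg1 j hj).1).2
    simp only [hubP, Finset.mem_insert, Finset.mem_singleton] at h1
    rcases h1 with rfl | rfl | rfl
    · exact h2.1
    · exact h3.1
    · exact h3.2
  · rw [Finset.disjoint_right]
    intro e he heH
    exact hNX e he (hHX heH)
  · rw [hNeq, ← Finset.union_assoc]
    refine hub_union hJ1 hJ2 ?_
    rw [Finset.disjoint_left]
    intro e he he'
    obtain ⟨t, ht, h1⟩ := Finset.mem_biUnion.1 he'
    obtain ⟨j, hj, rfl⟩ := Finset.mem_image.1 ht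
    have h2 : e ∈ hubP w0 f g j := by
      rw [hubP_eq]; exact Finset.mem_union_right _ h1
    rcases Finset.mem_union.1 he with he | he
    · exact hub_notX hD hj h2 (hHX he)
    · obtain ⟨j', hj', rfl⟩ := Finset.mem_image.1 he
      have h3 : hubR w0 f g j' ∈ hubP w0 f g j' := by
        rw [hubP_eq]; exact Finset.mem_union_left _ (Finset.mem_singleton_self _)
      by_cases hjj : j = j'
      · subst hjj
        exact hub_R_notin hD hj h1
      · exact Finset.disjoint_left.1 (hub_disj hD hj hj' hjj) h2 h3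
  · intro e he x hx hxX
    obtain ⟨j, hj, h1⟩ := Finset.mem_biUnion.1 he
    rcases (hub_priv h1).2 x hx with rfl | rfl | rfl | rfl
    · exact absurd (hOX (Finset.mem_product.1 hj).1) hxX
    · exact (fQ j hj).1
    · exact (gQ j hj).1
    · exact hw0Z
  · refine Finset.card_biUnion_le.trans ?_
    have h3 : ∀ j ∈ I, (hubP w0 f g j).card ≤ 3 := fun j _ => Finset.card_le_three
    refine (Finset.sum_le_card_nsmul _ _ 3 h3).trans ?_
    rw [smul_eq_mul, hI, Finset.card_product, Finset.card_univ, Fintype.card_bool]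
    have := Finset.card_le_card hOX
    omega

end H15C6
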