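import Pool.Agent.H15.C6.ABE1
import Pool.Agent.H15.C6.AFC
import Pool.Agent.H15.C6.HUB
import Pool.Agent.H15.C6.ALGE

/-!
Module ABE2 (part of ABE).  The four-class pattern (classes `cl = 0,1,2,3` for `V1,V2,V3,V4`): edges allowed inside classes
0 and 3 and between 0-1, 1-2, 2-3.

(1) `c6_even_V1`: a six-cycle whose edges are all allowed has an even number of edges of type `{0,0}`.
  Proof: put `f i = cl (v i) : Fin 6 → Fin 4`; the number of `i` with `f i = f (i+1) = 0` is even for every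
  `f` with all consecutive pairs allowed: `decide` over `Fin 6 → Fin 4` (4096 functions; if too slow,
  case on `f 0, f 1, f 2` first), then transfer through injectivity of `i ↦ s(v i, v (i+1))`.
(2) `absorb_e3`: `P H := H ⊆ E ∧ EvenDeg H ∧ 6 ∣ |H| ∧` (number of edges of type `{0,0}` in `H` is even).
  As `absorb_nb`, with hub `w0` in class 0 (`V1`): each `x ≠ w0` has more than `ζ|U|` neighbours `q` with `Gam q w0`
  (for `x` in class 0,1,2,3 take `q` in class 0,0,1,2: classes of neighbours `q` adjacent in `Γ` to class 0 are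
  0,1,2; fine).  `S = U`, `k0 = 1000`,
  `π w := Even ((w.map (Sym2.map cl)).count s(0,1))`.  `hπ`: `F0 = H ∪ N` has an even number of `{0,0}`-edges
  (`N` decomposable), so has `F0 ∪ W`, hence `W`; a cherry `x m y` in `E` contributes an odd number of
  `{0,0}`-edges iff its ends are of type `{0,1}`: (ends, middle) possibilities for allowed edges:
  `m` in class 0: `x, y ∈ {0,1}` contributes `#{ends in class 0}`; `m` in another class: none and then
  the ends are not of type `{0,1}` (common neighbours of classes 0 and 1 are in class 0 only).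
  `hcom`: any two vertices have many common `Γ`-neighbours.  `alg_e3` for `Solv`; `Gam` between two vertices of
  bad types fails as they have no common neighbour, and holds for good types (`η` small).
-/

open Finset

namespace H15C6

private theorem abe2_pat1 : ∀ a b : Fin 4, ¬ BadPair a b → ∃ m, PatE a m ∧ PatE m b := by decide

private theorem abe2_pat2 : ∀ a b m : Fin 4, PatE a m → PatE m b → ¬ BadPair a b := by decide

private theorem abe2_pat3 : ∀ a b : Fin 4, PatE a b → PatE b a := by decide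

private theorem abe2_pat4 : ∀ a b : Fin 4, ∃ c, ¬ BadPair a c ∧ ¬ BadPair c b := by decide

private theorem abe2_pat5 : ∀ a : Fin 4, ∃ c, PatE a c ∧ ¬ BadPair c 0 := by decide

private theorem abe2_par : ∀ a b c : Fin 4, PatE a b → PatE b c →
    ((if s(a, b) = s(0, 0) then 1 else 0) + (if s(b, c) = s(0, 0) then 1 else 0) : ℕ) % 2 =
      (if s(a, c) = s(0, 1) then 1 else 0) := by decide

/-- parity of the number of class 0 edges of a union of cherries -/
private theorem abe2_count {V : Type} [DecidableEq V] (cl : V → Fin 4) (E : Finset (Sym2 V))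
    (hpat : ∀ x y, s(x, y) ∈ E → PatE (cl x) (cl y)) (J : Finset (V × V × V))
    (h1 : ∀ t ∈ J, t.1 ≠ t.2.1 ∧ t.2.1 ≠ t.2.2 ∧ t.1 ≠ t.2.2)
    (h2 : ∀ t ∈ J, ∀ t' ∈ J, t ≠ t' → Disjoint (chE t) (chE t')) (h3 : J.biUnion chE ⊆ E) :
    nV1 cl (J.biUnion chE) % 2 =
      (((J.val.map (fun t => s(t.1, t.2.2))).map (Sym2.map cl)).count s(0, 1)) % 2 := by
  induction J using Finset.induction_on with
  | empty => simp [nV1]
  | @insert a J ha ih =>
    have ih' := ih (fun t ht => h1 t (Finset.mem_insert_of_mem ht))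
      (fun t ht t' ht' => h2 t (Finset.mem_insert_of_mem ht) t' (Finset.mem_insert_of_mem ht'))
      (fun e he => h3 (by rw [Finset.biUnion_insert]; exact Finset.mem_union_right _ he))
    have hd : Disjoint (chE a) (J.biUnion chE) := by
      rw [Finset.disjoint_biUnion_right]
      intro j hj
      exact h2 a (Finset.mem_insert_self a J) j (Finset.mem_insert_of_mem hj)
        (fun h => ha (h ▸ hj))
    have e1 : nV1 cl ((insert a J).biUnion chE) = nV1 cl (chE a) + nV1 cl (J.biUnion chE) := by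
      rw [Finset.biUnion_insert]
      unfold nV1
      rw [Finset.filter_union, Finset.card_union_of_disjoint (Finset.disjoint_filter_filter hd)]
    obtain ⟨x, m, y⟩ := a
    have hxy := h1 (x, m, y) (Finset.mem_insert_self _ _)
    simp only at hxy
    have hsub : chE (x, m, y) ⊆ E := fun e he => h3 (by
      rw [Finset.biUnion_insert]; exact Finset.mem_union_left _ he)
    have p1 : PatE (cl x) (cl m) := hpat x m (hsub (by simp [chE]))
    have p2 : PatE (cl m) (cl y) := hpat m y (hsub (by simp [chE]))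
    have hne : s(x, m) ≠ s(m, y) := by
      intro h
      rw [Sym2.eq_iff] at h
      rcases h with ⟨h, _⟩ | ⟨h, _⟩
      · exact hxy.1 h
      · exact hxy.2.2 h
    have e2 : nV1 cl (chE (x, m, y)) = (if s(cl x, cl m) = s(0, 0) then 1 else 0) +
        (if s(cl m, cl y) = s(0, 0) then 1 else 0) := by
      unfold nV1 chE
      rw [Finset.card_filter, Finset.sum_pair hne]
      rfl
    have e3 : (((insert (x, m, y) J).val.map (fun t => s(t.1, t.2.2))).map (Sym2.map cl)).count
        s(0, 1) = ((J.val.map (fun t => s(t.1, t.2.2))).map (Sym2.map cl)).count s(0, 1) +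
          (if s(cl x, cl y) = s(0, 1) then 1 else 0) := by
      rw [Finset.insert_val_of_notMem ha, Multiset.map_cons, Multiset.map_cons]
      by_cases h : s(cl x, cl y) = s(0, 1)
      · rw [if_pos h, show Sym2.map cl s((x, m, y).1, (x, m, y).2.2) = s(0, 1) from h,
          Multiset.count_cons_self]
      · have h' : s(0, 1) ≠ Sym2.map cl s((x, m, y).1, (x, m, y).2.2) := fun h' => h h'.symm
        rw [if_neg h, Multiset.count_cons_of_ne h', add_zero]
    rw [e1, e3, Nat.add_mod, e2, abe2_par _ _ _ p1 p2, ih', add_comm, Nat.add_mod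
      (Multiset.count _ _)]
    congr 1
    congr 1
    split_ifs <;> rfl

theorem absorb_e3 (t : ℝ) (ht : 0 < t) :
    ∃ τ ε : ℝ, 0 < τ ∧ 0 < ε ∧ ∀ M : ℕ, ∃ C n0 : ℕ, ∀ (V : Type) [Fintype V] [DecidableEq V]
      (U : Finset V) (E : Finset (Sym2 V)) (cl : V → Fin 4), n0 ≤ U.card → E ⊆ U.sym2 →
      Loopless E → (∀ x y, s(x, y) ∈ E → PatE (cl x) (cl y)) →
      (∀ i : Fin 4, t * U.card ≤ ((U.filter (fun x => cl x = i)).card : ℝ)) →
      (∀ x ∈ U, ((U.filter (fun y => PatE (cl x) (cl y) ∧ s(x, y) ∉ E)).card : ℝ) ≤ τ * U.card) →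
      Absorbs U E (fun H => H ⊆ E ∧ EvenDeg H ∧ 6 ∣ H.card ∧ Even (nV1 cl H)) ε M C := by
  obtain ⟨εA, hεA, hA⟩ := absorb_from_cherries (t / 2) (t / 2) (by positivity) (by positivity) 1000
  obtain ⟨εH, hεH, hH⟩ := hub_cherries (t / 2) (t / 2) (by positivity) (by positivity)
  refine ⟨t / 4, min εA (min εH (t / 2)), by positivity,
    lt_min hεA (lt_min hεH (by positivity)), fun M => ?_⟩
  obtain ⟨C, n1, hA⟩ := hA ((M + 1) ^ 2 + 6 * M)
  obtain ⟨n2, hH⟩ := hH ((M + 1) ^ 2 + 6 * M)
  refine ⟨C + 6 * M, max n1 (max n2 (⌈32 / t⌉₊ + 1)), ?_⟩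
  intro V _ _ U E cl hn hEU hl hpat hcl hmis X Z hXU hXM hZ H hHE hHX hPH
  obtain ⟨_, hHeven, hH6, hHV⟩ := hPH
  have hn1 : n1 ≤ U.card := (le_max_left _ _).trans hn
  have hn2 : n2 ≤ U.card := ((le_max_left _ _).trans (le_max_right _ _)).trans hn
  have hn3 : ⌈32 / t⌉₊ + 1 ≤ U.card := ((le_max_right _ _).trans (le_max_right _ _)).trans hn
  have hbig : 32 < t * U.card := by
    have h1 : 32 / t ≤ (⌈32 / t⌉₊ : ℝ) := Nat.le_ceil _
    have h2 : ((⌈32 / t⌉₊ : ℝ) + 1) ≤ U.card := by exact_mod_cast hn3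
    have h3 : 32 / t < U.card := by linarith
    rw [div_lt_iff₀ ht] at h3
    linarith
  have hU0 : (0 : ℝ) ≤ U.card := Nat.cast_nonneg _
  have hZA : (Z.card : ℝ) ≤ εA * U.card :=
    hZ.trans (mul_le_mul_of_nonneg_right (min_le_left _ _) hU0)
  have hZH : (Z.card : ℝ) ≤ εH * U.card :=
    hZ.trans (mul_le_mul_of_nonneg_right ((min_le_right _ _).trans (min_le_left _ _)) hU0)
  have hZt : (Z.card : ℝ) ≤ t / 2 * U.card :=
    hZ.trans (mul_le_mul_of_nonneg_right ((min_le_right _ _).trans (min_le_right _ _)) hU0)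
  -- vertices in a given class
  have hcls : ∀ (i : Fin 4) (B : Finset V), (B.card : ℝ) < t * U.card →
      ∃ z ∈ U, cl z = i ∧ z ∉ B := by
    intro i B hB
    have h1 : B.card < (U.filter (fun x => cl x = i)).card := by
      have := hcl i
      exact_mod_cast lt_of_lt_of_le hB this
    obtain ⟨z, hz1, hz2⟩ := Finset.exists_mem_notMem_of_card_lt_card h1
    rw [Finset.mem_filter] at hz1
    exact ⟨z, hz1.1, hz1.2, hz2⟩
  -- neighbours in a given class
  have hnb : ∀ x ∈ U, ∀ i : Fin 4, PatE (cl x) i → ∀ B : Finset V,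
      (B.card : ℝ) < 3 * t / 4 * U.card → ∃ z ∈ U, cl z = i ∧ z ∉ B ∧ s(x, z) ∈ E := by
    intro x hx i hi B hB
    have h1 := hmis x hx
    set Mx := U.filter (fun y => PatE (cl x) (cl y) ∧ s(x, y) ∉ E) with hMx
    have h2 : ((B ∪ Mx).card : ℝ) ≤ B.card + Mx.card := by
      exact_mod_cast Finset.card_union_le B Mx
    obtain ⟨z, hzU, hzi, hz⟩ := hcls i (B ∪ Mx) (by linarith)
    rw [Finset.mem_union, not_or] at hz
    refine ⟨z, hzU, hzi, hz.1, ?_⟩
    by_contra hE
    exact hz.2 (Finset.mem_filter.2 ⟨hzU, by rw [hzi]; exact hi, hE⟩)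
  have hG1 : ∀ x y, x ∈ U → y ∈ U → x ≠ y → ¬ BadPair (cl x) (cl y) → Gam E U (t / 2) x y := by
    intro x y hx hy hxy hbad
    refine ⟨hxy, ?_⟩
    obtain ⟨m, hm1, hm2⟩ := abe2_pat1 _ _ hbad
    have h1 := hmis x hx
    have h2 := hmis y hy
    set Mx := U.filter (fun z => PatE (cl x) (cl z) ∧ s(x, z) ∉ E) with hMx
    set My := U.filter (fun z => PatE (cl y) (cl z) ∧ s(y, z) ∉ E) with hMy
    have h3 : (U.filter (fun z => cl z = m)) ⊆
        (U.filter (fun z => s(x, z) ∈ E ∧ s(z, y) ∈ E)) ∪ (Mx ∪ My) := by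
      intro z hz
      rw [Finset.mem_filter] at hz
      rw [Finset.mem_union, Finset.mem_union, Finset.mem_filter, hMx, hMy, Finset.mem_filter,
        Finset.mem_filter, hz.2]
      by_cases ha : s(x, z) ∈ E
      · by_cases hb : s(z, y) ∈ E
        · exact Or.inl ⟨hz.1, ha, hb⟩
        · right; right
          refine ⟨hz.1, abe2_pat3 _ _ hm2, ?_⟩
          rw [Sym2.eq_swap]; exact hb
      · exact Or.inr (Or.inl ⟨hz.1, hm1, ha⟩)
    have h4 := Finset.card_le_card h3
    have h5 : (((U.filter (fun z => s(x, z) ∈ E ∧ s(z, y) ∈ E)) ∪ (Mx ∪ My)).card : ℝ) ≤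
        (cn E U x y : ℝ) + (Mx.card + My.card) := by
      have h6 := Finset.card_union_le (U.filter (fun z => s(x, z) ∈ E ∧ s(z, y) ∈ E)) (Mx ∪ My)
      have h7 := Finset.card_union_le Mx My
      have h8 : ((U.filter (fun z => s(x, z) ∈ E ∧ s(z, y) ∈ E)) ∪ (Mx ∪ My)).card ≤
        cn E U x y + (Mx.card + My.card) := by
        unfold cn
        omega
      exact_mod_cast h8
    have h9 : (((U.filter (fun z => cl z = m)).card : ℕ) : ℝ) ≤
        (((U.filter (fun z => s(x, z) ∈ E ∧ s(z, y) ∈ E)) ∪ (Mx ∪ My)).card : ℝ) := by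
      exact_mod_cast h4
    have h10 := hcl m
    linarith
  have hG2 : ∀ x y, Gam E U (t / 2) x y → ¬ BadPair (cl x) (cl y) := by
    intro x y hG
    have h1 := hG.2
    have h2 : 0 < cn E U x y := by
      by_contra h0
      have h3 : cn E U x y = 0 := by omega
      rw [h3] at h1
      push_cast at h1
      linarith
    unfold cn at h2
    obtain ⟨m, hm⟩ := Finset.card_pos.1 h2
    rw [Finset.mem_filter] at hm
    exact abe2_pat2 _ _ (cl m) (hpat _ _ hm.2.1) (hpat _ _ hm.2.2)
  -- the hub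
  obtain ⟨w0, hw0U, hw0c, hw0Z⟩ := hcls 0 Z (by linarith)
  obtain ⟨N, J, hNE, hHN, hNdec, hJ, hNX, hNZ, hNc⟩ := hH V U E X Z H w0 hn2 hEU hl hXU
    (hXM.trans (by nlinarith)) hZH hHE hHX hHeven ((by norm_num : 2 ∣ 6).trans hH6) hw0U hw0Z (by
      intro x hxU hxw Q hQ
      obtain ⟨c, hc1, hc2⟩ := abe2_pat5 (cl x)
      have hcard : ((insert w0 Q).card : ℝ) ≤ Q.card + 1 := by
        exact_mod_cast Finset.card_insert_le w0 Q
      obtain ⟨q, hqU, hqc, hqQ, hqE⟩ := hnb x hxU c hc1 (insert w0 Q) (by linarith)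
      rw [Finset.mem_insert, not_or] at hqQ
      exact ⟨q, hqU, hqQ.2, hqE, hG1 q w0 hqU hw0U hqQ.1 (by rw [hqc, hw0c]; exact hc2)⟩)
  have hHc : H.card ≤ (M + 1) ^ 2 := by
    refine (Finset.card_le_card hHX).trans ?_
    rw [Finset.card_sym2]
    calc (X.card + 1).choose 2 ≤ (M + 1).choose 2 := Nat.choose_le_choose 2 (by omega)
      _ ≤ (M + 1) ^ 2 := Nat.choose_le_pow _ _
  have hNc' : N.card ≤ 6 * M := hNc.trans (by omega)
  have hF0E : H ∪ N ⊆ E := Finset.union_subset hHE hNE
  have hF0even : EvenDeg (H ∪ N) := hHeven.union hNdec.even hHN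
  have hF06 : 6 ∣ (H ∪ N).card := by
    rw [Finset.card_union_of_disjoint hHN]
    exact (Nat.dvd_add_right hH6).2 hNdec.six_dvd
  have hF0c : (H ∪ N).card ≤ (M + 1) ^ 2 + 6 * M :=
    (Finset.card_union_le _ _).trans (by omega)
  have hNeven : Even (nV1 cl N) := dec_even_V1 cl N hNdec fun x y h => hpat x y (hNE h)
  have hnV1 : ∀ A B : Finset (Sym2 V), Disjoint A B → nV1 cl (A ∪ B) = nV1 cl A + nV1 cl B := by
    intro A B hAB
    unfold nV1
    rw [Finset.filter_union, Finset.card_union_of_disjoint (Finset.disjoint_filter_filter hAB)]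
  obtain ⟨W, R, hWE, hRE, hFW, hFR, hWR, hdFW, hdR, hdWR, hx1, hx2, hWRc⟩ := hA V U U E
    (fun w => Even ((w.map (Sym2.map cl)).count s(0, 1))) X Z (H ∪ N) J hn1 hEU hl
    (Finset.Subset.refl _) hXU (hXM.trans (by nlinarith)) hZA hF0E hF0even hF06 hF0c hJ
    (by
      intro u hu
      have h1 : chE u ⊆ E := by
        refine Finset.Subset.trans ?_ hF0E
        rw [← hJ.2.2]
        exact Finset.subset_biUnion_of_mem chE hu
      have h2 : s(u.1, u.2.1) ∈ U.sym2 := hEU (h1 (by simp [chE]))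
      have h3 : s(u.2.1, u.2.2) ∈ U.sym2 := hEU (h1 (by simp [chE]))
      rw [Finset.mk_mem_sym2_iff] at h2 h3
      exact ⟨h2.1, h3.2⟩)
    (by
      intro e he x hxe hxX
      rcases Finset.mem_union.1 he with h | h
      · have := hHX h
        rw [Finset.mem_sym2_iff] at this
        exact absurd (this x hxe) hxX
      · exact hNZ e h x hxe hxX)
    (by
      intro u hu Z' hZ'
      have h1 : chE u ⊆ E := by
        refine Finset.Subset.trans ?_ hF0E
        rw [← hJ.2.2]
        exact Finset.subset_biUnion_of_mem chE hu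
      have h2 : s(u.1, u.2.1) ∈ U.sym2 := hEU (h1 (by simp [chE]))
      have h3 : s(u.2.1, u.2.2) ∈ U.sym2 := hEU (h1 (by simp [chE]))
      rw [Finset.mk_mem_sym2_iff] at h2 h3
      obtain ⟨c, hc1, hc2⟩ := abe2_pat4 (cl u.1) (cl u.2.2)
      have hcard : ((insert u.1 (insert u.2.2 Z')).card : ℝ) ≤ Z'.card + 2 := by
        have h4 := Finset.card_insert_le u.1 (insert u.2.2 Z')
        have h5 := Finset.card_insert_le u.2.2 Z'
        have h6 : (insert u.1 (insert u.2.2 Z')).card ≤ Z'.card + 2 := by omega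
        exact_mod_cast h6
      obtain ⟨z, hzU, hzc, hz⟩ := hcls c (insert u.1 (insert u.2.2 Z')) (by linarith)
      rw [Finset.mem_insert, not_or, Finset.mem_insert, not_or] at hz
      exact ⟨z, hzU, hz.2.2, hG1 _ _ h2.1 hzU (Ne.symm hz.1) (by rw [hzc]; exact hc1),
        hG1 _ _ hzU h3.2 hz.2.1 (by rw [hzc]; exact hc2)⟩)
    (by
      intro w Z' hZ' hw hev h3 hpar
      refine alg_e3 (Gam E U (t / 2)) (fun x y h => h.symm) (fun x => Gam.irrefl) cl (↑U)
        {v | v ∈ U ∧ (v ∉ Z' ∨ ∃ e ∈ w, v ∈ e)} (fun x y _ _ h => hG2 x y h)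
        (fun x y hx hy hxy hb => hG1 x y hx hy hxy hb) ?_ w ?_ hev h3 hpar
      · intro i F hF
        have hcard : ((F ∪ Z').card : ℝ) ≤ 8 + Z'.card := by
          have h4 := Finset.card_union_le F Z'
          have h6 : (F ∪ Z').card ≤ 8 + Z'.card := by omega
          exact_mod_cast h6
        obtain ⟨z, hzU, hzc, hz⟩ := hcls i (F ∪ Z') (by linarith)
        rw [Finset.mem_union, not_or] at hz
        exact ⟨z, hzU, ⟨hzU, Or.inl hz.2⟩, hzc, hz.1⟩
      · intro e he
        obtain ⟨x, y, rfl, hx, hy, hxy⟩ := hw e he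
        exact ⟨x, y, rfl, hx, ⟨hx, Or.inr ⟨_, he, Sym2.mem_mk_left x y⟩⟩, hy,
          ⟨hy, Or.inr ⟨_, he, Sym2.mem_mk_right x y⟩⟩, hxy⟩)
    (by
      intro J' h1 h2 h3 h4 h5
      have h6 : Even (nV1 cl ((H ∪ N) ∪ J'.biUnion chE)) := dec_even_V1 cl _ h5 (by
        intro x y hxy
        rcases Finset.mem_union.1 hxy with h | h
        · exact hpat x y (hF0E h)
        · exact hpat x y (h3 h))
      rw [hnV1 _ _ h4, hnV1 _ _ hHN] at h6
      have h7 : Even (nV1 cl (J'.biUnion chE)) := (Nat.even_add.1 h6).1 (hHV.add hNeven)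
      have h8 := abe2_count cl E hpat J' h1 h2 h3
      rw [Nat.even_iff] at h7
      show Even _
      rw [Nat.even_iff, ← h8]
      exact h7)
  have hNW : Disjoint N W := Finset.disjoint_of_subset_left Finset.subset_union_right hFW
  have hNR : Disjoint N R := Finset.disjoint_of_subset_left Finset.subset_union_right hFR
  have hNWR : Disjoint N (W ∪ R) := Finset.disjoint_union_right.2 ⟨hNW, hNR⟩
  refine ⟨N ∪ (W ∪ R), Finset.union_subset hNE (Finset.union_subset hWE hRE),
    hNdec.union hdWR hNWR, ?_, ?_, ?_, ?_⟩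
  · have h1 : N ∪ (W ∪ R) ∪ H = ((H ∪ N) ∪ W) ∪ R := by
      ext e; simp only [Finset.mem_union]; tauto
    rw [h1]
    exact hdFW.union hdR (Finset.disjoint_union_left.2 ⟨hFR, hWR⟩)
  · intro e he
    rcases Finset.mem_union.1 he with h | h
    · exact hNX e h
    · exact hx1 e h
  · intro e he
    rcases Finset.mem_union.1 he with h | h
    · exact hNZ e h
    · exact hx2 e h
  · have h1 := Finset.card_union_le N (W ∪ R)
    have h2 := Finset.card_union_le W R
    omega

end H15C6
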