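import Pool.Agent.H15.C6.Defs

/-!
Module ABE1 (part of ABE).  The four-class pattern (classes `cl = 0,1,2,3` for `V1,V2,V3,V4`): edges allowed inside classes
0 and 3 and between 0-1, 1-2, 2-3.

(1) `c6_even_V1`: a six-cycle whose edges are all allowed has an even number of edges of type `{0,0}`.
  Proof: put `f i = cl (v i) : Fin 6 → Fin 4`; the number of `i` with `f i = f (i+1) = 0` is even for every
  `f` with all consecutive pairs allowed: `decide` over `Fin 6 → Fin 4` (4096 functions; if too slow,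
  case on `f 0, f 1, f 2` first), then transfer through injectivity of `i ↦ s(v i, v (i+1))`.
(2) `absorb_e3`: `P H := H ⊆ E ∧ EvenDeg H ∧ 6 ∣ |H| ∧` (number of edges of type `{0,0}` in `H` is even).
  As `absorb_nb`, with hub `w0` in class 0 (`V1`): each `x ≠ w0` has more than `ζ|U|` neighbours `q` with `Gam q w0`
  (for `x` in class 0,1,2,3 take `q` in class 0,0,1,2: classes of neighbours `q` adjacent in `Γ` to class 0 are
  0,1,2; fine).  `S = U`, `k0 = 1000`,
  `π w := Even ((w.map (Sym2.map cl)).count s(0,1))`.  `hπ`: `F0 = H ∪ N` has an even number of `{0,0}`-edges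
  (`N` decomposable), so has `F0 ∪ W`, hence `W`; a cherry `x m y` in `E` contributes an odd number of
  `{0,0}`-edges iff its ends are of type `{0,1}`: (ends, middle) possibilities for allowed edges:
  `m` in class 0: `x, y ∈ {0,1}` contributes `#{ends in class 0}`; `m` in another class: none and then
  the ends are not of type `{0,1}` (common neighbours of classes 0 and 1 are in class 0 only).
  `hcom`: any two vertices have many common `Γ`-neighbours.  `alg_e3` for `Solv`; `Gam` between two vertices of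
  bad types fails as they have no common neighbour, and holds for good types (`η` small).
-/

open Finset

namespace H15C6

/-- allowed pairs of classes -/
def PatE (a b : Fin 4) : Prop :=
  (a = 0 ∧ b = 0) ∨ (a = 3 ∧ b = 3) ∨ (a = 0 ∧ b = 1) ∨ (a = 1 ∧ b = 0) ∨ (a = 1 ∧ b = 2) ∨
    (a = 2 ∧ b = 1) ∨ (a = 2 ∧ b = 3) ∨ (a = 3 ∧ b = 2)

instance (a b : Fin 4) : Decidable (PatE a b) := by unfold PatE; infer_instance

/-- number of edges with both ends in class 0 -/
def nV1 {V : Type} [DecidableEq V] (cl : V → Fin 4) (H : Finset (Sym2 V)) : ℕ :=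
  (H.filter (fun e => Sym2.map cl e = s(0, 0))).card

/-- indicator of `a = b = 0` -/
def abe1I (a b : Fin 4) : ℕ := if a = 0 ∧ b = 0 then 1 else 0

set_option synthInstance.maxSize 4096 in
set_option maxRecDepth 8000 in
theorem abe1_dec : ∀ a0 a1 : Fin 4, PatE a0 a1 → ∀ a2, PatE a1 a2 → ∀ a3, PatE a2 a3 →
    ∀ a4, PatE a3 a4 → ∀ a5, PatE a4 a5 → PatE a5 a0 →
      (abe1I a0 a1 + abe1I a1 a2 + abe1I a2 a3 + abe1I a3 a4 + abe1I a4 a5 + abe1I a5 a0) % 2 = 0 := by
  decide

theorem c6_even_V1 {V : Type} [DecidableEq V] (cl : V → Fin 4) (C : Finset (Sym2 V)) (hC : IsC6 C)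
    (hpat : ∀ x y, s(x, y) ∈ C → PatE (cl x) (cl y)) : Even (nV1 cl C) := by
  obtain ⟨v, hv, rfl⟩ := hC
  have hp : ∀ i : Fin 6, PatE (cl (v i)) (cl (v (i + 1))) := fun i =>
    hpat _ _ (mem_cyc.2 ⟨i, rfl⟩)
  have hcard : nV1 cl (cyc v) = ∑ i : Fin 6, abe1I (cl (v i)) (cl (v (i + 1))) := by
    unfold nV1 cyc
    rw [Finset.filter_image, Finset.card_image_of_injective _ (cyc_inj hv), Finset.card_filter]
    refine Finset.sum_congr rfl (fun i _ => ?_)
    unfold abe1I
    have : (Sym2.map cl s(v i, v (i + 1)) = s(0, 0)) ↔ (cl (v i) = 0 ∧ cl (v (i + 1)) = 0) := by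
      rw [Sym2.map_mk, Sym2.eq_iff]
      tauto
    simp only [this]
  rw [hcard, Fin.sum_univ_six, Nat.even_iff]
  exact abe1_dec (cl (v 0)) (cl (v 1)) (hp 0) (cl (v 2)) (hp 1) (cl (v 3)) (hp 2) (cl (v 4)) (hp 3)
    (cl (v 5)) (hp 4) (hp 5)

theorem dec_even_V1 {V : Type} [DecidableEq V] (cl : V → Fin 4) (D : Finset (Sym2 V)) (hD : Dec D)
    (hpat : ∀ x y, s(x, y) ∈ D → PatE (cl x) (cl y)) : Even (nV1 cl D) := by
  induction hD with
  | empty => simp [nV1]
  | @add E C hE hC hd ih =>
    have h1 : nV1 cl (E ∪ C) = nV1 cl E + nV1 cl C := by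
      unfold nV1
      rw [Finset.filter_union, Finset.card_union_of_disjoint (Finset.disjoint_filter_filter hd)]
    rw [h1]
    exact (ih fun x y h => hpat x y (Finset.mem_union_left _ h)).add
      (c6_even_V1 cl C hC fun x y h => hpat x y (Finset.mem_union_right _ h))

end H15C6
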