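import Pool.Agent.H15.C6.ALGA

/-!
Module ALGN.  Every even multiset `w` of `Γ`-edges with `3 ∣ card w` is solvable.

If `w = 0` take empty lists.  Otherwise pick `x1` an end of an edge of `w` and `p, q` from `K4Prop`
(applied to `x1,x1,x1,x1`), `c := p`, and `α` from `alpha_exists`.  Choose a multiset `l` of ordered pairs with
`w = l.map (s(·,·))`.  By `count_eq_sum` the indicator sum of `w` is `∑_{(x,z) ∈ l} e1 x z`; up to `57 card w`
triangles it equals `∑ (α x + α z) = ∑_{v ∈ ends} α v`, where `ends = l.map fst + l.map snd` has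
`2 card w` elements and every `v` has even multiplicity in it (`= countP (v ∈ ·) w`, no loops as `Γ` is
irreflexive), so `ends = 2 • half`, `card half = card w`, and `∑_{ends} α = ∑_{half} 2 α v`, which up to
`16 card w` triangles is `card w • 4 e1 p q = (card w / 3) • 2 • (6 e1 p q)`: `Gen (36 (card w/3))`.
Total at most `100 card w`.  Then `solv_of_gen`.
-/

open Finset

namespace H15C6

theorem algn_fsum {V : Type} [DecidableEq V] {Γ : V → V → Prop} {Q : Set V} (s : Finset V)
    (h : V → ℕ) (g : V → Sym2 V → ℤ) (k : ℕ) (hg : ∀ v ∈ s, Gen Γ Q k (g v)) :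
    Gen Γ Q ((∑ v ∈ s, h v) * k) (∑ v ∈ s, h v • g v) := by
  induction s using Finset.induction_on with
  | empty => simpa using (Gen.zero : Gen Γ Q 0 0)
  | insert v s hv ih =>
    rw [Finset.sum_insert hv, Finset.sum_insert hv, Nat.add_mul]
    exact ((hg v (Finset.mem_insert_self v s)).nsmul (h v)).add
      (ih fun u hu => hg u (Finset.mem_insert_of_mem hu))

theorem algn_count {V : Type} [DecidableEq V] (l : Multiset (V × V)) (hl : ∀ p ∈ l, p.1 ≠ p.2)
    (v : V) : Multiset.count v (l.map Prod.fst + l.map Prod.snd) =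
      (l.map (fun p => s(p.1, p.2))).countP (fun e => v ∈ e) := by
  induction l using Multiset.induction_on with
  | empty => simp
  | cons a m ih =>
    have ih' := ih fun p hp => hl p (Multiset.mem_cons_of_mem hp)
    have ha := hl a (Multiset.mem_cons_self a m)
    rw [Multiset.count_add] at ih' ⊢
    rw [Multiset.map_cons, Multiset.map_cons, Multiset.map_cons, Multiset.count_cons,
      Multiset.count_cons, Multiset.countP_cons, ← ih']
    have h1 : (v ∈ s(a.1, a.2)) ↔ (v = a.1 ∨ v = a.2) := Sym2.mem_iff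
    by_cases h2 : v = a.1
    · have h3 : v ≠ a.2 := fun h => ha (h2 ▸ h)
      rw [if_pos h2, if_neg h3, if_pos (h1.2 (Or.inl h2))]
      omega
    · by_cases h3 : v = a.2
      · rw [if_neg h2, if_pos h3, if_pos (h1.2 (Or.inr h3))]
        omega
      · rw [if_neg h2, if_neg h3, if_neg (fun h => (h1.1 h).elim h2 h3)]
        omega

theorem alg_nb {V : Type} [DecidableEq V] (Γ : V → V → Prop) (hsym : ∀ x y, Γ x y → Γ y x)
    (hirr : ∀ x, ¬ Γ x x) (S Q : Set V) (hK4 : K4Prop Γ S Q)
    (w : Multiset (Sym2 V))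
    (hw : ∀ e ∈ w, ∃ x y, e = s(x, y) ∧ x ∈ S ∧ x ∈ Q ∧ y ∈ S ∧ y ∈ Q ∧ Γ x y)
    (heven : ∀ v, Even (w.countP (fun e => v ∈ e))) (h3 : 3 ∣ w.card) :
    Solv Γ Q (100 * w.card) w := by
  rcases Multiset.empty_or_exists_mem w with hw0 | ⟨e0, he0⟩
  · subst hw0
    exact ⟨[], [], by simp, by simp, by simp, by simp [bd]⟩
  obtain ⟨x1, y1, -, hx1, -⟩ := hw e0 he0
  obtain ⟨p, q, hp, hq, hpQ, hqQ, hpq, -, -⟩ := hK4 x1 hx1 x1 hx1 x1 hx1 x1 hx1
  obtain ⟨h6, -, α, hα1, hα2⟩ :=
    alpha_exists hsym hirr S hK4 p q p hp hpQ hq hqQ hpq hp hpQ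
  -- ordered pairs
  have hch : ∀ e : Sym2 V, ∃ a : V × V, e ∈ w → (e = s(a.1, a.2) ∧ a.1 ∈ S ∧ a.1 ∈ Q ∧ a.2 ∈ S ∧
      a.2 ∈ Q ∧ Γ a.1 a.2) := by
    intro e
    by_cases he : e ∈ w
    · obtain ⟨x, y, h⟩ := hw e he
      exact ⟨(x, y), fun _ => h⟩
    · exact ⟨(p, p), fun h => absurd h he⟩
  choose f hf using hch
  set l : Multiset (V × V) := w.map f with hl
  have hlm : ∀ a ∈ l, a.1 ∈ S ∧ a.1 ∈ Q ∧ a.2 ∈ S ∧ a.2 ∈ Q ∧ Γ a.1 a.2 := by
    intro a ha
    rw [hl, Multiset.mem_map] at ha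
    obtain ⟨e, he, rfl⟩ := ha
    exact (hf e he).2
  have hlw : l.map (fun p => s(p.1, p.2)) = w := by
    rw [hl, Multiset.map_map]
    conv_rhs => rw [← Multiset.map_id w]
    apply Multiset.map_congr rfl
    intro e he
    exact ((hf e he).1).symm
  have hlc : l.card = w.card := by rw [hl, Multiset.card_map]
  clear_value l
  have hne : ∀ a ∈ l, a.1 ≠ a.2 := by
    intro a ha heq
    have := (hlm a ha).2.2.2.2
    rw [heq] at this
    exact hirr _ this
  set ends : Multiset V := l.map Prod.fst + l.map Prod.snd with hends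
  have hcnt : ∀ v, Even (ends.count v) := by
    intro v
    rw [hends, algn_count l hne v, hlw]
    exact heven v
  have hec : ends.card = 2 * w.card := by
    rw [hends, Multiset.card_add, Multiset.card_map, Multiset.card_map, hlc]
    ring
  set h : V → ℕ := fun v => ends.count v / 2 with hh
  have hh2 : ∀ v, ends.count v = 2 * h v := by
    intro v
    obtain ⟨r, hr⟩ := hcnt v
    simp only [hh]
    omega
  have hsum : ∑ v ∈ ends.toFinset, h v = w.card := by
    have h1 := Multiset.toFinset_sum_count_eq ends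
    rw [hec, Finset.sum_congr rfl (fun v _ => hh2 v), ← Finset.mul_sum] at h1
    omega
  -- the three contributions
  have g1 : Gen Γ Q (57 * l.card) ((l.map (fun a => e1 a.1 a.2 - α a.1 - α a.2)).sum) := by
    apply Gen.msum
    intro a ha
    obtain ⟨b1, b2, b3, b4, b5⟩ := hlm a ha
    exact hα2 a.1 a.2 b1 b2 b3 b4 b5
  have g2 : Gen Γ Q ((∑ v ∈ ends.toFinset, h v) * 16)
      (∑ v ∈ ends.toFinset, h v • (2 • α v - 4 • e1 p q)) := by
    apply algn_fsum
    intro v hv
    rw [Multiset.mem_toFinset, hends, Multiset.mem_add, Multiset.mem_map, Multiset.mem_map] at hv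
    rcases hv with ⟨a, ha, rfl⟩ | ⟨a, ha, rfl⟩
    · exact hα1 _ (hlm a ha).1 (hlm a ha).2.1
    · exact hα1 _ (hlm a ha).2.2.1 (hlm a ha).2.2.2.1
  obtain ⟨M, hM⟩ := h3
  have g3 : Gen Γ Q (2 * M * 18) ((2 * M) • (6 • e1 p q)) := h6.nsmul (2 * M)
  have key : (fun e => (w.count e : ℤ)) =
      (l.map (fun a => e1 a.1 a.2 - α a.1 - α a.2)).sum +
        (∑ v ∈ ends.toFinset, h v • (2 • α v - 4 • e1 p q)) + (2 * M) • (6 • e1 p q) := by
    have k1 : (fun e => (w.count e : ℤ)) = (l.map (fun a => e1 a.1 a.2)).sum := by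
      rw [← count_eq_sum, hlw]
    have k2 : (l.map (fun a => e1 a.1 a.2 - α a.1 - α a.2)).sum =
        (l.map (fun a => e1 a.1 a.2)).sum - (ends.map α).sum := by
      rw [hends, Multiset.map_add, Multiset.sum_add, Multiset.map_map, Multiset.map_map,
        ← Multiset.sum_map_add, ← Multiset.sum_map_sub]
      congr 1
      apply Multiset.map_congr rfl
      intro a _
      simp only [Function.comp]
      abel
    have k3 : (ends.map α).sum = ∑ v ∈ ends.toFinset, h v • (2 • α v) := by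
      rw [Finset.sum_multiset_map_count]
      apply Finset.sum_congr rfl
      intro v _
      rw [hh2, mul_comm, mul_smul]
    have k4 : ∑ v ∈ ends.toFinset, h v • (2 • α v - 4 • e1 p q) =
        (∑ v ∈ ends.toFinset, h v • (2 • α v)) - (2 * M) • (6 • e1 p q) := by
      simp_rw [smul_sub]
      rw [Finset.sum_sub_distrib, ← Finset.sum_smul, hsum, hM]
      congr 1
      rw [smul_smul, smul_smul]
      congr 1
      ring
    rw [k1, k2, k3, k4]
    abel
  apply solv_of_gen
  rw [key]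
  refine ((g1.add g2).add g3).mono ?_
  rw [hsum, hlc]
  omega

end H15C6
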