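import Pool.Agent.H15.C6.AFC
import Pool.Agent.H15.C6.PAIR
import Pool.Agent.H15.C6.ALGN

/-!
Module ABN2 (part of ABN).  Absorbers in graphs with the robust K4 property (non-bipartite case), and in bipartite
graphs.

`absorb_nb`: for `H` with even degrees and `6 ∣ |H|`: choose a hub `w0 ∉ Z` (`hhub`), `hub_cherries` gives `N, J`;
`F0 := H ∪ N` (`|N| ≤ 6M`, `6 ∣ |N|` by `Dec.six_dvd`, even degrees, `|H| ≤ (M+1)^2`).  `absorb_from_cherries`
with `S = U`, `π = fun _ => True`, `k0 = 100`: the common neighbour hypothesis and the `Solv` hypothesis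
follow from `hK4` (`K4Prop (Gam E U η) S Q` for `S = ↑U`, `Q = {v | v ∈ U ∧ (v ∉ Z' ∨ ..)}`) and `alg_nb`.
`A := N ∪ W ∪ R`; `Dec A = Dec N + Dec (W ∪ R)`, `Dec (A ∪ H) = Dec (F0 ∪ W) + Dec R`.
The hypothesis `hhub` of this theorem is used with sets `Q`, `|Q| < ζ|U|`.

`absorb_bip`: `E` has all its edges between the disjoint sets `A` and `B`.  `N = ∅`; `J` from `cherry_pairing` with
centre the end in `B` (all counts are even degrees of `H`), so ends of cherries are in `A`;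
`S = A`, `π = True`; `K4Prop` on `S = ↑A`.
-/

open Finset

namespace H15C6

theorem absorb_bip (η ε0 : ℝ) (hη : 0 < η) (hε0 : 0 < ε0) :
    ∃ ε : ℝ, 0 < ε ∧ ∀ M : ℕ, ∃ C n0 : ℕ, ∀ (V : Type) [Fintype V] [DecidableEq V]
      (U A B : Finset V) (E : Finset (Sym2 V)), n0 ≤ U.card → Disjoint A B → U = A ∪ B →
      (∀ e ∈ E, ∃ a b, e = s(a, b) ∧ a ∈ A ∧ b ∈ B) →
      (∀ x1 ∈ A, ∀ x2 ∈ A, ∀ x3 ∈ A, ∀ x4 ∈ A, ∀ Z : Finset V, (Z.card : ℝ) ≤ ε0 * U.card →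
        ∃ z ∈ A, ∃ w ∈ A, z ∉ Z ∧ w ∉ Z ∧ Gam E U η z w ∧
          (Gam E U η z x1 ∧ Gam E U η z x2 ∧ Gam E U η z x3 ∧ Gam E U η z x4) ∧
          (Gam E U η w x1 ∧ Gam E U η w x2 ∧ Gam E U η w x3 ∧ Gam E U η w x4)) →
      Absorbs U E (fun H => EvenDeg H ∧ 6 ∣ H.card) ε M C := by
  obtain ⟨εa, hεa, afc⟩ := absorb_from_cherries η ε0 hη hε0 100
  refine ⟨min εa ε0, lt_min hεa hε0, ?_⟩
  intro M
  obtain ⟨C0, na, afc⟩ := afc ((M + 1) ^ 2 + 6 * M)
  refine ⟨C0, na, ?_⟩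
  intro V _ _ U A B E hn hAB hU hE hK4 X Z hXU hXM hZ H hHE hHX hP
  obtain ⟨hHeven, hH6⟩ := hP
  have hUnn : (0 : ℝ) ≤ U.card := Nat.cast_nonneg _
  have hZa : (Z.card : ℝ) ≤ εa * U.card := hZ.trans
    (mul_le_mul_of_nonneg_right (min_le_left _ _) hUnn)
  have hAU : A ⊆ U := by
    rw [hU]
    exact Finset.subset_union_left
  have hnAB : ∀ x, x ∈ A → x ∉ B := fun x hx hxB => (Finset.disjoint_left.1 hAB) hx hxB
  have hEU : E ⊆ U.sym2 := by
    intro e he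
    obtain ⟨a, b, rfl, ha, hb⟩ := hE e he
    rw [Finset.mk_mem_sym2_iff, hU]
    exact ⟨Finset.mem_union_left _ ha, Finset.mem_union_right _ hb⟩
  have hlE : Loopless E := by
    intro x hx
    obtain ⟨a, b, hab, ha, hb⟩ := hE _ hx
    rw [Sym2.eq_iff] at hab
    rcases hab with ⟨h1, h2⟩ | ⟨h1, h2⟩
    · exact hnAB a ha (by rw [← h1, h2]; exact hb)
    · exact hnAB a ha (by rw [← h2, h1]; exact hb)
  have hlH : Loopless H := hlE.mono hHE
  -- the centre of an edge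
  let ctr : Sym2 V → V := fun e => if h : ∃ b ∈ B, b ∈ e then h.choose else (Quot.out e).1
  have hctrB : ∀ e : Sym2 V, (∃ b ∈ B, b ∈ e) → ctr e ∈ B ∧ ctr e ∈ e := by
    intro e h
    have h1 : ctr e = h.choose := dif_pos h
    rw [h1]
    exact h.choose_spec
  have hctr : ∀ a b : V, a ∈ A → b ∈ B → ctr s(a, b) = b := by
    intro a b ha hb
    obtain ⟨h1, h2⟩ := hctrB s(a, b) ⟨b, hb, Sym2.mem_mk_right _ _⟩
    rw [Sym2.mem_iff] at h2
    rcases h2 with h2 | h2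
    · rw [h2] at h1
      exact absurd h1 (hnAB a ha)
    · exact h2
  have hctrmem : ∀ e ∈ H, ctr e ∈ e := by
    intro e he
    obtain ⟨a, b, rfl, ha, hb⟩ := hE e (hHE he)
    exact (hctrB _ ⟨b, hb, Sym2.mem_mk_right _ _⟩).2
  obtain ⟨J, M', hM'H, hJ, hdis, hbi, hcard, _, hpar⟩ := cherry_pairing H hlH ctr hctrmem
  have hM' : M' = ∅ := by
    rw [Finset.eq_empty_iff_forall_notMem]
    intro e he
    have hodd := (hpar (ctr e)).1 ⟨e, he, rfl⟩
    obtain ⟨a, b, rfl, ha, hb⟩ := hE e (hHE (hM'H he))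
    rw [hctr a b ha hb] at hodd
    have h1 : H.filter (fun e => ctr e = b) = H.filter (fun e => b ∈ e) := by
      apply Finset.filter_congr
      intro f hf
      obtain ⟨a', b', rfl, ha', hb'⟩ := hE f (hHE hf)
      rw [hctr a' b' ha' hb', Sym2.mem_iff]
      constructor
      · rintro rfl
        exact Or.inr rfl
      · rintro (rfl | rfl)
        · exact absurd hb (hnAB b ha')
        · rfl
    rw [h1] at hodd
    exact (Nat.not_even_iff_odd.2 hodd) (hHeven b)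
  subst hM'
  rw [Finset.sdiff_empty] at hbi
  have hends : ∀ t ∈ J, t.1 ∈ A ∧ t.2.2 ∈ A ∧ t.2.1 ∈ B := by
    intro t ht
    obtain ⟨h1, h2, h3, h4, h5⟩ := hJ t ht
    rw [Finset.sdiff_empty] at h2 h3
    have key : ∀ x y : V, s(x, y) ∈ H → ctr s(x, y) = y → x ∈ A ∧ y ∈ B := by
      intro x y hxy hc
      obtain ⟨a, b, hab, ha, hb⟩ := hE _ (hHE hxy)
      rw [hab, hctr a b ha hb] at hc
      rw [Sym2.eq_iff] at hab
      rcases hab with ⟨g1, g2⟩ | ⟨g1, g2⟩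
      · rw [g1, g2]
        exact ⟨ha, hb⟩
      · exact absurd hb (by rw [hc, g2]; exact hnAB a ha)
    obtain ⟨k1, k2⟩ := key _ _ h2 h4
    rw [Sym2.eq_swap] at h3 h5
    obtain ⟨k3, _⟩ := key _ _ h3 h5
    exact ⟨k1, k3, k2⟩
  have hJpart : CherryPart H J := by
    refine ⟨?_, hdis, hbi⟩
    intro t ht
    obtain ⟨h1, h2, h3, _, _⟩ := hJ t ht
    rw [Finset.sdiff_empty] at h2 h3
    exact ⟨hlH.ne h2, hlH.ne h3, h1⟩
  have hHc : H.card ≤ (M + 1) ^ 2 := by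
    calc H.card ≤ X.sym2.card := Finset.card_le_card hHX
      _ = (X.card + 1).choose 2 := Finset.card_sym2 X
      _ ≤ (X.card + 1) ^ 2 := Nat.choose_le_pow _ _
      _ ≤ (M + 1) ^ 2 := Nat.pow_le_pow_left (by omega) 2
  have hHZ : ∀ e ∈ H, ∀ x ∈ e, x ∉ X → x ∉ Z := by
    intro e he x hx hxX
    exact absurd (Finset.mem_sym2_iff.1 (hHX he) x hx) hxX
  obtain ⟨W, R, hWE, hRE, hFW, hFR, hWR, hD1, hD2, hD3, hX1, hZ1, hc1⟩ := afc V U A E
    (fun _ => True) X Z H J hn hEU hlE hAU hXU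
    (hXM.trans (by nlinarith [sq_nonneg M])) hZa hHE hHeven hH6 (hHc.trans (by omega)) hJpart
    (fun t ht => ⟨(hends t ht).1, (hends t ht).2.1⟩) hHZ
    (by
      intro t ht Z' hZ'
      obtain ⟨h1, h3, _⟩ := hends t ht
      obtain ⟨z, hz, w, hw, hzZ, _, _, ⟨g1, g2, _, _⟩, _⟩ :=
        hK4 t.1 h1 t.2.2 h3 t.1 h1 t.2.2 h3 Z' hZ'
      exact ⟨z, hz, hzZ, g1.symm, g2⟩)
    (by
      intro w Z' hZ' hw hev h3 _
      apply alg_nb (Gam E U η) (fun x y hxy => hxy.symm) (fun x => Gam.irrefl) (↑A : Set V) _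
      · intro x1 hx1 x2 hx2 x3 hx3 x4 hx4
        obtain ⟨z, hz, w', hw', hzZ, hwZ, g0, g1, g2⟩ :=
          hK4 x1 (by simpa using hx1) x2 (by simpa using hx2) x3 (by simpa using hx3) x4
            (by simpa using hx4) Z' hZ'
        refine ⟨z, w', by simpa using hz, by simpa using hw', ?_, ?_, g0, g1, g2⟩
        · exact ⟨hz, Or.inl hzZ⟩
        · exact ⟨hw', Or.inl hwZ⟩
      · intro e he
        obtain ⟨x, y, rfl, hx, hy, hxy⟩ := hw e he
        refine ⟨x, y, rfl, by simpa using hx, ?_, by simpa using hy, ?_, hxy⟩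
        · exact ⟨hx, Or.inr ⟨_, he, Sym2.mem_mk_left _ _⟩⟩
        · exact ⟨hy, Or.inr ⟨_, he, Sym2.mem_mk_right _ _⟩⟩
      · exact hev
      · exact h3)
    (fun _ _ _ _ _ _ => trivial)
  refine ⟨W ∪ R, Finset.union_subset hWE hRE, hD3, ?_, hX1, hZ1, ?_⟩
  · have h5 : W ∪ R ∪ H = (H ∪ W) ∪ R := by
      ext e
      simp only [Finset.mem_union]
      tauto
    rw [h5]
    refine hD1.union hD2 ?_
    rw [Finset.disjoint_union_left]
    exact ⟨hFR, hWR⟩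
  · exact (Finset.card_union_le _ _).trans hc1

end H15C6
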