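import Pool.Agent.H15.C6.AFC
import Pool.Agent.H15.C6.HUB
import Pool.Agent.H15.C6.ALGN

/-!
Module ABN1 (part of ABN).  Absorbers in graphs with the robust K4 property (non-bipartite case), and in bipartite
graphs.

`absorb_nb`: for `H` with even degrees and `6 ∣ |H|`: choose a hub `w0 ∉ Z` (`hhub`), `hub_cherries` gives `N, J`;
`F0 := H ∪ N` (`|N| ≤ 6M`, `6 ∣ |N|` by `Dec.six_dvd`, even degrees, `|H| ≤ (M+1)^2`).  `absorb_from_cherries`
with `S = U`, `π = fun _ => True`, `k0 = 100`: the common neighbour hypothesis and the `Solv` hypothesis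
follow from `hK4` (`K4Prop (Gam E U η) S Q` for `S = ↑U`, `Q = {v | v ∈ U ∧ (v ∉ Z' ∨ ..)}`) and `alg_nb`.
`A := N ∪ W ∪ R`; `Dec A = Dec N + Dec (W ∪ R)`, `Dec (A ∪ H) = Dec (F0 ∪ W) + Dec R`.
The hypothesis `hhub` of this theorem is used with sets `Q`, `|Q| < ζ|U|`.

`absorb_bip`: `E` has all its edges between the disjoint sets `A` and `B`.  `N = ∅`; `J` from `cherry_pairing` with
centre the end in `B` (all counts are even degrees of `H`), so ends of cherries are in `A`;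
`S = A`, `π = True`; `K4Prop` on `S = ↑A`.
-/

open Finset

namespace H15C6

theorem absorb_nb (η ζ ε0 : ℝ) (hη : 0 < η) (hζ : 0 < ζ) (hε0 : 0 < ε0) :
    ∃ ε : ℝ, 0 < ε ∧ ∀ M : ℕ, ∃ C n0 : ℕ, ∀ (V : Type) [Fintype V] [DecidableEq V]
      (U : Finset V) (E : Finset (Sym2 V)), n0 ≤ U.card → E ⊆ U.sym2 → Loopless E →
      (∀ x1 ∈ U, ∀ x2 ∈ U, ∀ x3 ∈ U, ∀ x4 ∈ U, ∀ Z : Finset V, (Z.card : ℝ) ≤ ε0 * U.card →
        ∃ z ∈ U, ∃ w ∈ U, z ∉ Z ∧ w ∉ Z ∧ Gam E U η z w ∧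
          (Gam E U η z x1 ∧ Gam E U η z x2 ∧ Gam E U η z x3 ∧ Gam E U η z x4) ∧
          (Gam E U η w x1 ∧ Gam E U η w x2 ∧ Gam E U η w x3 ∧ Gam E U η w x4)) →
      (∀ Z : Finset V, (Z.card : ℝ) ≤ ε0 * U.card → ∃ w0 ∈ U, w0 ∉ Z ∧ ∀ x ∈ U, x ≠ w0 →
        ∀ Q : Finset V, (Q.card : ℝ) < ζ * U.card →
          ∃ q ∈ U, q ∉ Q ∧ s(x, q) ∈ E ∧ Gam E U η q w0) →
      Absorbs U E (fun H => EvenDeg H ∧ 6 ∣ H.card) ε M C := by
  obtain ⟨εh, hεh, hub⟩ := hub_cherries ζ η hζ hη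
  obtain ⟨εa, hεa, afc⟩ := absorb_from_cherries η ε0 hη hε0 100
  refine ⟨min (min εh εa) ε0, lt_min (lt_min hεh hεa) hε0, ?_⟩
  intro M
  obtain ⟨nh, hub⟩ := hub M
  obtain ⟨C0, na, afc⟩ := afc ((M + 1) ^ 2 + 6 * M)
  refine ⟨C0 + 6 * M, max nh na, ?_⟩
  intro V _ _ U E hn hEU hlE hK4 hhub X Z hXU hXM hZ H hHE hHX hP
  obtain ⟨hHeven, hH6⟩ := hP
  have hUnn : (0 : ℝ) ≤ U.card := Nat.cast_nonneg _
  have hZh : (Z.card : ℝ) ≤ εh * U.card := hZ.trans
    (mul_le_mul_of_nonneg_right ((min_le_left _ _).trans (min_le_left _ _)) hUnn)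
  have hZa : (Z.card : ℝ) ≤ εa * U.card := hZ.trans
    (mul_le_mul_of_nonneg_right ((min_le_left _ _).trans (min_le_right _ _)) hUnn)
  have hZ0 : (Z.card : ℝ) ≤ ε0 * U.card := hZ.trans
    (mul_le_mul_of_nonneg_right (min_le_right _ _) hUnn)
  obtain ⟨w0, hw0U, hw0Z, hw0⟩ := hhub Z hZ0
  have h2 : 2 ∣ H.card := dvd_trans (by norm_num) hH6
  obtain ⟨N, J, hNE, hHN, hND, hJ, hNX, hNZ, hNc⟩ := hub V U E X Z H w0
    ((le_max_left _ _).trans hn) hEU hlE hXU hXM hZh hHE hHX hHeven h2 hw0U hw0Z hw0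
  have hF0E : H ∪ N ⊆ E := Finset.union_subset hHE hNE
  have hHc : H.card ≤ (M + 1) ^ 2 := by
    calc H.card ≤ X.sym2.card := Finset.card_le_card hHX
      _ = (X.card + 1).choose 2 := Finset.card_sym2 X
      _ ≤ (X.card + 1) ^ 2 := Nat.choose_le_pow _ _
      _ ≤ (M + 1) ^ 2 := Nat.pow_le_pow_left (by omega) 2
  have hF0c : (H ∪ N).card ≤ (M + 1) ^ 2 + 6 * M := by
    rw [Finset.card_union_of_disjoint hHN]
    have : N.card ≤ 6 * M := hNc.trans (by omega)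
    omega
  have hF06 : 6 ∣ (H ∪ N).card := by
    rw [Finset.card_union_of_disjoint hHN]
    exact dvd_add hH6 hND.six_dvd
  have hF0e : EvenDeg (H ∪ N) := hHeven.union hND.even hHN
  have hF0Z : ∀ e ∈ H ∪ N, ∀ x ∈ e, x ∉ X → x ∉ Z := by
    intro e he x hx hxX
    rw [Finset.mem_union] at he
    rcases he with he | he
    · exact absurd (Finset.mem_sym2_iff.1 (hHX he) x hx) hxX
    · exact hNZ e he x hx hxX
  have hends : ∀ t ∈ J, t.1 ∈ U ∧ t.2.2 ∈ U := by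
    intro t ht
    have h1 : ∀ f ∈ chE t, f ∈ U.sym2 := by
      intro f hf
      apply hEU
      apply hF0E
      rw [← hJ.2.2]
      exact Finset.mem_biUnion.2 ⟨t, ht, hf⟩
    have h3 := h1 s(t.1, t.2.1) (by simp [chE])
    have h4 := h1 s(t.2.1, t.2.2) (by simp [chE])
    rw [Finset.mk_mem_sym2_iff] at h3 h4
    exact ⟨h3.1, h4.2⟩
  obtain ⟨W, R, hWE, hRE, hFW, hFR, hWR, hD1, hD2, hD3, hX1, hZ1, hc1⟩ := afc V U U E
    (fun _ => True) X Z (H ∪ N) J ((le_max_right _ _).trans hn) hEU hlE (Finset.Subset.refl U) hXU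
    (hXM.trans (by nlinarith [sq_nonneg M])) hZa hF0E hF0e hF06 hF0c hJ hends hF0Z
    (by
      intro t ht Z' hZ'
      obtain ⟨h1, h3⟩ := hends t ht
      obtain ⟨z, hz, w, hw, hzZ, _, _, ⟨g1, g2, _, _⟩, _⟩ :=
        hK4 t.1 h1 t.2.2 h3 t.1 h1 t.2.2 h3 Z' hZ'
      exact ⟨z, hz, hzZ, g1.symm, g2⟩)
    (by
      intro w Z' hZ' hw hev h3 _
      apply alg_nb (Gam E U η) (fun x y hxy => hxy.symm) (fun x => Gam.irrefl) (↑U : Set V) _
      · intro x1 hx1 x2 hx2 x3 hx3 x4 hx4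
        obtain ⟨z, hz, w', hw', hzZ, hwZ, g0, g1, g2⟩ :=
          hK4 x1 (by simpa using hx1) x2 (by simpa using hx2) x3 (by simpa using hx3) x4
            (by simpa using hx4) Z' hZ'
        refine ⟨z, w', by simpa using hz, by simpa using hw', ?_, ?_, g0, g1, g2⟩
        · exact ⟨hz, Or.inl hzZ⟩
        · exact ⟨hw', Or.inl hwZ⟩
      · intro e he
        obtain ⟨x, y, rfl, hx, hy, hxy⟩ := hw e he
        refine ⟨x, y, rfl, by simpa using hx, ?_, by simpa using hy, ?_, hxy⟩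
        · exact ⟨hx, Or.inr ⟨_, he, Sym2.mem_mk_left _ _⟩⟩
        · exact ⟨hy, Or.inr ⟨_, he, Sym2.mem_mk_right _ _⟩⟩
      · exact hev
      · exact h3)
    (fun _ _ _ _ _ _ => trivial)
  have hNW : Disjoint N W := (Finset.disjoint_union_left.1 hFW).2
  have hNR : Disjoint N R := (Finset.disjoint_union_left.1 hFR).2
  have hHW : Disjoint H W := (Finset.disjoint_union_left.1 hFW).1
  have hHR : Disjoint H R := (Finset.disjoint_union_left.1 hFR).1
  refine ⟨N ∪ (W ∪ R), Finset.union_subset hNE (Finset.union_subset hWE hRE), ?_, ?_, ?_, ?_, ?_⟩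
  · exact hND.union hD3 (Finset.disjoint_union_right.2 ⟨hNW, hNR⟩)
  · have h5 : N ∪ (W ∪ R) ∪ H = (H ∪ N ∪ W) ∪ R := by
      ext e
      simp only [Finset.mem_union]
      tauto
    rw [h5]
    refine hD1.union hD2 ?_
    rw [Finset.disjoint_union_left]
    exact ⟨hFR, hWR⟩
  · intro e he
    rw [Finset.mem_union] at he
    rcases he with he | he
    · exact hNX e he
    · exact hX1 e he
  · intro e he x hx hxX
    rw [Finset.mem_union] at he
    rcases he with he | he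
    · exact hNZ e he x hx hxX
    · exact hZ1 e he x hx hxX
  · calc (N ∪ (W ∪ R)).card ≤ N.card + (W ∪ R).card := Finset.card_union_le _ _
      _ ≤ N.card + (W.card + R.card) := by
        have := Finset.card_union_le W R
        omega
      _ ≤ C0 + 6 * M := by
        have : N.card ≤ 6 * M := hNc.trans (by omega)
        omega

end H15C6
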