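import Pool.Agent.H15.C6.Defs

/-!
Definitions for the absorber part.
-/

set_option linter.unusedSectionVars false

open Finset

namespace H15C6

variable {V : Type} [DecidableEq V]

/-- `x ≠ y` have at least `η|U|` common neighbours in `U` -/
def Gam (E : Finset (Sym2 V)) (U : Finset V) (η : ℝ) (x y : V) : Prop :=
  x ≠ y ∧ η * (U.card : ℝ) ≤ (cn E U x y : ℝ)

/-- `J` is a partition of the edge set `F` into cherries -/
def CherryPart (F : Finset (Sym2 V)) (J : Finset (V × V × V)) : Prop :=
  (∀ t ∈ J, t.1 ≠ t.2.1 ∧ t.2.1 ≠ t.2.2 ∧ t.1 ≠ t.2.2) ∧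
  (∀ t ∈ J, ∀ t' ∈ J, t ≠ t' → Disjoint (chE t) (chE t')) ∧
  J.biUnion chE = F

/-- the three sides of a triple -/
def sides (t : V × V × V) : Multiset (Sym2 V) :=
  {s(t.1, t.2.1), s(t.2.1, t.2.2), s(t.2.2, t.1)}

/-- boundary of a list of triples -/
def bd (T : List (V × V × V)) : Multiset (Sym2 V) := (T.map sides).sum

/-- triangle of the relation `Γ` with vertices in `Q` -/
def GTri (Γ : V → V → Prop) (Q : Set V) (t : V × V × V) : Prop :=
  Γ t.1 t.2.1 ∧ Γ t.2.1 t.2.2 ∧ Γ t.2.2 t.1 ∧ t.1 ∈ Q ∧ t.2.1 ∈ Q ∧ t.2.2 ∈ Q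

/-- the multiset `w` becomes a sum of triangles after adding at most `k` triangles -/
def Solv (Γ : V → V → Prop) (Q : Set V) (k : ℕ) (w : Multiset (Sym2 V)) : Prop :=
  ∃ Tp Tm : List (V × V × V), (∀ t ∈ Tp, GTri Γ Q t) ∧ (∀ t ∈ Tm, GTri Γ Q t) ∧
    Tm.length ≤ k ∧ w + bd Tm = bd Tp

theorem Gam.symm {E : Finset (Sym2 V)} {U : Finset V} {η : ℝ} {x y : V} (h : Gam E U η x y) :
    Gam E U η y x := by
  refine ⟨h.1.symm, ?_⟩
  have : cn E U y x = cn E U x y := by
    unfold cn
    congr 1
    ext m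
    simp only [Finset.mem_filter]
    rw [Sym2.eq_swap (a := y) (b := m), Sym2.eq_swap (a := m) (b := x)]
    tauto
  rw [this]
  exact h.2

theorem Gam.irrefl {E : Finset (Sym2 V)} {U : Finset V} {η : ℝ} {x : V} : ¬ Gam E U η x x :=
  fun h => h.1 rfl

/-- distinct representatives avoiding `Q` -/
theorem pick {ι : Type} [DecidableEq ι] [Nonempty V] (J : Finset ι) (cand : ι → Finset V)
    (Q : Finset V) (h : ∀ j ∈ J, Q.card + J.card < (cand j).card) :
    ∃ f : ι → V, (∀ j ∈ J, f j ∈ cand j ∧ f j ∉ Q) ∧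
      (∀ j ∈ J, ∀ j' ∈ J, f j = f j' → j = j') := by
  suffices H : ∀ J' : Finset ι, J' ⊆ J → ∃ f : ι → V, (∀ j ∈ J', f j ∈ cand j ∧ f j ∉ Q) ∧
      (∀ j ∈ J', ∀ j' ∈ J', f j = f j' → j = j') from H J (Finset.Subset.refl J)
  intro J'
  induction J' using Finset.induction_on with
  | empty => intro _; exact ⟨fun _ => Classical.arbitrary V, by simp, by simp⟩
  | @insert a J' ha ih =>
    intro hs
    obtain ⟨f, hf1, hf2⟩ := ih (fun j hj => hs (Finset.mem_insert_of_mem hj))
    have haJ : a ∈ J := hs (Finset.mem_insert_self a J')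
    have hc : (Q ∪ J'.image f).card < (cand a).card := by
      have h1 : (Q ∪ J'.image f).card ≤ Q.card + J'.card :=
        (Finset.card_union_le _ _).trans (Nat.add_le_add_left Finset.card_image_le _)
      have h2 : J'.card ≤ J.card :=
        Finset.card_le_card (fun j hj => hs (Finset.mem_insert_of_mem hj))
      have h3 := h a haJ
      omega
    obtain ⟨z, hz1, hz2⟩ := Finset.exists_mem_notMem_of_card_lt_card hc
    rw [Finset.mem_union, not_or] at hz2
    refine ⟨Function.update f a z, ?_, ?_⟩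
    · intro j hj
      rw [Finset.mem_insert] at hj
      by_cases hja : j = a
      · subst hja; simp [hz1, hz2.1]
      · rw [Function.update_of_ne hja]
        exact hf1 j (hj.resolve_left hja)
    · intro j hj j' hj' he
      rw [Finset.mem_insert] at hj hj'
      by_cases hja : j = a <;> by_cases hja' : j' = a
      · rw [hja, hja']
      · exfalso
        subst hja
        rw [Function.update_self, Function.update_of_ne hja'] at he
        exact hz2.2 (Finset.mem_image.2 ⟨j', hj'.resolve_left hja', he.symm⟩)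
      · exfalso
        subst hja'
        rw [Function.update_self, Function.update_of_ne hja] at he
        exact hz2.2 (Finset.mem_image.2 ⟨j, hj.resolve_left hja, he⟩)
      · rw [Function.update_of_ne hja, Function.update_of_ne hja'] at he
        exact hf2 j (hj.resolve_left hja) j' (hj'.resolve_left hja') he

end H15C6
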