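import Pool.Agent.H15.C6.ADefs

/-!
Module ALGA.  Calculus of integer combinations of triangles, and the function `α`.

`e1 x y : Sym2 V → ℤ` is the indicator of `s(x,y)`; `Gen Γ Q k f`: `f` is a sum of at most `k` signed
triangle boundaries (triangles of `Γ` with vertices in `Q`).

Basic calculus (prove first, other modules use it): `Gen.zero`, `Gen.add`, `Gen.neg`, `Gen.sub`,
`Gen.mono`, `Gen.nsmul`, `Gen.tri`, `Gen.sum_le`.

`alpha_exists`: write `e(xy)` for `e1 x y`, `λ = 2 e(pq)`.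
(i) 4-clique `{x,y,z,w}` of `Γ` in `Q`: `2 e(zw) - 2 e(xy) = t(yzw) + t(xzw) - t(xyw) - t(xyz)`: `Gen 4`.
(ii) for every `Γ`-edge `xy` in `S ∩ Q`: `2 e(xy) - λ` is `Gen 8` (K4 for `x,y,p,q`).
(iii) `6 e(pq)`: with `r` adjacent to `p, q`: `2 t(pqr) - (2e(qr) - λ) - (2e(rp) - λ)`: `Gen 18`.
(iv) if `u, u'` are both `Γ`-adjacent to `x` and `c` then `e(ux)+e(uc) - e(u'x)-e(u'c)` is `Gen 20`: take `v`
  adjacent to `x, c, u, u'`; `e(ux)+e(uc) = t(u,x,v) + t(u,c,v) - e(xv) - e(cv) - 2e(uv)` and the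
  same for `u'`.
(v) `α x := e(x, y) + e(y, c)` for one chosen `y` adjacent to `x` and `c` (`y ∈ S ∩ Q`).
  `2 α x - 2 λ` is `Gen 16` by (ii).  For a `Γ`-edge `xz` choose `y` adjacent to `x, z, c`:
  `α x ≡ e(xy)+e(yc)`, `α z ≡ e(zy)+e(yc)` (`Gen 20` each), so
  `α x + α z ≡ e(xy) + e(zy) + 2 e(yc) ≡ (t(x,y,z) - e(xz)) + λ ≡ -e(xz) + 2 e(xz) = e(xz)`:
  altogether `Gen 57`.
-/

open Finset

namespace H15C6

variable {V : Type} [DecidableEq V]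

/-- indicator of the pair `xy` -/
def e1 (x y : V) : Sym2 V → ℤ := fun e => if e = s(x, y) then 1 else 0

/-- boundary of a triple as a function -/
def tf (t : V × V × V) : Sym2 V → ℤ := e1 t.1 t.2.1 + e1 t.2.1 t.2.2 + e1 t.2.2 t.1

/-- `f` is a sum of at most `k` signed boundaries of `Γ`-triangles in `Q` -/
def Gen (Γ : V → V → Prop) (Q : Set V) (k : ℕ) (f : Sym2 V → ℤ) : Prop :=
  ∃ Tp Tm : List (V × V × V), (∀ t ∈ Tp, GTri Γ Q t) ∧ (∀ t ∈ Tm, GTri Γ Q t) ∧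
    Tp.length + Tm.length ≤ k ∧ f = (Tp.map tf).sum - (Tm.map tf).sum

variable {Γ : V → V → Prop} {Q : Set V}

theorem Gen.zero : Gen Γ Q 0 0 :=
  ⟨[], [], by simp, by simp, by simp, by simp⟩

theorem Gen.mono {k l : ℕ} {f : Sym2 V → ℤ} (h : Gen Γ Q k f) (hkl : k ≤ l) : Gen Γ Q l f := by
  obtain ⟨Tp, Tm, h1, h2, h3, h4⟩ := h
  exact ⟨Tp, Tm, h1, h2, h3.trans hkl, h4⟩

theorem Gen.neg {k : ℕ} {f : Sym2 V → ℤ} (h : Gen Γ Q k f) : Gen Γ Q k (-f) := by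
  obtain ⟨Tp, Tm, h1, h2, h3, h4⟩ := h
  refine ⟨Tm, Tp, h2, h1, by omega, ?_⟩
  rw [h4, neg_sub]

theorem Gen.add {k l : ℕ} {f g : Sym2 V → ℤ} (hf : Gen Γ Q k f) (hg : Gen Γ Q l g) :
    Gen Γ Q (k + l) (f + g) := by
  obtain ⟨Tp, Tm, h1, h2, h3, h4⟩ := hf
  obtain ⟨Tp', Tm', h1', h2', h3', h4'⟩ := hg
  refine ⟨Tp ++ Tp', Tm ++ Tm', ?_, ?_, ?_, ?_⟩
  · intro t ht
    rcases List.mem_append.1 ht with h | h
    · exact h1 t h
    · exact h1' t h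
  · intro t ht
    rcases List.mem_append.1 ht with h | h
    · exact h2 t h
    · exact h2' t h
  · rw [List.length_append, List.length_append]
    omega
  · rw [h4, h4', List.map_append, List.map_append, List.sum_append, List.sum_append]
    abel

theorem Gen.sub {k l : ℕ} {f g : Sym2 V → ℤ} (hf : Gen Γ Q k f) (hg : Gen Γ Q l g) :
    Gen Γ Q (k + l) (f - g) := by
  rw [sub_eq_add_neg]
  exact hf.add hg.neg

theorem Gen.nsmul {k : ℕ} {f : Sym2 V → ℤ} (n : ℕ) (hf : Gen Γ Q k f) :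
    Gen Γ Q (n * k) (n • f) := by
  induction n with
  | zero => simpa using (Gen.zero : Gen Γ Q 0 0)
  | succ n ih =>
    rw [succ_nsmul, Nat.succ_mul]
    exact ih.add hf

theorem Gen.tri {t : V × V × V} (ht : GTri Γ Q t) : Gen Γ Q 1 (tf t) := by
  refine ⟨[t], [], ?_, by simp, by simp, by simp⟩
  intro t' ht'
  rw [List.mem_singleton] at ht'
  rw [ht']
  exact ht

/-- sums over multisets -/
theorem Gen.msum {β : Type} (m : Multiset β) (g : β → Sym2 V → ℤ) (k : ℕ)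
    (h : ∀ b ∈ m, Gen Γ Q k (g b)) : Gen Γ Q (k * m.card) ((m.map g).sum) := by
  induction m using Multiset.induction_on with
  | empty => simpa using (Gen.zero : Gen Γ Q 0 0)
  | cons a m ih =>
    rw [Multiset.map_cons, Multiset.sum_cons, Multiset.card_cons, Nat.mul_succ, Nat.add_comm]
    exact (h a (Multiset.mem_cons_self a m)).add
      (ih (fun b hb => h b (Multiset.mem_cons_of_mem hb)))

theorem e1_comm (x y : V) : e1 x y = e1 y x := by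
  funext e
  unfold e1
  rw [Sym2.eq_swap]

theorem alga_count_cons (e : Sym2 V) (x y : V) (w : Multiset (Sym2 V)) :
    ((Multiset.count e (s(x, y) ::ₘ w) : ℕ) : ℤ) = e1 x y e + (Multiset.count e w : ℤ) := by
  unfold e1
  rw [Multiset.count_cons]
  split_ifs with h
  · push_cast; ring
  · push_cast; ring

theorem alga_count_bd (T : List (V × V × V)) (e : Sym2 V) :
    ((Multiset.count e (bd T) : ℕ) : ℤ) = (T.map tf).sum e := by
  induction T with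
  | nil => simp [bd]
  | cons t T ih =>
    have h1 : bd (t :: T) = sides t + bd T := by
      unfold bd
      rw [List.map_cons, List.sum_cons]
    have h2 : sides t = s(t.1, t.2.1) ::ₘ s(t.2.1, t.2.2) ::ₘ s(t.2.2, t.1) ::ₘ 0 := rfl
    rw [h1, Multiset.count_add, List.map_cons, List.sum_cons, Pi.add_apply, ← ih, h2]
    push_cast
    rw [alga_count_cons, alga_count_cons, alga_count_cons, Multiset.count_zero]
    unfold tf
    simp only [Pi.add_apply]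
    push_cast
    ring

/-- from a formal identity to an identity of multisets -/
theorem solv_of_gen {k : ℕ} {w : Multiset (Sym2 V)}
    (h : Gen Γ Q k (fun e => (w.count e : ℤ))) : Solv Γ Q k w := by
  obtain ⟨Tp, Tm, h1, h2, h3, h4⟩ := h
  refine ⟨Tp, Tm, h1, h2, by omega, ?_⟩
  ext e
  have h5 := congrFun h4 e
  simp only [Pi.sub_apply] at h5
  rw [← alga_count_bd, ← alga_count_bd] at h5
  rw [Multiset.count_add]
  omega

/-- the indicator sum of a multiset of pairs -/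
theorem count_eq_sum (l : Multiset (V × V)) :
    (fun e => ((l.map (fun p => s(p.1, p.2))).count e : ℤ)) = (l.map (fun p => e1 p.1 p.2)).sum := by
  induction l using Multiset.induction_on with
  | empty => funext e; simp
  | cons a m ih =>
    rw [Multiset.map_cons, Multiset.map_cons, Multiset.sum_cons, ← ih]
    funext e
    rw [alga_count_cons, Pi.add_apply]

/-- many common neighbours in `Γ` within `S ∩ Q` -/
def K4Prop (Γ : V → V → Prop) (S Q : Set V) : Prop :=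
  ∀ x1 ∈ S, ∀ x2 ∈ S, ∀ x3 ∈ S, ∀ x4 ∈ S, ∃ z w, z ∈ S ∧ w ∈ S ∧ z ∈ Q ∧ w ∈ Q ∧ Γ z w ∧
    (Γ z x1 ∧ Γ z x2 ∧ Γ z x3 ∧ Γ z x4) ∧ (Γ w x1 ∧ Γ w x2 ∧ Γ w x3 ∧ Γ w x4)

/-- opposite edges of a clique on four vertices -/
theorem alga_opp (hsym : ∀ x y, Γ x y → Γ y x) {x y z w : V} (hx : x ∈ Q) (hy : y ∈ Q)
    (hz : z ∈ Q) (hw : w ∈ Q) (hxy : Γ x y) (hzw : Γ z w) (hzx : Γ z x) (hzy : Γ z y)
    (hwx : Γ w x) (hwy : Γ w y) : Gen Γ Q 4 (2 • e1 x y - 2 • e1 z w) := by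
  have t1 : Gen Γ Q 1 (tf (x, y, w)) := Gen.tri ⟨hxy, hsym _ _ hwy, hwx, hx, hy, hw⟩
  have t2 : Gen Γ Q 1 (tf (x, y, z)) := Gen.tri ⟨hxy, hsym _ _ hzy, hzx, hx, hy, hz⟩
  have t3 : Gen Γ Q 1 (tf (y, z, w)) := Gen.tri ⟨hsym _ _ hzy, hzw, hwy, hy, hz, hw⟩
  have t4 : Gen Γ Q 1 (tf (x, z, w)) := Gen.tri ⟨hsym _ _ hzx, hzw, hwx, hx, hz, hw⟩
  have h := ((t1.add t2).sub t3).sub t4
  have he : tf (x, y, w) + tf (x, y, z) - tf (y, z, w) - tf (x, z, w) =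
      2 • e1 x y - 2 • e1 z w := by
    simp only [tf]
    rw [e1_comm w y, e1_comm z x]
    abel
  rw [he] at h
  exact h

theorem alpha_exists (hsym : ∀ x y, Γ x y → Γ y x) (hirr : ∀ x, ¬ Γ x x) (S : Set V)
    (hK4 : K4Prop Γ S Q) (p q c : V) (hp : p ∈ S) (hpQ : p ∈ Q) (hqS : q ∈ S) (hqQ : q ∈ Q)
    (hpq : Γ p q) (hc : c ∈ S) (hcQ : c ∈ Q) :
    Gen Γ Q 18 (6 • e1 p q) ∧
    (∀ x y, x ∈ S → x ∈ Q → y ∈ S → y ∈ Q → Γ x y → Gen Γ Q 8 (2 • e1 x y - 2 • e1 p q)) ∧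
    ∃ α : V → Sym2 V → ℤ,
      (∀ x, x ∈ S → x ∈ Q → Gen Γ Q 16 (2 • α x - 4 • e1 p q)) ∧
      (∀ x z, x ∈ S → x ∈ Q → z ∈ S → z ∈ Q → Γ x z → Gen Γ Q 57 (e1 x z - α x - α z)) := by
  have hii : ∀ x y, x ∈ S → x ∈ Q → y ∈ S → y ∈ Q → Γ x y →
      Gen Γ Q 8 (2 • e1 x y - 2 • e1 p q) := by
    intro x y hx hxQ hy hyQ hxy
    obtain ⟨z, w, hz, hw, hzQ, hwQ, hzw, ⟨a1, a2, a3, a4⟩, b1, b2, b3, b4⟩ :=
      hK4 x hx y hy p hp q hqS
    have h1 := alga_opp hsym hxQ hyQ hzQ hwQ hxy hzw a1 a2 b1 b2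
    have h2 := alga_opp hsym hpQ hqQ hzQ hwQ hpq hzw a3 a4 b3 b4
    have h3 := h1.sub h2
    have he : (2 • e1 x y - 2 • e1 z w) - (2 • e1 p q - 2 • e1 z w) =
        2 • e1 x y - 2 • e1 p q := by abel
    rw [he] at h3
    exact h3
  have hiii : Gen Γ Q 18 (6 • e1 p q) := by
    obtain ⟨r, _, hr, _, hrQ, _, _, ⟨a1, a2, _, _⟩, _⟩ := hK4 p hp q hqS p hp q hqS
    have t1 : Gen Γ Q 1 (tf (p, q, r)) := Gen.tri ⟨hpq, hsym _ _ a2, a1, hpQ, hqQ, hrQ⟩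
    have h1 := hii q r hqS hqQ hr hrQ (hsym _ _ a2)
    have h2 := hii r p hr hrQ hp hpQ a1
    have h3 := ((t1.nsmul 2).sub h1).sub h2
    have he : 2 • tf (p, q, r) - (2 • e1 q r - 2 • e1 p q) - (2 • e1 r p - 2 • e1 p q) =
        6 • e1 p q := by
      simp only [tf]
      abel
    rw [he] at h3
    exact h3
  have hiv : ∀ x u u', x ∈ S → x ∈ Q → u ∈ S → u ∈ Q → u' ∈ S → u' ∈ Q → Γ u x → Γ u c →
      Γ u' x → Γ u' c → Gen Γ Q 20 (e1 x u + e1 u c - e1 x u' - e1 u' c) := by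
    intro x u u' hx hxQ hu huQ hu' hu'Q h1 h2 h3 h4
    obtain ⟨v, _, hv, _, hvQ, _, _, ⟨a1, a2, a3, a4⟩, _⟩ := hK4 x hx c hc u hu u' hu'
    have t1 : Gen Γ Q 1 (tf (u, x, v)) := Gen.tri ⟨h1, hsym _ _ a1, a3, huQ, hxQ, hvQ⟩
    have t2 : Gen Γ Q 1 (tf (u, c, v)) := Gen.tri ⟨h2, hsym _ _ a2, a3, huQ, hcQ, hvQ⟩
    have t3 : Gen Γ Q 1 (tf (u', x, v)) := Gen.tri ⟨h3, hsym _ _ a1, a4, hu'Q, hxQ, hvQ⟩
    have t4 : Gen Γ Q 1 (tf (u', c, v)) := Gen.tri ⟨h4, hsym _ _ a2, a4, hu'Q, hcQ, hvQ⟩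
    have g1 := hii v u hv hvQ hu huQ a3
    have g2 := hii v u' hv hvQ hu' hu'Q a4
    have h := ((((t1.add t2).sub t3).sub t4).sub g1).add g2
    have he : tf (u, x, v) + tf (u, c, v) - tf (u', x, v) - tf (u', c, v) -
        (2 • e1 v u - 2 • e1 p q) + (2 • e1 v u' - 2 • e1 p q) =
        e1 x u + e1 u c - e1 x u' - e1 u' c := by
      simp only [tf]
      rw [e1_comm x u, e1_comm x u']
      abel
    rw [he] at h
    exact h
  refine ⟨hiii, hii, ?_⟩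
  have hy : ∀ x, ∃ y, x ∈ S → (y ∈ S ∧ y ∈ Q ∧ Γ y x ∧ Γ y c) := by
    intro x
    by_cases hx : x ∈ S
    · obtain ⟨y, _, hy, _, hyQ, _, _, ⟨a1, a2, _, _⟩, _⟩ := hK4 x hx c hc x hx c hc
      exact ⟨y, fun _ => ⟨hy, hyQ, a1, a2⟩⟩
    · exact ⟨x, fun h => absurd h hx⟩
  choose Y hY using hy
  refine ⟨fun x => e1 x (Y x) + e1 (Y x) c, ?_, ?_⟩
  · intro x hx hxQ
    obtain ⟨b1, b2, b3, b4⟩ := hY x hx
    have g1 := hii x (Y x) hx hxQ b1 b2 (hsym _ _ b3)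
    have g2 := hii (Y x) c b1 b2 hc hcQ b4
    have h := g1.add g2
    have he : (2 • e1 x (Y x) - 2 • e1 p q) + (2 • e1 (Y x) c - 2 • e1 p q) =
        2 • (e1 x (Y x) + e1 (Y x) c) - 4 • e1 p q := by abel
    rw [he] at h
    exact h
  · intro x z hx hxQ hz hzQ hxz
    obtain ⟨b1, b2, b3, b4⟩ := hY x hx
    obtain ⟨c1, c2, c3, c4⟩ := hY z hz
    obtain ⟨y, _, hy, _, hyQ, _, _, ⟨a1, a2, a3, _⟩, _⟩ := hK4 x hx z hz c hc c hc
    have g1 := hiv x (Y x) y hx hxQ b1 b2 hy hyQ b3 b4 a1 a3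
    have g2 := hiv z (Y z) y hz hzQ c1 c2 hy hyQ c3 c4 a2 a3
    have g3 := hii x z hx hxQ hz hzQ hxz
    have g4 := hii y c hy hyQ hc hcQ a3
    have t1 : Gen Γ Q 1 (tf (x, y, z)) := Gen.tri ⟨hsym _ _ a1, a2, hsym _ _ hxz, hxQ, hyQ, hzQ⟩
    have h := (((g3.sub g4).sub t1).sub g1).sub g2
    have he : (2 • e1 x z - 2 • e1 p q) - (2 • e1 y c - 2 • e1 p q) - tf (x, y, z) -
        (e1 x (Y x) + e1 (Y x) c - e1 x y - e1 y c) -
        (e1 z (Y z) + e1 (Y z) c - e1 z y - e1 y c) =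
        e1 x z - (e1 x (Y x) + e1 (Y x) c) - (e1 z (Y z) + e1 (Y z) c) := by
      simp only [tf]
      rw [e1_comm z x, e1_comm z y]
      abel
    rw [he] at h
    exact h

end H15C6
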