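import Pool.Agent.H15.C6.Defs

/-!
Module RICH2 (part of RICH).  (1) the number of completions of the three types of partial cycles in terms of
walk counts; (2) walk counts after deletion of a set of edges of small maximum degree.

(1) A walk count minus the degenerate walks.  For `cA u v w` (positions `0,1,2 = u,v,w`, unknown
`3,4,5`): the walk `w, v3, v4, v5, u`, i.e. `(v5, v4, v3)` is counted by `P4 H S u w`.
Non-injective ones: loopless gives consecutive vertices distinct; the others are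
`v3 = v5`, `v3 ∈ {u, v}`, `v4 ∈ {u, v, w}`, `v5 ∈ {v, w}`: at most `8 |S|^2` walks.
For `cB x p q y`: unknown `4, 5`: walk `y, v4, v5, x`, counted by `P3 H S y x`; degenerate ones
at most `6 |S|` (`v4 ∈ {x,p,q}`, `v5 ∈ {p,q,y}`).
For `cC p q p' q'`: unknown `2` (between `q` and `p'`) and `5` (between `q'` and `p`); degenerate
ones: `v2 = v5`, `v2 ∈ {p, q'}`, `v5 ∈ {q, p'}`: at most `5 |S|`.
(2) A walk lost by deleting `Rm` uses an edge of `Rm` in one of its 4 (3, 2) places; for each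
place there are at most `d * |S|^2` (`d * |S|`, `d`) such walks (fix all but one vertex).
-/

open Finset

namespace H15C6

variable {V : Type} [Fintype V] [DecidableEq V]

/-- indicator -/
def rich2_r (Rm : Finset (Sym2 V)) (p q : V) : ℕ := if s(p, q) ∈ Rm then 1 else 0

theorem rich2_sum {S : Finset V} {Rm : Finset (Sym2 V)} {d : ℕ} (hd : ∀ p, deg Rm p ≤ d) (p : V) :
    ∑ q ∈ S, rich2_r Rm p q ≤ d := by
  unfold rich2_r
  rw [← Finset.card_filter]
  exact (dg_le_deg Rm S p).trans (hd p)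

theorem rich2_sum' {S : Finset V} {Rm : Finset (Sym2 V)} {d : ℕ} (hd : ∀ p, deg Rm p ≤ d) (p : V) :
    ∑ q ∈ S, rich2_r Rm q p ≤ d := by
  refine le_trans (le_of_eq ?_) (rich2_sum (S := S) hd p)
  refine Finset.sum_congr rfl (fun q _ => ?_)
  unfold rich2_r
  rw [Sym2.eq_swap]

theorem P4_sdiff {S : Finset V} (H Rm : Finset (Sym2 V)) {d : ℕ} (hd : ∀ p, deg Rm p ≤ d)
    (x y : V) : P4 H S x y ≤ P4 (H \ Rm) S x y + 4 * d * S.card ^ 2 := by
  unfold P4
  rw [Finset.card_filter, Finset.card_filter]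
  have hpt : ∀ t ∈ S ×ˢ S ×ˢ S, (if s(x, t.1) ∈ H ∧ s(t.1, t.2.1) ∈ H ∧
      s(t.2.1, t.2.2) ∈ H ∧ s(t.2.2, y) ∈ H then 1 else 0) ≤
      (if s(x, t.1) ∈ H \ Rm ∧ s(t.1, t.2.1) ∈ H \ Rm ∧
      s(t.2.1, t.2.2) ∈ H \ Rm ∧ s(t.2.2, y) ∈ H \ Rm then 1 else 0) +
      ((rich2_r Rm x t.1 + rich2_r Rm t.1 t.2.1) +
      (rich2_r Rm t.2.1 t.2.2 + rich2_r Rm t.2.2 y)) := by
    intro t _
    unfold rich2_r
    by_cases h1 : s(x, t.1) ∈ Rm
    · rw [if_pos h1]
      split_ifs <;> omega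
    · by_cases h2 : s(t.1, t.2.1) ∈ Rm
      · rw [if_pos h2]
        split_ifs <;> omega
      · by_cases h3 : s(t.2.1, t.2.2) ∈ Rm
        · rw [if_pos h3]
          split_ifs <;> omega
        · by_cases h4 : s(t.2.2, y) ∈ Rm
          · rw [if_pos h4]
            split_ifs <;> omega
          · simp only [Finset.mem_sdiff, h1, h2, h3, h4, not_false_eq_true, and_true]
            omega
  refine (Finset.sum_le_sum hpt).trans ?_
  rw [Finset.sum_add_distrib]
  apply Nat.add_le_add_left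
  rw [Finset.sum_add_distrib, Finset.sum_add_distrib, Finset.sum_add_distrib]
  have e1 : ∑ t ∈ S ×ˢ S ×ˢ S, rich2_r Rm x t.1 ≤ d * S.card ^ 2 := by
    rw [Finset.sum_product]
    simp only [Finset.sum_const, Finset.card_product, smul_eq_mul]
    rw [← Finset.mul_sum]
    have := rich2_sum (S := S) hd x
    calc S.card * S.card * ∑ q ∈ S, rich2_r Rm x q ≤ S.card * S.card * d := by gcongr
      _ = d * S.card ^ 2 := by ring
  have e2 : ∑ t ∈ S ×ˢ S ×ˢ S, rich2_r Rm t.1 t.2.1 ≤ d * S.card ^ 2 := by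
    rw [Finset.sum_product]
    have h1 : ∀ a ∈ S, ∑ u ∈ S ×ˢ S, rich2_r Rm a u.1 ≤ S.card * d := by
      intro a _
      rw [Finset.sum_product]
      simp only [Finset.sum_const, smul_eq_mul]
      rw [← Finset.mul_sum]
      exact Nat.mul_le_mul_left _ (rich2_sum (S := S) hd a)
    refine (Finset.sum_le_sum h1).trans ?_
    rw [Finset.sum_const, smul_eq_mul]
    apply le_of_eq
    ring
  have e3 : ∑ t ∈ S ×ˢ S ×ˢ S, rich2_r Rm t.2.1 t.2.2 ≤ d * S.card ^ 2 := by
    rw [Finset.sum_product]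
    dsimp only
    rw [Finset.sum_const, smul_eq_mul, Finset.sum_product]
    have h1 : ∀ b ∈ S, ∑ c ∈ S, rich2_r Rm b c ≤ d := fun b _ =>
      rich2_sum (S := S) hd b
    have h2 := Finset.sum_le_sum h1
    rw [Finset.sum_const, smul_eq_mul] at h2
    calc S.card * ∑ b ∈ S, ∑ c ∈ S, rich2_r Rm b c ≤ S.card * (S.card * d) := by gcongr
      _ = d * S.card ^ 2 := by ring
  have e4 : ∑ t ∈ S ×ˢ S ×ˢ S, rich2_r Rm t.2.2 y ≤ d * S.card ^ 2 := by
    rw [Finset.sum_product]
    dsimp only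
    rw [Finset.sum_const, smul_eq_mul, Finset.sum_product]
    dsimp only
    rw [Finset.sum_const, smul_eq_mul]
    calc S.card * (S.card * ∑ c ∈ S, rich2_r Rm c y) ≤ S.card * (S.card * d) := by
          gcongr
          exact rich2_sum' (S := S) hd y
      _ = d * S.card ^ 2 := by ring
  calc _ ≤ (d * S.card ^ 2 + d * S.card ^ 2) + (d * S.card ^ 2 + d * S.card ^ 2) :=
        Nat.add_le_add (Nat.add_le_add e1 e2) (Nat.add_le_add e3 e4)
    _ = 4 * d * S.card ^ 2 := by ring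

theorem P3_sdiff {S : Finset V} (H Rm : Finset (Sym2 V)) {d : ℕ} (hd : ∀ p, deg Rm p ≤ d)
    (x y : V) : P3 H S x y ≤ P3 (H \ Rm) S x y + 3 * d * S.card := by
  unfold P3
  rw [Finset.card_filter, Finset.card_filter]
  have hpt : ∀ t ∈ S ×ˢ S, (if s(x, t.1) ∈ H ∧ s(t.1, t.2) ∈ H ∧ s(t.2, y) ∈ H then 1 else 0) ≤
      (if s(x, t.1) ∈ H \ Rm ∧ s(t.1, t.2) ∈ H \ Rm ∧ s(t.2, y) ∈ H \ Rm then 1 else 0) +
      ((rich2_r Rm x t.1 + rich2_r Rm t.1 t.2) +
      rich2_r Rm t.2 y) := by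
    intro t _
    unfold rich2_r
    by_cases h1 : s(x, t.1) ∈ Rm
    · rw [if_pos h1]
      split_ifs <;> omega
    · by_cases h2 : s(t.1, t.2) ∈ Rm
      · rw [if_pos h2]
        split_ifs <;> omega
      · by_cases h4 : s(t.2, y) ∈ Rm
        · rw [if_pos h4]
          split_ifs <;> omega
        · simp only [Finset.mem_sdiff, h1, h2, h4, not_false_eq_true, and_true]
          omega
  refine (Finset.sum_le_sum hpt).trans ?_
  rw [Finset.sum_add_distrib]
  apply Nat.add_le_add_left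
  rw [Finset.sum_add_distrib, Finset.sum_add_distrib]
  have e1 : ∑ t ∈ S ×ˢ S, rich2_r Rm x t.1 ≤ d * S.card := by
    rw [Finset.sum_product]
    simp only [Finset.sum_const, smul_eq_mul]
    rw [← Finset.mul_sum, mul_comm]
    exact Nat.mul_le_mul_right _ (rich2_sum (S := S) hd x)
  have e2 : ∑ t ∈ S ×ˢ S, rich2_r Rm t.1 t.2 ≤ d * S.card := by
    rw [Finset.sum_product]
    have h1 : ∀ b ∈ S, ∑ c ∈ S, rich2_r Rm b c ≤ d := fun b _ =>
      rich2_sum (S := S) hd b
    have h2 := Finset.sum_le_sum h1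
    rw [Finset.sum_const, smul_eq_mul, mul_comm] at h2
    exact h2
  have e4 : ∑ t ∈ S ×ˢ S, rich2_r Rm t.2 y ≤ d * S.card := by
    rw [Finset.sum_product]
    dsimp only
    rw [Finset.sum_const, smul_eq_mul, mul_comm]
    exact Nat.mul_le_mul_right _ (rich2_sum' (S := S) hd y)
  calc _ ≤ (d * S.card + d * S.card) + d * S.card :=
        Nat.add_le_add (Nat.add_le_add e1 e2) e4
    _ = 3 * d * S.card := by ring

theorem cn_sdiff {S : Finset V} (H Rm : Finset (Sym2 V)) {d : ℕ} (hd : ∀ p, deg Rm p ≤ d)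
    (x y : V) : cn H S x y ≤ cn (H \ Rm) S x y + 2 * d := by
  unfold cn
  rw [Finset.card_filter, Finset.card_filter]
  have hpt : ∀ t ∈ S, (if s(x, t) ∈ H ∧ s(t, y) ∈ H then 1 else 0) ≤
      (if s(x, t) ∈ H \ Rm ∧ s(t, y) ∈ H \ Rm then 1 else 0) +
      (rich2_r Rm x t + rich2_r Rm t y) := by
    intro t _
    unfold rich2_r
    by_cases h1 : s(x, t) ∈ Rm
    · rw [if_pos h1]
      split_ifs <;> omega
    · by_cases h4 : s(t, y) ∈ Rm
      · rw [if_pos h4]
        split_ifs <;> omega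
      · simp only [Finset.mem_sdiff, h1, h4, not_false_eq_true, and_true]
        omega
  refine (Finset.sum_le_sum hpt).trans ?_
  rw [Finset.sum_add_distrib]
  apply Nat.add_le_add_left
  rw [Finset.sum_add_distrib]
  have e1 := rich2_sum (S := S) hd x
  have e2 := rich2_sum' (S := S) hd y
  omega

/-- symmetry of the walk counts -/
theorem P4_comm (H : Finset (Sym2 V)) (S : Finset V) (x y : V) : P4 H S x y = P4 H S y x := by
  unfold P4
  refine Finset.card_bij' (fun t _ => (t.2.2, t.2.1, t.1)) (fun t _ => (t.2.2, t.2.1, t.1)) ?_ ?_ ?_ ?_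
  · intro t ht
    simp only [Finset.mem_filter, Finset.mem_product] at ht ⊢
    rw [Sym2.eq_swap (a := y), Sym2.eq_swap (a := t.2.2) (b := t.2.1), Sym2.eq_swap (a := t.2.1) (b := t.1),
      Sym2.eq_swap (a := t.1) (b := x)]
    tauto
  · intro t ht
    simp only [Finset.mem_filter, Finset.mem_product] at ht ⊢
    rw [Sym2.eq_swap (a := x), Sym2.eq_swap (a := t.2.2) (b := t.2.1), Sym2.eq_swap (a := t.2.1) (b := t.1),
      Sym2.eq_swap (a := t.1) (b := y)]
    tauto
  · intro t _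
    rfl
  · intro t _
    rfl

theorem P3_comm (H : Finset (Sym2 V)) (S : Finset V) (x y : V) : P3 H S x y = P3 H S y x := by
  unfold P3
  refine Finset.card_bij' (fun t _ => (t.2, t.1)) (fun t _ => (t.2, t.1)) ?_ ?_ ?_ ?_
  · intro t ht
    simp only [Finset.mem_filter, Finset.mem_product] at ht ⊢
    rw [Sym2.eq_swap (a := y), Sym2.eq_swap (a := t.2) (b := t.1), Sym2.eq_swap (a := t.1) (b := x)]
    tauto
  · intro t ht
    simp only [Finset.mem_filter, Finset.mem_product] at ht ⊢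
    rw [Sym2.eq_swap (a := x), Sym2.eq_swap (a := t.2) (b := t.1), Sym2.eq_swap (a := t.1) (b := y)]
    tauto
  · intro t _
    rfl
  · intro t _
    rfl

theorem cn_comm (H : Finset (Sym2 V)) (S : Finset V) (x y : V) : cn H S x y = cn H S y x := by
  unfold cn
  congr 1
  ext m
  simp only [Finset.mem_filter]
  rw [Sym2.eq_swap (a := y) (b := m), Sym2.eq_swap (a := m) (b := x)]
  tauto

/-- the first step of a walk is a neighbour -/
theorem P4_le_dg (H : Finset (Sym2 V)) (S : Finset V) (x y : V) :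
    P4 H S x y ≤ dg H S x * S.card ^ 2 := by
  unfold P4 dg
  have h : (S ×ˢ S ×ˢ S).filter (fun t => s(x, t.1) ∈ H ∧ s(t.1, t.2.1) ∈ H ∧
      s(t.2.1, t.2.2) ∈ H ∧ s(t.2.2, y) ∈ H) ⊆ (S.filter (fun y => s(x, y) ∈ H)) ×ˢ S ×ˢ S := by
    intro t ht
    simp only [Finset.mem_filter, Finset.mem_product] at ht ⊢
    tauto
  refine (Finset.card_le_card h).trans (le_of_eq ?_)
  rw [Finset.card_product, Finset.card_product, sq]

end H15C6
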