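import Pool.Agent.H15.C6.GL
import Pool.Agent.H15.C6.RICH
import Pool.Agent.H15.C6.PAIR

/-!
Module CC.  Cherry cover: cover the edges of `F` by six-cycles consisting of two edges of `F` with
the same centre and a path of length four in the host `H`.

Proof.  `cherry_pairing` gives `J` and `M = ∅` (all counts even), `|J| = |F|/2`.  Apply
`greedy_complete` with index set `J`, `c t := cA t.1 t.2.1 t.2.2` and `h' := h - 8/|S|`: by `rich_cA`,
`h' |S|^3 ≤ h |S|^3 - 8 |S|^2 ≤ |compl6|`.  A port of `cA u v w` is `u` or `w`, i.e. the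
non-centre end of one of its two edges, so the load of `p` is at most
`#{e ∈ F : p ∈ e, ctr e ≠ p} ≤ e` (the edges of different cherries are different).
`fixE (cA u v w) = chE (u,v,w)`.
-/

open Finset

namespace H15C6

theorem cc_port_edge {V : Type} [DecidableEq V] (F : Finset (Sym2 V)) (hF : Loopless F)
    (ctr : Sym2 V → V) (J : Finset (V × V × V))
    (hJ : ∀ t ∈ J, t.1 ≠ t.2.2 ∧ s(t.1, t.2.1) ∈ F ∧ s(t.2.1, t.2.2) ∈ F ∧
        ctr s(t.1, t.2.1) = t.2.1 ∧ ctr s(t.2.1, t.2.2) = t.2.1)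
    (hdis : ∀ t ∈ J, ∀ t' ∈ J, t ≠ t' → Disjoint (chE t) (chE t')) (p : V) :
    (J.filter (fun t => IsPort (cA t.1 t.2.1 t.2.2) p)).card ≤
      (F.filter (fun f => p ∈ f ∧ ctr f ≠ p)).card := by
  classical
  apply Finset.card_le_card_of_injOn
    (fun t : V × V × V => if p = t.1 then s(t.1, t.2.1) else s(t.2.1, t.2.2))
  · intro t ht
    have ht' := Finset.mem_filter.1 (Finset.mem_coe.1 ht)
    obtain ⟨h1, h2, h3, h4, h5⟩ := hJ t ht'.1
    have hp := isPort_cA ht'.2
    apply Finset.mem_coe.2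
    rw [Finset.mem_filter]
    by_cases hpt : p = t.1
    · simp only [hpt, if_true]
      refine ⟨h2, Sym2.mem_mk_left _ _, ?_⟩
      rw [h4]
      exact (hF.ne h2).symm
    · simp only [hpt, if_false]
      have hp2 : p = t.2.2 := hp.resolve_left hpt
      refine ⟨h3, ?_, ?_⟩
      · rw [hp2]; exact Sym2.mem_mk_right _ _
      · rw [h5, hp2]
        exact hF.ne h3
  · intro t ht t' ht' he
    have h1 := (Finset.mem_filter.1 (Finset.mem_coe.1 ht)).1
    have h1' := (Finset.mem_filter.1 (Finset.mem_coe.1 ht')).1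
    by_contra hne
    have hd := hdis t h1 t' h1' hne
    have hm : (if p = t.1 then s(t.1, t.2.1) else s(t.2.1, t.2.2)) ∈ chE t := by
      unfold chE
      split_ifs <;> simp
    have hm' : (if p = t'.1 then s(t'.1, t'.2.1) else s(t'.2.1, t'.2.2)) ∈ chE t' := by
      unfold chE
      split_ifs <;> simp
    simp only at he
    rw [he] at hm
    exact (Finset.disjoint_left.1 hd) hm hm'

theorem cherry_cover {V : Type} [Fintype V] [DecidableEq V] (S : Finset V)
    (H F : Finset (Sym2 V)) (ctr : Sym2 V → V) (h : ℝ) (e q : ℕ) (hq : 1 ≤ q)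
    (hH : Loopless H) (hF : Loopless F) (hFH : Disjoint F H)
    (hctr : ∀ f ∈ F, ctr f ∈ f)
    (heven : ∀ v, Even (F.filter (fun f => ctr f = v)).card)
    (hrich : ∀ v u w, u ≠ w → s(u, v) ∈ F → s(v, w) ∈ F → ctr s(u, v) = v → ctr s(v, w) = v →
      h * (S.card : ℝ) ^ 3 ≤ (P4 H S u w : ℝ))
    (hload : ∀ p, (F.filter (fun f => p ∈ f ∧ ctr f ≠ p)).card ≤ e)
    (hnum : 18 * (F.card : ℝ) / q + 12 * e + 12 * q + 8 < h * S.card) :
    ∃ D : Finset (Sym2 V), Dec D ∧ F ⊆ D ∧ D ⊆ F ∪ H ∧ ∀ p, deg (D ∩ H) p ≤ 2 * (e + q) := by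
  classical
  obtain ⟨J, M, hMF, hJ, hdis, hbi, hcard, _, hpar⟩ := cherry_pairing F hF ctr hctr
  have hM : M = ∅ := by
    rw [Finset.eq_empty_iff_forall_notMem]
    intro f hf
    have h1 := (hpar (ctr f)).1 ⟨f, hf, rfl⟩
    exact (Nat.not_even_iff_odd.2 h1) (heven (ctr f))
  subst hM
  rw [Finset.sdiff_empty] at hJ hbi
  rw [Finset.card_empty, add_zero] at hcard
  have hqpos : (0 : ℝ) < q := by exact_mod_cast hq
  have hSpos : (0 : ℝ) < S.card := by
    rcases Nat.eq_zero_or_pos S.card with h0 | h0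
    · exfalso
      rw [h0] at hnum
      have : (0 : ℝ) ≤ 18 * (F.card : ℝ) / q + 12 * e + 12 * q + 8 := by positivity
      simp only [Nat.cast_zero, mul_zero] at hnum
      linarith
    · exact_mod_cast h0
  have hfixE : ∀ t : V × V × V, fixE (cA t.1 t.2.1 t.2.2) = chE t := fun t => fixE_cA _ _ _
  obtain ⟨D, hD, hD1, hD2, hD3⟩ := greedy_complete J
    (fun t : V × V × V => cA t.1 t.2.1 t.2.2) S H (h - 8 / S.card) e q hq
    (fun j _ => by rw [unk_cA]; norm_num)
    (fun j hj => by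
      obtain ⟨h1, h2, h3, h4, h5⟩ := hJ j hj
      rw [unk_cA]
      have hr := hrich j.2.1 j.1 j.2.2 h1 h2 h3 h4 h5
      have hc := rich_cA (S := S) hH (hF.ne h2) (hF.ne h3) h1
      have hc' : (P4 H S j.1 j.2.2 : ℝ) ≤
          ((compl6 S H (cA j.1 j.2.1 j.2.2)).card : ℝ) + 8 * (S.card : ℝ) ^ 2 := by
        exact_mod_cast hc
      have h6 : (h - 8 / (S.card : ℝ)) * (S.card : ℝ) ^ 3 =
          h * (S.card : ℝ) ^ 3 - 8 * (S.card : ℝ) ^ 2 := by
        field_simp
      rw [h6]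
      linarith)
    (fun p => (cc_port_edge F hF ctr J hJ hdis p).trans (hload p))
    (by
      have h7 : (F.card : ℝ) = 2 * J.card := by exact_mod_cast hcard.symm
      have h8 : 36 * (J.card : ℝ) / q = 18 * (F.card : ℝ) / q := by rw [h7]; ring
      have h9 : (h - 8 / (S.card : ℝ)) * S.card = h * S.card - 8 := by field_simp
      rw [h8, h9]
      linarith)
    (fun j hj j' hj' hne => by
      rw [hfixE, hfixE]
      exact hdis j hj j' hj' hne)
    (fun j hj => by
      rw [hfixE, Finset.disjoint_left]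
      intro f hf hfH
      have : f ∈ F := by rw [← hbi]; exact Finset.mem_biUnion.2 ⟨j, hj, hf⟩
      exact (Finset.disjoint_left.1 hFH) this hfH)
  refine ⟨D, hD, ?_, ?_, hD3⟩
  · intro f hf
    rw [← hbi, Finset.mem_biUnion] at hf
    obtain ⟨j, hj, hf⟩ := hf
    have := hD1 j hj
    simp only [hfixE] at this
    exact this hf
  · intro f hf
    have h1 := hD2 hf
    rw [Finset.mem_union, Finset.mem_biUnion] at h1
    rw [Finset.mem_union]
    rcases h1 with h1 | ⟨j, hj, h1⟩
    · exact Or.inr h1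
    · left
      rw [hfixE] at h1
      rw [← hbi]
      exact Finset.mem_biUnion.2 ⟨j, hj, h1⟩

end H15C6
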