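import Pool.Agent.H15.C6.CC

/-!
Module CV.  Covering a sparse edge set `F` by six-cycles inside `F ∪ H`, where the host `H` is rich
in paths of length four, using few edges of `H` at every vertex.

Proof.  `N = |U|`, `|S| ≥ σ N`.  Put `lam := ⌈c1 N⌉` with small `c1 = c1(h,σ,ρ)`, `q := ⌈c2 N⌉`,
`γ ≤ c1^2/4` small.  `B := {v : deg F v > lam}`; `lam * |B| ≤ 2|F| ≤ 2γN²` so `|B| ≤ lam`.  Take `ctr`
from `assign` with `X = ∅`.  `O :=` set of vertices `v` with an odd number of edges of `F` centred at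
`v`; each such `v` is on an edge `s(u,v) ∈ F`, so `hrich` (centre `u`, both ends `v`) gives
`h|S|^3 ≤ P4 H S v v ≤ dg H S v * |S|^2`, i.e. `dg H S v ≥ h |S| ≥ hσN`.  `O ⊆ U`, so `|O| ≤ N`.  With
`l := ⌈2/(hσ)⌉ + 1` the hypothesis of `fix_edges` holds for large `N`.  Put
`Fx := {s(v, r v) : v ∈ O}`, `F' := F ∪ Fx`, `H' := H \ Fx`, `ctr' e := ctr e` for `e ∈ F` and `:= v` for
`e = s(v, r v)`.  Degrees in `Fx` are at most `l + 1`, so by `P4_sdiff` the richness of `H'` is at least
`h|S|^3 - 4(l+1)|S|^2`.  Loads are at most `lam + l`, all counts are even, and `cherry_cover` applies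
with `h/2` for large `N` if `18 (γ N² + N)/q + 12 (lam + l) + 12 q + 8 < (h/2) σ N`.
`deg (D ∩ H) p ≤ 2 (lam + l + q) + (l + 1) ≤ ρ N`.
For a cherry `(u,v,w)` of `F'` both edges are in `F ∪ H`, so `hrich v u w` is available.
-/

open Finset

namespace H15C6

/-- vertices of large degree are few -/
theorem cv_bad {V : Type} [Fintype V] [DecidableEq V] (U : Finset V) (F : Finset (Sym2 V))
    (hFU : F ⊆ U.sym2) (hF : Loopless F) (lam : ℕ) :
    lam * (univ.filter (fun v => lam < deg F v)).card ≤ 2 * F.card := by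
  have hsub : univ.filter (fun v => lam < deg F v) ⊆ U := by
    intro v hv
    rw [mem_filter] at hv
    have h1 : 0 < deg F v := lt_of_le_of_lt (Nat.zero_le _) hv.2
    unfold deg at h1
    obtain ⟨e, he⟩ := Finset.card_pos.1 h1
    rw [mem_filter] at he
    obtain ⟨y, rfl⟩ := Sym2.mem_iff_exists.1 he.2
    have := hFU he.1
    rw [Finset.mk_mem_sym2_iff] at this
    exact this.1
  calc lam * (univ.filter (fun v => lam < deg F v)).card
      = ∑ _v ∈ univ.filter (fun v => lam < deg F v), lam := by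
        rw [Finset.sum_const, smul_eq_mul, mul_comm]
    _ ≤ ∑ v ∈ univ.filter (fun v => lam < deg F v), deg F v := by
        refine Finset.sum_le_sum (fun v hv => ?_)
        rw [mem_filter] at hv
        exact hv.2.le
    _ ≤ ∑ v ∈ U, deg F v := Finset.sum_le_sum_of_subset hsub
    _ = 2 * F.card := sum_deg hFU hF

/-- the corrected centres: facts about the extra edges -/
theorem cv_fix {V : Type} [Fintype V] [DecidableEq V] (F H : Finset (Sym2 V)) (O S : Finset V)
    (hFH : Disjoint F H) (ctr : Sym2 V → V) (hctr : ∀ e ∈ F, ctr e ∈ e)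
    (hO : ∀ v, v ∈ O ↔ Odd (F.filter (fun e => ctr e = v)).card) (lam l : ℕ)
    (hload : ∀ x, (F.filter (fun e => x ∈ e ∧ ctr e ≠ x)).card ≤ lam)
    (r : V → V) (hr1 : ∀ v ∈ O, r v ∈ S ∧ s(v, r v) ∈ H)
    (hr2 : ∀ u, (O.filter (fun v => r v = u)).card ≤ l)
    (hr3 : ∀ v ∈ O, ∀ v' ∈ O, v ≠ v' → s(v, r v) ≠ s(v', r v')) :
    ∃ ctr' : Sym2 V → V, (∀ e ∈ F ∪ O.image (fun v => s(v, r v)), ctr' e ∈ e) ∧
      (∀ v, Even ((F ∪ O.image (fun v => s(v, r v))).filter (fun e => ctr' e = v)).card) ∧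
      ∀ x, ((F ∪ O.image (fun v => s(v, r v))).filter (fun e => x ∈ e ∧ ctr' e ≠ x)).card ≤
        lam + l := by
  classical
  have hFx : ∀ v ∈ O, s(v, r v) ∉ F := fun v hv hF =>
    (Finset.disjoint_left.1 hFH) hF (hr1 v hv).2
  have hch : ∃ ctr' : Sym2 V → V, (∀ e ∈ F, ctr' e = ctr e) ∧ ∀ v ∈ O, ctr' s(v, r v) = v := by
    refine ⟨fun e => if e ∈ F then ctr e else
      if he : ∃ v ∈ O, s(v, r v) = e then he.choose else ctr e, ?_, ?_⟩
    · intro e he
      simp only [if_pos he]
    · intro v hv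
      have he : ∃ v' ∈ O, s(v', r v') = s(v, r v) := ⟨v, hv, rfl⟩
      simp only [if_neg (hFx v hv)]
      rw [dif_pos he]
      by_contra hne
      exact hr3 _ he.choose_spec.1 v hv hne he.choose_spec.2
  obtain ⟨ctr', hcF, hcO⟩ := hch
  have hdisj : Disjoint F (O.image (fun v => s(v, r v))) := by
    rw [Finset.disjoint_right]
    intro e he
    obtain ⟨v, hv, rfl⟩ := Finset.mem_image.1 he
    exact hFx v hv
  refine ⟨ctr', ?_, ?_, ?_⟩
  · intro e he
    rcases Finset.mem_union.1 he with h | h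
    · rw [hcF e h]; exact hctr e h
    · obtain ⟨v, hv, rfl⟩ := Finset.mem_image.1 h
      rw [hcO v hv]
      exact Sym2.mem_mk_left _ _
  · intro v
    rw [Finset.filter_union, Finset.card_union_of_disjoint (Finset.disjoint_filter_filter hdisj)]
    have e1 : F.filter (fun e => ctr' e = v) = F.filter (fun e => ctr e = v) := by
      apply Finset.filter_congr
      intro e he
      rw [hcF e he]
    rw [e1]
    by_cases hv : v ∈ O
    · have e2 : (O.image (fun v => s(v, r v))).filter (fun e => ctr' e = v) = {s(v, r v)} := by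
        ext e
        simp only [Finset.mem_filter, Finset.mem_image, Finset.mem_singleton]
        constructor
        · rintro ⟨⟨v', hv', rfl⟩, h2⟩
          rw [hcO v' hv'] at h2
          rw [h2]
        · rintro rfl
          exact ⟨⟨v, hv, rfl⟩, hcO v hv⟩
      rw [e2, Finset.card_singleton]
      exact ((hO v).1 hv).add_odd odd_one
    · have e2 : (O.image (fun v => s(v, r v))).filter (fun e => ctr' e = v) = ∅ := by
        rw [Finset.filter_eq_empty_iff]
        intro e he h2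
        obtain ⟨v', hv', rfl⟩ := Finset.mem_image.1 he
        rw [hcO v' hv'] at h2
        exact hv (h2 ▸ hv')
      rw [e2, Finset.card_empty, add_zero]
      exact Nat.not_odd_iff_even.1 (fun h => hv ((hO v).2 h))
  · intro x
    rw [Finset.filter_union]
    refine (Finset.card_union_le _ _).trans (Nat.add_le_add ?_ ?_)
    · refine le_trans (Finset.card_le_card ?_) (hload x)
      intro e he
      rw [Finset.mem_filter] at he ⊢
      rw [hcF e he.1] at he
      exact he
    · refine le_trans ?_ (hr2 x)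
      refine le_trans (Finset.card_le_card ?_) (Finset.card_image_le (s := O.filter (fun v => r v = x))
        (f := fun v => s(v, r v)))
      intro e he
      obtain ⟨he1, he2, he3⟩ := Finset.mem_filter.1 he
      obtain ⟨v, hv, rfl⟩ := Finset.mem_image.1 he1
      rw [hcO v hv] at he3
      rw [Finset.mem_image]
      refine ⟨v, ?_, rfl⟩
      rw [Finset.mem_filter]
      refine ⟨hv, ?_⟩
      rcases Sym2.mem_iff.1 he2 with h | h
      · exact absurd h.symm he3
      · exact h.symm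

/-- the degrees of the extra edges -/
theorem cv_degx {V : Type} [DecidableEq V] (O : Finset V) (l : ℕ) (r : V → V)
    (hr2 : ∀ u, (O.filter (fun v => r v = u)).card ≤ l) (p : V) :
    deg (O.image (fun v => s(v, r v))) p ≤ l + 1 := by
  unfold deg
  have hsub : (O.image (fun v => s(v, r v))).filter (fun e => p ∈ e) ⊆
      ((O.filter (fun v => r v = p)) ∪ {p}).image (fun v => s(v, r v)) := by
    intro e he
    obtain ⟨he1, he2⟩ := Finset.mem_filter.1 he
    obtain ⟨v, hv, rfl⟩ := Finset.mem_image.1 he1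
    rw [Finset.mem_image]
    refine ⟨v, ?_, rfl⟩
    rw [Finset.mem_union, Finset.mem_filter, Finset.mem_singleton]
    rcases Sym2.mem_iff.1 he2 with h | h
    · right; exact h.symm
    · left; exact ⟨hv, h.symm⟩
  refine (Finset.card_le_card hsub).trans (Finset.card_image_le.trans ?_)
  refine (Finset.card_union_le _ _).trans ?_
  rw [Finset.card_singleton]
  exact Nat.add_le_add_right (hr2 p) 1

theorem cover_sparse (h σ ρ : ℝ) (hh : 0 < h) (hσ : 0 < σ) (hρ : 0 < ρ) :
    ∃ γ : ℝ, 0 < γ ∧ ∃ N0 : ℕ, ∀ (V : Type) [Fintype V] [DecidableEq V] (U S : Finset V)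
      (H F : Finset (Sym2 V)), N0 ≤ U.card → S ⊆ U → σ * (U.card : ℝ) ≤ (S.card : ℝ) →
      H ⊆ U.sym2 → F ⊆ U.sym2 → Loopless H → Loopless F → Disjoint F H →
      (F.card : ℝ) ≤ γ * (U.card : ℝ) ^ 2 →
      (∀ v u w, s(v, u) ∈ F ∪ H → s(v, w) ∈ F ∪ H →
        h * (S.card : ℝ) ^ 3 ≤ (P4 H S u w : ℝ)) →
      ∃ D : Finset (Sym2 V), Dec D ∧ F ⊆ D ∧ D ⊆ F ∪ H ∧
        ∀ p, (deg (D ∩ H) p : ℝ) ≤ ρ * U.card := by
  have hτ : 0 < h * σ / 2 := by positivity
  set τ : ℝ := h * σ / 2 with hτdef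
  set c : ℝ := min (τ / 100) (ρ / 16) with hcdef
  have hc : 0 < c := lt_min (by positivity) (by positivity)
  have hcτ : c ≤ τ / 100 := min_le_left _ _
  have hcρ : c ≤ ρ / 16 := min_le_right _ _
  set l : ℕ := ⌈2 / (h * σ)⌉₊ + 1 with hl
  have hl1 : 1 ≤ l := by omega
  have hlr : 1 / τ ≤ l := by
    have h1 : 2 / (h * σ) ≤ (⌈2 / (h * σ)⌉₊ : ℝ) := Nat.le_ceil _
    have h2 : 1 / τ = 2 / (h * σ) := by
      rw [hτdef]; field_simp
    rw [h2, hl]
    push_cast
    linarith
  have hl0 : (0 : ℝ) < l := by exact_mod_cast hl1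
  refine ⟨c ^ 2 / 4, by positivity, ⌈2 / τ * (18 / c + 32 + 12 * l)⌉₊ +
    ⌈2 / ρ * (3 * l + 5)⌉₊ + 1, ?_⟩
  intro V _ _ U S H F hN hSU hσS hHU hFU hHl hFl hFH hFc hrich
  set N : ℕ := U.card with hNdef
  have hN1 : 1 ≤ N := by omega
  have hNp : (0 : ℝ) < N := by exact_mod_cast hN1
  have hNa : 2 / τ * (18 / c + 32 + 12 * l) ≤ N := by
    refine (Nat.le_ceil _).trans ?_
    exact_mod_cast (by omega : ⌈2 / τ * (18 / c + 32 + 12 * (l : ℝ))⌉₊ ≤ N)
  have hNb : 2 / ρ * (3 * l + 5) ≤ N := by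
    refine (Nat.le_ceil _).trans ?_
    exact_mod_cast (by omega : ⌈2 / ρ * (3 * (l : ℝ) + 5)⌉₊ ≤ N)
  have hNa' : 18 / c + 32 + 12 * l ≤ τ * N / 2 := by
    have h1 := mul_le_mul_of_nonneg_left hNa (by positivity : (0 : ℝ) ≤ τ / 2)
    have h2 : τ / 2 * (2 / τ * (18 / c + 32 + 12 * l)) = 18 / c + 32 + 12 * l := by
      field_simp
    linarith
  have hNb' : 3 * (l : ℝ) + 5 ≤ ρ * N / 2 := by
    have h1 := mul_le_mul_of_nonneg_left hNb (by positivity : (0 : ℝ) ≤ ρ / 2)
    have h2 : ρ / 2 * (2 / ρ * (3 * (l : ℝ) + 5)) = 3 * l + 5 := by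
      field_simp
    linarith
  have hcp : 0 < 18 / c := by positivity
  have hSp : (0 : ℝ) < S.card := lt_of_lt_of_le (by positivity) hσS
  -- `lam = q`
  set lam : ℕ := ⌈c * N⌉₊ with hlam
  have hlam1 : c * N ≤ lam := Nat.le_ceil _
  have hlam2 : (lam : ℝ) < c * N + 1 := Nat.ceil_lt_add_one (by positivity)
  have hlamp : (0 : ℝ) < lam := lt_of_lt_of_le (by positivity) hlam1
  have hlamn : 1 ≤ lam := by exact_mod_cast hlamp
  set B : Finset V := univ.filter (fun v => lam < deg F v) with hB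
  have hBc : B.card ≤ lam := by
    have h1 := cv_bad U F hFU hFl lam
    have h2 : (lam : ℝ) * B.card ≤ 2 * F.card := by exact_mod_cast h1
    have h3 : c * N * B.card ≤ c * N * (c * N / 2) := by
      calc c * N * B.card ≤ lam * B.card := by gcongr
        _ ≤ 2 * F.card := h2
        _ ≤ 2 * (c ^ 2 / 4 * N ^ 2) := by linarith
        _ = c * N * (c * N / 2) := by ring
    have h4 : (B.card : ℝ) ≤ c * N / 2 := le_of_mul_le_mul_left h3 (by positivity)
    have h5 : (B.card : ℝ) ≤ lam := by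
      have : 0 < c * N := by positivity
      linarith
    exact_mod_cast h5
  obtain ⟨ctr, hc1, _, _, hc4⟩ := assign F hFl ∅ B (Finset.empty_subset _) lam
    (fun v hv => by
      by_contra hcon
      exact hv (by rw [hB, mem_filter]; exact ⟨mem_univ _, not_le.1 hcon⟩)) hBc
  set O : Finset V := univ.filter (fun v => Odd (F.filter (fun e => ctr e = v)).card) with hO
  have hOiff : ∀ v, v ∈ O ↔ Odd (F.filter (fun e => ctr e = v)).card := by
    intro v; rw [hO, mem_filter]; simp
  have hOe : ∀ v ∈ O, ∃ u, s(v, u) ∈ F := by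
    intro v hv
    have h1 := (hOiff v).1 hv
    obtain ⟨e, he⟩ := Finset.card_pos.1 h1.pos
    rw [mem_filter] at he
    have h2 := hc1 e he.1
    rw [he.2] at h2
    obtain ⟨u, rfl⟩ := Sym2.mem_iff_exists.1 h2
    exact ⟨u, he.1⟩
  have hOU : O ⊆ U := by
    intro v hv
    obtain ⟨u, hu⟩ := hOe v hv
    have := hFU hu
    rw [Finset.mk_mem_sym2_iff] at this
    exact this.1
  have hOc : O.card ≤ N := Finset.card_le_card hOU
  have hOdg : ∀ v ∈ O, h * σ * N ≤ dg H S v := by
    intro v hv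
    obtain ⟨u, hu⟩ := hOe v hv
    have h1 : s(u, v) ∈ F ∪ H := by
      rw [Sym2.eq_swap]; exact Finset.mem_union_left _ hu
    have h2 := hrich u v v h1 h1
    have h3 : (P4 H S v v : ℝ) ≤ dg H S v * (S.card : ℝ) ^ 2 := by
      exact_mod_cast P4_le_dg H S v v
    have h4 : (S.card : ℝ) ^ 2 * (h * S.card) ≤ (S.card : ℝ) ^ 2 * dg H S v := by
      nlinarith
    have h5 := le_of_mul_le_mul_left h4 (by positivity)
    calc h * σ * N = h * (σ * N) := by ring
      _ ≤ h * S.card := by gcongr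
      _ ≤ _ := h5
  obtain ⟨r, hr1, hr2, hr3⟩ := fix_edges O S H hHl l hl1 (by
    intro v hv
    have h1 := hOdg v hv
    have h2 : ((O.card / l : ℕ) : ℝ) ≤ τ * N := by
      calc ((O.card / l : ℕ) : ℝ) ≤ (O.card : ℝ) / l := Nat.cast_div_le
        _ ≤ N / l := by gcongr
        _ ≤ τ * N := by
          rw [div_le_iff₀ hl0]
          have h3 : 1 ≤ τ * l := by
            rw [div_le_iff₀ hτ] at hlr
            linarith
          nlinarith
    have h4 : (O.card / l : ℕ) + (l : ℝ) + 1 < dg H S v := by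
      have h5 : h * σ * N = 2 * (τ * N) := by rw [hτdef]; ring
      have h6 : 0 < τ * N := by positivity
      linarith
    exact_mod_cast h4)
  obtain ⟨ctr', hd1, hd2, hd3⟩ := cv_fix F H O S hFH ctr hc1 hOiff lam l hc4 r hr1 hr2 hr3
  set Fx : Finset (Sym2 V) := O.image (fun v => s(v, r v)) with hFx
  have hFxH : Fx ⊆ H := by
    intro e he
    obtain ⟨v, hv, rfl⟩ := Finset.mem_image.1 he
    exact (hr1 v hv).2
  have hFxd : ∀ p, deg Fx p ≤ l + 1 := cv_degx O l r hr2
  have hFxc : Fx.card ≤ N := Finset.card_image_le.trans hOc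
  have hmem : ∀ e, e ∈ F ∪ Fx → e ∈ F ∪ H := by
    intro e he
    rcases Finset.mem_union.1 he with h1 | h1
    · exact Finset.mem_union_left _ h1
    · exact Finset.mem_union_right _ (hFxH h1)
  obtain ⟨D, hD1, hD2, hD3, hD4⟩ := cherry_cover S (H \ Fx) (F ∪ Fx) ctr' (h / 2) (lam + l) lam hlamn
    (hHl.mono Finset.sdiff_subset) (hFl.union (hHl.mono hFxH))
    (by
      rw [Finset.disjoint_union_left]
      exact ⟨hFH.mono_right Finset.sdiff_subset, Finset.disjoint_sdiff⟩)
    hd1 hd2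
    (by
      intro v u w _ h1 h2 _ _
      have h3 := hrich v u w (by rw [Sym2.eq_swap]; exact hmem _ h1) (hmem _ h2)
      have h4 : (P4 H S u w : ℝ) ≤ P4 (H \ Fx) S u w + 4 * (l + 1) * (S.card : ℝ) ^ 2 := by
        exact_mod_cast P4_sdiff H Fx hFxd u w
      have h5 : 4 * ((l : ℝ) + 1) ≤ h / 2 * S.card := by
        have h6 : τ * N ≤ h / 2 * S.card := by
          calc τ * N = h / 2 * (σ * N) := by rw [hτdef]; ring
            _ ≤ _ := by gcongr
        have h7 : 0 < τ * N := by positivity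
        linarith
      have h8 : 4 * ((l : ℝ) + 1) * (S.card : ℝ) ^ 2 ≤ h / 2 * S.card * (S.card : ℝ) ^ 2 := by
        gcongr
      nlinarith)
    hd3
    (by
      have h1 : ((F ∪ Fx).card : ℝ) ≤ c ^ 2 / 4 * N ^ 2 + N := by
        have h2 : ((F ∪ Fx).card : ℝ) ≤ F.card + Fx.card := by
          exact_mod_cast Finset.card_union_le F Fx
        have h3 : (Fx.card : ℝ) ≤ N := by exact_mod_cast hFxc
        linarith
      have h4 : 18 * ((F ∪ Fx).card : ℝ) / lam ≤ 18 * (c / 4 * N + 1 / c) := by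
        rw [div_le_iff₀ hlamp]
        have h5 : c ^ 2 / 4 * N ^ 2 + N = (c / 4 * N + 1 / c) * (c * N) := by
          field_simp
        have h6 : (c / 4 * N + 1 / c) * (c * N) ≤ (c / 4 * N + 1 / c) * lam := by
          gcongr
        linarith
      have h7 : 18 * (1 / c) = 18 / c := by ring
      have h8 : τ * N ≤ h / 2 * S.card := by
        calc τ * N = h / 2 * (σ * N) := by rw [hτdef]; ring
          _ ≤ _ := by gcongr
      have h9 : c * N ≤ τ / 100 * N := by gcongr
      have h10 : 0 < τ * N := by positivity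
      push_cast
      linarith)
  refine ⟨D, hD1, (Finset.subset_union_left).trans hD2, ?_, ?_⟩
  · intro e he
    rcases Finset.mem_union.1 (hD3 he) with h1 | h1
    · exact hmem e h1
    · exact Finset.mem_union_right _ (Finset.mem_sdiff.1 h1).1
  · intro p
    have h1 : deg (D ∩ H) p ≤ deg (D ∩ (H \ Fx)) p + deg Fx p := by
      refine le_trans (deg_mono ?_ p) (deg_union_le _ _ p)
      intro e he
      rw [Finset.mem_inter] at he
      by_cases h2 : e ∈ Fx
      · exact Finset.mem_union_right _ h2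
      · exact Finset.mem_union_left _ (Finset.mem_inter.2 ⟨he.1, Finset.mem_sdiff.2 ⟨he.2, h2⟩⟩)
    have h2 : deg (D ∩ H) p ≤ 2 * (lam + l + lam) + (l + 1) :=
      h1.trans (Nat.add_le_add (hD4 p) (hFxd p))
    have h3 : (deg (D ∩ H) p : ℝ) ≤ 2 * (lam + l + lam) + (l + 1) := by exact_mod_cast h2
    have h4 : c * N ≤ ρ / 16 * N := by gcongr
    have h5 : 0 < ρ * N := by positivity
    linarith

end H15C6
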