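import Pool.Agent.H15.C6.KST
import Pool.Agent.H15.C6.CV

/-!
Module CD.  The cover-down step of the iterative absorption.

Data: `U2 ⊆ U1 ⊆ U`, graph `E` inside `U`, current graph `E' ⊆ E` which contains all edges of `E`
inside `U1` and misses at most `θ|U1|` edges of `E` from every vertex into `U1`; colouring `χ`.
Write `W = U \ U1`, `S = U1 \ U2`, `s = |U1|`; `s ≤ 3|S|` because `3|U2| ≤ L|U2| ≤ 2 s`;
`|U| ≤ 2 L s`, `s ≤ 2 L |U2|`.

Choice of constants: `K := ⌈C L / h^2⌉` (`C` a large absolute constant), then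
`θ := min (h/(4K^2)) (h/100)`, `ρ := min (θ/(4L^2)) (h/(100 L))` (so that `ρ|U| ≤ θ|U2|`), then `γ` from
`cover_sparse (h/(2K^2)) (1/(6L)) ρ`, then `s0` large.

Rsv := {s(w,u) ∈ E' : w ∈ W, u ∈ S, χ w = χ u} (reserve);
F0 := {e ∈ E' : e not inside U1, e ∉ Rsv};   H0 := {e ∈ E' : e inside U1, not inside U2} ∪ Rsv.

Step 1.  `sparse_leftover γ` for `F0` inside `U`: `D1 ⊆ F0`, `F := F0 \ D1`, `|F| ≤ γ |U|²`.

Step 2.  `cover_sparse` with `U, S, H0, F`.  Richness: for `x, y ∈ U` with `R x y`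
`P4 H0 S x y ≥ P4c E S χ (χ x) (χ y) x y - 2 θ s |S|^2 ≥ h s^3/K^2 - 2θ s^3 ≥ (h/(2K^2)) |S|^3`:
the inner edges of the walk are inside `S` (not inside `U2`, and in `E'`); the first edge
`s(x,a)` is in `E'` for all but `θ s` vertices `a`; if `x ∈ U1` it is inside `U1` and not inside `U2`; if
`x ∈ W` it is in `Rsv` since `χ a = χ x`.  Result `D2`: `F ⊆ D2 ⊆ F ∪ H0`, `deg (D2 ∩ H0) ≤ ρ|U|`.

Step 3.  `F3 := Rsv \ D2`, centre = the end in `W` (define `ctr` on `F3` accordingly).  The remaining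
graph `E' \ (D1 ∪ D2)` has even degrees and its edges at `w ∈ W` are exactly those of `F3`, so all
counts are even.  Host `H3 := {e ∈ E' \ D2 : e inside S}`.  Load of `u ∈ S`:
`#{w ∈ W : χ w = χ u} ≤ 2|U|/K`; `|F3| ≤ ∑_{w ∈ W} #{u ∈ S : χ u = χ w} ≤ |U| * 2 s/K`.
Richness of `H3` for `u, u' ∈ S` with a common neighbour `w`: summing `P4c` over all pairs of colours
`P4 E S u u' ≥ h s^3`; deleting `D2` costs at most `4 ρ|U| |S|^2` (`P4_sdiff`, edges inside `S` and edges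
from `u,u' ∈ S` to `S` are all inside `U1` hence in `E'`).
Apply `cherry_cover` with `h/2`, `e := ⌊2|U|/K⌋`, `q := ⌈h s/400⌉`:
`18 * (2|U| s/K)/q + 12 * 2|U|/K + 12 q + 8 < (h/2)|S|`, true for `K ≥ C L/h^2`.
Result `D3`: `F3 ⊆ D3 ⊆ F3 ∪ H3`.

`D := D1 ∪ D2 ∪ D3` (pairwise disjoint).  Edges of `D` inside `U1` are in `H0 ∪ H3`, hence not inside
`U2`; edges of `D` from `u ∈ U1` into `U2` are in `D2 ∩ H0`: at most `ρ|U| ≤ θ|U2|`.
-/

open Finset

namespace H15C6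

section aux

variable {V : Type} [Fintype V] [DecidableEq V]

theorem cd_P4_mono {H H' : Finset (Sym2 V)} (h : H ⊆ H') (S : Finset V) (x y : V) :
    P4 H S x y ≤ P4 H' S x y := by
  unfold P4
  apply Finset.card_le_card
  intro t ht
  rw [Finset.mem_filter] at ht ⊢
  exact ⟨ht.1, h ht.2.1, h ht.2.2.1, h ht.2.2.2.1, h ht.2.2.2.2⟩

theorem cd_P4_eq_sum {K : ℕ} (χ : V → Fin K) (E : Finset (Sym2 V)) (S : Finset V) (x y : V) :
    P4 E S x y = ∑ p : Fin K × Fin K, P4c E S χ p.1 p.2 x y := by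
  unfold P4 P4c
  rw [Finset.card_eq_sum_card_fiberwise (f := fun t : V × V × V => (χ t.1, χ t.2.2))
    (t := Finset.univ) (by intro t _; simp)]
  refine Finset.sum_congr rfl fun p _ => ?_
  rw [Finset.filter_filter]
  congr 1
  apply Finset.filter_congr
  intro t _
  rw [Prod.ext_iff]

theorem cd_P4_ge {K : ℕ} (hK : 1 ≤ K) (χ : V → Fin K) (E : Finset (Sym2 V)) (S : Finset V)
    (x y : V) (c : ℝ) (h : ∀ k k', c / (K : ℝ) ^ 2 ≤ (P4c E S χ k k' x y : ℝ)) :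
    c ≤ (P4 E S x y : ℝ) := by
  rw [cd_P4_eq_sum χ]
  push_cast
  have hK0 : (K : ℝ) ≠ 0 := by
    have : (1 : ℝ) ≤ K := by exact_mod_cast hK
    positivity
  calc c = ∑ _p : Fin K × Fin K, c / (K : ℝ) ^ 2 := by
        rw [Finset.sum_const, Finset.card_univ, Fintype.card_prod, Fintype.card_fin, nsmul_eq_mul]
        push_cast
        field_simp
    _ ≤ ∑ p : Fin K × Fin K, (P4c E S χ p.1 p.2 x y : ℝ) :=
        Finset.sum_le_sum fun p _ => h p.1 p.2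

theorem cd_P4c_le {K : ℕ} (χ : V → Fin K) (E Ms H : Finset (Sym2 V)) (S : Finset V) (x y : V)
    (k k' : Fin K)
    (hH : ∀ a ∈ S, ∀ b ∈ S, ∀ c ∈ S, s(x, a) ∈ E → s(a, b) ∈ E → s(b, c) ∈ E → s(c, y) ∈ E →
      χ a = k → χ c = k' → s(x, a) ∉ Ms → s(c, y) ∉ Ms →
      s(x, a) ∈ H ∧ s(a, b) ∈ H ∧ s(b, c) ∈ H ∧ s(c, y) ∈ H) :
    P4c E S χ k k' x y ≤ P4 H S x y + (dg Ms S x + dg Ms S y) * S.card ^ 2 := by
  have hsub : ((S ×ˢ S ×ˢ S).filter (fun t => (s(x, t.1) ∈ E ∧ s(t.1, t.2.1) ∈ E ∧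
      s(t.2.1, t.2.2) ∈ E ∧ s(t.2.2, y) ∈ E) ∧ χ t.1 = k ∧ χ t.2.2 = k')) ⊆
      ((S ×ˢ S ×ˢ S).filter (fun t => s(x, t.1) ∈ H ∧ s(t.1, t.2.1) ∈ H ∧
        s(t.2.1, t.2.2) ∈ H ∧ s(t.2.2, y) ∈ H)) ∪
      ((S.filter (fun a => s(x, a) ∈ Ms)) ×ˢ S ×ˢ S ∪
        S ×ˢ S ×ˢ (S.filter (fun c => s(y, c) ∈ Ms))) := by
    rintro ⟨a, b, c⟩ ht
    simp only [Finset.mem_filter, Finset.mem_product, Finset.mem_union] at ht ⊢
    obtain ⟨⟨ha, hb, hc⟩, ⟨e1, e2, e3, e4⟩, k1, k2⟩ := ht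
    by_cases m1 : s(x, a) ∈ Ms
    · right; left; exact ⟨⟨ha, m1⟩, hb, hc⟩
    · by_cases m2 : s(c, y) ∈ Ms
      · right; right
        rw [Sym2.eq_swap] at m2
        exact ⟨ha, hb, hc, m2⟩
      · left
        exact ⟨⟨ha, hb, hc⟩, hH a ha b hb c hc e1 e2 e3 e4 k1 k2 m1 m2⟩
  have h1 := Finset.card_le_card hsub
  have h2 := Finset.card_union_le ((S ×ˢ S ×ˢ S).filter (fun t => s(x, t.1) ∈ H ∧
        s(t.1, t.2.1) ∈ H ∧ s(t.2.1, t.2.2) ∈ H ∧ s(t.2.2, y) ∈ H))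
      ((S.filter (fun a => s(x, a) ∈ Ms)) ×ˢ S ×ˢ S ∪
        S ×ˢ S ×ˢ (S.filter (fun c => s(y, c) ∈ Ms)))
  have h3 := Finset.card_union_le ((S.filter (fun a => s(x, a) ∈ Ms)) ×ˢ S ×ˢ S)
    (S ×ˢ S ×ˢ (S.filter (fun c => s(y, c) ∈ Ms)))
  rw [Finset.card_product, Finset.card_product, Finset.card_product, Finset.card_product] at h3
  unfold P4c P4 dg
  calc _ ≤ _ := h1
    _ ≤ _ := h2
    _ ≤ _ := Nat.add_le_add_left h3 _
    _ = _ := by ring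

/-- the reserve -/
def cd_Rsv {K : ℕ} (W S : Finset V) (χ : V → Fin K) (E' : Finset (Sym2 V)) : Finset (Sym2 V) :=
  E'.filter (fun e => ∃ w ∈ W, ∃ u ∈ S, χ w = χ u ∧ e = s(w, u))

/-- the edges inside `U1` -/
def cd_In (U1 : Finset V) (E' : Finset (Sym2 V)) : Finset (Sym2 V) :=
  E'.filter (fun e => e ∈ U1.sym2)

/-- the edges to be removed first -/
def cd_F0 {K : ℕ} (U U1 U2 : Finset V) (χ : V → Fin K) (E' : Finset (Sym2 V)) :
    Finset (Sym2 V) :=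
  E' \ (cd_In U1 E' ∪ cd_Rsv (U \ U1) (U1 \ U2) χ E')

/-- the first host -/
def cd_H0 {K : ℕ} (U U1 U2 : Finset V) (χ : V → Fin K) (E' : Finset (Sym2 V)) :
    Finset (Sym2 V) :=
  (cd_In U1 E').filter (fun e => e ∉ U2.sym2) ∪ cd_Rsv (U \ U1) (U1 \ U2) χ E'

open Classical in
/-- the centre of a reserve edge -/
noncomputable def cd_ctr (W : Finset V) (f : Sym2 V) : V :=
  if h : ∃ w ∈ W, w ∈ f then h.choose else (Quot.out f).1

theorem cd_mem_Rsv {K : ℕ} {W S : Finset V} {χ : V → Fin K} {E' : Finset (Sym2 V)} {e : Sym2 V} :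
    e ∈ cd_Rsv W S χ E' ↔ e ∈ E' ∧ ∃ w ∈ W, ∃ u ∈ S, χ w = χ u ∧ e = s(w, u) := by
  unfold cd_Rsv
  rw [Finset.mem_filter]

theorem cd_mem_In {U1 : Finset V} {E' : Finset (Sym2 V)} {e : Sym2 V} :
    e ∈ cd_In U1 E' ↔ e ∈ E' ∧ e ∈ U1.sym2 := by
  unfold cd_In
  rw [Finset.mem_filter]

theorem cd_mem_F0 {K : ℕ} {U U1 U2 : Finset V} {χ : V → Fin K} {E' : Finset (Sym2 V)}
    {e : Sym2 V} : e ∈ cd_F0 U U1 U2 χ E' ↔ e ∈ E' ∧ e ∉ U1.sym2 ∧
      e ∉ cd_Rsv (U \ U1) (U1 \ U2) χ E' := by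
  unfold cd_F0
  rw [Finset.mem_sdiff, Finset.mem_union, cd_mem_In]
  tauto

theorem cd_mem_H0 {K : ℕ} {U U1 U2 : Finset V} {χ : V → Fin K} {E' : Finset (Sym2 V)}
    {e : Sym2 V} : e ∈ cd_H0 U U1 U2 χ E' ↔ (e ∈ E' ∧ e ∈ U1.sym2 ∧ e ∉ U2.sym2) ∨
      e ∈ cd_Rsv (U \ U1) (U1 \ U2) χ E' := by
  unfold cd_H0
  rw [Finset.mem_union, Finset.mem_filter, cd_mem_In]
  tauto

theorem cd_Rsv_notIn {K : ℕ} {U U1 U2 : Finset V} {χ : V → Fin K} {E' : Finset (Sym2 V)}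
    {e : Sym2 V} (he : e ∈ cd_Rsv (U \ U1) (U1 \ U2) χ E') : e ∉ U1.sym2 := by
  obtain ⟨_, w, hw, u, hu, _, rfl⟩ := cd_mem_Rsv.1 he
  rw [Finset.mk_mem_sym2_iff]
  intro h
  exact (Finset.mem_sdiff.1 hw).2 h.1

theorem cd_sym2_mono {A B : Finset V} (h : A ⊆ B) {e : Sym2 V} (he : e ∈ A.sym2) :
    e ∈ B.sym2 := Finset.sym2_mono h he

theorem cd_ctr_spec {W T : Finset V} (hWT : Disjoint W T) {w u : V} (hw : w ∈ W) (hu : u ∈ T) :
    cd_ctr W s(w, u) = w := by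
  unfold cd_ctr
  have hex : ∃ w' ∈ W, w' ∈ s(w, u) := ⟨w, hw, Sym2.mem_mk_left w u⟩
  rw [dif_pos hex]
  obtain ⟨h1, h2⟩ := hex.choose_spec
  rcases Sym2.mem_iff.1 h2 with h | h
  · exact h
  · rw [h] at h1
    exact absurd hu (Finset.disjoint_left.1 hWT h1)

theorem cd_H0_rich {K : ℕ} {U U1 U2 : Finset V} (hU21 : U2 ⊆ U1) (χ : V → Fin K)
    {E E' : Finset (Sym2 V)} (hin : ∀ e ∈ E, e ∈ U1.sym2 → e ∈ E')
    {x y : V} (hx : x ∈ U) (hy : y ∈ U) :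
    P4c E (U1 \ U2) χ (χ x) (χ y) x y ≤ P4 (cd_H0 U U1 U2 χ E') (U1 \ U2) x y +
      (dg (E \ E') (U1 \ U2) x + dg (E \ E') (U1 \ U2) y) * (U1 \ U2).card ^ 2 := by
  apply cd_P4c_le
  intro a ha b hb c hc e1 e2 e3 e4 k1 k2 m1 m2
  have hS : ∀ z ∈ U1 \ U2, z ∈ U1 ∧ z ∉ U2 := fun z hz => Finset.mem_sdiff.1 hz
  have inner : ∀ p ∈ U1 \ U2, ∀ q ∈ U1 \ U2, s(p, q) ∈ E → s(p, q) ∈ cd_H0 U U1 U2 χ E' := by
    intro p hp q hq hpq
    rw [cd_mem_H0]
    left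
    have h1 : s(p, q) ∈ U1.sym2 := Finset.mk_mem_sym2_iff.2 ⟨(hS p hp).1, (hS q hq).1⟩
    refine ⟨hin _ hpq h1, h1, ?_⟩
    rw [Finset.mk_mem_sym2_iff]
    exact fun h => (hS p hp).2 h.1
  have outer : ∀ p ∈ U, ∀ q ∈ U1 \ U2, s(p, q) ∈ E → χ q = χ p → s(p, q) ∉ E \ E' →
      s(p, q) ∈ cd_H0 U U1 U2 χ E' := by
    intro p hp q hq hpq hk hm
    have hE' : s(p, q) ∈ E' := by
      by_contra hne
      exact hm (Finset.mem_sdiff.2 ⟨hpq, hne⟩)
    rw [cd_mem_H0]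
    by_cases hp1 : p ∈ U1
    · left
      refine ⟨hE', Finset.mk_mem_sym2_iff.2 ⟨hp1, (hS q hq).1⟩, ?_⟩
      rw [Finset.mk_mem_sym2_iff]
      exact fun h => (hS q hq).2 h.2
    · right
      rw [cd_mem_Rsv]
      exact ⟨hE', p, Finset.mem_sdiff.2 ⟨hp, hp1⟩, q, hq, hk.symm, rfl⟩
  refine ⟨outer x hx a ha e1 k1 m1, inner a ha b hb e2, inner b hb c hc e3, ?_⟩
  rw [Sym2.eq_swap] at e4 m2 ⊢
  exact outer y hy c hc e4 k2 m2

/-- the second host -/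
def cd_H3 (S : Finset V) (E' D2 : Finset (Sym2 V)) : Finset (Sym2 V) :=
  (E' \ D2).filter (fun e => e ∈ S.sym2)

theorem cd_mem_H3 {S : Finset V} {E' D2 : Finset (Sym2 V)} {e : Sym2 V} :
    e ∈ cd_H3 S E' D2 ↔ e ∈ E' ∧ e ∉ D2 ∧ e ∈ S.sym2 := by
  unfold cd_H3
  rw [Finset.mem_filter, Finset.mem_sdiff]
  tauto

theorem cd_H3_rich {K : ℕ} {U U1 U2 : Finset V} (χ : V → Fin K)
    {E E' D2 : Finset (Sym2 V)} (hin : ∀ e ∈ E, e ∈ U1.sym2 → e ∈ E')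
    {d : ℕ} (hd : ∀ p, deg (D2 ∩ cd_H0 U U1 U2 χ E') p ≤ d)
    {x y : V} (hx : x ∈ U1 \ U2) (hy : y ∈ U1 \ U2) :
    P4 E (U1 \ U2) x y ≤ P4 (cd_H3 (U1 \ U2) E' D2) (U1 \ U2) x y +
      4 * d * (U1 \ U2).card ^ 2 := by
  have hS : ∀ z ∈ U1 \ U2, z ∈ U1 ∧ z ∉ U2 := fun z hz => Finset.mem_sdiff.1 hz
  have hloc : P4 E (U1 \ U2) x y ≤
      P4 (E.filter (fun e => e ∈ (U1 \ U2).sym2)) (U1 \ U2) x y := by
    unfold P4
    apply Finset.card_le_card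
    rintro ⟨a, b, c⟩ ht
    simp only [Finset.mem_filter, Finset.mem_product] at ht ⊢
    obtain ⟨⟨ha, hb, hc⟩, e1, e2, e3, e4⟩ := ht
    exact ⟨⟨ha, hb, hc⟩, ⟨e1, Finset.mk_mem_sym2_iff.2 ⟨hx, ha⟩⟩,
      ⟨e2, Finset.mk_mem_sym2_iff.2 ⟨ha, hb⟩⟩, ⟨e3, Finset.mk_mem_sym2_iff.2 ⟨hb, hc⟩⟩,
      ⟨e4, Finset.mk_mem_sym2_iff.2 ⟨hc, hy⟩⟩⟩
  have h1 := P4_sdiff (S := U1 \ U2) (E.filter (fun e => e ∈ (U1 \ U2).sym2))
    (D2 ∩ cd_H0 U U1 U2 χ E') hd x y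
  have h2 : E.filter (fun e => e ∈ (U1 \ U2).sym2) \ (D2 ∩ cd_H0 U U1 U2 χ E') ⊆
      cd_H3 (U1 \ U2) E' D2 := by
    intro e he
    rw [Finset.mem_sdiff, Finset.mem_filter, Finset.mem_inter] at he
    obtain ⟨⟨heE, heS⟩, hne⟩ := he
    have he1 : e ∈ U1.sym2 := cd_sym2_mono Finset.sdiff_subset heS
    have he' : e ∈ E' := hin e heE he1
    have he2 : e ∉ U2.sym2 := by
      induction e using Sym2.ind with
      | _ p q =>
        rw [Finset.mk_mem_sym2_iff] at heS ⊢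
        exact fun h => (hS p heS.1).2 h.1
    rw [cd_mem_H3]
    refine ⟨he', fun hD => hne ⟨hD, ?_⟩, heS⟩
    rw [cd_mem_H0]
    exact Or.inl ⟨he', he1, he2⟩
  have h3 := cd_P4_mono h2 (U1 \ U2) x y
  omega

theorem cd_card_Rsv {K : ℕ} {U U1 U2 : Finset V} (χ : V → Fin K) (E' : Finset (Sym2 V)) {c : ℝ}
    (hc : ∀ k : Fin K, (((U1 \ U2).filter (fun u => χ u = k)).card : ℝ) ≤ c) :
    ((cd_Rsv (U \ U1) (U1 \ U2) χ E').card : ℝ) ≤ U.card * c := by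
  have hsub : cd_Rsv (U \ U1) (U1 \ U2) χ E' ⊆ (U \ U1).biUnion (fun w =>
      ((U1 \ U2).filter (fun u => χ u = χ w)).image (fun u => s(w, u))) := by
    intro e he
    obtain ⟨_, w, hw, u, hu, hk, rfl⟩ := cd_mem_Rsv.1 he
    rw [Finset.mem_biUnion]
    exact ⟨w, hw, Finset.mem_image.2 ⟨u, Finset.mem_filter.2 ⟨hu, hk.symm⟩, rfl⟩⟩
  have h1 : ((cd_Rsv (U \ U1) (U1 \ U2) χ E').card : ℝ) ≤
      ∑ w ∈ U \ U1, (((U1 \ U2).filter (fun u => χ u = χ w)).card : ℝ) := by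
    have h2 := le_trans (Finset.card_le_card hsub) Finset.card_biUnion_le
    have h3 : ∑ w ∈ U \ U1, (((U1 \ U2).filter (fun u => χ u = χ w)).image
        (fun u => s(w, u))).card ≤ ∑ w ∈ U \ U1, ((U1 \ U2).filter (fun u => χ u = χ w)).card :=
      Finset.sum_le_sum fun w _ => Finset.card_image_le
    exact_mod_cast le_trans h2 h3
  refine le_trans h1 (le_trans (Finset.sum_le_sum fun w _ => hc (χ w)) ?_)
  rw [Finset.sum_const, nsmul_eq_mul]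
  rcases (U \ U1).eq_empty_or_nonempty with h0 | ⟨w, _⟩
  · rw [h0, Finset.card_empty, Nat.cast_zero, zero_mul]
    rcases Nat.eq_zero_or_pos K with hK | hK
    · subst hK
      rcases U.eq_empty_or_nonempty with hU | ⟨u, _⟩
      · rw [hU]; simp
      · exact (χ u).elim0
    · have := hc ⟨0, hK⟩
      have h4 : (0 : ℝ) ≤ c := le_trans (Nat.cast_nonneg _) this
      positivity
  · have h4 : (0 : ℝ) ≤ c := le_trans (Nat.cast_nonneg _) (hc (χ w))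
    apply mul_le_mul_of_nonneg_right _ h4
    exact_mod_cast Finset.card_le_card Finset.sdiff_subset

theorem cd_load {K : ℕ} {U U1 U2 : Finset V} (χ : V → Fin K)
    (E' F3 : Finset (Sym2 V)) (hF3 : F3 ⊆ cd_Rsv (U \ U1) (U1 \ U2) χ E') (p : V) :
    (F3.filter (fun f => p ∈ f ∧ cd_ctr (U \ U1) f ≠ p)).card ≤
      ((U \ U1).filter (fun u => χ u = χ p)).card := by
  have hdis : Disjoint (U \ U1) (U1 \ U2) := by
    rw [Finset.disjoint_left]
    intro a ha hb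
    exact (Finset.mem_sdiff.1 ha).2 (Finset.mem_sdiff.1 hb).1
  have hsub : F3.filter (fun f => p ∈ f ∧ cd_ctr (U \ U1) f ≠ p) ⊆
      ((U \ U1).filter (fun u => χ u = χ p)).image (fun w => s(w, p)) := by
    intro f hf
    rw [Finset.mem_filter] at hf
    obtain ⟨hf, hp, hc⟩ := hf
    obtain ⟨_, w, hw, u, hu, hk, rfl⟩ := cd_mem_Rsv.1 (hF3 hf)
    rw [cd_ctr_spec hdis hw hu] at hc
    rcases Sym2.mem_iff.1 hp with h | h
    · exact absurd h.symm hc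
    · subst h
      exact Finset.mem_image.2 ⟨w, Finset.mem_filter.2 ⟨hw, hk⟩, rfl⟩
  exact le_trans (Finset.card_le_card hsub) Finset.card_image_le

theorem cd_heven {K : ℕ} {U U1 U2 : Finset V} (χ : V → Fin K)
    (E' D1 D2 : Finset (Sym2 V)) (hE' : EvenDeg E') (h1 : Dec D1) (h2 : Dec D2)
    (hD1 : D1 ⊆ cd_F0 U U1 U2 χ E') (hD2 : D2 ⊆ E') (hdisj : Disjoint D1 D2)
    (hF0 : cd_F0 U U1 U2 χ E' ⊆ D1 ∪ D2) (v : V) :
    Even ((cd_Rsv (U \ U1) (U1 \ U2) χ E' \ D2).filter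
      (fun f => cd_ctr (U \ U1) f = v)).card := by
  have hdis : Disjoint (U \ U1) (U1 \ U2) := by
    rw [Finset.disjoint_left]
    intro a ha hb
    exact (Finset.mem_sdiff.1 ha).2 (Finset.mem_sdiff.1 hb).1
  by_cases hv : v ∈ U \ U1
  · have hD1E : D1 ⊆ E' := fun e he => (cd_mem_F0.1 (hD1 he)).1
    have hev : EvenDeg (E' \ (D1 ∪ D2)) :=
      hE'.sdiff (h1.even.union h2.even hdisj) (Finset.union_subset hD1E hD2)
    have e : (cd_Rsv (U \ U1) (U1 \ U2) χ E' \ D2).filter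
        (fun f => cd_ctr (U \ U1) f = v) = (E' \ (D1 ∪ D2)).filter (fun e => v ∈ e) := by
      ext f
      rw [Finset.mem_filter, Finset.mem_filter, Finset.mem_sdiff, Finset.mem_sdiff,
        Finset.mem_union]
      constructor
      · rintro ⟨⟨hf, hf2⟩, hc⟩
        have hfR := hf
        obtain ⟨hfE, w, hw, u, hu, hk, rfl⟩ := cd_mem_Rsv.1 hf
        rw [cd_ctr_spec hdis hw hu] at hc
        subst hc
        refine ⟨⟨hfE, ?_⟩, Sym2.mem_mk_left _ _⟩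
        rintro (hd | hd)
        · exact (cd_mem_F0.1 (hD1 hd)).2.2 hfR
        · exact hf2 hd
      · rintro ⟨⟨hfE, hne⟩, hvf⟩
        have hnotin : f ∉ U1.sym2 := by
          intro hfin
          rw [Finset.mem_sym2_iff] at hfin
          exact (Finset.mem_sdiff.1 hv).2 (hfin v hvf)
        have hR : f ∈ cd_Rsv (U \ U1) (U1 \ U2) χ E' := by
          by_contra hR
          have := hF0 (cd_mem_F0.2 ⟨hfE, hnotin, hR⟩)
          rw [Finset.mem_union] at this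
          exact hne this
        refine ⟨⟨hR, fun hd => hne (Or.inr hd)⟩, ?_⟩
        obtain ⟨_, w, hw, u, hu, hk, rfl⟩ := cd_mem_Rsv.1 hR
        rw [cd_ctr_spec hdis hw hu]
        rcases Sym2.mem_iff.1 hvf with h | h
        · exact h.symm
        · rw [h] at hv
          exact absurd hu (Finset.disjoint_left.1 hdis hv)
    rw [e]
    exact hev v
  · have e : (cd_Rsv (U \ U1) (U1 \ U2) χ E' \ D2).filter
        (fun f => cd_ctr (U \ U1) f = v) = ∅ := by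
      rw [Finset.filter_eq_empty_iff]
      intro f hf hc
      rw [Finset.mem_sdiff] at hf
      obtain ⟨_, w, hw, u, hu, hk, rfl⟩ := cd_mem_Rsv.1 hf.1
      rw [cd_ctr_spec hdis hw hu] at hc
      exact hv (hc ▸ hw)
    rw [e]
    simp

end aux

theorem cd_num {h L K s F e q Sc : ℝ} (hh : 0 < h) (hL : 3 ≤ L) (hK : 0 < K)
    (hK1 : 1000000 * L / h ^ 2 ≤ K) (hK2 : 1000000 * L / h ≤ K) (hs0 : 0 < s)
    (hs : 1000 ≤ h * s) (hF : F ≤ 4 * L * s ^ 2 / K) (he : e ≤ 4 * L * s / K)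
    (hq : h * s / 400 ≤ q) (hq2 : q ≤ h * s / 400 + 1) (hS : s / 3 ≤ Sc) :
    18 * F / q + 12 * e + 12 * q + 8 < h / 2 * Sc := by
  have hq0 : 0 < q := lt_of_lt_of_le (by positivity) hq
  rw [div_le_iff₀ (by positivity)] at hK1 hK2
  have k1 : L / K ≤ h ^ 2 / 1000000 := by
    rw [div_le_div_iff₀ hK (by norm_num)]
    linarith
  have k2 : L / K ≤ h / 1000000 := by
    rw [div_le_div_iff₀ hK (by norm_num)]
    linarith
  have f1 : F ≤ 4 * (h ^ 2 / 1000000) * s ^ 2 := by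
    refine le_trans hF ?_
    have e1 : 4 * L * s ^ 2 / K = 4 * (L / K) * s ^ 2 := by ring
    rw [e1]
    apply mul_le_mul_of_nonneg_right _ (by positivity)
    linarith
  have f2 : 18 * F / q ≤ 288 / 10000 * (h * s) := by
    rw [div_le_iff₀ hq0]
    have : 288 / 10000 * (h * s) * (h * s / 400) ≤ 288 / 10000 * (h * s) * q :=
      mul_le_mul_of_nonneg_left hq (by positivity)
    nlinarith
  have f3 : e ≤ 4 / 1000000 * (h * s) := by
    refine le_trans he ?_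
    have e1 : 4 * L * s / K = 4 * (L / K) * s := by ring
    rw [e1]
    nlinarith
  nlinarith

theorem cover_down (h : ℝ) (hh : 0 < h) (L : ℕ) (hL : 3 ≤ L) :
    ∃ K : ℕ, 1 ≤ K ∧ ∃ θ : ℝ, 0 < θ ∧ ∃ s0 : ℕ,
      ∀ (V : Type) [Fintype V] [DecidableEq V] (U U1 U2 : Finset V) (E E' : Finset (Sym2 V))
        (R : V → V → Prop) (χ : V → Fin K),
      U1 ⊆ U → U2 ⊆ U1 → s0 ≤ U1.card → (U.card : ℝ) ≤ 2 * L * U1.card →
      (U1.card : ℝ) ≤ 2 * L * U2.card → (L : ℝ) * U2.card ≤ 2 * U1.card →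
      E ⊆ U.sym2 → Loopless E →
      (∀ v x y, s(v, x) ∈ E → s(v, y) ∈ E → R x y) →
      (∀ x ∈ U, ∀ y ∈ U, R x y → ∀ k k' : Fin K,
        h * (U1.card : ℝ) ^ 3 / (K : ℝ) ^ 2 ≤ (P4c E (U1 \ U2) χ k k' x y : ℝ)) →
      (∀ k : Fin K, (((U1 \ U2).filter (fun u => χ u = k)).card : ℝ) ≤ 2 * U1.card / K) →
      (∀ k : Fin K, (((U \ U1).filter (fun u => χ u = k)).card : ℝ) ≤ 2 * U.card / K) →
      E' ⊆ E → (∀ e ∈ E, e ∈ U1.sym2 → e ∈ E') →
      (∀ u ∈ U, (dg (E \ E') U1 u : ℝ) ≤ θ * U1.card) → EvenDeg E' →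
      ∃ D ⊆ E', Dec D ∧ (∀ e ∈ E' \ D, e ∈ U1.sym2) ∧ (∀ e ∈ D, e ∉ U2.sym2) ∧
        (∀ u ∈ U1, (dg D U2 u : ℝ) ≤ θ * U2.card) := by
  have hLR : (3 : ℝ) ≤ L := by exact_mod_cast hL
  -- constants
  obtain ⟨K, hKdef⟩ : ∃ K : ℕ, K = ⌈1000000 * (L : ℝ) / h ^ 2 + 1000000 * (L : ℝ) / h⌉₊ + 1 :=
    ⟨_, rfl⟩
  have hK1 : 1 ≤ K := by omega
  have hKR : (1 : ℝ) ≤ K := by exact_mod_cast hK1
  have hKbig : 1000000 * (L : ℝ) / h ^ 2 + 1000000 * (L : ℝ) / h ≤ K := by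
    have h1 := Nat.le_ceil (1000000 * (L : ℝ) / h ^ 2 + 1000000 * (L : ℝ) / h)
    have h2 : (⌈1000000 * (L : ℝ) / h ^ 2 + 1000000 * (L : ℝ) / h⌉₊ : ℝ) ≤ K := by
      rw [hKdef]; push_cast; linarith
    linarith
  have hKa : 1000000 * (L : ℝ) / h ^ 2 ≤ K := by
    have : 0 ≤ 1000000 * (L : ℝ) / h := by positivity
    linarith
  have hKb : 1000000 * (L : ℝ) / h ≤ K := by
    have : 0 ≤ 1000000 * (L : ℝ) / h ^ 2 := by positivity
    linarith
  obtain ⟨θ, hθdef⟩ : ∃ θ : ℝ, θ = h / (4 * (K : ℝ) ^ 2) := ⟨_, rfl⟩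
  have hθ : 0 < θ := by rw [hθdef]; positivity
  obtain ⟨ρ, hρdef⟩ : ∃ ρ : ℝ, ρ = min (θ / (4 * (L : ℝ) ^ 2)) (h / (100 * L)) := ⟨_, rfl⟩
  have hρ : 0 < ρ := by rw [hρdef]; positivity
  have hρ1 : ρ ≤ θ / (4 * (L : ℝ) ^ 2) := by rw [hρdef]; exact min_le_left _ _
  have hρ2 : ρ ≤ h / (100 * L) := by rw [hρdef]; exact min_le_right _ _
  obtain ⟨γ, hγ, N1, hcov⟩ := cover_sparse (h / (2 * (K : ℝ) ^ 2)) (1 / (6 * L)) ρ
    (by positivity) (by positivity) hρ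
  obtain ⟨N2, hkst⟩ := sparse_leftover γ hγ
  refine ⟨K, hK1, θ, hθ, max (max N1 N2) (⌈1000 / h⌉₊ + 1), ?_⟩
  intro V _ _ U U1 U2 E E' R χ hU1 hU21 hs0 hUs hs2 hL2 hEU hE hR hP4 hcol1 hcol2 hE'E hin hmiss hE'
  set s : ℝ := (U1.card : ℝ) with hs
  have hsN : N1 ≤ U1.card ∧ N2 ≤ U1.card ∧ ⌈1000 / h⌉₊ + 1 ≤ U1.card :=
    ⟨le_trans (le_trans (le_max_left _ _) (le_max_left _ _)) hs0,
      le_trans (le_trans (le_max_right _ _) (le_max_left _ _)) hs0, le_trans (le_max_right _ _) hs0⟩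
  have hs1 : 1 ≤ s := by
    have : 1 ≤ U1.card := by omega
    rw [hs]; exact_mod_cast this
  have hs0' : 0 < s := by linarith
  have hhs : 1000 ≤ h * s := by
    have h1 := Nat.le_ceil (1000 / h)
    have h2 : ((⌈1000 / h⌉₊ + 1 : ℕ) : ℝ) ≤ s := by rw [hs]; exact_mod_cast hsN.2.2
    push_cast at h2
    have h3 : 1000 / h ≤ s := by linarith
    rw [div_le_iff₀ hh] at h3
    linarith
  have hUU : U1.card ≤ U.card := Finset.card_le_card hU1
  have hcardS : ((U1 \ U2).card : ℝ) = s - U2.card := by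
    rw [Finset.card_sdiff_of_subset hU21, Nat.cast_sub (Finset.card_le_card hU21)]
  have hS3 : s / 3 ≤ ((U1 \ U2).card : ℝ) := by
    rw [hcardS]
    have h0 : (0 : ℝ) ≤ U2.card := Nat.cast_nonneg _
    nlinarith
  have hSle : ((U1 \ U2).card : ℝ) ≤ s := by
    rw [hs]; exact_mod_cast Finset.card_le_card Finset.sdiff_subset
  have hSU : U1 \ U2 ⊆ U := (Finset.sdiff_subset).trans hU1
  have hS0 : (0 : ℝ) ≤ ((U1 \ U2).card : ℝ) := Nat.cast_nonneg _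
  -- step 1
  obtain ⟨D1, hD1F, hD1, hD1c⟩ := hkst V U (cd_F0 U U1 U2 χ E') (le_trans hsN.2.1 hUU)
    (fun e he => hEU (hE'E (cd_mem_F0.1 he).1)) (hE.mono (fun e he => hE'E (cd_mem_F0.1 he).1))
  -- step 2
  have hH0E : cd_H0 U U1 U2 χ E' ⊆ E' := by
    intro e he
    rcases cd_mem_H0.1 he with h | h
    · exact h.1
    · exact (cd_mem_Rsv.1 h).1
  have hF0E : cd_F0 U U1 U2 χ E' ⊆ E' := fun e he => (cd_mem_F0.1 he).1
  have hF0H0 : Disjoint (cd_F0 U U1 U2 χ E') (cd_H0 U U1 U2 χ E') := by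
    rw [Finset.disjoint_left]
    intro e he he'
    have h1 := cd_mem_F0.1 he
    rcases cd_mem_H0.1 he' with h | h
    · exact h1.2.1 h.2.1
    · exact h1.2.2 h
  have hσ : 1 / (6 * (L : ℝ)) * (U.card : ℝ) ≤ ((U1 \ U2).card : ℝ) := by
    have h1 : 1 / (6 * (L : ℝ)) * (U.card : ℝ) ≤ 1 / (6 * (L : ℝ)) * (2 * L * s) :=
      mul_le_mul_of_nonneg_left hUs (by positivity)
    have h2 : 1 / (6 * (L : ℝ)) * (2 * L * s) = s / 3 := by field_simp; ring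
    linarith
  obtain ⟨D2, hD2, hFD2, hD2sub, hD2deg⟩ := hcov V U (U1 \ U2) (cd_H0 U U1 U2 χ E')
    (cd_F0 U U1 U2 χ E' \ D1) (le_trans hsN.1 hUU) hSU hσ (hH0E.trans (hE'E.trans hEU))
    ((Finset.sdiff_subset.trans hF0E).trans (hE'E.trans hEU)) (hE.mono (hH0E.trans hE'E))
    (hE.mono ((Finset.sdiff_subset.trans hF0E).trans hE'E))
    (Finset.disjoint_of_subset_left Finset.sdiff_subset hF0H0) hD1c (by
      intro v u w huv hvw
      have key : ∀ x, s(v, x) ∈ (cd_F0 U U1 U2 χ E' \ D1) ∪ cd_H0 U U1 U2 χ E' →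
          s(v, x) ∈ E := by
        intro x hx
        rw [Finset.mem_union, Finset.mem_sdiff] at hx
        rcases hx with hx | hx
        · exact hE'E (hF0E hx.1)
        · exact hE'E (hH0E hx)
      have hu := key u huv
      have hw := key w hvw
      have huU : u ∈ U := (Finset.mk_mem_sym2_iff.1 (hEU hu)).2
      have hwU : w ∈ U := (Finset.mk_mem_sym2_iff.1 (hEU hw)).2
      have h1 := hP4 u huU w hwU (hR v u w hu hw) (χ u) (χ w)
      have h2 : (P4c E (U1 \ U2) χ (χ u) (χ w) u w : ℝ) ≤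
          (P4 (cd_H0 U U1 U2 χ E') (U1 \ U2) u w : ℝ) +
          ((dg (E \ E') (U1 \ U2) u : ℝ) + (dg (E \ E') (U1 \ U2) w : ℝ)) *
            ((U1 \ U2).card : ℝ) ^ 2 := by
        exact_mod_cast cd_H0_rich hU21 χ hin huU hwU
      have h3 : ∀ x ∈ U, (dg (E \ E') (U1 \ U2) x : ℝ) ≤ θ * s := by
        intro x hx
        refine le_trans ?_ (hmiss x hx)
        exact_mod_cast dg_mono_right _ Finset.sdiff_subset x
      have h4 : ((dg (E \ E') (U1 \ U2) u : ℝ) + (dg (E \ E') (U1 \ U2) w : ℝ)) *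
            ((U1 \ U2).card : ℝ) ^ 2 ≤ (2 * (θ * s)) * s ^ 2 := by
        apply mul_le_mul _ (pow_le_pow_left₀ hS0 hSle 2) (by positivity) (by positivity)
        have := h3 u huU
        have := h3 w hwU
        linarith
      have h5 : h * s ^ 3 / (K : ℝ) ^ 2 - (2 * (θ * s)) * s ^ 2 =
          h / (2 * (K : ℝ) ^ 2) * s ^ 3 := by
        rw [hθdef]
        field_simp
        ring
      have h6 : h / (2 * (K : ℝ) ^ 2) * ((U1 \ U2).card : ℝ) ^ 3 ≤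
          h / (2 * (K : ℝ) ^ 2) * s ^ 3 :=
        mul_le_mul_of_nonneg_left (pow_le_pow_left₀ hS0 hSle 3) (by positivity)
      linarith)
  -- consequences
  have hD1E : D1 ⊆ E' := hD1F.trans hF0E
  have hD2E : D2 ⊆ E' := by
    refine hD2sub.trans (Finset.union_subset (Finset.sdiff_subset.trans hF0E) hH0E)
  have hD12 : Disjoint D1 D2 := by
    rw [Finset.disjoint_left]
    intro e he he'
    have h1 := hD2sub he'
    rw [Finset.mem_union, Finset.mem_sdiff] at h1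
    rcases h1 with h1 | h1
    · exact h1.2 he
    · exact Finset.disjoint_left.1 hF0H0 (hD1F he) h1
  have hF0D : cd_F0 U U1 U2 χ E' ⊆ D1 ∪ D2 := by
    intro e he
    rw [Finset.mem_union]
    by_cases h1 : e ∈ D1
    · exact Or.inl h1
    · exact Or.inr (hFD2 (Finset.mem_sdiff.2 ⟨he, h1⟩))
  -- step 3
  obtain ⟨F3, hF3def⟩ : ∃ F3, F3 = cd_Rsv (U \ U1) (U1 \ U2) χ E' \ D2 := ⟨_, rfl⟩
  have hF3R : F3 ⊆ cd_Rsv (U \ U1) (U1 \ U2) χ E' := by rw [hF3def]; exact Finset.sdiff_subset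
  have hF3E : F3 ⊆ E' := fun e he => (cd_mem_Rsv.1 (hF3R he)).1
  have hdis : Disjoint (U \ U1) (U1 \ U2) := by
    rw [Finset.disjoint_left]
    intro a ha hb
    exact (Finset.mem_sdiff.1 ha).2 (Finset.mem_sdiff.1 hb).1
  have hH3E : cd_H3 (U1 \ U2) E' D2 ⊆ E' := fun e he => (cd_mem_H3.1 he).1
  have hF3H3 : Disjoint F3 (cd_H3 (U1 \ U2) E' D2) := by
    rw [Finset.disjoint_left]
    intro e he he'
    exact cd_Rsv_notIn (hF3R he) (cd_sym2_mono Finset.sdiff_subset (cd_mem_H3.1 he').2.2)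
  have hd : ∀ p, deg (D2 ∩ cd_H0 U U1 U2 χ E') p ≤ ⌊ρ * (U.card : ℝ)⌋₊ := by
    intro p
    exact Nat.le_floor (hD2deg p)
  have hqpos : 0 < h * s / 400 := by positivity
  obtain ⟨D3, hD3, hF3D3, hD3sub, _⟩ := cherry_cover (U1 \ U2) (cd_H3 (U1 \ U2) E' D2) F3
    (cd_ctr (U \ U1)) (h / 2) ⌊2 * (U.card : ℝ) / K⌋₊ ⌈h * s / 400⌉₊ (Nat.ceil_pos.2 hqpos)
    (hE.mono (hH3E.trans hE'E)) (hE.mono (hF3E.trans hE'E)) hF3H3 (by
      intro f hf
      obtain ⟨_, w, hw, u, hu, _, rfl⟩ := cd_mem_Rsv.1 (hF3R hf)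
      rw [cd_ctr_spec hdis hw hu]
      exact Sym2.mem_mk_left _ _) (by
      intro v
      rw [hF3def]
      exact cd_heven χ E' D1 D2 hE' hD1 hD2 hD1F hD2E hD12 hF0D v) (by
      intro v u w _ huv hvw hcu hcw
      have key : ∀ x, s(v, x) ∈ F3 → cd_ctr (U \ U1) s(v, x) = v → x ∈ U1 \ U2 := by
        intro x hx hc
        obtain ⟨_, w', hw', u', hu', _, he⟩ := cd_mem_Rsv.1 (hF3R hx)
        rw [he, cd_ctr_spec hdis hw' hu'] at hc
        subst hc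
        rw [Sym2.congr_right] at he
        rw [he]
        exact hu'
      have huv' : s(v, u) ∈ F3 := by rw [Sym2.eq_swap]; exact huv
      have hu := key u huv' (by rw [Sym2.eq_swap]; exact hcu)
      have hw := key w hvw hcw
      have hRuw : R u w := hR v u w (hE'E (hF3E huv')) (hE'E (hF3E hvw))
      have h1 : h * s ^ 3 ≤ (P4 E (U1 \ U2) u w : ℝ) :=
        cd_P4_ge hK1 χ E _ u w _ (fun k k' => hP4 u (hSU hu) w (hSU hw) hRuw k k')
      have h2 : (P4 E (U1 \ U2) u w : ℝ) ≤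
          (P4 (cd_H3 (U1 \ U2) E' D2) (U1 \ U2) u w : ℝ) +
            4 * (⌊ρ * (U.card : ℝ)⌋₊ : ℝ) * ((U1 \ U2).card : ℝ) ^ 2 := by
        exact_mod_cast cd_H3_rich (U := U) χ hin hd hu hw
      have h3 : (⌊ρ * (U.card : ℝ)⌋₊ : ℝ) ≤ ρ * U.card := Nat.floor_le (by positivity)
      have h4 : ρ * U.card ≤ h / (100 * L) * (2 * L * s) :=
        mul_le_mul hρ2 hUs (Nat.cast_nonneg _) (by positivity)
      have h5 : h / (100 * (L : ℝ)) * (2 * L * s) = h * s / 50 := by field_simp; ring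
      have h6 : 4 * (⌊ρ * (U.card : ℝ)⌋₊ : ℝ) * ((U1 \ U2).card : ℝ) ^ 2 ≤
          4 * (h * s / 50) * s ^ 2 := by
        apply mul_le_mul _ (pow_le_pow_left₀ hS0 hSle 2) (by positivity) (by positivity)
        linarith
      have h7 : h / 2 * ((U1 \ U2).card : ℝ) ^ 3 ≤ h / 2 * s ^ 3 :=
        mul_le_mul_of_nonneg_left (pow_le_pow_left₀ hS0 hSle 3) (by positivity)
      have h8 : (0 : ℝ) < h * s ^ 3 := by positivity
      nlinarith) (by
      intro p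
      refine le_trans (cd_load χ E' F3 hF3R p) ?_
      exact Nat.le_floor (hcol2 (χ p))) (by
      have hF3c : (F3.card : ℝ) ≤ 4 * L * s ^ 2 / K := by
        have h1 : (F3.card : ℝ) ≤ ((cd_Rsv (U \ U1) (U1 \ U2) χ E').card : ℝ) := by
          exact_mod_cast Finset.card_le_card hF3R
        have h2 := cd_card_Rsv (U := U) χ E' hcol1
        have h3 : (U.card : ℝ) * (2 * s / K) ≤ (2 * L * s) * (2 * s / K) :=
          mul_le_mul_of_nonneg_right hUs (by positivity)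
        have h4 : (2 * L * s) * (2 * s / K) = 4 * L * s ^ 2 / K := by ring
        linarith
      have he : ((⌊2 * (U.card : ℝ) / K⌋₊ : ℕ) : ℝ) ≤ 4 * L * s / K := by
        have h1 : ((⌊2 * (U.card : ℝ) / K⌋₊ : ℕ) : ℝ) ≤ 2 * (U.card : ℝ) / K :=
          Nat.floor_le (by positivity)
        have h2 : 2 * (U.card : ℝ) / K ≤ 4 * L * s / K := by
          apply div_le_div_of_nonneg_right _ (by positivity)
          linarith
        linarith
      exact cd_num hh hLR (by positivity) hKa hKb hs0' hhs hF3c he (Nat.le_ceil _)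
        (Nat.ceil_lt_add_one hqpos.le).le hS3)
  have hD3E : D3 ⊆ E' := hD3sub.trans (Finset.union_subset hF3E hH3E)
  have hD13 : Disjoint D1 D3 := by
    rw [Finset.disjoint_left]
    intro e he he'
    have h1 := cd_mem_F0.1 (hD1F he)
    have h2 := hD3sub he'
    rw [Finset.mem_union] at h2
    rcases h2 with h2 | h2
    · exact h1.2.2 (hF3R h2)
    · exact h1.2.1 (cd_sym2_mono Finset.sdiff_subset (cd_mem_H3.1 h2).2.2)
  have hD23 : Disjoint D2 D3 := by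
    rw [Finset.disjoint_left]
    intro e he he'
    have h2 := hD3sub he'
    rw [Finset.mem_union] at h2
    rcases h2 with h2 | h2
    · rw [hF3def, Finset.mem_sdiff] at h2
      exact h2.2 he
    · exact (cd_mem_H3.1 h2).2.1 he
  refine ⟨(D1 ∪ D2) ∪ D3, Finset.union_subset (Finset.union_subset hD1E hD2E) hD3E,
    (hD1.union hD2 hD12).union hD3 (Finset.disjoint_union_left.2 ⟨hD13, hD23⟩), ?_, ?_, ?_⟩
  · intro e he
    rw [Finset.mem_sdiff, Finset.mem_union] at he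
    obtain ⟨heE, hne⟩ := he
    by_contra hcon
    by_cases hR' : e ∈ cd_Rsv (U \ U1) (U1 \ U2) χ E'
    · by_cases h2 : e ∈ D2
      · exact hne (Or.inl (Finset.mem_union_right _ h2))
      · apply hne
        right
        apply hF3D3
        rw [hF3def, Finset.mem_sdiff]
        exact ⟨hR', h2⟩
    · exact hne (Or.inl (hF0D (cd_mem_F0.2 ⟨heE, hcon, hR'⟩)))
  · intro e he h2
    have h1 : e ∈ U1.sym2 := cd_sym2_mono hU21 h2
    rw [Finset.mem_union, Finset.mem_union] at he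
    rcases he with (he | he) | he
    · exact (cd_mem_F0.1 (hD1F he)).2.1 h1
    · have h3 := hD2sub he
      rw [Finset.mem_union, Finset.mem_sdiff] at h3
      rcases h3 with h3 | h3
      · exact (cd_mem_F0.1 h3.1).2.1 h1
      · rcases cd_mem_H0.1 h3 with h4 | h4
        · exact h4.2.2 h2
        · exact cd_Rsv_notIn h4 h1
    · have h3 := hD3sub he
      rw [Finset.mem_union] at h3
      rcases h3 with h3 | h3
      · exact cd_Rsv_notIn (hF3R h3) h1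
      · have h4 := (cd_mem_H3.1 h3).2.2
        induction e using Sym2.ind with
        | _ p q =>
          rw [Finset.mk_mem_sym2_iff] at h4 h2
          exact (Finset.mem_sdiff.1 h4.1).2 h2.1
  · intro u hu
    have h1 : dg (D1 ∪ D2 ∪ D3) U2 u ≤ dg (D2 ∩ cd_H0 U U1 U2 χ E') U2 u := by
      unfold dg
      apply Finset.card_le_card
      intro y hy
      rw [Finset.mem_filter] at hy ⊢
      obtain ⟨hyU, hy⟩ := hy
      refine ⟨hyU, ?_⟩
      have hin1 : s(u, y) ∈ U1.sym2 := Finset.mk_mem_sym2_iff.2 ⟨hu, hU21 hyU⟩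
      rw [Finset.mem_union, Finset.mem_union] at hy
      rcases hy with (hy | hy) | hy
      · exact absurd hin1 (cd_mem_F0.1 (hD1F hy)).2.1
      · rw [Finset.mem_inter]
        refine ⟨hy, ?_⟩
        have h3 := hD2sub hy
        rw [Finset.mem_union, Finset.mem_sdiff] at h3
        rcases h3 with h3 | h3
        · exact absurd hin1 (cd_mem_F0.1 h3.1).2.1
        · exact h3
      · have h3 := hD3sub hy
        rw [Finset.mem_union] at h3
        rcases h3 with h3 | h3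
        · exact absurd hin1 (cd_Rsv_notIn (hF3R h3))
        · have h4 := (cd_mem_H3.1 h3).2.2
          rw [Finset.mk_mem_sym2_iff] at h4
          exact absurd hyU (Finset.mem_sdiff.1 h4.2).2
    have h2 : (dg (D1 ∪ D2 ∪ D3) U2 u : ℝ) ≤ ρ * U.card := by
      refine le_trans ?_ (hD2deg u)
      exact_mod_cast le_trans h1 (dg_le_deg _ _ _)
    have h3 : ρ * U.card ≤ θ / (4 * (L : ℝ) ^ 2) * (4 * (L : ℝ) ^ 2 * U2.card) := by
      apply mul_le_mul hρ1 _ (Nat.cast_nonneg _) (by positivity)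
      calc (U.card : ℝ) ≤ 2 * L * s := hUs
        _ ≤ 2 * L * (2 * L * U2.card) := mul_le_mul_of_nonneg_left hs2 (by positivity)
        _ = 4 * (L : ℝ) ^ 2 * U2.card := by ring
    have h4 : θ / (4 * (L : ℝ) ^ 2) * (4 * (L : ℝ) ^ 2 * U2.card) = θ * U2.card := by
      field_simp
    linarith

end H15C6
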