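import Mathlib

/-!
Module CLS.  Finite classification of weighted patterns with at most four classes.

`I` = set of (large) classes, `c i ≥ 100 s` their weights with total in `[1-4s, 1]`, `P` a symmetric
relation such that every row `r i = {j ∈ I : P i j}` has weight `1/2 ± 5s`.

Write `wt A = ∑_{j ∈ A} c j`.  For subsets `A, B ⊆ I`: `|wt A - wt B| ≤ 20 s` and `A ⊆ B` imply `A = B`.
(a) `r i ⊆ r j → r i = r j`; (b) `r i ∩ r j = ∅ → r i ∪ r j = I`; (c) `r i ∪ r j = I → r i ∩ r j = ∅`;
(d) `r i ≠ ∅`, `r i ≠ I`.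
(e) If some row is a singleton `{a}`: every row is `{a}` (if it contains `a`, by (a)) or `I \ {a}`
  (by (b)).  Row `a` is `{a}` or `I \ {a}`.  By symmetry `P j b ↔ ¬ P j a` for all `b ≠ a`, and `P j a ↔ P a j`.
  If `r a = {a}`: `P j a ↔ j = a`, so `r j = I \ {a}` for `j ≠ a`: two cliques (`f j = 0` iff `j = a`).
  If `r a = I \ {a}`: `r j = {a}` for `j ≠ a`: bipartite.
(f) If some row has `|I| - 1` elements, `r i = I \ {a}`: rows containing `a` are `{a}` by (c), all others are
  contained in `I \ {a}`, hence equal to it.  If no row is `{a}` then all rows are `I \ {a}`, but then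
  `P a j` is false.. for `j ≠ a` row `j` does not contain `a`, so by symmetry row `a` contains no `j ≠ a`,
  and it does not contain `a`: empty, contradiction with (d).  So (e) applies.
(g) Otherwise `|I| = 4` and all rows have exactly two elements.  If `P i i` for no `i`: the graph is a
  4-cycle: bipartite.  If `P a a`, row `a = {a,b}`; row `b` is `{a,b}` (then the other two classes form a clique:
  two cliques) or `{a,c}` with `c ≠ a,b`; then row `c` contains `b`, not `a`; `r c = {b,c}` would leave row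
  `d ⊆ {d}`; so `r c = {b,d}` and `r d = {c,d}`: the path `a b c d` with loops at the ends.
  (This finite step can also be done by `decide` on Boolean matrices.)
-/

open Finset

namespace H15C6

/-- the three extremal patterns: `0` two cliques, `1` bipartite, `2` path with loops at both ends -/
def Pat (k : Fin 3) (a b : Fin 4) : Prop :=
  (k = 0 ∧ a = b) ∨ (k = 1 ∧ a ≠ b) ∨
  (k = 2 ∧ ((a = 0 ∧ b = 0) ∨ (a = 3 ∧ b = 3) ∨ (a = 0 ∧ b = 1) ∨ (a = 1 ∧ b = 0) ∨
    (a = 1 ∧ b = 2) ∨ (a = 2 ∧ b = 1) ∨ (a = 2 ∧ b = 3) ∨ (a = 3 ∧ b = 2)))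

/-! ### the finite check for four classes and rows of size two -/

def clsM (a00 a01 a02 a03 a11 a12 a13 a22 a23 a33 : Bool) : Fin 4 → Fin 4 → Bool :=
  ![![a00, a01, a02, a03], ![a01, a11, a12, a13], ![a02, a12, a22, a23], ![a03, a13, a23, a33]]

def clsPat (k : Fin 3) (a b : Fin 4) : Bool :=
  (decide (k = 0) && decide (a = b)) || (decide (k = 1) && decide (a ≠ b)) ||
  (decide (k = 2) && ((decide (a = 0) && decide (b = 0)) || (decide (a = 3) && decide (b = 3)) ||
    (decide (a = 0) && decide (b = 1)) || (decide (a = 1) && decide (b = 0)) ||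
    (decide (a = 1) && decide (b = 2)) || (decide (a = 2) && decide (b = 1)) ||
    (decide (a = 2) && decide (b = 3)) || (decide (a = 3) && decide (b = 2))))

theorem clsPat_iff : ∀ (k : Fin 3) (a b : Fin 4), clsPat k a b = true ↔ Pat k a b := by
  intro k a b
  unfold clsPat Pat
  simp only [Bool.or_eq_true, Bool.and_eq_true, decide_eq_true_eq, or_assoc]

def clsCnt (a b c d : Bool) : Bool :=
  (a && b && !c && !d) || (a && !b && c && !d) || (a && !b && !c && d) ||
  (!a && b && c && !d) || (!a && b && !c && d) || (!a && !b && c && d)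

def clsAll (p : Fin 4 → Bool) : Bool := p 0 && p 1 && p 2 && p 3

theorem clsAll_spec {p : Fin 4 → Bool} (h : clsAll p = true) : ∀ i, p i = true := by
  unfold clsAll at h
  simp only [Bool.and_eq_true] at h
  intro i
  fin_cases i
  · exact h.1.1.1
  · exact h.1.1.2
  · exact h.1.2
  · exact h.2

def clsF (t : Fin 3 × Fin 4 × Fin 4 × Fin 4 × Fin 4) : Fin 4 → Fin 4 :=
  ![t.2.1, t.2.2.1, t.2.2.2.1, t.2.2.2.2]

def clsL : List (Fin 3 × Fin 4 × Fin 4 × Fin 4 × Fin 4) :=
  [(0,0,0,1,1),(0,0,1,0,1),(0,0,1,1,0),(1,0,0,1,1),(1,0,1,0,1),(1,0,1,1,0)] ++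
  (([0,1,2,3].product ([0,1,2,3].product ([0,1,2,3].product [0,1,2,3]))).map
    (fun t => ((2 : Fin 3), t.1, t.2.1, t.2.2.1, t.2.2.2))).filter
    (fun t => t.2.1 ≠ t.2.2.1 ∧ t.2.1 ≠ t.2.2.2.1 ∧ t.2.1 ≠ t.2.2.2.2 ∧ t.2.2.1 ≠ t.2.2.2.1 ∧
      t.2.2.1 ≠ t.2.2.2.2 ∧ t.2.2.2.1 ≠ t.2.2.2.2)

theorem clsL_spec : ∀ t ∈ clsL,
    (t.1 ≠ 2 → (∀ i, clsF t i = 0 ∨ clsF t i = 1) ∧ (∃ i, clsF t i = 0) ∧ (∃ i, clsF t i = 1)) ∧
      (t.1 = 2 → ∀ i j, clsF t i = clsF t j → i = j) := by
  decide +kernel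

theorem cls_fin : ∀ a00 a01 a02 a03 a11 a12 a13 a22 a23 a33 : Bool,
    clsCnt a00 a01 a02 a03 = true → clsCnt a01 a11 a12 a13 = true →
    clsCnt a02 a12 a22 a23 = true → clsCnt a03 a13 a23 a33 = true →
    clsL.any (fun t => clsAll (fun i => clsAll (fun j =>
      clsM a00 a01 a02 a03 a11 a12 a13 a22 a23 a33 i j == clsPat t.1 (clsF t i) (clsF t j)))) =
        true := by
  decide +kernel

theorem cls_card_filter (q : Fin 4 → Prop) [DecidablePred q]
    (h : (Finset.univ.filter q).card = 2) :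
    clsCnt (decide (q 0)) (decide (q 1)) (decide (q 2)) (decide (q 3)) = true := by
  rw [Finset.card_filter, Fin.sum_univ_four] at h
  by_cases h0 : q 0 <;> by_cases h1 : q 1 <;> by_cases h2 : q 2 <;> by_cases h3 : q 3 <;>
    simp [h0, h1, h2, h3, clsCnt] at h ⊢

theorem cls_four (P : Fin 4 → Fin 4 → Prop) [DecidableRel P] (hsym : ∀ i j, P i j → P j i)
    (hcard : ∀ i, (Finset.univ.filter (fun j => P i j)).card = 2) :
    ∃ (k : Fin 3) (f : Fin 4 → Fin 4), (∀ i j, P i j ↔ Pat k (f i) (f j)) ∧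
      (k ≠ 2 → (∀ i, f i = 0 ∨ f i = 1) ∧ (∃ i, f i = 0) ∧ (∃ i, f i = 1)) ∧
      (k = 2 → Function.Bijective f) := by
  have hs : ∀ i j, decide (P i j) = decide (P j i) := by
    intro i j
    exact decide_eq_decide.2 ⟨hsym i j, hsym j i⟩
  have h0 := cls_card_filter _ (hcard 0)
  have h1 := cls_card_filter _ (hcard 1)
  have h2 := cls_card_filter _ (hcard 2)
  have h3 := cls_card_filter _ (hcard 3)
  rw [hs 1 0] at h1
  rw [hs 2 0, hs 2 1] at h2
  rw [hs 3 0, hs 3 1, hs 3 2] at h3
  have h := cls_fin _ _ _ _ _ _ _ _ _ _ h0 h1 h2 h3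
  rw [List.any_eq_true] at h
  obtain ⟨t, ht, h⟩ := h
  have h4 : ∀ i j, clsM (decide (P 0 0)) (decide (P 0 1)) (decide (P 0 2)) (decide (P 0 3))
      (decide (P 1 1)) (decide (P 1 2)) (decide (P 1 3)) (decide (P 2 2)) (decide (P 2 3))
      (decide (P 3 3)) i j = clsPat t.1 (clsF t i) (clsF t j) := by
    intro i j
    exact beq_iff_eq.1 (clsAll_spec (clsAll_spec h i) j)
  have h5 : ∀ i j, clsM (decide (P 0 0)) (decide (P 0 1)) (decide (P 0 2)) (decide (P 0 3))
      (decide (P 1 1)) (decide (P 1 2)) (decide (P 1 3)) (decide (P 2 2)) (decide (P 2 3))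
      (decide (P 3 3)) i j = decide (P i j) := by
    intro i j
    fin_cases i <;> fin_cases j <;> simp only [clsM] <;> first | rfl | exact hs _ _
  obtain ⟨hs1, hs2⟩ := clsL_spec t ht
  refine ⟨t.1, clsF t, ?_, hs1, ?_⟩
  · intro i j
    rw [← clsPat_iff, ← h4, h5, decide_eq_true_eq]
  · intro hk
    exact Finite.injective_iff_bijective.1 (fun i j hij => hs2 hk i j hij)

/-! ### rows with one element -/

theorem cls_single (I : Finset (Fin 4)) (P : Fin 4 → Fin 4 → Prop) [DecidableRel P]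
    (hsym : ∀ i ∈ I, ∀ j ∈ I, P i j → P j i)
    (ha : ∀ i ∈ I, ∀ j ∈ I, I.filter (fun x => P i x) ⊆ I.filter (fun x => P j x) →
      I.filter (fun x => P i x) = I.filter (fun x => P j x))
    (hb : ∀ i ∈ I, ∀ j ∈ I, I.filter (fun x => P i x) ∩ I.filter (fun x => P j x) = ∅ →
      I.filter (fun x => P i x) ∪ I.filter (fun x => P j x) = I)
    (hd : ∀ i ∈ I, I.filter (fun x => P i x) ≠ ∅)
    (hd' : ∀ i ∈ I, I.filter (fun x => P i x) ≠ I)
    (i0 : Fin 4) (hi0 : i0 ∈ I) (a : Fin 4) (hr : I.filter (fun x => P i0 x) = {a}) :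
    ∃ (k : Fin 3) (f : Fin 4 → Fin 4), (∀ i ∈ I, ∀ j ∈ I, P i j ↔ Pat k (f i) (f j)) ∧
      (k ≠ 2 → (∀ i ∈ I, f i = 0 ∨ f i = 1) ∧ (∃ i ∈ I, f i = 0) ∧ (∃ i ∈ I, f i = 1)) ∧
      (k = 2 → I = Finset.univ ∧ Function.Bijective f) := by
  have haI : a ∈ I := by
    have : a ∈ I.filter (fun x => P i0 x) := by rw [hr]; exact Finset.mem_singleton_self a
    exact (Finset.mem_filter.1 this).1
  have hne : ∃ b ∈ I, b ≠ a := by
    by_contra hcon
    push Not at hcon
    apply hd' i0 hi0
    rw [hr]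
    ext x
    rw [Finset.mem_singleton]
    exact ⟨fun h => h ▸ haI, fun h => hcon x h⟩
  -- rows containing `a`
  have h1 : ∀ j ∈ I, P j a → ∀ x ∈ I, P j x ↔ x = a := by
    intro j hj hja x hx
    have h2 := ha i0 hi0 j hj (by
      rw [hr, Finset.singleton_subset_iff, Finset.mem_filter]
      exact ⟨haI, hja⟩)
    rw [hr] at h2
    have h3 : x ∈ ({a} : Finset (Fin 4)) ↔ x ∈ I.filter (fun x => P j x) := by rw [h2]
    rw [Finset.mem_singleton, Finset.mem_filter] at h3
    exact ⟨fun h => h3.2 ⟨hx, h⟩, fun h => (h3.1 h).2⟩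
  have h2 : ∀ j ∈ I, ¬ P j a → ∀ x ∈ I, P j x ↔ x ≠ a := by
    intro j hj hja x hx
    have h3 := hb i0 hi0 j hj (by
      rw [hr, Finset.eq_empty_iff_forall_notMem]
      intro y hy
      rw [Finset.mem_inter, Finset.mem_singleton, Finset.mem_filter] at hy
      exact hja (hy.1 ▸ hy.2.2))
    rw [hr] at h3
    have h4 : x ∈ {a} ∪ I.filter (fun x => P j x) ↔ x ∈ I := by rw [h3]
    rw [Finset.mem_union, Finset.mem_singleton, Finset.mem_filter] at h4
    constructor
    · intro h hxa
      exact hja (hxa ▸ h)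
    · intro h
      exact ((h4.2 hx).resolve_left h).2
  have h3 : ∀ j ∈ I, P j a ↔ P a j := fun j hj => ⟨hsym j hj a haI, hsym a haI j hj⟩
  obtain ⟨b, hb1, hb2⟩ := hne
  by_cases hPa : P a a
  · refine ⟨0, fun i => if i = a then 0 else 1, ?_, ?_, fun h => absurd h (by decide)⟩
    · intro i hi j hj
      have h4 : P i a ↔ i = a := by rw [h3 i hi]; exact h1 a haI hPa i hi
      unfold Pat
      by_cases hia : i = a
      · subst hia
        rw [h1 i hi hPa j hj]
        by_cases hji : j = i <;> simp [hji]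
      · have h5 : ¬ P i a := fun h => hia (h4.1 h)
        rw [h2 i hi h5 j hj]
        by_cases hja : j = a <;> simp [hja, hia]
    · intro _
      refine ⟨?_, ⟨a, haI, by simp⟩, ⟨b, hb1, by simp [hb2]⟩⟩
      intro i _
      by_cases hia : i = a <;> simp [hia]
  · refine ⟨1, fun i => if i = a then 0 else 1, ?_, ?_, fun h => absurd h (by decide)⟩
    · intro i hi j hj
      have h4 : P i a ↔ i ≠ a := by rw [h3 i hi]; exact h2 a haI hPa i hi
      unfold Pat
      by_cases hia : i = a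
      · subst hia
        rw [h2 i hi hPa j hj]
        by_cases hji : j = i
        · simp [hji]
        · simp [hji]
      · have h5 : P i a := h4.2 hia
        rw [h1 i hi h5 j hj]
        by_cases hja : j = a
        · simp [hja, hia]
        · simp [hja, hia]
    · intro _
      refine ⟨?_, ⟨a, haI, by simp⟩, ⟨b, hb1, by simp [hb2]⟩⟩
      intro i _
      by_cases hia : i = a <;> simp [hia]

theorem cls_comb (I : Finset (Fin 4)) (P : Fin 4 → Fin 4 → Prop) [DecidableRel P]
    (hI : I.Nonempty) (hsym : ∀ i ∈ I, ∀ j ∈ I, P i j → P j i)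
    (ha : ∀ i ∈ I, ∀ j ∈ I, I.filter (fun x => P i x) ⊆ I.filter (fun x => P j x) →
      I.filter (fun x => P i x) = I.filter (fun x => P j x))
    (hb : ∀ i ∈ I, ∀ j ∈ I, I.filter (fun x => P i x) ∩ I.filter (fun x => P j x) = ∅ →
      I.filter (fun x => P i x) ∪ I.filter (fun x => P j x) = I)
    (hc : ∀ i ∈ I, ∀ j ∈ I, I.filter (fun x => P i x) ∪ I.filter (fun x => P j x) = I →
      I.filter (fun x => P i x) ∩ I.filter (fun x => P j x) = ∅)
    (hd : ∀ i ∈ I, I.filter (fun x => P i x) ≠ ∅)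
    (hd' : ∀ i ∈ I, I.filter (fun x => P i x) ≠ I) :
    ∃ (k : Fin 3) (f : Fin 4 → Fin 4), (∀ i ∈ I, ∀ j ∈ I, P i j ↔ Pat k (f i) (f j)) ∧
      (k ≠ 2 → (∀ i ∈ I, f i = 0 ∨ f i = 1) ∧ (∃ i ∈ I, f i = 0) ∧ (∃ i ∈ I, f i = 1)) ∧
      (k = 2 → I = Finset.univ ∧ Function.Bijective f) := by
  classical
  by_cases hsing : ∃ i ∈ I, ∃ a, I.filter (fun x => P i x) = {a}
  · obtain ⟨i0, hi0, a, hr⟩ := hsing
    exact cls_single I P hsym ha hb hd hd' i0 hi0 a hr
  push Not at hsing
  -- no row misses exactly one class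
  have hco : ∀ i ∈ I, ∀ a ∈ I, I.filter (fun x => P i x) ≠ I.erase a := by
    intro i hi a haI he
    have h1 : ∀ j ∈ I, ¬ P j a := by
      intro j hj hja
      have h2 : I.filter (fun x => P i x) ∪ I.filter (fun x => P j x) = I := by
        rw [he]
        ext x
        simp only [Finset.mem_union, Finset.mem_erase, Finset.mem_filter]
        constructor
        · rintro (h | h)
          · exact h.2
          · exact h.1
        · intro h
          by_cases hxa : x = a
          · right; rw [hxa]; exact ⟨haI, hja⟩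
          · left; exact ⟨hxa, h⟩
      have h3 := hc i hi j hj h2
      apply hsing j hj a
      ext x
      rw [Finset.mem_singleton, Finset.mem_filter]
      constructor
      · intro h
        by_contra hxa
        have : x ∈ I.filter (fun x => P i x) ∩ I.filter (fun x => P j x) := by
          rw [Finset.mem_inter, he, Finset.mem_erase, Finset.mem_filter]
          exact ⟨⟨hxa, h.1⟩, h⟩
        rw [h3] at this
        exact Finset.notMem_empty _ this
      · intro h
        rw [h]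
        exact ⟨haI, hja⟩
    apply hd a haI
    rw [Finset.filter_eq_empty_iff]
    intro x hx hax
    exact h1 x hx (hsym a haI x hx hax)
  -- sizes of the rows
  have hlow : ∀ i ∈ I, 2 ≤ (I.filter (fun x => P i x)).card := by
    intro i hi
    have h1 : (I.filter (fun x => P i x)).card ≠ 0 := fun h => hd i hi (Finset.card_eq_zero.1 h)
    have h2 : (I.filter (fun x => P i x)).card ≠ 1 := by
      intro h
      obtain ⟨a, h3⟩ := Finset.card_eq_one.1 h
      exact hsing i hi a h3
    omega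
  have hupp : ∀ i ∈ I, (I.filter (fun x => P i x)).card + 2 ≤ I.card := by
    intro i hi
    have h1 : (I \ I.filter (fun x => P i x)).card + (I.filter (fun x => P i x)).card = I.card :=
      Finset.card_sdiff_add_card_eq_card (Finset.filter_subset _ _)
    have h2 : (I \ I.filter (fun x => P i x)).card ≠ 0 := by
      intro h
      apply hd' i hi
      apply Finset.Subset.antisymm (Finset.filter_subset _ _)
      rw [← Finset.sdiff_eq_empty_iff_subset]
      exact Finset.card_eq_zero.1 h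
    have h3 : (I \ I.filter (fun x => P i x)).card ≠ 1 := by
      intro h
      obtain ⟨a, h4⟩ := Finset.card_eq_one.1 h
      have haI : a ∈ I := by
        have : a ∈ I \ I.filter (fun x => P i x) := by rw [h4]; exact Finset.mem_singleton_self a
        exact (Finset.mem_sdiff.1 this).1
      apply hco i hi a haI
      rw [Finset.erase_eq, ← h4, Finset.sdiff_sdiff_eq_self (Finset.filter_subset _ _)]
    omega
  obtain ⟨i1, hi1⟩ := hI
  have hIcard : I.card ≤ 4 := by
    have := Finset.card_le_univ I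
    simpa using this
  have hIu : I = Finset.univ := by
    apply Finset.eq_univ_of_card
    have h1 := hlow i1 hi1
    have h2 := hupp i1 hi1
    rw [Fintype.card_fin]
    omega
  subst hIu
  have hcard : ∀ i, (Finset.univ.filter (fun j => P i j)).card = 2 := by
    intro i
    have h1 := hlow i (Finset.mem_univ i)
    have h2 := hupp i (Finset.mem_univ i)
    omega
  obtain ⟨k, f, h1, h2, h3⟩ := cls_four P
    (fun i j => hsym i (Finset.mem_univ i) j (Finset.mem_univ j)) hcard
  refine ⟨k, f, fun i _ j _ => h1 i j, ?_, fun hk => ⟨rfl, h3 hk⟩⟩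
  intro hk
  obtain ⟨h4, ⟨i, h5⟩, ⟨j, h6⟩⟩ := h2 hk
  exact ⟨fun i _ => h4 i, ⟨i, Finset.mem_univ i, h5⟩, ⟨j, Finset.mem_univ j, h6⟩⟩

theorem classify (s : ℝ) (hs : 0 < s) (hs1 : s ≤ 1 / 1000) (I : Finset (Fin 4)) (c : Fin 4 → ℝ)
    (hc : ∀ i ∈ I, 100 * s ≤ c i) (hsum : 1 - 4 * s ≤ ∑ i ∈ I, c i) (hsum' : ∑ i ∈ I, c i ≤ 1)
    (P : Fin 4 → Fin 4 → Prop) [DecidableRel P] (hsym : ∀ i ∈ I, ∀ j ∈ I, P i j → P j i)
    (hrow : ∀ i ∈ I, 1 / 2 - 5 * s ≤ ∑ j ∈ I.filter (fun j => P i j), c j)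
    (hrow' : ∀ i ∈ I, ∑ j ∈ I.filter (fun j => P i j), c j ≤ 1 / 2 + 5 * s) :
    ∃ (k : Fin 3) (f : Fin 4 → Fin 4), (∀ i ∈ I, ∀ j ∈ I, P i j ↔ Pat k (f i) (f j)) ∧
      (k ≠ 2 → (∀ i ∈ I, f i = 0 ∨ f i = 1) ∧ (∃ i ∈ I, f i = 0) ∧ (∃ i ∈ I, f i = 1)) ∧
      (k = 2 → I = Finset.univ ∧ Function.Bijective f) := by
  classical
  have key : ∀ A B : Finset (Fin 4), A ⊆ B → B ⊆ I → ∑ j ∈ B, c j < ∑ j ∈ A, c j + 100 * s →
      A = B := by
    intro A B hAB hBI hlt
    apply Finset.Subset.antisymm hAB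
    intro x hxB
    by_contra hxA
    have h1 : insert x A ⊆ B := Finset.insert_subset hxB hAB
    have h2 : ∑ j ∈ insert x A, c j ≤ ∑ j ∈ B, c j := by
      apply Finset.sum_le_sum_of_subset_of_nonneg h1
      intro j hj _
      have := hc j (hBI hj)
      linarith
    rw [Finset.sum_insert hxA] at h2
    have := hc x (hBI hxB)
    linarith
  have hsub : ∀ i, I.filter (fun j => P i j) ⊆ I := fun i => Finset.filter_subset _ _
  apply cls_comb I P
  · rw [Finset.nonempty_iff_ne_empty]
    rintro rfl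
    simp only [Finset.sum_empty] at hsum
    linarith
  · exact hsym
  · intro i hi j hj h
    exact key _ _ h (hsub j) (by linarith [hrow i hi, hrow' j hj])
  · intro i hi j hj h
    apply key _ _ (Finset.union_subset (hsub i) (hsub j)) (Finset.Subset.refl _)
    rw [Finset.sum_union (Finset.disjoint_iff_inter_eq_empty.2 h)]
    linarith [hrow i hi, hrow j hj]
  · intro i hi j hj h
    symm
    apply key _ _ (Finset.empty_subset _) (Finset.inter_subset_left.trans (hsub i))
    have h1 := Finset.sum_union_inter (s₁ := I.filter (fun x => P i x))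
      (s₂ := I.filter (fun x => P j x)) (f := c)
    rw [h] at h1
    rw [Finset.sum_empty]
    linarith [hrow' i hi, hrow' j hj]
  · intro i hi h
    have := hrow i hi
    rw [h, Finset.sum_empty] at this
    linarith
  · intro i hi h
    have := hrow' i hi
    rw [h] at this
    linarith

end H15C6
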