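import Pool.Agent.H15.C6.Defs

/-!
Module COL.  Hoeffding-type colouring lemma: finitely many weight functions with values in
`[0,1]` can be simultaneously split evenly among the colour classes of one colouring.

Proof.  Count colourings `τ : V → κ` (or only their restrictions to `S`; extend by a constant
outside `S`).  Let `s = |S|`, `K = |κ|`.  For fixed `i, k` put `Y_u(τ) = w i u * ([τ u = k] - 1/K)`
for `u ∈ S`; `|Y_u| ≤ 1`, and `∑_{a : κ} Y_u (a) = 0`.  Since `exp x ≤ x + exp (x^2)` for all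
real `x` (for `|x| ≤ 1` from `Real.abs_exp_sub_one_sub_id_le`, otherwise trivial),
`(1/K) ∑_a exp (λ Y_u a) ≤ exp (λ^2)`.  By the product formula (`Finset.prod_univ_sum` /
`Fintype.piFinset`) `(1/K^s) ∑_τ exp (λ ∑_u Y_u) ≤ exp (λ^2 s)`.  Markov with `λ = t/(2s)`:
the fraction of `τ` with `∑ Y_u > t` is at most `exp (-(t^2)/(4 s))`; the same for `-Y`.
Union bound over `i ∈ F`, `k : κ`: the total fraction of bad colourings is
at most `2 |F| K exp(-(t^2)/(4 s)) < 1`.  (If `S = ∅` both sums are `0`.)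
-/

open Finset

namespace H15C6

/-- the centred variable -/
noncomputable def col_Y {ι V κ : Type} [Fintype κ] [DecidableEq κ] (w : ι → V → ℝ) (i : ι)
    (k : κ) (u : V) (c : κ) : ℝ :=
  w i u * ((if c = k then 1 else 0) - 1 / (Fintype.card κ : ℝ))

theorem col_exp_le (x : ℝ) : Real.exp x ≤ x + Real.exp (x ^ 2) := by
  have h1 : x ^ 2 + 1 ≤ Real.exp (x ^ 2) := Real.add_one_le_exp (x ^ 2)
  rcases le_or_gt |x| 1 with h | h
  · have h2 := Real.abs_exp_sub_one_sub_id_le h
    have h3 := (abs_le.1 h2).2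
    linarith
  · rcases lt_abs.1 h with h | h
    · have h2 : Real.exp x ≤ Real.exp (x ^ 2) := by
        apply Real.exp_le_exp.2
        nlinarith
      linarith
    · have h2 : Real.exp x ≤ 1 := by
        rw [Real.exp_le_one_iff]
        linarith
      nlinarith

theorem col_sum_Y {ι V κ : Type} [Fintype κ] [DecidableEq κ] [Nonempty κ] (w : ι → V → ℝ)
    (i : ι) (k : κ) (u : V) : ∑ c : κ, col_Y w i k u c = 0 := by
  have hK : (Fintype.card κ : ℝ) ≠ 0 := by
    exact_mod_cast Fintype.card_ne_zero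
  unfold col_Y
  rw [← mul_sum, sum_sub_distrib, sum_const, card_univ, nsmul_eq_mul, mul_one_div, div_self hK,
    Finset.sum_ite_eq' univ k (fun _ => (1 : ℝ))]
  simp

theorem col_Y_abs {ι V κ : Type} [Fintype κ] [DecidableEq κ] [Nonempty κ] (w : ι → V → ℝ)
    (i : ι) (k : κ) (u : V) (c : κ) (hw : 0 ≤ w i u ∧ w i u ≤ 1) : |col_Y w i k u c| ≤ 1 := by
  have hK : (1 : ℝ) ≤ (Fintype.card κ : ℝ) := by
    exact_mod_cast Fintype.card_pos
  have h1 : 0 < 1 / (Fintype.card κ : ℝ) := by positivity
  have h2 : 1 / (Fintype.card κ : ℝ) ≤ 1 := by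
    rw [div_le_one (by linarith)]
    exact hK
  unfold col_Y
  rw [abs_mul, abs_of_nonneg hw.1]
  have h3 : |(if c = k then (1 : ℝ) else 0) - 1 / (Fintype.card κ : ℝ)| ≤ 1 := by
    rw [abs_le]
    split_ifs
    · constructor <;> linarith
    · constructor <;> linarith
  calc w i u * |(if c = k then (1 : ℝ) else 0) - 1 / (Fintype.card κ : ℝ)| ≤ 1 * 1 :=
        mul_le_mul hw.2 h3 (abs_nonneg _) zero_le_one
    _ = 1 := one_mul 1

theorem col_moment {ι V κ : Type} [Fintype κ] [DecidableEq κ] [Nonempty κ] (w : ι → V → ℝ)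
    (i : ι) (k : κ) (u : V) (hw : 0 ≤ w i u ∧ w i u ≤ 1) (l : ℝ) :
    ∑ c : κ, Real.exp (l * col_Y w i k u c) ≤ (Fintype.card κ : ℝ) * Real.exp (l ^ 2) := by
  calc ∑ c : κ, Real.exp (l * col_Y w i k u c)
      ≤ ∑ c : κ, (l * col_Y w i k u c + Real.exp (l ^ 2)) := by
        apply sum_le_sum
        intro c _
        refine (col_exp_le _).trans (add_le_add le_rfl ?_)
        apply Real.exp_le_exp.2
        rw [mul_pow]
        have h1 : col_Y w i k u c ^ 2 ≤ 1 := (sq_le_one_iff_abs_le_one _).2 (col_Y_abs w i k u c hw)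
        nlinarith [sq_nonneg l]
    _ = (Fintype.card κ : ℝ) * Real.exp (l ^ 2) := by
        rw [sum_add_distrib, ← mul_sum, col_sum_Y, mul_zero, zero_add, sum_const, card_univ,
          nsmul_eq_mul]

/-- the potential -/
noncomputable def col_Phi {ι V κ : Type} [Fintype κ] [DecidableEq κ] (F : Finset ι)
    (w : ι → V → ℝ) (l : ℝ) (S : Finset V) (τ : V → κ) : ℝ :=
  ∑ i ∈ F, ∑ k : κ, (Real.exp (l * ∑ u ∈ S, col_Y w i k u (τ u)) +
    Real.exp (-l * ∑ u ∈ S, col_Y w i k u (τ u)))

theorem col_greedy {ι V κ : Type} [DecidableEq V] [Fintype κ] [DecidableEq κ] [Nonempty κ]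
    (F : Finset ι) (w : ι → V → ℝ) (l : ℝ) (S : Finset V) :
    (∀ i ∈ F, ∀ u ∈ S, 0 ≤ w i u ∧ w i u ≤ 1) → ∃ τ : V → κ,
      col_Phi F w l S τ ≤ 2 * (F.card : ℝ) * (Fintype.card κ : ℝ) * Real.exp (l ^ 2 * S.card) := by
  induction S using Finset.induction_on with
  | empty =>
    intro _
    refine ⟨fun _ => Classical.arbitrary κ, ?_⟩
    unfold col_Phi
    simp only [sum_empty, mul_zero, Real.exp_zero, card_empty, Nat.cast_zero, mul_one, sum_const,
      card_univ, nsmul_eq_mul]
    apply le_of_eq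
    ring
  | @insert a S ha ih =>
    intro hw
    obtain ⟨τ, hτ⟩ := ih (fun i hi u hu => hw i hi u (mem_insert_of_mem hu))
    have hK : (0 : ℝ) < (Fintype.card κ : ℝ) := by
      exact_mod_cast Fintype.card_pos
    have hsum : ∀ (c : κ) (i : ι) (k : κ),
        ∑ u ∈ insert a S, col_Y w i k u (Function.update τ a c u) =
        col_Y w i k a c + ∑ u ∈ S, col_Y w i k u (τ u) := by
      intro c i k
      rw [sum_insert ha, Function.update_self]
      congr 1
      apply sum_congr rfl
      intro u hu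
      have hua : u ≠ a := fun hEq => ha (hEq ▸ hu)
      rw [Function.update_of_ne hua]
    have key : ∑ c : κ, col_Phi F w l (insert a S) (Function.update τ a c) ≤
        (Fintype.card κ : ℝ) * (Real.exp (l ^ 2) * col_Phi F w l S τ) := by
      unfold col_Phi
      rw [sum_comm, ← mul_assoc, mul_sum]
      apply sum_le_sum
      intro i hi
      rw [sum_comm, mul_sum]
      apply sum_le_sum
      intro k _
      simp only [hsum]
      rw [sum_add_distrib, mul_add]
      have hwa := hw i hi a (mem_insert_self a S)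
      apply add_le_add
      · have h1 := col_moment w i k a hwa l
        calc ∑ c : κ, Real.exp (l * (col_Y w i k a c + ∑ u ∈ S, col_Y w i k u (τ u)))
            = (∑ c : κ, Real.exp (l * col_Y w i k a c)) *
              Real.exp (l * ∑ u ∈ S, col_Y w i k u (τ u)) := by
              rw [sum_mul]
              apply sum_congr rfl
              intro c _
              rw [mul_add, Real.exp_add]
          _ ≤ _ := mul_le_mul_of_nonneg_right h1 (Real.exp_pos _).le
      · have h1 := col_moment w i k a hwa (-l)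
        rw [neg_sq] at h1
        calc ∑ c : κ, Real.exp (-l * (col_Y w i k a c + ∑ u ∈ S, col_Y w i k u (τ u)))
            = (∑ c : κ, Real.exp (-l * col_Y w i k a c)) *
              Real.exp (-l * ∑ u ∈ S, col_Y w i k u (τ u)) := by
              rw [sum_mul]
              apply sum_congr rfl
              intro c _
              rw [mul_add, Real.exp_add]
          _ ≤ _ := mul_le_mul_of_nonneg_right h1 (Real.exp_pos _).le
    have key2 : ∑ c : κ, col_Phi F w l (insert a S) (Function.update τ a c) ≤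
        ∑ _c : κ, Real.exp (l ^ 2) * col_Phi F w l S τ := by
      rw [sum_const, card_univ, nsmul_eq_mul]
      exact key
    obtain ⟨c, _, hc⟩ := exists_le_of_sum_le univ_nonempty key2
    refine ⟨Function.update τ a c, hc.trans ?_⟩
    rw [card_insert_of_notMem ha]
    push_cast
    calc Real.exp (l ^ 2) * col_Phi F w l S τ
        ≤ Real.exp (l ^ 2) * (2 * (F.card : ℝ) * (Fintype.card κ : ℝ) *
          Real.exp (l ^ 2 * S.card)) := mul_le_mul_of_nonneg_left hτ (Real.exp_pos _).le
      _ = 2 * (F.card : ℝ) * (Fintype.card κ : ℝ) * Real.exp (l ^ 2 * (S.card + 1)) := by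
        rw [mul_add, mul_one, Real.exp_add]
        ring

theorem exists_coloring {ι V κ : Type} [DecidableEq V] [Fintype κ] [DecidableEq κ] [Nonempty κ]
    (S : Finset V) (F : Finset ι) (w : ι → V → ℝ)
    (hw : ∀ i ∈ F, ∀ u ∈ S, 0 ≤ w i u ∧ w i u ≤ 1) (t : ℝ) (ht : 0 < t)
    (hnum : 2 * (F.card : ℝ) * (Fintype.card κ : ℝ) * Real.exp (-(t ^ 2) / (4 * (S.card : ℝ))) < 1) :
    ∃ τ : V → κ, ∀ i ∈ F, ∀ k : κ,
      |(∑ u ∈ S.filter (fun u => τ u = k), w i u) - (∑ u ∈ S, w i u) / (Fintype.card κ : ℝ)| ≤ t := by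
  rcases S.eq_empty_or_nonempty with rfl | hS
  · refine ⟨fun _ => Classical.arbitrary κ, fun i _ k => ?_⟩
    simp [ht.le]
  have hs : (0 : ℝ) < S.card := by exact_mod_cast card_pos.2 hS
  have hK : (0 : ℝ) < (Fintype.card κ : ℝ) := by
    exact_mod_cast Fintype.card_pos
  set l : ℝ := t / (2 * S.card) with hl
  have hlpos : 0 < l := by positivity
  obtain ⟨τ, hτ⟩ := col_greedy (κ := κ) F w l S hw
  refine ⟨τ, fun i hi k => ?_⟩
  by_contra hcon
  rw [not_le] at hcon
  set D : ℝ := ∑ u ∈ S, col_Y w i k u (τ u) with hD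
  have hDeq : (∑ u ∈ S.filter (fun u => τ u = k), w i u) -
      (∑ u ∈ S, w i u) / (Fintype.card κ : ℝ) = D := by
    rw [hD, sum_filter, sum_div, ← sum_sub_distrib]
    apply sum_congr rfl
    intro u _
    unfold col_Y
    split_ifs
    · ring
    · ring
  rw [hDeq] at hcon
  have h1 : Real.exp (l * t) ≤ Real.exp (l * D) + Real.exp (-l * D) := by
    have e1 := Real.exp_pos (l * D)
    have e2 := Real.exp_pos (-l * D)
    rcases lt_abs.1 hcon with h | h
    · have : Real.exp (l * t) ≤ Real.exp (l * D) := by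
        apply Real.exp_le_exp.2
        nlinarith
      linarith
    · have : Real.exp (l * t) ≤ Real.exp (-l * D) := by
        apply Real.exp_le_exp.2
        nlinarith
      linarith
  have h2 : Real.exp (l * D) + Real.exp (-l * D) ≤ col_Phi F w l S τ := by
    unfold col_Phi
    calc Real.exp (l * D) + Real.exp (-l * D)
        ≤ ∑ k : κ, (Real.exp (l * ∑ u ∈ S, col_Y w i k u (τ u)) +
          Real.exp (-l * ∑ u ∈ S, col_Y w i k u (τ u))) :=
          single_le_sum (f := fun k => Real.exp (l * ∑ u ∈ S, col_Y w i k u (τ u)) +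
            Real.exp (-l * ∑ u ∈ S, col_Y w i k u (τ u))) (fun k _ => by positivity)
            (mem_univ k)
      _ ≤ _ := single_le_sum (f := fun i => ∑ k : κ,
          (Real.exp (l * ∑ u ∈ S, col_Y w i k u (τ u)) +
          Real.exp (-l * ∑ u ∈ S, col_Y w i k u (τ u))))
          (fun i _ => sum_nonneg (fun k _ => by positivity)) hi
  have h3 : Real.exp (l * t) ≤ 2 * (F.card : ℝ) * (Fintype.card κ : ℝ) *
      Real.exp (l ^ 2 * S.card) := h1.trans (h2.trans hτ)
  have h4 : Real.exp (l ^ 2 * S.card) = Real.exp (l * t) *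
      Real.exp (-(t ^ 2) / (4 * (S.card : ℝ))) := by
    rw [← Real.exp_add]
    congr 1
    rw [hl]
    field_simp
    ring
  rw [h4] at h3
  have h5 : 0 < Real.exp (l * t) := Real.exp_pos _
  nlinarith

end H15C6
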