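import Pool.Agent.H15.C6.ITER

/-!
Module CORE.  The main decomposition theorem, conditional on the existence of absorbers.

`Absorbs U E P ε M C`: for every small set `X` (`|X| ≤ M`), every forbidden set `Z` (`|Z| ≤ ε|U|`) and
every `H ⊆ E` inside `X` satisfying `P` there is an absorber `A ⊆ E` with at most `C` edges: `A` and
`A ∪ H` are both decomposable, no edge of `A` is inside `X`, and the vertices of `A` outside `X` avoid `Z`.

Proof of `core`.  WLOG `ε ≤ 1`; `L := ⌈8/ε⌉ + 3`.  `M, s0, θ` from `vortex_dec (η/2) L`.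
`vortex_step L 1 η` applied with `U1 := U` gives (large `|U|`) `U1 ⊆ U` with `|U| ≤ 2L|U1|`,
`|U1| ≤ (2/L)|U| ≤ (ε/4)|U|` and `P4 E U1 x y ≥ (η/2)|U1|^3` for `R x y`.  (WLOG `η ≤ 1`.)  Let `X ⊆ U1` be the set from
`vortex_dec`, `|X| ≤ M`.  Enumerate the (at most `2^((M+1)^2)`) sets `H ⊆ E ∩ X.sym2` with `P H` and choose absorbers
`A_H` one after the other with `Z := (U1 ∪ all vertices of earlier absorbers) \ X`,
`|Z| ≤ ε|U|` for large `|U|`.  They are pairwise disjoint: a common edge has an end outside `X`.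
`A := ⋃ A_H`; `Dec A`; `E' := E \ A`: contains every edge of `E` inside `U1` (an edge of `A` inside `U1`
would be inside `X`); `dg (E \ E') U1 u ≤ |A| ≤ θ|U1|`; `P E'` (remove the six-cycles of `A` one by one:
`hPC`), so `EvenDeg E'`.  `vortex_dec` gives `D`, put `H := E' \ D ⊆ X.sym2`; `P H` again by `hPC`.
`E = D ∪ (A_H ∪ H) ∪ ⋃_{H' ≠ H} A_{H'}`.
-/

open Finset

namespace H15C6

theorem core_dec_sdiff {V : Type} [DecidableEq V] {P : Finset (Sym2 V) → Prop}
    (hPC : ∀ H C', P H → C' ⊆ H → IsC6 C' → P (H \ C')) {D : Finset (Sym2 V)} (hD : Dec D) :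
    ∀ H, D ⊆ H → P H → P (H \ D) := by
  induction hD with
  | empty => intro H _ h; simpa using h
  | @add E C hE hC hd ih =>
    intro H hs h
    have h1 : H \ (E ∪ C) = (H \ E) \ C := by
      ext e
      simp only [Finset.mem_sdiff, Finset.mem_union]
      tauto
    rw [h1]
    refine hPC _ _ (ih H (Finset.union_subset_left hs) h) ?_ hC
    intro e he
    rw [Finset.mem_sdiff]
    exact ⟨hs (Finset.mem_union_right _ he), fun h2 => (Finset.disjoint_left.1 hd) h2 he⟩

theorem core_vs {V : Type} [DecidableEq V] (F : Finset (Sym2 V)) :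
    (F.biUnion Sym2.toFinset).card ≤ 2 * F.card := by
  refine le_trans Finset.card_biUnion_le ?_
  rw [mul_comm, ← smul_eq_mul, ← Finset.sum_const]
  refine Finset.sum_le_sum fun e _ => ?_
  rw [Sym2.card_toFinset]
  split_ifs <;> omega

theorem core_abs {V : Type} [DecidableEq V] {U U1 X : Finset V} {E : Finset (Sym2 V)}
    {P : Finset (Sym2 V) → Prop} {ε : ℝ} {M C B : ℕ} (hA : Absorbs U E P ε M C)
    (hXU1 : X ⊆ U1) (hU1 : U1 ⊆ U) (hX : X.card ≤ M)
    (hB : (U1.card : ℝ) + 2 * (C * B) ≤ ε * U.card)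
    (S : Finset (Finset (Sym2 V))) (hS : ∀ H ∈ S, H ⊆ E ∧ H ⊆ X.sym2 ∧ P H) (hSB : S.card ≤ B) :
    ∃ A : Finset (Sym2 V) → Finset (Sym2 V),
      (∀ H ∈ S, A H ⊆ E ∧ Dec (A H) ∧ Dec (A H ∪ H) ∧ (∀ e ∈ A H, e ∉ U1.sym2) ∧
        (A H).card ≤ C) ∧
      (∀ H ∈ S, ∀ H' ∈ S, H ≠ H' → Disjoint (A H) (A H')) := by
  induction S using Finset.induction_on with
  | empty => exact ⟨fun _ => ∅, by simp, by simp⟩
  | insert a S ha ih =>
    rw [Finset.card_insert_of_notMem ha] at hSB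
    obtain ⟨A, h1, h2⟩ := ih (fun H hH => hS H (Finset.mem_insert_of_mem hH)) (by omega)
    obtain ⟨haE, haX, haP⟩ := hS a (Finset.mem_insert_self a S)
    set Z := U1 ∪ (S.biUnion A).biUnion Sym2.toFinset with hZdef
    have hZ : (Z.card : ℝ) ≤ ε * U.card := by
      have h3 : Z.card ≤ U1.card + 2 * (C * B) := by
        refine (Finset.card_union_le _ _).trans (Nat.add_le_add_left ?_ _)
        refine (core_vs _).trans (Nat.mul_le_mul_left _ ?_)
        refine Finset.card_biUnion_le.trans ?_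
        refine (Finset.sum_le_card_nsmul S _ C fun H hH => (h1 H hH).2.2.2.2).trans ?_
        rw [smul_eq_mul, mul_comm]
        exact Nat.mul_le_mul_left _ (by omega)
      have h4 : (Z.card : ℝ) ≤ (U1.card : ℝ) + 2 * (C * B) := by exact_mod_cast h3
      exact h4.trans hB
    obtain ⟨A0, hA0E, hd, hdu, hx, hz, hc⟩ := hA X Z (hXU1.trans hU1) hX hZ a haE haX haP
    have hout : ∀ e ∈ A0, ∃ x ∈ e, x ∉ Z := by
      intro e he
      have h3 := hx e he
      rw [Finset.mem_sym2_iff] at h3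
      push Not at h3
      obtain ⟨x, hxe, hxX⟩ := h3
      exact ⟨x, hxe, hz e he x hxe hxX⟩
    have hdis : ∀ H ∈ S, Disjoint A0 (A H) := by
      intro H hH
      rw [Finset.disjoint_left]
      intro e he he'
      obtain ⟨x, hxe, hxZ⟩ := hout e he
      apply hxZ
      rw [hZdef, Finset.mem_union]
      right
      rw [Finset.mem_biUnion]
      exact ⟨e, Finset.mem_biUnion.2 ⟨H, hH, he'⟩, Sym2.mem_toFinset.2 hxe⟩
    have hne : ∀ H ∈ S, H ≠ a := fun H hH h => ha (h ▸ hH)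
    refine ⟨Function.update A a A0, ?_, ?_⟩
    · intro H hH
      rw [Finset.mem_insert] at hH
      rcases hH with rfl | hH
      · rw [Function.update_self]
        refine ⟨hA0E, hd, hdu, ?_, hc⟩
        intro e he he'
        obtain ⟨x, hxe, hxZ⟩ := hout e he
        rw [Finset.mem_sym2_iff] at he'
        exact hxZ (Finset.mem_union_left _ (he' x hxe))
      · rw [Function.update_of_ne (hne H hH)]
        exact h1 H hH
    · intro H hH H' hH' hHH'
      rw [Finset.mem_insert] at hH hH'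
      rcases hH with rfl | hH <;> rcases hH' with rfl | hH'
      · exact absurd rfl hHH'
      · rw [Function.update_self, Function.update_of_ne (hne H' hH')]
        exact hdis H' hH'
      · rw [Function.update_self, Function.update_of_ne (hne H hH)]
        exact (hdis H hH).symm
      · rw [Function.update_of_ne (hne H' hH'), Function.update_of_ne (hne H hH)]
        exact h2 H hH H' hH' hHH'

/-- the finite part of the argument -/
theorem core_fin {V : Type} [DecidableEq V] {U U1 X : Finset V} {E : Finset (Sym2 V)}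
    {P : Finset (Sym2 V) → Prop} {ε θ : ℝ} {M C : ℕ} (hA : Absorbs U E P ε M C)
    (hXU1 : X ⊆ U1) (hU1 : U1 ⊆ U) (hX : X.card ≤ M)
    (hB : (U1.card : ℝ) + 2 * (C * (2 ^ ((M + 1) ^ 2) : ℕ)) ≤ ε * U.card)
    (hB2 : ((C * 2 ^ ((M + 1) ^ 2) : ℕ) : ℝ) ≤ θ * U1.card)
    (hPE : ∀ H, P H → EvenDeg H)
    (hPC : ∀ H C', P H → C' ⊆ H → IsC6 C' → P (H \ C')) (hP : P E)
    (hdec : ∀ E' ⊆ E, (∀ e ∈ E, e ∈ U1.sym2 → e ∈ E') →
        (∀ u ∈ U, (dg (E \ E') U1 u : ℝ) ≤ θ * U1.card) → EvenDeg E' →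
        ∃ D ⊆ E', Dec D ∧ E' \ D ⊆ X.sym2) : Dec E := by
  classical
  set S : Finset (Finset (Sym2 V)) := (E ∩ X.sym2).powerset.filter (fun H => P H) with hSdef
  have hS : ∀ H ∈ S, H ⊆ E ∧ H ⊆ X.sym2 ∧ P H := by
    intro H hH
    rw [hSdef, Finset.mem_filter, Finset.mem_powerset] at hH
    exact ⟨hH.1.trans Finset.inter_subset_left, hH.1.trans Finset.inter_subset_right, hH.2⟩
  have hSB : S.card ≤ 2 ^ ((M + 1) ^ 2) := by
    refine (Finset.card_filter_le _ _).trans ?_
    rw [Finset.card_powerset]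
    refine Nat.pow_le_pow_right (by norm_num) ?_
    refine (Finset.card_le_card Finset.inter_subset_right).trans ?_
    rw [Finset.card_sym2, Nat.choose_two_right]
    refine (Nat.div_le_self _ _).trans ?_
    rw [Nat.add_sub_cancel]
    nlinarith
  obtain ⟨A, h1, h2⟩ := core_abs hA hXU1 hU1 hX hB S hS hSB
  set AA : Finset (Sym2 V) := S.biUnion A with hAA
  have hAAE : AA ⊆ E := Finset.biUnion_subset.2 fun H hH => (h1 H hH).1
  have hAAdec : Dec AA := Dec.biUnion (fun H hH => (h1 H hH).2.1) h2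
  have hAAcard : AA.card ≤ C * 2 ^ ((M + 1) ^ 2) := by
    refine Finset.card_biUnion_le.trans ?_
    refine (Finset.sum_le_card_nsmul S _ C fun H hH => (h1 H hH).2.2.2.2).trans ?_
    rw [smul_eq_mul, mul_comm]
    exact Nat.mul_le_mul_left _ hSB
  have hE'P : P (E \ AA) := core_dec_sdiff hPC hAAdec E hAAE hP
  have hEE' : E \ (E \ AA) = AA := Finset.sdiff_sdiff_eq_self hAAE
  obtain ⟨D, hDE', hD, hDX⟩ := hdec (E \ AA) Finset.sdiff_subset
    (by
      intro e he heU
      rw [Finset.mem_sdiff]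
      refine ⟨he, fun hA' => ?_⟩
      rw [hAA, Finset.mem_biUnion] at hA'
      obtain ⟨H, hH, heH⟩ := hA'
      exact (h1 H hH).2.2.2.1 e heH heU)
    (by
      intro u _
      rw [hEE']
      refine le_trans ?_ hB2
      have h3 : dg AA U1 u ≤ C * 2 ^ ((M + 1) ^ 2) := by
        refine (dg_le_deg _ _ _).trans (le_trans ?_ hAAcard)
        exact Finset.card_filter_le _ _
      exact_mod_cast h3)
    (hPE _ hE'P)
  set H : Finset (Sym2 V) := (E \ AA) \ D with hHdef
  have hHP : P H := core_dec_sdiff hPC hD _ hDE' hE'P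
  have hHE' : H ⊆ E \ AA := Finset.sdiff_subset
  have hHS : H ∈ S := by
    rw [hSdef, Finset.mem_filter, Finset.mem_powerset]
    exact ⟨Finset.subset_inter (hHE'.trans Finset.sdiff_subset) hDX, hHP⟩
  -- assemble
  have hAE' : ∀ H' ∈ S, Disjoint (E \ AA) (A H') := by
    intro H' hH'
    rw [Finset.disjoint_left]
    intro e he he'
    exact (Finset.mem_sdiff.1 he).2 (Finset.mem_biUnion.2 ⟨H', hH', he'⟩)
  have hd1 : Dec (D ∪ (A H ∪ H)) := by
    refine Dec.union hD (h1 H hHS).2.2.1 ?_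
    rw [Finset.disjoint_union_right]
    exact ⟨Finset.disjoint_of_subset_left hDE' (hAE' H hHS), Finset.disjoint_sdiff⟩
  have hd2 : Dec ((S.erase H).biUnion A) := by
    refine Dec.biUnion (fun H' hH' => (h1 H' (Finset.mem_of_mem_erase hH')).2.1) ?_
    intro H' hH' H'' hH'' hne
    exact h2 H' (Finset.mem_of_mem_erase hH') H'' (Finset.mem_of_mem_erase hH'') hne
  have hd3 : Disjoint (D ∪ (A H ∪ H)) ((S.erase H).biUnion A) := by
    rw [Finset.disjoint_biUnion_right]
    intro H' hH'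
    have hH'S := Finset.mem_of_mem_erase hH'
    rw [Finset.disjoint_union_left, Finset.disjoint_union_left]
    exact ⟨Finset.disjoint_of_subset_left hDE' (hAE' H' hH'S),
      h2 H hHS H' hH'S (Finset.ne_of_mem_erase hH').symm,
      Finset.disjoint_of_subset_left hHE' (hAE' H' hH'S)⟩
  have hfin := Dec.union hd1 hd2 hd3
  have hEeq : D ∪ (A H ∪ H) ∪ (S.erase H).biUnion A = E := by
    apply Finset.Subset.antisymm
    · refine Finset.union_subset (Finset.union_subset (hDE'.trans Finset.sdiff_subset)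
        (Finset.union_subset (h1 H hHS).1 (hHE'.trans Finset.sdiff_subset))) ?_
      exact Finset.biUnion_subset.2 fun H' hH' => (h1 H' (Finset.mem_of_mem_erase hH')).1
    · intro e he
      by_cases heA : e ∈ AA
      · rw [hAA, Finset.mem_biUnion] at heA
        obtain ⟨H', hH', heH'⟩ := heA
        by_cases hHH' : H' = H
        · subst hHH'
          exact Finset.mem_union_left _ (Finset.mem_union_right _ (Finset.mem_union_left _ heH'))
        · exact Finset.mem_union_right _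
            (Finset.mem_biUnion.2 ⟨H', Finset.mem_erase.2 ⟨hHH', hH'⟩, heH'⟩)
      · by_cases heD : e ∈ D
        · exact Finset.mem_union_left _ (Finset.mem_union_left _ heD)
        · refine Finset.mem_union_left _ (Finset.mem_union_right _ (Finset.mem_union_right _ ?_))
          rw [hHdef, Finset.mem_sdiff, Finset.mem_sdiff]
          exact ⟨⟨he, heA⟩, heD⟩
  rw [hEeq] at hfin
  exact hfin

theorem core (η ε : ℝ) (hη : 0 < η) (hε : 0 < ε) :
    ∃ M : ℕ, ∀ C : ℕ, ∃ n0 : ℕ, ∀ (V : Type) [Fintype V] [DecidableEq V] (U : Finset V)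
      (E : Finset (Sym2 V)) (R : V → V → Prop) (P : Finset (Sym2 V) → Prop),
      n0 ≤ U.card → E ⊆ U.sym2 → Loopless E →
      (∀ v x y, s(v, x) ∈ E → s(v, y) ∈ E → R x y) →
      (∀ x ∈ U, ∀ y ∈ U, R x y → η * (U.card : ℝ) ^ 3 ≤ (P4 E U x y : ℝ)) →
      (∀ H, P H → EvenDeg H) →
      (∀ H C', P H → C' ⊆ H → IsC6 C' → P (H \ C')) →
      P E → Absorbs U E P ε M C → Dec E := by
  set η' : ℝ := min η 1 with hη'
  have hη'0 : 0 < η' := lt_min hη one_pos
  have hη'1 : η' ≤ 1 := min_le_right _ _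
  have hη'η : η' ≤ η := min_le_left _ _
  set L : ℕ := ⌈8 / ε⌉₊ + 3 with hL
  have hL3 : 3 ≤ L := by omega
  have hL8 : 8 ≤ ε * L := by
    have h1 : 8 / ε ≤ (⌈8 / ε⌉₊ : ℝ) := Nat.le_ceil _
    rw [div_le_iff₀ hε] at h1
    rw [hL]
    push_cast
    nlinarith
  obtain ⟨M, s0, θ, hθ, hdec⟩ := vortex_dec (η' / 2) (by positivity) L hL3
  refine ⟨M, fun C => ?_⟩
  obtain ⟨C₁, hC₁, s1, hstep⟩ := vortex_step L 1 hL3 le_rfl η' hη'0
  set B : ℕ := 2 ^ ((M + 1) ^ 2) with hBdef
  have hLpos : (0 : ℝ) < L := by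
    have : 0 < L := by omega
    exact_mod_cast this
  -- all conditions hold for large `N`
  have e1 : ∀ᶠ N : ℕ in Filter.atTop, s1 ≤ N := Filter.eventually_ge_atTop s1
  have e2 : ∀ᶠ N : ℕ in Filter.atTop, C₁ * (N : ℝ) ^ (-(1 / 4 : ℝ)) ≤ η' / 2 := by
    have h1 : Filter.Tendsto (fun N : ℕ => C₁ * (N : ℝ) ^ (-(1 / 4 : ℝ))) Filter.atTop
        (nhds (C₁ * 0)) :=
      ((tendsto_rpow_neg_atTop (by norm_num : (0 : ℝ) < 1 / 4)).comp
        tendsto_natCast_atTop_atTop).const_mul C₁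
    rw [mul_zero] at h1
    exact (h1.eventually_lt_const (by positivity : (0 : ℝ) < η' / 2)).mono fun N hN => hN.le
  have e3 : ∀ᶠ N : ℕ in Filter.atTop, 2 * L * s0 ≤ N := Filter.eventually_ge_atTop _
  have e4 : ∀ᶠ N : ℕ in Filter.atTop, 2 * L * ((C * B : ℕ) : ℝ) / θ ≤ (N : ℝ) :=
    tendsto_natCast_atTop_atTop.eventually_ge_atTop _
  have e5 : ∀ᶠ N : ℕ in Filter.atTop, 4 * ((C * B : ℕ) : ℝ) / ε ≤ (N : ℝ) :=
    tendsto_natCast_atTop_atTop.eventually_ge_atTop _
  obtain ⟨n0, hn0⟩ := Filter.eventually_atTop.1 (e1.and (e2.and (e3.and (e4.and e5))))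
  refine ⟨n0, ?_⟩
  intro V _ _ U E R P hU hEU hEl hR hP4 hPE hPC hP hAbs
  obtain ⟨f1, f2, f3, f4, f5⟩ := hn0 U.card hU
  have hUU : (U.card : ℝ) ≤ 2 * L * U.card := by
    have h1 : (1 : ℝ) ≤ 2 * L := by
      have : (3 : ℝ) ≤ L := by exact_mod_cast hL3
      linarith
    have h2 : (0 : ℝ) ≤ U.card := Nat.cast_nonneg _
    nlinarith
  obtain ⟨U1, hU1U, χ, g1, g2, g3, -, -, -⟩ := hstep V U U E R η' le_rfl hη'1
    (Finset.Subset.refl U) f1 hUU (fun x hx y hy hxy =>
      le_trans (mul_le_mul_of_nonneg_right hη'η (by positivity)) (hP4 x hx y hy hxy))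
  have hs0 : s0 ≤ U1.card := by
    have h1 : (U.card : ℝ) ≤ 2 * L * U1.card := g1
    have h2 : U.card ≤ 2 * L * U1.card := by exact_mod_cast h1
    have h3 : 2 * L * s0 ≤ 2 * L * U1.card := f3.trans h2
    exact Nat.le_of_mul_le_mul_left h3 (by omega)
  obtain ⟨X, hXU1, hXM, hXdec⟩ := hdec V U U1 E R hU1U hs0 g1 hEU hEl hR
    (fun x hx y hy hxy => by
      refine le_trans ?_ (g3 x hx y hy hxy)
      refine mul_le_mul_of_nonneg_right ?_ (by positivity)
      linarith)
  refine core_fin (ε := ε) (θ := θ) (C := C) hAbs hXU1 hU1U hXM ?_ ?_ hPE hPC hP hXdec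
  · -- `|U1| + 2 C B ≤ ε |U|`
    have h1 : (8 : ℝ) * U1.card ≤ 2 * ε * U.card := by
      have h2 : (0 : ℝ) ≤ U1.card := Nat.cast_nonneg _
      nlinarith
    rw [div_le_iff₀ hε] at f5
    push_cast at f5 ⊢
    rw [hBdef] at f5
    push_cast at f5
    nlinarith
  · rw [div_le_iff₀ hθ] at f4
    have h1 : 2 * (L : ℝ) * ((C * B : ℕ) : ℝ) ≤ 2 * L * (θ * U1.card) := by
      refine f4.trans ?_
      have h2 : (U.card : ℝ) * θ ≤ 2 * L * U1.card * θ := mul_le_mul_of_nonneg_right g1 hθ.le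
      linarith
    exact le_of_mul_le_mul_left h1 (by positivity)

end H15C6
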