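import Pool.Agent.H15.C6.D1A0

/-!
Module D1A1 (part of D1A).  The exact case `n = 4k+1`: `V = A0 ⊔ B0 ⊔ {x}`, `|A0| = |B0| = 2k`, all degrees even and at least `2k`, at
most four edges between `A0` and `B0` (`F0 := crs E AX BX`, `AX = insert x A0`, `BX = insert x B0`).

Facts.  For `a ∈ A0` let `m a = #{v ∈ AX : v ≠ a, s(a,v) ∉ E}`; `deg a = 2k - m a + deg F0 a`, so
`m a ≤ deg F0 a` and `m a ≡ deg F0 a (mod 2)`.  A *clean* vertex (`deg F0 a = 0`) is adjacent to all other vertices
of `AX`; at most four vertices of `A0` are not clean.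
`2 |inn E AX| = ∑_{a ∈ A0} (2k - m a) + dg E A0 x`.
`d1_pass`: a six-cycle through `x` and the single cross edge `s(a,b)` with exactly `r` edges inside `AX` (and `5 - r`
inside `BX`): path from `x` to `a` of length `r` with clean private inner vertices in `A0`, path from `b` to `x` of
length `5 - r` with clean private inner vertices in `B0`.
`d1_two`: a six-cycle with two disjoint cross edges, `r` edges inside `AX` joining `a, a'` and `4 - r` inside `BX`.
-/

open Finset

namespace H15C6

variable {V : Type} [Fintype V] [DecidableEq V] {E : Finset (Sym2 V)} {k : ℕ} {A0 B0 : Finset V}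
  {x : V}

theorem d1a1_crs_comm (E : Finset (Sym2 V)) (A B : Finset V) : crs E A B = crs E B A := by
  ext e
  simp only [crs, Finset.mem_sdiff]
  tauto

theorem D1Env.swap (h : D1Env E k A0 B0 x) : D1Env E k B0 A0 x where
  disj := h.disj.symm
  hxA := h.hxB
  hxB := h.hxA
  cover := by rw [Finset.union_comm]; exact h.cover
  cardA := h.cardB
  cardB := h.cardA
  loopless := h.loopless
  even := h.even
  six := h.six
  mindeg := h.mindeg
  few := by rw [d1a1_crs_comm]; exact h.few
  big := h.big

/-- the two kinds of inner edges are disjoint -/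
theorem D1Env.d1a1_inn_disj (h : D1Env E k A0 B0 x) {F : Finset (Sym2 V)} (hF : F ⊆ E) :
    Disjoint (inn F (insert x A0)) (inn F (insert x B0)) := by
  rw [Finset.disjoint_left]
  intro e he he'
  unfold inn at he he'
  rw [Finset.mem_inter] at he he'
  induction e using Sym2.ind with
  | _ u v =>
    rw [Finset.mk_mem_sym2_iff] at he he'
    have key : ∀ w, w ∈ insert x A0 → w ∈ insert x B0 → w = x := by
      intro w hw hw'
      rw [Finset.mem_insert] at hw hw'
      rcases hw with hw | hw
      · exact hw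
      · rcases hw' with hw' | hw'
        · exact hw'
        · exact absurd hw' (Finset.disjoint_left.1 h.disj hw)
    have hu := key u he.2.1 he'.2.1
    have hv := key v he.2.2 he'.2.2
    subst hu
    subst hv
    exact h.loopless _ (hF he.1)

theorem D1Env.d1a1_total' (h : D1Env E k A0 B0 x) {F : Finset (Sym2 V)} (hF : F ⊆ E) :
    (inn F (insert x A0)).card + (inn F (insert x B0)).card +
      (crs F (insert x A0) (insert x B0)).card = F.card := by
  rw [← Finset.card_union_of_disjoint (h.d1a1_inn_disj hF), ← Finset.card_union_of_disjoint]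
  · congr 1
    ext e
    simp only [inn, crs, Finset.mem_union, Finset.mem_inter, Finset.mem_sdiff]
    tauto
  · rw [Finset.disjoint_left]
    intro e he he'
    simp only [inn, crs, Finset.mem_union, Finset.mem_inter, Finset.mem_sdiff] at he he'
    tauto

theorem D1Env.total (h : D1Env E k A0 B0 x) :
    (inn E (insert x A0)).card + (inn E (insert x B0)).card +
      (crs E (insert x A0) (insert x B0)).card = E.card := h.d1a1_total' (Finset.Subset.refl _)

theorem D1Env.goal_swap (h : D1Env E k A0 B0 x) (hg : D1Goal E B0 A0 x) : D1Goal E A0 B0 x := by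
  obtain ⟨D0, hDE, hD, hc, h24, h6⟩ := hg
  rw [d1a1_crs_comm] at hc
  refine ⟨D0, hDE, hD, hc, h24, ?_⟩
  have h1 := h.d1a1_total' (F := E \ D0) Finset.sdiff_subset
  have h2 : crs (E \ D0) (insert x A0) (insert x B0) = ∅ := by
    rw [Finset.eq_empty_iff_forall_notMem]
    intro e he
    simp only [crs, Finset.mem_sdiff] at he
    refine he.1.1.2 (hc ?_)
    simp only [crs, Finset.mem_sdiff]
    exact ⟨⟨he.1.1.1, he.1.2⟩, he.2⟩
  rw [h2, Finset.card_empty, add_zero] at h1
  have h3 : (E \ D0).card + D0.card = E.card := Finset.card_sdiff_add_card_eq_card hDE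
  have h4 := hD.six_dvd
  have h5 := h.six
  omega

/-- degrees inside `AX` -/
theorem d1a1_deg_inn (E : Finset (Sym2 V)) (A : Finset V) {a : V} (ha : a ∈ A) :
    deg (inn E A) a = dg E A a := by
  rw [deg_eq_dg (U := A) (E := inn E A) Finset.inter_subset_right]
  unfold dg
  congr 1
  ext y
  simp only [Finset.mem_filter, inn, Finset.mem_inter, Finset.mk_mem_sym2_iff]
  tauto

theorem D1Env.d1a1_dgA (h : D1Env E k A0 B0 x) {a : V} (ha : a ∈ A0) :
    dg E (insert x A0) a + mis E A0 x a = 2 * k := by
  have hax : a ∈ insert x A0 := Finset.mem_insert_of_mem ha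
  have hc : ((insert x A0).erase a).card = 2 * k := by
    rw [Finset.card_erase_of_mem hax, Finset.card_insert_of_notMem h.hxA, h.cardA]
    rfl
  rw [← hc]
  unfold dg mis
  rw [← Finset.card_union_of_disjoint]
  · congr 1
    ext y
    simp only [Finset.mem_union, Finset.mem_filter, Finset.mem_erase]
    constructor
    · rintro (⟨h1, h2⟩ | ⟨h1, h2, h3⟩)
      · exact ⟨(h.loopless.ne h2).symm, h1⟩
      · exact ⟨h2, h1⟩
    · rintro ⟨h1, h2⟩
      by_cases h3 : s(a, y) ∈ E
      · exact Or.inl ⟨h2, h3⟩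
      · exact Or.inr ⟨h2, h1, h3⟩
  · rw [Finset.disjoint_left]
    intro y hy hy'
    rw [Finset.mem_filter] at hy hy'
    exact hy'.2.2 hy.2

theorem D1Env.d1a1_degA (h : D1Env E k A0 B0 x) {a : V} (ha : a ∈ A0) :
    deg E a = dg E (insert x A0) a + deg (crs E (insert x A0) (insert x B0)) a := by
  have haB : a ∉ insert x B0 := by
    rw [Finset.mem_insert, not_or]
    exact ⟨fun hh => h.hxA (hh ▸ ha), Finset.disjoint_left.1 h.disj ha⟩
  have haA : a ∈ insert x A0 := Finset.mem_insert_of_mem ha
  have hsub : inn E (insert x A0) ⊆ E := Finset.inter_subset_left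
  have hE : E = inn E (insert x A0) ∪ (E \ inn E (insert x A0)) :=
    (Finset.union_sdiff_of_subset hsub).symm
  have h1 : deg E a = deg (inn E (insert x A0)) a + deg (E \ inn E (insert x A0)) a := by
    rw [← deg_union Finset.disjoint_sdiff, ← hE]
  rw [h1, d1a1_deg_inn E _ haA]
  congr 1
  unfold deg
  congr 1
  ext e
  simp only [inn, crs, Finset.mem_filter, Finset.mem_sdiff, Finset.mem_inter]
  constructor
  · rintro ⟨⟨h2, h3⟩, h4⟩
    refine ⟨⟨⟨h2, fun h5 => h3 ⟨h2, h5⟩⟩, fun h5 => haB ?_⟩, h4⟩
    rw [Finset.mem_sym2_iff] at h5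
    exact h5 a h4
  · rintro ⟨⟨⟨h2, h3⟩, _⟩, h4⟩
    exact ⟨⟨h2, fun h5 => h3 h5.2⟩, h4⟩

theorem D1Env.mis_le (h : D1Env E k A0 B0 x) {a : V} (ha : a ∈ A0) :
    mis E A0 x a ≤ deg (crs E (insert x A0) (insert x B0)) a ∧
      (Even (mis E A0 x a) ↔ Even (deg (crs E (insert x A0) (insert x B0)) a)) := by
  have h1 := h.d1a1_dgA ha
  have h2 := h.d1a1_degA ha
  have h3 := h.mindeg a
  have h4 := h.even a
  rw [Nat.even_iff] at h4
  constructor
  · omega
  · rw [Nat.even_iff, Nat.even_iff]
    omega

theorem D1Env.clean (h : D1Env E k A0 B0 x) {a : V} (ha : a ∈ A0)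
    (hc : deg (crs E (insert x A0) (insert x B0)) a = 0) :
    ∀ v ∈ insert x A0, v ≠ a → s(a, v) ∈ E := by
  intro v hv hva
  have h1 := (h.mis_le ha).1
  rw [hc, Nat.le_zero, mis, Finset.card_eq_zero, Finset.filter_eq_empty_iff] at h1
  by_contra h2
  exact h1 hv ⟨hva, h2⟩

/-- number of edges inside `AX`: `2 N_A + ∑ m a + h_A = 2k(2k+1)`, `h_A = #{a ∈ A0 : s(x,a) ∉ E}` -/
theorem D1Env.count (h : D1Env E k A0 B0 x) :
    2 * (inn E (insert x A0)).card + (∑ a ∈ A0, mis E A0 x a) +
      (A0.filter (fun a => s(x, a) ∉ E)).card = 2 * k * (2 * k + 1) := by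
  have h1 := sum_deg (E := inn E (insert x A0)) (U := insert x A0) Finset.inter_subset_right
    (h.loopless.mono Finset.inter_subset_left)
  rw [Finset.sum_insert h.hxA, d1a1_deg_inn E _ (Finset.mem_insert_self _ _)] at h1
  have h2 : ∑ a ∈ A0, deg (inn E (insert x A0)) a + ∑ a ∈ A0, mis E A0 x a = 2 * k * (2 * k) := by
    rw [← Finset.sum_add_distrib]
    have : ∀ a ∈ A0, deg (inn E (insert x A0)) a + mis E A0 x a = 2 * k := by
      intro a ha
      rw [d1a1_deg_inn E _ (Finset.mem_insert_of_mem ha), h.d1a1_dgA ha]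
    rw [Finset.sum_congr rfl this, Finset.sum_const, h.cardA, smul_eq_mul]
  have h3 : dg E (insert x A0) x + (A0.filter (fun a => s(x, a) ∉ E)).card = 2 * k := by
    have h4 : dg E (insert x A0) x = (A0.filter (fun a => s(x, a) ∈ E)).card := by
      unfold dg
      congr 1
      ext y
      simp only [Finset.mem_filter, Finset.mem_insert]
      constructor
      · rintro ⟨h5 | h5, h6⟩
        · subst h5
          exact absurd h6 (h.loopless _)
        · exact ⟨h5, h6⟩
      · rintro ⟨h5, h6⟩
        exact ⟨Or.inr h5, h6⟩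
    rw [h4, Finset.card_filter_add_card_filter_not, h.cardA]
  rw [← h1]
  have h5 : 2 * k * (2 * k + 1) = 2 * k * (2 * k) + 2 * k := by ring
  omega

end H15C6
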