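import Pool.Agent.H15.C6.D1A1

/-!
Module D1A2 (part of D1A).  The exact case `n = 4k+1`: `V = A0 ⊔ B0 ⊔ {x}`, `|A0| = |B0| = 2k`, all degrees even and at least `2k`, at
most four edges between `A0` and `B0` (`F0 := crs E AX BX`, `AX = insert x A0`, `BX = insert x B0`).

Facts.  For `a ∈ A0` let `m a = #{v ∈ AX : v ≠ a, s(a,v) ∉ E}`; `deg a = 2k - m a + deg F0 a`, so
`m a ≤ deg F0 a` and `m a ≡ deg F0 a (mod 2)`.  A *clean* vertex (`deg F0 a = 0`) is adjacent to all other vertices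
of `AX`; at most four vertices of `A0` are not clean.
`2 |inn E AX| = ∑_{a ∈ A0} (2k - m a) + dg E A0 x`.
`d1_pass`: a six-cycle through `x` and the single cross edge `s(a,b)` with exactly `r` edges inside `AX` (and `5 - r`
inside `BX`): path from `x` to `a` of length `r` with clean private inner vertices in `A0`, path from `b` to `x` of
length `5 - r` with clean private inner vertices in `B0`.
`d1_two`: a six-cycle with two disjoint cross edges, `r` edges inside `AX` joining `a, a'` and `4 - r` inside `BX`.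
-/

open Finset

namespace H15C6

variable {V : Type} [Fintype V] [DecidableEq V] {E : Finset (Sym2 V)} {k : ℕ} {A0 B0 : Finset V}
  {x : V}

omit [Fintype V] in
theorem d1a2_inn {v : Fin 6 → V} (hv : Function.Injective v) (S : Finset V) (α : Fin 6 → Bool)
    (hα : ∀ i, v i ∈ S ↔ α i = true) :
    (inn (cyc v) S).card
      = (Finset.univ.filter (fun i : Fin 6 => (α i && α (i + 1)) = true)).card := by
  have : inn (cyc v) S = (Finset.univ.filter (fun i : Fin 6 => (α i && α (i + 1)) = true)).image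
      (fun i : Fin 6 => s(v i, v (i + 1))) := by
    ext e
    simp only [inn, Finset.mem_inter, mem_cyc, Finset.mem_image, Finset.mem_filter,
      Finset.mem_univ, true_and, Bool.and_eq_true]
    constructor
    · rintro ⟨⟨i, rfl⟩, h⟩
      rw [Finset.mk_mem_sym2_iff, hα, hα] at h
      exact ⟨i, h, rfl⟩
    · rintro ⟨i, h, rfl⟩
      refine ⟨⟨i, rfl⟩, ?_⟩
      rw [Finset.mk_mem_sym2_iff, hα, hα]
      exact h
  rw [this, Finset.card_image_of_injective _ (cyc_inj hv)]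

omit [Fintype V] in
theorem d1a2_crs (v : Fin 6 → V) (S T : Finset V) (α β : Fin 6 → Bool)
    (hα : ∀ i, v i ∈ S ↔ α i = true) (hβ : ∀ i, v i ∈ T ↔ β i = true) :
    crs (cyc v) S T = (Finset.univ.filter (fun i : Fin 6 =>
        (!(α i && α (i + 1)) && !(β i && β (i + 1))) = true)).image
      (fun i : Fin 6 => s(v i, v (i + 1))) := by
  ext e
  simp only [crs, Finset.mem_sdiff, mem_cyc, Finset.mem_image, Finset.mem_filter,
    Finset.mem_univ, true_and, Bool.and_eq_true, Bool.not_eq_true']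
  constructor
  · rintro ⟨⟨⟨i, rfl⟩, h1⟩, h2⟩
    rw [Finset.mk_mem_sym2_iff, hα, hα] at h1
    rw [Finset.mk_mem_sym2_iff, hβ, hβ] at h2
    refine ⟨i, ⟨?_, ?_⟩, rfl⟩
    · rw [← Bool.not_eq_true, Bool.and_eq_true]; exact h1
    · rw [← Bool.not_eq_true, Bool.and_eq_true]; exact h2
  · rintro ⟨i, ⟨h1, h2⟩, rfl⟩
    rw [← Bool.not_eq_true, Bool.and_eq_true] at h1 h2
    refine ⟨⟨⟨i, rfl⟩, ?_⟩, ?_⟩
    · rw [Finset.mk_mem_sym2_iff, hα, hα]; exact h1
    · rw [Finset.mk_mem_sym2_iff, hβ, hβ]; exact h2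

omit [Fintype V] [DecidableEq V] in
theorem d1a2_inj {a0 a1 a2 a3 a4 a5 : V} (h : [a0, a1, a2, a3, a4, a5].Nodup) :
    Function.Injective ![a0, a1, a2, a3, a4, a5] := by
  have h1 : List.ofFn ![a0, a1, a2, a3, a4, a5] = [a0, a1, a2, a3, a4, a5] := by
    simp [List.ofFn_succ]
  rw [← h1] at h
  exact List.nodup_ofFn.1 h

omit [Fintype V] in
theorem d1a2_T (v : Fin 6 → V) : ∃ T : Finset V, T.card ≤ 6 ∧ cyc v ⊆ T.sym2 := by
  refine ⟨Finset.univ.image v, Finset.card_image_le.trans (by simp), ?_⟩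
  intro e he
  rw [mem_cyc] at he
  obtain ⟨i, rfl⟩ := he
  rw [Finset.mk_mem_sym2_iff]
  exact ⟨Finset.mem_image_of_mem _ (Finset.mem_univ _), Finset.mem_image_of_mem _ (Finset.mem_univ _)⟩

theorem D1Env.d1a2_pick (h : D1Env E k A0 B0 x) (Z : Finset V) (hZ : Z.card ≤ 60) :
    ∃ c ∈ A0, c ∉ Z ∧ ∀ w ∈ insert x A0, w ≠ c → s(c, w) ∈ E := by
  set F0 := crs E (insert x A0) (insert x B0) with hF0
  set N := F0.biUnion (fun e => e.toFinset) with hN
  have hNc : N.card ≤ 8 := by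
    have h1 : N.card ≤ ∑ e ∈ F0, e.toFinset.card := Finset.card_biUnion_le
    have h2 : ∑ e ∈ F0, e.toFinset.card ≤ ∑ _e ∈ F0, 2 := by
      apply Finset.sum_le_sum
      intro e _
      rw [Sym2.card_toFinset]
      split_ifs <;> omega
    have h3 : F0.card ≤ 4 := h.few
    rw [Finset.sum_const, smul_eq_mul] at h2
    omega
  have hne : (A0 \ (Z ∪ N)).Nonempty := by
    rw [← Finset.card_pos]
    have h1 := Finset.le_card_sdiff (Z ∪ N) A0
    have h2 := Finset.card_union_le Z N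
    have h3 := h.cardA
    have h4 := h.big
    omega
  obtain ⟨c, hc⟩ := hne
  rw [Finset.mem_sdiff, Finset.mem_union, not_or] at hc
  refine ⟨c, hc.1, hc.2.1, h.clean hc.1 ?_⟩
  unfold deg
  rw [Finset.card_eq_zero, Finset.filter_eq_empty_iff]
  intro e he hce
  apply hc.2.2
  rw [hN, Finset.mem_biUnion]
  exact ⟨e, he, by rwa [Sym2.mem_toFinset]⟩

theorem D1Env.d1a2_three (h : D1Env E k A0 B0 x) (Z : Finset V) (hZ : Z.card ≤ 50) :
    ∃ c1 c2 c3, c1 ∈ A0 ∧ c2 ∈ A0 ∧ c3 ∈ A0 ∧ c1 ∉ Z ∧ c2 ∉ Z ∧ c3 ∉ Z ∧ c1 ≠ c2 ∧ c1 ≠ c3 ∧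
      c2 ≠ c3 ∧ (∀ w ∈ insert x A0, w ≠ c1 → s(c1, w) ∈ E) ∧
      (∀ w ∈ insert x A0, w ≠ c2 → s(c2, w) ∈ E) ∧ (∀ w ∈ insert x A0, w ≠ c3 → s(c3, w) ∈ E) := by
  obtain ⟨c1, h1, h1Z, h1E⟩ := h.d1a2_pick Z (by omega)
  obtain ⟨c2, h2, h2Z, h2E⟩ := h.d1a2_pick (insert c1 Z) (by
    have := Finset.card_insert_le c1 Z; omega)
  obtain ⟨c3, h3, h3Z, h3E⟩ := h.d1a2_pick (insert c1 (insert c2 Z)) (by
    have h4 := Finset.card_insert_le c2 Z
    have h5 := Finset.card_insert_le c1 (insert c2 Z)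
    omega)
  simp only [Finset.mem_insert, not_or] at h2Z h3Z
  exact ⟨c1, c2, c3, h1, h2, h3, h1Z, h2Z.2, h3Z.2.2, fun h => h2Z.1 h.symm,
    fun h => h3Z.1 h.symm, fun h => h3Z.2.1 h.symm, h1E, h2E, h3E⟩

theorem D1Env.d1_pass (h : D1Env E k A0 B0 x) {a b : V} (ha : a ∈ A0) (hb : b ∈ B0)
    (hab : s(a, b) ∈ E) (r : ℕ) (hr1 : 1 ≤ r) (hr4 : r ≤ 4) (h1 : r = 1 → s(x, a) ∈ E)
    (h4 : r = 4 → s(x, b) ∈ E) (Q : Finset V) (hQ : Q.card ≤ 40) :
    ∃ C ⊆ E, IsC6 C ∧ crs C (insert x A0) (insert x B0) = {s(a, b)} ∧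
      (inn C (insert x A0)).card = r ∧
      (∀ e ∈ C, e = s(a, b) ∨ (r = 1 ∧ e = s(x, a)) ∨ (r = 4 ∧ e = s(x, b)) ∨
        ∃ v ∈ e, v ∉ Q ∧ v ≠ x ∧ v ≠ a ∧ v ≠ b) ∧
      ∃ T : Finset V, T.card ≤ 6 ∧ C ⊆ T.sym2 := by
  have hZ : (Q ∪ {x, a, b}).card ≤ 50 := by
    have h5 := Finset.card_union_le Q {x, a, b}
    have h6 : ({x, a, b} : Finset V).card ≤ 3 := Finset.card_le_three
    omega
  obtain ⟨c1, c2, c3, hc1, hc2, hc3, hz1, hz2, hz3, hc12, hc13, hc23, hE1, hE2, hE3⟩ :=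
    h.d1a2_three _ hZ
  obtain ⟨d1, d2, d3, hd1, hd2, hd3, hy1, hy2, hy3, hd12, hd13, hd23, hG1, hG2, hG3⟩ :=
    h.swap.d1a2_three _ hZ
  simp only [Finset.mem_union, Finset.mem_insert, Finset.mem_singleton, not_or] at hz1 hz2 hz3 hy1 hy2 hy3
  have hAB : ∀ p ∈ A0, p ∉ B0 := fun p hp hp' => Finset.disjoint_left.1 h.disj hp hp'
  have hBA : ∀ p ∈ B0, p ∉ A0 := fun p hp hp' => Finset.disjoint_left.1 h.disj hp' hp
  have hAx : ∀ p ∈ A0, p ≠ x := fun p hp hpx => h.hxA (hpx ▸ hp)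
  have hBx : ∀ p ∈ B0, p ≠ x := fun p hp hpx => h.hxB (hpx ▸ hp)
  have hne : ∀ p ∈ A0, ∀ q ∈ B0, p ≠ q := fun p hp q hq hpq => hAB p hp (hpq ▸ hq)
  have hx0A : x ∈ insert x A0 := Finset.mem_insert_self _ _
  have hx0B : x ∈ insert x B0 := Finset.mem_insert_self _ _
  have mA : ∀ p ∈ A0, p ∈ insert x A0 := fun p hp => Finset.mem_insert_of_mem hp
  have mB : ∀ p ∈ B0, p ∈ insert x B0 := fun p hp => Finset.mem_insert_of_mem hp
  have nA : ∀ p ∈ A0, p ∉ insert x B0 := fun p hp => by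
    rw [Finset.mem_insert, not_or]; exact ⟨hAx p hp, hAB p hp⟩
  have nB : ∀ p ∈ B0, p ∉ insert x A0 := fun p hp => by
    rw [Finset.mem_insert, not_or]; exact ⟨hBx p hp, hBA p hp⟩
  obtain rfl | rfl | rfl | rfl : r = 1 ∨ r = 2 ∨ r = 3 ∨ r = 4 := by omega
  · have hinj : Function.Injective ![x, a, b, d1, d2, d3] := by
      apply d1a2_inj
      simp only [List.nodup_cons, List.mem_cons, List.not_mem_nil, or_false, not_or,
        not_false_eq_true, List.nodup_nil, and_true]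
      exact ⟨⟨(hAx a ha).symm, (hBx b hb).symm, (hBx d1 hd1).symm, (hBx d2 hd2).symm, (hBx d3 hd3).symm⟩,
        ⟨(hne a ha b hb), (hne a ha d1 hd1), (hne a ha d2 hd2), (hne a ha d3 hd3)⟩,
        ⟨(Ne.symm hy1.2.2.2), (Ne.symm hy2.2.2.2), (Ne.symm hy3.2.2.2)⟩,
        ⟨hd12, hd13⟩,
        hd23⟩
    have hα : ∀ i, (![x, a, b, d1, d2, d3] : Fin 6 → V) i ∈ insert x A0 ↔ (![true, true, false, false, false, false] : Fin 6 → Bool) i = true := by
      intro i
      fin_cases i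
      exacts [iff_of_true hx0A rfl, iff_of_true (mA a ha) rfl, iff_of_false (nB b hb) Bool.false_ne_true, iff_of_false (nB d1 hd1) Bool.false_ne_true, iff_of_false (nB d2 hd2) Bool.false_ne_true, iff_of_false (nB d3 hd3) Bool.false_ne_true]
    have hβ : ∀ i, (![x, a, b, d1, d2, d3] : Fin 6 → V) i ∈ insert x B0 ↔ (![true, false, true, true, true, true] : Fin 6 → Bool) i = true := by
      intro i
      fin_cases i
      exacts [iff_of_true hx0B rfl, iff_of_false (nA a ha) Bool.false_ne_true, iff_of_true (mB b hb) rfl, iff_of_true (mB d1 hd1) rfl, iff_of_true (mB d2 hd2) rfl, iff_of_true (mB d3 hd3) rfl]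
    have e0 : s(x, a) ∈ E := h1 rfl
    have e1 : s(a, b) ∈ E := hab
    have e2 : s(b, d1) ∈ E := by rw [Sym2.eq_swap]; exact hG1 b (mB b hb) (Ne.symm hy1.2.2.2)
    have e3 : s(d1, d2) ∈ E := hG1 d2 (mB d2 hd2) hd12.symm
    have e4 : s(d2, d3) ∈ E := hG2 d3 (mB d3 hd3) hd23.symm
    have e5 : s(d3, x) ∈ E := hG3 x hx0B (hBx d3 hd3).symm
    refine ⟨cyc ![x, a, b, d1, d2, d3], ?_, ⟨_, hinj, rfl⟩, ?_, ?_, ?_, d1a2_T _⟩
    · intro e he
      rw [mem_cyc] at he
      obtain ⟨i, rfl⟩ := he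
      fin_cases i
      exacts [e0, e1, e2, e3, e4, e5]
    · rw [d1a2_crs _ _ _ _ _ hα hβ, show (Finset.univ.filter (fun i : Fin 6 =>
        (!((![true, true, false, false, false, false] : Fin 6 → Bool) i && (![true, true, false, false, false, false] : Fin 6 → Bool) (i + 1)) &&
          !((![true, false, true, true, true, true] : Fin 6 → Bool) i && (![true, false, true, true, true, true] : Fin 6 → Bool) (i + 1))) = true)) = {1} from by decide]
      rw [Finset.image_singleton]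
      rfl
    · rw [d1a2_inn hinj _ _ hα]
      decide
    · intro e he
      rw [mem_cyc] at he
      obtain ⟨i, rfl⟩ := he
      fin_cases i
      · exact Or.inr (Or.inl ⟨rfl, rfl⟩)
      · exact Or.inl rfl
      · exact Or.inr (Or.inr (Or.inr ⟨d1, Sym2.mem_mk_right _ _, hy1⟩))
      · exact Or.inr (Or.inr (Or.inr ⟨d1, Sym2.mem_mk_left _ _, hy1⟩))
      · exact Or.inr (Or.inr (Or.inr ⟨d2, Sym2.mem_mk_left _ _, hy2⟩))
      · exact Or.inr (Or.inr (Or.inr ⟨d3, Sym2.mem_mk_left _ _, hy3⟩))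
  · have hinj : Function.Injective ![x, c1, a, b, d1, d2] := by
      apply d1a2_inj
      simp only [List.nodup_cons, List.mem_cons, List.not_mem_nil, or_false, not_or,
        not_false_eq_true, List.nodup_nil, and_true]
      exact ⟨⟨(hAx c1 hc1).symm, (hAx a ha).symm, (hBx b hb).symm, (hBx d1 hd1).symm, (hBx d2 hd2).symm⟩,
        ⟨hz1.2.2.1, (hne c1 hc1 b hb), (hne c1 hc1 d1 hd1), (hne c1 hc1 d2 hd2)⟩,
        ⟨(hne a ha b hb), (hne a ha d1 hd1), (hne a ha d2 hd2)⟩,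
        ⟨(Ne.symm hy1.2.2.2), (Ne.symm hy2.2.2.2)⟩,
        hd12⟩
    have hα : ∀ i, (![x, c1, a, b, d1, d2] : Fin 6 → V) i ∈ insert x A0 ↔ (![true, true, true, false, false, false] : Fin 6 → Bool) i = true := by
      intro i
      fin_cases i
      exacts [iff_of_true hx0A rfl, iff_of_true (mA c1 hc1) rfl, iff_of_true (mA a ha) rfl, iff_of_false (nB b hb) Bool.false_ne_true, iff_of_false (nB d1 hd1) Bool.false_ne_true, iff_of_false (nB d2 hd2) Bool.false_ne_true]
    have hβ : ∀ i, (![x, c1, a, b, d1, d2] : Fin 6 → V) i ∈ insert x B0 ↔ (![true, false, false, true, true, true] : Fin 6 → Bool) i = true := by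
      intro i
      fin_cases i
      exacts [iff_of_true hx0B rfl, iff_of_false (nA c1 hc1) Bool.false_ne_true, iff_of_false (nA a ha) Bool.false_ne_true, iff_of_true (mB b hb) rfl, iff_of_true (mB d1 hd1) rfl, iff_of_true (mB d2 hd2) rfl]
    have e0 : s(x, c1) ∈ E := by rw [Sym2.eq_swap]; exact hE1 x hx0A (hAx c1 hc1).symm
    have e1 : s(c1, a) ∈ E := hE1 a (mA a ha) (Ne.symm hz1.2.2.1)
    have e2 : s(a, b) ∈ E := hab
    have e3 : s(b, d1) ∈ E := by rw [Sym2.eq_swap]; exact hG1 b (mB b hb) (Ne.symm hy1.2.2.2)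
    have e4 : s(d1, d2) ∈ E := hG1 d2 (mB d2 hd2) hd12.symm
    have e5 : s(d2, x) ∈ E := hG2 x hx0B (hBx d2 hd2).symm
    refine ⟨cyc ![x, c1, a, b, d1, d2], ?_, ⟨_, hinj, rfl⟩, ?_, ?_, ?_, d1a2_T _⟩
    · intro e he
      rw [mem_cyc] at he
      obtain ⟨i, rfl⟩ := he
      fin_cases i
      exacts [e0, e1, e2, e3, e4, e5]
    · rw [d1a2_crs _ _ _ _ _ hα hβ, show (Finset.univ.filter (fun i : Fin 6 =>
        (!((![true, true, true, false, false, false] : Fin 6 → Bool) i && (![true, true, true, false, false, false] : Fin 6 → Bool) (i + 1)) &&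
          !((![true, false, false, true, true, true] : Fin 6 → Bool) i && (![true, false, false, true, true, true] : Fin 6 → Bool) (i + 1))) = true)) = {2} from by decide]
      rw [Finset.image_singleton]
      rfl
    · rw [d1a2_inn hinj _ _ hα]
      decide
    · intro e he
      rw [mem_cyc] at he
      obtain ⟨i, rfl⟩ := he
      fin_cases i
      · exact Or.inr (Or.inr (Or.inr ⟨c1, Sym2.mem_mk_right _ _, hz1⟩))
      · exact Or.inr (Or.inr (Or.inr ⟨c1, Sym2.mem_mk_left _ _, hz1⟩))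
      · exact Or.inl rfl
      · exact Or.inr (Or.inr (Or.inr ⟨d1, Sym2.mem_mk_right _ _, hy1⟩))
      · exact Or.inr (Or.inr (Or.inr ⟨d1, Sym2.mem_mk_left _ _, hy1⟩))
      · exact Or.inr (Or.inr (Or.inr ⟨d2, Sym2.mem_mk_left _ _, hy2⟩))
  · have hinj : Function.Injective ![x, c1, c2, a, b, d1] := by
      apply d1a2_inj
      simp only [List.nodup_cons, List.mem_cons, List.not_mem_nil, or_false, not_or,
        not_false_eq_true, List.nodup_nil, and_true]
      exact ⟨⟨(hAx c1 hc1).symm, (hAx c2 hc2).symm, (hAx a ha).symm, (hBx b hb).symm, (hBx d1 hd1).symm⟩,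
        ⟨hc12, hz1.2.2.1, (hne c1 hc1 b hb), (hne c1 hc1 d1 hd1)⟩,
        ⟨hz2.2.2.1, (hne c2 hc2 b hb), (hne c2 hc2 d1 hd1)⟩,
        ⟨(hne a ha b hb), (hne a ha d1 hd1)⟩,
        (Ne.symm hy1.2.2.2)⟩
    have hα : ∀ i, (![x, c1, c2, a, b, d1] : Fin 6 → V) i ∈ insert x A0 ↔ (![true, true, true, true, false, false] : Fin 6 → Bool) i = true := by
      intro i
      fin_cases i
      exacts [iff_of_true hx0A rfl, iff_of_true (mA c1 hc1) rfl, iff_of_true (mA c2 hc2) rfl, iff_of_true (mA a ha) rfl, iff_of_false (nB b hb) Bool.false_ne_true, iff_of_false (nB d1 hd1) Bool.false_ne_true]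
    have hβ : ∀ i, (![x, c1, c2, a, b, d1] : Fin 6 → V) i ∈ insert x B0 ↔ (![true, false, false, false, true, true] : Fin 6 → Bool) i = true := by
      intro i
      fin_cases i
      exacts [iff_of_true hx0B rfl, iff_of_false (nA c1 hc1) Bool.false_ne_true, iff_of_false (nA c2 hc2) Bool.false_ne_true, iff_of_false (nA a ha) Bool.false_ne_true, iff_of_true (mB b hb) rfl, iff_of_true (mB d1 hd1) rfl]
    have e0 : s(x, c1) ∈ E := by rw [Sym2.eq_swap]; exact hE1 x hx0A (hAx c1 hc1).symm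
    have e1 : s(c1, c2) ∈ E := hE1 c2 (mA c2 hc2) hc12.symm
    have e2 : s(c2, a) ∈ E := hE2 a (mA a ha) (Ne.symm hz2.2.2.1)
    have e3 : s(a, b) ∈ E := hab
    have e4 : s(b, d1) ∈ E := by rw [Sym2.eq_swap]; exact hG1 b (mB b hb) (Ne.symm hy1.2.2.2)
    have e5 : s(d1, x) ∈ E := hG1 x hx0B (hBx d1 hd1).symm
    refine ⟨cyc ![x, c1, c2, a, b, d1], ?_, ⟨_, hinj, rfl⟩, ?_, ?_, ?_, d1a2_T _⟩
    · intro e he
      rw [mem_cyc] at he
      obtain ⟨i, rfl⟩ := he
      fin_cases i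
      exacts [e0, e1, e2, e3, e4, e5]
    · rw [d1a2_crs _ _ _ _ _ hα hβ, show (Finset.univ.filter (fun i : Fin 6 =>
        (!((![true, true, true, true, false, false] : Fin 6 → Bool) i && (![true, true, true, true, false, false] : Fin 6 → Bool) (i + 1)) &&
          !((![true, false, false, false, true, true] : Fin 6 → Bool) i && (![true, false, false, false, true, true] : Fin 6 → Bool) (i + 1))) = true)) = {3} from by decide]
      rw [Finset.image_singleton]
      rfl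
    · rw [d1a2_inn hinj _ _ hα]
      decide
    · intro e he
      rw [mem_cyc] at he
      obtain ⟨i, rfl⟩ := he
      fin_cases i
      · exact Or.inr (Or.inr (Or.inr ⟨c1, Sym2.mem_mk_right _ _, hz1⟩))
      · exact Or.inr (Or.inr (Or.inr ⟨c1, Sym2.mem_mk_left _ _, hz1⟩))
      · exact Or.inr (Or.inr (Or.inr ⟨c2, Sym2.mem_mk_left _ _, hz2⟩))
      · exact Or.inl rfl
      · exact Or.inr (Or.inr (Or.inr ⟨d1, Sym2.mem_mk_right _ _, hy1⟩))
      · exact Or.inr (Or.inr (Or.inr ⟨d1, Sym2.mem_mk_left _ _, hy1⟩))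
  · have hinj : Function.Injective ![x, c1, c2, c3, a, b] := by
      apply d1a2_inj
      simp only [List.nodup_cons, List.mem_cons, List.not_mem_nil, or_false, not_or,
        not_false_eq_true, List.nodup_nil, and_true]
      exact ⟨⟨(hAx c1 hc1).symm, (hAx c2 hc2).symm, (hAx c3 hc3).symm, (hAx a ha).symm, (hBx b hb).symm⟩,
        ⟨hc12, hc13, hz1.2.2.1, (hne c1 hc1 b hb)⟩,
        ⟨hc23, hz2.2.2.1, (hne c2 hc2 b hb)⟩,
        ⟨hz3.2.2.1, (hne c3 hc3 b hb)⟩,
        (hne a ha b hb)⟩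
    have hα : ∀ i, (![x, c1, c2, c3, a, b] : Fin 6 → V) i ∈ insert x A0 ↔ (![true, true, true, true, true, false] : Fin 6 → Bool) i = true := by
      intro i
      fin_cases i
      exacts [iff_of_true hx0A rfl, iff_of_true (mA c1 hc1) rfl, iff_of_true (mA c2 hc2) rfl, iff_of_true (mA c3 hc3) rfl, iff_of_true (mA a ha) rfl, iff_of_false (nB b hb) Bool.false_ne_true]
    have hβ : ∀ i, (![x, c1, c2, c3, a, b] : Fin 6 → V) i ∈ insert x B0 ↔ (![true, false, false, false, false, true] : Fin 6 → Bool) i = true := by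
      intro i
      fin_cases i
      exacts [iff_of_true hx0B rfl, iff_of_false (nA c1 hc1) Bool.false_ne_true, iff_of_false (nA c2 hc2) Bool.false_ne_true, iff_of_false (nA c3 hc3) Bool.false_ne_true, iff_of_false (nA a ha) Bool.false_ne_true, iff_of_true (mB b hb) rfl]
    have e0 : s(x, c1) ∈ E := by rw [Sym2.eq_swap]; exact hE1 x hx0A (hAx c1 hc1).symm
    have e1 : s(c1, c2) ∈ E := hE1 c2 (mA c2 hc2) hc12.symm
    have e2 : s(c2, c3) ∈ E := hE2 c3 (mA c3 hc3) hc23.symm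
    have e3 : s(c3, a) ∈ E := hE3 a (mA a ha) (Ne.symm hz3.2.2.1)
    have e4 : s(a, b) ∈ E := hab
    have e5 : s(b, x) ∈ E := by rw [Sym2.eq_swap]; exact h4 rfl
    refine ⟨cyc ![x, c1, c2, c3, a, b], ?_, ⟨_, hinj, rfl⟩, ?_, ?_, ?_, d1a2_T _⟩
    · intro e he
      rw [mem_cyc] at he
      obtain ⟨i, rfl⟩ := he
      fin_cases i
      exacts [e0, e1, e2, e3, e4, e5]
    · rw [d1a2_crs _ _ _ _ _ hα hβ, show (Finset.univ.filter (fun i : Fin 6 =>
        (!((![true, true, true, true, true, false] : Fin 6 → Bool) i && (![true, true, true, true, true, false] : Fin 6 → Bool) (i + 1)) &&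
          !((![true, false, false, false, false, true] : Fin 6 → Bool) i && (![true, false, false, false, false, true] : Fin 6 → Bool) (i + 1))) = true)) = {4} from by decide]
      rw [Finset.image_singleton]
      rfl
    · rw [d1a2_inn hinj _ _ hα]
      decide
    · intro e he
      rw [mem_cyc] at he
      obtain ⟨i, rfl⟩ := he
      fin_cases i
      · exact Or.inr (Or.inr (Or.inr ⟨c1, Sym2.mem_mk_right _ _, hz1⟩))
      · exact Or.inr (Or.inr (Or.inr ⟨c1, Sym2.mem_mk_left _ _, hz1⟩))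
      · exact Or.inr (Or.inr (Or.inr ⟨c2, Sym2.mem_mk_left _ _, hz2⟩))
      · exact Or.inr (Or.inr (Or.inr ⟨c3, Sym2.mem_mk_left _ _, hz3⟩))
      · exact Or.inl rfl
      · exact Or.inr (Or.inr (Or.inl ⟨rfl, Sym2.eq_swap⟩))

theorem D1Env.d1_two (h : D1Env E k A0 B0 x) {a b a' b' : V} (ha : a ∈ A0) (hb : b ∈ B0)
    (ha' : a' ∈ A0) (hb' : b' ∈ B0) (haa : a ≠ a') (hbb : b ≠ b')
    (hab : s(a, b) ∈ E) (hab' : s(a', b') ∈ E) (r : ℕ) (hr1 : 1 ≤ r) (hr3 : r ≤ 3)
    (h1 : r = 1 → s(a, a') ∈ E) (h3 : r = 3 → s(b, b') ∈ E) (Q : Finset V) (hQ : Q.card ≤ 40) :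
    ∃ C ⊆ E, IsC6 C ∧ crs C (insert x A0) (insert x B0) = {s(a, b), s(a', b')} ∧
      (inn C (insert x A0)).card = r ∧
      (∀ e ∈ C, e = s(a, b) ∨ e = s(a', b') ∨ (r = 1 ∧ e = s(a, a')) ∨ (r = 3 ∧ e = s(b, b')) ∨
        ∃ v ∈ e, v ∉ Q ∧ v ≠ x ∧ v ≠ a ∧ v ≠ b ∧ v ≠ a' ∧ v ≠ b') ∧
      ∃ T : Finset V, T.card ≤ 6 ∧ C ⊆ T.sym2 := by
  have hZ : (Q ∪ {x, a, b, a', b'}).card ≤ 50 := by
    have h5 := Finset.card_union_le Q {x, a, b, a', b'}
    have h6 : ({x, a, b, a', b'} : Finset V).card ≤ 5 := Finset.card_le_five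
    omega
  obtain ⟨c1, c2, c3, hc1, hc2, hc3, hz1, hz2, hz3, hc12, hc13, hc23, hE1, hE2, hE3⟩ :=
    h.d1a2_three _ hZ
  obtain ⟨d1, d2, d3, hd1, hd2, hd3, hy1, hy2, hy3, hd12, hd13, hd23, hG1, hG2, hG3⟩ :=
    h.swap.d1a2_three _ hZ
  simp only [Finset.mem_union, Finset.mem_insert, Finset.mem_singleton, not_or] at hz1 hz2 hz3 hy1 hy2 hy3
  have hAB : ∀ p ∈ A0, p ∉ B0 := fun p hp hp' => Finset.disjoint_left.1 h.disj hp hp'
  have hBA : ∀ p ∈ B0, p ∉ A0 := fun p hp hp' => Finset.disjoint_left.1 h.disj hp' hp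
  have hAx : ∀ p ∈ A0, p ≠ x := fun p hp hpx => h.hxA (hpx ▸ hp)
  have hBx : ∀ p ∈ B0, p ≠ x := fun p hp hpx => h.hxB (hpx ▸ hp)
  have hne : ∀ p ∈ A0, ∀ q ∈ B0, p ≠ q := fun p hp q hq hpq => hAB p hp (hpq ▸ hq)
  have hx0A : x ∈ insert x A0 := Finset.mem_insert_self _ _
  have hx0B : x ∈ insert x B0 := Finset.mem_insert_self _ _
  have mA : ∀ p ∈ A0, p ∈ insert x A0 := fun p hp => Finset.mem_insert_of_mem hp
  have mB : ∀ p ∈ B0, p ∈ insert x B0 := fun p hp => Finset.mem_insert_of_mem hp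
  have nA : ∀ p ∈ A0, p ∉ insert x B0 := fun p hp => by
    rw [Finset.mem_insert, not_or]; exact ⟨hAx p hp, hAB p hp⟩
  have nB : ∀ p ∈ B0, p ∉ insert x A0 := fun p hp => by
    rw [Finset.mem_insert, not_or]; exact ⟨hBx p hp, hBA p hp⟩
  obtain rfl | rfl | rfl : r = 1 ∨ r = 2 ∨ r = 3 := by omega
  · have hinj : Function.Injective ![a, b, d1, d2, b', a'] := by
      apply d1a2_inj
      simp only [List.nodup_cons, List.mem_cons, List.not_mem_nil, or_false, not_or,
        not_false_eq_true, List.nodup_nil, and_true]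
      exact ⟨⟨(hne a ha b hb), (hne a ha d1 hd1), (hne a ha d2 hd2), (hne a ha b' hb'), haa⟩,
        ⟨(Ne.symm hy1.2.2.2.1), (Ne.symm hy2.2.2.2.1), hbb, (hne a' ha' b hb).symm⟩,
        ⟨hd12, hy1.2.2.2.2.2, (hne a' ha' d1 hd1).symm⟩,
        ⟨hy2.2.2.2.2.2, (hne a' ha' d2 hd2).symm⟩,
        (hne a' ha' b' hb').symm⟩
    have hα : ∀ i, (![a, b, d1, d2, b', a'] : Fin 6 → V) i ∈ insert x A0 ↔ (![true, false, false, false, false, true] : Fin 6 → Bool) i = true := by
      intro i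
      fin_cases i
      exacts [iff_of_true (mA a ha) rfl, iff_of_false (nB b hb) Bool.false_ne_true, iff_of_false (nB d1 hd1) Bool.false_ne_true, iff_of_false (nB d2 hd2) Bool.false_ne_true, iff_of_false (nB b' hb') Bool.false_ne_true, iff_of_true (mA a' ha') rfl]
    have hβ : ∀ i, (![a, b, d1, d2, b', a'] : Fin 6 → V) i ∈ insert x B0 ↔ (![false, true, true, true, true, false] : Fin 6 → Bool) i = true := by
      intro i
      fin_cases i
      exacts [iff_of_false (nA a ha) Bool.false_ne_true, iff_of_true (mB b hb) rfl, iff_of_true (mB d1 hd1) rfl, iff_of_true (mB d2 hd2) rfl, iff_of_true (mB b' hb') rfl, iff_of_false (nA a' ha') Bool.false_ne_true]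
    have e0 : s(a, b) ∈ E := hab
    have e1 : s(b, d1) ∈ E := by rw [Sym2.eq_swap]; exact hG1 b (mB b hb) (Ne.symm hy1.2.2.2.1)
    have e2 : s(d1, d2) ∈ E := hG1 d2 (mB d2 hd2) hd12.symm
    have e3 : s(d2, b') ∈ E := hG2 b' (mB b' hb') (Ne.symm hy2.2.2.2.2.2)
    have e4 : s(b', a') ∈ E := by rw [Sym2.eq_swap]; exact hab'
    have e5 : s(a', a) ∈ E := by rw [Sym2.eq_swap]; exact h1 rfl
    refine ⟨cyc ![a, b, d1, d2, b', a'], ?_, ⟨_, hinj, rfl⟩, ?_, ?_, ?_, d1a2_T _⟩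
    · intro e he
      rw [mem_cyc] at he
      obtain ⟨i, rfl⟩ := he
      fin_cases i
      exacts [e0, e1, e2, e3, e4, e5]
    · rw [d1a2_crs _ _ _ _ _ hα hβ, show (Finset.univ.filter (fun i : Fin 6 =>
        (!((![true, false, false, false, false, true] : Fin 6 → Bool) i && (![true, false, false, false, false, true] : Fin 6 → Bool) (i + 1)) &&
          !((![false, true, true, true, true, false] : Fin 6 → Bool) i && (![false, true, true, true, true, false] : Fin 6 → Bool) (i + 1))) = true)) = {0, 4} from by decide]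
      rw [Finset.image_insert, Finset.image_singleton]
      show ({s(a, b), s(b', a')} : Finset (Sym2 V)) = {s(a, b), s(a', b')}
      rw [Sym2.eq_swap (a := b') (b := a')]
    · rw [d1a2_inn hinj _ _ hα]
      decide
    · intro e he
      rw [mem_cyc] at he
      obtain ⟨i, rfl⟩ := he
      fin_cases i
      · exact Or.inl rfl
      · exact Or.inr (Or.inr (Or.inr (Or.inr ⟨d1, Sym2.mem_mk_right _ _, hy1⟩)))
      · exact Or.inr (Or.inr (Or.inr (Or.inr ⟨d1, Sym2.mem_mk_left _ _, hy1⟩)))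
      · exact Or.inr (Or.inr (Or.inr (Or.inr ⟨d2, Sym2.mem_mk_left _ _, hy2⟩)))
      · exact Or.inr (Or.inl Sym2.eq_swap)
      · exact Or.inr (Or.inr (Or.inl ⟨rfl, Sym2.eq_swap⟩))
  · have hinj : Function.Injective ![a, b, d1, b', a', c1] := by
      apply d1a2_inj
      simp only [List.nodup_cons, List.mem_cons, List.not_mem_nil, or_false, not_or,
        not_false_eq_true, List.nodup_nil, and_true]
      exact ⟨⟨(hne a ha b hb), (hne a ha d1 hd1), (hne a ha b' hb'), haa, (Ne.symm hz1.2.2.1)⟩,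
        ⟨(Ne.symm hy1.2.2.2.1), hbb, (hne a' ha' b hb).symm, (hne c1 hc1 b hb).symm⟩,
        ⟨hy1.2.2.2.2.2, (hne a' ha' d1 hd1).symm, (hne c1 hc1 d1 hd1).symm⟩,
        ⟨(hne a' ha' b' hb').symm, (hne c1 hc1 b' hb').symm⟩,
        (Ne.symm hz1.2.2.2.2.1)⟩
    have hα : ∀ i, (![a, b, d1, b', a', c1] : Fin 6 → V) i ∈ insert x A0 ↔ (![true, false, false, false, true, true] : Fin 6 → Bool) i = true := by
      intro i
      fin_cases i
      exacts [iff_of_true (mA a ha) rfl, iff_of_false (nB b hb) Bool.false_ne_true, iff_of_false (nB d1 hd1) Bool.false_ne_true, iff_of_false (nB b' hb') Bool.false_ne_true, iff_of_true (mA a' ha') rfl, iff_of_true (mA c1 hc1) rfl]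
    have hβ : ∀ i, (![a, b, d1, b', a', c1] : Fin 6 → V) i ∈ insert x B0 ↔ (![false, true, true, true, false, false] : Fin 6 → Bool) i = true := by
      intro i
      fin_cases i
      exacts [iff_of_false (nA a ha) Bool.false_ne_true, iff_of_true (mB b hb) rfl, iff_of_true (mB d1 hd1) rfl, iff_of_true (mB b' hb') rfl, iff_of_false (nA a' ha') Bool.false_ne_true, iff_of_false (nA c1 hc1) Bool.false_ne_true]
    have e0 : s(a, b) ∈ E := hab
    have e1 : s(b, d1) ∈ E := by rw [Sym2.eq_swap]; exact hG1 b (mB b hb) (Ne.symm hy1.2.2.2.1)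
    have e2 : s(d1, b') ∈ E := hG1 b' (mB b' hb') (Ne.symm hy1.2.2.2.2.2)
    have e3 : s(b', a') ∈ E := by rw [Sym2.eq_swap]; exact hab'
    have e4 : s(a', c1) ∈ E := by rw [Sym2.eq_swap]; exact hE1 a' (mA a' ha') (Ne.symm hz1.2.2.2.2.1)
    have e5 : s(c1, a) ∈ E := hE1 a (mA a ha) (Ne.symm hz1.2.2.1)
    refine ⟨cyc ![a, b, d1, b', a', c1], ?_, ⟨_, hinj, rfl⟩, ?_, ?_, ?_, d1a2_T _⟩
    · intro e he
      rw [mem_cyc] at he
      obtain ⟨i, rfl⟩ := he
      fin_cases i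
      exacts [e0, e1, e2, e3, e4, e5]
    · rw [d1a2_crs _ _ _ _ _ hα hβ, show (Finset.univ.filter (fun i : Fin 6 =>
        (!((![true, false, false, false, true, true] : Fin 6 → Bool) i && (![true, false, false, false, true, true] : Fin 6 → Bool) (i + 1)) &&
          !((![false, true, true, true, false, false] : Fin 6 → Bool) i && (![false, true, true, true, false, false] : Fin 6 → Bool) (i + 1))) = true)) = {0, 3} from by decide]
      rw [Finset.image_insert, Finset.image_singleton]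
      show ({s(a, b), s(b', a')} : Finset (Sym2 V)) = {s(a, b), s(a', b')}
      rw [Sym2.eq_swap (a := b') (b := a')]
    · rw [d1a2_inn hinj _ _ hα]
      decide
    · intro e he
      rw [mem_cyc] at he
      obtain ⟨i, rfl⟩ := he
      fin_cases i
      · exact Or.inl rfl
      · exact Or.inr (Or.inr (Or.inr (Or.inr ⟨d1, Sym2.mem_mk_right _ _, hy1⟩)))
      · exact Or.inr (Or.inr (Or.inr (Or.inr ⟨d1, Sym2.mem_mk_left _ _, hy1⟩)))
      · exact Or.inr (Or.inl Sym2.eq_swap)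
      · exact Or.inr (Or.inr (Or.inr (Or.inr ⟨c1, Sym2.mem_mk_right _ _, hz1⟩)))
      · exact Or.inr (Or.inr (Or.inr (Or.inr ⟨c1, Sym2.mem_mk_left _ _, hz1⟩)))
  · have hinj : Function.Injective ![a, b, b', a', c1, c2] := by
      apply d1a2_inj
      simp only [List.nodup_cons, List.mem_cons, List.not_mem_nil, or_false, not_or,
        not_false_eq_true, List.nodup_nil, and_true]
      exact ⟨⟨(hne a ha b hb), (hne a ha b' hb'), haa, (Ne.symm hz1.2.2.1), (Ne.symm hz2.2.2.1)⟩,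
        ⟨hbb, (hne a' ha' b hb).symm, (hne c1 hc1 b hb).symm, (hne c2 hc2 b hb).symm⟩,
        ⟨(hne a' ha' b' hb').symm, (hne c1 hc1 b' hb').symm, (hne c2 hc2 b' hb').symm⟩,
        ⟨(Ne.symm hz1.2.2.2.2.1), (Ne.symm hz2.2.2.2.2.1)⟩,
        hc12⟩
    have hα : ∀ i, (![a, b, b', a', c1, c2] : Fin 6 → V) i ∈ insert x A0 ↔ (![true, false, false, true, true, true] : Fin 6 → Bool) i = true := by
      intro i
      fin_cases i
      exacts [iff_of_true (mA a ha) rfl, iff_of_false (nB b hb) Bool.false_ne_true, iff_of_false (nB b' hb') Bool.false_ne_true, iff_of_true (mA a' ha') rfl, iff_of_true (mA c1 hc1) rfl, iff_of_true (mA c2 hc2) rfl]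
    have hβ : ∀ i, (![a, b, b', a', c1, c2] : Fin 6 → V) i ∈ insert x B0 ↔ (![false, true, true, false, false, false] : Fin 6 → Bool) i = true := by
      intro i
      fin_cases i
      exacts [iff_of_false (nA a ha) Bool.false_ne_true, iff_of_true (mB b hb) rfl, iff_of_true (mB b' hb') rfl, iff_of_false (nA a' ha') Bool.false_ne_true, iff_of_false (nA c1 hc1) Bool.false_ne_true, iff_of_false (nA c2 hc2) Bool.false_ne_true]
    have e0 : s(a, b) ∈ E := hab
    have e1 : s(b, b') ∈ E := h3 rfl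
    have e2 : s(b', a') ∈ E := by rw [Sym2.eq_swap]; exact hab'
    have e3 : s(a', c1) ∈ E := by rw [Sym2.eq_swap]; exact hE1 a' (mA a' ha') (Ne.symm hz1.2.2.2.2.1)
    have e4 : s(c1, c2) ∈ E := hE1 c2 (mA c2 hc2) hc12.symm
    have e5 : s(c2, a) ∈ E := hE2 a (mA a ha) (Ne.symm hz2.2.2.1)
    refine ⟨cyc ![a, b, b', a', c1, c2], ?_, ⟨_, hinj, rfl⟩, ?_, ?_, ?_, d1a2_T _⟩
    · intro e he
      rw [mem_cyc] at he
      obtain ⟨i, rfl⟩ := he
      fin_cases i
      exacts [e0, e1, e2, e3, e4, e5]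
    · rw [d1a2_crs _ _ _ _ _ hα hβ, show (Finset.univ.filter (fun i : Fin 6 =>
        (!((![true, false, false, true, true, true] : Fin 6 → Bool) i && (![true, false, false, true, true, true] : Fin 6 → Bool) (i + 1)) &&
          !((![false, true, true, false, false, false] : Fin 6 → Bool) i && (![false, true, true, false, false, false] : Fin 6 → Bool) (i + 1))) = true)) = {0, 2} from by decide]
      rw [Finset.image_insert, Finset.image_singleton]
      show ({s(a, b), s(b', a')} : Finset (Sym2 V)) = {s(a, b), s(a', b')}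
      rw [Sym2.eq_swap (a := b') (b := a')]
    · rw [d1a2_inn hinj _ _ hα]
      decide
    · intro e he
      rw [mem_cyc] at he
      obtain ⟨i, rfl⟩ := he
      fin_cases i
      · exact Or.inl rfl
      · exact Or.inr (Or.inr (Or.inr (Or.inl ⟨rfl, rfl⟩)))
      · exact Or.inr (Or.inl Sym2.eq_swap)
      · exact Or.inr (Or.inr (Or.inr (Or.inr ⟨c1, Sym2.mem_mk_right _ _, hz1⟩)))
      · exact Or.inr (Or.inr (Or.inr (Or.inr ⟨c1, Sym2.mem_mk_left _ _, hz1⟩)))
      · exact Or.inr (Or.inr (Or.inr (Or.inr ⟨c2, Sym2.mem_mk_left _ _, hz2⟩)))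

end H15C6
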