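import Pool.Agent.H15.C6.EDefs

/-!
Module D1A0 (part of D1A).  The exact case `n = 4k+1`: `V = A0 ⊔ B0 ⊔ {x}`, `|A0| = |B0| = 2k`, all degrees even and at least `2k`, at
most four edges between `A0` and `B0` (`F0 := crs E AX BX`, `AX = insert x A0`, `BX = insert x B0`).

Facts.  For `a ∈ A0` let `m a = #{v ∈ AX : v ≠ a, s(a,v) ∉ E}`; `deg a = 2k - m a + deg F0 a`, so
`m a ≤ deg F0 a` and `m a ≡ deg F0 a (mod 2)`.  A *clean* vertex (`deg F0 a = 0`) is adjacent to all other vertices
of `AX`; at most four vertices of `A0` are not clean.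
`2 |inn E AX| = ∑_{a ∈ A0} (2k - m a) + dg E A0 x`.
`d1_pass`: a six-cycle through `x` and the single cross edge `s(a,b)` with exactly `r` edges inside `AX` (and `5 - r`
inside `BX`): path from `x` to `a` of length `r` with clean private inner vertices in `A0`, path from `b` to `x` of
length `5 - r` with clean private inner vertices in `B0`.
`d1_two`: a six-cycle with two disjoint cross edges, `r` edges inside `AX` joining `a, a'` and `4 - r` inside `BX`.
-/

open Finset

namespace H15C6

variable {V : Type} [Fintype V] [DecidableEq V] {E : Finset (Sym2 V)} {k : ℕ} {A0 B0 : Finset V}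
  {x : V}

structure D1Env {V : Type} [Fintype V] [DecidableEq V] (E : Finset (Sym2 V)) (k : ℕ)
    (A0 B0 : Finset V) (x : V) : Prop where
  disj : Disjoint A0 B0
  hxA : x ∉ A0
  hxB : x ∉ B0
  cover : insert x (A0 ∪ B0) = Finset.univ
  cardA : A0.card = 2 * k
  cardB : B0.card = 2 * k
  loopless : Loopless E
  even : EvenDeg E
  six : 6 ∣ E.card
  mindeg : ∀ v, 2 * k ≤ deg E v
  few : (crs E (insert x A0) (insert x B0)).card ≤ 4
  big : 40 ≤ k

/-- the goal of the exact case -/
def D1Goal {V : Type} [DecidableEq V] (E : Finset (Sym2 V)) (A0 B0 : Finset V) (x : V) : Prop :=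
  ∃ D0 ⊆ E, Dec D0 ∧ crs E (insert x A0) (insert x B0) ⊆ D0 ∧ D0.card ≤ 24 ∧
    6 ∣ (inn (E \ D0) (insert x A0)).card

/-- missing inner edges at `a` -/
def mis (E : Finset (Sym2 V)) (A0 : Finset V) (x a : V) : ℕ :=
  ((insert x A0).filter (fun v => v ≠ a ∧ s(a, v) ∉ E)).card

end H15C6
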