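import Pool.Agent.H15.C6.D1A

/-!
Module D1B.  The exact case with `f = |F0| ≤ 2` edges between `A0` and `B0`.
Write `N_A = |inn E AX|`, `h_A = #{a ∈ A0 : s(x,a) ∉ E}`, `m` = `mis`, `2 N_A + ∑ m + h_A = 2k(2k+1)`,
`N_A + N_B + f = |E| ≡ 0 (mod 6)`.  A missing pair inside `AX` has all its ends in `A0` non-clean.

* `f = 0`: all `m = 0`, `h_A = h_B = 0`, `N_A = N_B = k(2k+1)`, `6 ∣ 2k(2k+1)`, and by `hmod` `k` is even or
  `3 ∤`..: `3 ∣ k(2k+1)`; if `k` is odd then `k ≡ 1, 3 (mod 6)`, so `4k+1 ≡ 5, 13 (mod 24)`, excluded.  `D0 = ∅`.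
* `f = 1`, `F0 = {ab}`: `m a = 1`, the missing neighbour of `a` must be `x`; same for `b`; `N_A = N_B = k(2k+1) - 1`,
  `|E| = 2k(2k+1) - 1` odd: contradiction.
* `f = 2`, edges `a1b1, a2b2` disjoint.  On the A side either `a1a2 ∉ E` and `x` adjacent to both (`N_A = k(2k+1) - 1`)
  or `a1a2 ∈ E` and `x` adjacent to neither (`N_A = k(2k+1) - 2`); the same for B; as `|E|` is even both sides
  are of the same kind.  First kind: two passes with `r1, r2 ∈ {1,2,3,4}`: all sums `2..8`, all residues.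
  Second kind: two passes with `r1, r2 ∈ {2,3}`: sums 4, 5, 6; `d1_two` with `r = 1, 2, 3`: all residues.
* `f = 2`, `F0 = {ab1, ab2}` (or symmetric: use `goal_swap`): `m a` is even and `≤ 1` (only `x` is available),
  so `m a = 0`, `N_A = k(2k+1)`; B side: either `b1b2` missing (`|missing| = 1`) or `x` not adjacent to
  `b1, b2` (2 missing, `N_B = k(2k+1) - 2`); `|E|` even forces the latter.  `|E| = 2k(2k+1)`, so
  `3 ∣ k(2k+1)` and `N_A ≡ 0, 3 (mod 6)`: passes with `(r1,r2) = (1,2)`: sum 3, or `(3,3)`: sum 6.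
For disjointness of two passes apply `d1_pass` twice, the second time with `Q ⊇ T` of the first.
-/

set_option linter.unusedSectionVars false

open Finset

namespace H15C6

variable {V : Type} [Fintype V] [DecidableEq V] {E : Finset (Sym2 V)} {k : ℕ} {A0 B0 : Finset V}
  {x : V}

/-! ### partial systems of cycles -/

/-- a union `D` of `m` disjoint six-cycles of `E` with set of cross edges `S` and `ρ` edges inside
`AX`, using no edge `x q` with `q ∈ W` -/
structure D1P (E : Finset (Sym2 V)) (A0 B0 : Finset V) (x : V) (D S : Finset (Sym2 V)) (ρ m : ℕ)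
    (W : Finset V) : Prop where
  sub : D ⊆ E
  dec : Dec D
  crsD : crs D (insert x A0) (insert x B0) = S
  innD : (inn D (insert x A0)).card = ρ
  cardD : D.card = 6 * m
  spt : ∃ T : Finset V, T.card ≤ 6 * m ∧ D ⊆ T.sym2
  prot : ∀ q ∈ W, s(x, q) ∉ D

theorem D1P.zero (E : Finset (Sym2 V)) (A0 B0 : Finset V) (x : V) (W : Finset V) :
    D1P E A0 B0 x ∅ ∅ 0 0 W where
  sub := empty_subset _
  dec := Dec.empty
  crsD := by simp [crs]
  innD := by simp [inn]
  cardD := by simp
  spt := ⟨∅, by simp, by simp⟩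
  prot := by simp

theorem d1b_crs_union (D C : Finset (Sym2 V)) (A B : Finset V) :
    crs (D ∪ C) A B = crs D A B ∪ crs C A B := by
  unfold crs
  rw [union_sdiff_distrib, union_sdiff_distrib]

theorem d1b_inn_union {D C : Finset (Sym2 V)} (h : Disjoint D C) (A : Finset V) :
    (inn (D ∪ C) A).card = (inn D A).card + (inn C A).card := by
  unfold inn
  rw [union_inter_distrib_right, card_union_of_disjoint]
  exact h.mono inter_subset_left inter_subset_left

theorem D1Env.crs_mem (h : D1Env E k A0 B0 x) {D : Finset (Sym2 V)} {a b : V} (ha : a ∈ A0)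
    (hb : b ∈ B0) (hD : s(a, b) ∈ D) : s(a, b) ∈ crs D (insert x A0) (insert x B0) := by
  have hb' : b ∉ insert x A0 := by
    rw [mem_insert, not_or]
    exact ⟨fun hh => h.hxB (hh ▸ hb), fun hh => (disjoint_left.1 h.disj) hh hb⟩
  have ha' : a ∉ insert x B0 := by
    rw [mem_insert, not_or]
    exact ⟨fun hh => h.hxA (hh ▸ ha), fun hh => (disjoint_left.1 h.disj) ha hh⟩
  unfold crs
  rw [mem_sdiff, mem_sdiff, mk_mem_sym2_iff, mk_mem_sym2_iff]
  exact ⟨⟨hD, fun hh => hb' hh.2⟩, fun hh => ha' hh.1⟩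

theorem D1P.pass (h : D1Env E k A0 B0 x) {D S : Finset (Sym2 V)} {ρ m : ℕ} {W : Finset V}
    (hP : D1P E A0 B0 x D S ρ m W) (hm : m ≤ 4) {a b : V} (ha : a ∈ A0) (hb : b ∈ B0)
    (hab : s(a, b) ∈ E) (hS : s(a, b) ∉ S) (r : ℕ) (hr1 : 1 ≤ r) (hr4 : r ≤ 4)
    (h1 : r = 1 → s(x, a) ∈ E ∧ a ∈ W) (h4 : r = 4 → s(x, b) ∈ E ∧ b ∈ W) (W' : Finset V)
    (hW : W' ⊆ W) (hWc : W'.card ≤ 8) (hW1 : r = 1 → a ∉ W') (hW4 : r = 4 → b ∉ W') :
    ∃ D', D1P E A0 B0 x D' (insert s(a, b) S) (ρ + r) (m + 1) W' := by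
  obtain ⟨T, hTc, hT⟩ := hP.spt
  obtain ⟨C, hCE, hC6, hCc, hCi, hCe, T', hT'c, hT'⟩ := h.d1_pass ha hb hab r hr1 hr4
    (fun hh => (h1 hh).1) (fun hh => (h4 hh).1) (T ∪ W') ((card_union_le _ _).trans (by omega))
  have hdis : Disjoint D C := by
    rw [disjoint_left]
    intro e heD heC
    rcases hCe e heC with rfl | ⟨hr, rfl⟩ | ⟨hr, rfl⟩ | ⟨v, hv, hvQ, _⟩
    · exact hS (hP.crsD ▸ h.crs_mem ha hb heD)
    · exact hP.prot a (h1 hr).2 heD
    · exact hP.prot b (h4 hr).2 heD
    · rw [mem_union, not_or] at hvQ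
      exact hvQ.1 (mem_sym2_iff.1 (hT heD) v hv)
  refine ⟨D ∪ C, union_subset hP.sub hCE, hP.dec.union hC6.dec hdis, ?_, ?_, ?_, ?_, ?_⟩
  · rw [d1b_crs_union, hP.crsD, hCc, union_comm]
    rfl
  · rw [d1b_inn_union hdis, hP.innD, hCi]
  · rw [card_union_of_disjoint hdis, hP.cardD, hC6.card]
    ring
  · refine ⟨T ∪ T', (card_union_le _ _).trans (by omega), union_subset ?_ ?_⟩
    · exact hT.trans (sym2_mono subset_union_left)
    · exact hT'.trans (sym2_mono subset_union_right)
  · intro q hq hqD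
    rw [mem_union] at hqD
    rcases hqD with hqD | hqC
    · exact hP.prot q (hW hq) hqD
    · have hxa : x ≠ a := fun hh => h.hxA (hh ▸ ha)
      have hxb : x ≠ b := fun hh => h.hxB (hh ▸ hb)
      rcases hCe _ hqC with heq | ⟨hr, heq⟩ | ⟨hr, heq⟩ | ⟨v, hv, hvQ, hvx, _⟩
      · have : x ∈ s(a, b) := by rw [← heq]; exact Sym2.mem_mk_left x q
        rw [Sym2.mem_iff] at this
        rcases this with hh | hh
        · exact hxa hh
        · exact hxb hh
      · exact hW1 hr (Sym2.congr_right.1 heq ▸ hq)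
      · exact hW4 hr (Sym2.congr_right.1 heq ▸ hq)
      · rw [Sym2.mem_iff] at hv
        rcases hv with hv | hv
        · exact hvx hv
        · exact hvQ (mem_union_right _ (hv ▸ hq))

theorem D1P.two (h : D1Env E k A0 B0 x) {a b a' b' : V} (ha : a ∈ A0) (hb : b ∈ B0)
    (ha' : a' ∈ A0) (hb' : b' ∈ B0) (haa : a ≠ a') (hbb : b ≠ b')
    (hab : s(a, b) ∈ E) (hab' : s(a', b') ∈ E) (r : ℕ) (hr1 : 1 ≤ r) (hr3 : r ≤ 3)
    (h1 : r = 1 → s(a, a') ∈ E) (h3 : r = 3 → s(b, b') ∈ E) (W : Finset V) (hW : W.card ≤ 8) :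
    ∃ D', D1P E A0 B0 x D' {s(a, b), s(a', b')} r 1 W := by
  obtain ⟨C, hCE, hC6, hCc, hCi, hCe, T, hTc, hT⟩ := h.d1_two ha hb ha' hb' haa hbb hab hab' r hr1
    hr3 h1 h3 W (by omega)
  refine ⟨C, hCE, hC6.dec, hCc, hCi, hC6.card, ⟨T, hTc, hT⟩, ?_⟩
  intro q hq hqC
  have hxA : ∀ u ∈ A0, x ≠ u := fun u hu hh => h.hxA (hh ▸ hu)
  have hxB : ∀ u ∈ B0, x ≠ u := fun u hu hh => h.hxB (hh ▸ hu)
  have key : ∀ u w : V, s(x, q) = s(u, w) → x = u ∨ x = w := by
    intro u w heq
    have : x ∈ s(u, w) := by rw [← heq]; exact Sym2.mem_mk_left x q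
    exact Sym2.mem_iff.1 this
  rcases hCe _ hqC with heq | heq | ⟨_, heq⟩ | ⟨_, heq⟩ | ⟨v, hv, hvQ, hvx, _⟩
  · exact (key _ _ heq).elim (hxA a ha) (hxB b hb)
  · exact (key _ _ heq).elim (hxA a' ha') (hxB b' hb')
  · exact (key _ _ heq).elim (hxA a ha) (hxA a' ha')
  · exact (key _ _ heq).elim (hxB b hb) (hxB b' hb')
  · rw [Sym2.mem_iff] at hv
    rcases hv with hv | hv
    · exact hvx hv
    · exact hvQ (hv ▸ hq)

theorem D1P.goal {D : Finset (Sym2 V)} {ρ m : ℕ} {W : Finset V}
    (hP : D1P E A0 B0 x D (crs E (insert x A0) (insert x B0)) ρ m W) (hm : m ≤ 4)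
    (hρ : ρ % 6 = (inn E (insert x A0)).card % 6) : D1Goal E A0 B0 x := by
  refine ⟨D, hP.sub, hP.dec, ?_, ?_, ?_⟩
  · rw [← hP.crsD]
    unfold crs
    exact sdiff_subset.trans sdiff_subset
  · rw [hP.cardD]
    omega
  · have h1 : inn (E \ D) (insert x A0) = inn E (insert x A0) \ inn D (insert x A0) := by
      unfold inn
      ext e
      simp only [mem_inter, mem_sdiff]
      tauto
    have h2 : inn D (insert x A0) ⊆ inn E (insert x A0) := inter_subset_inter_right hP.sub
    rw [h1, card_sdiff_of_subset h2, hP.innD]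
    have h3 := card_le_card h2
    rw [hP.innD] at h3
    omega

/-! ### cross edges -/

theorem D1Env.mem_crs (h : D1Env E k A0 B0 x) {e : Sym2 V}
    (he : e ∈ crs E (insert x A0) (insert x B0)) : ∃ a ∈ A0, ∃ b ∈ B0, e = s(a, b) := by
  induction e using Sym2.ind with
  | _ u v =>
    unfold crs at he
    rw [mem_sdiff, mem_sdiff, mk_mem_sym2_iff, mk_mem_sym2_iff] at he
    obtain ⟨⟨_, h1⟩, h2⟩ := he
    have hu : u ∈ insert x (A0 ∪ B0) := by rw [h.cover]; exact mem_univ u
    have hv : v ∈ insert x (A0 ∪ B0) := by rw [h.cover]; exact mem_univ v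
    simp only [mem_insert, mem_union] at hu hv h1 h2
    by_cases huA : u ∈ A0
    · by_cases hvB : v ∈ B0
      · exact ⟨u, huA, v, hvB, rfl⟩
      · exfalso; tauto
    · by_cases hvA : v ∈ A0
      · by_cases huB : u ∈ B0
        · exact ⟨v, hvA, u, huB, Sym2.eq_swap⟩
        · exfalso; tauto
      · exfalso; tauto

theorem d1b_crs_comm (E : Finset (Sym2 V)) (A B : Finset V) : crs E A B = crs E B A := by
  unfold crs
  rw [sdiff_right_comm]

/-! ### the two sides -/

theorem D1Env.mis_zero (h : D1Env E k A0 B0 x) {v : V} (hv : v ∈ A0)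
    (hd : deg (crs E (insert x A0) (insert x B0)) v = 0) : mis E A0 x v = 0 := by
  have := (h.mis_le hv).1
  omega

theorem D1Env.adj_x (h : D1Env E k A0 B0 x) {v : V} (hv : v ∈ A0)
    (hd : deg (crs E (insert x A0) (insert x B0)) v = 0) : s(x, v) ∈ E := by
  have h1 := h.clean hv hd x (mem_insert_self x A0) (fun hh => h.hxA (hh ▸ hv))
  rwa [Sym2.eq_swap]

/-- all the vertices of `A0` outside `P` are clean -/
theorem D1Env.count_sub (h : D1Env E k A0 B0 x) (P : Finset V) (hP : P ⊆ A0)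
    (h0 : ∀ v ∈ A0, v ∉ P → deg (crs E (insert x A0) (insert x B0)) v = 0) :
    2 * (inn E (insert x A0)).card + (∑ a ∈ P, mis E A0 x a) +
      (P.filter (fun a => s(x, a) ∉ E)).card = 2 * k * (2 * k + 1) := by
  have h1 := h.count
  have h2 : ∑ a ∈ P, mis E A0 x a = ∑ a ∈ A0, mis E A0 x a :=
    sum_subset hP fun v hv hvP => h.mis_zero hv (h0 v hv hvP)
  have h3 : A0.filter (fun a => s(x, a) ∉ E) = P.filter (fun a => s(x, a) ∉ E) := by
    ext v
    simp only [mem_filter]
    constructor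
    · rintro ⟨hv, hx⟩
      refine ⟨?_, hx⟩
      by_contra hvP
      exact hx (h.adj_x hv (h0 v hv hvP))
    · rintro ⟨hv, hx⟩
      exact ⟨hP hv, hx⟩
  rw [h2, ← h3]
  exact h1

/-- the missing neighbours of `a` are `x` or non-clean -/
theorem D1Env.mem_mis (h : D1Env E k A0 B0 x) {a v : V} (ha : a ∈ A0)
    (hv : v ∈ (insert x A0).filter (fun v => v ≠ a ∧ s(a, v) ∉ E)) :
    v = x ∨ (v ∈ A0 ∧ v ≠ a ∧ deg (crs E (insert x A0) (insert x B0)) v ≠ 0) := by
  rw [mem_filter, mem_insert] at hv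
  obtain ⟨hv1, hva, hvE⟩ := hv
  rcases hv1 with rfl | hv1
  · exact Or.inl rfl
  · refine Or.inr ⟨hv1, hva, fun hd => hvE ?_⟩
    have := h.clean hv1 hd a (mem_insert_of_mem ha) hva.symm
    rwa [Sym2.eq_swap]

theorem D1Env.side_one (h : D1Env E k A0 B0 x) {a : V} (ha : a ∈ A0)
    (hd : deg (crs E (insert x A0) (insert x B0)) a = 1)
    (h0 : ∀ v ∈ A0, v ≠ a → deg (crs E (insert x A0) (insert x B0)) v = 0) :
    2 * (inn E (insert x A0)).card + 2 = 2 * k * (2 * k + 1) := by
  have h1 := h.count_sub {a} (by simpa using ha) fun v hv hva => h0 v hv (by simpa using hva)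
  have h2 := h.mis_le ha
  rw [hd] at h2
  have h3 : mis E A0 x a = 1 := by
    have h4 : ¬ Even (mis E A0 x a) := fun hh => by
      have := h2.2.1 hh
      exact absurd this (by decide)
    have h5 : mis E A0 x a ≠ 0 := fun hh => h4 (hh ▸ Even.zero)
    omega
  have h4 : s(x, a) ∉ E := by
    obtain ⟨v, hv⟩ := card_pos.1 (show 0 < ((insert x A0).filter
      (fun v => v ≠ a ∧ s(a, v) ∉ E)).card by
        have : mis E A0 x a = ((insert x A0).filter (fun v => v ≠ a ∧ s(a, v) ∉ E)).card := rfl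
        omega)
    rcases h.mem_mis ha hv with rfl | ⟨hvA, hva, hvd⟩
    · rw [Sym2.eq_swap]
      exact (mem_filter.1 hv).2.2
    · exact absurd (h0 v hvA hva) hvd
  rw [sum_singleton, h3, filter_singleton, if_pos h4, card_singleton] at h1
  omega

theorem D1Env.side_two_deg (h : D1Env E k A0 B0 x) {a : V} (ha : a ∈ A0)
    (hd : deg (crs E (insert x A0) (insert x B0)) a = 2)
    (h0 : ∀ v ∈ A0, v ≠ a → deg (crs E (insert x A0) (insert x B0)) v = 0) :
    s(x, a) ∈ E ∧ 2 * (inn E (insert x A0)).card = 2 * k * (2 * k + 1) := by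
  have h1 := h.count_sub {a} (by simpa using ha) fun v hv hva => h0 v hv (by simpa using hva)
  have h2 := h.mis_le ha
  rw [hd] at h2
  have h6 : ((insert x A0).filter (fun v => v ≠ a ∧ s(a, v) ∉ E)) ⊆ {x} := by
    intro v hv
    rcases h.mem_mis ha hv with rfl | ⟨hvA, hva, hvd⟩
    · exact mem_singleton_self _
    · exact absurd (h0 v hvA hva) hvd
  have h3 : mis E A0 x a = 0 := by
    have h4 : Even (mis E A0 x a) := h2.2.2 even_two
    have h5 : mis E A0 x a ≤ 1 := (card_le_card h6).trans (by rw [card_singleton])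
    rcases h4 with ⟨c, hc⟩
    omega
  have h4 : s(x, a) ∈ E := by
    by_contra hxa
    have h7 : ((insert x A0).filter (fun v => v ≠ a ∧ s(a, v) ∉ E)) = ∅ := card_eq_zero.1 h3
    have h8 : x ∈ (insert x A0).filter (fun v => v ≠ a ∧ s(a, v) ∉ E) := by
      rw [mem_filter]
      refine ⟨mem_insert_self _ _, fun hh => h.hxA (hh ▸ ha), ?_⟩
      rwa [Sym2.eq_swap]
    rw [h7] at h8
    exact absurd h8 (notMem_empty x)
  refine ⟨h4, ?_⟩
  rw [sum_singleton, h3, filter_singleton, if_neg (not_not.2 h4), card_empty] at h1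
  omega

theorem D1Env.side_two (h : D1Env E k A0 B0 x) {a a' : V} (ha : a ∈ A0) (ha' : a' ∈ A0)
    (hne : a ≠ a') (hd : deg (crs E (insert x A0) (insert x B0)) a = 1)
    (hd' : deg (crs E (insert x A0) (insert x B0)) a' = 1)
    (h0 : ∀ v ∈ A0, v ≠ a → v ≠ a' → deg (crs E (insert x A0) (insert x B0)) v = 0) :
    (s(a, a') ∉ E ∧ s(x, a) ∈ E ∧ s(x, a') ∈ E ∧
      2 * (inn E (insert x A0)).card + 2 = 2 * k * (2 * k + 1)) ∨
    (s(a, a') ∈ E ∧ s(x, a) ∉ E ∧ s(x, a') ∉ E ∧
      2 * (inn E (insert x A0)).card + 4 = 2 * k * (2 * k + 1)) := by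
  have h1 := h.count_sub {a, a'} (by
    intro v hv
    rcases mem_insert.1 hv with rfl | hv
    · exact ha
    · rw [mem_singleton.1 hv]
      exact ha') fun v hv hva => by
    rw [mem_insert, mem_singleton, not_or] at hva
    exact h0 v hv hva.1 hva.2
  -- `mis = 1` for a vertex of cross degree one
  have hmis : ∀ u ∈ A0, deg (crs E (insert x A0) (insert x B0)) u = 1 → mis E A0 x u = 1 := by
    intro u hu hdu
    have h2 := h.mis_le hu
    rw [hdu] at h2
    have h4 : ¬ Even (mis E A0 x u) := fun hh => by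
      have := h2.2.1 hh
      exact absurd this (by decide)
    have h5 : mis E A0 x u ≠ 0 := fun hh => h4 (hh ▸ Even.zero)
    omega
  have hm := hmis a ha hd
  have hm' := hmis a' ha' hd'
  -- if `u w` is missing then `x` is adjacent to `u`
  have hmiss : ∀ u w : V, u ∈ A0 → w ∈ A0 → u ≠ w → s(u, w) ∉ E → mis E A0 x u = 1 →
      s(x, u) ∈ E := by
    intro u w hu hw huw huwE hmu
    by_contra hxu
    have h2 : ({w, x} : Finset V) ⊆ (insert x A0).filter (fun v => v ≠ u ∧ s(u, v) ∉ E) := by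
      intro v hv
      rcases mem_insert.1 hv with rfl | hv
      · exact mem_filter.2 ⟨mem_insert_of_mem hw, huw.symm, huwE⟩
      · rw [mem_singleton.1 hv]
        refine mem_filter.2 ⟨mem_insert_self _ _, fun hh => h.hxA (hh ▸ hu), ?_⟩
        rwa [Sym2.eq_swap]
    have h3 := card_le_card h2
    rw [card_pair (show w ≠ x from fun hh => h.hxA (hh ▸ hw))] at h3
    have h4 : mis E A0 x u = ((insert x A0).filter (fun v => v ≠ u ∧ s(u, v) ∉ E)).card := rfl
    omega
  -- if `u w` is present then `x` is not adjacent to `u`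
  have hpres : ∀ u w : V, u ∈ A0 → s(u, w) ∈ E → mis E A0 x u = 1 →
      (∀ v ∈ A0, v ≠ u → v ≠ w → deg (crs E (insert x A0) (insert x B0)) v = 0) →
      s(x, u) ∉ E := by
    intro u w hu huwE hmu h0'
    obtain ⟨v, hv⟩ := card_pos.1 (show 0 < ((insert x A0).filter
      (fun v => v ≠ u ∧ s(u, v) ∉ E)).card by
        have : mis E A0 x u = ((insert x A0).filter (fun v => v ≠ u ∧ s(u, v) ∉ E)).card := rfl
        omega)
    rcases h.mem_mis hu hv with rfl | ⟨hvA, hva, hvd⟩
    · rw [Sym2.eq_swap]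
      exact (mem_filter.1 hv).2.2
    · exfalso
      by_cases hvw : v = w
      · rw [hvw] at hv
        exact (mem_filter.1 hv).2.2 huwE
      · exact hvd (h0' v hvA hva hvw)
  rw [sum_pair hne, hm, hm'] at h1
  by_cases hE : s(a, a') ∈ E
  · right
    have h2 := hpres a a' ha hE hm h0
    have h3 := hpres a' a ha' (by rwa [Sym2.eq_swap]) hm' fun v hv h1 h2 => h0 v hv h2 h1
    refine ⟨hE, h2, h3, ?_⟩
    have h4 : ({a, a'} : Finset V).filter (fun a => s(x, a) ∉ E) = {a, a'} := by
      rw [filter_eq_self]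
      intro v hv
      rcases mem_insert.1 hv with rfl | hv
      · exact h2
      · rw [mem_singleton.1 hv]
        exact h3
    rw [h4, card_pair hne] at h1
    omega
  · left
    have h2 := hmiss a a' ha ha' hne hE hm
    have h3 := hmiss a' a ha' ha hne.symm (by rwa [Sym2.eq_swap]) hm'
    refine ⟨hE, h2, h3, ?_⟩
    have h4 : ({a, a'} : Finset V).filter (fun a => s(x, a) ∉ E) = ∅ := by
      rw [filter_eq_empty_iff]
      intro v hv
      rcases mem_insert.1 hv with rfl | hv
      · exact not_not.2 h2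
      · rw [mem_singleton.1 hv]
        exact not_not.2 h3
    rw [h4, card_empty] at h1
    omega

/-! ### the theorems -/

theorem d1b_deg_zero {F : Finset (Sym2 V)} {v : V} (h : ∀ e ∈ F, v ∉ e) : deg F v = 0 := by
  unfold deg
  rw [card_eq_zero, filter_eq_empty_iff]
  exact h

theorem D1Env.goal_f0 (h : D1Env E k A0 B0 x)
    (hf : (crs E (insert x A0) (insert x B0)).card = 0)
    (hmod : (4 * k + 1) % 24 ≠ 5 ∧ (4 * k + 1) % 24 ≠ 13) : D1Goal E A0 B0 x := by
  have hF : crs E (insert x A0) (insert x B0) = ∅ := card_eq_zero.1 hf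
  have hF' : crs E (insert x B0) (insert x A0) = ∅ := by rw [d1b_crs_comm, hF]
  have h1 := h.count_sub ∅ (empty_subset _) fun v _ _ => by rw [hF]; simp
  have h2 := h.swap.count_sub ∅ (empty_subset _) fun v _ _ => by rw [hF']; simp
  have h3 := h.total
  have h4 := h.six
  rw [hf, add_zero] at h3
  simp only [sum_empty, filter_empty, card_empty, add_zero] at h1 h2
  have hP := D1P.zero E A0 B0 x ∅
  rw [← hF] at hP
  refine hP.goal (by norm_num) ?_
  -- arithmetic
  have h5 : (inn E (insert x A0)).card = k * (2 * k + 1) := by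
    have : 2 * (inn E (insert x A0)).card = 2 * (k * (2 * k + 1)) := by rw [h1]; ring
    omega
  have h6 : (inn E (insert x B0)).card = k * (2 * k + 1) := by
    have : 2 * (inn E (insert x B0)).card = 2 * (k * (2 * k + 1)) := by rw [h2]; ring
    omega
  rw [h5]
  rw [h5, h6] at h3
  rw [← h3] at h4
  -- `k` modulo 6
  obtain ⟨q, hq⟩ : ∃ q, k = 6 * q + k % 6 := ⟨k / 6, (Nat.div_add_mod k 6).symm⟩
  obtain ⟨c, hc⟩ : ∃ c, c = k * (2 * k + 1) := ⟨_, rfl⟩
  rw [← hc] at h4 ⊢
  have h7 : k % 6 < 6 := Nat.mod_lt _ (by norm_num)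
  have h8 : c % 6 = (k % 6) * (2 * (k % 6) + 1) % 6 := by
    rw [hc]
    simp [Nat.mul_mod, Nat.add_mod]
  generalize k % 6 = t at h7 h8 hq
  interval_cases t <;> omega

theorem D1Env.goal_f1 (h : D1Env E k A0 B0 x)
    (hf : (crs E (insert x A0) (insert x B0)).card = 1) : False := by
  obtain ⟨e, hF⟩ := card_eq_one.1 hf
  obtain ⟨a, ha, b, hb, rfl⟩ := h.mem_crs (e := e) (by rw [hF]; exact mem_singleton_self _)
  have hAB : ∀ u ∈ A0, ∀ w ∈ B0, u ≠ w := fun u hu w hw huw =>
    disjoint_left.1 h.disj hu (huw ▸ hw)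
  have hda : deg (crs E (insert x A0) (insert x B0)) a = 1 := by
    rw [hF]
    unfold deg
    rw [filter_singleton, if_pos (Sym2.mem_mk_left a b), card_singleton]
  have hdb : deg (crs E (insert x B0) (insert x A0)) b = 1 := by
    rw [d1b_crs_comm, hF]
    unfold deg
    rw [filter_singleton, if_pos (Sym2.mem_mk_right a b), card_singleton]
  have h1 := h.side_one ha hda fun v hv hva => by
    rw [hF]
    apply d1b_deg_zero
    intro e he
    rw [mem_singleton.1 he, Sym2.mem_iff, not_or]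
    exact ⟨hva, hAB v hv b hb⟩
  have h2 := h.swap.side_one hb hdb fun v hv hva => by
    rw [d1b_crs_comm, hF]
    apply d1b_deg_zero
    intro e he
    rw [mem_singleton.1 he, Sym2.mem_iff, not_or]
    exact ⟨(hAB a ha v hv).symm, hva⟩
  have h3 := h.total
  have h4 := h.six
  rw [hf] at h3
  generalize 2 * k * (2 * k + 1) = S at h1 h2
  omega

/-- two passes -/
theorem D1Env.two_passes (h : D1Env E k A0 B0 x) {a b a' b' : V} (ha : a ∈ A0) (hb : b ∈ B0)
    (ha' : a' ∈ A0) (hb' : b' ∈ B0) (hne : s(a, b) ≠ s(a', b'))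
    (hF : crs E (insert x A0) (insert x B0) = {s(a, b), s(a', b')})
    (r r' : ℕ) (hr : 1 ≤ r ∧ r ≤ 4) (hr' : 1 ≤ r' ∧ r' ≤ 4) (h1 : r = 1 → s(x, a) ∈ E)
    (h4 : r = 4 → s(x, b) ∈ E) (h1' : r' = 1 → s(x, a') ∈ E) (h4' : r' = 4 → s(x, b') ∈ E)
    (hd1 : r = 1 → r' = 1 → a ≠ a') (hd4 : r = 4 → r' = 4 → b ≠ b')
    (hρ : (r + r') % 6 = (inn E (insert x A0)).card % 6) : D1Goal E A0 B0 x := by
  have hE : ∀ e ∈ crs E (insert x A0) (insert x B0), e ∈ E := fun e he =>
    (mem_sdiff.1 (mem_sdiff.1 he).1).1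
  have hab : s(a, b) ∈ E := hE _ (by rw [hF]; simp)
  have hab' : s(a', b') ∈ E := hE _ (by rw [hF]; simp)
  have hAB : ∀ u ∈ A0, ∀ w ∈ B0, u ≠ w := fun u hu w hw huw =>
    disjoint_left.1 h.disj hu (huw ▸ hw)
  -- protected vertices for the second pass
  obtain ⟨D, hD⟩ := (D1P.zero E A0 B0 x {a, b, a', b'}).pass h (by norm_num) ha hb hab
    (notMem_empty _) r hr.1 hr.2 (fun hh => ⟨h1 hh, by simp⟩) (fun hh => ⟨h4 hh, by simp⟩)
    ((if r' = 1 then {a'} else ∅) ∪ (if r' = 4 then {b'} else ∅)) (by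
      intro v hv
      rw [mem_union] at hv
      rcases hv with hv | hv
      · split_ifs at hv
        · rw [mem_singleton.1 hv]; simp
        · exact absurd hv (notMem_empty v)
      · split_ifs at hv
        · rw [mem_singleton.1 hv]; simp
        · exact absurd hv (notMem_empty v)) (by
      refine (card_union_le _ _).trans ?_
      split_ifs <;> simp) (by
      intro hr1 hmem
      rw [mem_union] at hmem
      rcases hmem with hv | hv
      · split_ifs at hv with hr1'
        · exact hd1 hr1 hr1' (mem_singleton.1 hv)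
        · exact absurd hv (notMem_empty a)
      · split_ifs at hv
        · exact hAB a ha b' hb' (mem_singleton.1 hv)
        · exact absurd hv (notMem_empty a)) (by
      intro hr4 hmem
      rw [mem_union] at hmem
      rcases hmem with hv | hv
      · split_ifs at hv
        · exact hAB a' ha' b hb (mem_singleton.1 hv).symm
        · exact absurd hv (notMem_empty b)
      · split_ifs at hv with hr4'
        · exact hd4 hr4 hr4' (mem_singleton.1 hv)
        · exact absurd hv (notMem_empty b))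
  obtain ⟨D', hD'⟩ := hD.pass h (by norm_num) ha' hb' hab' (by
      rw [mem_insert, not_or]
      exact ⟨hne.symm, notMem_empty _⟩) r' hr'.1 hr'.2
    (fun hh => ⟨h1' hh, by rw [mem_union, if_pos hh]; simp⟩)
    (fun hh => ⟨h4' hh, by rw [mem_union, if_pos hh]; simp⟩) ∅ (empty_subset _) (by simp)
    (fun _ => notMem_empty _) (fun _ => notMem_empty _)
  have hS : insert s(a', b') (insert s(a, b) (∅ : Finset (Sym2 V))) =
      crs E (insert x A0) (insert x B0) := by
    rw [hF, insert_empty_eq, pair_comm]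
  rw [hS] at hD'
  refine hD'.goal (by norm_num) ?_
  rw [zero_add]
  exact hρ

/-- two cross edges with a common end in `A0` -/
theorem D1Env.goal_star (h : D1Env E k A0 B0 x) {a b b' : V} (ha : a ∈ A0) (hb : b ∈ B0)
    (hb' : b' ∈ B0) (hbb : b ≠ b')
    (hF : crs E (insert x A0) (insert x B0) = {s(a, b), s(a, b')}) : D1Goal E A0 B0 x := by
  have hne : s(a, b) ≠ s(a, b') := fun hh => hbb (Sym2.congr_right.1 hh)
  have hAB : ∀ u ∈ A0, ∀ w ∈ B0, u ≠ w := fun u hu w hw huw =>
    disjoint_left.1 h.disj hu (huw ▸ hw)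
  have hda : deg (crs E (insert x A0) (insert x B0)) a = 2 := by
    rw [hF]
    unfold deg
    rw [filter_eq_self.2, card_pair hne]
    intro e he
    rcases mem_insert.1 he with rfl | he
    · exact Sym2.mem_mk_left a b
    · rw [mem_singleton.1 he]
      exact Sym2.mem_mk_left a b'
  have h1 := h.side_two_deg ha hda fun v hv hva => by
    rw [hF]
    apply d1b_deg_zero
    intro e he
    rcases mem_insert.1 he with rfl | he
    · rw [Sym2.mem_iff, not_or]
      exact ⟨hva, hAB v hv b hb⟩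
    · rw [mem_singleton.1 he, Sym2.mem_iff, not_or]
      exact ⟨hva, hAB v hv b' hb'⟩
  have hdb : ∀ u w : V, u ∈ B0 → u ≠ w → ({s(a, b), s(a, b')} : Finset (Sym2 V)) =
      {s(a, u), s(a, w)} → deg (crs E (insert x B0) (insert x A0)) u = 1 := by
    intro u w hu huw heq
    rw [d1b_crs_comm, hF, heq]
    unfold deg
    have : ({s(a, u), s(a, w)} : Finset (Sym2 V)).filter (fun e => u ∈ e) = {s(a, u)} := by
      ext e
      simp only [mem_filter, mem_insert, mem_singleton]
      constructor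
      · rintro ⟨rfl | rfl, he⟩
        · rfl
        · exfalso
          rcases Sym2.mem_iff.1 he with hh | hh
          · exact hAB a ha u hu hh.symm
          · exact huw hh
      · rintro rfl
        exact ⟨Or.inl rfl, Sym2.mem_mk_right a u⟩
    rw [this, card_singleton]
  have h2 := h.swap.side_two hb hb' hbb (hdb b b' hb hbb rfl)
    (hdb b' b hb' hbb.symm (pair_comm _ _)) fun v hv hvb hvb' => by
    rw [d1b_crs_comm, hF]
    apply d1b_deg_zero
    intro e he
    rcases mem_insert.1 he with rfl | he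
    · rw [Sym2.mem_iff, not_or]
      exact ⟨(hAB a ha v hv).symm, hvb⟩
    · rw [mem_singleton.1 he, Sym2.mem_iff, not_or]
      exact ⟨(hAB a ha v hv).symm, hvb'⟩
  have h3 := h.total
  have h4 := h.six
  have hfc : (crs E (insert x A0) (insert x B0)).card = 2 := by rw [hF, card_pair hne]
  rw [hfc] at h3
  obtain ⟨S, hS⟩ : ∃ S, S = 2 * k * (2 * k + 1) := ⟨_, rfl⟩
  rw [← hS] at h1 h2
  have h5 : (inn E (insert x A0)).card % 6 = 3 ∨ (inn E (insert x A0)).card % 6 = 0 := by
    rcases h2 with ⟨_, _, _, h2⟩ | ⟨_, _, _, h2⟩ <;> omega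
  rcases h5 with h5 | h5
  · exact h.two_passes ha hb ha hb' hne hF 1 2 (by norm_num) (by norm_num) (fun _ => h1.1)
      (by norm_num) (by norm_num) (by norm_num) (by norm_num) (by norm_num) (by omega)
  · exact h.two_passes ha hb ha hb' hne hF 3 3 (by norm_num) (by norm_num) (by norm_num)
      (by norm_num) (by norm_num) (by norm_num) (by norm_num) (by norm_num) (by omega)

/-- two disjoint cross edges -/
theorem D1Env.goal_matching (h : D1Env E k A0 B0 x) {a b a' b' : V} (ha : a ∈ A0) (hb : b ∈ B0)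
    (ha' : a' ∈ A0) (hb' : b' ∈ B0) (haa : a ≠ a') (hbb : b ≠ b')
    (hF : crs E (insert x A0) (insert x B0) = {s(a, b), s(a', b')}) : D1Goal E A0 B0 x := by
  have hAB : ∀ u ∈ A0, ∀ w ∈ B0, u ≠ w := fun u hu w hw huw =>
    disjoint_left.1 h.disj hu (huw ▸ hw)
  have hne : s(a, b) ≠ s(a', b') := by
    intro hh
    have : a ∈ s(a', b') := by rw [← hh]; exact Sym2.mem_mk_left a b
    rcases Sym2.mem_iff.1 this with hh | hh
    · exact haa hh
    · exact hAB a ha b' hb' hh
  have hE : ∀ e ∈ crs E (insert x A0) (insert x B0), e ∈ E := fun e he =>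
    (mem_sdiff.1 (mem_sdiff.1 he).1).1
  have hab : s(a, b) ∈ E := hE _ (by rw [hF]; simp)
  have hab' : s(a', b') ∈ E := hE _ (by rw [hF]; simp)
  have hdeg : ∀ u w p q : V, u ∉ s(p, q) → u ∈ s(u, w) → ({s(a, b), s(a', b')} : Finset (Sym2 V)) =
      {s(u, w), s(p, q)} → deg (crs E (insert x A0) (insert x B0)) u = 1 := by
    intro u w p q hu huw heq
    rw [hF, heq]
    unfold deg
    have : ({s(u, w), s(p, q)} : Finset (Sym2 V)).filter (fun e => u ∈ e) = {s(u, w)} := by
      ext e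
      simp only [mem_filter, mem_insert, mem_singleton]
      constructor
      · rintro ⟨rfl | rfl, he⟩
        · rfl
        · exact absurd he hu
      · rintro rfl
        exact ⟨Or.inl rfl, huw⟩
    rw [this, card_singleton]
  have hn : ∀ {u p q : V}, u ≠ p → u ≠ q → u ∉ s(p, q) := by
    intro u p q h1 h2 hh
    rcases Sym2.mem_iff.1 hh with hh | hh
    · exact h1 hh
    · exact h2 hh
  have h1 := h.side_two ha ha' haa
    (hdeg a b a' b' (hn haa (hAB a ha b' hb')) (Sym2.mem_mk_left _ _) rfl)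
    (hdeg a' b' a b (hn haa.symm (hAB a' ha' b hb)) (Sym2.mem_mk_left _ _) (pair_comm _ _))
    fun v hv hva hva' => by
    rw [hF]
    apply d1b_deg_zero
    intro e he
    rcases mem_insert.1 he with rfl | he
    · exact hn hva (hAB v hv b hb)
    · rw [mem_singleton.1 he]
      exact hn hva' (hAB v hv b' hb')
  have h2 := h.swap.side_two hb hb' hbb
    (by
      rw [d1b_crs_comm]
      exact hdeg b a a' b' (hn (hAB a' ha' b hb).symm hbb) (Sym2.mem_mk_left _ _)
        (by rw [Sym2.eq_swap (a := a) (b := b)]))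
    (by
      rw [d1b_crs_comm]
      exact hdeg b' a' a b (hn (hAB a ha b' hb').symm hbb.symm) (Sym2.mem_mk_left _ _)
        (by rw [Sym2.eq_swap (a := a') (b := b')]; exact pair_comm _ _))
    fun v hv hvb hvb' => by
    rw [d1b_crs_comm, hF]
    apply d1b_deg_zero
    intro e he
    rcases mem_insert.1 he with rfl | he
    · exact hn (hAB a ha v hv).symm hvb
    · rw [mem_singleton.1 he]
      exact hn (hAB a' ha' v hv).symm hvb'
  have h3 := h.total
  have h4 := h.six
  have hfc : (crs E (insert x A0) (insert x B0)).card = 2 := by rw [hF, card_pair hne]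
  rw [hfc] at h3
  obtain ⟨S, hS⟩ : ∃ S, S = 2 * k * (2 * k + 1) := ⟨_, rfl⟩
  rw [← hS] at h1 h2
  rcases h1 with ⟨hAE, hxa, hxa', hA⟩ | ⟨hAE, hxa, hxa', hA⟩
  · rcases h2 with ⟨hBE, hxb, hxb', hB⟩ | ⟨hBE, hxb, hxb', hB⟩
    · -- first kind
      have hex : ∃ r r' : ℕ, (1 ≤ r ∧ r ≤ 4) ∧ (1 ≤ r' ∧ r' ≤ 4) ∧
          (r + r') % 6 = (inn E (insert x A0)).card % 6 := by
        have h6 : (inn E (insert x A0)).card % 6 < 6 := Nat.mod_lt _ (by norm_num)
        generalize (inn E (insert x A0)).card % 6 = t at h6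
        interval_cases t
        · exact ⟨3, 3, by norm_num⟩
        · exact ⟨3, 4, by norm_num⟩
        · exact ⟨1, 1, by norm_num⟩
        · exact ⟨1, 2, by norm_num⟩
        · exact ⟨2, 2, by norm_num⟩
        · exact ⟨2, 3, by norm_num⟩
      obtain ⟨r, r', hr, hr', hrr⟩ := hex
      exact h.two_passes ha hb ha' hb' hne hF r r' hr hr' (fun _ => hxa) (fun _ => hxb)
        (fun _ => hxa') (fun _ => hxb') (fun _ _ => haa) (fun _ _ => hbb) hrr
    · exfalso
      omega
  · rcases h2 with ⟨hBE, hxb, hxb', hB⟩ | ⟨hBE, hxb, hxb', hB⟩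
    · exfalso
      omega
    · -- second kind
      have htwo : ∀ r : ℕ, 1 ≤ r → r ≤ 3 → r % 6 = (inn E (insert x A0)).card % 6 →
          D1Goal E A0 B0 x := by
        intro r hr1 hr3 hrr
        obtain ⟨D, hD⟩ := D1P.two h ha hb ha' hb' haa hbb hab hab' r hr1 hr3 (fun _ => hAE)
          (fun _ => hBE) ∅ (by simp)
        rw [← hF] at hD
        exact hD.goal (by norm_num) hrr
      have h6 : (inn E (insert x A0)).card % 6 < 6 := Nat.mod_lt _ (by norm_num)
      have hcase : (inn E (insert x A0)).card % 6 = 0 ∨ (inn E (insert x A0)).card % 6 = 1 ∨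
          (inn E (insert x A0)).card % 6 = 2 ∨ (inn E (insert x A0)).card % 6 = 3 ∨
          (inn E (insert x A0)).card % 6 = 4 ∨ (inn E (insert x A0)).card % 6 = 5 := by omega
      rcases hcase with hc | hc | hc | hc | hc | hc
      · exact h.two_passes ha hb ha' hb' hne hF 3 3 (by norm_num) (by norm_num) (by norm_num)
          (by norm_num) (by norm_num) (by norm_num) (by norm_num) (by norm_num) (by omega)
      · exact htwo 1 (by norm_num) (by norm_num) (by omega)
      · exact htwo 2 (by norm_num) (by norm_num) (by omega)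
      · exact htwo 3 (by norm_num) (by norm_num) (by omega)
      · exact h.two_passes ha hb ha' hb' hne hF 2 2 (by norm_num) (by norm_num) (by norm_num)
          (by norm_num) (by norm_num) (by norm_num) (by norm_num) (by norm_num) (by omega)
      · exact h.two_passes ha hb ha' hb' hne hF 2 3 (by norm_num) (by norm_num) (by norm_num)
          (by norm_num) (by norm_num) (by norm_num) (by norm_num) (by norm_num) (by omega)

theorem D1Env.goal_f2 (h : D1Env E k A0 B0 x)
    (hf : (crs E (insert x A0) (insert x B0)).card = 2) : D1Goal E A0 B0 x := by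
  obtain ⟨e, e', hee, hF⟩ := card_eq_two.1 hf
  obtain ⟨a, ha, b, hb, rfl⟩ := h.mem_crs (e := e) (by rw [hF]; simp)
  obtain ⟨a', ha', b', hb', rfl⟩ := h.mem_crs (e := e') (by rw [hF]; simp)
  by_cases haa : a = a'
  · subst haa
    exact h.goal_star ha hb hb' (fun hh => hee (by rw [hh])) hF
  · by_cases hbb : b = b'
    · subst hbb
      refine h.goal_swap (h.swap.goal_star hb ha ha' haa ?_)
      rw [d1b_crs_comm, hF, Sym2.eq_swap (a := a) (b := b), Sym2.eq_swap (a := a') (b := b)]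
    · exact h.goal_matching ha hb ha' hb' haa hbb hF

end H15C6
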