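import Pool.Agent.H15.C6.D1A

/-!
Module D1C.  The exact case with `f = |F0| = 3` or `4` edges between `A0` and `B0`.
Notation as in D1B.  General remark: `m a` = number of missing inner neighbours of `a`; `m a ≤ deg F0 a`, same parity;
missing neighbours of `a` in `AX` are `x` or non-clean vertices.

* `f = 3`, two of the edges disjoint, `a1b1, a2b2`, third edge `e3 = a3b3`.  Three passes with `r ∈ {2,3}`: sums
  6,7,8,9 (residues 0,1,2,3); `d1_two` (`r = 2`) for the two disjoint ones and one pass `r ∈ {2,3}` for `e3`: sums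
  4, 5.  All residues.
* `f = 3`, all edges at one vertex `a` (or symmetric, `goal_swap`): `F0 = {ab1, ab2, ab3}`.  `m a` is odd and only
  `x` can be missing, so `m a = 1`, `s(x,a) ∉ E`, `N_A = k(2k+1) - 1`.  B side: `m b_i = 1`: either one pair `b_ib_j` is
  missing and `x` is not adjacent to the third (2 missing edges), or `x` is not adjacent to all three (3 missing).
  `|E| = 2k(2k+1) - 1 - |missing_B| + 3` even: exactly 2 missing.  So `x` is adjacent to two of the `b_i`:
  passes with `r ∈ {2,3,4}` for these two and `r ∈ {2,3}` for the third: sums 6..11, all residues.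
  (Three edges of a bipartite graph that are pairwise intersecting have a common vertex.)
* `f = 4`, two of the edges disjoint: four passes `r ∈ {2,3}`: sums 8..12 (residues 2,3,4,5,0); `d1_two` (`r = 2`) and
  two passes `r ∈ {2,3}`: sums 6,7,8 (residues 0,1,2).  All residues.
* `f = 4`, all at one vertex `a` (or symmetric): `m a` is even and `≤ 1`, so `0`: `s(x,a) ∈ E`; passes: one with
  `r ∈ {1,2,3}` and three with `r ∈ {2,3}`: sums 7..12, all residues.
Disjointness: successive use of `d1_pass`/`d1_two` with `Q ⊇` the vertex sets of the previous cycles.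
-/

set_option linter.unusedSectionVars false

open Finset

namespace H15C6

variable {V : Type} [Fintype V] [DecidableEq V] {E : Finset (Sym2 V)} {k : ℕ} {A0 B0 : Finset V}
  {x : V}

/-- state of the successive construction -/
structure D1cS {V : Type} [DecidableEq V] (E : Finset (Sym2 V)) (A0 B0 : Finset V) (x : V)
    (Q0 : Finset V) (R : Finset (Sym2 V)) (m s : ℕ) (S : Finset V) (D : Finset (Sym2 V)) :
    Prop where
  sub : D ⊆ E
  dec : Dec D
  cr : crs D (insert x A0) (insert x B0) = R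
  inc : (inn D (insert x A0)).card = s
  card : D.card = 6 * m
  tt : ∃ T : Finset V, T.card ≤ 6 * m ∧ D ⊆ T.sym2
  sp : ∀ v ∈ Q0, s(x, v) ∈ D → v ∈ S

theorem d1c_start (Q0 : Finset V) : D1cS E A0 B0 x Q0 ∅ 0 0 ∅ ∅ where
  sub := by simp
  dec := Dec.empty
  cr := by simp [crs]
  inc := by simp [inn]
  card := by simp
  tt := ⟨∅, by simp, by simp⟩
  sp := by simp

theorem d1c_crs_union (D C : Finset (Sym2 V)) (A B : Finset V) :
    crs (D ∪ C) A B = crs D A B ∪ crs C A B := by
  simp only [crs, Finset.union_sdiff_distrib]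

theorem d1c_inn_union (D C : Finset (Sym2 V)) (A : Finset V) :
    inn (D ∪ C) A = inn D A ∪ inn C A := by
  simp only [inn, Finset.union_inter_distrib_right]

theorem d1c_crs_comm (D : Finset (Sym2 V)) (A B : Finset V) : crs D B A = crs D A B := by
  ext e
  simp only [crs, Finset.mem_sdiff]
  tauto

theorem d1c_notA (h : D1Env E k A0 B0 x) {a b : V} (hb : b ∈ B0) :
    s(a, b) ∉ (insert x A0).sym2 := by
  intro h1
  rw [Finset.mk_mem_sym2_iff] at h1
  rcases Finset.mem_insert.1 h1.2 with h2 | h2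
  · exact h.hxB (h2 ▸ hb)
  · exact (Finset.disjoint_left.1 h.disj) h2 hb

theorem d1c_notB (h : D1Env E k A0 B0 x) {a b : V} (ha : a ∈ A0) :
    s(a, b) ∉ (insert x B0).sym2 := by
  intro h1
  rw [Finset.mk_mem_sym2_iff] at h1
  rcases Finset.mem_insert.1 h1.1 with h2 | h2
  · exact h.hxA (h2 ▸ ha)
  · exact (Finset.disjoint_left.1 h.disj) ha h2

theorem d1c_step (h : D1Env E k A0 B0 x) {Q0 : Finset V} {R : Finset (Sym2 V)} {m s : ℕ}
    {S : Finset V} {D : Finset (Sym2 V)} (hD : D1cS E A0 B0 x Q0 R m s S D) (hm : m ≤ 3)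
    (hQ0 : Q0.card ≤ 15) {a b : V} (ha : a ∈ A0) (hb : b ∈ B0) (hab : s(a, b) ∈ E)
    (hR : s(a, b) ∉ R) (haQ : a ∈ Q0) (hbQ : b ∈ Q0) (r : ℕ) (hr1 : 1 ≤ r) (hr4 : r ≤ 4)
    (h1 : r = 1 → s(x, a) ∈ E ∧ a ∉ S) (h4 : r = 4 → s(x, b) ∈ E ∧ b ∉ S) (S' : Finset V)
    (hS : S ⊆ S') (h1' : r = 1 → a ∈ S') (h4' : r = 4 → b ∈ S') :
    ∃ D', D1cS E A0 B0 x Q0 (insert s(a, b) R) (m + 1) (s + r) S' D' := by
  obtain ⟨T, hT, hDT⟩ := hD.tt
  have hQ : (Q0 ∪ T).card ≤ 40 := by
    have := Finset.card_union_le Q0 T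
    omega
  obtain ⟨C, hCE, hC6, hCc, hCi, hCe, T', hT', hCT⟩ :=
    h.d1_pass ha hb hab r hr1 hr4 (fun e => (h1 e).1) (fun e => (h4 e).1) (Q0 ∪ T) hQ
  have hxa : x ≠ a := fun e => h.hxA (e ▸ ha)
  have hxb : x ≠ b := fun e => h.hxB (e ▸ hb)
  have hdis : Disjoint D C := by
    rw [Finset.disjoint_left]
    intro e heD heC
    rcases hCe e heC with he | ⟨hr, he⟩ | ⟨hr, he⟩ | ⟨v, hve, hvQ, -⟩
    · subst he
      apply hR
      rw [← hD.cr, crs, Finset.mem_sdiff, Finset.mem_sdiff]
      exact ⟨⟨heD, d1c_notA h hb⟩, d1c_notB h ha⟩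
    · subst he
      exact (h1 hr).2 (hD.sp a haQ heD)
    · subst he
      exact (h4 hr).2 (hD.sp b hbQ heD)
    · apply hvQ
      rw [Finset.mem_union]
      right
      exact Finset.mem_sym2_iff.1 (hDT heD) v hve
  refine ⟨D ∪ C, ?_, ?_, ?_, ?_, ?_, ?_, ?_⟩
  · exact Finset.union_subset hD.sub hCE
  · exact Dec.add hD.dec hC6 hdis
  · rw [d1c_crs_union, hD.cr, hCc, Finset.insert_eq, Finset.union_comm]
  · rw [d1c_inn_union, Finset.card_union_of_disjoint, hD.inc, hCi]
    exact Finset.disjoint_of_subset_left Finset.inter_subset_left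
      (Finset.disjoint_of_subset_right Finset.inter_subset_left hdis)
  · rw [Finset.card_union_of_disjoint hdis, hD.card, hC6.card]
    ring
  · refine ⟨T ∪ T', ?_, ?_⟩
    · have := Finset.card_union_le T T'
      omega
    · apply Finset.union_subset
      · exact hDT.trans (Finset.sym2_mono Finset.subset_union_left)
      · exact hCT.trans (Finset.sym2_mono Finset.subset_union_right)
  · intro v hv hxv
    rcases Finset.mem_union.1 hxv with h5 | h5
    · exact hS (hD.sp v hv h5)
    · rcases hCe _ h5 with he | ⟨hr, he⟩ | ⟨hr, he⟩ | ⟨w, hwe, hwQ, hwx, -⟩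
      · rw [Sym2.eq_iff] at he
        rcases he with ⟨h6, -⟩ | ⟨h6, -⟩
        · exact absurd h6 hxa
        · exact absurd h6 hxb
      · have h6 : v = a := Sym2.congr_right.1 he
        rw [h6]; exact h1' hr
      · have h6 : v = b := Sym2.congr_right.1 he
        rw [h6]; exact h4' hr
      · rw [Sym2.mem_iff] at hwe
        rcases hwe with h6 | h6
        · exact absurd h6 hwx
        · exfalso
          apply hwQ
          rw [h6]
          exact Finset.mem_union_left _ hv

theorem d1c_two (h : D1Env E k A0 B0 x) {Q0 : Finset V} {R : Finset (Sym2 V)} {m s : ℕ}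
    {S : Finset V} {D : Finset (Sym2 V)} (hD : D1cS E A0 B0 x Q0 R m s S D) (hm : m ≤ 3)
    (hQ0 : Q0.card ≤ 15) {a b a' b' : V} (ha : a ∈ A0) (hb : b ∈ B0) (hab : s(a, b) ∈ E)
    (ha' : a' ∈ A0) (hb' : b' ∈ B0) (hab' : s(a', b') ∈ E) (haa : a ≠ a') (hbb : b ≠ b')
    (hR : s(a, b) ∉ R) (hR' : s(a', b') ∉ R) :
    ∃ D', D1cS E A0 B0 x Q0 (insert s(a, b) (insert s(a', b') R)) (m + 1) (s + 2) S D' := by
  obtain ⟨T, hT, hDT⟩ := hD.tt
  have hQ : (Q0 ∪ T).card ≤ 40 := by
    have := Finset.card_union_le Q0 T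
    omega
  obtain ⟨C, hCE, hC6, hCc, hCi, hCe, T', hT', hCT⟩ :=
    h.d1_two ha hb ha' hb' haa hbb hab hab' 2 (by norm_num) (by norm_num) (by norm_num)
      (by norm_num) (Q0 ∪ T) hQ
  have hxa : x ≠ a := fun e => h.hxA (e ▸ ha)
  have hxb : x ≠ b := fun e => h.hxB (e ▸ hb)
  have hxa' : x ≠ a' := fun e => h.hxA (e ▸ ha')
  have hxb' : x ≠ b' := fun e => h.hxB (e ▸ hb')
  have hdis : Disjoint D C := by
    rw [Finset.disjoint_left]
    intro e heD heC
    rcases hCe e heC with he | he | ⟨hr, -⟩ | ⟨hr, -⟩ | ⟨v, hve, hvQ, -⟩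
    · subst he
      apply hR
      rw [← hD.cr, crs, Finset.mem_sdiff, Finset.mem_sdiff]
      exact ⟨⟨heD, d1c_notA h hb⟩, d1c_notB h ha⟩
    · subst he
      apply hR'
      rw [← hD.cr, crs, Finset.mem_sdiff, Finset.mem_sdiff]
      exact ⟨⟨heD, d1c_notA h hb'⟩, d1c_notB h ha'⟩
    · omega
    · omega
    · apply hvQ
      rw [Finset.mem_union]
      right
      exact Finset.mem_sym2_iff.1 (hDT heD) v hve
  refine ⟨D ∪ C, ?_, ?_, ?_, ?_, ?_, ?_, ?_⟩
  · exact Finset.union_subset hD.sub hCE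
  · exact Dec.add hD.dec hC6 hdis
  · rw [d1c_crs_union, hD.cr, hCc]
    ext e
    simp only [Finset.mem_union, Finset.mem_insert, Finset.mem_singleton]
    tauto
  · rw [d1c_inn_union, Finset.card_union_of_disjoint, hD.inc, hCi]
    exact Finset.disjoint_of_subset_left Finset.inter_subset_left
      (Finset.disjoint_of_subset_right Finset.inter_subset_left hdis)
  · rw [Finset.card_union_of_disjoint hdis, hD.card, hC6.card]
    ring
  · refine ⟨T ∪ T', ?_, ?_⟩
    · have := Finset.card_union_le T T'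
      omega
    · apply Finset.union_subset
      · exact hDT.trans (Finset.sym2_mono Finset.subset_union_left)
      · exact hCT.trans (Finset.sym2_mono Finset.subset_union_right)
  · intro v hv hxv
    rcases Finset.mem_union.1 hxv with h5 | h5
    · exact hD.sp v hv h5
    · rcases hCe _ h5 with he | he | ⟨hr, -⟩ | ⟨hr, -⟩ | ⟨w, hwe, hwQ, hwx, -⟩
      · rw [Sym2.eq_iff] at he
        rcases he with ⟨h6, -⟩ | ⟨h6, -⟩
        · exact absurd h6 hxa
        · exact absurd h6 hxb
      · rw [Sym2.eq_iff] at he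
        rcases he with ⟨h6, -⟩ | ⟨h6, -⟩
        · exact absurd h6 hxa'
        · exact absurd h6 hxb'
      · omega
      · omega
      · rw [Sym2.mem_iff] at hwe
        rcases hwe with h6 | h6
        · exact absurd h6 hwx
        · exfalso
          apply hwQ
          rw [h6]
          exact Finset.mem_union_left _ hv

/-- the map from pairs to edges -/
def d1c_f {V : Type} (p : V × V) : Sym2 V := s(p.1, p.2)

theorem d1c_inj (h : D1Env E k A0 B0 x) {p q : V × V} (hp : p ∈ A0 ×ˢ B0) (hq : q ∈ A0 ×ˢ B0)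
    (hpq : d1c_f p = d1c_f q) : p = q := by
  rw [d1c_f, d1c_f, Sym2.eq_iff] at hpq
  rw [Finset.mem_product] at hp hq
  rcases hpq with ⟨h1, h2⟩ | ⟨h1, h2⟩
  · exact Prod.ext h1 h2
  · exfalso
    exact (Finset.disjoint_left.1 h.disj) hp.1 (h1 ▸ hq.2)

/-- several passes with two or three inner edges -/
theorem d1c_many (h : D1Env E k A0 B0 x) {Q0 : Finset V} (hQ0 : Q0.card ≤ 15)
    {R : Finset (Sym2 V)} {m s : ℕ} {S : Finset V} {D : Finset (Sym2 V)}
    (hD : D1cS E A0 B0 x Q0 R m s S D) (P : Finset (V × V)) :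
    P ⊆ A0 ×ˢ B0 → (∀ p ∈ P, d1c_f p ∈ E ∧ d1c_f p ∉ R ∧ p.1 ∈ Q0 ∧ p.2 ∈ Q0) →
    m + P.card ≤ 4 → ∀ t ≤ P.card,
    ∃ D', D1cS E A0 B0 x Q0 (R ∪ P.image d1c_f) (m + P.card) (s + 2 * P.card + t) S D' := by
  induction P using Finset.induction_on with
  | empty =>
    intro _ _ _ t ht
    have ht0 : t = 0 := by simpa using ht
    subst ht0
    exact ⟨D, by simpa using hD⟩
  | @insert p P hp ih =>
    intro hsub hall hcard t ht
    have hc : (insert p P).card = P.card + 1 := Finset.card_insert_of_notMem hp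
    rw [hc] at hcard ht
    have hsub' : P ⊆ A0 ×ˢ B0 := (Finset.subset_insert p P).trans hsub
    have hp2 := hsub (Finset.mem_insert_self p P)
    have hp3 := Finset.mem_product.1 hp2
    obtain ⟨hpE, hpR, hpQ1, hpQ2⟩ := hall p (Finset.mem_insert_self p P)
    have hnot : d1c_f p ∉ R ∪ P.image d1c_f := by
      rw [Finset.mem_union]
      rintro (h1 | h1)
      · exact hpR h1
      · obtain ⟨q, hq, hqp⟩ := Finset.mem_image.1 h1
        exact hp (d1c_inj h (hsub' hq) hp2 hqp ▸ hq)
    have hset : insert (d1c_f p) (R ∪ P.image d1c_f) = R ∪ (insert p P).image d1c_f := by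
      rw [Finset.image_insert, Finset.union_insert]
    rcases Nat.eq_zero_or_pos t with h0 | h0
    · subst h0
      obtain ⟨D1, hD1⟩ := ih hsub' (fun q hq => hall q (Finset.mem_insert_of_mem hq)) (by omega) 0
        (by omega)
      obtain ⟨D2, hD2⟩ := d1c_step h hD1 (by omega) hQ0 hp3.1 hp3.2 hpE hnot hpQ1 hpQ2 2
        (by norm_num) (by norm_num) (by norm_num) (by norm_num) S (Finset.Subset.refl _)
        (by norm_num) (by norm_num)
      refine ⟨D2, ?_⟩
      rw [hc, ← hset]
      have e1 : m + (P.card + 1) = m + P.card + 1 := by ring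
      have e2 : s + 2 * (P.card + 1) + 0 = s + 2 * P.card + 0 + 2 := by ring
      rw [e1, e2]
      exact hD2
    · obtain ⟨D1, hD1⟩ := ih hsub' (fun q hq => hall q (Finset.mem_insert_of_mem hq)) (by omega)
        (t - 1) (by omega)
      obtain ⟨D2, hD2⟩ := d1c_step h hD1 (by omega) hQ0 hp3.1 hp3.2 hpE hnot hpQ1 hpQ2 3
        (by norm_num) (by norm_num) (by norm_num) (by norm_num) S (Finset.Subset.refl _)
        (by norm_num) (by norm_num)
      refine ⟨D2, ?_⟩
      rw [hc, ← hset]
      have e1 : m + (P.card + 1) = m + P.card + 1 := by ring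
      have e2 : s + 2 * (P.card + 1) + t = s + 2 * P.card + (t - 1) + 3 := by omega
      rw [e1, e2]
      exact hD2

/-- conclusion from a final state -/
theorem d1c_fin {Q0 : Finset V} {m s : ℕ} {S : Finset V} {D : Finset (Sym2 V)}
    (hD : D1cS E A0 B0 x Q0 (crs E (insert x A0) (insert x B0)) m s S D) (hm : m ≤ 4)
    (hs : s % 6 = (inn E (insert x A0)).card % 6) : D1Goal E A0 B0 x := by
  refine ⟨D, hD.sub, hD.dec, ?_, ?_, ?_⟩
  · rw [← hD.cr, crs]
    exact Finset.sdiff_subset.trans Finset.sdiff_subset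
  · rw [hD.card]; omega
  · have h1 : inn (E \ D) (insert x A0) = inn E (insert x A0) \ inn D (insert x A0) := by
      ext e
      simp only [inn, Finset.mem_inter, Finset.mem_sdiff]
      tauto
    have h2 : inn D (insert x A0) ⊆ inn E (insert x A0) :=
      Finset.inter_subset_inter_right hD.sub
    rw [h1, Finset.card_sdiff_of_subset h2, hD.inc]
    have h3 := Finset.card_le_card h2
    rw [hD.inc] at h3
    omega

/-- the pairs of the cross edges -/
def d1c_P {V : Type} [DecidableEq V] (E : Finset (Sym2 V)) (A0 B0 : Finset V) : Finset (V × V) :=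
  (A0 ×ˢ B0).filter (fun p => d1c_f p ∈ E)

theorem d1c_cross (h : D1Env E k A0 B0 x) :
    crs E (insert x A0) (insert x B0) = (d1c_P E A0 B0).image d1c_f := by
  ext e
  induction e using Sym2.ind with
  | _ a b =>
    constructor
    · intro he
      rw [crs, Finset.mem_sdiff, Finset.mem_sdiff, Finset.mk_mem_sym2_iff,
        Finset.mk_mem_sym2_iff] at he
      obtain ⟨⟨heE, h1⟩, h2⟩ := he
      have ha : a ∈ insert x (A0 ∪ B0) := by rw [h.cover]; exact Finset.mem_univ _
      have hb : b ∈ insert x (A0 ∪ B0) := by rw [h.cover]; exact Finset.mem_univ _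
      simp only [Finset.mem_insert, Finset.mem_union] at ha hb h1 h2
      rw [Finset.mem_image]
      by_cases haA : a ∈ A0
      · by_cases hbB : b ∈ B0
        · exact ⟨(a, b), Finset.mem_filter.2 ⟨Finset.mem_product.2 ⟨haA, hbB⟩, heE⟩, rfl⟩
        · exfalso
          tauto
      · by_cases haB : a ∈ B0
        · by_cases hbA : b ∈ A0
          · refine ⟨(b, a), Finset.mem_filter.2 ⟨Finset.mem_product.2 ⟨hbA, haB⟩, ?_⟩, ?_⟩
            · rw [d1c_f, Sym2.eq_swap]; exact heE
            · rw [d1c_f, Sym2.eq_swap]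
          · exfalso
            tauto
        · exfalso
          tauto
    · intro he
      obtain ⟨p, hp, hpe⟩ := Finset.mem_image.1 he
      rw [← hpe]
      obtain ⟨hp1, hp2⟩ := Finset.mem_filter.1 hp
      rw [Finset.mem_product] at hp1
      rw [crs, Finset.mem_sdiff, Finset.mem_sdiff]
      exact ⟨⟨hp2, d1c_notA h hp1.2⟩, d1c_notB h hp1.1⟩

theorem d1c_cardP (h : D1Env E k A0 B0 x) :
    (d1c_P E A0 B0).card = (crs E (insert x A0) (insert x B0)).card := by
  rw [d1c_cross h, Finset.card_image_of_injOn]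
  intro p hp q hq hpq
  exact d1c_inj h (Finset.mem_filter.1 (Finset.mem_coe.1 hp)).1
    (Finset.mem_filter.1 (Finset.mem_coe.1 hq)).1 hpq

theorem d1c_tri (P : Finset (V × V)) (hP : 2 ≤ P.card) :
    (∃ p ∈ P, ∃ q ∈ P, p.1 ≠ q.1 ∧ p.2 ≠ q.2) ∨ (∃ a, ∀ p ∈ P, p.1 = a) ∨
      (∃ b, ∀ p ∈ P, p.2 = b) := by
  by_cases h : ∃ p ∈ P, ∃ q ∈ P, p.1 ≠ q.1 ∧ p.2 ≠ q.2
  · left; exact h
  · right
    push Not at h
    obtain ⟨p, hp, q, hq, hpq⟩ := Finset.one_lt_card.1 hP
    by_cases h1 : p.1 = q.1
    · have h2 : p.2 ≠ q.2 := fun e => hpq (Prod.ext h1 e)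
      left
      refine ⟨p.1, fun r hr => ?_⟩
      by_contra h3
      have h4 := h r hr p hp h3
      have h5 := h r hr q hq (h1 ▸ h3)
      exact h2 (h4.symm.trans h5)
    · have h2 : p.2 = q.2 := h p hp q hq h1
      right
      refine ⟨p.2, fun r hr => ?_⟩
      by_contra h3
      have h4 : r.1 = p.1 := by
        by_contra h5
        exact h3 (h r hr p hp h5)
      have h6 : r.1 = q.1 := by
        by_contra h5
        exact h3 ((h r hr q hq h5).trans h2.symm)
      exact h1 (h4.symm.trans h6)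

/-- the set of all ends of cross edges -/
def d1c_Q {V : Type} [DecidableEq V] (P : Finset (V × V)) : Finset V :=
  P.image Prod.fst ∪ P.image Prod.snd

theorem d1c_cardQ (P : Finset (V × V)) (hP : P.card ≤ 4) : (d1c_Q P).card ≤ 15 := by
  have h1 := Finset.card_union_le (P.image Prod.fst) (P.image Prod.snd)
  have h2 := Finset.card_image_le (s := P) (f := Prod.fst)
  have h3 := Finset.card_image_le (s := P) (f := Prod.snd)
  rw [d1c_Q]
  omega

theorem d1c_Q1 {P : Finset (V × V)} {p : V × V} (hp : p ∈ P) : p.1 ∈ d1c_Q P :=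
  Finset.mem_union_left _ (Finset.mem_image_of_mem _ hp)

theorem d1c_Q2 {P : Finset (V × V)} {p : V × V} (hp : p ∈ P) : p.2 ∈ d1c_Q P :=
  Finset.mem_union_right _ (Finset.mem_image_of_mem _ hp)

/-- all passes with `r ∈ {2,3}` -/
theorem d1c_all (h : D1Env E k A0 B0 x) (t : ℕ)
    (ht : t ≤ (crs E (insert x A0) (insert x B0)).card)
    (hs : (2 * (crs E (insert x A0) (insert x B0)).card + t) % 6 =
      (inn E (insert x A0)).card % 6) : D1Goal E A0 B0 x := by
  have hc := d1c_cardP h
  have h4 := h.few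
  obtain ⟨D, hD⟩ := d1c_many h (d1c_cardQ (d1c_P E A0 B0) (by omega))
    (d1c_start (E := E) (A0 := A0) (B0 := B0) (x := x) (d1c_Q (d1c_P E A0 B0))) (d1c_P E A0 B0)
    (Finset.filter_subset _ _)
    (fun p hp => ⟨(Finset.mem_filter.1 hp).2, by simp, d1c_Q1 hp, d1c_Q2 hp⟩) (by omega) t
    (by omega)
  rw [Finset.empty_union, ← d1c_cross h] at hD
  apply d1c_fin hD (by omega)
  rw [← hs, hc]
  congr 1
  omega

/-- `d1_two` and passes with `r ∈ {2,3}` -/
theorem d1c_allTwo (h : D1Env E k A0 B0 x) {p q : V × V} (hp : p ∈ d1c_P E A0 B0)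
    (hq : q ∈ d1c_P E A0 B0) (h1 : p.1 ≠ q.1) (h2 : p.2 ≠ q.2) (t : ℕ)
    (ht : t + 2 ≤ (crs E (insert x A0) (insert x B0)).card)
    (hs : (2 * (crs E (insert x A0) (insert x B0)).card - 2 + t) % 6 =
      (inn E (insert x A0)).card % 6) : D1Goal E A0 B0 x := by
  have hc := d1c_cardP h
  have h4 := h.few
  obtain ⟨hp1, hp2⟩ := Finset.mem_filter.1 hp
  obtain ⟨hq1, hq2⟩ := Finset.mem_filter.1 hq
  have hp3 := Finset.mem_product.1 hp1
  have hq3 := Finset.mem_product.1 hq1
  have hpq : p ≠ q := fun e => h1 (by rw [e])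
  have hQ := d1c_cardQ (d1c_P E A0 B0) (by omega)
  obtain ⟨D1, hD1⟩ := d1c_two h
    (d1c_start (E := E) (A0 := A0) (B0 := B0) (x := x) (d1c_Q (d1c_P E A0 B0))) (by omega) hQ
    hp3.1 hp3.2 hp2 hq3.1 hq3.2 hq2 h1 h2 (by simp) (by simp)
  have hcard : (((d1c_P E A0 B0).erase p).erase q).card + 2 = (d1c_P E A0 B0).card := by
    have e1 := Finset.card_erase_add_one hp
    have e2 := Finset.card_erase_add_one (Finset.mem_erase.2 ⟨hpq.symm, hq⟩)
    omega
  obtain ⟨D, hD⟩ := d1c_many h hQ hD1 (((d1c_P E A0 B0).erase p).erase q)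
    (((Finset.erase_subset _ _).trans (Finset.erase_subset _ _)).trans (Finset.filter_subset _ _))
    (by
      intro r hr
      obtain ⟨hr1, hr2⟩ := Finset.mem_erase.1 hr
      obtain ⟨hr3, hr4⟩ := Finset.mem_erase.1 hr2
      obtain ⟨hr5, hr6⟩ := Finset.mem_filter.1 hr4
      refine ⟨hr6, ?_, d1c_Q1 hr4, d1c_Q2 hr4⟩
      intro hmem
      simp only [Finset.mem_insert, Finset.notMem_empty, or_false] at hmem
      rcases hmem with hmem | hmem
      · exact hr3 (d1c_inj h hr5 hp1 hmem)
      · exact hr1 (d1c_inj h hr5 hq1 hmem))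
    (by omega) t (by omega)
  have hset : (insert s(p.1, p.2) (insert s(q.1, q.2) (∅ : Finset (Sym2 V)))) ∪
      (((d1c_P E A0 B0).erase p).erase q).image d1c_f =
      crs E (insert x A0) (insert x B0) := by
    rw [d1c_cross h]
    have e1 : d1c_P E A0 B0 = insert p (insert q (((d1c_P E A0 B0).erase p).erase q)) := by
      rw [Finset.insert_erase (Finset.mem_erase.2 ⟨hpq.symm, hq⟩), Finset.insert_erase hp]
    conv_rhs => rw [e1]
    rw [Finset.image_insert, Finset.image_insert]
    ext e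
    simp only [Finset.mem_union, Finset.mem_insert, d1c_f, Finset.notMem_empty, or_false]
    tauto
  rw [hset] at hD
  apply d1c_fin hD (by omega)
  rw [← hs]
  congr 1
  omega

theorem d1c_degA0 (h : D1Env E k A0 B0 x) {a : V} (hall : ∀ p ∈ d1c_P E A0 B0, p.1 = a) {v : V}
    (hv : v ∈ A0) (hva : v ≠ a) : deg (crs E (insert x A0) (insert x B0)) v = 0 := by
  rw [deg, Finset.card_eq_zero, Finset.filter_eq_empty_iff]
  intro e he hve
  rw [d1c_cross h, Finset.mem_image] at he
  obtain ⟨p, hp, rfl⟩ := he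
  rw [d1c_f, Sym2.mem_iff] at hve
  rcases hve with h1 | h1
  · exact hva (h1.trans (hall p hp))
  · have := (Finset.mem_product.1 (Finset.mem_filter.1 hp).1).2
    exact (Finset.disjoint_left.1 h.disj) hv (h1 ▸ this)

theorem d1c_dega (h : D1Env E k A0 B0 x) {a : V} (hall : ∀ p ∈ d1c_P E A0 B0, p.1 = a) :
    deg (crs E (insert x A0) (insert x B0)) a =
      (crs E (insert x A0) (insert x B0)).card := by
  rw [deg, Finset.filter_true_of_mem]
  intro e he
  rw [d1c_cross h, Finset.mem_image] at he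
  obtain ⟨p, hp, rfl⟩ := he
  rw [d1c_f, Sym2.mem_iff]
  left
  exact (hall p hp).symm

theorem d1c_degb0 (h : D1Env E k A0 B0 x) {v : V}
    (hv : v ∈ B0) (hva : v ∉ (d1c_P E A0 B0).image Prod.snd) :
    deg (crs E (insert x A0) (insert x B0)) v = 0 := by
  rw [deg, Finset.card_eq_zero, Finset.filter_eq_empty_iff]
  intro e he hve
  rw [d1c_cross h, Finset.mem_image] at he
  obtain ⟨p, hp, rfl⟩ := he
  rw [d1c_f, Sym2.mem_iff] at hve
  rcases hve with h1 | h1
  · have := (Finset.mem_product.1 (Finset.mem_filter.1 hp).1).1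
    exact (Finset.disjoint_left.1 h.disj) (h1 ▸ this) hv
  · exact hva (h1 ▸ Finset.mem_image_of_mem _ hp)

theorem d1c_degb1 (h : D1Env E k A0 B0 x) {a : V} (hall : ∀ p ∈ d1c_P E A0 B0, p.1 = a) {v : V}
    (hva : v ∈ (d1c_P E A0 B0).image Prod.snd) :
    deg (crs E (insert x A0) (insert x B0)) v = 1 := by
  obtain ⟨q, hq, rfl⟩ := Finset.mem_image.1 hva
  rw [deg, Finset.card_eq_one]
  refine ⟨d1c_f q, ?_⟩
  ext e
  rw [Finset.mem_filter, Finset.mem_singleton]
  have hqB := (Finset.mem_product.1 (Finset.mem_filter.1 hq).1).2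
  constructor
  · rintro ⟨he, hve⟩
    rw [d1c_cross h, Finset.mem_image] at he
    obtain ⟨p, hp, rfl⟩ := he
    rw [d1c_f, Sym2.mem_iff] at hve
    rcases hve with h1 | h1
    · have := (Finset.mem_product.1 (Finset.mem_filter.1 hp).1).1
      exact absurd hqB ((Finset.disjoint_left.1 h.disj) (h1 ▸ this))
    · have h9 : p = q := Prod.ext ((hall p hp).trans (hall q hq).symm) h1.symm
      rw [h9]
  · rintro rfl
    refine ⟨?_, ?_⟩
    · rw [d1c_cross h]
      exact Finset.mem_image_of_mem _ hq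
    · rw [d1c_f, Sym2.mem_iff]
      right; rfl

/-- in the star case only `x` can be missing at the centre -/
theorem d1c_star (h : D1Env E k A0 B0 x) {a : V} (ha : a ∈ A0)
    (hall : ∀ p ∈ d1c_P E A0 B0, p.1 = a) :
    mis E A0 x a = if s(x, a) ∈ E then 0 else 1 := by
  have hxa : x ≠ a := fun e => h.hxA (e ▸ ha)
  have h1 : (insert x A0).filter (fun v => v ≠ a ∧ s(a, v) ∉ E) =
      if s(x, a) ∈ E then ∅ else {x} := by
    ext v
    rw [Finset.mem_filter]
    constructor
    · rintro ⟨hv, hva, hav⟩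
      rcases Finset.mem_insert.1 hv with h2 | h2
      · subst h2
        rw [Sym2.eq_swap] at hav
        rw [if_neg hav]
        exact Finset.mem_singleton_self _
      · exfalso
        have h3 := h.clean h2 (d1c_degA0 h hall h2 hva) a (Finset.mem_insert_of_mem ha) hva.symm
        rw [Sym2.eq_swap] at h3
        exact hav h3
    · intro hv
      split_ifs at hv with h2
      · simp at hv
      · rw [Finset.mem_singleton] at hv
        subst hv
        refine ⟨Finset.mem_insert_self _ _, hxa, ?_⟩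
        rw [Sym2.eq_swap]; exact h2
  rw [mis, h1]
  split_ifs <;> simp

theorem d1c_centre (h : D1Env E k A0 B0 x) {a : V} (hall : ∀ p ∈ d1c_P E A0 B0, p.1 = a)
    (hne : (d1c_P E A0 B0).Nonempty) : a ∈ A0 := by
  obtain ⟨p, hp⟩ := hne
  have := (Finset.mem_product.1 (Finset.mem_filter.1 hp).1).1
  rw [hall p hp] at this
  exact this

/-- star case, `f = 4` -/
theorem d1c_star4 (h : D1Env E k A0 B0 x)
    (hf : (crs E (insert x A0) (insert x B0)).card = 4) {a : V}
    (hall : ∀ p ∈ d1c_P E A0 B0, p.1 = a) : D1Goal E A0 B0 x := by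
  have hc := d1c_cardP h
  have hne : (d1c_P E A0 B0).Nonempty := by
    rw [← Finset.card_pos]; omega
  have ha := d1c_centre h hall hne
  have h1 := h.mis_le ha
  rw [d1c_dega h hall, hf, d1c_star h ha hall] at h1
  have hxa : s(x, a) ∈ E := by
    by_contra h2
    rw [if_neg h2] at h1
    have := h1.2.2 (by decide)
    revert this
    decide
  have hQ := d1c_cardQ (d1c_P E A0 B0) (by omega)
  by_cases h7 : (inn E (insert x A0)).card % 6 = 1
  · obtain ⟨p, hp⟩ := hne
    obtain ⟨hp1, hp2⟩ := Finset.mem_filter.1 hp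
    have hp3 := Finset.mem_product.1 hp1
    have hpa := hall p hp
    obtain ⟨D1, hD1⟩ := d1c_step h
      (d1c_start (E := E) (A0 := A0) (B0 := B0) (x := x) (d1c_Q (d1c_P E A0 B0))) (by omega) hQ
      hp3.1 hp3.2 hp2 (by simp) (d1c_Q1 hp) (d1c_Q2 hp) 1 (by norm_num) (by norm_num)
      (fun _ => ⟨by rw [hpa]; exact hxa, by simp⟩) (by norm_num) {p.1} (by simp) (by simp)
      (by norm_num)
    have hcard := Finset.card_erase_add_one hp
    obtain ⟨D, hD⟩ := d1c_many h hQ hD1 ((d1c_P E A0 B0).erase p)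
      ((Finset.erase_subset _ _).trans (Finset.filter_subset _ _))
      (by
        intro r hr
        obtain ⟨hr3, hr4⟩ := Finset.mem_erase.1 hr
        obtain ⟨hr5, hr6⟩ := Finset.mem_filter.1 hr4
        refine ⟨hr6, ?_, d1c_Q1 hr4, d1c_Q2 hr4⟩
        intro hmem
        simp only [Finset.mem_insert, Finset.notMem_empty, or_false] at hmem
        exact hr3 (d1c_inj h hr5 hp1 hmem))
      (by omega) 0 (by omega)
    have hset : (insert s(p.1, p.2) (∅ : Finset (Sym2 V))) ∪
        ((d1c_P E A0 B0).erase p).image d1c_f = crs E (insert x A0) (insert x B0) := by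
      rw [d1c_cross h]
      conv_rhs => rw [← Finset.insert_erase hp]
      rw [Finset.image_insert]
      ext e
      simp only [Finset.mem_union, Finset.mem_insert, d1c_f, Finset.notMem_empty, or_false]
    rw [hset] at hD
    apply d1c_fin hD (by omega)
    rw [h7]
    have : ((d1c_P E A0 B0).erase p).card = 3 := by omega
    rw [this]
  · have h8 := Nat.mod_lt (inn E (insert x A0)).card (show 0 < 6 by norm_num)
    by_cases h9 : (inn E (insert x A0)).card % 6 = 0
    · apply d1c_all h 4 (by omega)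
      rw [hf, h9]
    · apply d1c_all h ((inn E (insert x A0)).card % 6 - 2) (by omega)
      rw [hf]
      omega

/-- star case, `f = 3` -/
theorem d1c_star3 (h : D1Env E k A0 B0 x)
    (hf : (crs E (insert x A0) (insert x B0)).card = 3) {a : V}
    (hall : ∀ p ∈ d1c_P E A0 B0, p.1 = a) : D1Goal E A0 B0 x := by
  have hc := d1c_cardP h
  have hne : (d1c_P E A0 B0).Nonempty := by
    rw [← Finset.card_pos]; omega
  have ha := d1c_centre h hall hne
  have h1 := h.mis_le ha
  rw [d1c_dega h hall, hf] at h1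
  have hmis := d1c_star h ha hall
  rw [hmis] at h1
  have hxa : s(x, a) ∉ E := by
    intro h2
    rw [if_pos h2] at h1
    have := h1.2.1 (by decide)
    revert this
    decide
  rw [if_neg hxa] at hmis
  have hQ := d1c_cardQ (d1c_P E A0 B0) (by omega)
  -- the other vertices of `A0` are clean
  have hA1 : ∀ v ∈ A0, v ≠ a → mis E A0 x v = 0 := by
    intro v hv hva
    have h2 := (h.mis_le hv).1
    rw [d1c_degA0 h hall hv hva] at h2
    omega
  have hsumA : ∑ v ∈ A0, mis E A0 x v = 1 := by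
    rw [← hmis]
    apply Finset.sum_eq_single_of_mem a ha
    intro v hv hva
    exact hA1 v hv hva
  have hhA : (A0.filter (fun v => s(x, v) ∉ E)) = {a} := by
    ext v
    rw [Finset.mem_filter, Finset.mem_singleton]
    constructor
    · rintro ⟨hv, hxv⟩
      by_contra hva
      have h3 := h.clean hv (d1c_degA0 h hall hv hva) x (Finset.mem_insert_self _ _)
        (fun e => h.hxA (e ▸ hv))
      rw [Sym2.eq_swap] at h3
      exact hxv h3
    · rintro rfl
      exact ⟨ha, hxa⟩
  have hcA := h.count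
  rw [hsumA, hhA, Finset.card_singleton] at hcA
  -- side `B`
  have hB := h.swap
  have hBs : (d1c_P E A0 B0).image Prod.snd ⊆ B0 := by
    intro v hv
    obtain ⟨p, hp, rfl⟩ := Finset.mem_image.1 hv
    exact (Finset.mem_product.1 (Finset.mem_filter.1 hp).1).2
  have hinjs : Set.InjOn (Prod.snd : V × V → V) (d1c_P E A0 B0 : Set (V × V)) := by
    intro p hp q hq hpq
    exact Prod.ext ((hall p (Finset.mem_coe.1 hp)).trans (hall q (Finset.mem_coe.1 hq)).symm) hpq
  have hBscard : ((d1c_P E A0 B0).image Prod.snd).card = 3 := by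
    rw [Finset.card_image_of_injOn hinjs, hc, hf]
  have hB0 : ∀ v ∈ B0, v ∉ (d1c_P E A0 B0).image Prod.snd → mis E B0 x v = 0 := by
    intro v hv hvn
    have h2 := (hB.mis_le hv).1
    rw [d1c_crs_comm, d1c_degb0 h hv hvn] at h2
    omega
  have hB1 : ∀ v ∈ (d1c_P E A0 B0).image Prod.snd, mis E B0 x v = 1 := by
    intro v hv
    have h2 := hB.mis_le (hBs hv)
    rw [d1c_crs_comm, d1c_degb1 h hall hv] at h2
    have h3 : ¬ Even (mis E B0 x v) := fun h4 => by
      have := h2.2.1 h4
      revert this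
      decide
    rcases Nat.lt_or_ge (mis E B0 x v) 1 with h4 | h4
    · exfalso
      apply h3
      have : mis E B0 x v = 0 := by omega
      rw [this]; exact Even.zero
    · omega
  have hsumB : ∑ v ∈ B0, mis E B0 x v = 3 := by
    rw [← Finset.sum_subset hBs hB0, Finset.sum_congr rfl hB1]
    simp [hBscard]
  have hcB := hB.count
  rw [hsumB] at hcB
  have htot := h.total
  rw [hf] at htot
  obtain ⟨e6, he6⟩ := h.six
  -- non-neighbours of `x` in `B0`
  have hNB : (B0.filter (fun v => s(x, v) ∉ E)) ⊆ (d1c_P E A0 B0).image Prod.snd := by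
    intro v hv
    obtain ⟨hv1, hv2⟩ := Finset.mem_filter.1 hv
    by_contra hvn
    have h3 := hB.clean hv1 (by rw [d1c_crs_comm]; exact d1c_degb0 h hv1 hvn) x
      (Finset.mem_insert_self _ _) (fun e => h.hxB (e ▸ hv1))
    rw [Sym2.eq_swap] at h3
    exact hv2 h3
  have hNBc : (B0.filter (fun v => s(x, v) ∉ E)).card ≤ 3 := by
    rw [← hBscard]; exact Finset.card_le_card hNB
  have hhB : (B0.filter (fun v => s(x, v) ∉ E)).card = 1 := by
    have e1 : 2 * k * (2 * k + 1) = 2 * (k * (2 * k + 1)) := by ring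
    rw [e1] at hcA hcB
    generalize k * (2 * k + 1) = K at hcA hcB
    omega
  -- two neighbours of `x`
  have hadj : 2 ≤ (((d1c_P E A0 B0)).filter (fun p => s(x, p.2) ∈ E)).card := by
    have h5 : (((d1c_P E A0 B0)).filter (fun p => ¬ s(x, p.2) ∈ E)).card ≤
        (B0.filter (fun v => s(x, v) ∉ E)).card := by
      apply Finset.card_le_card_of_injOn Prod.snd
      · intro p hp
        obtain ⟨hp1, hp2⟩ := Finset.mem_filter.1 (Finset.mem_coe.1 hp)
        exact Finset.mem_coe.2 (Finset.mem_filter.2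
          ⟨(Finset.mem_product.1 (Finset.mem_filter.1 hp1).1).2, hp2⟩)
      · exact hinjs.mono (Finset.coe_subset.2 (Finset.filter_subset _ _))
    have h6 := Finset.card_filter_add_card_filter_not (s := d1c_P E A0 B0)
      (fun p => s(x, p.2) ∈ E)
    omega
  obtain ⟨p, hp, q, hq, hpq⟩ := Finset.one_lt_card.1 hadj
  obtain ⟨hp, hxp⟩ := Finset.mem_filter.1 hp
  obtain ⟨hq, hxq⟩ := Finset.mem_filter.1 hq
  obtain ⟨hp1, hp2⟩ := Finset.mem_filter.1 hp
  obtain ⟨hq1, hq2⟩ := Finset.mem_filter.1 hq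
  have hp3 := Finset.mem_product.1 hp1
  have hq3 := Finset.mem_product.1 hq1
  have hpq2 : p.2 ≠ q.2 := fun e => hpq (hinjs (Finset.mem_coe.2 hp) (Finset.mem_coe.2 hq) e)
  have h8 := Nat.mod_lt (inn E (insert x A0)).card (show 0 < 6 by norm_num)
  have hcard1 := Finset.card_erase_add_one hp
  by_cases h9 : (inn E (insert x A0)).card % 6 ≤ 3
  · apply d1c_all h ((inn E (insert x A0)).card % 6) (by omega)
    rw [hf]
    omega
  · obtain ⟨D1, hD1⟩ := d1c_step h
      (d1c_start (E := E) (A0 := A0) (B0 := B0) (x := x) (d1c_Q (d1c_P E A0 B0))) (by omega) hQ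
      hp3.1 hp3.2 hp2 (by simp) (d1c_Q1 hp) (d1c_Q2 hp) 4 (by norm_num) (by norm_num)
      (by norm_num) (fun _ => ⟨hxp, by simp⟩) {p.2} (by simp) (by norm_num) (by simp)
    by_cases h10 : (inn E (insert x A0)).card % 6 = 4
    · obtain ⟨D, hD⟩ := d1c_many h hQ hD1 ((d1c_P E A0 B0).erase p)
        ((Finset.erase_subset _ _).trans (Finset.filter_subset _ _))
        (by
          intro r hr
          obtain ⟨hr3, hr4⟩ := Finset.mem_erase.1 hr
          obtain ⟨hr5, hr6⟩ := Finset.mem_filter.1 hr4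
          refine ⟨hr6, ?_, d1c_Q1 hr4, d1c_Q2 hr4⟩
          intro hmem
          simp only [Finset.mem_insert, Finset.notMem_empty, or_false] at hmem
          exact hr3 (d1c_inj h hr5 hp1 hmem))
        (by omega) 2 (by omega)
      have hset : (insert s(p.1, p.2) (∅ : Finset (Sym2 V))) ∪
          ((d1c_P E A0 B0).erase p).image d1c_f = crs E (insert x A0) (insert x B0) := by
        rw [d1c_cross h]
        conv_rhs => rw [← Finset.insert_erase hp]
        rw [Finset.image_insert]
        ext e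
        simp only [Finset.mem_union, Finset.mem_insert, d1c_f, Finset.notMem_empty, or_false]
      rw [hset] at hD
      apply d1c_fin hD (by omega)
      rw [h10]
      have : ((d1c_P E A0 B0).erase p).card = 2 := by omega
      rw [this]
    · have h11 : (inn E (insert x A0)).card % 6 = 5 := by omega
      have hq4 : q ∈ (d1c_P E A0 B0).erase p := Finset.mem_erase.2 ⟨hpq.symm, hq⟩
      have hcard2 := Finset.card_erase_add_one hq4
      obtain ⟨D2, hD2⟩ := d1c_step h hD1 (by omega) hQ
        hq3.1 hq3.2 hq2 (by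
          intro hmem
          simp only [Finset.mem_insert, Finset.notMem_empty, or_false] at hmem
          exact hpq (d1c_inj h hp1 hq1 hmem.symm)) (d1c_Q1 hq) (d1c_Q2 hq) 4 (by norm_num)
        (by norm_num)
        (by norm_num) (fun _ => ⟨hxq, by simpa using hpq2.symm⟩) {p.2, q.2} (by simp)
        (by norm_num) (by simp)
      obtain ⟨D, hD⟩ := d1c_many h hQ hD2 (((d1c_P E A0 B0).erase p).erase q)
        (((Finset.erase_subset _ _).trans (Finset.erase_subset _ _)).trans
          (Finset.filter_subset _ _))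
        (by
          intro r hr
          obtain ⟨hr1, hr2⟩ := Finset.mem_erase.1 hr
          obtain ⟨hr3, hr4⟩ := Finset.mem_erase.1 hr2
          obtain ⟨hr5, hr6⟩ := Finset.mem_filter.1 hr4
          refine ⟨hr6, ?_, d1c_Q1 hr4, d1c_Q2 hr4⟩
          intro hmem
          simp only [Finset.mem_insert, Finset.notMem_empty, or_false] at hmem
          rcases hmem with hmem | hmem
          · exact hr1 (d1c_inj h hr5 hq1 hmem)
          · exact hr3 (d1c_inj h hr5 hp1 hmem))
        (by omega) 1 (by omega)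
      have hset : (insert s(q.1, q.2) (insert s(p.1, p.2) (∅ : Finset (Sym2 V)))) ∪
          (((d1c_P E A0 B0).erase p).erase q).image d1c_f =
          crs E (insert x A0) (insert x B0) := by
        rw [d1c_cross h]
        have e1 : d1c_P E A0 B0 = insert p (insert q (((d1c_P E A0 B0).erase p).erase q)) := by
          rw [Finset.insert_erase hq4, Finset.insert_erase hp]
        conv_rhs => rw [e1]
        rw [Finset.image_insert, Finset.image_insert]
        ext e
        simp only [Finset.mem_union, Finset.mem_insert, d1c_f, Finset.notMem_empty, or_false]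
        tauto
      rw [hset] at hD
      apply d1c_fin hD (by omega)
      rw [h11]
      have : (((d1c_P E A0 B0).erase p).erase q).card = 1 := by omega
      rw [this]

/-- swapping turns a star at a vertex of `B0` into a star at a vertex of `A0` -/
theorem d1c_swapP {b : V} (hall : ∀ p ∈ d1c_P E A0 B0, p.2 = b) :
    ∀ p ∈ d1c_P E B0 A0, p.1 = b := by
  intro p hp
  obtain ⟨h1, h2⟩ := Finset.mem_filter.1 hp
  rw [Finset.mem_product] at h1
  have : (p.2, p.1) ∈ d1c_P E A0 B0 := by
    apply Finset.mem_filter.2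
    refine ⟨Finset.mem_product.2 ⟨h1.2, h1.1⟩, ?_⟩
    rw [d1c_f, Sym2.eq_swap]
    exact h2
  exact hall _ this

theorem D1Env.goal_f3 (h : D1Env E k A0 B0 x)
    (hf : (crs E (insert x A0) (insert x B0)).card = 3) : D1Goal E A0 B0 x := by
  have hc := d1c_cardP h
  have h8 := Nat.mod_lt (inn E (insert x A0)).card (show 0 < 6 by norm_num)
  rcases d1c_tri (d1c_P E A0 B0) (by omega) with ⟨p, hp, q, hq, h1, h2⟩ | ⟨a, ha⟩ | ⟨b, hb⟩
  · by_cases h9 : (inn E (insert x A0)).card % 6 ≤ 3
    · apply d1c_all h ((inn E (insert x A0)).card % 6) (by omega)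
      rw [hf]
      omega
    · apply d1c_allTwo h hp hq h1 h2 ((inn E (insert x A0)).card % 6 - 4) (by omega)
      rw [hf]
      omega
  · exact d1c_star3 h hf ha
  · apply h.goal_swap
    apply d1c_star3 h.swap _ (d1c_swapP hb)
    rw [d1c_crs_comm]
    exact hf

theorem D1Env.goal_f4 (h : D1Env E k A0 B0 x)
    (hf : (crs E (insert x A0) (insert x B0)).card = 4) : D1Goal E A0 B0 x := by
  have hc := d1c_cardP h
  have h8 := Nat.mod_lt (inn E (insert x A0)).card (show 0 < 6 by norm_num)
  rcases d1c_tri (d1c_P E A0 B0) (by omega) with ⟨p, hp, q, hq, h1, h2⟩ | ⟨a, ha⟩ | ⟨b, hb⟩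
  · by_cases h7 : (inn E (insert x A0)).card % 6 = 1
    · apply d1c_allTwo h hp hq h1 h2 1 (by omega)
      rw [hf, h7]
    · by_cases h9 : (inn E (insert x A0)).card % 6 = 0
      · apply d1c_all h 4 (by omega)
        rw [hf, h9]
      · apply d1c_all h ((inn E (insert x A0)).card % 6 - 2) (by omega)
        rw [hf]
        omega
  · exact d1c_star4 h hf ha
  · apply h.goal_swap
    apply d1c_star4 h.swap _ (d1c_swapP hb)
    rw [d1c_crs_comm]
    exact hf

end H15C6
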