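import Pool.Agent.H15.C6.CORE
import Pool.Agent.H15.C6.ABN2

/-!
Module NCT2 (part of NCT).  Decomposition of nearly complete structures: near-complete graphs (`nct`), near-complete
bipartite graphs (`bipt`), near-complete blow-ups of the four-class pattern (`e3t`).
All by `core` + absorbers; `|U| = n`.

`nct`: all vertices have degree `≥ c n`; all vertices of `A ⊆ U` (`|U \ A| ≤ ε n`) have degree `≥ (1-ε) n`.
`R = True`; for `x, y ∈ U`: `≥ (c-ε) n` choices each for `a ∈ N(x) ∩ A`, `c' ∈ N(y) ∩ A`, then `b` adjacent to both: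
`≥ (1-2ε)n`, so `P4 ≥ (c/2)^2/2 n^3` (`η := c^2/16`).  `Gam` with `η' := c/2`: every vertex of `A` is `Gam`-adjacent to
every other vertex; `hK4`: any two vertices of `A` outside `Z ∪ {x_i}`; hub: any vertex of `A \ Z`,
`ζ := c/2`.
`bipt`: `U = A ∪ B`, all edges between `A` and `B`; `R x y :=` same side.  Vertices of `A' ⊆ A` (resp. `B' ⊆ B`) are adjacent
to all but `ε n` vertices of `B` (resp. `A`), all vertices have degree `≥ c n`.
`e3t`: from `absorb_e3`; `R = True`; `P4 ≥ η n^3` for all pairs of vertices: between any two classes there is a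
walk of length four in the pattern (loops at 0 and 3, path 0-1-2-3), choose the classes along it.
-/

open Finset

namespace H15C6

private theorem nct2_P4 {V : Type} [DecidableEq V] {E : Finset (Sym2 V)} {U S : Finset V}
    (hS : S ⊆ U) {x y : V} {p q : ℝ} (hp : 0 ≤ p) (hq : 0 ≤ q) (h1 : p ≤ (dg E S x : ℝ))
    (h2 : p ≤ (dg E S y : ℝ)) (h3 : ∀ a ∈ S, ∀ c ∈ S, q ≤ (cn E U a c : ℝ)) :
    p * p * q ≤ (P4 E U x y : ℝ) := by
  set Na := S.filter (fun a => s(x, a) ∈ E) with hNa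
  set Nc := S.filter (fun c => s(y, c) ∈ E) with hNc
  set F := (Na ×ˢ Nc).sigma (fun r => U.filter (fun m => s(r.1, m) ∈ E ∧ s(m, r.2) ∈ E)) with hF
  have c1 : F.card ≤ P4 E U x y := by
    unfold P4
    apply Finset.card_le_card_of_injOn (fun r : (Σ _ : V × V, V) => (r.1.1, r.2, r.1.2))
    · rintro ⟨⟨a, c⟩, b⟩ hr
      have hr' := Finset.mem_sigma.1 (Finset.mem_coe.1 hr)
      simp only [Finset.mem_product, Finset.mem_filter, hNa, hNc] at hr'
      obtain ⟨⟨⟨haS, hxa⟩, hcS, hyc⟩, hbU, hab, hbc⟩ := hr'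
      refine Finset.mem_coe.2 (Finset.mem_filter.2 ⟨?_, ?_⟩)
      · simp only [Finset.mem_product]
        exact ⟨hS haS, hbU, hS hcS⟩
      · exact ⟨hxa, hab, hbc, by rw [Sym2.eq_swap]; exact hyc⟩
    · rintro ⟨⟨a, c⟩, b⟩ _ ⟨⟨a', c'⟩, b'⟩ _ h
      simp only [Prod.mk.injEq] at h
      obtain ⟨rfl, rfl, rfl⟩ := h
      rfl
  have c2 : ((Na ×ˢ Nc).card : ℝ) * q ≤ (F.card : ℝ) := by
    rw [hF, Finset.card_sigma]
    push_cast
    rw [← nsmul_eq_mul]
    apply Finset.card_nsmul_le_sum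
    rintro ⟨a, c⟩ hr
    simp only [Finset.mem_product, Finset.mem_filter, hNa, hNc] at hr
    exact h3 a hr.1.1 c hr.2.1
  have c3 : ((Na ×ˢ Nc).card : ℝ) = (dg E S x : ℝ) * (dg E S y : ℝ) := by
    rw [Finset.card_product]; push_cast; rfl
  calc p * p * q ≤ (dg E S x : ℝ) * (dg E S y : ℝ) * q := by gcongr
    _ = ((Na ×ˢ Nc).card : ℝ) * q := by rw [c3]
    _ ≤ (F.card : ℝ) := c2
    _ ≤ _ := by exact_mod_cast c1

private theorem nct2_cn {V : Type} [DecidableEq V] {E : Finset (Sym2 V)} {U T : Finset V}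
    (hT : T ⊆ U) (a c : V) : dg E T a + dg E T c ≤ cn E U a c + T.card := by
  unfold dg cn
  rw [← Finset.card_union_add_card_inter]
  have h1 : ((T.filter (fun y => s(a, y) ∈ E)) ∪ (T.filter (fun y => s(c, y) ∈ E))).card ≤ T.card :=
    Finset.card_le_card (Finset.union_subset (Finset.filter_subset _ _) (Finset.filter_subset _ _))
  have h2 : ((T.filter (fun y => s(a, y) ∈ E)) ∩ (T.filter (fun y => s(c, y) ∈ E))).card ≤
      (U.filter (fun m => s(a, m) ∈ E ∧ s(m, c) ∈ E)).card := by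
    apply Finset.card_le_card
    intro m hm
    rw [Finset.mem_inter, Finset.mem_filter, Finset.mem_filter] at hm
    refine Finset.mem_filter.2 ⟨hT hm.1.1, hm.1.2, ?_⟩
    rw [Sym2.eq_swap]; exact hm.2.2
  omega

private theorem nct2_dg_sub {V : Type} [DecidableEq V] {E : Finset (Sym2 V)} {T T' : Finset V}
    (x : V) : dg E T x ≤ dg E T' x + (T \ T').card := by
  unfold dg
  refine le_trans (Finset.card_le_card ?_) (Finset.card_union_le _ _)
  intro y hy
  rw [Finset.mem_filter] at hy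
  by_cases h : y ∈ T'
  · exact Finset.mem_union_left _ (Finset.mem_filter.2 ⟨h, hy.2⟩)
  · exact Finset.mem_union_right _ (Finset.mem_sdiff.2 ⟨hy.1, h⟩)

theorem bipt (c : ℝ) (hc : 0 < c) :
    ∃ ε : ℝ, 0 < ε ∧ ∃ n0 : ℕ, ∀ (V : Type) [Fintype V] [DecidableEq V] (U A B A' B' : Finset V)
      (E : Finset (Sym2 V)), n0 ≤ U.card → Disjoint A B → U = A ∪ B → A' ⊆ A → B' ⊆ B →
      (∀ e ∈ E, ∃ a b, e = s(a, b) ∧ a ∈ A ∧ b ∈ B) → EvenDeg E → 6 ∣ E.card →
      c * (U.card : ℝ) ≤ (A.card : ℝ) → c * (U.card : ℝ) ≤ (B.card : ℝ) →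
      ((U \ (A' ∪ B')).card : ℝ) ≤ ε * U.card →
      (∀ a ∈ A', (B.card : ℝ) - ε * U.card ≤ (deg E a : ℝ)) →
      (∀ b ∈ B', (A.card : ℝ) - ε * U.card ≤ (deg E b : ℝ)) →
      (∀ u ∈ U, c * (U.card : ℝ) ≤ (deg E u : ℝ)) → Dec E := by
  obtain ⟨εA, hεA, hA⟩ := absorb_bip (c / 2) (c / 4) (by positivity) (by positivity)
  obtain ⟨M, hM⟩ := core ((c / 2) ^ 3) εA (by positivity) hεA
  obtain ⟨C, n1, hC⟩ := hA M
  obtain ⟨n2, hn2⟩ := hM C
  refine ⟨c / 8, by positivity, max n1 (max n2 (⌈80 / c⌉₊ + 1)), ?_⟩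
  intro V _ _ U A B A' B' E hn hAB hUAB hA' hB' hE hev h6 hcA hcB hU hdA hdB hdU
  have hn1 : n1 ≤ U.card := (le_max_left _ _).trans hn
  have hn2' : n2 ≤ U.card := ((le_max_left _ _).trans (le_max_right _ _)).trans hn
  have hn3 : ⌈80 / c⌉₊ + 1 ≤ U.card := ((le_max_right _ _).trans (le_max_right _ _)).trans hn
  have hbig : 80 < c * U.card := by
    have h1 : 80 / c ≤ (⌈80 / c⌉₊ : ℝ) := Nat.le_ceil _
    have h2 : ((⌈80 / c⌉₊ : ℝ) + 1) ≤ U.card := by exact_mod_cast hn3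
    have h3 : 80 / c < U.card := by linarith
    rw [div_lt_iff₀ hc] at h3
    linarith
  have hU0 : (0 : ℝ) ≤ U.card := Nat.cast_nonneg _
  have hAU : A ⊆ U := by rw [hUAB]; exact Finset.subset_union_left
  have hBU : B ⊆ U := by rw [hUAB]; exact Finset.subset_union_right
  have hEU : E ⊆ U.sym2 := by
    intro e he
    obtain ⟨a, b, rfl, ha, hb⟩ := hE e he
    rw [Finset.mk_mem_sym2_iff]
    exact ⟨hAU ha, hBU hb⟩
  have hside : ∀ x y, s(x, y) ∈ E → (x ∈ A ∧ y ∈ B) ∨ (x ∈ B ∧ y ∈ A) := by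
    intro x y hxy
    obtain ⟨a, b, hab, ha, hb⟩ := hE _ hxy
    rw [Sym2.eq_iff] at hab
    rcases hab with ⟨rfl, rfl⟩ | ⟨rfl, rfl⟩
    · exact Or.inl ⟨ha, hb⟩
    · exact Or.inr ⟨hb, ha⟩
  have hloop : Loopless E := by
    intro x hx
    rcases hside x x hx with h | h
    · exact Finset.disjoint_left.1 hAB h.1 h.2
    · exact Finset.disjoint_left.1 hAB h.2 h.1
  have hdegA : ∀ a ∈ A, deg E a = dg E B a := by
    intro a ha
    rw [deg_eq_dg hEU]
    unfold dg
    congr 1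
    ext y
    rw [Finset.mem_filter, Finset.mem_filter]
    constructor
    · rintro ⟨_, h⟩
      rcases hside a y h with h' | h'
      · exact ⟨h'.2, h⟩
      · exact absurd h'.1 (Finset.disjoint_left.1 hAB ha)
    · rintro ⟨h, h'⟩
      exact ⟨hBU h, h'⟩
  have hdegB : ∀ b ∈ B, deg E b = dg E A b := by
    intro b hb
    rw [deg_eq_dg hEU]
    unfold dg
    congr 1
    ext y
    rw [Finset.mem_filter, Finset.mem_filter]
    constructor
    · rintro ⟨_, h⟩
      rcases hside b y h with h' | h'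
      · exact absurd hb (Finset.disjoint_left.1 hAB h'.1)
      · exact ⟨h'.2, h⟩
    · rintro ⟨h, h'⟩
      exact ⟨hAU h, h'⟩
  have hcA' : ((A \ A').card : ℝ) ≤ c / 8 * U.card := by
    refine le_trans ?_ hU
    exact_mod_cast Finset.card_le_card (fun x hx => by
      rw [Finset.mem_sdiff] at hx
      rw [Finset.mem_sdiff, Finset.mem_union, not_or]
      exact ⟨hAU hx.1, hx.2, fun h => Finset.disjoint_left.1 hAB hx.1 (hB' h)⟩)
  have hcB' : ((B \ B').card : ℝ) ≤ c / 8 * U.card := by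
    refine le_trans ?_ hU
    exact_mod_cast Finset.card_le_card (fun x hx => by
      rw [Finset.mem_sdiff] at hx
      rw [Finset.mem_sdiff, Finset.mem_union, not_or]
      exact ⟨hBU hx.1, fun h => Finset.disjoint_left.1 hAB (hA' h) hx.1, hx.2⟩)
  -- absorbers
  have hGam : ∀ z ∈ A', ∀ x ∈ A, z ≠ x → Gam E U (c / 2) z x := by
    intro z hz x hx hzx
    refine ⟨hzx, ?_⟩
    have h1 : ((dg E B z + dg E B x : ℕ) : ℝ) ≤ ((cn E U z x + B.card : ℕ) : ℝ) := by
      exact_mod_cast nct2_cn hBU z x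
    rw [← hdegA z (hA' hz), ← hdegA x hx] at h1
    push_cast at h1
    have h2 := hdA z hz
    have h3 := hdU x (hAU hx)
    nlinarith
  have hGam' : ∀ z ∈ A', ∀ x ∈ A, x ≠ z → Gam E U (c / 2) z x := fun z hz x hx h =>
    hGam z hz x hx h.symm
  have hpickA : ∀ Q : Finset V, (Q.card : ℝ) < 7 * c / 8 * U.card → ∃ z ∈ A', z ∉ Q := by
    intro Q hQ
    have h1 : (A.card : ℝ) ≤ A'.card + (A \ A').card := by
      have : A.card ≤ A'.card + (A \ A').card := by
        have := Finset.card_sdiff_add_card_eq_card hA'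
        omega
      exact_mod_cast this
    have h2 : (Q.card : ℝ) < A'.card := by nlinarith
    exact Finset.exists_mem_notMem_of_card_lt_card (by exact_mod_cast h2)
  have habs := hC V U A B E hn1 hAB hUAB hE (by
    intro x1 hx1 x2 hx2 x3 hx3 x4 hx4 Z hZ
    have hcard : (((Z ∪ {x1, x2, x3, x4} : Finset V)).card : ℝ) ≤ Z.card + 4 := by
      have h1 := Finset.card_union_le Z ({x1, x2, x3, x4} : Finset V)
      have h2 : ({x1, x2, x3, x4} : Finset V).card ≤ 4 := Finset.card_le_four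
      have h3 : (Z ∪ {x1, x2, x3, x4} : Finset V).card ≤ Z.card + 4 := by omega
      exact_mod_cast h3
    obtain ⟨z, hzA, hz⟩ := hpickA (Z ∪ {x1, x2, x3, x4}) (by nlinarith)
    have hcard2 : ((insert z (Z ∪ {x1, x2, x3, x4} : Finset V)).card : ℝ) ≤ Z.card + 5 := by
      have h1 : ((insert z (Z ∪ {x1, x2, x3, x4} : Finset V)).card : ℝ) ≤
          (Z ∪ {x1, x2, x3, x4} : Finset V).card + 1 := by
        exact_mod_cast Finset.card_insert_le _ _
      linarith
    obtain ⟨w, hwA, hw⟩ := hpickA (insert z (Z ∪ {x1, x2, x3, x4})) (by nlinarith)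
    simp only [Finset.mem_insert, Finset.mem_union, Finset.mem_singleton, not_or] at hz hw
    refine ⟨z, hA' hzA, w, hA' hwA, hz.1, hw.2.1, hGam z hzA w (hA' hwA) (Ne.symm hw.1),
      ⟨hGam z hzA x1 hx1 hz.2.1, hGam z hzA x2 hx2 hz.2.2.1, hGam z hzA x3 hx3 hz.2.2.2.1,
        hGam z hzA x4 hx4 hz.2.2.2.2⟩,
      ⟨hGam w hwA x1 hx1 hw.2.2.1, hGam w hwA x2 hx2 hw.2.2.2.1, hGam w hwA x3 hx3 hw.2.2.2.2.1,
        hGam w hwA x4 hx4 hw.2.2.2.2.2⟩⟩)
  -- walks of length four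
  refine hn2 V U E (fun x y => (x ∈ A ∧ y ∈ A) ∨ (x ∈ B ∧ y ∈ B))
    (fun H => EvenDeg H ∧ 6 ∣ H.card) hn2' hEU hloop ?_ ?_ (fun H h => h.1) ?_ ⟨hev, h6⟩ habs
  · intro v x y hx hy
    rcases hside v x hx with h | h <;> rcases hside v y hy with h' | h'
    · exact Or.inr ⟨h.2, h'.2⟩
    · exact absurd h'.1 (Finset.disjoint_left.1 hAB h.1)
    · exact absurd h.1 (Finset.disjoint_left.1 hAB h'.1)
    · exact Or.inl ⟨h.2, h'.2⟩
  · intro x hx y hy hR
    have hpoly : (c / 2) ^ 3 * (U.card : ℝ) ^ 3 =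
        (c / 2 * U.card) * (c / 2 * U.card) * (c / 2 * U.card) := by ring
    rw [hpoly]
    rcases hR with ⟨hxA, hyA⟩ | ⟨hxB, hyB⟩
    · refine nct2_P4 (S := B') (hB'.trans hBU) (by positivity) (by positivity) ?_ ?_ ?_
      · have h1 : ((dg E B x : ℕ) : ℝ) ≤ ((dg E B' x + (B \ B').card : ℕ) : ℝ) := by
          exact_mod_cast nct2_dg_sub x
        rw [← hdegA x hxA] at h1
        push_cast at h1
        nlinarith [hdU x hx]
      · have h1 : ((dg E B y : ℕ) : ℝ) ≤ ((dg E B' y + (B \ B').card : ℕ) : ℝ) := by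
          exact_mod_cast nct2_dg_sub y
        rw [← hdegA y hyA] at h1
        push_cast at h1
        nlinarith [hdU y hy]
      · intro a ha d hd
        have h1 : ((dg E A a + dg E A d : ℕ) : ℝ) ≤ ((cn E U a d + A.card : ℕ) : ℝ) := by
          exact_mod_cast nct2_cn hAU a d
        rw [← hdegB a (hB' ha), ← hdegB d (hB' hd)] at h1
        push_cast at h1
        nlinarith [hdB a ha, hdB d hd]
    · refine nct2_P4 (S := A') (hA'.trans hAU) (by positivity) (by positivity) ?_ ?_ ?_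
      · have h1 : ((dg E A x : ℕ) : ℝ) ≤ ((dg E A' x + (A \ A').card : ℕ) : ℝ) := by
          exact_mod_cast nct2_dg_sub x
        rw [← hdegB x hxB] at h1
        push_cast at h1
        nlinarith [hdU x hx]
      · have h1 : ((dg E A y : ℕ) : ℝ) ≤ ((dg E A' y + (A \ A').card : ℕ) : ℝ) := by
          exact_mod_cast nct2_dg_sub y
        rw [← hdegB y hyB] at h1
        push_cast at h1
        nlinarith [hdU y hy]
      · intro a ha d hd
        have h1 : ((dg E B a + dg E B d : ℕ) : ℝ) ≤ ((cn E U a d + B.card : ℕ) : ℝ) := by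
          exact_mod_cast nct2_cn hBU a d
        rw [← hdegA a (hA' ha), ← hdegA d (hA' hd)] at h1
        push_cast at h1
        nlinarith [hdA a ha, hdA d hd]
  · intro H C' hH hC' hC6
    refine ⟨hH.1.sdiff hC6.even hC', ?_⟩
    have h1 := Finset.card_sdiff_add_card_eq_card hC'
    have h2 := hC6.card
    have h3 := hH.2
    rw [← h1, h2] at h3
    exact (Nat.dvd_add_left (dvd_refl 6)).1 h3

end H15C6
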