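import Pool.Agent.H15.C6.CORE
import Pool.Agent.H15.C6.ABE

/-!
Module NCT3 (part of NCT).  Decomposition of nearly complete structures: near-complete graphs (`nct`), near-complete
bipartite graphs (`bipt`), near-complete blow-ups of the four-class pattern (`e3t`).
All by `core` + absorbers; `|U| = n`.

`nct`: all vertices have degree `≥ c n`; all vertices of `A ⊆ U` (`|U \ A| ≤ ε n`) have degree `≥ (1-ε) n`.
`R = True`; for `x, y ∈ U`: `≥ (c-ε) n` choices each for `a ∈ N(x) ∩ A`, `c' ∈ N(y) ∩ A`, then `b` adjacent to both: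
`≥ (1-2ε)n`, so `P4 ≥ (c/2)^2/2 n^3` (`η := c^2/16`).  `Gam` with `η' := c/2`: every vertex of `A` is `Gam`-adjacent to
every other vertex; `hK4`: any two vertices of `A` outside `Z ∪ {x_i}`; hub: any vertex of `A \ Z`,
`ζ := c/2`.
`bipt`: `U = A ∪ B`, all edges between `A` and `B`; `R x y :=` same side.  Vertices of `A' ⊆ A` (resp. `B' ⊆ B`) are adjacent
to all but `ε n` vertices of `B` (resp. `A`), all vertices have degree `≥ c n`.
`e3t`: from `absorb_e3`; `R = True`; `P4 ≥ η n^3` for all pairs of vertices: between any two classes there is a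
walk of length four in the pattern (loops at 0 and 3, path 0-1-2-3), choose the classes along it.
-/

open Finset

namespace H15C6

theorem nct3_walk : ∀ i j : Fin 4, ∃ p q r : Fin 4, PatE i p ∧ PatE p q ∧ PatE q r ∧ PatE r j := by
  decide

theorem nct3_symm : ∀ i j : Fin 4, PatE i j → PatE j i := by
  decide

section aux

variable {V : Type} [DecidableEq V]

theorem nct3_nbrs {U : Finset V} {E : Finset (Sym2 V)} {cl : V → Fin 4} {t τ : ℝ}
    (hcl : ∀ i : Fin 4, t * U.card ≤ ((U.filter (fun x => cl x = i)).card : ℝ))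
    (hmiss : ∀ x ∈ U, ((U.filter (fun y => PatE (cl x) (cl y) ∧ s(x, y) ∉ E)).card : ℝ) ≤
      τ * U.card) {x : V} (hx : x ∈ U) {p : Fin 4} (hp : PatE (cl x) p) :
    (t - τ) * U.card ≤ ((U.filter (fun a => cl a = p ∧ s(x, a) ∈ E)).card : ℝ) := by
  have hsub : U.filter (fun a => cl a = p) ⊆ U.filter (fun a => cl a = p ∧ s(x, a) ∈ E) ∪
      U.filter (fun y => PatE (cl x) (cl y) ∧ s(x, y) ∉ E) := by
    intro a ha
    rw [Finset.mem_filter] at ha
    rw [Finset.mem_union, Finset.mem_filter, Finset.mem_filter]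
    by_cases h : s(x, a) ∈ E
    · exact Or.inl ⟨ha.1, ha.2, h⟩
    · exact Or.inr ⟨ha.1, by rw [ha.2]; exact hp, h⟩
  have h1 := le_trans (Finset.card_le_card hsub) (Finset.card_union_le _ _)
  have h2 : ((U.filter (fun a => cl a = p)).card : ℝ) ≤
      ((U.filter (fun a => cl a = p ∧ s(x, a) ∈ E)).card : ℝ) +
        ((U.filter (fun y => PatE (cl x) (cl y) ∧ s(x, y) ∉ E)).card : ℝ) := by
    exact_mod_cast h1
  have h3 := hcl p
  have h4 := hmiss x hx
  linarith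

theorem nct3_mid {U : Finset V} {E : Finset (Sym2 V)} {cl : V → Fin 4} {t τ : ℝ}
    (hcl : ∀ i : Fin 4, t * U.card ≤ ((U.filter (fun x => cl x = i)).card : ℝ))
    (hmiss : ∀ x ∈ U, ((U.filter (fun y => PatE (cl x) (cl y) ∧ s(x, y) ∉ E)).card : ℝ) ≤
      τ * U.card) {a c : V} (ha : a ∈ U) (hc : c ∈ U) {q : Fin 4} (haq : PatE (cl a) q)
    (hcq : PatE (cl c) q) :
    (t - 2 * τ) * U.card ≤
      ((U.filter (fun b => s(a, b) ∈ E ∧ s(b, c) ∈ E)).card : ℝ) := by
  have hsub : U.filter (fun b => cl b = q) ⊆ U.filter (fun b => s(a, b) ∈ E ∧ s(b, c) ∈ E) ∪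
      (U.filter (fun y => PatE (cl a) (cl y) ∧ s(a, y) ∉ E) ∪
        U.filter (fun y => PatE (cl c) (cl y) ∧ s(c, y) ∉ E)) := by
    intro b hb
    rw [Finset.mem_filter] at hb
    rw [Finset.mem_union, Finset.mem_union, Finset.mem_filter, Finset.mem_filter,
      Finset.mem_filter]
    by_cases h : s(a, b) ∈ E
    · by_cases h' : s(c, b) ∈ E
      · rw [Sym2.eq_swap] at h'
        exact Or.inl ⟨hb.1, h, h'⟩
      · exact Or.inr (Or.inr ⟨hb.1, by rw [hb.2]; exact hcq, h'⟩)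
    · exact Or.inr (Or.inl ⟨hb.1, by rw [hb.2]; exact haq, h⟩)
  have h1 := le_trans (Finset.card_le_card hsub) (le_trans (Finset.card_union_le _ _)
    (Nat.add_le_add_left (Finset.card_union_le _ _) _))
  have h2 : ((U.filter (fun b => cl b = q)).card : ℝ) ≤
      ((U.filter (fun b => s(a, b) ∈ E ∧ s(b, c) ∈ E)).card : ℝ) +
        (((U.filter (fun y => PatE (cl a) (cl y) ∧ s(a, y) ∉ E)).card : ℝ) +
          ((U.filter (fun y => PatE (cl c) (cl y) ∧ s(c, y) ∉ E)).card : ℝ)) := by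
    exact_mod_cast h1
  have h3 := hcl q
  have h4 := hmiss a ha
  have h5 := hmiss c hc
  linarith

theorem nct3_P4 {U : Finset V} {E : Finset (Sym2 V)} (Ac Cc : Finset V) {x y : V} {m : ℝ}
    (hA : ∀ a ∈ Ac, a ∈ U ∧ s(x, a) ∈ E) (hC : ∀ c ∈ Cc, c ∈ U ∧ s(c, y) ∈ E)
    (hB : ∀ a ∈ Ac, ∀ c ∈ Cc, m ≤ ((U.filter (fun b => s(a, b) ∈ E ∧ s(b, c) ∈ E)).card : ℝ)) :
    (Ac.card : ℝ) * Cc.card * m ≤ (P4 E U x y : ℝ) := by
  have h1 : ((Ac ×ˢ Cc).sigma (fun p => U.filter (fun b => s(p.1, b) ∈ E ∧ s(b, p.2) ∈ E))).card ≤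
      P4 E U x y := by
    unfold P4
    apply Finset.card_le_card_of_injOn (fun z => (z.1.1, z.2, z.1.2))
    · rintro ⟨⟨a, c⟩, b⟩ hz
      have hz' := Finset.mem_sigma.1 (Finset.mem_coe.1 hz)
      obtain ⟨h1, h2⟩ := hz'
      rw [Finset.mem_product] at h1
      rw [Finset.mem_filter] at h2
      obtain ⟨ha, hc⟩ := h1
      apply Finset.mem_coe.2
      rw [Finset.mem_filter, Finset.mem_product, Finset.mem_product]
      exact ⟨⟨(hA a ha).1, h2.1, (hC c hc).1⟩, (hA a ha).2, h2.2.1, h2.2.2, (hC c hc).2⟩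
    · rintro ⟨⟨a, c⟩, b⟩ _ ⟨⟨a', c'⟩, b'⟩ _ h
      simp only [Prod.mk.injEq] at h
      obtain ⟨rfl, rfl, rfl⟩ := h
      rfl
  rw [Finset.card_sigma] at h1
  have h2 : (Ac.card : ℝ) * Cc.card * m ≤
      ∑ p ∈ Ac ×ˢ Cc, ((U.filter (fun b => s(p.1, b) ∈ E ∧ s(b, p.2) ∈ E)).card : ℝ) := by
    have h3 : ∑ _p ∈ Ac ×ˢ Cc, m = (Ac.card : ℝ) * Cc.card * m := by
      rw [Finset.sum_const, Finset.card_product, nsmul_eq_mul]
      push_cast
      ring
    rw [← h3]
    apply Finset.sum_le_sum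
    intro p hp
    rw [Finset.mem_product] at hp
    exact hB p.1 hp.1 p.2 hp.2
  refine le_trans h2 ?_
  exact_mod_cast h1

theorem nct3_nV1_sdiff (cl : V → Fin 4) {H C : Finset (Sym2 V)} (h : C ⊆ H) :
    nV1 cl (H \ C) + nV1 cl C = nV1 cl H := by
  unfold nV1
  rw [← Finset.card_union_of_disjoint (Finset.disjoint_filter_filter Finset.sdiff_disjoint),
    ← Finset.filter_union, Finset.sdiff_union_of_subset h]

end aux

theorem e3t (t : ℝ) (ht : 0 < t) :
    ∃ τ : ℝ, 0 < τ ∧ ∃ n0 : ℕ, ∀ (V : Type) [Fintype V] [DecidableEq V] (U : Finset V)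
      (E : Finset (Sym2 V)) (cl : V → Fin 4), n0 ≤ U.card → E ⊆ U.sym2 → Loopless E →
      EvenDeg E → 6 ∣ E.card → (∀ x y, s(x, y) ∈ E → PatE (cl x) (cl y)) →
      (∀ i : Fin 4, t * U.card ≤ ((U.filter (fun x => cl x = i)).card : ℝ)) →
      (∀ x ∈ U, ((U.filter (fun y => PatE (cl x) (cl y) ∧ s(x, y) ∉ E)).card : ℝ) ≤ τ * U.card) →
      Even (nV1 cl E) → Dec E := by
  obtain ⟨τ₀, ε, hτ₀, hε, habs⟩ := absorb_e3 t ht
  obtain ⟨M, hM⟩ := core ((t / 2) ^ 3) ε (by positivity) hε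
  obtain ⟨C, n1, hC⟩ := habs M
  obtain ⟨n2, hcore⟩ := hM C
  refine ⟨min τ₀ (t / 4), by positivity, max n1 n2, ?_⟩
  intro V _ _ U E cl hn hEU hE hev h6 hpat hcl hmiss heven
  have hU0 : (0 : ℝ) ≤ U.card := Nat.cast_nonneg _
  have hmiss0 : ∀ x ∈ U, ((U.filter (fun y => PatE (cl x) (cl y) ∧ s(x, y) ∉ E)).card : ℝ) ≤
      τ₀ * U.card := fun x hx => le_trans (hmiss x hx)
    (mul_le_mul_of_nonneg_right (min_le_left _ _) hU0)
  have hmiss1 : ∀ x ∈ U, ((U.filter (fun y => PatE (cl x) (cl y) ∧ s(x, y) ∉ E)).card : ℝ) ≤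
      (t / 4) * U.card := fun x hx => le_trans (hmiss x hx)
    (mul_le_mul_of_nonneg_right (min_le_right _ _) hU0)
  refine hcore V U E (fun _ _ => True) (fun H => H ⊆ E ∧ EvenDeg H ∧ 6 ∣ H.card ∧
    Even (nV1 cl H)) (le_trans (le_max_right _ _) hn) hEU hE (fun _ _ _ _ _ => trivial) ?_
    (fun H h => h.2.1) ?_ ⟨Finset.Subset.refl _, hev, h6, heven⟩
    (hC V U E cl (le_trans (le_max_left _ _) hn) hEU hE hpat hcl hmiss0)
  · intro x hx y hy _
    obtain ⟨p, q, r, h1, h2, h3, h4⟩ := nct3_walk (cl x) (cl y)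
    have hA := nct3_nbrs hcl hmiss1 hx h1
    have hCc := nct3_nbrs hcl hmiss1 hy (nct3_symm _ _ h4)
    have key := nct3_P4 (U := U) (E := E) (x := x) (y := y) (m := (t - 2 * (t / 4)) * U.card)
      (U.filter (fun a => cl a = p ∧ s(x, a) ∈ E)) (U.filter (fun a => cl a = r ∧ s(y, a) ∈ E))
      (by
        intro a ha
        rw [Finset.mem_filter] at ha
        exact ⟨ha.1, ha.2.2⟩) (by
        intro c hc
        rw [Finset.mem_filter] at hc
        exact ⟨hc.1, by rw [Sym2.eq_swap]; exact hc.2.2⟩) (by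
        intro a ha c hc
        rw [Finset.mem_filter] at ha hc
        exact nct3_mid hcl hmiss1 ha.1 hc.1 (q := q) (by rw [ha.2.1]; exact h2)
          (by rw [hc.2.1]; exact nct3_symm _ _ h3))
    refine le_trans ?_ key
    have hA' : t / 2 * U.card ≤ ((U.filter (fun a => cl a = p ∧ s(x, a) ∈ E)).card : ℝ) := by
      refine le_trans ?_ hA
      apply mul_le_mul_of_nonneg_right _ hU0
      linarith
    have hC' : t / 2 * U.card ≤ ((U.filter (fun a => cl a = r ∧ s(y, a) ∈ E)).card : ℝ) := by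
      refine le_trans ?_ hCc
      apply mul_le_mul_of_nonneg_right _ hU0
      linarith
    have e1 : (t - 2 * (t / 4)) * (U.card : ℝ) = t / 2 * U.card := by ring
    rw [e1]
    have h0 : 0 ≤ t / 2 * (U.card : ℝ) := by positivity
    calc (t / 2) ^ 3 * (U.card : ℝ) ^ 3 = (t / 2 * U.card) * (t / 2 * U.card) *
          (t / 2 * U.card) := by ring
      _ ≤ _ := mul_le_mul_of_nonneg_right (mul_le_mul hA' hC' h0 (le_trans h0 hA')) h0
  · rintro H C' ⟨hHE, hHev, hH6, hHV⟩ hCH hC6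
    refine ⟨Finset.sdiff_subset.trans hHE, hHev.sdiff hC6.even hCH, ?_, ?_⟩
    · have h1 := Finset.card_sdiff_add_card_eq_card hCH
      rw [hC6.card] at h1
      omega
    · have h1 := nct3_nV1_sdiff cl hCH
      have h2 := c6_even_V1 cl C' hC6 (fun x y hxy => hpat x y (hHE (hCH hxy)))
      rw [← h1] at hHV
      exact (Nat.even_add.1 hHV).2 h2

end H15C6
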