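import Pool.Agent.H15.C6.D1B
import Pool.Agent.H15.C6.D1C
import Pool.Agent.H15.C6.NCT

/-!
Module D1D.  The exact case, conclusion.  `D0` from `goal_f0 .. goal_f4`.  `E \ D0 = E_A ⊔ E_B` with
`E_A = inn (E \ D0) AX`, `E_B = inn (E \ D0) BX` (they are disjoint, no loops, `AX ∩ BX = {x}`).
Even degrees: clear for vertices `≠ x`; for `x` since the sum of all degrees of `E_A` is even.
`6 ∣ |E_A|`, hence `6 ∣ |E_B|`.  `nct` with `c = 1/2`, `U = AX`, `A = AX`: every vertex of `A0` has degree
`≥ 2k - 4 - 4*2 `, and `x` has degree `≥ 2k - 4 - 8` (each cycle uses at most two edges at a vertex; `x` is adjacent to all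
clean vertices).
-/

open Finset

namespace H15C6

section Side

variable {V : Type} [Fintype V] [DecidableEq V] {E D0 : Finset (Sym2 V)} {k : ℕ} {A0 B0 : Finset V}
  {x : V}

theorem d1d_crs_comm (E : Finset (Sym2 V)) (A B : Finset V) : crs E A B = crs E B A := by
  unfold crs
  ext e
  simp only [Finset.mem_sdiff]
  tauto

theorem d1d_cov (hcrs : crs E (insert x A0) (insert x B0) ⊆ D0) :
    ∀ e ∈ E \ D0, e ∈ (insert x A0).sym2 ∨ e ∈ (insert x B0).sym2 := by
  intro e he
  rw [Finset.mem_sdiff] at he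
  by_contra hcon
  rw [not_or] at hcon
  apply he.2
  apply hcrs
  unfold crs
  rw [Finset.mem_sdiff, Finset.mem_sdiff]
  exact ⟨⟨he.1, hcon.1⟩, hcon.2⟩

theorem d1d_mem_BX (h : D1Env E k A0 B0 x) {a : V} (ha : a ∈ A0) : a ∉ insert x B0 := by
  rw [Finset.mem_insert, not_or]
  refine ⟨fun hax => h.hxA (hax ▸ ha), fun hab => ?_⟩
  exact (Finset.disjoint_left.1 h.disj) ha hab

/-- all edges at a vertex of `A0` are inside `AX` -/
theorem d1d_deg_A (h : D1Env E k A0 B0 x) (hcrs : crs E (insert x A0) (insert x B0) ⊆ D0) {a : V}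
    (ha : a ∈ A0) : deg (inn (E \ D0) (insert x A0)) a = deg (E \ D0) a := by
  unfold deg inn
  congr 1
  ext e
  rw [Finset.mem_filter, Finset.mem_filter, Finset.mem_inter]
  constructor
  · rintro ⟨⟨h1, _⟩, h2⟩
    exact ⟨h1, h2⟩
  · rintro ⟨h1, h2⟩
    refine ⟨⟨h1, ?_⟩, h2⟩
    rcases d1d_cov hcrs e h1 with h3 | h3
    · exact h3
    · exfalso
      rw [Finset.mem_sym2_iff] at h3
      exact d1d_mem_BX h ha (h3 a h2)

theorem d1d_deg_out {F : Finset (Sym2 V)} {A : Finset V} {v : V} (hv : v ∉ A) :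
    deg (inn F A) v = 0 := by
  unfold deg inn
  rw [Finset.card_eq_zero, Finset.filter_eq_empty_iff]
  intro e he hve
  rw [Finset.mem_inter, Finset.mem_sym2_iff] at he
  exact hv (he.2 v hve)

theorem d1d_inn_subset (F : Finset (Sym2 V)) (A : Finset V) : inn F A ⊆ F := Finset.inter_subset_left

theorem d1d_inn_sym2 (F : Finset (Sym2 V)) (A : Finset V) : inn F A ⊆ A.sym2 := Finset.inter_subset_right

theorem d1d_even (h : D1Env E k A0 B0 x) (hsub : D0 ⊆ E) (hev : EvenDeg D0)
    (hcrs : crs E (insert x A0) (insert x B0) ⊆ D0) :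
    EvenDeg (inn (E \ D0) (insert x A0)) := by
  have hE' : EvenDeg (E \ D0) := h.even.sdiff hev hsub
  have hl : Loopless (inn (E \ D0) (insert x A0)) :=
    h.loopless.mono ((d1d_inn_subset _ _).trans Finset.sdiff_subset)
  have hA : ∀ a ∈ A0, Even (deg (inn (E \ D0) (insert x A0)) a) := by
    intro a ha
    rw [d1d_deg_A h hcrs ha]
    exact hE' a
  intro v
  by_cases hv : v ∈ insert x A0
  · rw [Finset.mem_insert] at hv
    rcases hv with rfl | hv
    · have hs := sum_deg (d1d_inn_sym2 (E \ D0) (insert v A0)) hl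
      rw [Finset.sum_insert h.hxA] at hs
      have h1 : Even (∑ a ∈ A0, deg (inn (E \ D0) (insert v A0)) a) :=
        Finset.even_sum _ (fun a ha => hA a ha)
      have h2 : Even (deg (inn (E \ D0) (insert v A0)) v +
          ∑ a ∈ A0, deg (inn (E \ D0) (insert v A0)) a) := by
        rw [hs]
        exact even_two_mul _
      exact (Nat.even_add.1 h2).2 h1
    · exact hA v hv
  · rw [d1d_deg_out hv]
    exact Even.zero

theorem d1d_deg_le_card (F : Finset (Sym2 V)) (v : V) : deg F v ≤ F.card :=
  Finset.card_filter_le _ _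

/-- at most eight vertices of `A0` are not clean -/
theorem d1d_nonclean (h : D1Env E k A0 B0 x) :
    (A0.filter (fun a => deg (crs E (insert x A0) (insert x B0)) a ≠ 0)).card ≤ 8 := by
  have hl : Loopless (crs E (insert x A0) (insert x B0)) :=
    h.loopless.mono (Finset.sdiff_subset.trans Finset.sdiff_subset)
  have hs := sum_deg (E := crs E (insert x A0) (insert x B0)) (U := Finset.univ)
    (by rw [Finset.sym2_univ]; exact Finset.subset_univ _) hl
  have hf := h.few
  have h1 : (A0.filter (fun a => deg (crs E (insert x A0) (insert x B0)) a ≠ 0)).card ≤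
      ∑ v, deg (crs E (insert x A0) (insert x B0)) v := by
    rw [Finset.card_eq_sum_ones]
    refine (Finset.sum_le_sum (g := fun v => deg (crs E (insert x A0) (insert x B0)) v) ?_).trans
      (Finset.sum_le_sum_of_subset (Finset.subset_univ _))
    intro a ha
    rw [Finset.mem_filter] at ha
    exact Nat.one_le_iff_ne_zero.2 ha.2
  omega

theorem d1d_deg_low (h : D1Env E k A0 B0 x) (hsub : D0 ⊆ E)
    (hcrs : crs E (insert x A0) (insert x B0) ⊆ D0) (hcard : D0.card ≤ 24) :
    ∀ v ∈ insert x A0, 2 * k ≤ deg (inn (E \ D0) (insert x A0)) v + 32 := by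
  intro v hv
  rw [Finset.mem_insert] at hv
  rcases hv with rfl | hv
  · have h1 : A0.card ≤ dg E A0 v + 8 := by
      have h2 := d1d_nonclean h
      have h3 : A0.card ≤ (A0.filter (fun y => s(v, y) ∈ E)).card +
          (A0.filter (fun a => deg (crs E (insert v A0) (insert v B0)) a ≠ 0)).card := by
        refine le_trans (Finset.card_le_card ?_) (Finset.card_union_le _ _)
        intro a ha
        rw [Finset.mem_union, Finset.mem_filter, Finset.mem_filter]
        by_cases hc : deg (crs E (insert v A0) (insert v B0)) a = 0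
        · left
          refine ⟨ha, ?_⟩
          have h4 := h.clean ha hc v (Finset.mem_insert_self _ _) (fun hva => h.hxA (hva ▸ ha))
          rw [Sym2.eq_swap]
          exact h4
        · right
          exact ⟨ha, hc⟩
      unfold dg
      omega
    have h2 : dg E A0 v ≤ deg (inn E (insert v A0)) v := by
      have h3 : dg E A0 v ≤ dg (inn E (insert v A0)) A0 v := by
        unfold dg
        apply Finset.card_le_card
        intro y hy
        rw [Finset.mem_filter] at hy ⊢
        refine ⟨hy.1, ?_⟩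
        unfold inn
        rw [Finset.mem_inter, Finset.mk_mem_sym2_iff]
        exact ⟨hy.2, Finset.mem_insert_self _ _, Finset.mem_insert_of_mem hy.1⟩
      exact h3.trans (dg_le_deg _ _ _)
    have h3 : deg (inn E (insert v A0)) v ≤ deg (inn (E \ D0) (insert v A0)) v + deg D0 v := by
      refine le_trans (deg_mono ?_ v) (deg_union_le _ _ v)
      intro e he
      unfold inn at he ⊢
      rw [Finset.mem_inter] at he
      rw [Finset.mem_union, Finset.mem_inter, Finset.mem_sdiff]
      by_cases hD : e ∈ D0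
      · right; exact hD
      · left; exact ⟨⟨he.1, hD⟩, he.2⟩
    have h4 := d1d_deg_le_card D0 v
    have h5 := h.cardA
    omega
  · rw [d1d_deg_A h hcrs hv]
    have h1 := deg_sdiff hsub v
    have h2 := h.mindeg v
    have h3 := d1d_deg_le_card D0 v
    omega

end Side

theorem d1d_side : ∃ k0 : ℕ, ∀ (V : Type) [Fintype V] [DecidableEq V] (E D0 : Finset (Sym2 V)) (k : ℕ)
    (A0 B0 : Finset V) (x : V), k0 ≤ k → D1Env E k A0 B0 x → D0 ⊆ E → EvenDeg D0 →
    crs E (insert x A0) (insert x B0) ⊆ D0 → D0.card ≤ 24 →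
    6 ∣ (inn (E \ D0) (insert x A0)).card → Dec (inn (E \ D0) (insert x A0)) := by
  obtain ⟨ε, hε, n0, hnct⟩ := nct (1 / 2) (by norm_num)
  obtain ⟨m, hm⟩ := exists_nat_ge (33 / ε)
  refine ⟨max (max n0 m) 40, ?_⟩
  intro V _ _ E D0 k A0 B0 x hk h hsub hev hcrs hcard h6
  have hk1 : n0 ≤ k := (le_max_left _ _).trans ((le_max_left _ _).trans hk)
  have hk2 : m ≤ k := (le_max_right _ _).trans ((le_max_left _ _).trans hk)
  have hk3 : 40 ≤ k := (le_max_right _ _).trans hk
  have hU : (insert x A0).card = 2 * k + 1 := by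
    rw [Finset.card_insert_of_notMem h.hxA, h.cardA]
  have hUr : ((insert x A0).card : ℝ) = 2 * (k : ℝ) + 1 := by
    rw [hU]; push_cast; ring
  have hlow : ∀ v ∈ insert x A0, 2 * (k : ℝ) ≤ (deg (inn (E \ D0) (insert x A0)) v : ℝ) + 32 := by
    intro v hv
    exact_mod_cast d1d_deg_low h hsub hcrs hcard v hv
  have hkr : (33 : ℝ) ≤ ε * k := by
    have h1 : (33 : ℝ) / ε ≤ k := hm.trans (by exact_mod_cast hk2)
    rw [div_le_iff₀ hε] at h1
    linarith
  have hk3r : (40 : ℝ) ≤ k := by exact_mod_cast hk3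
  refine hnct V (insert x A0) (insert x A0) (inn (E \ D0) (insert x A0)) (by omega)
    (Finset.Subset.refl _) (d1d_inn_sym2 _ _)
    (h.loopless.mono ((d1d_inn_subset _ _).trans Finset.sdiff_subset))
    (d1d_even h hsub hev hcrs) h6 ?_ ?_ ?_
  · rw [Finset.sdiff_self, Finset.card_empty, Nat.cast_zero]
    positivity
  · intro a ha
    have h1 := hlow a ha
    rw [hUr]
    have h2 : 0 ≤ ε * k := by positivity
    nlinarith
  · intro a ha
    have h1 := hlow a ha
    rw [hUr]
    linarith

theorem d1_dec : ∃ k0 : ℕ, ∀ (V : Type) [Fintype V] [DecidableEq V] (E : Finset (Sym2 V)) (k : ℕ)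
    (A0 B0 : Finset V) (x : V), k0 ≤ k → D1Env E k A0 B0 x →
    ((4 * k + 1) % 24 ≠ 5 ∧ (4 * k + 1) % 24 ≠ 13) → Dec E := by
  obtain ⟨k0, hside⟩ := d1d_side
  refine ⟨k0, ?_⟩
  intro V _ _ E k A0 B0 x hk h hmod
  have hgoal : D1Goal E A0 B0 x := by
    have hf := h.few
    have hcases : (crs E (insert x A0) (insert x B0)).card = 0 ∨
        (crs E (insert x A0) (insert x B0)).card = 1 ∨
        (crs E (insert x A0) (insert x B0)).card = 2 ∨
        (crs E (insert x A0) (insert x B0)).card = 3 ∨
        (crs E (insert x A0) (insert x B0)).card = 4 := by omega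
    rcases hcases with h0 | h1 | h2 | h3 | h4
    · exact h.goal_f0 h0 hmod
    · exact (h.goal_f1 h1).elim
    · exact h.goal_f2 h2
    · exact h.goal_f3 h3
    · exact h.goal_f4 h4
  obtain ⟨D0, hsub, hdec, hcrs, hcard, h6⟩ := hgoal
  have hcrs' : crs E (insert x B0) (insert x A0) ⊆ D0 := by
    rw [d1d_crs_comm]; exact hcrs
  have hl : Loopless (E \ D0) := h.loopless.mono Finset.sdiff_subset
  have hdisj : Disjoint (inn (E \ D0) (insert x A0)) (inn (E \ D0) (insert x B0)) := by
    rw [Finset.disjoint_left]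
    intro e ha hb
    unfold inn at ha hb
    rw [Finset.mem_inter] at ha hb
    have hone : ∀ v, v ∈ insert x A0 → v ∈ insert x B0 → v = x := by
      intro v h1 h2
      rw [Finset.mem_insert] at h1
      rcases h1 with h1 | h1
      · exact h1
      · exact absurd h2 (d1d_mem_BX h h1)
    obtain ⟨he, hA⟩ := ha
    obtain ⟨_, hB⟩ := hb
    induction e using Sym2.ind with
    | _ p q =>
      rw [Finset.mk_mem_sym2_iff] at hA hB
      exact hl.ne he ((hone p hA.1 hB.1).trans (hone q hA.2 hB.2).symm)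
  have hunion : inn (E \ D0) (insert x A0) ∪ inn (E \ D0) (insert x B0) = E \ D0 := by
    apply Finset.Subset.antisymm
    · exact Finset.union_subset (d1d_inn_subset _ _) (d1d_inn_subset _ _)
    · intro e he
      rw [Finset.mem_union]
      unfold inn
      rcases d1d_cov hcrs e he with h1 | h1
      · left; exact Finset.mem_inter.2 ⟨he, h1⟩
      · right; exact Finset.mem_inter.2 ⟨he, h1⟩
  have hcardE : (E \ D0).card + D0.card = E.card := Finset.card_sdiff_add_card_eq_card hsub
  have hcardU := Finset.card_union_of_disjoint hdisj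
  rw [hunion] at hcardU
  have h6E := h.six
  have h6D := hdec.six_dvd
  have h6B : 6 ∣ (inn (E \ D0) (insert x B0)).card := by omega
  have hA := hside V E D0 k A0 B0 x hk h hsub hdec.even hcrs hcard h6
  have hB := hside V E D0 k B0 A0 x hk h.swap hsub hdec.even hcrs' hcard h6B
  have hAB := hA.union hB hdisj
  rw [hunion] at hAB
  have hfin := hAB.union hdec Finset.sdiff_disjoint
  rw [Finset.sdiff_union_of_subset hsub] at hfin
  exact hfin

end H15C6
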