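import Mathlib

/-!
Basic definitions and elementary facts for `C_6`-decompositions of finite graphs.
Graphs are represented by their edge sets `E : Finset (Sym2 V)`.
-/

set_option linter.unusedSectionVars false

open Finset

namespace H15C6

section Basic

variable {V : Type} [DecidableEq V]

/-- edge set of the closed walk `v 0, v 1, ..., v 5, v 0` -/
def cyc (v : Fin 6 → V) : Finset (Sym2 V) :=
  Finset.univ.image (fun i : Fin 6 => s(v i, v (i + 1)))

/-- `C` is the edge set of a cycle of length six -/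
def IsC6 (C : Finset (Sym2 V)) : Prop := ∃ v : Fin 6 → V, Function.Injective v ∧ C = cyc v

/-- `E` is an edge-disjoint union of six-cycles -/
inductive Dec : Finset (Sym2 V) → Prop
  | empty : Dec ∅
  | add {E C : Finset (Sym2 V)} (hE : Dec E) (hC : IsC6 C) (hd : Disjoint E C) : Dec (E ∪ C)

/-- degree of `x` -/
def deg (E : Finset (Sym2 V)) (x : V) : ℕ := (E.filter (fun e => x ∈ e)).card

/-- number of `y ∈ S` with `xy ∈ E` -/
def dg (E : Finset (Sym2 V)) (S : Finset V) (x : V) : ℕ := (S.filter (fun y => s(x, y) ∈ E)).card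

/-- number of common neighbours of `x` and `y` in `S` -/
def cn (E : Finset (Sym2 V)) (S : Finset V) (x y : V) : ℕ :=
  (S.filter (fun m => s(x, m) ∈ E ∧ s(m, y) ∈ E)).card

/-- all degrees are even -/
def EvenDeg (E : Finset (Sym2 V)) : Prop := ∀ x, Even (deg E x)

/-- no loops -/
def Loopless (E : Finset (Sym2 V)) : Prop := ∀ x, s(x, x) ∉ E

/-- number of walks `x, a, b, c, y` with `a, b, c ∈ S` -/
def P4 (E : Finset (Sym2 V)) (S : Finset V) (x y : V) : ℕ :=
  ((S ×ˢ S ×ˢ S).filter (fun t => s(x, t.1) ∈ E ∧ s(t.1, t.2.1) ∈ E ∧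
    s(t.2.1, t.2.2) ∈ E ∧ s(t.2.2, y) ∈ E)).card

/-- the same with prescribed colours of `a` and `c` -/
def P4c {κ : Type} [DecidableEq κ] (E : Finset (Sym2 V)) (S : Finset V) (χ : V → κ) (k k' : κ)
    (x y : V) : ℕ :=
  ((S ×ˢ S ×ˢ S).filter (fun t => (s(x, t.1) ∈ E ∧ s(t.1, t.2.1) ∈ E ∧
    s(t.2.1, t.2.2) ∈ E ∧ s(t.2.2, y) ∈ E) ∧ χ t.1 = k ∧ χ t.2.2 = k')).card

/-- the same with prescribed colours of `a`, `b` and `c` -/
def P4k {κ : Type} [DecidableEq κ] (E : Finset (Sym2 V)) (S : Finset V) (χ : V → κ) (k1 k2 k3 : κ)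
    (x y : V) : ℕ :=
  ((S ×ˢ S ×ˢ S).filter (fun t => (s(x, t.1) ∈ E ∧ s(t.1, t.2.1) ∈ E ∧
    s(t.2.1, t.2.2) ∈ E ∧ s(t.2.2, y) ∈ E) ∧ χ t.1 = k1 ∧ χ t.2.1 = k2 ∧ χ t.2.2 = k3)).card

/-! ### cycles -/

theorem mem_cyc {v : Fin 6 → V} {e : Sym2 V} : e ∈ cyc v ↔ ∃ i : Fin 6, s(v i, v (i + 1)) = e := by
  simp [cyc]

theorem fin6_aux1 : ∀ i j : Fin 6, i = j + 1 → i + 1 = j → i = j := by decide

theorem fin6_aux2 : ∀ i : Fin 6, i ≠ i + 1 := by decide

theorem fin6_aux3 : ∀ i : Fin 6, i - 1 + 1 = i := by decide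

theorem fin6_aux4 : ∀ i j : Fin 6, i = j + 1 → j = i - 1 := by decide

theorem fin6_aux5 : ∀ i : Fin 6, i ≠ i - 1 := by decide

theorem cyc_inj {v : Fin 6 → V} (hv : Function.Injective v) :
    Function.Injective (fun i : Fin 6 => s(v i, v (i + 1))) := by
  intro i j hij
  simp only [Sym2.eq_iff] at hij
  rcases hij with ⟨h1, _⟩ | ⟨h1, h2⟩
  · exact hv h1
  · exact fin6_aux1 i j (hv h1) (hv h2)

theorem card_cyc {v : Fin 6 → V} (hv : Function.Injective v) : (cyc v).card = 6 := by
  rw [cyc, Finset.card_image_of_injective _ (cyc_inj hv)]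
  simp

theorem IsC6.card {C : Finset (Sym2 V)} (h : IsC6 C) : C.card = 6 := by
  obtain ⟨v, hv, rfl⟩ := h
  exact card_cyc hv

theorem IsC6.loopless {C : Finset (Sym2 V)} (h : IsC6 C) : Loopless C := by
  obtain ⟨v, hv, rfl⟩ := h
  intro x hx
  rw [mem_cyc] at hx
  obtain ⟨i, hi⟩ := hx
  simp only [Sym2.eq_iff, or_self] at hi
  have h1 : v i = v (i + 1) := hi.1.trans hi.2.symm
  exact fin6_aux2 i (hv h1)

theorem deg_cyc_mem {v : Fin 6 → V} (hv : Function.Injective v) (i : Fin 6) :
    deg (cyc v) (v i) = 2 := by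
  unfold deg cyc
  rw [Finset.filter_image, Finset.card_image_of_injective _ (cyc_inj hv)]
  have : (Finset.univ.filter (fun j : Fin 6 => v i ∈ s(v j, v (j + 1)))) = {i, i - 1} := by
    ext j
    simp only [Sym2.mem_iff, Finset.mem_filter, Finset.mem_univ, true_and, Finset.mem_insert,
      Finset.mem_singleton]
    constructor
    · rintro (h | h)
      · left; exact (hv h).symm
      · right; exact fin6_aux4 i j (hv h)
    · rintro (rfl | rfl)
      · left; rfl
      · right; rw [fin6_aux3]
  rw [this, Finset.card_pair (fin6_aux5 i)]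

theorem deg_cyc_notMem {v : Fin 6 → V} {x : V} (hx : ∀ i, v i ≠ x) : deg (cyc v) x = 0 := by
  unfold deg
  rw [Finset.card_eq_zero, Finset.filter_eq_empty_iff]
  intro e he hxe
  rw [mem_cyc] at he
  obtain ⟨i, rfl⟩ := he
  rw [Sym2.mem_iff] at hxe
  rcases hxe with h | h
  · exact hx _ h.symm
  · exact hx _ h.symm

theorem IsC6.even {C : Finset (Sym2 V)} (h : IsC6 C) : EvenDeg C := by
  obtain ⟨v, hv, rfl⟩ := h
  intro x
  by_cases hx : ∃ i, v i = x
  · obtain ⟨i, rfl⟩ := hx
    rw [deg_cyc_mem hv]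
    exact even_two
  · rw [deg_cyc_notMem (fun i hi => hx ⟨i, hi⟩)]
    exact Even.zero

/-! ### degrees -/

theorem deg_union {E F : Finset (Sym2 V)} (h : Disjoint E F) (x : V) :
    deg (E ∪ F) x = deg E x + deg F x := by
  unfold deg
  rw [Finset.filter_union, Finset.card_union_of_disjoint (Finset.disjoint_filter_filter h)]

theorem deg_mono {E F : Finset (Sym2 V)} (h : E ⊆ F) (x : V) : deg E x ≤ deg F x :=
  Finset.card_le_card (Finset.filter_subset_filter _ h)

theorem deg_union_le (E F : Finset (Sym2 V)) (x : V) : deg (E ∪ F) x ≤ deg E x + deg F x := by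
  unfold deg
  rw [Finset.filter_union]
  exact Finset.card_union_le _ _

theorem deg_sdiff {E F : Finset (Sym2 V)} (h : F ⊆ E) (x : V) :
    deg (E \ F) x + deg F x = deg E x := by
  rw [← deg_union (Finset.sdiff_disjoint) x, Finset.sdiff_union_of_subset h]

@[simp] theorem deg_empty (x : V) : deg (∅ : Finset (Sym2 V)) x = 0 := by simp [deg]

theorem EvenDeg.union {E F : Finset (Sym2 V)} (hE : EvenDeg E) (hF : EvenDeg F)
    (h : Disjoint E F) : EvenDeg (E ∪ F) := by
  intro x
  rw [deg_union h]
  exact (hE x).add (hF x)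

theorem EvenDeg.sdiff {E F : Finset (Sym2 V)} (hE : EvenDeg E) (hF : EvenDeg F)
    (h : F ⊆ E) : EvenDeg (E \ F) := by
  intro x
  have h1 := deg_sdiff h x
  have h2 := hE x
  have h3 := hF x
  rw [← h1] at h2
  exact (Nat.even_add.1 h2).2 h3

theorem evenDeg_empty : EvenDeg (∅ : Finset (Sym2 V)) := by
  intro x; simp

/-! ### `Dec` -/

theorem Dec.even {E : Finset (Sym2 V)} (h : Dec E) : EvenDeg E := by
  induction h with
  | empty => exact evenDeg_empty
  | add hE hC hd ih => exact ih.union hC.even hd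

theorem Dec.six_dvd {E : Finset (Sym2 V)} (h : Dec E) : 6 ∣ E.card := by
  induction h with
  | empty => simp
  | add hE hC hd ih =>
    rw [Finset.card_union_of_disjoint hd, hC.card]
    exact (Nat.dvd_add_right ih).2 (dvd_refl 6)

theorem Dec.loopless {E : Finset (Sym2 V)} (h : Dec E) : Loopless E := by
  induction h with
  | empty => intro x; simp
  | add hE hC hd ih =>
    intro x hx
    rw [Finset.mem_union] at hx
    rcases hx with hx | hx
    · exact ih x hx
    · exact hC.loopless x hx

theorem IsC6.dec {C : Finset (Sym2 V)} (h : IsC6 C) : Dec C := by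
  have := Dec.add Dec.empty h (by simp)
  simpa using this

theorem Dec.union {E F : Finset (Sym2 V)} (hE : Dec E) (hF : Dec F) (h : Disjoint E F) :
    Dec (E ∪ F) := by
  induction hF with
  | empty => simpa using hE
  | @add F C hF hC hd ih =>
    rw [← Finset.union_assoc]
    rw [Finset.disjoint_union_right] at h
    refine Dec.add (ih h.1) hC ?_
    rw [Finset.disjoint_union_left]
    exact ⟨h.2, hd⟩

theorem Dec.biUnion {ι : Type} [DecidableEq ι] {J : Finset ι} {f : ι → Finset (Sym2 V)}
    (h : ∀ j ∈ J, Dec (f j)) (hd : ∀ j ∈ J, ∀ j' ∈ J, j ≠ j' → Disjoint (f j) (f j')) :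
    Dec (J.biUnion f) := by
  induction J using Finset.induction_on with
  | empty => simpa using Dec.empty
  | @insert a J ha ih =>
    rw [Finset.biUnion_insert]
    refine Dec.union (h a (by simp)) (ih (fun j hj => h j (by simp [hj]))
      (fun j hj j' hj' hne => hd j (by simp [hj]) j' (by simp [hj']) hne)) ?_
    rw [Finset.disjoint_biUnion_right]
    intro j hj
    exact hd a (by simp) j (by simp [hj]) (fun hEq => ha (hEq ▸ hj))

/-! ### loopless edge sets -/

theorem Loopless.mono {E F : Finset (Sym2 V)} (h : Loopless F) (hs : E ⊆ F) : Loopless E :=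
  fun x hx => h x (hs hx)

theorem Loopless.ne {E : Finset (Sym2 V)} (h : Loopless E) {x y : V} (hxy : s(x, y) ∈ E) :
    x ≠ y := by
  rintro rfl
  exact h _ hxy

theorem Loopless.union {E F : Finset (Sym2 V)} (hE : Loopless E) (hF : Loopless F) :
    Loopless (E ∪ F) := by
  intro x hx
  rw [Finset.mem_union] at hx
  rcases hx with h | h
  · exact hE x h
  · exact hF x h

theorem dg_mono {E F : Finset (Sym2 V)} (h : E ⊆ F) (S : Finset V) (x : V) :
    dg E S x ≤ dg F S x := by
  unfold dg
  apply Finset.card_le_card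
  intro y hy
  rw [Finset.mem_filter] at hy ⊢
  exact ⟨hy.1, h hy.2⟩

theorem dg_mono_right (E : Finset (Sym2 V)) {S T : Finset V} (h : S ⊆ T) (x : V) :
    dg E S x ≤ dg E T x := by
  unfold dg
  apply Finset.card_le_card
  intro y hy
  rw [Finset.mem_filter] at hy ⊢
  exact ⟨h hy.1, hy.2⟩

/-- the number of neighbours in `S` is at most the degree -/
theorem dg_le_deg (E : Finset (Sym2 V)) (S : Finset V) (x : V) : dg E S x ≤ deg E x := by
  unfold dg deg
  apply Finset.card_le_card_of_injOn (fun y => s(x, y))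
  · intro y hy
    have hy' := Finset.mem_filter.1 (Finset.mem_coe.1 hy)
    exact Finset.mem_coe.2 (Finset.mem_filter.2 ⟨hy'.2, Sym2.mem_mk_left x y⟩)
  · intro y _ z _ hyz
    exact Sym2.congr_right.1 hyz

/-- degree as number of neighbours, for an edge set inside `U` -/
theorem deg_eq_dg {E : Finset (Sym2 V)} {U : Finset V} (hE : E ⊆ U.sym2) (x : V) :
    deg E x = dg E U x := by
  refine le_antisymm ?_ (dg_le_deg E U x)
  unfold dg deg
  apply Finset.card_le_card_of_surjOn (fun y => s(x, y))
  intro e he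
  obtain ⟨he1, he2⟩ := Finset.mem_filter.1 (Finset.mem_coe.1 he)
  obtain ⟨y, rfl⟩ := Sym2.mem_iff_exists.1 he2
  refine ⟨y, Finset.mem_coe.2 (Finset.mem_filter.2 ⟨?_, he1⟩), rfl⟩
  have := hE he1
  rw [Finset.mk_mem_sym2_iff] at this
  exact this.2

theorem dg_union {E F : Finset (Sym2 V)} (h : Disjoint E F) (S : Finset V) (x : V) :
    dg (E ∪ F) S x = dg E S x + dg F S x := by
  unfold dg
  rw [← Finset.card_union_of_disjoint]
  · congr 1
    ext y
    simp only [Finset.mem_filter, Finset.mem_union]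
    tauto
  · rw [Finset.disjoint_left]
    intro y h1 h2
    rw [Finset.mem_filter] at h1 h2
    exact (Finset.disjoint_left.1 h) h1.2 h2.2

theorem dg_sdiff {E F : Finset (Sym2 V)} (h : F ⊆ E) (S : Finset V) (x : V) :
    dg (E \ F) S x + dg F S x = dg E S x := by
  rw [← dg_union (Finset.sdiff_disjoint) S x, Finset.sdiff_union_of_subset h]

/-- `dg E S x` is at most `dg (E \ F) S x` plus the degree of `x` in `F` -/
theorem dg_le_sdiff_add (E F : Finset (Sym2 V)) (S : Finset V) (x : V) :
    dg E S x ≤ dg (E \ F) S x + deg F x := by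
  have h1 : dg E S x ≤ dg (E \ F) S x + dg F S x := by
    unfold dg
    refine le_trans (Finset.card_le_card ?_) (Finset.card_union_le _ _)
    intro y hy
    simp only [Finset.mem_filter, Finset.mem_union, Finset.mem_sdiff] at hy ⊢
    by_cases hF : s(x, y) ∈ F
    · right; exact ⟨hy.1, hF⟩
    · left; exact ⟨hy.1, hy.2, hF⟩
  exact h1.trans (Nat.add_le_add_left (dg_le_deg F S x) _)

/-- handshake -/
theorem sum_deg {E : Finset (Sym2 V)} {U : Finset V} (hE : E ⊆ U.sym2) (hl : Loopless E) :
    ∑ x ∈ U, deg E x = 2 * E.card := by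
  unfold deg
  simp_rw [Finset.card_filter]
  rw [Finset.sum_comm]
  have : ∀ e ∈ E, (∑ x ∈ U, if x ∈ e then 1 else 0) = 2 := by
    intro e he
    induction e using Sym2.ind with
    | _ a b =>
      have hab : a ≠ b := hl.ne he
      have hU := hE he
      rw [Finset.mk_mem_sym2_iff] at hU
      rw [← Finset.card_filter]
      have : (U.filter (fun x => x ∈ s(a, b))) = {a, b} := by
        ext x
        simp only [Sym2.mem_iff, Finset.mem_filter, Finset.mem_insert, Finset.mem_singleton]
        constructor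
        · exact fun h => h.2
        · rintro (rfl | rfl)
          · exact ⟨hU.1, Or.inl rfl⟩
          · exact ⟨hU.2, Or.inr rfl⟩
      rw [this, Finset.card_pair hab]
  rw [Finset.sum_congr rfl this]
  simp [mul_comm]

/-! ### cherries and partial six-cycles -/

/-- number of walks `x, a, b, y` with `a, b ∈ S` -/
def P3 (E : Finset (Sym2 V)) (S : Finset V) (x y : V) : ℕ :=
  ((S ×ˢ S).filter (fun t => s(x, t.1) ∈ E ∧ s(t.1, t.2) ∈ E ∧ s(t.2, y) ∈ E)).card

/-- the two edges of the cherry `(u, v, w)`, centre `v` -/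
def chE (t : V × V × V) : Finset (Sym2 V) := {s(t.1, t.2.1), s(t.2.1, t.2.2)}

/-- known edges of the partial closed walk `c` -/
def fixE (c : Fin 6 → Option V) : Finset (Sym2 V) :=
  Finset.univ.biUnion (fun i : Fin 6 =>
    match c i, c (i + 1) with
    | some p, some q => {s(p, q)}
    | _, _ => ∅)

/-- number of unknown vertices -/
def unk (c : Fin 6 → Option V) : ℕ := (Finset.univ.filter (fun i : Fin 6 => c i = none)).card

/-- `p` is a known vertex of `c` next to an unknown one -/
def IsPort (c : Fin 6 → Option V) (p : V) : Prop :=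
  ∃ i : Fin 6, c i = some p ∧ (c (i + 1) = none ∨ c (i + 5) = none)

instance (c : Fin 6 → Option V) (p : V) : Decidable (IsPort c p) := by
  unfold IsPort; infer_instance

/-- `v` completes `c`: it is injective, unknown vertices are in `S`, all new edges are in `H` -/
def Completes (S : Finset V) (H : Finset (Sym2 V)) (c : Fin 6 → Option V) (v : Fin 6 → V) : Prop :=
  Function.Injective v ∧ (∀ i, c i = none → v i ∈ S) ∧ (∀ i p, c i = some p → v i = p) ∧
    ∀ i, (c i = none ∨ c (i + 1) = none) → s(v i, v (i + 1)) ∈ H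

open Classical in
/-- the finite set of completions of `c` -/
noncomputable def compl6 [Fintype V] (S : Finset V) (H : Finset (Sym2 V)) (c : Fin 6 → Option V) :
    Finset (Fin 6 → V) := Finset.univ.filter (fun v => Completes S H c v)

theorem mem_compl6 [Fintype V] {S : Finset V} {H : Finset (Sym2 V)} {c : Fin 6 → Option V}
    {v : Fin 6 → V} : v ∈ compl6 S H c ↔ Completes S H c v := by
  simp [compl6]

/-- cherry plus a path of length four -/
def cA (u v w : V) : Fin 6 → Option V := ![some u, some v, some w, none, none, none]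

/-- path `x, p, q, y` plus a path of length three -/
def cB (x p q y : V) : Fin 6 → Option V := ![some x, some p, some q, some y, none, none]

/-- two edges `p q` and `p' q'`, closed by two paths of length two: `p q * p' q' *` -/
def cC (p q p' q' : V) : Fin 6 → Option V := ![some p, some q, none, some p', some q', none]

theorem unk_cA (u v w : V) : unk (cA u v w) = 3 := by
  unfold unk cA
  rw [show (Finset.univ.filter (fun i : Fin 6 =>
    (![some u, some v, some w, none, none, none] : Fin 6 → Option V) i = none)) = {3, 4, 5} from ?_]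
  · rfl
  · ext i
    fin_cases i <;> simp

theorem unk_cB (x p q y : V) : unk (cB x p q y) = 2 := by
  unfold unk cB
  rw [show (Finset.univ.filter (fun i : Fin 6 =>
    (![some x, some p, some q, some y, none, none] : Fin 6 → Option V) i = none)) = {4, 5} from ?_]
  · rfl
  · ext i
    fin_cases i <;> simp

theorem unk_cC (p q p' q' : V) : unk (cC p q p' q') = 2 := by
  unfold unk cC
  rw [show (Finset.univ.filter (fun i : Fin 6 =>
    (![some p, some q, none, some p', some q', none] : Fin 6 → Option V) i = none)) = {2, 5} from ?_]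
  · rfl
  · ext i
    fin_cases i <;> simp

theorem fixE_cA (u v w : V) : fixE (cA u v w) = {s(u, v), s(v, w)} := by
  ext e
  simp only [fixE, cA, Finset.mem_biUnion, Finset.mem_univ, true_and, Finset.mem_insert,
    Finset.mem_singleton]
  constructor
  · rintro ⟨i, hi⟩
    fin_cases i <;> simp_all
  · rintro (rfl | rfl)
    · exact ⟨0, by simp⟩
    · exact ⟨1, by simp⟩

theorem fixE_cB (x p q y : V) : fixE (cB x p q y) = {s(x, p), s(p, q), s(q, y)} := by
  ext e
  simp only [fixE, cB, Finset.mem_biUnion, Finset.mem_univ, true_and, Finset.mem_insert,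
    Finset.mem_singleton]
  constructor
  · rintro ⟨i, hi⟩
    fin_cases i <;> simp_all
  · rintro (rfl | rfl | rfl)
    · exact ⟨0, by simp⟩
    · exact ⟨1, by simp⟩
    · exact ⟨2, by simp⟩

theorem fixE_cC (p q p' q' : V) : fixE (cC p q p' q') = {s(p, q), s(p', q')} := by
  ext e
  simp only [fixE, cC, Finset.mem_biUnion, Finset.mem_univ, true_and, Finset.mem_insert,
    Finset.mem_singleton]
  constructor
  · rintro ⟨i, hi⟩
    fin_cases i <;> simp_all
  · rintro (rfl | rfl)
    · exact ⟨0, by simp⟩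
    · exact ⟨3, by simp⟩

theorem isPort_cA {u v w x : V} (h : IsPort (cA u v w) x) : x = u ∨ x = w := by
  obtain ⟨i, h1, h2⟩ := h
  fin_cases i <;> simp_all [cA]

theorem isPort_cB {x p q y z : V} (h : IsPort (cB x p q y) z) : z = x ∨ z = y := by
  obtain ⟨i, h1, h2⟩ := h
  fin_cases i <;> simp_all [cB]

theorem isPort_cC {p q p' q' z : V} (h : IsPort (cC p q p' q') z) :
    z = p ∨ z = q ∨ z = p' ∨ z = q' := by
  obtain ⟨i, h1, h2⟩ := h
  fin_cases i <;> simp_all [cC]

/-- robust availability of absorbers -/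
def Absorbs (U : Finset V) (E : Finset (Sym2 V))
    (P : Finset (Sym2 V) → Prop) (ε : ℝ) (M C : ℕ) : Prop :=
  ∀ X Z : Finset V, X ⊆ U → X.card ≤ M → (Z.card : ℝ) ≤ ε * U.card →
    ∀ H ⊆ E, H ⊆ X.sym2 → P H →
      ∃ A ⊆ E, Dec A ∧ Dec (A ∪ H) ∧ (∀ e ∈ A, e ∉ X.sym2) ∧
        (∀ e ∈ A, ∀ x ∈ e, x ∉ X → x ∉ Z) ∧ A.card ≤ C

end Basic

end H15C6
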