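import Pool.Agent.H15.C6.E1A1

/-!
Module E1A2 (part of E1A).  Extremal case 1 (two almost complete halves): preparation.

`prep1`: given the sets `A', B'` of `Ext1 E ε` and `ε ≤ τ`:
`X := {v : τ n < dg E A' v and τ n < dg E B' v}`, `A0 := {v ∉ X : dg E B' v ≤ τ n}`,
`B0 := {v ∉ X : τ n < dg E B' v}` (then `dg E A' v ≤ τ n`).  `A' ⊆ A0` as `dg E B' a ≤ ε n ≤ τ n`; for `b ∈ B'`:
`dg E B' b ≥ |B'| - εn > τ n` and `dg E A' b ≤ εn`, so `b ∈ B0`.

`rich1_*`: walk counts in a host `H` of inner edges.  `H ⊆ E` loses at most `θ n` edges at every vertex.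
For `A := A0 ∪ X`: every `u ∈ A` has at least `(τ/2) n` neighbours in `A'` through `H`
(`a ∈ A0`: `dg E A' a ≥ (n-1)/2 - τ n - 2 ε n`), two vertices of `A'` are adjacent in `H` for all but
`(ε+θ) n` choices.  Hence `P4 H S u w ≥ h n³`, `P3 H S u w ≥ h n²` for all `u, w ∈ A`, with `h = τ²/16`,
and `cn H S u w ≥ h n` if `u ∈ A0` (typical) and `dg E A' w ≥ 2τ n + 4 ε n + 2θ n + h n`.
Two typical vertices of `A0` have `≥ n/5` common neighbours (`τ ≤ 1/20`).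
The same for `B0`.
-/

set_option linter.unusedSectionVars false

open Finset

namespace H15C6

section Side

variable {V : Type} [Fintype V] [DecidableEq V]

/-- degrees through `H` -/
theorem e1a2_dg {E H : Finset (Sym2 V)} {Y Y' : Finset V} (hY : Y' ⊆ Y) {u : V} (hu : u ∈ Y) :
    dg E Y' u ≤ dg H Y' u + deg (inn E Y \ H) u := by
  refine le_trans ?_ (Nat.add_le_add_left (dg_le_deg (inn E Y \ H) Y' u) _)
  unfold dg
  refine le_trans (Finset.card_le_card ?_) (Finset.card_union_le _ _)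
  intro y hy
  simp only [Finset.mem_filter, Finset.mem_union, Finset.mem_sdiff, inn, Finset.mem_inter,
    Finset.mk_mem_sym2_iff] at hy ⊢
  by_cases hH : s(u, y) ∈ H
  · left; exact ⟨hy.1, hH⟩
  · right; exact ⟨hy.1, ⟨hy.2, hu, hY hy.1⟩, hH⟩

/-- missing neighbours through `H` -/
theorem e1a2_miss {E H : Finset (Sym2 V)} {Y Y' : Finset V} (hY : Y' ⊆ Y) {u : V} (hu : u ∈ Y) :
    (Y'.filter (fun y => s(u, y) ∉ H)).card ≤
      (Y'.filter (fun y => s(u, y) ∉ E)).card + deg (inn E Y \ H) u := by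
  refine le_trans ?_ (Nat.add_le_add_left (dg_le_deg (inn E Y \ H) Y' u) _)
  unfold dg
  refine le_trans (Finset.card_le_card ?_) (Finset.card_union_le _ _)
  intro y hy
  simp only [Finset.mem_filter, Finset.mem_union, Finset.mem_sdiff, inn, Finset.mem_inter,
    Finset.mk_mem_sym2_iff] at hy ⊢
  by_cases hE : s(u, y) ∈ E
  · right; exact ⟨hy.1, ⟨hE, hu, hY hy.1⟩, hy.2⟩
  · left; exact ⟨hy.1, hE⟩

theorem e1a2_cn {H : Finset (Sym2 V)} {S Y' : Finset V} (hS : Y' ⊆ S) (u w : V) :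
    dg H Y' u + dg H Y' w ≤ cn H S u w + Y'.card := by
  unfold dg cn
  have h1 : (Y'.filter (fun y => s(u, y) ∈ H) ∩ Y'.filter (fun y => s(w, y) ∈ H)).card ≤
      (S.filter (fun m => s(u, m) ∈ H ∧ s(m, w) ∈ H)).card := by
    apply Finset.card_le_card
    intro y hy
    simp only [Finset.mem_filter, Finset.mem_inter] at hy ⊢
    refine ⟨hS hy.1.1, hy.1.2, ?_⟩
    rw [Sym2.eq_swap]
    exact hy.2.2
  have h2 : (Y'.filter (fun y => s(u, y) ∈ H) ∪ Y'.filter (fun y => s(w, y) ∈ H)).card ≤ Y'.card :=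
    Finset.card_le_card (Finset.union_subset (Finset.filter_subset _ _) (Finset.filter_subset _ _))
  have h3 := Finset.card_union_add_card_inter (Y'.filter (fun y => s(u, y) ∈ H))
    (Y'.filter (fun y => s(w, y) ∈ H))
  omega

theorem e1a2_P3 {H : Finset (Sym2 V)} {S Y' : Finset V} (hS : Y' ⊆ S) (u w : V) {m : ℕ}
    (hm : ∀ a ∈ Y', (Y'.filter (fun y => s(a, y) ∉ H)).card ≤ m) :
    dg H Y' u * (dg H Y' w - m) ≤ P3 H S u w := by
  unfold P3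
  rw [Finset.card_filter, Finset.sum_product]
  have h1 : ∀ a ∈ Y'.filter (fun y => s(u, y) ∈ H), dg H Y' w - m ≤
      ∑ b ∈ S, if s(u, a) ∈ H ∧ s(a, b) ∈ H ∧ s(b, w) ∈ H then 1 else 0 := by
    intro a ha
    rw [Finset.mem_filter] at ha
    rw [← Finset.card_filter]
    have h2 : (Y'.filter (fun y => s(w, y) ∈ H)).card ≤
        (S.filter (fun b => s(u, a) ∈ H ∧ s(a, b) ∈ H ∧ s(b, w) ∈ H)).card +
          (Y'.filter (fun y => s(a, y) ∉ H)).card := by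
      refine le_trans (Finset.card_le_card ?_) (Finset.card_union_le _ _)
      intro y hy
      simp only [Finset.mem_filter, Finset.mem_union] at hy ⊢
      by_cases h : s(a, y) ∈ H
      · left
        refine ⟨hS hy.1, ha.2, h, ?_⟩
        rw [Sym2.eq_swap]
        exact hy.2
      · right; exact ⟨hy.1, h⟩
    have h3 := hm a ha.1
    unfold dg
    omega
  have h2 := Finset.card_nsmul_le_sum (Y'.filter (fun y => s(u, y) ∈ H)) _ _ h1
  rw [smul_eq_mul] at h2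
  refine le_trans h2 (Finset.sum_le_sum_of_subset ?_)
  exact (Finset.filter_subset _ _).trans hS

theorem e1a2_P4 {H : Finset (Sym2 V)} {S Y' : Finset V} (hS : Y' ⊆ S) (u w : V) {m : ℕ}
    (hm : ∀ a ∈ Y', (Y'.filter (fun y => s(a, y) ∉ H)).card ≤ m) :
    dg H Y' u * (dg H Y' w * (Y'.card - 2 * m)) ≤ P4 H S u w := by
  unfold P4
  rw [Finset.card_filter, Finset.sum_product]
  simp_rw [Finset.sum_product_right]
  have h1 : ∀ a ∈ Y'.filter (fun y => s(u, y) ∈ H), dg H Y' w * (Y'.card - 2 * m) ≤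
      ∑ c ∈ S, ∑ b ∈ S, if s(u, a) ∈ H ∧ s(a, b) ∈ H ∧ s(b, c) ∈ H ∧ s(c, w) ∈ H then 1 else 0 := by
    intro a ha
    rw [Finset.mem_filter] at ha
    have h2 : ∀ c ∈ Y'.filter (fun y => s(w, y) ∈ H), Y'.card - 2 * m ≤
        ∑ b ∈ S, if s(u, a) ∈ H ∧ s(a, b) ∈ H ∧ s(b, c) ∈ H ∧ s(c, w) ∈ H then 1 else 0 := by
      intro c hc
      rw [Finset.mem_filter] at hc
      rw [← Finset.card_filter]
      have h3 : Y'.card ≤ ((S.filter (fun b => s(u, a) ∈ H ∧ s(a, b) ∈ H ∧ s(b, c) ∈ H ∧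
          s(c, w) ∈ H)).card + (Y'.filter (fun y => s(a, y) ∉ H)).card) +
          (Y'.filter (fun y => s(c, y) ∉ H)).card := by
        refine le_trans (Finset.card_le_card (t := (S.filter (fun b => s(u, a) ∈ H ∧ s(a, b) ∈ H ∧
          s(b, c) ∈ H ∧ s(c, w) ∈ H) ∪ Y'.filter (fun y => s(a, y) ∉ H)) ∪
          Y'.filter (fun y => s(c, y) ∉ H)) ?_) ?_
        · intro y hy
          simp only [Finset.mem_filter, Finset.mem_union]
          by_cases h : s(a, y) ∈ H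
          · by_cases h' : s(c, y) ∈ H
            · left; left
              refine ⟨hS hy, ha.2, h, ?_, ?_⟩
              · rw [Sym2.eq_swap]; exact h'
              · rw [Sym2.eq_swap]; exact hc.2
            · right; exact ⟨hy, h'⟩
          · left; right; exact ⟨hy, h⟩
        · refine le_trans (Finset.card_union_le _ _) ?_
          exact Nat.add_le_add_right (Finset.card_union_le _ _) _
      have h4 := hm a ha.1
      have h5 := hm c hc.1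
      omega
    have h3 := Finset.card_nsmul_le_sum (Y'.filter (fun y => s(w, y) ∈ H)) _ _ h2
    rw [smul_eq_mul] at h3
    refine le_trans h3 (Finset.sum_le_sum_of_subset ?_)
    exact (Finset.filter_subset _ _).trans hS
  have h2 := Finset.card_nsmul_le_sum (Y'.filter (fun y => s(u, y) ∈ H)) _ _ h1
  rw [smul_eq_mul] at h2
  refine le_trans h2 (Finset.sum_le_sum_of_subset ?_)
  exact (Finset.filter_subset _ _).trans hS

/-- the counts on one side -/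
theorem e1a2_side {τ : ℝ} (hτ : 0 < τ) (hτ' : τ ≤ 1 / 20) {E H : Finset (Sym2 V)}
    {Y Y0 Y' S : Finset V} (hn : 8 / τ + 20 ≤ nV V) (hS : Y' ⊆ S) (hY0 : Y0 ⊆ Y) (hY' : Y' ⊆ Y0)
    (h1 : (1 / 2 - τ / 40) * nV V ≤ (Y'.card : ℝ)) (h2 : (Y'.card : ℝ) ≤ (1 / 2 + τ / 40) * nV V)
    (h3 : ∀ a ∈ Y', ((Y'.filter (fun y => s(a, y) ∉ E)).card : ℝ) ≤ τ / 40 * nV V)
    (h4 : ∀ v, (deg (inn E Y \ H) v : ℝ) ≤ τ / 40 * nV V)
    (h5 : ∀ a ∈ Y0, (1 / 2 - τ - 2 * (τ / 40)) * nV V - 1 ≤ (dg E Y' a : ℝ))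
    (h6 : ∀ a ∈ Y, τ * nV V ≤ (dg E Y' a : ℝ)) :
    (∀ u ∈ Y, ∀ w ∈ Y, τ ^ 2 / 16 * nV V ^ 3 ≤ (P4 H S u w : ℝ) ∧
        τ ^ 2 / 16 * nV V ^ 2 ≤ (P3 H S u w : ℝ)) ∧
      (∀ u ∈ Y0, ∀ w ∈ Y0, 1 / 5 * nV V ≤ (cn H S u w : ℝ)) ∧
      (∀ u ∈ Y0, ∀ w ∈ Y, 2 * τ * nV V ≤ (dg E Y' w : ℝ) → τ / 2 * nV V ≤ (cn H S u w : ℝ)) := by
  have hn20 : (20 : ℝ) ≤ nV V := by
    have : 0 < 8 / τ := by positivity
    linarith
  have hτn : 8 ≤ τ * nV V := by
    have h7 : 8 / τ ≤ nV V := by linarith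
    rw [div_le_iff₀ hτ] at h7
    linarith
  have hn0 : (0 : ℝ) < nV V := by linarith
  have hYY : Y' ⊆ Y := hY'.trans hY0
  -- degrees through `H`
  have hdeg : ∀ u ∈ Y, (dg E Y' u : ℝ) - τ / 40 * nV V ≤ (dg H Y' u : ℝ) := by
    intro u hu
    have h7 : (dg E Y' u : ℝ) ≤ (dg H Y' u : ℝ) + (deg (inn E Y \ H) u : ℝ) := by
      exact_mod_cast e1a2_dg (E := E) (H := H) hYY hu
    have h8 := h4 u
    linarith
  have hdeg2 : ∀ u ∈ Y, τ / 2 * nV V ≤ (dg H Y' u : ℝ) := by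
    intro u hu
    have h7 := hdeg u hu
    have h8 := h6 u hu
    have h9 : 0 < τ * nV V := by positivity
    nlinarith
  have hm : ∀ a ∈ Y', (Y'.filter (fun y => s(a, y) ∉ H)).card ≤ ⌊τ / 20 * nV V⌋₊ := by
    intro a ha
    apply Nat.le_floor
    have h7 : ((Y'.filter (fun y => s(a, y) ∉ H)).card : ℝ) ≤
        ((Y'.filter (fun y => s(a, y) ∉ E)).card : ℝ) + (deg (inn E Y \ H) a : ℝ) := by
      exact_mod_cast e1a2_miss (E := E) (H := H) hYY (hYY ha)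
    have h8 := h4 a
    have h9 := h3 a ha
    linarith
  have hfl : ((⌊τ / 20 * nV V⌋₊ : ℕ) : ℝ) ≤ τ / 20 * nV V := Nat.floor_le (by positivity)
  refine ⟨fun u hu w hw => ⟨?_, ?_⟩, fun u hu w hw => ?_, fun u hu w hw hdw => ?_⟩
  · -- walks of length four
    have h7 := e1a2_P4 (H := H) hS u w hm
    have h8 : (((dg H Y' u * (dg H Y' w * (Y'.card - 2 * ⌊τ / 20 * nV V⌋₊)) : ℕ)) : ℝ) ≤
        (P4 H S u w : ℝ) := by exact_mod_cast h7
    refine le_trans ?_ h8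
    push_cast
    have h9 : (1 / 4 : ℝ) * nV V ≤ ((Y'.card - 2 * ⌊τ / 20 * nV V⌋₊ : ℕ) : ℝ) := by
      have h10 : (Y'.card : ℝ) ≤ ((Y'.card - 2 * ⌊τ / 20 * nV V⌋₊ : ℕ) : ℝ) +
          2 * (⌊τ / 20 * nV V⌋₊ : ℕ) := by
        have : Y'.card ≤ (Y'.card - 2 * ⌊τ / 20 * nV V⌋₊) + 2 * ⌊τ / 20 * nV V⌋₊ := by omega
        exact_mod_cast this
      nlinarith
    have h10 : (τ / 2 * nV V) * ((τ / 2 * nV V) * (1 / 4 * nV V)) ≤
        (dg H Y' u : ℝ) * ((dg H Y' w : ℝ) * ((Y'.card - 2 * ⌊τ / 20 * nV V⌋₊ : ℕ) : ℝ)) := by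
      have := hdeg2 u hu
      have := hdeg2 w hw
      gcongr
    have h11 : (τ / 2 * nV V) * ((τ / 2 * nV V) * (1 / 4 * nV V)) = τ ^ 2 / 16 * nV V ^ 3 := by
      ring
    rw [← h11]
    exact h10
  · have h7 := e1a2_P3 (H := H) hS u w hm
    have h8 : (((dg H Y' u * (dg H Y' w - ⌊τ / 20 * nV V⌋₊) : ℕ)) : ℝ) ≤
        (P3 H S u w : ℝ) := by exact_mod_cast h7
    refine le_trans ?_ h8
    push_cast
    have h9 : τ / 4 * nV V ≤ ((dg H Y' w - ⌊τ / 20 * nV V⌋₊ : ℕ) : ℝ) := by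
      have h10 : (dg H Y' w : ℝ) ≤ ((dg H Y' w - ⌊τ / 20 * nV V⌋₊ : ℕ) : ℝ) +
          (⌊τ / 20 * nV V⌋₊ : ℕ) := by
        have : dg H Y' w ≤ (dg H Y' w - ⌊τ / 20 * nV V⌋₊) + ⌊τ / 20 * nV V⌋₊ := by omega
        exact_mod_cast this
      have h11 := hdeg2 w hw
      have h12 : 0 < τ * nV V := by positivity
      nlinarith
    have h10 : (τ / 2 * nV V) * (τ / 4 * nV V) ≤
        (dg H Y' u : ℝ) * ((dg H Y' w - ⌊τ / 20 * nV V⌋₊ : ℕ) : ℝ) := by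
      have := hdeg2 u hu
      gcongr
    have h11 : 0 < τ ^ 2 * nV V ^ 2 := by positivity
    nlinarith
  · have h7 : (dg H Y' u : ℝ) + (dg H Y' w : ℝ) ≤ (cn H S u w : ℝ) + (Y'.card : ℝ) := by
      exact_mod_cast e1a2_cn (H := H) hS u w
    have h8 := hdeg u (hY0 hu)
    have h9 := hdeg w (hY0 hw)
    have h10 := h5 u hu
    have h11 := h5 w hw
    nlinarith
  · have h7 : (dg H Y' u : ℝ) + (dg H Y' w : ℝ) ≤ (cn H S u w : ℝ) + (Y'.card : ℝ) := by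
      exact_mod_cast e1a2_cn (H := H) hS u w
    have h8 := hdeg u (hY0 hu)
    have h9 := hdeg w hw
    have h10 := h5 u hu
    nlinarith

end Side

theorem rich1_P4 (τ : ℝ) (hτ : 0 < τ) (hτ' : τ ≤ 1 / 20) :
    ∃ ε θ : ℝ, 0 < ε ∧ 0 < θ ∧ ∃ n0 : ℕ, ∀ (V : Type) [Fintype V] [DecidableEq V]
      (E H : Finset (Sym2 V)) (A0 B0 X A' B' : Finset V), n0 ≤ Fintype.card V → Loopless E →
      Env1 E ε τ A0 B0 X A' B' → H ⊆ E →
      (∀ v, (deg ((inn E (A0 ∪ X) ∪ inn E B0) \ H) v : ℝ) ≤ θ * nV V) →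
      (∀ u ∈ A0 ∪ X, ∀ w ∈ A0 ∪ X, τ ^ 2 / 16 * nV V ^ 3 ≤ (P4 H (A' ∪ B') u w : ℝ) ∧
        τ ^ 2 / 16 * nV V ^ 2 ≤ (P3 H (A' ∪ B') u w : ℝ)) ∧
      (∀ u ∈ B0, ∀ w ∈ B0, τ ^ 2 / 16 * nV V ^ 3 ≤ (P4 H (A' ∪ B') u w : ℝ) ∧
        τ ^ 2 / 16 * nV V ^ 2 ≤ (P3 H (A' ∪ B') u w : ℝ)) ∧
      (∀ u ∈ A0, ∀ w ∈ A0, 1 / 5 * nV V ≤ (cn H (A' ∪ B') u w : ℝ)) ∧
      (∀ u ∈ B0, ∀ w ∈ B0, 1 / 5 * nV V ≤ (cn H (A' ∪ B') u w : ℝ)) ∧
      (∀ u ∈ A0, ∀ w ∈ A0 ∪ X, 2 * τ * nV V ≤ (dg E A' w : ℝ) →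
        τ / 2 * nV V ≤ (cn H (A' ∪ B') u w : ℝ)) := by
  refine ⟨τ / 40, τ / 40, by positivity, by positivity, ⌈8 / τ + 20⌉₊, ?_⟩
  intro V _ _ E H A0 B0 X A' B' hn hl hEnv hH hθ
  have hn' : 8 / τ + 20 ≤ nV V := le_trans (Nat.le_ceil _) (by exact_mod_cast hn)
  have hn20 : (20 : ℝ) ≤ nV V := by
    have : 0 < 8 / τ := by positivity
    linarith
  obtain ⟨b1, b2, -, -, b5, b6, -⟩ := hEnv.basic hl
  have hA := e1a2_side (V := V) hτ hτ' (E := E) (H := H) (Y := A0 ∪ X) (Y0 := A0) (Y' := A')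
    (S := A' ∪ B') hn' Finset.subset_union_left Finset.subset_union_left hEnv.subA hEnv.sizeA b1
    hEnv.nA (fun v => le_trans (by
      exact_mod_cast deg_mono (Finset.sdiff_subset_sdiff Finset.subset_union_left
        (Finset.Subset.refl H)) v) (hθ v)) b5 (by
      intro a ha
      rcases Finset.mem_union.1 ha with h | h
      · have h1 := b5 a h
        nlinarith
      · exact (hEnv.mX a h).1)
  have hB := e1a2_side (V := V) hτ hτ' (E := E) (H := H) (Y := B0) (Y0 := B0) (Y' := B')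
    (S := A' ∪ B') hn' Finset.subset_union_right (Finset.Subset.refl _) hEnv.subB hEnv.sizeB b2
    hEnv.nB (fun v => le_trans (by
      exact_mod_cast deg_mono (Finset.sdiff_subset_sdiff Finset.subset_union_right
        (Finset.Subset.refl H)) v) (hθ v)) b6 (by
      intro a ha
      have h1 := b6 a ha
      nlinarith)
  exact ⟨hA.1, hB.1, hA.2.1, hB.2.1, hA.2.2⟩

end H15C6
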