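import Pool.Agent.H15.C6.EDefs

/-!
Module E1A1 (part of E1A).  Extremal case 1 (two almost complete halves): preparation.

`prep1`: given the sets `A', B'` of `Ext1 E ε` and `ε ≤ τ`:
`X := {v : τ n < dg E A' v and τ n < dg E B' v}`, `A0 := {v ∉ X : dg E B' v ≤ τ n}`,
`B0 := {v ∉ X : τ n < dg E B' v}` (then `dg E A' v ≤ τ n`).  `A' ⊆ A0` as `dg E B' a ≤ ε n ≤ τ n`; for `b ∈ B'`:
`dg E B' b ≥ |B'| - εn > τ n` and `dg E A' b ≤ εn`, so `b ∈ B0`.

`rich1_*`: walk counts in a host `H` of inner edges.  `H ⊆ E` loses at most `θ n` edges at every vertex.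
For `A := A0 ∪ X`: every `u ∈ A` has at least `(τ/2) n` neighbours in `A'` through `H`
(`a ∈ A0`: `dg E A' a ≥ (n-1)/2 - τ n - 2 ε n`), two vertices of `A'` are adjacent in `H` for all but
`(ε+θ) n` choices.  Hence `P4 H S u w ≥ h n³`, `P3 H S u w ≥ h n²` for all `u, w ∈ A`, with `h = τ²/16`,
and `cn H S u w ≥ h n` if `u ∈ A0` (typical) and `dg E A' w ≥ 2τ n + 4 ε n + 2θ n + h n`.
Two typical vertices of `A0` have `≥ n/5` common neighbours (`τ ≤ 1/20`).
The same for `B0`.
-/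

open Finset

namespace H15C6

/-- `A'` and `B'` disjoint: few neighbours in `B'` -/
theorem e1a1_dg_le {V : Type} [Fintype V] [DecidableEq V] {E : Finset (Sym2 V)} {ε : ℝ}
    {A' B' : Finset V} (hd : Disjoint A' B') (h : NbrsLike E ε A' A') {a : V} (ha : a ∈ A') :
    (dg E B' a : ℝ) ≤ ε * nV V := by
  refine le_trans ?_ (h a ha).1
  unfold dg
  have h1 : B'.filter (fun y => s(a, y) ∈ E) ⊆
      Finset.univ.filter (fun y => s(a, y) ∈ E ∧ y ∉ A') := by
    intro y hy
    rw [Finset.mem_filter] at hy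
    rw [Finset.mem_filter]
    exact ⟨Finset.mem_univ y, hy.2, fun hyA => (Finset.disjoint_left.1 hd) hyA hy.1⟩
  exact_mod_cast Finset.card_le_card h1

/-- many neighbours in `A'` -/
theorem e1a1_le_dg {V : Type} [Fintype V] [DecidableEq V] {E : Finset (Sym2 V)} {ε : ℝ}
    {A' : Finset V} (h : NbrsLike E ε A' A') {a : V} (ha : a ∈ A') :
    (A'.card : ℝ) - ε * nV V ≤ (dg E A' a : ℝ) := by
  have h1 := (h a ha).2
  have h2 : (A'.filter (fun y => s(a, y) ∈ E)).card + (A'.filter (fun y => s(a, y) ∉ E)).card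
      = A'.card := Finset.card_filter_add_card_filter_not _
  have h3 : (dg E A' a : ℝ) + ((A'.filter (fun y => s(a, y) ∉ E)).card : ℝ) = (A'.card : ℝ) := by
    unfold dg
    exact_mod_cast h2
  linarith

theorem prep1 (ε τ : ℝ) (hε : 0 < ε) (hετ : ε ≤ τ) (hτ : τ ≤ 1 / 10) :
    ∃ n0 : ℕ, ∀ (V : Type) [Fintype V] [DecidableEq V] (E : Finset (Sym2 V)) (A' B' : Finset V),
      n0 ≤ Fintype.card V → Loopless E → (∀ v, Fintype.card V ≤ 2 * deg E v + 1) →
      Disjoint A' B' → (1 / 2 - ε) * nV V ≤ A'.card → (1 / 2 - ε) * nV V ≤ B'.card →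
      NbrsLike E ε A' A' → NbrsLike E ε B' B' →
      ∃ A0 B0 X : Finset V, Env1 E ε τ A0 B0 X A' B' ∧
        ∀ v, v ∈ X ↔ (τ * nV V < (dg E A' v : ℝ) ∧ τ * nV V < (dg E B' v : ℝ)) := by
  refine ⟨0, ?_⟩
  intro V _ _ E A' B' _ hl hdeg hd hA hB hNA hNB
  classical
  have hn : (0 : ℝ) ≤ nV V := Nat.cast_nonneg _
  have hετn : ε * nV V ≤ τ * nV V := mul_le_mul_of_nonneg_right hετ hn
  let X : Finset V := Finset.univ.filter
    (fun v => τ * nV V < (dg E A' v : ℝ) ∧ τ * nV V < (dg E B' v : ℝ))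
  let A0 : Finset V := Finset.univ.filter (fun v => (dg E B' v : ℝ) ≤ τ * nV V)
  let B0 : Finset V := Finset.univ.filter
    (fun v => (dg E A' v : ℝ) ≤ τ * nV V ∧ τ * nV V < (dg E B' v : ℝ))
  have hX : ∀ v, v ∈ X ↔ (τ * nV V < (dg E A' v : ℝ) ∧ τ * nV V < (dg E B' v : ℝ)) := by
    intro v; simp [X]
  have hA0 : ∀ v, v ∈ A0 ↔ (dg E B' v : ℝ) ≤ τ * nV V := by
    intro v; simp [A0]
  have hB0 : ∀ v, v ∈ B0 ↔ ((dg E A' v : ℝ) ≤ τ * nV V ∧ τ * nV V < (dg E B' v : ℝ)) := by
    intro v; simp [B0]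
  refine ⟨A0, B0, X, ?_, hX⟩
  refine
    { dAB := ?_, dAX := ?_, dBX := ?_, cover := ?_, subA := ?_, subB := ?_, sizeA := hA,
      sizeB := hB, nA := fun a ha => (hNA a ha).2, nA' := fun a ha => e1a1_dg_le hd hNA ha,
      nB := fun b hb => (hNB b hb).2, nB' := fun b hb => e1a1_dg_le hd.symm hNB hb,
      tA := fun a ha => (hA0 a).1 ha, tB := fun b hb => ((hB0 b).1 hb).1,
      mX := fun x hx => ⟨((hX x).1 hx).1.le, ((hX x).1 hx).2.le⟩, mindeg := hdeg }
  · rw [Finset.disjoint_left]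
    intro v h1 h2
    rw [hA0] at h1
    rw [hB0] at h2
    exact absurd h2.2 (not_lt.2 h1)
  · rw [Finset.disjoint_left]
    intro v h1 h2
    rw [hA0] at h1
    rw [hX] at h2
    exact absurd h2.2 (not_lt.2 h1)
  · rw [Finset.disjoint_left]
    intro v h1 h2
    rw [hB0] at h1
    rw [hX] at h2
    exact absurd h2.1 (not_lt.2 h1.1)
  · ext v
    simp only [Finset.mem_union, Finset.mem_univ, iff_true]
    rw [hA0, hB0, hX]
    by_cases h1 : (dg E B' v : ℝ) ≤ τ * nV V
    · exact Or.inl (Or.inl h1)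
    · by_cases h2 : (dg E A' v : ℝ) ≤ τ * nV V
      · exact Or.inl (Or.inr ⟨h2, not_le.1 h1⟩)
      · exact Or.inr ⟨not_le.1 h2, not_le.1 h1⟩
  · intro a ha
    rw [hA0]
    exact (e1a1_dg_le hd hNA ha).trans hετn
  · intro b hb
    rw [hB0]
    refine ⟨(e1a1_dg_le hd.symm hNB hb).trans hετn, ?_⟩
    have h1 := e1a1_le_dg hNB hb
    have hpos : (0 : ℝ) < nV V := by
      have : 0 < Fintype.card V := Fintype.card_pos_iff.2 ⟨b⟩
      exact_mod_cast this
    nlinarith

/-- swapping the two sides -/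
theorem Env1.swap {V : Type} [Fintype V] [DecidableEq V] {E : Finset (Sym2 V)} {ε τ : ℝ}
    {A0 B0 X A' B' : Finset V} (h : Env1 E ε τ A0 B0 X A' B') : Env1 E ε τ B0 A0 X B' A' where
  dAB := h.dAB.symm
  dAX := h.dBX
  dBX := h.dAX
  cover := by rw [Finset.union_comm B0 A0]; exact h.cover
  subA := h.subB
  subB := h.subA
  sizeA := h.sizeB
  sizeB := h.sizeA
  nA := h.nB
  nA' := h.nB'
  nB := h.nA
  nB' := h.nA'
  tA := h.tB
  tB := h.tA
  mX := fun x hx => (h.mX x hx).symm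
  mindeg := h.mindeg

/-- the degree splits -/
theorem e1a1_deg_le {V : Type} [Fintype V] [DecidableEq V] (E : Finset (Sym2 V))
    (A' B' : Finset V) (v : V) :
    deg E v ≤ dg E A' v + dg E B' v + (Finset.univ \ (A' ∪ B')).card := by
  have h1 : deg E v = dg E Finset.univ v := by
    apply deg_eq_dg
    intro e _
    rw [Finset.mem_sym2_iff]
    intro x _
    exact Finset.mem_univ x
  rw [h1]
  unfold dg
  have h2 : Finset.univ.filter (fun y => s(v, y) ∈ E) ⊆
      (A'.filter (fun y => s(v, y) ∈ E) ∪ B'.filter (fun y => s(v, y) ∈ E)) ∪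
        (Finset.univ \ (A' ∪ B')) := by
    intro y hy
    simp only [Finset.mem_filter, Finset.mem_univ, true_and, Finset.mem_union,
      Finset.mem_sdiff] at hy ⊢
    tauto
  refine (Finset.card_le_card h2).trans ((Finset.card_union_le _ _).trans ?_)
  exact Nat.add_le_add_right (Finset.card_union_le _ _) _

theorem e1a1_disj {V : Type} [Fintype V] [DecidableEq V] {E : Finset (Sym2 V)} {ε τ : ℝ}
    {A0 B0 X A' B' : Finset V} (h : Env1 E ε τ A0 B0 X A' B') : Disjoint A' B' :=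
  Finset.disjoint_of_subset_left h.subA (Finset.disjoint_of_subset_right h.subB h.dAB)

theorem e1a1_card {V : Type} [Fintype V] [DecidableEq V] {E : Finset (Sym2 V)} {ε τ : ℝ}
    {A0 B0 X A' B' : Finset V} (h : Env1 E ε τ A0 B0 X A' B') :
    (A'.card : ℝ) ≤ (1 / 2 + ε) * nV V ∧
    (((Finset.univ \ (A' ∪ B')).card : ℝ) ≤ 2 * ε * nV V) := by
  have h1 : (Finset.univ \ (A' ∪ B')).card + (A'.card + B'.card) = Fintype.card V := by
    rw [← Finset.card_union_of_disjoint (e1a1_disj h), Finset.card_sdiff_add_card_eq_card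
      (Finset.subset_univ _), Finset.card_univ]
  have h2 : (((Finset.univ \ (A' ∪ B')).card : ℝ)) + ((A'.card : ℝ) + (B'.card : ℝ)) = nV V := by
    exact_mod_cast h1
  have h3 := h.sizeA
  have h4 := h.sizeB
  have h5 : (0 : ℝ) ≤ (((Finset.univ \ (A' ∪ B')).card : ℝ)) := Nat.cast_nonneg _
  constructor <;> linarith

theorem e1a1_low {V : Type} [Fintype V] [DecidableEq V] {E : Finset (Sym2 V)} {ε τ : ℝ}
    {A0 B0 X A' B' : Finset V} (h : Env1 E ε τ A0 B0 X A' B') {a : V} (ha : a ∈ A0) :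
    (1 / 2 - τ - 2 * ε) * nV V - 1 ≤ (dg E A' a : ℝ) := by
  have h1 := h.mindeg a
  have h2 := e1a1_deg_le E A' B' a
  have h3 := h.tA a ha
  have h4 := (e1a1_card h).2
  have h5 : (nV V : ℝ) ≤ 2 * (deg E a : ℝ) + 1 := by exact_mod_cast h1
  have h6 : (deg E a : ℝ) ≤ (dg E A' a : ℝ) + (dg E B' a : ℝ) +
      ((Finset.univ \ (A' ∪ B')).card : ℝ) := by exact_mod_cast h2
  linarith

/-- all basic inequalities of the environment -/
theorem Env1.basic {V : Type} [Fintype V] [DecidableEq V] {E : Finset (Sym2 V)} {ε τ : ℝ}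
    {A0 B0 X A' B' : Finset V} (h : Env1 E ε τ A0 B0 X A' B') (hl : Loopless E) :
    (A'.card : ℝ) ≤ (1 / 2 + ε) * nV V ∧ (B'.card : ℝ) ≤ (1 / 2 + ε) * nV V ∧
    (((Finset.univ \ (A' ∪ B')).card : ℝ) ≤ 2 * ε * nV V) ∧
    (∀ v, deg E v ≤ dg E A' v + dg E B' v + (Finset.univ \ (A' ∪ B')).card) ∧
    (∀ a ∈ A0, (1 / 2 - τ - 2 * ε) * nV V - 1 ≤ (dg E A' a : ℝ)) ∧
    (∀ b ∈ B0, (1 / 2 - τ - 2 * ε) * nV V - 1 ≤ (dg E B' b : ℝ)) ∧
    (((crs E (A0 ∪ X) B0).card : ℝ) ≤ 3 * ε * nV V ^ 2) := by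
  refine ⟨(e1a1_card h).1, (e1a1_card h.swap).1, (e1a1_card h).2, e1a1_deg_le E A' B',
    fun a ha => e1a1_low h ha, fun b hb => e1a1_low h.swap hb, ?_⟩
  set R : Finset V := Finset.univ \ (A' ∪ B') with hR
  have hn : (0 : ℝ) ≤ nV V := Nat.cast_nonneg _
  -- the covering
  have hcov : crs E (A0 ∪ X) B0 ⊆ (R ×ˢ Finset.univ).image (fun p : V × V => s(p.1, p.2)) ∪
      A'.biUnion (fun a => (B'.filter (fun y => s(a, y) ∈ E)).image (fun y => s(a, y))) := by
    intro e he
    induction e using Sym2.ind with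
    | _ x y =>
      unfold crs at he
      simp only [Finset.mem_sdiff, Finset.mk_mem_sym2_iff] at he
      obtain ⟨⟨heE, h1⟩, h2⟩ := he
      have hc : ∀ z : V, z ∈ A0 ∪ X ∨ z ∈ B0 := by
        intro z
        have hz := Finset.mem_univ z
        rw [← h.cover, Finset.mem_union, Finset.mem_union] at hz
        rw [Finset.mem_union]
        tauto
      have hnB : ∀ z : V, z ∈ A0 ∪ X → z ∉ B' := by
        intro z hz hzB
        rw [Finset.mem_union] at hz
        rcases hz with hz | hz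
        · exact (Finset.disjoint_left.1 h.dAB) hz (h.subB hzB)
        · exact (Finset.disjoint_left.1 h.dBX) (h.subB hzB) hz
      have hnA : ∀ z : V, z ∈ B0 → z ∉ A' := by
        intro z hz hzA
        exact (Finset.disjoint_left.1 h.dAB) (h.subA hzA) hz
      have key : ∀ x y : V, s(x, y) ∈ E → x ∈ A0 ∪ X → y ∈ B0 →
          s(x, y) ∈ (R ×ˢ Finset.univ).image (fun p : V × V => s(p.1, p.2)) ∪
          A'.biUnion (fun a => (B'.filter (fun y => s(a, y) ∈ E)).image (fun y => s(a, y))) := by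
        intro x y hE hx hy
        rw [Finset.mem_union]
        by_cases hxR : x ∈ R
        · left
          exact Finset.mem_image.2 ⟨(x, y), Finset.mem_product.2 ⟨hxR, Finset.mem_univ _⟩, rfl⟩
        by_cases hyR : y ∈ R
        · left
          exact Finset.mem_image.2 ⟨(y, x), Finset.mem_product.2 ⟨hyR, Finset.mem_univ _⟩,
            Sym2.eq_swap⟩
        right
        have hx' : x ∈ A' := by
          rw [hR, Finset.mem_sdiff, not_and, not_not, Finset.mem_union] at hxR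
          exact (hxR (Finset.mem_univ x)).resolve_right (hnB x hx)
        have hy' : y ∈ B' := by
          rw [hR, Finset.mem_sdiff, not_and, not_not, Finset.mem_union] at hyR
          exact (hyR (Finset.mem_univ y)).resolve_left (hnA y hy)
        exact Finset.mem_biUnion.2 ⟨x, hx', Finset.mem_image.2 ⟨y,
          Finset.mem_filter.2 ⟨hy', hE⟩, rfl⟩⟩
      rcases hc x with hx | hx
      · rcases hc y with hy | hy
        · exact absurd ⟨hx, hy⟩ h1
        · exact key x y heE hx hy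
      · rcases hc y with hy | hy
        · have := key y x (by rw [Sym2.eq_swap]; exact heE) hy hx
          rw [Sym2.eq_swap] at this
          exact this
        · exact absurd ⟨hx, hy⟩ h2
  have h1 : (crs E (A0 ∪ X) B0).card ≤ R.card * Fintype.card V + ∑ a ∈ A', dg E B' a := by
    refine (Finset.card_le_card hcov).trans ((Finset.card_union_le _ _).trans ?_)
    refine Nat.add_le_add ?_ ?_
    · refine Finset.card_image_le.trans ?_
      rw [Finset.card_product, Finset.card_univ]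
    · refine Finset.card_biUnion_le.trans ?_
      refine Finset.sum_le_sum fun a _ => ?_
      exact Finset.card_image_le
  have h2 : ((crs E (A0 ∪ X) B0).card : ℝ) ≤ (R.card : ℝ) * nV V + ∑ a ∈ A', (dg E B' a : ℝ) := by
    exact_mod_cast h1
  have h3 : (∑ a ∈ A', (dg E B' a : ℝ)) ≤ A'.card * (ε * nV V) := by
    have := Finset.sum_le_card_nsmul A' (fun a => (dg E B' a : ℝ)) (ε * nV V) h.nA'
    simpa [nsmul_eq_mul] using this
  have h4 : (A'.card : ℝ) ≤ nV V := by
    have := Finset.card_le_univ A'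
    exact_mod_cast this
  have h5 : (0 : ℝ) ≤ ε * nV V := by
    rcases A'.eq_empty_or_nonempty with hA | ⟨a, ha⟩
    · have h6 := h.sizeA
      rw [hA] at h6
      simp only [Finset.card_empty, Nat.cast_zero] at h6
      linarith
    · exact le_trans (Nat.cast_nonneg _) (h.nA' a ha)
  have h6 : (A'.card : ℝ) * (ε * nV V) ≤ nV V * (ε * nV V) := mul_le_mul_of_nonneg_right h4 h5
  have h7 : (R.card : ℝ) * nV V ≤ 2 * ε * nV V * nV V :=
    mul_le_mul_of_nonneg_right (e1a1_card h).2 hn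
  nlinarith

end H15C6
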