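import Pool.Agent.H15.C6.CC

/-!
Module PM.  Covering an even number of left-over edges: pair them up arbitrarily; two edges with a
common vertex are closed by a path of length four, two disjoint edges by two paths of length two.

Proof.  Split `M` into pairs (`|M|/2` requests; e.g. by `cherry_pairing`-like induction on `|M|`, or
enumerate `M` as `Fin (2m)` and pair `2i, 2i+1`).  Request of a pair `{m, m'}`: if `m = s(u,v)`,
`m' = s(v,w)`, `u ≠ w`: `cA u v w`; otherwise `cC p q p' q'` from `hdis`.  `greedy_complete` with `h - 8/|S|`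
(`rich_cA`, `rich_cC`; note `unk = 3` or `2`); a vertex is a port of at most `deg M p ≤ e` requests;
`fixE` of a request is the pair `{m, m'}`.
-/

open Finset

namespace H15C6

theorem pm_pairs {α : Type} [DecidableEq α] (n : ℕ) : ∀ M : Finset α, M.card = 2 * n →
    ∃ J : Finset (α × α), (∀ t ∈ J, t.1 ∈ M ∧ t.2 ∈ M ∧ t.1 ≠ t.2) ∧
      (∀ t ∈ J, ∀ t' ∈ J, t ≠ t' → Disjoint ({t.1, t.2} : Finset α) {t'.1, t'.2}) ∧
      (∀ m ∈ M, ∃ t ∈ J, m ∈ ({t.1, t.2} : Finset α)) ∧ J.card = n := by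
  induction n with
  | zero =>
    intro M hM
    have hM0 : M = ∅ := Finset.card_eq_zero.1 (by omega)
    subst hM0
    exact ⟨∅, by simp, by simp, by simp, by simp⟩
  | succ n ih =>
    intro M hM
    obtain ⟨a, ha⟩ : M.Nonempty := Finset.card_pos.1 (by omega)
    have h1 : (M.erase a).card = 2 * n + 1 := by
      rw [Finset.card_erase_of_mem ha]; omega
    obtain ⟨b, hb⟩ : (M.erase a).Nonempty := Finset.card_pos.1 (by omega)
    have h2 : ((M.erase a).erase b).card = 2 * n := by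
      rw [Finset.card_erase_of_mem hb]; omega
    have hba := (Finset.mem_erase.1 hb).1
    have hbM := (Finset.mem_erase.1 hb).2
    obtain ⟨J, hJ1, hJ2, hJ3, hJ4⟩ := ih _ h2
    have hdj : ∀ t ∈ J, Disjoint ({a, b} : Finset α) {t.1, t.2} := by
      intro t ht
      obtain ⟨e1, e2, _⟩ := hJ1 t ht
      rw [Finset.mem_erase, Finset.mem_erase] at e1 e2
      rw [Finset.disjoint_left]
      intro x hx hx'
      rw [Finset.mem_insert, Finset.mem_singleton] at hx hx'
      rcases hx with rfl | rfl <;> rcases hx' with h | h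
      · exact e1.2.1 h.symm
      · exact e2.2.1 h.symm
      · exact e1.1 h.symm
      · exact e2.1 h.symm
    have hnew : (a, b) ∉ J := by
      intro h
      have := hdj _ h
      rw [Finset.disjoint_left] at this
      exact this (Finset.mem_insert_self a _) (Finset.mem_insert_self a _)
    refine ⟨insert (a, b) J, ?_, ?_, ?_, ?_⟩
    · intro t ht
      rcases Finset.mem_insert.1 ht with rfl | ht
      · exact ⟨ha, hbM, fun h => hba h.symm⟩
      · obtain ⟨e1, e2, e3⟩ := hJ1 t ht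
        exact ⟨Finset.mem_of_mem_erase (Finset.mem_of_mem_erase e1),
          Finset.mem_of_mem_erase (Finset.mem_of_mem_erase e2), e3⟩
    · intro t ht t' ht' hne
      rcases Finset.mem_insert.1 ht with rfl | ht <;> rcases Finset.mem_insert.1 ht' with rfl | ht'
      · exact absurd rfl hne
      · exact hdj _ ht'
      · exact (hdj _ ht).symm
      · exact hJ2 t ht t' ht' hne
    · intro m hm
      by_cases hma : m = a
      · exact ⟨(a, b), Finset.mem_insert_self _ _, by simp [hma]⟩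
      · by_cases hmb : m = b
        · exact ⟨(a, b), Finset.mem_insert_self _ _, by simp [hmb]⟩
        · obtain ⟨t, ht, htm⟩ := hJ3 m (Finset.mem_erase.2 ⟨hmb, Finset.mem_erase.2 ⟨hma, hm⟩⟩)
          exact ⟨t, Finset.mem_insert_of_mem ht, htm⟩
    · rw [Finset.card_insert_of_notMem hnew, hJ4]

theorem pm_req {V : Type} [Fintype V] [DecidableEq V] (S : Finset V) (H M : Finset (Sym2 V))
    (h : ℝ) (hS : 0 < S.card) (hH : Loopless H) (hM : Loopless M)
    (hadj : ∀ u v w, u ≠ w → s(u, v) ∈ M → s(v, w) ∈ M →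
      h * (S.card : ℝ) ^ 3 ≤ (P4 H S u w : ℝ))
    (hdis : ∀ m ∈ M, ∀ m' ∈ M, (∀ v, v ∈ m → v ∉ m') → ∃ p q p' q', m = s(p, q) ∧ m' = s(p', q') ∧
      h * (S.card : ℝ) ^ 2 ≤ (cn H S q p' : ℝ) * (cn H S q' p : ℝ))
    (m m' : Sym2 V) (hm : m ∈ M) (hm' : m' ∈ M) (hne : m ≠ m') :
    ∃ c : Fin 6 → Option V, fixE c = {m, m'} ∧ 1 ≤ unk c ∧
      (h - 8 / S.card) * (S.card : ℝ) ^ (unk c) ≤ ((compl6 S H c).card : ℝ) ∧
      ∀ p, IsPort c p → p ∈ m ∨ p ∈ m' := by
  have hS' : (0 : ℝ) < S.card := by exact_mod_cast hS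
  by_cases hv : ∃ v, v ∈ m ∧ v ∈ m'
  · obtain ⟨v, hv1, hv2⟩ := hv
    obtain ⟨u, rfl⟩ := Sym2.mem_iff_exists.1 hv1
    obtain ⟨w, rfl⟩ := Sym2.mem_iff_exists.1 hv2
    have huw : u ≠ w := by
      rintro rfl
      exact hne rfl
    have hvu : v ≠ u := hM.ne hm
    have hvw : v ≠ w := hM.ne hm'
    refine ⟨cA u v w, ?_, ?_, ?_, ?_⟩
    · rw [fixE_cA, Sym2.eq_swap]
    · rw [unk_cA]; norm_num
    · have h1 := hadj u v w huw (by rw [Sym2.eq_swap]; exact hm) hm'
      have h2 : ((P4 H S u w : ℕ) : ℝ) ≤ (compl6 S H (cA u v w)).card + 8 * (S.card : ℝ) ^ 2 := by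
        exact_mod_cast rich_cA hH hvu.symm hvw huw
      rw [unk_cA]
      have h3 : (h - 8 / S.card) * (S.card : ℝ) ^ 3 = h * (S.card : ℝ) ^ 3 - 8 * (S.card : ℝ) ^ 2 := by
        field_simp
      rw [h3]
      linarith
    · intro p hp
      rcases isPort_cA hp with rfl | rfl
      · left; exact Sym2.mem_mk_right _ _
      · right; exact Sym2.mem_mk_right _ _
  · push Not at hv
    obtain ⟨p, q, p', q', rfl, rfl, h1⟩ := hdis m hm m' hm' hv
    have hpq : p ≠ q := hM.ne hm
    have hpq' : p' ≠ q' := hM.ne hm'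
    have e1 := hv p (Sym2.mem_mk_left _ _)
    have e2 := hv q (Sym2.mem_mk_right _ _)
    rw [Sym2.mem_iff, not_or] at e1 e2
    refine ⟨cC p q p' q', ?_, ?_, ?_, ?_⟩
    · rw [fixE_cC]
    · rw [unk_cC]; norm_num
    · have h2 : ((cn H S q p' : ℕ) : ℝ) * (cn H S q' p : ℝ) ≤
          (compl6 S H (cC p q p' q')).card + 5 * (S.card : ℝ) := by
        exact_mod_cast rich_cC hH hpq e1.1 e1.2 e2.1 e2.2 hpq'
      rw [unk_cC]
      have h3 : (h - 8 / S.card) * (S.card : ℝ) ^ 2 = h * (S.card : ℝ) ^ 2 - 8 * (S.card : ℝ) := by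
        field_simp
      rw [h3]
      linarith
    · intro z hz
      rcases isPort_cC hz with rfl | rfl | rfl | rfl
      · left; exact Sym2.mem_mk_left _ _
      · left; exact Sym2.mem_mk_right _ _
      · right; exact Sym2.mem_mk_left _ _
      · right; exact Sym2.mem_mk_right _ _

theorem pair_cover {V : Type} [Fintype V] [DecidableEq V] (S : Finset V) (H M : Finset (Sym2 V))
    (h : ℝ) (e q : ℕ) (hq : 1 ≤ q) (hH : Loopless H) (hM : Loopless M) (hMH : Disjoint M H)
    (heven : Even M.card)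
    (hadj : ∀ u v w, u ≠ w → s(u, v) ∈ M → s(v, w) ∈ M →
      h * (S.card : ℝ) ^ 3 ≤ (P4 H S u w : ℝ))
    (hdis : ∀ m ∈ M, ∀ m' ∈ M, (∀ v, v ∈ m → v ∉ m') → ∃ p q p' q', m = s(p, q) ∧ m' = s(p', q') ∧
      h * (S.card : ℝ) ^ 2 ≤ (cn H S q p' : ℝ) * (cn H S q' p : ℝ))
    (hload : ∀ p, deg M p ≤ e)
    (hnum : 18 * (M.card : ℝ) / q + 12 * e + 12 * q + 8 < h * S.card) :
    ∃ D : Finset (Sym2 V), Dec D ∧ M ⊆ D ∧ D ⊆ M ∪ H ∧ ∀ p, deg (D ∩ H) p ≤ 2 * (e + q) := by
  have hq' : (1 : ℝ) ≤ q := by exact_mod_cast hq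
  have hS : 0 < S.card := by
    rcases Nat.eq_zero_or_pos S.card with h0 | h0
    · exfalso
      rw [h0] at hnum
      have h1 : (0 : ℝ) ≤ 18 * (M.card : ℝ) / q := by positivity
      have h2 : (0 : ℝ) ≤ e := Nat.cast_nonneg e
      simp only [Nat.cast_zero, mul_zero] at hnum
      linarith
    · exact h0
  have hS' : (0 : ℝ) < S.card := by exact_mod_cast hS
  obtain ⟨n, hn⟩ := heven
  obtain ⟨J, hJ1, hJ2, hJ3, hJ4⟩ := pm_pairs n M (by omega)
  have hreq : ∀ t : Sym2 V × Sym2 V, ∃ c : Fin 6 → Option V, t ∈ J →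
      (fixE c = {t.1, t.2} ∧ 1 ≤ unk c ∧
      (h - 8 / S.card) * (S.card : ℝ) ^ (unk c) ≤ ((compl6 S H c).card : ℝ) ∧
      ∀ p, IsPort c p → p ∈ t.1 ∨ p ∈ t.2) := by
    intro t
    by_cases ht : t ∈ J
    · obtain ⟨e1, e2, e3⟩ := hJ1 t ht
      obtain ⟨c, hc⟩ := pm_req S H M h hS hH hM hadj hdis t.1 t.2 e1 e2 e3
      exact ⟨c, fun _ => hc⟩
    · exact ⟨fun _ => none, fun h => absurd h ht⟩
  choose c hc using hreq
  have hld : ∀ p, (J.filter (fun j => IsPort (c j) p)).card ≤ e := by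
    intro p
    refine le_trans ?_ (hload p)
    unfold deg
    apply Finset.card_le_card_of_injOn (fun t => if p ∈ t.1 then t.1 else t.2)
    · intro t ht
      obtain ⟨ht1, ht2⟩ := Finset.mem_filter.1 (Finset.mem_coe.1 ht)
      have h3 := (hc t ht1).2.2.2 p ht2
      obtain ⟨e1, e2, _⟩ := hJ1 t ht1
      refine Finset.mem_coe.2 (Finset.mem_filter.2 ?_)
      change (if p ∈ t.1 then t.1 else t.2) ∈ M ∧ p ∈ (if p ∈ t.1 then t.1 else t.2)
      by_cases hp : p ∈ t.1
      · rw [if_pos hp]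
        exact ⟨e1, hp⟩
      · rw [if_neg hp]
        exact ⟨e2, h3.resolve_left hp⟩
    · intro t ht t' ht' hEq
      obtain ⟨ht1, _⟩ := Finset.mem_filter.1 (Finset.mem_coe.1 ht)
      obtain ⟨ht1', _⟩ := Finset.mem_filter.1 (Finset.mem_coe.1 ht')
      by_contra hne
      have hd := hJ2 t ht1 t' ht1' hne
      rw [Finset.disjoint_left] at hd
      have m1 : (if p ∈ t.1 then t.1 else t.2) ∈ ({t.1, t.2} : Finset (Sym2 V)) := by
        split_ifs <;> simp
      have m2 : (if p ∈ t'.1 then t'.1 else t'.2) ∈ ({t'.1, t'.2} : Finset (Sym2 V)) := by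
        split_ifs <;> simp
      simp only at hEq
      rw [← hEq] at m2
      exact hd m1 m2
  obtain ⟨D, hD1, hD2, hD3, hD4⟩ := greedy_complete J c S H (h - 8 / S.card) e q hq
    (fun j hj => (hc j hj).2.1) (fun j hj => (hc j hj).2.2.1) hld
    (by
      have e1 : (h - 8 / S.card) * (S.card : ℝ) = h * S.card - 8 := by field_simp
      have e2 : 36 * (J.card : ℝ) / q = 18 * (M.card : ℝ) / q := by
        rw [hn, hJ4]; push_cast; ring
      rw [e1, e2]
      linarith)
    (by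
      intro j hj j' hj' hne
      rw [(hc j hj).1, (hc j' hj').1]
      exact hJ2 j hj j' hj' hne)
    (by
      intro j hj
      rw [(hc j hj).1, Finset.disjoint_left]
      intro x hx hxH
      rw [Finset.mem_insert, Finset.mem_singleton] at hx
      obtain ⟨e1, e2, _⟩ := hJ1 j hj
      rcases hx with rfl | rfl
      · exact (Finset.disjoint_left.1 hMH) e1 hxH
      · exact (Finset.disjoint_left.1 hMH) e2 hxH)
  refine ⟨D, hD1, ?_, ?_, hD4⟩
  · intro m hm
    obtain ⟨t, ht, htm⟩ := hJ3 m hm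
    rw [← (hc t ht).1] at htm
    exact hD2 t ht htm
  · intro x hx
    rcases Finset.mem_union.1 (hD3 hx) with h1 | h1
    · exact Finset.mem_union_right _ h1
    · obtain ⟨t, ht, hxt⟩ := Finset.mem_biUnion.1 h1
      rw [(hc t ht).1, Finset.mem_insert, Finset.mem_singleton] at hxt
      obtain ⟨e1, e2, _⟩ := hJ1 t ht
      rcases hxt with rfl | rfl
      · exact Finset.mem_union_left _ e1
      · exact Finset.mem_union_left _ e2

end H15C6
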