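import Pool.Agent.H15.C6.E1A
import Pool.Agent.H15.C6.PM

/-!
Module E1B.  Extremal case 1: covering an even set `F` of cross edges (between `A = A0 ∪ X` and `B0`) by
six-cycles, using few edges of the host `H` (inner edges) at every vertex.  `n = |V|`, `S := A' ∪ B'`.

Split `F = F0 ∪ FX`, `FX` the edges meeting `X`, `F0` between `A0` and `B0`.
(0) `ctr` for `F0` from `assign` (`X = ∅`, `B = {v : deg F0 v > lam}`), `cherry_pairing F0` gives `M2`:
   at most one edge per centre, `|M2| ≤ n`, `deg M2 ≤ lam + 1`, `F0 \ M2` has even counts.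
(1) `Xodd := {x ∈ X : deg FX x odd}`; `|F|` even gives `|Xodd| ≡ |M2| (mod 2)`.
   If `|Xodd|` is odd choose `xs ∈ Xodd` and `ms = s(a,b) ∈ M2` (`a ∈ A0`, `b ∈ B0`), otherwise neither.
(2) The single cycle for `xs, ms` (if `|Xodd|` is odd): `dg E A' xs ≥ n/5` or `dg E B' xs ≥ n/5`.
   First case: choose `b' ∈ B'`, `s(xs,b') ∈ F`, `b' ≠ b`, cycle `a b c b' xs c'` with `c` a common neighbour of `b, b'`,
   `c'` a common neighbour of `xs, a` (through `H`).  Second case: choose `b' ∈ B'` with `s(xs,b') ∈ F`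
   and `s(b',b) ∈ H` (`b` typical: it misses at most `(2τ) n` vertices of `B'`), cycle
   `a b b' xs c c'`, path `xs c c' a` of length three (`P3`).
(3) The rest of `Xodd` is split into pairs `(x1,x2)`: by two applications of `pick` choose distinct
   `b1 ∈ B'` with `s(x1,b1) ∈ F`, then `b2 ∈ B'` with `s(x2,b2) ∈ F`, `s(b1,b2) ∈ H`; all `b`'s distinct (and
   different from `b, b'` of (2)).  Requests `cB x1 b1 b2 x2`; host `H` minus the edges `b1b2` and minus the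
   cycle of (2); `greedy_complete` (`rich_cB`, `P3`), `e = 1`, `|J| ≤ |X| ≤ 2 ε n`.
(4) Now every `x ∈ X` has an even number of uncovered edges of `FX` and an even number of edges of `F0` is left at
   every centre, apart from `M2' := M2 \ {ms}`, `|M2'|` even.  `cherry_cover` for the rest of `FX` with centre
   the end in `X` (load `≤ |X|`), for `F0 \ M2`, and `pair_cover` for `M2'` (two disjoint edges `s(a,b), s(a',b')`:
   `p = a, q = b, p' = b', q' = a'`; typical vertices have many common neighbours).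
In every step the host is reduced by the host edges used before (small degrees).
Constants: `lam = ⌈c n⌉`, `ε ≪ c ≪ ρ, τ`.
-/

open Finset

namespace H15C6

section e1bCov

variable {V : Type} [DecidableEq V]

/-- the edge set `F` can be covered by six-cycles using few edges of the host `H` -/
def e1b_Cov (H F : Finset (Sym2 V)) (κ : ℕ) : Prop :=
  ∃ D : Finset (Sym2 V), Dec D ∧ F ⊆ D ∧ D ⊆ F ∪ H ∧ ∀ v, deg (D ∩ H) v ≤ κ

/-- the same after removal of a set `R` of host edges of maximum degree `N` -/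
def e1b_All (H F : Finset (Sym2 V)) (κ N : ℕ) : Prop :=
  ∀ R ⊆ H, (∀ v, deg R v ≤ N) → e1b_Cov (H \ R) F κ

theorem e1b_seq {H F1 F2 D1 : Finset (Sym2 V)} {κ1 κ2 : ℕ} (hd : Disjoint F1 F2)
    (h2 : Disjoint F2 H) (hD : Dec D1) (h3 : F1 ⊆ D1) (h4 : D1 ⊆ F1 ∪ H)
    (h5 : ∀ v, deg (D1 ∩ H) v ≤ κ1) (h6 : e1b_Cov (H \ D1) F2 κ2) :
    e1b_Cov H (F1 ∪ F2) (κ1 + κ2) := by
  obtain ⟨D2, hD2, h7, h8, h9⟩ := h6
  have hdis : Disjoint D1 D2 := by
    rw [Finset.disjoint_left]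
    intro e he1 he2
    rcases Finset.mem_union.1 (h8 he2) with h | h
    · rcases Finset.mem_union.1 (h4 he1) with h' | h'
      · exact (Finset.disjoint_left.1 hd) h' h
      · exact (Finset.disjoint_left.1 h2) h h'
    · exact (Finset.mem_sdiff.1 h).2 he1
  refine ⟨D1 ∪ D2, hD.union hD2 hdis, ?_, ?_, ?_⟩
  · exact Finset.union_subset_union h3 h7
  · intro e he
    rcases Finset.mem_union.1 he with h | h
    · rcases Finset.mem_union.1 (h4 h) with h' | h'
      · exact Finset.mem_union_left _ (Finset.mem_union_left _ h')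
      · exact Finset.mem_union_right _ h'
    · rcases Finset.mem_union.1 (h8 h) with h' | h'
      · exact Finset.mem_union_left _ (Finset.mem_union_right _ h')
      · exact Finset.mem_union_right _ (Finset.mem_sdiff.1 h').1
  · intro v
    rw [Finset.union_inter_distrib_right]
    refine (deg_union_le _ _ v).trans (Nat.add_le_add (h5 v) ?_)
    refine (deg_mono ?_ v).trans (h9 v)
    intro e he
    obtain ⟨he1, he2⟩ := Finset.mem_inter.1 he
    refine Finset.mem_inter.2 ⟨he1, ?_⟩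
    rcases Finset.mem_union.1 (h8 he1) with h | h
    · exact absurd he2 ((Finset.disjoint_left.1 h2) h)
    · exact h

theorem e1b_All.union {H F1 F2 : Finset (Sym2 V)} {κ1 κ2 N : ℕ} (hd : Disjoint F1 F2)
    (h2 : Disjoint F2 H) (A1 : e1b_All H F1 κ1 N) (A2 : e1b_All H F2 κ2 (N + κ1)) :
    e1b_All H (F1 ∪ F2) (κ1 + κ2) N := by
  intro R hR hdeg
  obtain ⟨D1, hD1, h3, h4, h5⟩ := A1 R hR hdeg
  refine e1b_seq hd (h2.mono_right Finset.sdiff_subset) hD1 h3 h4 h5 ?_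
  have h6 := A2 (R ∪ (D1 ∩ (H \ R))) (by
    intro e he
    rcases Finset.mem_union.1 he with h | h
    · exact hR h
    · exact (Finset.mem_sdiff.1 (Finset.mem_inter.1 h).2).1) (by
    intro v
    exact (deg_union_le _ _ v).trans (Nat.add_le_add (hdeg v) (h5 v)))
  have h7 : (H \ R) \ D1 = H \ (R ∪ (D1 ∩ (H \ R))) := by
    ext e
    simp only [Finset.mem_sdiff, Finset.mem_union, Finset.mem_inter]
    tauto
  rw [h7]
  exact h6

theorem e1b_All.mono {H F : Finset (Sym2 V)} {κ N N' : ℕ} (h : e1b_All H F κ N) (hN : N' ≤ N) :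
    e1b_All H F κ N' := fun R hR hdeg => h R hR fun v => (hdeg v).trans hN

theorem e1b_All.cov {H F : Finset (Sym2 V)} {κ N : ℕ} (h : e1b_All H F κ N) : e1b_Cov H F κ := by
  have := h ∅ (Finset.empty_subset _) (fun v => by simp)
  simpa using this

theorem e1b_cov_empty (H : Finset (Sym2 V)) : e1b_Cov H ∅ 0 :=
  ⟨∅, Dec.empty, by simp, by simp, fun v => by simp⟩

theorem e1b_deg_cyc {v : Fin 6 → V} (hv : Function.Injective v) (x : V) : deg (cyc v) x ≤ 2 := by
  by_cases hx : ∃ i, v i = x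
  · obtain ⟨i, rfl⟩ := hx
    rw [deg_cyc_mem hv]
  · rw [deg_cyc_notMem (fun i hi => hx ⟨i, hi⟩)]
    exact Nat.zero_le _

/-- the set of six-cycle edges, explicitly -/
theorem e1b_mem_cyc {a b c d e f : V} {x : Sym2 V} : x ∈ cyc ![a, b, c, d, e, f] ↔
    x = s(a, b) ∨ x = s(b, c) ∨ x = s(c, d) ∨ x = s(d, e) ∨ x = s(e, f) ∨ x = s(f, a) := by
  rw [mem_cyc]
  constructor
  · rintro ⟨i, rfl⟩
    fin_cases i <;> simp
  · rintro (rfl | rfl | rfl | rfl | rfl | rfl)
    · exact ⟨0, rfl⟩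
    · exact ⟨1, rfl⟩
    · exact ⟨2, rfl⟩
    · exact ⟨3, rfl⟩
    · exact ⟨4, rfl⟩
    · exact ⟨5, rfl⟩

/-- covering two edges by one cycle `a b c d e f` -/
theorem e1b_one {H : Finset (Sym2 V)} {a b c d e f : V}
    (hinj : Function.Injective ![a, b, c, d, e, f]) {F1 : Finset (Sym2 V)}
    (hF : F1 ⊆ cyc ![a, b, c, d, e, f]) (hH : cyc ![a, b, c, d, e, f] ⊆ F1 ∪ H) :
    Dec (cyc ![a, b, c, d, e, f]) ∧ F1 ⊆ cyc ![a, b, c, d, e, f] ∧
      cyc ![a, b, c, d, e, f] ⊆ F1 ∪ H ∧ ∀ v, deg (cyc ![a, b, c, d, e, f] ∩ H) v ≤ 2 :=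
  ⟨IsC6.dec ⟨_, hinj, rfl⟩, hF, hH, fun v => (deg_mono Finset.inter_subset_left v).trans
    (e1b_deg_cyc hinj v)⟩

theorem e1b_inj {a b c d e f : V} (h1 : a ≠ b) (h2 : a ≠ c) (h3 : a ≠ d) (h4 : a ≠ e) (h5 : a ≠ f)
    (h6 : b ≠ c) (h7 : b ≠ d) (h8 : b ≠ e) (h9 : b ≠ f) (h10 : c ≠ d) (h11 : c ≠ e) (h12 : c ≠ f)
    (h13 : d ≠ e) (h14 : d ≠ f) (h15 : e ≠ f) : Function.Injective ![a, b, c, d, e, f] := by
  intro i j hij
  fin_cases i <;> fin_cases j <;> simp_all

end e1bCov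

section e1bSides

variable {V : Type} [Fintype V] [DecidableEq V]

theorem Env1.e1b_mono {E : Finset (Sym2 V)} {ε ε' τ : ℝ} {A0 B0 X A' B' : Finset V}
    (h : Env1 E ε τ A0 B0 X A' B') (hε : ε ≤ ε') : Env1 E ε' τ A0 B0 X A' B' := by
  have hn : (0 : ℝ) ≤ nV V := Nat.cast_nonneg _
  have h1 : ε * nV V ≤ ε' * nV V := mul_le_mul_of_nonneg_right hε hn
  exact { h with
    sizeA := le_trans (by nlinarith) h.sizeA
    sizeB := le_trans (by nlinarith) h.sizeB
    nA := fun a ha => (h.nA a ha).trans h1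
    nA' := fun a ha => (h.nA' a ha).trans h1
    nB := fun a ha => (h.nB a ha).trans h1
    nB' := fun a ha => (h.nB' a ha).trans h1 }

/-- every vertex is in exactly one of the two sides -/
theorem Env1.e1b_side {E : Finset (Sym2 V)} {ε τ : ℝ} {A0 B0 X A' B' : Finset V}
    (h : Env1 E ε τ A0 B0 X A' B') (v : V) : v ∈ A0 ∪ X ∨ v ∈ B0 := by
  have := Finset.mem_univ v
  rw [← h.cover] at this
  simp only [Finset.mem_union] at this ⊢
  tauto

theorem Env1.e1b_disj {E : Finset (Sym2 V)} {ε τ : ℝ} {A0 B0 X A' B' : Finset V}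
    (h : Env1 E ε τ A0 B0 X A' B') {v : V} (h1 : v ∈ A0 ∪ X) (h2 : v ∈ B0) : False := by
  rcases Finset.mem_union.1 h1 with h3 | h3
  · exact (Finset.disjoint_left.1 h.dAB) h3 h2
  · exact (Finset.disjoint_left.1 h.dBX) h2 h3

/-- cross edges -/
theorem Env1.e1b_crs {E : Finset (Sym2 V)} {ε τ : ℝ} {A0 B0 X A' B' : Finset V}
    (h : Env1 E ε τ A0 B0 X A' B') {u v : V} : s(u, v) ∈ crs E (A0 ∪ X) B0 ↔
      s(u, v) ∈ E ∧ ((u ∈ A0 ∪ X ∧ v ∈ B0) ∨ (u ∈ B0 ∧ v ∈ A0 ∪ X)) := by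
  unfold crs
  rw [Finset.mem_sdiff, Finset.mem_sdiff, Finset.mk_mem_sym2_iff, Finset.mk_mem_sym2_iff]
  rcases h.e1b_side u with hu | hu <;> rcases h.e1b_side v with hv | hv
  · have h1 : ¬ (v ∈ B0) := fun h' => h.e1b_disj hv h'
    have h2 : ¬ (u ∈ B0) := fun h' => h.e1b_disj hu h'
    tauto
  · have h1 : ¬ (v ∈ A0 ∪ X) := fun h' => h.e1b_disj h' hv
    have h2 : ¬ (u ∈ B0) := fun h' => h.e1b_disj hu h'
    tauto
  · have h1 : ¬ (v ∈ B0) := fun h' => h.e1b_disj hv h'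
    have h2 : ¬ (u ∈ A0 ∪ X) := fun h' => h.e1b_disj h' hu
    tauto
  · have h1 : ¬ (v ∈ A0 ∪ X) := fun h' => h.e1b_disj h' hv
    have h2 : ¬ (u ∈ A0 ∪ X) := fun h' => h.e1b_disj h' hu
    tauto

/-- inner edges -/
theorem e1b_inner {E : Finset (Sym2 V)} {A B : Finset V} {u v : V} :
    s(u, v) ∈ inn E A ∪ inn E B ↔
      s(u, v) ∈ E ∧ ((u ∈ A ∧ v ∈ A) ∨ (u ∈ B ∧ v ∈ B)) := by
  unfold inn
  rw [Finset.mem_union, Finset.mem_inter, Finset.mem_inter, Finset.mk_mem_sym2_iff,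
    Finset.mk_mem_sym2_iff]
  tauto

theorem Env1.e1b_dis {E : Finset (Sym2 V)} {ε τ : ℝ} {A0 B0 X A' B' : Finset V}
    (h : Env1 E ε τ A0 B0 X A' B') :
    Disjoint (crs E (A0 ∪ X) B0) (inn E (A0 ∪ X) ∪ inn E B0) := by
  rw [Finset.disjoint_left]
  intro e
  induction e using Sym2.ind with
  | _ u v =>
    intro h1 h2
    rw [h.e1b_crs] at h1
    rw [e1b_inner] at h2
    rcases h1.2 with ⟨h3, h4⟩ | ⟨h3, h4⟩ <;> rcases h2.2 with ⟨h5, h6⟩ | ⟨h5, h6⟩
    · exact h.e1b_disj h6 h4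
    · exact h.e1b_disj h3 h5
    · exact h.e1b_disj h5 h3
    · exact h.e1b_disj h4 h6

end e1bSides

end H15C6


namespace H15C6

section e1bRich

variable {V : Type} [Fintype V] [DecidableEq V]

/-- richness of a host -/
structure E1bRich (H : Finset (Sym2 V)) (A0 B0 X S : Finset V) (h : ℝ) : Prop where
  pA : ∀ u ∈ A0 ∪ X, ∀ w ∈ A0 ∪ X, h * nV V ^ 3 ≤ (P4 H S u w : ℝ)
  qA : ∀ u ∈ A0 ∪ X, ∀ w ∈ A0 ∪ X, h * nV V ^ 2 ≤ (P3 H S u w : ℝ)
  pB : ∀ u ∈ B0, ∀ w ∈ B0, h * nV V ^ 3 ≤ (P4 H S u w : ℝ)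
  cA : ∀ u ∈ A0, ∀ w ∈ A0, 1 / 5 * nV V ≤ (cn H S u w : ℝ)
  cB : ∀ u ∈ B0, ∀ w ∈ B0, 1 / 5 * nV V ≤ (cn H S u w : ℝ)

theorem e1b_card_le (S : Finset V) : (S.card : ℝ) ≤ nV V := by
  unfold nV
  exact_mod_cast Finset.card_le_univ S

/-- cherries -/
theorem e1b_cherry {E H F : Finset (Sym2 V)} {ε τ h : ℝ} {A0 B0 X A' B' : Finset V}
    (S : Finset V) (hl : Loopless E) (henv : Env1 E ε τ A0 B0 X A' B')
    (hH : H ⊆ inn E (A0 ∪ X) ∪ inn E B0)
    (hF : F ⊆ crs E (A0 ∪ X) B0) (hr : E1bRich H A0 B0 X S h) (hh : 0 ≤ h)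
    (ctr : Sym2 V → V) {L : ℕ} (hL : 1 ≤ L)
    (hctr : ∀ f ∈ F, ctr f ∈ f) (heven : ∀ v, Even (F.filter (fun f => ctr f = v)).card)
    (hload : ∀ p, (F.filter (fun f => p ∈ f ∧ ctr f ≠ p)).card ≤ L)
    (hnum : 18 * (F.card : ℝ) / L + 12 * L + 12 * L + 8 < h * S.card) :
    e1b_Cov H F (4 * L) := by
  have hHE : H ⊆ E := fun e he => by
    rcases Finset.mem_union.1 (hH he) with h | h
    · exact (Finset.mem_inter.1 h).1
    · exact (Finset.mem_inter.1 h).1
  have hFE : F ⊆ E := fun e he =>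
    (Finset.mem_sdiff.1 (Finset.mem_sdiff.1 (hF he)).1).1
  have hS3 : h * (S.card : ℝ) ^ 3 ≤ h * nV V ^ 3 :=
    mul_le_mul_of_nonneg_left (pow_le_pow_left₀ (Nat.cast_nonneg _) (e1b_card_le S) 3) hh
  obtain ⟨D, h1, h2, h3, h4⟩ := cherry_cover S H F ctr h L L hL (hl.mono hHE) (hl.mono hFE)
    (henv.e1b_dis.mono hF hH) hctr heven (by
      intro v u w huw h1 h2 _ _
      have h3 := henv.e1b_crs.1 (hF h1)
      have h4 := henv.e1b_crs.1 (hF h2)
      refine hS3.trans ?_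
      rcases h3.2 with ⟨h5, h6⟩ | ⟨h5, h6⟩ <;> rcases h4.2 with ⟨h7, h8⟩ | ⟨h7, h8⟩
      · exact absurd h6 (fun h6 => henv.e1b_disj h7 h6)
      · exact hr.pA u h5 w h8
      · exact hr.pB u h5 w h8
      · exact absurd h7 (fun h7 => henv.e1b_disj h6 h7)) hload hnum
  refine ⟨D, h1, h2, h3, fun v => (h4 v).trans (by omega)⟩

/-- a cross edge not meeting `X` -/
theorem e1b_rep {E : Finset (Sym2 V)} {ε τ : ℝ} {A0 B0 X A' B' : Finset V}
    (henv : Env1 E ε τ A0 B0 X A' B') {e : Sym2 V} (he : e ∈ crs E (A0 ∪ X) B0) :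
    ∃ a ∈ A0 ∪ X, ∃ b ∈ B0, e = s(a, b) ∧ s(a, b) ∈ E := by
  induction e using Sym2.ind with
  | _ u v =>
    have h := henv.e1b_crs.1 he
    rcases h.2 with ⟨h1, h2⟩ | ⟨h1, h2⟩
    · exact ⟨u, h1, v, h2, rfl, h.1⟩
    · refine ⟨v, h2, u, h1, Sym2.eq_swap, ?_⟩
      rw [Sym2.eq_swap]
      exact h.1

/-- left-over edges -/
theorem e1b_pairs {E H M : Finset (Sym2 V)} {ε τ h : ℝ} {A0 B0 X A' B' : Finset V}
    (S : Finset V) (hl : Loopless E) (henv : Env1 E ε τ A0 B0 X A' B')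
    (hH : H ⊆ inn E (A0 ∪ X) ∪ inn E B0)
    (hM : M ⊆ crs E (A0 ∪ X) B0) (hMX : ∀ e ∈ M, ∀ x ∈ X, x ∉ e)
    (hr : E1bRich H A0 B0 X S h) (hh : 0 ≤ h) (hh1 : h ≤ 1 / 25)
    {L : ℕ} (hL : 1 ≤ L) (heven : Even M.card) (hload : ∀ p, deg M p ≤ L + 1)
    (hnum : 18 * (M.card : ℝ) / L + 12 * (L + 1 : ℕ) + 12 * L + 8 < h * S.card) :
    e1b_Cov H M (4 * L + 2) := by
  have hHE : H ⊆ E := fun e he => by
    rcases Finset.mem_union.1 (hH he) with h | h
    · exact (Finset.mem_inter.1 h).1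
    · exact (Finset.mem_inter.1 h).1
  have hME : M ⊆ E := fun e he =>
    (Finset.mem_sdiff.1 (Finset.mem_sdiff.1 (hM he)).1).1
  have hn : (0 : ℝ) ≤ nV V := Nat.cast_nonneg _
  have hS3 : h * (S.card : ℝ) ^ 3 ≤ h * nV V ^ 3 :=
    mul_le_mul_of_nonneg_left (pow_le_pow_left₀ (Nat.cast_nonneg _) (e1b_card_le S) 3) hh
  have hS2 : h * (S.card : ℝ) ^ 2 ≤ (1 / 5 * nV V) * (1 / 5 * nV V) := by
    have h1 : h * (S.card : ℝ) ^ 2 ≤ h * nV V ^ 2 :=
      mul_le_mul_of_nonneg_left (pow_le_pow_left₀ (Nat.cast_nonneg _) (e1b_card_le S) 2) hh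
    have h2 : h * nV V ^ 2 ≤ 1 / 25 * nV V ^ 2 := mul_le_mul_of_nonneg_right hh1 (by positivity)
    nlinarith
  obtain ⟨D, h1, h2, h3, h4⟩ := pair_cover S H M h (L + 1) L hL (hl.mono hHE) (hl.mono hME)
    (henv.e1b_dis.mono hM hH) heven (by
      intro u v w huw h1 h2
      have h3 := henv.e1b_crs.1 (hM h1)
      have h4 := henv.e1b_crs.1 (hM h2)
      refine hS3.trans ?_
      rcases h3.2 with ⟨h5, h6⟩ | ⟨h5, h6⟩ <;> rcases h4.2 with ⟨h7, h8⟩ | ⟨h7, h8⟩
      · exact absurd h6 (fun h6 => henv.e1b_disj h7 h6)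
      · exact hr.pA u h5 w h8
      · exact hr.pB u h5 w h8
      · exact absurd h7 (fun h7 => henv.e1b_disj h6 h7)) (by
      intro m hm m' hm' _
      obtain ⟨a, ha, b, hb, rfl, _⟩ := e1b_rep henv (hM hm)
      obtain ⟨a', ha', b', hb', rfl, _⟩ := e1b_rep henv (hM hm')
      have ha0 : a ∈ A0 := by
        rcases Finset.mem_union.1 ha with h | h
        · exact h
        · exact absurd (Sym2.mem_mk_left a b) (hMX _ hm a h)
      have ha0' : a' ∈ A0 := by
        rcases Finset.mem_union.1 ha' with h | h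
        · exact h
        · exact absurd (Sym2.mem_mk_left a' b') (hMX _ hm' a' h)
      refine ⟨a, b, b', a', rfl, Sym2.eq_swap, hS2.trans ?_⟩
      exact mul_le_mul (hr.cB b hb b' hb') (hr.cA a' ha0' a ha0) (by positivity)
        (Nat.cast_nonneg _)) hload hnum
  refine ⟨D, h1, h2, h3, fun v => (h4 v).trans (by omega)⟩

end e1bRich

end H15C6


namespace H15C6

section e1bOdd

variable {V : Type} [Fintype V] [DecidableEq V]

/-- every edge of `FX` has exactly one end in `X` -/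
theorem e1b_sum_deg {E FX : Finset (Sym2 V)} {ε τ : ℝ} {A0 B0 X A' B' : Finset V}
    (henv : Env1 E ε τ A0 B0 X A' B') (hF : FX ⊆ crs E (A0 ∪ X) B0)
    (hX : ∀ e ∈ FX, ∃ x ∈ X, x ∈ e) : ∑ x ∈ X, deg FX x = FX.card := by
  unfold deg
  simp_rw [Finset.card_filter]
  rw [Finset.sum_comm]
  have : ∀ e ∈ FX, (∑ x ∈ X, if x ∈ e then 1 else 0) = 1 := by
    intro e he
    obtain ⟨x, hx, hxe⟩ := hX e he
    obtain ⟨a, ha, b, hb, rfl, _⟩ := e1b_rep henv (hF he)
    rw [← Finset.card_filter, Finset.card_eq_one]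
    have hbX : ∀ y ∈ X, y ≠ b := by
      rintro y hy rfl
      exact henv.e1b_disj (Finset.mem_union_right _ hy) hb
    have hxa : x = a := (Sym2.mem_iff.1 hxe).resolve_right (hbX x hx)
    refine ⟨x, ?_⟩
    ext y
    rw [Finset.mem_filter, Finset.mem_singleton, Sym2.mem_iff]
    constructor
    · rintro ⟨h1, h2 | h2⟩
      · rw [h2, hxa]
      · exact absurd h2 (hbX y h1)
    · rintro rfl
      exact ⟨hx, Or.inl hxa⟩
  rw [Finset.sum_congr rfl this]
  simp

theorem e1b_odd {E G FX : Finset (Sym2 V)} {ε τ h : ℝ} {A0 B0 X A' B' S : Finset V}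
    [Nonempty V] (hl : Loopless E) (henv : Env1 E ε τ A0 B0 X A' B')
    (hG : G ⊆ inn E (A0 ∪ X) ∪ inn E B0)
    (hF : FX ⊆ crs E (A0 ∪ X) B0) (hX : ∀ e ∈ FX, ∃ x ∈ X, x ∈ e) (heven : Even FX.card)
    {m0 m1 : ℕ} (hm0 : ∀ x ∈ X, m0 ≤ dg FX B' x)
    (hm1 : ∀ b ∈ B', (B'.filter (fun y => s(b, y) ∉ G)).card ≤ m1)
    (hm : 2 * X.card + m1 < m0) (hh : 0 ≤ h)
    (hr : ∀ R ⊆ G, (∀ v, deg R v ≤ 1) → E1bRich (G \ R) A0 B0 X S h)
    {L : ℕ} (hL : 1 ≤ L) (hn : 12 ≤ h * nV V)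
    (hnum : 36 * (X.card : ℝ) / L + 12 * (1 : ℕ) + 12 * L < h / 2 * S.card) :
    ∃ F2 ⊆ FX, (∀ x ∈ X, Even (deg (FX \ F2) x)) ∧ e1b_Cov G F2 (2 * L + 3) := by
  classical
  have hGE : G ⊆ E := fun e he => by
    rcases Finset.mem_union.1 (hG he) with h | h
    · exact (Finset.mem_inter.1 h).1
    · exact (Finset.mem_inter.1 h).1
  have hB'X : ∀ x ∈ X, ∀ b ∈ B', x ≠ b := by
    rintro x hx b hb rfl
    exact (Finset.disjoint_left.1 henv.dBX) (henv.subB hb) hx
  set Y := X.filter (fun x => Odd (deg FX x)) with hY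
  have hYeven : Even Y.card := by
    rw [hY, ← Finset.even_sum_iff_even_card_odd, e1b_sum_deg henv hF hX]
    exact heven
  obtain ⟨m, hm2⟩ := hYeven
  have hmX : m ≤ X.card := by
    have : Y.card ≤ X.card := Finset.card_filter_le _ _
    omega
  have hcard : Fintype.card (Fin m ⊕ Fin m) = Fintype.card Y := by
    simp [hm2]
  let e : Fin m ⊕ Fin m ≃ Y := Fintype.equivOfCardEq hcard
  let x1 : Fin m → V := fun i => (e (Sum.inl i) : V)
  let x2 : Fin m → V := fun i => (e (Sum.inr i) : V)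
  have hx1 : ∀ i, x1 i ∈ X ∧ Odd (deg FX (x1 i)) := fun i => Finset.mem_filter.1 (e (Sum.inl i)).2
  have hx2 : ∀ i, x2 i ∈ X ∧ Odd (deg FX (x2 i)) := fun i => Finset.mem_filter.1 (e (Sum.inr i)).2
  have hx11 : ∀ i j, x1 i = x1 j → i = j := by
    intro i j hij
    have := e.injective (Subtype.ext hij)
    exact Sum.inl_injective this
  have hx22 : ∀ i j, x2 i = x2 j → i = j := by
    intro i j hij
    have := e.injective (Subtype.ext hij)
    exact Sum.inr_injective this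
  have hx12 : ∀ i j, x1 i ≠ x2 j := by
    intro i j hij
    have := e.injective (Subtype.ext hij)
    exact absurd this (by simp)
  have hxsurj : ∀ x ∈ Y, (∃ i, x = x1 i) ∨ ∃ i, x = x2 i := by
    intro x hx
    obtain ⟨s, hs⟩ := e.surjective ⟨x, hx⟩
    rcases s with i | i
    · left
      exact ⟨i, (congrArg Subtype.val hs).symm⟩
    · right
      exact ⟨i, (congrArg Subtype.val hs).symm⟩
  -- the vertices `b1 i`
  obtain ⟨b1, hb1, hb1i⟩ := pick (Finset.univ : Finset (Fin m))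
    (fun i => B'.filter (fun y => s(x1 i, y) ∈ FX)) (∅ : Finset V) (by
      intro i _
      have h1 : m0 ≤ (B'.filter (fun y => s(x1 i, y) ∈ FX)).card := hm0 _ (hx1 i).1
      rw [Finset.card_empty, Finset.card_univ, Fintype.card_fin]
      omega)
  have hb1B : ∀ i, b1 i ∈ B' := fun i => (Finset.mem_filter.1 (hb1 i (Finset.mem_univ i)).1).1
  have hb1F : ∀ i, s(x1 i, b1 i) ∈ FX := fun i =>
    (Finset.mem_filter.1 (hb1 i (Finset.mem_univ i)).1).2
  have hb11 : ∀ i j, b1 i = b1 j → i = j := fun i j hij =>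
    hb1i i (Finset.mem_univ i) j (Finset.mem_univ j) hij
  -- the vertices `b2 i`
  obtain ⟨b2, hb2, hb2i⟩ := pick (Finset.univ : Finset (Fin m))
    (fun i => B'.filter (fun y => s(x2 i, y) ∈ FX ∧ s(b1 i, y) ∈ G))
    (Finset.univ.image b1) (by
      intro i _
      have h1 : m0 ≤ (B'.filter (fun y => s(x2 i, y) ∈ FX)).card := hm0 _ (hx2 i).1
      have h2 := hm1 (b1 i) (hb1B i)
      have h3 : (B'.filter (fun y => s(x2 i, y) ∈ FX)).card ≤
          (B'.filter (fun y => s(x2 i, y) ∈ FX ∧ s(b1 i, y) ∈ G)).card +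
            (B'.filter (fun y => s(b1 i, y) ∉ G)).card := by
        refine le_trans (Finset.card_le_card ?_) (Finset.card_union_le _ _)
        intro y hy
        simp only [Finset.mem_union, Finset.mem_filter] at hy ⊢
        tauto
      have h4 : (Finset.univ.image b1).card ≤ m := by
        refine Finset.card_image_le.trans ?_
        rw [Finset.card_univ, Fintype.card_fin]
      rw [Finset.card_univ, Fintype.card_fin]
      omega)
  have hb2B : ∀ i, b2 i ∈ B' := fun i => (Finset.mem_filter.1 (hb2 i (Finset.mem_univ i)).1).1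
  have hb2F : ∀ i, s(x2 i, b2 i) ∈ FX := fun i =>
    (Finset.mem_filter.1 (hb2 i (Finset.mem_univ i)).1).2.1
  have hb2G : ∀ i, s(b1 i, b2 i) ∈ G := fun i =>
    (Finset.mem_filter.1 (hb2 i (Finset.mem_univ i)).1).2.2
  have hb22 : ∀ i j, b2 i = b2 j → i = j := fun i j hij =>
    hb2i i (Finset.mem_univ i) j (Finset.mem_univ j) hij
  have hb12 : ∀ i j, b1 i ≠ b2 j := by
    intro i j hij
    exact (hb2 j (Finset.mem_univ j)).2 (Finset.mem_image.2 ⟨i, Finset.mem_univ i, hij⟩)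
  -- edge sets
  set F2 : Finset (Sym2 V) := Finset.univ.image (fun i => s(x1 i, b1 i)) ∪
    Finset.univ.image (fun i => s(x2 i, b2 i)) with hF2
  have hF2mem : ∀ f, f ∈ F2 ↔ (∃ i, f = s(x1 i, b1 i)) ∨ ∃ i, f = s(x2 i, b2 i) := by
    intro f
    rw [hF2, Finset.mem_union, Finset.mem_image, Finset.mem_image]
    simp only [Finset.mem_univ, true_and, eq_comm]
  set Ebb : Finset (Sym2 V) := Finset.univ.image (fun i => s(b1 i, b2 i)) with hEbb
  have hEbbmem : ∀ f, f ∈ Ebb ↔ ∃ i, f = s(b1 i, b2 i) := by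
    intro f
    rw [hEbb, Finset.mem_image]
    simp only [Finset.mem_univ, true_and, eq_comm]
  have hF2F : F2 ⊆ FX := by
    intro f hf
    rcases (hF2mem f).1 hf with ⟨i, rfl⟩ | ⟨i, rfl⟩
    · exact hb1F i
    · exact hb2F i
  have hEbbG : Ebb ⊆ G := by
    intro f hf
    obtain ⟨i, rfl⟩ := (hEbbmem f).1 hf
    exact hb2G i
  have hEbbdeg : ∀ v, deg Ebb v ≤ 1 := by
    intro v
    unfold deg
    rw [Finset.card_le_one]
    intro f hf g hg
    rw [Finset.mem_filter] at hf hg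
    obtain ⟨i, rfl⟩ := (hEbbmem f).1 hf.1
    obtain ⟨j, rfl⟩ := (hEbbmem g).1 hg.1
    have hij : i = j := by
      rcases Sym2.mem_iff.1 hf.2 with h1 | h1 <;> rcases Sym2.mem_iff.1 hg.2 with h2 | h2
      · exact hb11 i j (h1.symm.trans h2)
      · exact absurd (h1.symm.trans h2) (hb12 i j)
      · exact absurd (h2.symm.trans h1) (hb12 j i)
      · exact hb22 i j (h1.symm.trans h2)
    rw [hij]
  have hrich := hr Ebb hEbbG hEbbdeg
  -- parity
  have hpar : ∀ x ∈ X, Even (deg (FX \ F2) x) := by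
    intro x hx
    have h1 := deg_sdiff hF2F x
    by_cases hxY : x ∈ Y
    · have hodd : Odd (deg FX x) := (Finset.mem_filter.1 hxY).2
      have h2 : deg F2 x = 1 := by
        unfold deg
        rw [Finset.card_eq_one]
        rcases hxsurj x hxY with ⟨i, hi⟩ | ⟨i, hi⟩
        · refine ⟨s(x1 i, b1 i), ?_⟩
          ext f
          rw [Finset.mem_filter, Finset.mem_singleton, hF2mem]
          constructor
          · rintro ⟨⟨j, rfl⟩ | ⟨j, rfl⟩, h3⟩
            · rcases Sym2.mem_iff.1 h3 with h4 | h4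
              · rw [hx11 i j (hi.symm.trans h4)]
              · exact absurd h4 (hB'X x hx _ (hb1B j))
            · rcases Sym2.mem_iff.1 h3 with h4 | h4
              · exact absurd (hi.symm.trans h4) (hx12 i j)
              · exact absurd h4 (hB'X x hx _ (hb2B j))
          · rintro rfl
            exact ⟨Or.inl ⟨i, rfl⟩, by rw [hi]; exact Sym2.mem_mk_left _ _⟩
        · refine ⟨s(x2 i, b2 i), ?_⟩
          ext f
          rw [Finset.mem_filter, Finset.mem_singleton, hF2mem]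
          constructor
          · rintro ⟨⟨j, rfl⟩ | ⟨j, rfl⟩, h3⟩
            · rcases Sym2.mem_iff.1 h3 with h4 | h4
              · exact absurd (h4.symm.trans hi) (hx12 j i)
              · exact absurd h4 (hB'X x hx _ (hb1B j))
            · rcases Sym2.mem_iff.1 h3 with h4 | h4
              · rw [hx22 i j (hi.symm.trans h4)]
              · exact absurd h4 (hB'X x hx _ (hb2B j))
          · rintro rfl
            exact ⟨Or.inr ⟨i, rfl⟩, by rw [hi]; exact Sym2.mem_mk_left _ _⟩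
      rw [← h1, h2] at hodd
      rw [Nat.odd_add] at hodd
      have h3 : ¬ Even 1 := by decide
      by_contra h4
      rw [Nat.not_even_iff_odd] at h4
      exact h3 (hodd.1 h4)
    · have heq : deg F2 x = 0 := by
        unfold deg
        rw [Finset.card_eq_zero, Finset.filter_eq_empty_iff]
        intro f hf h3
        rcases (hF2mem f).1 hf with ⟨j, rfl⟩ | ⟨j, rfl⟩
        · rcases Sym2.mem_iff.1 h3 with h4 | h4
          · apply hxY
            rw [h4]
            exact (e (Sum.inl j)).2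
          · exact absurd h4 (hB'X x hx _ (hb1B j))
        · rcases Sym2.mem_iff.1 h3 with h4 | h4
          · apply hxY
            rw [h4]
            exact (e (Sum.inr j)).2
          · exact absurd h4 (hB'X x hx _ (hb2B j))
      have hev : Even (deg FX x) := by
        rw [← Nat.not_odd_iff_even]
        exact fun ho => hxY (Finset.mem_filter.2 ⟨hx, ho⟩)
      rw [← h1, heq, add_zero] at hev
      exact hev
  refine ⟨F2, hF2F, hpar, ?_⟩
  -- the requests
  have hSn := e1b_card_le S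
  have hn0 : (0 : ℝ) ≤ nV V := Nat.cast_nonneg _
  have hdisj : Disjoint FX (inn E (A0 ∪ X) ∪ inn E B0) := henv.e1b_dis.mono_left hF
  obtain ⟨D, hD1, hD2, hD3, hD4⟩ := greedy_complete (Finset.univ : Finset (Fin m))
    (fun i => cB (x1 i) (b1 i) (b2 i) (x2 i)) S (G \ Ebb) (h / 2) 1 L hL
    (fun j _ => by rw [unk_cB]; norm_num) (by
      intro i _
      rw [unk_cB]
      have h1 := rich_cB (S := S) (H := G \ Ebb) (hl.mono (Finset.sdiff_subset.trans hGE))
        (hB'X _ (hx1 i).1 _ (hb1B i)) (hB'X _ (hx1 i).1 _ (hb2B i)) (hx12 i i) (hb12 i i)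
        (hB'X _ (hx2 i).1 _ (hb1B i)).symm (hB'X _ (hx2 i).1 _ (hb2B i)).symm
      have h2 := hrich.qA (x2 i) (Finset.mem_union_right _ (hx2 i).1) (x1 i)
        (Finset.mem_union_right _ (hx1 i).1)
      have h3 : (P3 (G \ Ebb) S (x2 i) (x1 i) : ℝ) ≤
          ((compl6 S (G \ Ebb) (cB (x1 i) (b1 i) (b2 i) (x2 i))).card : ℝ) + 6 * S.card := by
        exact_mod_cast h1
      have h4 : h / 2 * (S.card : ℝ) ^ 2 ≤ h / 2 * nV V ^ 2 :=
        mul_le_mul_of_nonneg_left (pow_le_pow_left₀ (Nat.cast_nonneg _) hSn 2) (by linarith)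
      have h5 : 6 * (S.card : ℝ) ≤ h / 2 * nV V ^ 2 := by
        have h6 : 12 * nV V ≤ h * nV V * nV V := mul_le_mul_of_nonneg_right hn hn0
        nlinarith
      nlinarith) (by
      intro p
      rw [Finset.card_le_one]
      intro i hi j hj
      rw [Finset.mem_filter] at hi hj
      rcases isPort_cB hi.2 with h1 | h1 <;> rcases isPort_cB hj.2 with h2 | h2
      · exact hx11 i j (h1.symm.trans h2)
      · exact absurd (h1.symm.trans h2) (hx12 i j)
      · exact absurd (h2.symm.trans h1) (hx12 j i)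
      · exact hx22 i j (h1.symm.trans h2)) (by
      rw [Finset.card_univ, Fintype.card_fin]
      refine lt_of_le_of_lt ?_ hnum
      have h1 : (m : ℝ) ≤ X.card := by exact_mod_cast hmX
      have h2 : 36 * (m : ℝ) / L ≤ 36 * (X.card : ℝ) / L := by gcongr
      linarith) (by
      intro i _ j _ hij
      rw [Finset.disjoint_left]
      intro f hf hg
      rw [fixE_cB] at hf hg
      simp only [Finset.mem_insert, Finset.mem_singleton] at hf hg
      have key : ∃ v ∈ f, v = b1 i ∨ v = b2 i := by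
        rcases hf with rfl | rfl | rfl
        · exact ⟨b1 i, Sym2.mem_mk_right _ _, Or.inl rfl⟩
        · exact ⟨b1 i, Sym2.mem_mk_left _ _, Or.inl rfl⟩
        · exact ⟨b2 i, Sym2.mem_mk_left _ _, Or.inr rfl⟩
      obtain ⟨v, hv, hv'⟩ := key
      have key2 : v = x1 j ∨ v = b1 j ∨ v = b2 j ∨ v = x2 j := by
        rcases hg with rfl | rfl | rfl <;> rw [Sym2.mem_iff] at hv <;> tauto
      rcases hv' with rfl | rfl
      · rcases key2 with h1 | h1 | h1 | h1
        · exact hB'X _ (hx1 j).1 _ (hb1B i) h1.symm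
        · exact hij (hb11 i j h1)
        · exact hb12 i j h1
        · exact hB'X _ (hx2 j).1 _ (hb1B i) h1.symm
      · rcases key2 with h1 | h1 | h1 | h1
        · exact hB'X _ (hx1 j).1 _ (hb2B i) h1.symm
        · exact hb12 j i h1.symm
        · exact hij (hb22 i j h1)
        · exact hB'X _ (hx2 j).1 _ (hb2B i) h1.symm) (by
      intro i _
      rw [Finset.disjoint_left]
      intro f hf hg
      rw [fixE_cB] at hf
      simp only [Finset.mem_insert, Finset.mem_singleton] at hf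
      rw [Finset.mem_sdiff] at hg
      rcases hf with rfl | rfl | rfl
      · exact (Finset.disjoint_left.1 hdisj) (hb1F i) (hG hg.1)
      · exact hg.2 ((hEbbmem _).2 ⟨i, rfl⟩)
      · rw [Sym2.eq_swap] at hg
        exact (Finset.disjoint_left.1 hdisj) (hb2F i) (hG hg.1))
  refine ⟨D, hD1, ?_, ?_, ?_⟩
  · intro f hf
    rcases (hF2mem f).1 hf with ⟨i, rfl⟩ | ⟨i, rfl⟩
    · refine hD2 i (Finset.mem_univ i) ?_
      rw [fixE_cB]
      simp
    · refine hD2 i (Finset.mem_univ i) ?_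
      rw [fixE_cB, Sym2.eq_swap]
      simp
  · intro f hf
    rcases Finset.mem_union.1 (hD3 hf) with h1 | h1
    · exact Finset.mem_union_right _ (Finset.mem_sdiff.1 h1).1
    · obtain ⟨i, _, hi⟩ := Finset.mem_biUnion.1 h1
      rw [fixE_cB] at hi
      simp only [Finset.mem_insert, Finset.mem_singleton] at hi
      rcases hi with rfl | rfl | rfl
      · exact Finset.mem_union_left _ ((hF2mem _).2 (Or.inl ⟨i, rfl⟩))
      · exact Finset.mem_union_right _ (hb2G i)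
      · exact Finset.mem_union_left _ ((hF2mem _).2 (Or.inr ⟨i, Sym2.eq_swap⟩))
  · intro v
    have h1 : D ∩ G ⊆ (D ∩ (G \ Ebb)) ∪ Ebb := by
      intro f hf
      rw [Finset.mem_inter] at hf
      by_cases h2 : f ∈ Ebb
      · exact Finset.mem_union_right _ h2
      · exact Finset.mem_union_left _ (Finset.mem_inter.2 ⟨hf.1, Finset.mem_sdiff.2 ⟨hf.2, h2⟩⟩)
    refine (deg_mono h1 v).trans ((deg_union_le _ _ v).trans ?_)
    have h2 := hD4 v
    have h3 := hEbbdeg v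
    omega

end e1bOdd

end H15C6


namespace H15C6

section e1bSingle

variable {V : Type} [Fintype V] [DecidableEq V]

theorem e1b_single {E F H : Finset (Sym2 V)} {ε τ : ℝ} {A0 B0 X A' B' : Finset V}
    (hl : Loopless E) (henv : Env1 E ε τ A0 B0 X A' B')
    (hH : H ⊆ inn E (A0 ∪ X) ∪ inn E B0) {xs a b : V} (hxs : xs ∈ X) (ha : a ∈ A0) (hb : b ∈ B0)
    (hc : (∃ b' ∈ B', s(xs, b') ∈ F ∧ b' ≠ b ∧ 0 < cn H (A' ∪ B') b b' ∧
        0 < cn H (A' ∪ B') xs a) ∨
      (∃ b' ∈ B', s(xs, b') ∈ F ∧ s(b', b) ∈ H ∧ (A' ∪ B').card < P3 H (A' ∪ B') xs a)) :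
    ∃ b' ∈ B', s(xs, b') ∈ F ∧ ∃ D : Finset (Sym2 V), Dec D ∧
      ({s(a, b), s(xs, b')} : Finset (Sym2 V)) ⊆ D ∧
      D ⊆ ({s(a, b), s(xs, b')} : Finset (Sym2 V)) ∪ H ∧ ∀ v, deg (D ∩ H) v ≤ 2 := by
  have hHE : H ⊆ E := fun e he => by
    rcases Finset.mem_union.1 (hH he) with h | h
    · exact (Finset.mem_inter.1 h).1
    · exact (Finset.mem_inter.1 h).1
  have hlH : Loopless H := hl.mono hHE
  have hAB : ∀ u v, u ∈ A0 ∪ X → v ∈ B0 → u ≠ v := by
    rintro u v hu hv rfl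
    exact henv.e1b_disj hu hv
  have haA : a ∈ A0 ∪ X := Finset.mem_union_left _ ha
  have hxA : xs ∈ A0 ∪ X := Finset.mem_union_right _ hxs
  have hax : a ≠ xs := by
    rintro rfl
    exact (Finset.disjoint_left.1 henv.dAX) ha hxs
  have sideA : ∀ u v, u ∈ A0 ∪ X → s(u, v) ∈ H → v ∈ A0 ∪ X := by
    intro u v hu huv
    rcases (e1b_inner.1 (hH huv)).2 with ⟨h1, h2⟩ | ⟨h1, h2⟩
    · exact h2
    · exact absurd rfl (hAB u u hu h1)
  have sideB : ∀ u v, u ∈ B0 → s(u, v) ∈ H → v ∈ B0 := by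
    intro u v hu huv
    rcases (e1b_inner.1 (hH huv)).2 with ⟨h1, h2⟩ | ⟨h1, h2⟩
    · exact absurd rfl (hAB u u h1 hu)
    · exact h2
  rcases hc with ⟨b', hb', hxF, hbb, h1, h2⟩ | ⟨b', hb', hxF, hbH, h1⟩
  · have hb'B : b' ∈ B0 := henv.subB hb'
    unfold cn at h1 h2
    rw [Finset.card_pos] at h1 h2
    obtain ⟨c, hc⟩ := h1
    obtain ⟨c', hc'⟩ := h2
    rw [Finset.mem_filter] at hc hc'
    obtain ⟨_, hc1, hc2⟩ := hc
    obtain ⟨_, hc1', hc2'⟩ := hc'
    have hcB : c ∈ B0 := sideB b c hb hc1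
    have hc'A : c' ∈ A0 ∪ X := sideA xs c' hxA hc1'
    have hinj : Function.Injective ![a, b, c, b', xs, c'] :=
      e1b_inj (hAB a b haA hb) (hAB a c haA hcB) (hAB a b' haA hb'B) hax (hlH.ne hc2').symm
        (hlH.ne hc1) hbb.symm (hAB xs b hxA hb).symm (hAB c' b hc'A hb).symm (hlH.ne hc2)
        (hAB xs c hxA hcB).symm (hAB c' c hc'A hcB).symm (hAB xs b' hxA hb'B).symm
        (hAB c' b' hc'A hb'B).symm (hlH.ne hc1')
    refine ⟨b', hb', hxF, _, e1b_one hinj ?_ ?_⟩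
    · intro f hf
      rw [Finset.mem_insert, Finset.mem_singleton] at hf
      rw [e1b_mem_cyc]
      rcases hf with rfl | rfl
      · exact Or.inl rfl
      · exact Or.inr (Or.inr (Or.inr (Or.inl Sym2.eq_swap)))
    · intro f hf
      rw [e1b_mem_cyc] at hf
      rw [Finset.mem_union, Finset.mem_insert, Finset.mem_singleton]
      rcases hf with rfl | rfl | rfl | rfl | rfl | rfl
      · exact Or.inl (Or.inl rfl)
      · exact Or.inr hc1
      · exact Or.inr hc2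
      · exact Or.inl (Or.inr Sym2.eq_swap)
      · exact Or.inr hc1'
      · exact Or.inr hc2'
  · have hb'B : b' ∈ B0 := henv.subB hb'
    obtain ⟨c, c', hcS, hcS', hc1, hc2, hc3, hca⟩ : ∃ c c', c ∈ A' ∪ B' ∧ c' ∈ A' ∪ B' ∧
        s(xs, c) ∈ H ∧ s(c, c') ∈ H ∧ s(c', a) ∈ H ∧ c ≠ a := by
      by_contra hcon
      push Not at hcon
      have h2 : P3 H (A' ∪ B') xs a ≤ ((A' ∪ B').image fun c' => (a, c')).card := by
        unfold P3
        refine Finset.card_le_card ?_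
        intro t ht
        rw [Finset.mem_filter, Finset.mem_product] at ht
        have h3 : t.1 = a := hcon t.1 t.2 ht.1.1 ht.1.2 ht.2.1 ht.2.2.1 ht.2.2.2
        rw [Finset.mem_image]
        exact ⟨t.2, ht.1.2, Prod.ext h3.symm rfl⟩
      have h3 : ((A' ∪ B').image fun c' => (a, c')).card ≤ (A' ∪ B').card :=
        Finset.card_image_le
      omega
    have hcA : c ∈ A0 ∪ X := sideA xs c hxA hc1
    have hc'A : c' ∈ A0 ∪ X := sideA c c' hcA hc2
    have hxc' : xs ≠ c' := by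
      rintro rfl
      rcases Finset.mem_union.1 hcS' with h | h
      · exact (Finset.disjoint_left.1 henv.dAX) (henv.subA h) hxs
      · exact (Finset.disjoint_left.1 henv.dBX) (henv.subB h) hxs
    have hinj : Function.Injective ![a, b, b', xs, c, c'] :=
      e1b_inj (hAB a b haA hb) (hAB a b' haA hb'B) hax hca.symm (hlH.ne hc3).symm
        (hlH.ne hbH).symm (hAB xs b hxA hb).symm (hAB c b hcA hb).symm (hAB c' b hc'A hb).symm
        (hAB xs b' hxA hb'B).symm (hAB c b' hcA hb'B).symm (hAB c' b' hc'A hb'B).symm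
        (hlH.ne hc1) hxc' (hlH.ne hc2)
    refine ⟨b', hb', hxF, _, e1b_one hinj ?_ ?_⟩
    · intro f hf
      rw [Finset.mem_insert, Finset.mem_singleton] at hf
      rw [e1b_mem_cyc]
      rcases hf with rfl | rfl
      · exact Or.inl rfl
      · exact Or.inr (Or.inr (Or.inl Sym2.eq_swap))
    · intro f hf
      rw [e1b_mem_cyc] at hf
      rw [Finset.mem_union, Finset.mem_insert, Finset.mem_singleton]
      rcases hf with rfl | rfl | rfl | rfl | rfl | rfl
      · exact Or.inl (Or.inl rfl)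
      · right
        rw [Sym2.eq_swap]
        exact hbH
      · exact Or.inl (Or.inr Sym2.eq_swap)
      · exact Or.inr hc1
      · exact Or.inr hc2
      · exact Or.inr hc3

end e1bSingle

section e1bMain

variable {V : Type} [Fintype V] [DecidableEq V]

theorem e1b_main {E F H : Finset (Sym2 V)} {ε τ h : ℝ} {A0 B0 X A' B' : Finset V} [Nonempty V]
    (hl : Loopless E) (henv : Env1 E ε τ A0 B0 X A' B')
    (hF : F ⊆ crs E (A0 ∪ X) B0) (heven : Even F.card)
    (hH : H ⊆ inn E (A0 ∪ X) ∪ inn E B0) {L m0 m1 : ℕ} (hL : 1 ≤ L)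
    (hh : 0 ≤ h) (hh1 : h ≤ 1 / 25)
    (hr : ∀ R ⊆ H, (∀ v, deg R v ≤ 10 * L + 5) → E1bRich (H \ R) A0 B0 X (A' ∪ B') h)
    (hm0 : ∀ x ∈ X, m0 + 1 ≤ dg F B' x)
    (hm1 : ∀ b ∈ B', (B'.filter (fun y => s(b, y) ∉ H)).card + 2 ≤ m1)
    (hm : 2 * X.card + m1 < m0) (hXL : X.card ≤ L) (hLF : 2 * F.card ≤ L * L)
    (hsingle : ∀ xs ∈ X, ∀ a ∈ A0, ∀ b ∈ B0,
      (∃ b' ∈ B', s(xs, b') ∈ F ∧ b' ≠ b ∧ 0 < cn H (A' ∪ B') b b' ∧
        0 < cn H (A' ∪ B') xs a) ∨
      (∃ b' ∈ B', s(xs, b') ∈ F ∧ s(b', b) ∈ H ∧ (A' ∪ B').card < P3 H (A' ∪ B') xs a))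
    (hn : 12 ≤ h * nV V)
    (hnum1 : 18 * (F.card : ℝ) / L + 12 * L + 12 * L + 8 < h * (A' ∪ B').card)
    (hnum2 : 36 * (X.card : ℝ) / L + 12 * (1 : ℕ) + 12 * L < h / 2 * (A' ∪ B').card)
    (hnum3 : 18 * nV V / L + 12 * (L + 1 : ℕ) + 12 * L + 8 < h * (A' ∪ B').card) :
    e1b_Cov H F (14 * L + 7) := by
  classical
  have hFE : F ⊆ E := fun e he => (Finset.mem_sdiff.1 (Finset.mem_sdiff.1 (hF he)).1).1
  have hlF : Loopless F := hl.mono hFE
  have hFH : Disjoint F H := henv.e1b_dis.mono hF hH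
  set FX : Finset (Sym2 V) := F.filter (fun e => ∃ x ∈ X, x ∈ e) with hFX
  set F0 : Finset (Sym2 V) := F.filter (fun e => ¬ ∃ x ∈ X, x ∈ e) with hF0
  have hFXF : FX ⊆ F := Finset.filter_subset _ _
  have hF0F : F0 ⊆ F := Finset.filter_subset _ _
  have hsplit : FX.card + F0.card = F.card := Finset.card_filter_add_card_filter_not _
  have hdisX0 : Disjoint FX F0 := Finset.disjoint_filter_filter_not _ _ _
  have hFXX : ∀ e ∈ FX, ∃ x ∈ X, x ∈ e := fun e he => (Finset.mem_filter.1 he).2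
  have hF0X : ∀ e ∈ F0, ∀ x ∈ X, x ∉ e := fun e he x hx hxe => (Finset.mem_filter.1 he).2 ⟨x, hx, hxe⟩
  -- the vertices of large degree
  set Bg : Finset V := Finset.univ.filter (fun v => L < deg F0 v) with hBg
  have hBgcard : Bg.card ≤ L := by
    have h1 : ∑ v ∈ Bg, L ≤ ∑ v ∈ Bg, deg F0 v :=
      Finset.sum_le_sum fun v hv => (Finset.mem_filter.1 hv).2.le
    have h2 : ∑ v ∈ Bg, deg F0 v ≤ ∑ v, deg F0 v :=
      Finset.sum_le_sum_of_subset (Finset.subset_univ _)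
    have h3 : ∑ v, deg F0 v = 2 * F0.card :=
      sum_deg (fun e _ => by simp) (hlF.mono hF0F)
    have h4 : F0.card ≤ F.card := Finset.card_le_card hF0F
    rw [Finset.sum_const, smul_eq_mul] at h1
    have h5 : Bg.card * L ≤ L * L := by omega
    exact Nat.le_of_mul_le_mul_right h5 (by omega)
  obtain ⟨ctr0, hc1, -, -, hc4⟩ := assign F0 (hlF.mono hF0F) ∅ Bg (Finset.empty_subset _) L
    (by
      intro v hv
      by_contra h1
      exact hv (Finset.mem_filter.2 ⟨Finset.mem_univ v, not_le.1 h1⟩)) hBgcard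
  obtain ⟨J, M2, hM1, -, -, -, hM5, hM6, hM7⟩ := cherry_pairing F0 (hlF.mono hF0F) ctr0 hc1
  have hM2card : (M2.card : ℝ) ≤ nV V := by
    have h1 : M2.card ≤ (Finset.univ : Finset V).card :=
      Finset.card_le_card_of_injOn ctr0 (fun e _ => Finset.mem_coe.2 (Finset.mem_univ _)) (by
        intro e he e' he' hee
        exact hM6 e (Finset.mem_coe.1 he) e' (Finset.mem_coe.1 he') hee)
    rw [Finset.card_univ] at h1
    unfold nV
    exact_mod_cast h1
  have hM2one : ∀ v, (M2.filter (fun e => ctr0 e = v)).card ≤ 1 := by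
    intro v
    rw [Finset.card_le_one]
    intro e he e' he'
    rw [Finset.mem_filter] at he he'
    exact hM6 e he.1 e' he'.1 (he.2.trans he'.2.symm)
  have hM2deg : ∀ v, deg M2 v ≤ L + 1 := by
    intro v
    have h1 : M2.filter (fun e => v ∈ e) ⊆ F0.filter (fun e => v ∈ e ∧ ctr0 e ≠ v) ∪
        M2.filter (fun e => ctr0 e = v) := by
      intro e he
      rw [Finset.mem_filter] at he
      by_cases h2 : ctr0 e = v
      · exact Finset.mem_union_right _ (Finset.mem_filter.2 ⟨he.1, h2⟩)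
      · exact Finset.mem_union_left _ (Finset.mem_filter.2 ⟨hM1 he.1, he.2, h2⟩)
    exact (Finset.card_le_card h1).trans ((Finset.card_union_le _ _).trans
      (Nat.add_le_add (hc4 v) (hM2one v)))
  -- first step
  obtain ⟨F1, D1, hF1F, hD1, hF1D1, hD1F, hD1deg, hF1M, hE1, hE2, hF1x⟩ :
      ∃ F1 D1 : Finset (Sym2 V), F1 ⊆ F ∧ Dec D1 ∧ F1 ⊆ D1 ∧ D1 ⊆ F1 ∪ H ∧
        (∀ v, deg (D1 ∩ H) v ≤ 2) ∧ (∀ f ∈ F1, f ∈ F0 → f ∈ M2) ∧ Even (M2 \ F1).card ∧
        Even (FX \ F1).card ∧ ∀ x ∈ X, dg F1 B' x ≤ 1 := by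
    by_cases hpar : Even M2.card
    · refine ⟨∅, ∅, by simp, Dec.empty, by simp, by simp, by simp, by simp, by simpa using hpar,
        ?_, by simp [dg]⟩
      rw [Finset.sdiff_empty]
      have h1 : Even (2 * J.card + M2.card + FX.card) := by
        have : 2 * J.card + M2.card + FX.card = F.card := by omega
        rw [this]
        exact heven
      rw [Nat.even_add] at h1
      exact h1.1 ((even_two_mul _).add hpar)
    · have hodd : Odd M2.card := Nat.not_even_iff_odd.1 hpar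
      have hFXodd : Odd FX.card := by
        rw [← Nat.not_even_iff_odd]
        intro h1
        apply hpar
        have h2 : Even (FX.card + 2 * J.card + M2.card) := by
          have : FX.card + 2 * J.card + M2.card = F.card := by omega
          rw [this]
          exact heven
        rw [Nat.even_add] at h2
        exact h2.1 (h1.add (even_two_mul _))
      obtain ⟨ms, hms⟩ : M2.Nonempty := by
        rw [← Finset.card_pos]
        exact hodd.pos
      obtain ⟨fx, hfx⟩ : FX.Nonempty := by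
        rw [← Finset.card_pos]
        exact hFXodd.pos
      obtain ⟨xs, hxs, -⟩ := hFXX fx hfx
      obtain ⟨a, ha, b, hb, rfl, -⟩ := e1b_rep henv (hF (hF0F (hM1 hms)))
      have ha0 : a ∈ A0 := by
        rcases Finset.mem_union.1 ha with h1 | h1
        · exact h1
        · exact absurd (Sym2.mem_mk_left a b) (hF0X _ (hM1 hms) a h1)
      obtain ⟨b', hb', hxF, D1, hD1, hD2, hD3, hD4⟩ :=
        e1b_single hl henv hH hxs ha0 hb (hsingle xs hxs a ha0 b hb)
      have hxFX : s(xs, b') ∈ FX := Finset.mem_filter.2 ⟨hxF, xs, hxs, Sym2.mem_mk_left _ _⟩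
      have hnot1 : s(xs, b') ∉ M2 := fun h1 =>
        (Finset.disjoint_left.1 hdisX0) hxFX (hM1 h1)
      have hnot2 : s(a, b) ∉ FX := fun h1 =>
        (Finset.disjoint_left.1 hdisX0) h1 (hM1 hms)
      refine ⟨{s(a, b), s(xs, b')}, D1, ?_, hD1, hD2, hD3, hD4, ?_, ?_, ?_, ?_⟩
      · intro f hf
        rw [Finset.mem_insert, Finset.mem_singleton] at hf
        rcases hf with rfl | rfl
        · exact hF0F (hM1 hms)
        · exact hxF
      · intro f hf hf0
        rw [Finset.mem_insert, Finset.mem_singleton] at hf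
        rcases hf with rfl | rfl
        · exact hms
        · exact absurd hf0 (fun h1 => (Finset.disjoint_left.1 hdisX0) hxFX h1)
      · have h1 : M2 \ {s(a, b), s(xs, b')} = M2.erase s(a, b) := by
          ext f
          rw [Finset.mem_sdiff, Finset.mem_insert, Finset.mem_singleton, Finset.mem_erase]
          constructor
          · rintro ⟨h1, h2⟩
            exact ⟨fun h3 => h2 (Or.inl h3), h1⟩
          · rintro ⟨h1, h2⟩
            refine ⟨h2, ?_⟩
            rintro (h3 | rfl)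
            · exact h1 h3
            · exact hnot1 h2
        rw [h1, Finset.card_erase_of_mem hms]
        obtain ⟨k, hk⟩ := hodd
        exact ⟨k, by omega⟩
      · have h1 : FX \ {s(a, b), s(xs, b')} = FX.erase s(xs, b') := by
          ext f
          rw [Finset.mem_sdiff, Finset.mem_insert, Finset.mem_singleton, Finset.mem_erase]
          constructor
          · rintro ⟨h1, h2⟩
            exact ⟨fun h3 => h2 (Or.inr h3), h1⟩
          · rintro ⟨h1, h2⟩
            refine ⟨h2, ?_⟩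
            rintro (rfl | h3)
            · exact hnot2 h2
            · exact h1 h3
        rw [h1, Finset.card_erase_of_mem hxFX]
        obtain ⟨k, hk⟩ := hFXodd
        exact ⟨k, by omega⟩
      · intro x hx
        unfold dg
        rw [Finset.card_le_one]
        intro y hy z hz
        rw [Finset.mem_filter, Finset.mem_insert, Finset.mem_singleton] at hy hz
        have key : ∀ y ∈ B', (s(x, y) = s(a, b) ∨ s(x, y) = s(xs, b')) → y = b' := by
          intro y hy h1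
          rcases h1 with h1 | h1
          · exfalso
            have h2 : x ∈ s(a, b) := by
              rw [← h1]
              exact Sym2.mem_mk_left _ _
            exact hF0X _ (hM1 hms) x hx h2
          · rcases Sym2.eq_iff.1 h1 with ⟨h2, h3⟩ | ⟨h2, h3⟩
            · exact h3
            · exfalso
              rw [h3] at hy
              exact (Finset.disjoint_left.1 henv.dBX) (henv.subB hy) hxs
        rw [key y hy.1 hy.2, key z hz.1 hz.2]
  -- second step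
  have hFX' : FX \ F1 ⊆ crs E (A0 ∪ X) B0 := fun f hf =>
    hF (hFXF (Finset.mem_sdiff.1 hf).1)
  obtain ⟨F2, hF2, hpar2, D2, hD2, hF2D2, hD2F, hD2deg⟩ := e1b_odd (S := A' ∪ B') (G := H \ D1)
    (FX := FX \ F1) (m0 := m0) (m1 := m1) (h := h) (L := L) hl henv
    (Finset.sdiff_subset.trans hH) hFX' (fun f hf => hFXX f (Finset.mem_sdiff.1 hf).1) hE2 (by
      intro x hx
      have h1 := hm0 x hx
      have h2 : dg F B' x ≤ dg (FX \ F1) B' x + dg F1 B' x := by
        unfold dg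
        refine le_trans (Finset.card_le_card ?_) (Finset.card_union_le _ _)
        intro y hy
        rw [Finset.mem_filter] at hy
        rw [Finset.mem_union, Finset.mem_filter, Finset.mem_filter, Finset.mem_sdiff]
        by_cases h3 : s(x, y) ∈ F1
        · exact Or.inr ⟨hy.1, h3⟩
        · exact Or.inl ⟨hy.1, Finset.mem_filter.2 ⟨hy.2, x, hx, Sym2.mem_mk_left _ _⟩, h3⟩
      have h3 := hF1x x hx
      omega) (by
      intro b hb
      have h1 := hm1 b hb
      have h2 : (B'.filter (fun y => s(b, y) ∉ H \ D1)).card ≤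
          (B'.filter (fun y => s(b, y) ∉ H)).card + dg (D1 ∩ H) B' b := by
        unfold dg
        refine le_trans (Finset.card_le_card ?_) (Finset.card_union_le _ _)
        intro y hy
        rw [Finset.mem_filter, Finset.mem_sdiff] at hy
        rw [Finset.mem_union, Finset.mem_filter, Finset.mem_filter, Finset.mem_inter]
        by_cases h3 : s(b, y) ∈ H
        · refine Or.inr ⟨hy.1, ?_, h3⟩
          by_contra h4
          exact hy.2 ⟨h3, h4⟩
        · exact Or.inl ⟨hy.1, h3⟩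
      have h3 := (dg_le_deg (D1 ∩ H) B' b).trans (hD1deg b)
      omega) hm hh (by
      intro R hR hRdeg
      have h1 : (H \ D1) \ R = H \ ((D1 ∩ H) ∪ R) := by
        ext f
        simp only [Finset.mem_sdiff, Finset.mem_union, Finset.mem_inter]
        tauto
      rw [h1]
      refine hr _ ?_ ?_
      · intro f hf
        rcases Finset.mem_union.1 hf with h2 | h2
        · exact (Finset.mem_inter.1 h2).2
        · exact (Finset.mem_sdiff.1 (hR h2)).1
      · intro v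
        have h2 := deg_union_le (D1 ∩ H) R v
        have h3 := hD1deg v
        have h4 := hRdeg v
        omega) hL hn hnum2
  -- the remaining steps
  set G3 : Finset (Sym2 V) := (H \ D1) \ D2 with hG3
  have hG3H : G3 ⊆ H := Finset.sdiff_subset.trans Finset.sdiff_subset
  have hrich3 : ∀ R ⊆ G3, (∀ v, deg R v ≤ 8 * L) →
      E1bRich (G3 \ R) A0 B0 X (A' ∪ B') h := by
    intro R hR hRdeg
    have h1 : G3 \ R = H \ (((D1 ∩ H) ∪ (D2 ∩ (H \ D1))) ∪ R) := by
      ext f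
      simp only [hG3, Finset.mem_sdiff, Finset.mem_union, Finset.mem_inter]
      tauto
    rw [h1]
    refine hr _ ?_ ?_
    · intro f hf
      rcases Finset.mem_union.1 hf with h2 | h2
      · rcases Finset.mem_union.1 h2 with h3 | h3
        · exact (Finset.mem_inter.1 h3).2
        · exact (Finset.mem_sdiff.1 (Finset.mem_inter.1 h3).2).1
      · exact hG3H (hR h2)
    · intro v
      have h2 := deg_union_le ((D1 ∩ H) ∪ (D2 ∩ (H \ D1))) R v
      have h3 := deg_union_le (D1 ∩ H) (D2 ∩ (H \ D1)) v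
      have h4 := hD1deg v
      have h5 := hRdeg v
      have h6 := hD2deg v
      omega
  set F3 : Finset (Sym2 V) := (FX \ F1) \ F2 with hF3
  set F4 : Finset (Sym2 V) := F0 \ M2 with hF4
  set F5 : Finset (Sym2 V) := M2 \ F1 with hF5
  have hF3FX : F3 ⊆ FX := Finset.sdiff_subset.trans Finset.sdiff_subset
  have hF4F0 : F4 ⊆ F0 := Finset.sdiff_subset
  have hF5F0 : F5 ⊆ F0 := Finset.sdiff_subset.trans hM1
  have hnumF : ∀ F' ⊆ F, 18 * (F'.card : ℝ) / L + 12 * L + 12 * L + 8 < h * (A' ∪ B').card := by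
    intro F' hF'
    have h1 : (F'.card : ℝ) ≤ F.card := by exact_mod_cast Finset.card_le_card hF'
    have h2 : 18 * (F'.card : ℝ) / L ≤ 18 * (F.card : ℝ) / L := by gcongr
    linarith
  have A3 : e1b_All G3 F3 (4 * L) 0 := by
    intro R hR hRdeg
    obtain ⟨ctr, hct1, hct2, -, hct4⟩ := assign F3 (hlF.mono (hF3FX.trans hFXF)) X X
      (Finset.Subset.refl _) L (by
        intro v hv
        have h1 : F3.filter (fun e => v ∈ e) ⊆ X.image (fun x => s(x, v)) := by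
          intro e he
          rw [Finset.mem_filter] at he
          obtain ⟨x, hx, hxe⟩ := hFXX e (hF3FX he.1)
          rw [Finset.mem_image]
          refine ⟨x, hx, ?_⟩
          have hxv : x ≠ v := by
            rintro rfl
            exact hv hx
          exact ((Sym2.mem_and_mem_iff hxv).1 ⟨hxe, he.2⟩).symm
        exact (Finset.card_le_card h1).trans (Finset.card_image_le.trans hXL)) hXL
    refine e1b_cherry (A' ∪ B') hl henv ((Finset.sdiff_subset.trans hG3H).trans hH)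
      ((hF3FX.trans hFXF).trans hF) (hrich3 R hR fun v => (hRdeg v).trans (Nat.zero_le _)) hh ctr hL
      hct1 ?_ hct4 (hnumF _ (hF3FX.trans hFXF))
    intro v
    by_cases hv : v ∈ X
    · have h1 : F3.filter (fun f => ctr f = v) = F3.filter (fun f => v ∈ f) := by
        ext f
        rw [Finset.mem_filter, Finset.mem_filter]
        constructor
        · rintro ⟨h1, rfl⟩
          exact ⟨h1, hct1 f h1⟩
        · rintro ⟨h1, h2⟩
          refine ⟨h1, ?_⟩
          have h3 : ctr f ∈ X := hct2 f h1 ⟨v, h2, hv⟩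
          have h4 : ctr f ∈ f := hct1 f h1
          obtain ⟨a, ha, b, hb, rfl, -⟩ := e1b_rep henv (hF (hFXF (hF3FX h1)))
          have hXb : ∀ y ∈ X, y ≠ b := by
            rintro y hy rfl
            exact henv.e1b_disj (Finset.mem_union_right _ hy) hb
          rw [(Sym2.mem_iff.1 h4).resolve_right (hXb _ h3),
            (Sym2.mem_iff.1 h2).resolve_right (hXb _ hv)]
      rw [h1]
      exact hpar2 v hv
    · have h1 : F3.filter (fun f => ctr f = v) = ∅ := by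
        rw [Finset.filter_eq_empty_iff]
        rintro f hf rfl
        obtain ⟨x, hx, hxf⟩ := hFXX f (hF3FX hf)
        exact hv (hct2 f hf ⟨x, hxf, hx⟩)
      rw [h1]
      simp
  have A4 : e1b_All G3 F4 (4 * L) (0 + 4 * L) := by
    intro R hR hRdeg
    refine e1b_cherry (A' ∪ B') hl henv ((Finset.sdiff_subset.trans hG3H).trans hH)
      ((hF4F0.trans hF0F).trans hF) (hrich3 R hR fun v => (hRdeg v).trans (by omega)) hh ctr0 hL
      (fun f hf => hc1 f (hF4F0 hf)) ?_ ?_ (hnumF _ (hF4F0.trans hF0F))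
    · intro v
      have h1 : (F4.filter (fun f => ctr0 f = v)).card + (M2.filter (fun f => ctr0 f = v)).card =
          (F0.filter (fun f => ctr0 f = v)).card := by
        rw [← Finset.card_union_of_disjoint]
        · congr 1
          ext f
          simp only [hF4, Finset.mem_union, Finset.mem_filter, Finset.mem_sdiff]
          constructor
          · rintro (⟨⟨h1, _⟩, h2⟩ | ⟨h1, h2⟩)
            · exact ⟨h1, h2⟩
            · exact ⟨hM1 h1, h2⟩
          · rintro ⟨h1, h2⟩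
            by_cases h3 : f ∈ M2
            · exact Or.inr ⟨h3, h2⟩
            · exact Or.inl ⟨⟨h1, h3⟩, h2⟩
        · rw [Finset.disjoint_left]
          intro f hf hg
          rw [Finset.mem_filter] at hf hg
          exact (Finset.mem_sdiff.1 hf.1).2 hg.1
      by_cases hodd : Odd (F0.filter (fun f => ctr0 f = v)).card
      · obtain ⟨e, he, hev⟩ := (hM7 v).2 hodd
        have h2 : (M2.filter (fun f => ctr0 f = v)).card = 1 := by
          refine le_antisymm (hM2one v) ?_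
          rw [Nat.one_le_iff_ne_zero, ← Nat.pos_iff_ne_zero, Finset.card_pos]
          exact ⟨e, Finset.mem_filter.2 ⟨he, hev⟩⟩
        rw [h2] at h1
        obtain ⟨k, hk⟩ := hodd
        exact ⟨k, by omega⟩
      · have h2 : (M2.filter (fun f => ctr0 f = v)).card = 0 := by
          rw [Finset.card_eq_zero, Finset.filter_eq_empty_iff]
          intro f hf hfv
          exact hodd ((hM7 v).1 ⟨f, hf, hfv⟩)
        rw [h2, add_zero] at h1
        rw [h1]
        exact Nat.not_odd_iff_even.1 hodd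
    · intro p
      refine le_trans (Finset.card_le_card ?_) (hc4 p)
      exact Finset.filter_subset_filter _ hF4F0
  have A5 : e1b_All G3 F5 (4 * L + 2) (0 + 4 * L + 4 * L) := by
    intro R hR hRdeg
    refine e1b_pairs (A' ∪ B') hl henv ((Finset.sdiff_subset.trans hG3H).trans hH)
      ((hF5F0.trans hF0F).trans hF) (fun e he => hF0X e (hF5F0 he))
      (hrich3 R hR fun v => (hRdeg v).trans (by omega)) hh hh1 hL hE1
      (fun p => (deg_mono Finset.sdiff_subset p).trans (hM2deg p)) ?_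
    have h1 : (F5.card : ℝ) ≤ nV V := by
      have h2 : (F5.card : ℝ) ≤ M2.card := by
        exact_mod_cast Finset.card_le_card (Finset.sdiff_subset : F5 ⊆ M2)
      exact h2.trans hM2card
    have h2 : 18 * (F5.card : ℝ) / L ≤ 18 * nV V / L := by gcongr
    linarith
  -- assembly
  have dH : ∀ F' ⊆ F, ∀ G ⊆ H, Disjoint F' G := fun F' h1 G h2 => hFH.mono h1 h2
  have d45 : Disjoint F4 F5 := by
    rw [Finset.disjoint_left]
    intro f hf hg
    exact (Finset.mem_sdiff.1 hf).2 (Finset.mem_sdiff.1 hg).1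
  have d345 : Disjoint F3 (F4 ∪ F5) :=
    hdisX0.mono hF3FX (Finset.union_subset hF4F0 hF5F0)
  have A45 := A4.union d45 (dH F5 (hF5F0.trans hF0F) G3 hG3H) A5
  have A345 := A3.union d345 (dH (F4 ∪ F5)
    ((Finset.union_subset hF4F0 hF5F0).trans hF0F) G3 hG3H) A45
  have hF2FX : F2 ⊆ FX := hF2.trans Finset.sdiff_subset
  have h345F : F3 ∪ (F4 ∪ F5) ⊆ F :=
    Finset.union_subset (hF3FX.trans hFXF) ((Finset.union_subset hF4F0 hF5F0).trans hF0F)
  have d2 : Disjoint F2 (F3 ∪ (F4 ∪ F5)) := by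
    rw [Finset.disjoint_union_right]
    refine ⟨?_, hdisX0.mono hF2FX (Finset.union_subset hF4F0 hF5F0)⟩
    rw [Finset.disjoint_left]
    intro f hf hg
    exact (Finset.mem_sdiff.1 hg).2 hf
  have B2 := e1b_seq d2 (dH _ h345F (H \ D1) Finset.sdiff_subset) hD2 hF2D2 hD2F hD2deg A345.cov
  have d1 : Disjoint F1 (F2 ∪ (F3 ∪ (F4 ∪ F5))) := by
    rw [Finset.disjoint_left]
    intro f hf hg
    rcases Finset.mem_union.1 hg with h1 | h1
    · exact (Finset.mem_sdiff.1 (hF2 h1)).2 hf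
    · rcases Finset.mem_union.1 h1 with h2 | h2
      · exact (Finset.mem_sdiff.1 (Finset.mem_sdiff.1 h2).1).2 hf
      · rcases Finset.mem_union.1 h2 with h3 | h3
        · exact (Finset.mem_sdiff.1 h3).2 (hF1M f hf (Finset.mem_sdiff.1 h3).1)
        · exact (Finset.mem_sdiff.1 h3).2 hf
  have B1 := e1b_seq d1 (dH _ (Finset.union_subset (hF2FX.trans hFXF) h345F) H
    (Finset.Subset.refl _)) hD1 hF1D1 hD1F hD1deg B2
  have hFeq : F1 ∪ (F2 ∪ (F3 ∪ (F4 ∪ F5))) = F := by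
    refine Finset.Subset.antisymm (Finset.union_subset hF1F
      (Finset.union_subset (hF2FX.trans hFXF) h345F)) ?_
    intro f hf
    by_cases h1 : f ∈ F1
    · exact Finset.mem_union_left _ h1
    · refine Finset.mem_union_right _ ?_
      by_cases h2 : ∃ x ∈ X, x ∈ f
      · have h3 : f ∈ FX \ F1 := Finset.mem_sdiff.2 ⟨Finset.mem_filter.2 ⟨hf, h2⟩, h1⟩
        by_cases h4 : f ∈ F2
        · exact Finset.mem_union_left _ h4
        · exact Finset.mem_union_right _ (Finset.mem_union_left _ (Finset.mem_sdiff.2 ⟨h3, h4⟩))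
      · have h3 : f ∈ F0 := Finset.mem_filter.2 ⟨hf, h2⟩
        refine Finset.mem_union_right _ (Finset.mem_union_right _ ?_)
        by_cases h4 : f ∈ M2
        · exact Finset.mem_union_right _ (Finset.mem_sdiff.2 ⟨h4, h1⟩)
        · exact Finset.mem_union_left _ (Finset.mem_sdiff.2 ⟨h3, h4⟩)
  rw [hFeq] at B1
  obtain ⟨D, h1, h2, h3, h4⟩ := B1
  exact ⟨D, h1, h2, h3, fun v => (h4 v).trans (by omega)⟩

end e1bMain

end H15C6


namespace H15C6

section e1bFinal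

variable {V : Type} [Fintype V] [DecidableEq V]

theorem e1b_crossX {E F : Finset (Sym2 V)} {ε τ θ : ℝ} {A0 B0 X A' B' : Finset V}
    (henv : Env1 E ε τ A0 B0 X A' B')
    (hXdeg : ∀ x ∈ X, (deg (crs E (A0 ∪ X) B0 \ F) x : ℝ) ≤ θ * nV V) :
    ∀ x ∈ X, (dg E B' x : ℝ) - θ * nV V ≤ dg F B' x := by
  intro x hx
  have h1 : dg E B' x ≤ dg F B' x + dg (crs E (A0 ∪ X) B0 \ F) B' x := by
    unfold dg
    refine le_trans (Finset.card_le_card ?_) (Finset.card_union_le _ _)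
    intro y hy
    rw [Finset.mem_filter] at hy
    rw [Finset.mem_union, Finset.mem_filter, Finset.mem_filter, Finset.mem_sdiff, henv.e1b_crs]
    by_cases h2 : s(x, y) ∈ F
    · exact Or.inl ⟨hy.1, h2⟩
    · exact Or.inr ⟨hy.1, ⟨hy.2, Or.inl ⟨Finset.mem_union_right _ hx, henv.subB hy.1⟩⟩, h2⟩
  have h2 : (dg E B' x : ℝ) ≤ dg F B' x + dg (crs E (A0 ∪ X) B0 \ F) B' x := by
    exact_mod_cast h1
  have h3 : (dg (crs E (A0 ∪ X) B0 \ F) B' x : ℝ) ≤ deg (crs E (A0 ∪ X) B0 \ F) x := by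
    exact_mod_cast dg_le_deg _ _ _
  have h4 := hXdeg x hx
  linarith only [h2, h3, h4]

theorem e1b_nonB {E H : Finset (Sym2 V)} {ε τ θ : ℝ} {A0 B0 X A' B' : Finset V}
    (henv : Env1 E ε τ A0 B0 X A' B')
    (hHdeg : ∀ v, (deg ((inn E (A0 ∪ X) ∪ inn E B0) \ H) v : ℝ) ≤ θ * nV V) :
    ∀ b ∈ B0, ((B'.filter (fun y => s(b, y) ∉ H)).card : ℝ) ≤
      (B'.filter (fun y => s(b, y) ∉ E)).card + θ * nV V := by
  intro b hb
  have h1 : (B'.filter (fun y => s(b, y) ∉ H)).card ≤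
      (B'.filter (fun y => s(b, y) ∉ E)).card +
        dg ((inn E (A0 ∪ X) ∪ inn E B0) \ H) B' b := by
    unfold dg
    refine le_trans (Finset.card_le_card ?_) (Finset.card_union_le _ _)
    intro y hy
    rw [Finset.mem_filter] at hy
    rw [Finset.mem_union, Finset.mem_filter, Finset.mem_filter, Finset.mem_sdiff, e1b_inner]
    by_cases h2 : s(b, y) ∈ E
    · exact Or.inr ⟨hy.1, ⟨h2, Or.inr ⟨hb, henv.subB hy.1⟩⟩, hy.2⟩
    · exact Or.inl ⟨hy.1, h2⟩
  have h2 : ((B'.filter (fun y => s(b, y) ∉ H)).card : ℝ) ≤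
      (B'.filter (fun y => s(b, y) ∉ E)).card +
        dg ((inn E (A0 ∪ X) ∪ inn E B0) \ H) B' b := by
    exact_mod_cast h1
  have h3 : (dg ((inn E (A0 ∪ X) ∪ inn E B0) \ H) B' b : ℝ) ≤
      deg ((inn E (A0 ∪ X) ∪ inn E B0) \ H) b := by
    exact_mod_cast dg_le_deg _ _ _
  have h4 := hHdeg b
  linarith only [h2, h3, h4]

theorem e1b_degH {E H : Finset (Sym2 V)} {θ θ₁ : ℝ} {A0 B0 X : Finset V} {N : ℕ}
    (hHdeg : ∀ v, (deg ((inn E (A0 ∪ X) ∪ inn E B0) \ H) v : ℝ) ≤ θ * nV V)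
    (hN : θ * nV V + N ≤ θ₁ * nV V) :
    ∀ R ⊆ H, (∀ v, deg R v ≤ N) →
      ∀ v, (deg ((inn E (A0 ∪ X) ∪ inn E B0) \ (H \ R)) v : ℝ) ≤ θ₁ * nV V := by
  intro R hR hRdeg v
  have h1 : (inn E (A0 ∪ X) ∪ inn E B0) \ (H \ R) ⊆
      ((inn E (A0 ∪ X) ∪ inn E B0) \ H) ∪ R := by
    intro f hf
    rw [Finset.mem_sdiff, Finset.mem_sdiff] at hf
    by_cases h2 : f ∈ H
    · refine Finset.mem_union_right _ ?_
      by_contra h3
      exact hf.2 ⟨h2, h3⟩
    · exact Finset.mem_union_left _ (Finset.mem_sdiff.2 ⟨hf.1, h2⟩)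
  have h2 : (deg ((inn E (A0 ∪ X) ∪ inn E B0) \ (H \ R)) v : ℝ) ≤
      deg ((inn E (A0 ∪ X) ∪ inn E B0) \ H) v + deg R v := by
    exact_mod_cast (deg_mono h1 v).trans (deg_union_le _ _ v)
  have h3 : (deg R v : ℝ) ≤ N := by exact_mod_cast hRdeg v
  have h4 := hHdeg v
  linarith only [h2, h3, h4, hN]

theorem e1b_hsingle {E F H : Finset (Sym2 V)} {ε τ θ : ℝ} {A0 B0 X A' B' : Finset V}
    (henv : Env1 E ε τ A0 B0 X A' B') (hτ0 : 0 < τ)
    (i2 : (B'.card : ℝ) ≤ (1 / 2 + ε) * nV V)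
    (i3 : ((Finset.univ \ (A' ∪ B')).card : ℝ) ≤ 2 * ε * nV V)
    (i4 : ∀ v, deg E v ≤ dg E A' v + dg E B' v + (Finset.univ \ (A' ∪ B')).card)
    (i6 : ∀ b ∈ B0, (1 / 2 - τ - 2 * ε) * nV V - 1 ≤ (dg E B' b : ℝ))
    (hcrossX : ∀ x ∈ X, (dg E B' x : ℝ) - θ * nV V ≤ dg F B' x)
    (hnonB : ∀ b ∈ B0, ((B'.filter (fun y => s(b, y) ∉ H)).card : ℝ) ≤
      (B'.filter (fun y => s(b, y) ∉ E)).card + θ * nV V)
    (s1 : ∀ u ∈ A0 ∪ X, ∀ w ∈ A0 ∪ X, τ ^ 2 / 16 * nV V ^ 3 ≤ (P4 H (A' ∪ B') u w : ℝ) ∧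
        τ ^ 2 / 16 * nV V ^ 2 ≤ (P3 H (A' ∪ B') u w : ℝ))
    (s4 : ∀ u ∈ B0, ∀ w ∈ B0, 1 / 5 * nV V ≤ (cn H (A' ∪ B') u w : ℝ))
    (s5 : ∀ u ∈ A0, ∀ w ∈ A0 ∪ X, 2 * τ * nV V ≤ (dg E A' w : ℝ) →
        τ / 2 * nV V ≤ (cn H (A' ∪ B') u w : ℝ))
    (hn : 10 ^ 4 ≤ nV V) (hτn0 : 10 ^ 4 ≤ τ * nV V) (hτ2n : 10 ^ 4 ≤ τ ^ 2 * nV V)
    (hτn : τ * nV V ≤ nV V / 20) (hεn : ε * nV V ≤ τ * nV V / 40)
    (hθn : θ * nV V ≤ τ * nV V / 8) :
    ∀ xs ∈ X, ∀ a ∈ A0, ∀ b ∈ B0,
      (∃ b' ∈ B', s(xs, b') ∈ F ∧ b' ≠ b ∧ 0 < cn H (A' ∪ B') b b' ∧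
        0 < cn H (A' ∪ B') xs a) ∨
      (∃ b' ∈ B', s(xs, b') ∈ F ∧ s(b', b) ∈ H ∧ (A' ∪ B').card < P3 H (A' ∪ B') xs a) := by
  intro xs hxs a ha b hb
  have hcommA : cn H (A' ∪ B') a xs = cn H (A' ∪ B') xs a := cn_comm _ _ _ _
  have h1 := hcrossX xs hxs
  by_cases hcase : 2 * τ * nV V ≤ (dg E A' xs : ℝ)
  · left
    have h2 := (henv.mX xs hxs).2
    have h3 : (1 : ℝ) < dg F B' xs := by linarith only [h1, h2, hτn0, hθn]
    have h4 : 1 < dg F B' xs := by exact_mod_cast h3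
    unfold dg at h4
    obtain ⟨y, hy, z, hz, hyz⟩ := Finset.one_lt_card.1 h4
    obtain ⟨b', hb', hbb⟩ : ∃ b' ∈ B'.filter (fun y => s(xs, y) ∈ F), b' ≠ b := by
      by_cases h5 : y = b
      · exact ⟨z, hz, fun h6 => hyz (h5.trans h6.symm)⟩
      · exact ⟨y, hy, h5⟩
    rw [Finset.mem_filter] at hb'
    refine ⟨b', hb'.1, hb'.2, hbb, ?_, ?_⟩
    · have h5 := s4 b hb b' (henv.subB hb'.1)
      have h6 : (0 : ℝ) < cn H (A' ∪ B') b b' := by linarith only [h5, hn]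
      exact_mod_cast h6
    · have h5 := s5 a ha xs (Finset.mem_union_right _ hxs) hcase
      rw [hcommA] at h5
      have h6 : (0 : ℝ) < cn H (A' ∪ B') xs a := by linarith only [h5, hτn0]
      exact_mod_cast h6
  · right
    push Not at hcase
    have h2 : (deg E xs : ℝ) ≤ dg E A' xs + dg E B' xs +
        (Finset.univ \ (A' ∪ B')).card := by exact_mod_cast i4 xs
    have h3 : nV V ≤ 2 * (deg E xs : ℝ) + 1 := by
      have := henv.mindeg xs
      unfold nV
      exact_mod_cast this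
    have h4 : nV V / 3 - θ * nV V ≤ (dg F B' xs : ℝ) := by
      linarith only [h1, h2, h3, i3, hcase, hn, hτn, hεn]
    -- non-neighbours of b
    have h5 := hnonB b hb
    have h6 : ((B'.filter (fun y => s(b, y) ∉ E)).card : ℝ) + dg E B' b = B'.card := by
      have h7 : (B'.filter (fun y => s(b, y) ∈ E)).card +
          (B'.filter (fun y => ¬ s(b, y) ∈ E)).card = B'.card :=
        Finset.card_filter_add_card_filter_not _
      have h8 : (B'.filter (fun y => s(b, y) ∉ E)).card + dg E B' b = B'.card := by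
        unfold dg
        omega
      exact_mod_cast h8
    have h7 := i6 b hb
    have h8 : ((B'.filter (fun y => s(b, y) ∉ H)).card : ℝ) < dg F B' xs := by
      linarith only [h4, h5, h6, h7, i2, hn, hτn, hεn, hθn]
    have h9 : (B'.filter (fun y => s(b, y) ∉ H)).card < dg F B' xs := by exact_mod_cast h8
    obtain ⟨b', hb', hb''⟩ := Finset.exists_mem_notMem_of_card_lt_card h9
    rw [Finset.mem_filter] at hb'
    have hbH : s(b, b') ∈ H := by
      by_contra h10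
      exact hb'' (Finset.mem_filter.2 ⟨hb'.1, h10⟩)
    refine ⟨b', hb'.1, hb'.2, by rw [Sym2.eq_swap]; exact hbH, ?_⟩
    have h10 := (s1 xs (Finset.mem_union_right _ hxs) a (Finset.mem_union_left _ ha)).2
    have hSn : ((A' ∪ B').card : ℝ) ≤ nV V := e1b_card_le _
    have h11 : ((A' ∪ B').card : ℝ) < P3 H (A' ∪ B') xs a := by
      have h12 : nV V < τ ^ 2 / 16 * nV V ^ 2 := by
        have h13 : 10 ^ 4 * nV V ≤ (τ ^ 2 * nV V) * nV V :=
          mul_le_mul_of_nonneg_right hτ2n (by linarith only [hn])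
        have h14 : τ ^ 2 / 16 * nV V ^ 2 = (τ ^ 2 * nV V) * nV V / 16 := by ring
        rw [h14]
        linarith only [h13, hn]
      linarith only [h12, h10, hSn]
    exact_mod_cast h11

end e1bFinal

theorem e1b_numbers {c τ ρ θ₁ n L : ℝ} (hc : 0 < c) (hτ : 0 < τ) (hτ' : τ ≤ 1 / 20)
    (f1 : 10 ^ 4 ≤ c * τ ^ 2 * n) (f2 : c ≤ τ ^ 2 / 4000) (f3 : c ≤ ρ / 40) (f4 : c ≤ θ₁ / 80)
    (hL2 : L ≤ c * n + 1) :
    10 ^ 4 ≤ c * n ∧ 10 ^ 4 ≤ n ∧ 4000 * (c * n) ≤ τ ^ 2 * n ∧ 40 * (c * n) ≤ ρ * n ∧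
      80 * (c * n) ≤ θ₁ * n ∧ τ ^ 2 * n ≤ τ * n ∧ L ≤ 2 * (c * n) := by
  have hτ2 : τ ^ 2 ≤ 1 := by nlinarith
  have hτ2' : 0 < τ ^ 2 := by positivity
  have hn : 0 < n := by
    by_contra h
    push Not at h
    have : c * τ ^ 2 * n ≤ 0 := mul_nonpos_of_nonneg_of_nonpos (by positivity) h
    linarith
  have hcn : 0 < c * n := by positivity
  have h1 : c * τ ^ 2 * n ≤ c * n := by
    have : c * τ ^ 2 * n = (c * n) * τ ^ 2 := by ring
    rw [this]
    exact mul_le_of_le_one_right hcn.le hτ2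
  have h2 : c ≤ 1 := by nlinarith
  have h3 : c * n ≤ n := mul_le_of_le_one_left hn.le h2
  refine ⟨by linarith, by linarith, ?_, ?_, ?_, ?_, by linarith⟩
  · nlinarith
  · nlinarith
  · nlinarith
  · refine mul_le_mul_of_nonneg_right ?_ hn.le
    nlinarith

theorem e1b_numbers2 {c τ ε θ θ₁ n : ℝ} (hc : 0 < c) (hτ : 0 < τ) (hτ' : τ ≤ 1 / 20)
    (hε : 0 < ε) (hθ : 0 < θ) (hc1 : c ≤ τ ^ 2 / 4000) (g2 : ε ≤ c ^ 2 / 6) (g3 : ε ≤ τ / 40)
    (k1 : θ ≤ θ₁ / 2) (k2 : θ ≤ τ / 8) (hn : 0 ≤ n) :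
    τ * n ≤ n / 20 ∧ ε * n ≤ τ * n / 40 ∧ θ * n ≤ τ * n / 8 ∧ θ * n ≤ θ₁ * n / 2 ∧
      0 ≤ ε * n ∧ 0 ≤ θ * n ∧ c ≤ 1 ∧ 6 * (ε * n) ≤ c * (c * n) ∧ 0 ≤ c * n ∧
      2 * (ε * n) ≤ c * n := by
  have a1 : τ * n ≤ 1 / 20 * n := mul_le_mul_of_nonneg_right hτ' hn
  have a2 : ε * n ≤ τ / 40 * n := mul_le_mul_of_nonneg_right g3 hn
  have a3 : θ * n ≤ τ / 8 * n := mul_le_mul_of_nonneg_right k2 hn
  have a4 : θ * n ≤ θ₁ / 2 * n := mul_le_mul_of_nonneg_right k1 hn
  have a5 : ε * n ≤ c ^ 2 / 6 * n := mul_le_mul_of_nonneg_right g2 hn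
  have a6 : c ≤ 1 := by nlinarith
  have a7 : 0 ≤ c * n := by positivity
  have a8 : c * (c * n) ≤ 1 * (c * n) := mul_le_mul_of_nonneg_right a6 a7
  have a9 : 6 * (ε * n) ≤ c * (c * n) := by nlinarith
  refine ⟨by linarith, by linarith, by linarith, by linarith, by positivity, by positivity, a6,
    a9, a7, ?_⟩
  have : 0 ≤ ε * n := by positivity
  linarith

theorem e1b_numbers3 {c τ n L F X S : ℝ} (hc : 0 < c) (hτ : 0 < τ)
    (f1 : 10 ^ 4 ≤ c * τ ^ 2 * n) (hL1 : c * n ≤ L) (hLpos : 0 < L) (hcn : 0 ≤ c * n)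
    (hn : 0 ≤ n) (hF : 2 * F ≤ (c * n) * (c * n)) (hXL : X ≤ L) (hS : n / 2 ≤ S) :
    18 * F / L ≤ 9 * (c * n) ∧ 36 * X / L ≤ 36 ∧ 18 * n / L ≤ 18 / 10 ^ 4 * (τ ^ 2 * n) ∧
      τ ^ 2 * n / 32 ≤ τ ^ 2 / 16 * S := by
  refine ⟨?_, ?_, ?_, ?_⟩
  · rw [div_le_iff₀ hLpos]
    have h1 : (c * n) * (c * n) ≤ (c * n) * L := mul_le_mul_of_nonneg_left hL1 hcn
    linarith only [h1, hF]
  · rw [div_le_iff₀ hLpos]
    linarith only [hXL]
  · rw [div_le_iff₀ hLpos]
    have h1 : 18 / 10 ^ 4 * (τ ^ 2 * n) * (c * n) ≤ 18 / 10 ^ 4 * (τ ^ 2 * n) * L :=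
      mul_le_mul_of_nonneg_left hL1 (by positivity)
    have h2 : 18 / 10 ^ 4 * (τ ^ 2 * n) * (c * n) = 18 / 10 ^ 4 * n * (c * τ ^ 2 * n) := by ring
    have h3 : 18 / 10 ^ 4 * n * 10 ^ 4 ≤ 18 / 10 ^ 4 * n * (c * τ ^ 2 * n) :=
      mul_le_mul_of_nonneg_left f1 (by positivity)
    linarith only [h1, h2, h3]
  · have : τ ^ 2 / 16 * (n / 2) ≤ τ ^ 2 / 16 * S :=
      mul_le_mul_of_nonneg_left hS (by positivity)
    linarith only [this]

theorem proc1 (τ ρ : ℝ) (hτ : 0 < τ) (hτ' : τ ≤ 1 / 20) (hρ : 0 < ρ) :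
    ∃ ε θ : ℝ, 0 < ε ∧ 0 < θ ∧ ∃ n0 : ℕ, ∀ (V : Type) [Fintype V] [DecidableEq V]
      (E F H : Finset (Sym2 V)) (A0 B0 X A' B' : Finset V), n0 ≤ Fintype.card V → Loopless E →
      Env1 E ε τ A0 B0 X A' B' → F ⊆ crs E (A0 ∪ X) B0 → Even F.card →
      H ⊆ inn E (A0 ∪ X) ∪ inn E B0 →
      (∀ v, (deg ((inn E (A0 ∪ X) ∪ inn E B0) \ H) v : ℝ) ≤ θ * nV V) →
      (∀ x ∈ X, (deg (crs E (A0 ∪ X) B0 \ F) x : ℝ) ≤ θ * nV V) →
      ∃ D : Finset (Sym2 V), Dec D ∧ F ⊆ D ∧ D ⊆ F ∪ H ∧ ∀ v, (deg (D ∩ H) v : ℝ) ≤ ρ * nV V := by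
  obtain ⟨ε₁, θ₁, hε₁, hθ₁, n₁, hrich⟩ := rich1_P4 τ hτ hτ'
  obtain ⟨c, hc, f2, f3, f4⟩ : ∃ c : ℝ, 0 < c ∧ c ≤ τ ^ 2 / 4000 ∧ c ≤ ρ / 40 ∧ c ≤ θ₁ / 80 := by
    refine ⟨min (τ ^ 2 / 4000) (min (ρ / 40) (θ₁ / 80)), ?_, min_le_left _ _,
      (min_le_right _ _).trans (min_le_left _ _), (min_le_right _ _).trans (min_le_right _ _)⟩
    exact lt_min (by positivity) (lt_min (by positivity) (by positivity))
  obtain ⟨ε, hε, g1, g2, g3⟩ : ∃ ε : ℝ, 0 < ε ∧ ε ≤ ε₁ ∧ ε ≤ c ^ 2 / 6 ∧ ε ≤ τ / 40 := by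
    refine ⟨min ε₁ (min (c ^ 2 / 6) (τ / 40)), ?_, min_le_left _ _,
      (min_le_right _ _).trans (min_le_left _ _), (min_le_right _ _).trans (min_le_right _ _)⟩
    exact lt_min hε₁ (lt_min (by positivity) (by positivity))
  obtain ⟨θ, hθ, k1, k2⟩ : ∃ θ : ℝ, 0 < θ ∧ θ ≤ θ₁ / 2 ∧ θ ≤ τ / 8 := by
    refine ⟨min (θ₁ / 2) (τ / 8), ?_, min_le_left _ _, min_le_right _ _⟩
    exact lt_min (by positivity) (by positivity)
  refine ⟨ε, θ, hε, hθ, max n₁ ⌈10 ^ 4 / (c * τ ^ 2)⌉₊, ?_⟩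
  intro V _ _ E F H A0 B0 X A' B' hn0 hl henv hF heven hH hHdeg hXdeg
  have hn1 : n₁ ≤ Fintype.card V := (le_max_left _ _).trans hn0
  have hnK : 10 ^ 4 / (c * τ ^ 2) ≤ nV V := by
    refine (Nat.le_ceil _).trans ?_
    unfold nV
    exact_mod_cast (le_max_right _ _).trans hn0
  have f1 : 10 ^ 4 ≤ c * τ ^ 2 * nV V := by
    rw [div_le_iff₀ (by positivity)] at hnK
    linarith only [hnK]
  obtain ⟨n, hn⟩ : ∃ n : ℝ, n = nV V := ⟨_, rfl⟩
  obtain ⟨L, hLdef⟩ : ∃ L : ℕ, L = ⌈c * n⌉₊ := ⟨_, rfl⟩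
  have hn00 : 0 ≤ n := by rw [hn]; exact Nat.cast_nonneg _
  rw [← hn] at f1
  have hL1 : c * n ≤ L := by rw [hLdef]; exact Nat.le_ceil _
  have hL2 : (L : ℝ) ≤ c * n + 1 := by
    rw [hLdef]; exact (Nat.ceil_lt_add_one (by positivity)).le
  obtain ⟨e1, e2, e3, e4, e5, e6, e7⟩ := e1b_numbers hc hτ hτ' f1 f2 f3 f4 hL2
  obtain ⟨hτn, hεn, hθn, hθn1, hεn0, hθn0, hc1, hεc, hcn, hεc2⟩ :=
    e1b_numbers2 hc hτ hτ' hε hθ f2 g2 g3 k1 k2 hn00
  have hLpos : (0 : ℝ) < L := by linarith only [hL1, e1]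
  have hL : 1 ≤ L := by
    have : (0 : ℝ) < L := hLpos
    exact_mod_cast this
  obtain ⟨i1, i2, i3, i4, i5, i6, i7⟩ := henv.basic hl
  -- cardinality of S
  have hdAB' : Disjoint A' B' := henv.dAB.mono henv.subA henv.subB
  have hS : n / 2 ≤ ((A' ∪ B').card : ℝ) := by
    rw [Finset.card_union_of_disjoint hdAB']
    push_cast
    have h1 := henv.sizeA
    have h2 := henv.sizeB
    rw [← hn] at h1 h2
    linarith only [h1, h2, hεn, hτn, hn00]
  -- cardinality of X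
  have hXcard : (X.card : ℝ) ≤ 2 * (ε * n) := by
    have h1 : X ⊆ Finset.univ \ (A' ∪ B') := by
      intro x hx
      rw [Finset.mem_sdiff, Finset.mem_union, not_or]
      refine ⟨Finset.mem_univ x, fun h => ?_, fun h => ?_⟩
      · exact (Finset.disjoint_left.1 henv.dAX) (henv.subA h) hx
      · exact (Finset.disjoint_left.1 henv.dBX) (henv.subB h) hx
    have h2 : (X.card : ℝ) ≤ ((Finset.univ \ (A' ∪ B')).card : ℝ) := by
      exact_mod_cast Finset.card_le_card h1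
    rw [← hn] at i3
    linarith only [h2, i3]
  have hXL : X.card ≤ L := by
    have : (X.card : ℝ) ≤ L := by linarith only [hXcard, hεc2, hL1]
    exact_mod_cast this
  have hXL' : (X.card : ℝ) ≤ L := by exact_mod_cast hXL
  -- cardinality of F
  have hFcard : (F.card : ℝ) ≤ 3 * ε * n ^ 2 := by
    have h2 : (F.card : ℝ) ≤ ((crs E (A0 ∪ X) B0).card : ℝ) := by
      exact_mod_cast Finset.card_le_card hF
    rw [hn]
    exact h2.trans i7
  have hFcard2 : 2 * (F.card : ℝ) ≤ (c * n) * (c * n) := by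
    have h1 : 6 * (ε * n) * n ≤ c * (c * n) * n := mul_le_mul_of_nonneg_right hεc hn00
    have h2 : c * (c * n) * n = (c * n) * (c * n) := by ring
    have h3 : 6 * (ε * n) * n = 2 * (3 * ε * n ^ 2) := by ring
    linarith only [h1, h2, h3, hFcard]
  have hcnL : (c * n) * (c * n) ≤ (L : ℝ) * L := mul_le_mul hL1 hL1 hcn hLpos.le
  have hLF : 2 * F.card ≤ L * L := by
    have : 2 * (F.card : ℝ) ≤ (L : ℝ) * L := hFcard2.trans hcnL
    exact_mod_cast this
  obtain ⟨hF18, hX36, hn18, hhS⟩ :=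
    e1b_numbers3 hc hτ f1 hL1 hLpos hcn hn00 hFcard2 hXL' hS
  -- richness
  have hHE : H ⊆ E := fun e he => by
    rcases Finset.mem_union.1 (hH he) with h | h
    · exact (Finset.mem_inter.1 h).1
    · exact (Finset.mem_inter.1 h).1
  have hall := e1b_degH (θ₁ := θ₁) (N := 10 * L + 5) hHdeg (by
    rw [← hn]
    push_cast
    linarith only [hθn1, e5, e7, e1])
  have henv1 := henv.e1b_mono g1
  have hr : ∀ R ⊆ H, (∀ v, deg R v ≤ 10 * L + 5) →
      E1bRich (H \ R) A0 B0 X (A' ∪ B') (τ ^ 2 / 16) := by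
    intro R hR hRdeg
    obtain ⟨r1, r2, r3, r4, -⟩ := hrich V E (H \ R) A0 B0 X A' B' hn1 hl henv1
      (Finset.sdiff_subset.trans hHE) (hall R hR hRdeg)
    exact ⟨fun u hu w hw => (r1 u hu w hw).1, fun u hu w hw => (r1 u hu w hw).2,
      fun u hu w hw => (r2 u hu w hw).1, r3, r4⟩
  obtain ⟨s1, -, -, s4, s5⟩ := hrich V E H A0 B0 X A' B' hn1 hl henv1 hHE (by
    have := hall ∅ (Finset.empty_subset _) (fun v => by simp)
    simpa using this)
  have hcrossX := e1b_crossX henv hXdeg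
  have hnonB := e1b_nonB henv hHdeg
  have hVne : Nonempty V := by
    rw [← Fintype.card_pos_iff]
    have : (0 : ℝ) < nV V := by rw [← hn]; linarith only [e2]
    unfold nV at this
    exact_mod_cast this
  have hsingle := e1b_hsingle (F := F) henv hτ i2 i3 i4 i6 hcrossX hnonB s1 s4 s5
    (by rw [← hn]; exact e2) (by rw [← hn]; linarith only [e1, e3, e6])
    (by rw [← hn]; linarith only [e1, e3])
    (by rw [← hn]; exact hτn) (by rw [← hn]; exact hεn) (by rw [← hn]; exact hθn)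
  have hmA : ∀ x ∈ X, ⌊τ * n / 2⌋₊ + 1 ≤ dg F B' x := by
    intro x hx
    have h1 := hcrossX x hx
    have h2 := (henv.mX x hx).2
    rw [← hn] at h1 h2
    have h3 : ((⌊τ * n / 2⌋₊ : ℕ) : ℝ) ≤ τ * n / 2 := Nat.floor_le (by positivity)
    have h4 : ((⌊τ * n / 2⌋₊ + 1 : ℕ) : ℝ) ≤ dg F B' x := by
      push_cast
      linarith only [h1, h2, h3, hθn, e1, e3, e6]
    exact_mod_cast h4
  have hmB : ∀ b ∈ B', (B'.filter (fun y => s(b, y) ∉ H)).card + 2 ≤ ⌈(ε + θ) * n⌉₊ + 2 := by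
    intro b hb
    have h1 := hnonB b (henv.subB hb)
    have h2 := henv.nB b hb
    rw [← hn] at h1 h2
    have h3 : (ε + θ) * n ≤ ((⌈(ε + θ) * n⌉₊ : ℕ) : ℝ) := Nat.le_ceil _
    have h4 : ((B'.filter (fun y => s(b, y) ∉ H)).card : ℝ) ≤ ((⌈(ε + θ) * n⌉₊ : ℕ) : ℝ) := by
      linarith only [h1, h2, h3]
    have h5 : (B'.filter (fun y => s(b, y) ∉ H)).card ≤ ⌈(ε + θ) * n⌉₊ := by exact_mod_cast h4
    exact Nat.add_le_add_right h5 2
  have hmC : 2 * X.card + (⌈(ε + θ) * n⌉₊ + 2) < ⌊τ * n / 2⌋₊ := by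
    have h1 : ((⌈(ε + θ) * n⌉₊ : ℕ) : ℝ) < (ε + θ) * n + 1 :=
      Nat.ceil_lt_add_one (by positivity)
    have h2 : τ * n / 2 < ((⌊τ * n / 2⌋₊ : ℕ) : ℝ) + 1 := Nat.lt_floor_add_one _
    have h3 : ((2 * X.card + (⌈(ε + θ) * n⌉₊ + 2) : ℕ) : ℝ) < ((⌊τ * n / 2⌋₊ : ℕ) : ℝ) := by
      push_cast
      linarith only [h1, h2, hXcard, hεn, hθn, e1, e3, e6]
    exact_mod_cast h3
  have hq1 : (12 : ℝ) ≤ τ ^ 2 / 16 * nV V := by
    rw [← hn]
    linarith only [e1, e3]
  have hq2 : 18 * (F.card : ℝ) / L + 12 * L + 12 * L + 8 < τ ^ 2 / 16 * (A' ∪ B').card := by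
    linarith only [hF18, hhS, e7, e3, e1]
  have hq3 : 36 * (X.card : ℝ) / L + 12 * (1 : ℕ) + 12 * L <
      τ ^ 2 / 16 / 2 * (A' ∪ B').card := by
    push_cast
    linarith only [hX36, hhS, e7, e3, e1]
  have hq4 : 18 * nV V / L + 12 * (L + 1 : ℕ) + 12 * L + 8 <
      τ ^ 2 / 16 * (A' ∪ B').card := by
    rw [← hn]
    push_cast
    linarith only [hn18, hhS, e7, e3, e1]
  have hτ16 : τ ^ 2 / 16 ≤ 1 / 25 := by nlinarith only [hτ, hτ']
  obtain ⟨D, hD1, hD2, hD3, hD4⟩ := e1b_main (h := τ ^ 2 / 16)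
    (L := L) (m0 := ⌊τ * n / 2⌋₊) (m1 := ⌈(ε + θ) * n⌉₊ + 2) hl henv hF heven hH hL
    (by positivity) hτ16 hr hmA hmB hmC hXL hLF hsingle hq1 hq2 hq3 hq4
  refine ⟨D, hD1, hD2, hD3, fun v => ?_⟩
  have h1 : (deg (D ∩ H) v : ℝ) ≤ 14 * L + 7 := by exact_mod_cast hD4 v
  rw [← hn]
  linarith only [h1, e7, e4, e1]

end H15C6
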