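import Pool.Agent.H15.C6.E1B
import Pool.Agent.H15.C6.NCT

/-!
Module E1C.  Extremal case 1 with five switches.  `A := A0 ∪ X`, `B := B0`, `V = A ⊔ B`.

Let `Sw := ⋃ (c0 i ∪ c1 i)` (at most 60 edges).  `F := crs E A B \ Sw`, `H := (inn E A ∪ inn E B) \ Sw`.
`|crs E A B|` is even (sum of even degrees over `A`), each switch has an even number of cross edges (a closed walk
crosses the cut an even number of times, or: `par`-argument with degrees of a cycle), and
`crs (c0 i) = crs (c1 i)`, so `|F|` is even.  `proc1` gives `D`.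
For `j ≤ 5` let `Q_j := ⋃_{i < j} c1 i ∪ ⋃_{i ≥ j} c0 i` and `G_j := E \ D \ Q_j`: no cross edges, even degrees,
`|inn G_j A| = |inn G_0 A| - j`; choose `j` with `6 ∣ |inn G_j A|`.  `6 ∣ |G_j|` gives
`6 ∣ |inn G_j B|`.  `nct` (with `c := τ/4`) decomposes `inn G_j A` (inside `U = A`, strongly typical set `A'`) and
`inn G_j B` (`U = B`, `B'`).  Degrees: a vertex of `A'` misses at most
`ε n + |A \ A'| + ρ n + O(1)` vertices of `A`; all vertices of `A` have degree `≥ (τ - ρ) n - O(1)`.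
-/

open Finset

namespace H15C6

theorem e1c_par {V : Type} [DecidableEq V] [Fintype V] {E : Finset (Sym2 V)} {A B : Finset V}
    (hl : Loopless E) (hd : Disjoint A B) (hc : A ∪ B = Finset.univ) :
    ∑ x ∈ A, deg E x = 2 * (inn E A).card + (crs E A B).card := by
  unfold deg
  simp_rw [Finset.card_filter]
  rw [Finset.sum_comm]
  have h1 : (inn E A).card = ∑ e ∈ E, if e ∈ A.sym2 then 1 else 0 := by
    rw [← Finset.card_filter, inn, Finset.filter_mem_eq_inter]
  have h2 : (crs E A B).card = ∑ e ∈ E, if e ∉ A.sym2 ∧ e ∉ B.sym2 then 1 else 0 := by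
    rw [← Finset.card_filter]
    congr 1
    ext e
    simp only [crs, Finset.mem_sdiff, Finset.mem_filter]
    tauto
  rw [h1, h2, Finset.mul_sum, ← Finset.sum_add_distrib]
  have hB : ∀ x, x ∈ B ↔ x ∉ A := by
    intro x
    constructor
    · exact fun hx hx' => (Finset.disjoint_left.1 hd) hx' hx
    · intro hx
      have : x ∈ A ∪ B := by rw [hc]; exact Finset.mem_univ x
      exact (Finset.mem_union.1 this).resolve_left hx
  refine Finset.sum_congr rfl fun e he => ?_
  induction e using Sym2.ind with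
  | _ a b =>
    have hab : a ≠ b := hl.ne he
    simp only [Finset.mk_mem_sym2_iff, Sym2.mem_iff, hB]
    rw [← Finset.card_filter]
    by_cases ha : a ∈ A <;> by_cases hb : b ∈ A
    · have h3 : A.filter (fun x => x = a ∨ x = b) = {a, b} := by
        ext x
        simp only [Finset.mem_filter, Finset.mem_insert, Finset.mem_singleton]
        constructor
        · exact fun h => h.2
        · rintro (rfl | rfl)
          · exact ⟨ha, Or.inl rfl⟩
          · exact ⟨hb, Or.inr rfl⟩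
      rw [h3, Finset.card_pair hab]
      simp [ha, hb]
    · have h3 : A.filter (fun x => x = a ∨ x = b) = {a} := by
        ext x
        simp only [Finset.mem_filter, Finset.mem_singleton]
        constructor
        · rintro ⟨h, rfl | rfl⟩
          · rfl
          · exact absurd h hb
        · rintro rfl
          exact ⟨ha, Or.inl rfl⟩
      rw [h3]
      simp [ha, hb]
    · have h3 : A.filter (fun x => x = a ∨ x = b) = {b} := by
        ext x
        simp only [Finset.mem_filter, Finset.mem_singleton]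
        constructor
        · rintro ⟨h, rfl | rfl⟩
          · exact absurd h ha
          · rfl
        · rintro rfl
          exact ⟨hb, Or.inr rfl⟩
      rw [h3]
      simp [ha, hb]
    · have h3 : A.filter (fun x => x = a ∨ x = b) = ∅ := by
        ext x
        simp only [Finset.mem_filter, Finset.notMem_empty, iff_false]
        rintro ⟨h, rfl | rfl⟩
        · exact ha h
        · exact hb h
      rw [h3]
      simp [ha, hb]

/-- an even graph has an even number of cross edges -/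
theorem e1c_even_crs {V : Type} [DecidableEq V] [Fintype V] {E : Finset (Sym2 V)} {A B : Finset V}
    (hl : Loopless E) (he : EvenDeg E) (hd : Disjoint A B) (hc : A ∪ B = Finset.univ) :
    Even (crs E A B).card := by
  have h1 := e1c_par hl hd hc
  have h2 : Even (∑ x ∈ A, deg E x) := by
    refine Finset.sum_induction _ Even (fun a b => Even.add) Even.zero (fun x _ => he x)
  rw [h1] at h2
  have h3 : Even (2 * (inn E A).card) := even_two_mul _
  exact (Nat.even_add.1 h2).1 h3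

/-- if there are no cross edges, the part inside `A` has even degrees -/
theorem e1c_even_inn {V : Type} [DecidableEq V] {G : Finset (Sym2 V)} {A B : Finset V}
    (he : EvenDeg G) (hd : Disjoint A B) (hG : ∀ e ∈ G, e ∈ A.sym2 ∨ e ∈ B.sym2) :
    EvenDeg (inn G A) := by
  intro x
  by_cases hx : x ∈ A
  · have h1 : deg (inn G A) x = deg G x := by
      unfold deg inn
      congr 1
      ext e
      simp only [Finset.mem_filter, Finset.mem_inter]
      constructor
      · rintro ⟨⟨h1, h2⟩, h3⟩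
        exact ⟨h1, h3⟩
      · rintro ⟨h1, h3⟩
        refine ⟨⟨h1, ?_⟩, h3⟩
        rcases hG e h1 with h | h
        · exact h
        · exfalso
          rw [Finset.mem_sym2_iff] at h
          exact (Finset.disjoint_left.1 hd) hx (h x h3)
    rw [h1]
    exact he x
  · have h1 : deg (inn G A) x = 0 := by
      unfold deg inn
      rw [Finset.card_eq_zero, Finset.filter_eq_empty_iff]
      intro e h1 h3
      rw [Finset.mem_inter, Finset.mem_sym2_iff] at h1
      exact hx (h1.2 x h3)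
    rw [h1]
    exact Even.zero

/-- degrees in the part inside `A` of `E \ D \ Q` -/
theorem e1c_deg {V : Type} [DecidableEq V] {E D F H Q : Finset (Sym2 V)} {A : Finset V}
    (hD : D ⊆ F ∪ H) (hF : ∀ e ∈ F, e ∉ A.sym2) {u : V} (hu : u ∈ A) :
    dg E A u ≤ deg (inn ((E \ D) \ Q) A) u + deg (D ∩ H) u + deg Q u := by
  have h1 := dg_le_sdiff_add E ((D ∩ H) ∪ Q) A u
  have h2 := deg_union_le (D ∩ H) Q u
  have h3 : dg (E \ ((D ∩ H) ∪ Q)) A u ≤ dg (inn ((E \ D) \ Q) A) A u := by
    unfold dg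
    refine Finset.card_le_card fun y hy => ?_
    rw [Finset.mem_filter] at hy ⊢
    obtain ⟨hyA, hy⟩ := hy
    refine ⟨hyA, ?_⟩
    have hAs : s(u, y) ∈ A.sym2 := Finset.mk_mem_sym2_iff.2 ⟨hu, hyA⟩
    rw [Finset.mem_sdiff, Finset.mem_union, not_or, Finset.mem_inter] at hy
    rw [inn, Finset.mem_inter, Finset.mem_sdiff, Finset.mem_sdiff]
    refine ⟨⟨⟨hy.1, fun hyD => ?_⟩, hy.2.2⟩, hAs⟩
    rcases Finset.mem_union.1 (hD hyD) with h | h
    · exact hF _ h hAs
    · exact hy.2.1 ⟨hyD, h⟩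
  have h4 := dg_le_deg (inn ((E \ D) \ Q) A) A u
  omega

/-- the decomposition of one half -/
theorem e1c_half {V : Type} [Fintype V] [DecidableEq V] {c ε₁ ε ρ τ : ℝ} {n1 : ℕ}
    (hnct : ∀ (V : Type) [Fintype V] [DecidableEq V] (U A : Finset V)
      (E : Finset (Sym2 V)), n1 ≤ U.card → A ⊆ U → E ⊆ U.sym2 → Loopless E → EvenDeg E →
      6 ∣ E.card → ((U \ A).card : ℝ) ≤ ε₁ * U.card →
      (∀ a ∈ A, (1 - ε₁) * (U.card : ℝ) ≤ (deg E a : ℝ)) →
      (∀ u ∈ U, c * (U.card : ℝ) ≤ (deg E u : ℝ)) → Dec E)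
    (hc : c = τ / 4) (hτ : 0 < τ) (hε : ε ≤ ε₁ / 48) (hε4 : ε ≤ 1 / 4)
    (hε₁ : 0 < ε₁) (hρ₁ : ρ ≤ ε₁ / 16)
    (hρ₂ : ρ ≤ τ / 4) (hn1 : (n1 : ℝ) ≤ nV V / 4) (hn2 : 30 ≤ ε₁ / 16 * nV V)
    (hn3 : 30 ≤ τ / 4 * nV V)
    {E D F H Q : Finset (Sym2 V)} {A B A' : Finset V} (hd : Disjoint A B)
    (hAB : A ∪ B = Finset.univ) (hA' : A' ⊆ A)
    (hD : D ⊆ F ∪ H) (hF : ∀ e ∈ F, e ∉ A.sym2) (hl : Loopless E)
    (hcr : ∀ e ∈ (E \ D) \ Q, e ∈ A.sym2 ∨ e ∈ B.sym2) (hev : EvenDeg ((E \ D) \ Q))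
    (h6 : 6 ∣ (inn ((E \ D) \ Q) A).card) (hQ : Q.card ≤ 30)
    (hDH : ∀ v, (deg (D ∩ H) v : ℝ) ≤ ρ * nV V)
    (hsA : (1 / 2 - ε) * nV V ≤ (A'.card : ℝ)) (hsB : (1 / 2 - ε) * nV V ≤ (B.card : ℝ))
    (hnA : ∀ a ∈ A', ((A'.filter (fun y => s(a, y) ∉ E)).card : ℝ) ≤ ε * nV V)
    (hlow : ∀ u ∈ A, τ * nV V ≤ (dg E A u : ℝ)) :
    Dec (inn ((E \ D) \ Q) A) := by
  have hn0 : (0 : ℝ) ≤ nV V := Nat.cast_nonneg _
  have hcardAB : (A.card : ℝ) + B.card = nV V := by
    have h1 : (A ∪ B).card = A.card + B.card := Finset.card_union_of_disjoint hd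
    rw [hAB, Finset.card_univ] at h1
    rw [nV, h1]
    push_cast
    ring
  have hAle : (A.card : ℝ) ≤ (1 / 2 + ε) * nV V := by linarith
  have hA'le : (A'.card : ℝ) ≤ A.card := by exact_mod_cast Finset.card_le_card hA'
  have hAge : nV V / 4 ≤ (A.card : ℝ) := by
    have : (1 / 4 : ℝ) * nV V ≤ (1 / 2 - ε) * nV V := mul_le_mul_of_nonneg_right (by linarith) hn0
    linarith
  have hAn : (A.card : ℝ) ≤ nV V := by
    have : (0 : ℝ) ≤ B.card := Nat.cast_nonneg _
    linarith
  have hdeg : ∀ u ∈ A, (dg E A u : ℝ) - ρ * nV V - 30 ≤ (deg (inn ((E \ D) \ Q) A) u : ℝ) := by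
    intro u hu
    have h1 := e1c_deg (E := E) (Q := Q) hD hF hu
    have h2 := hDH u
    have h3 : deg Q u ≤ 30 := (Finset.card_filter_le _ _).trans hQ
    have h4 : (dg E A u : ℝ) ≤ (deg (inn ((E \ D) \ Q) A) u : ℝ) + deg (D ∩ H) u + 30 := by
      have : dg E A u ≤ deg (inn ((E \ D) \ Q) A) u + deg (D ∩ H) u + 30 := by omega
      exact_mod_cast this
    linarith
  have hcardsd : ((A \ A').card : ℝ) = A.card - A'.card := by
    rw [Finset.card_sdiff_of_subset hA', Nat.cast_sub (Finset.card_le_card hA')]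
  have hεn : ε * nV V ≤ ε₁ / 48 * nV V := mul_le_mul_of_nonneg_right hε hn0
  have hρn1 : ρ * nV V ≤ ε₁ / 16 * nV V := mul_le_mul_of_nonneg_right hρ₁ hn0
  have hρn2 : ρ * nV V ≤ τ / 4 * nV V := mul_le_mul_of_nonneg_right hρ₂ hn0
  have hεA : ε₁ / 4 * nV V ≤ ε₁ * A.card := by
    have := mul_le_mul_of_nonneg_left hAge hε₁.le
    linarith
  refine hnct V A A' (inn ((E \ D) \ Q) A) ?_ hA' Finset.inter_subset_right ?_ ?_ h6 ?_ ?_ ?_
  · have : (n1 : ℝ) ≤ A.card := by linarith
    exact_mod_cast this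
  · exact hl.mono (Finset.inter_subset_left.trans (Finset.sdiff_subset.trans Finset.sdiff_subset))
  · exact e1c_even_inn hev hd hcr
  · rw [hcardsd]
    nlinarith
  · intro a ha
    have h1 := hdeg a (hA' ha)
    have h2 : (A'.card : ℝ) - ε * nV V ≤ dg E A a := by
      have h3 : A'.card ≤ dg E A' a + (A'.filter (fun y => s(a, y) ∉ E)).card := by
        unfold dg
        rw [Finset.card_filter_add_card_filter_not]
      have h4 : (A'.card : ℝ) ≤ dg E A' a + (A'.filter (fun y => s(a, y) ∉ E)).card := by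
        exact_mod_cast h3
      have h5 : (dg E A' a : ℝ) ≤ dg E A a := by exact_mod_cast dg_mono_right E hA' a
      have h6 := hnA a ha
      linarith
    nlinarith
  · intro u hu
    have h1 := hdeg u hu
    have h2 := hlow u hu
    have h3 : τ / 4 * (A.card : ℝ) ≤ τ / 4 * nV V :=
      mul_le_mul_of_nonneg_left hAn (by linarith)
    rw [hc]
    nlinarith

theorem e1c_card_inn {V : Type} [DecidableEq V] {E D Q : Finset (Sym2 V)} {A : Finset V}
    (hD : D ⊆ E) (hQ : Q ⊆ E) (hDQ : Disjoint D Q) :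
    (inn ((E \ D) \ Q) A).card + (inn D A).card + (inn Q A).card = (inn E A).card := by
  have h1 : inn E A = (inn ((E \ D) \ Q) A ∪ inn D A) ∪ inn Q A := by
    ext e
    simp only [inn, Finset.mem_union, Finset.mem_inter, Finset.mem_sdiff]
    constructor
    · rintro ⟨h1, h2⟩
      by_cases hD' : e ∈ D
      · exact Or.inl (Or.inr ⟨hD', h2⟩)
      · by_cases hQ' : e ∈ Q
        · exact Or.inr ⟨hQ', h2⟩
        · exact Or.inl (Or.inl ⟨⟨⟨h1, hD'⟩, hQ'⟩, h2⟩)
    · rintro ((⟨⟨⟨h1, _⟩, _⟩, h2⟩ | ⟨h1, h2⟩) | ⟨h1, h2⟩)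
      · exact ⟨h1, h2⟩
      · exact ⟨hD h1, h2⟩
      · exact ⟨hQ h1, h2⟩
  have h2 : Disjoint (inn ((E \ D) \ Q) A) (inn D A) := by
    rw [Finset.disjoint_left]
    intro e he he'
    simp only [inn, Finset.mem_inter, Finset.mem_sdiff] at he he'
    exact he.1.1.2 he'.1
  have h3 : Disjoint (inn ((E \ D) \ Q) A ∪ inn D A) (inn Q A) := by
    rw [Finset.disjoint_left]
    intro e he he'
    simp only [inn, Finset.mem_inter, Finset.mem_sdiff, Finset.mem_union] at he he'
    rcases he with he | he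
    · exact he.1.2 he'.1
    · exact (Finset.disjoint_left.1 hDQ) he.1 he'.1
  rw [h1, Finset.card_union_of_disjoint h3, Finset.card_union_of_disjoint h2]

theorem e1c_env_mono {V : Type} [Fintype V] [DecidableEq V] {E : Finset (Sym2 V)} {ε ε' τ : ℝ}
    {A0 B0 X A' B' : Finset V} (h : Env1 E ε τ A0 B0 X A' B') (hε : ε ≤ ε') :
    Env1 E ε' τ A0 B0 X A' B' := by
  have hn0 : (0 : ℝ) ≤ nV V := Nat.cast_nonneg _
  have h1 : ε * nV V ≤ ε' * nV V := mul_le_mul_of_nonneg_right hε hn0
  exact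
    { dAB := h.dAB
      dAX := h.dAX
      dBX := h.dBX
      cover := h.cover
      subA := h.subA
      subB := h.subB
      sizeA := by have := h.sizeA; linarith
      sizeB := by have := h.sizeB; linarith
      nA := fun a ha => (h.nA a ha).trans h1
      nA' := fun a ha => (h.nA' a ha).trans h1
      nB := fun a ha => (h.nB a ha).trans h1
      nB' := fun a ha => (h.nB' a ha).trans h1
      tA := h.tA
      tB := h.tB
      mX := h.mX
      mindeg := h.mindeg }

/-- the union of the chosen cycles of the switches -/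
def e1cQ {V : Type} [DecidableEq V] (c0 c1 : Fin 5 → Finset (Sym2 V)) (j : ℕ) :
    Finset (Sym2 V) := Finset.univ.biUnion (fun i : Fin 5 => if (i : ℕ) < j then c1 i else c0 i)

theorem e1c_card_Q_inn {V : Type} [DecidableEq V] {c0 c1 : Fin 5 → Finset (Sym2 V)}
    {A : Finset V} (h1 : ∀ i, (inn (c1 i) A).card = (inn (c0 i) A).card + 1)
    (h2 : ∀ i j, i ≠ j → Disjoint (c0 i ∪ c1 i) (c0 j ∪ c1 j)) (j : ℕ) (hj : j ≤ 5) :
    (inn (e1cQ c0 c1 j) A).card = (inn (e1cQ c0 c1 0) A).card + j := by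
  have hsub : ∀ (j : ℕ) (i : Fin 5), (if (i : ℕ) < j then c1 i else c0 i) ⊆ c0 i ∪ c1 i := by
    intro j i
    split_ifs
    · exact Finset.subset_union_right
    · exact Finset.subset_union_left
  have key : ∀ j : ℕ, (inn (e1cQ c0 c1 j) A).card =
      ∑ i : Fin 5, (inn (if (i : ℕ) < j then c1 i else c0 i) A).card := by
    intro j
    have h3 : inn (e1cQ c0 c1 j) A = Finset.univ.biUnion
        (fun i : Fin 5 => inn (if (i : ℕ) < j then c1 i else c0 i) A) := by
      ext e
      simp only [inn, e1cQ, Finset.mem_inter, Finset.mem_biUnion, Finset.mem_univ, true_and]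
      constructor
      · rintro ⟨⟨i, hi⟩, h⟩
        exact ⟨i, hi, h⟩
      · rintro ⟨i, hi, h⟩
        exact ⟨⟨i, hi⟩, h⟩
    rw [h3, Finset.card_biUnion]
    intro i _ i' _ hii'
    refine Finset.disjoint_of_subset_left (Finset.inter_subset_left.trans (hsub j i)) ?_
    refine Finset.disjoint_of_subset_right (Finset.inter_subset_left.trans (hsub j i')) ?_
    exact h2 i i' hii'
  rw [key, key]
  have h4 : ∀ i : Fin 5, (inn (if (i : ℕ) < j then c1 i else c0 i) A).card =
      (inn (if (i : ℕ) < 0 then c1 i else c0 i) A).card + (if (i : ℕ) < j then 1 else 0) := by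
    intro i
    simp only [Nat.not_lt_zero, if_false]
    split_ifs
    · exact h1 i
    · rfl
  rw [Finset.sum_congr rfl (fun i _ => h4 i), Finset.sum_add_distrib]
  congr 1
  interval_cases j <;> rfl

theorem fin1 (τ : ℝ) (hτ : 0 < τ) (hτ' : τ ≤ 1 / 20) :
    ∃ ε : ℝ, 0 < ε ∧ ∃ n0 : ℕ, ∀ (V : Type) [Fintype V] [DecidableEq V]
      (E : Finset (Sym2 V)) (A0 B0 X A' B' : Finset V), n0 ≤ Fintype.card V → Loopless E →
      EvenDeg E → 6 ∣ E.card → Env1 E ε τ A0 B0 X A' B' → Switch5 E (A0 ∪ X) B0 → Dec E := by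
  obtain ⟨ε₁, hε₁, n1, hnct⟩ := nct (τ / 4) (by linarith)
  obtain ⟨ρ, hρ⟩ : ∃ ρ : ℝ, ρ = min (τ / 4) (ε₁ / 16) := ⟨_, rfl⟩
  have hρ0 : 0 < ρ := by rw [hρ]; exact lt_min (by linarith) (by linarith)
  have hρ1 : ρ ≤ τ / 4 := by rw [hρ]; exact min_le_left _ _
  have hρ2 : ρ ≤ ε₁ / 16 := by rw [hρ]; exact min_le_right _ _
  obtain ⟨ε₂, θ, hε₂, hθ, n2, hproc⟩ := proc1 τ ρ hτ hτ' hρ0
  obtain ⟨ε, hε⟩ : ∃ ε : ℝ, ε = min (min ε₂ (ε₁ / 48)) (1 / 20) := ⟨_, rfl⟩
  have hε0 : 0 < ε := by
    rw [hε]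
    exact lt_min (lt_min hε₂ (by linarith)) (by norm_num)
  have hε1 : ε ≤ ε₂ := by rw [hε]; exact (min_le_left _ _).trans (min_le_left _ _)
  have hε2 : ε ≤ ε₁ / 48 := by rw [hε]; exact (min_le_left _ _).trans (min_le_right _ _)
  have hε3 : ε ≤ 1 / 20 := by rw [hε]; exact min_le_right _ _
  obtain ⟨n3, hn3⟩ := exists_nat_ge (max (max (4 * (n1 : ℝ)) (60 / θ))
    (max (480 / ε₁) (max (120 / τ) 10)))
  refine ⟨ε, hε0, max n2 n3, ?_⟩
  intro V _ _ E A0 B0 X A' B' hn hl hev h6 henv hsw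
  have hnn2 : n2 ≤ Fintype.card V := (le_max_left _ _).trans hn
  have hnn3 : (n3 : ℝ) ≤ nV V := by
    rw [nV]
    exact_mod_cast (le_max_right n2 n3).trans hn
  have hb := hn3.trans hnn3
  have hb1 : 4 * (n1 : ℝ) ≤ nV V := ((le_max_left _ _).trans (le_max_left _ _)).trans hb
  have hb2 : 60 ≤ θ * nV V := by
    have := ((le_max_right _ _).trans (le_max_left _ _)).trans hb
    rw [div_le_iff₀ hθ] at this
    linarith
  have hb3 : 30 ≤ ε₁ / 16 * nV V := by
    have := ((le_max_left _ _).trans (le_max_right _ _)).trans hb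
    rw [div_le_iff₀ hε₁] at this
    linarith
  have hb4 : 30 ≤ τ / 4 * nV V := by
    have := ((le_max_left _ _).trans ((le_max_right _ _).trans (le_max_right _ _))).trans hb
    rw [div_le_iff₀ hτ] at this
    linarith
  have hb5 : (10 : ℝ) ≤ nV V :=
    ((le_max_right _ _).trans ((le_max_right _ _).trans (le_max_right _ _))).trans hb
  have hn0 : (0 : ℝ) ≤ nV V := by linarith
  obtain ⟨A, hA⟩ : ∃ A : Finset V, A = A0 ∪ X := ⟨_, rfl⟩
  rw [← hA] at hsw
  obtain ⟨c0, c1, hsw1, hsw2⟩ := hsw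
  have hdAB : Disjoint A B0 := by
    rw [hA, Finset.disjoint_union_left]
    exact ⟨henv.dAB, henv.dBX.symm⟩
  have hcov : A ∪ B0 = Finset.univ := by
    rw [hA, Finset.union_right_comm]
    exact henv.cover
  obtain ⟨Sw, hSw⟩ : ∃ Sw : Finset (Sym2 V), Sw = Finset.univ.biUnion (fun i => c0 i ∪ c1 i) :=
    ⟨_, rfl⟩
  have hSwcard : Sw.card ≤ 60 := by
    rw [hSw]
    refine Finset.card_biUnion_le.trans ?_
    calc ∑ i : Fin 5, (c0 i ∪ c1 i).card ≤ ∑ i : Fin 5, 12 := by
          refine Finset.sum_le_sum fun i _ => ?_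
          refine (Finset.card_union_le _ _).trans ?_
          rw [(hsw1 i).1.card, (hsw1 i).2.1.card]
      _ = 60 := by simp
  obtain ⟨F, hF⟩ : ∃ F : Finset (Sym2 V), F = crs E A B0 \ Sw := ⟨_, rfl⟩
  obtain ⟨H, hH⟩ : ∃ H : Finset (Sym2 V), H = (inn E A ∪ inn E B0) \ Sw := ⟨_, rfl⟩
  have hQE : ∀ j, e1cQ c0 c1 j ⊆ E := by
    intro j e he
    rw [e1cQ, Finset.mem_biUnion] at he
    obtain ⟨i, -, hi⟩ := he
    split_ifs at hi
    · exact (hsw1 i).2.2.2.1 hi
    · exact (hsw1 i).2.2.1 hi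
  have hQSw : ∀ j, e1cQ c0 c1 j ⊆ Sw := by
    intro j e he
    rw [e1cQ, Finset.mem_biUnion] at he
    obtain ⟨i, -, hi⟩ := he
    rw [hSw, Finset.mem_biUnion]
    refine ⟨i, Finset.mem_univ i, ?_⟩
    split_ifs at hi
    · exact Finset.mem_union_right _ hi
    · exact Finset.mem_union_left _ hi
  have hcrsQ : ∀ j, ∀ e ∈ Sw, e ∉ A.sym2 → e ∉ B0.sym2 → e ∈ e1cQ c0 c1 j := by
    intro j e he h1 h2
    rw [hSw, Finset.mem_biUnion] at he
    obtain ⟨i, -, hi⟩ := he
    have h3 := (hsw1 i).2.2.2.2.1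
    have h4 : e ∈ c0 i ↔ e ∈ c1 i := by
      have h5 : e ∈ crs (c0 i) A B0 ↔ e ∈ crs (c1 i) A B0 := by rw [h3]
      simp only [crs, Finset.mem_sdiff, h1, h2, not_false_eq_true, and_true] at h5
      exact h5
    rw [e1cQ, Finset.mem_biUnion]
    refine ⟨i, Finset.mem_univ i, ?_⟩
    rw [Finset.mem_union] at hi
    split_ifs
    · rcases hi with hi | hi
      · exact h4.1 hi
      · exact hi
    · rcases hi with hi | hi
      · exact hi
      · exact h4.2 hi
  have hQDec : ∀ j, Dec (e1cQ c0 c1 j) := by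
    intro j
    refine Dec.biUnion ?_ ?_
    · intro i _
      split_ifs
      · exact (hsw1 i).2.1.dec
      · exact (hsw1 i).1.dec
    · intro i _ i' _ hne
      refine Finset.disjoint_of_subset_left ?_ (Finset.disjoint_of_subset_right ?_ (hsw2 i i' hne))
      · split_ifs
        · exact Finset.subset_union_right
        · exact Finset.subset_union_left
      · split_ifs
        · exact Finset.subset_union_right
        · exact Finset.subset_union_left
  have hQcard : ∀ j, (e1cQ c0 c1 j).card ≤ 30 := by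
    intro j
    refine Finset.card_biUnion_le.trans ?_
    calc ∑ i : Fin 5, (if (i : ℕ) < j then c1 i else c0 i).card ≤ ∑ i : Fin 5, 6 := by
          refine Finset.sum_le_sum fun i _ => ?_
          split_ifs
          · rw [(hsw1 i).2.1.card]
          · rw [(hsw1 i).1.card]
      _ = 30 := by simp
  have hFeven : Even F.card := by
    have h1 : F = crs (E \ e1cQ c0 c1 0) A B0 := by
      rw [hF]
      ext e
      simp only [crs, Finset.mem_sdiff]
      constructor
      · rintro ⟨⟨⟨h1, h2⟩, h3⟩, h4⟩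
        exact ⟨⟨⟨h1, fun h => h4 (hQSw 0 h)⟩, h2⟩, h3⟩
      · rintro ⟨⟨⟨h1, h4⟩, h2⟩, h3⟩
        exact ⟨⟨⟨h1, h2⟩, h3⟩, fun h => h4 (hcrsQ 0 e h h2 h3)⟩
    rw [h1]
    exact e1c_even_crs (hl.mono Finset.sdiff_subset) (hev.sdiff (hQDec 0).even (hQE 0)) hdAB hcov
  have hdegSw : ∀ (G : Finset (Sym2 V)), G ⊆ Sw → ∀ v, (deg G v : ℝ) ≤ θ * nV V := by
    intro G hG v
    have h1 : deg G v ≤ 60 :=
      ((Finset.card_filter_le _ _).trans (Finset.card_le_card hG)).trans hSwcard
    have h2 : (deg G v : ℝ) ≤ 60 := by exact_mod_cast h1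
    linarith
  obtain ⟨D, hDdec, hFD, hDFH, hDH⟩ := hproc V E F H A0 B0 X A' B' hnn2 hl
    (e1c_env_mono henv hε1) (by rw [hF, hA]; exact Finset.sdiff_subset) hFeven
    (by rw [hH, hA]; exact Finset.sdiff_subset)
    (by
      intro v
      refine hdegSw _ ?_ v
      rw [hH, hA]
      intro e he
      rw [Finset.mem_sdiff, Finset.mem_sdiff] at he
      by_contra h
      exact he.2 ⟨he.1, h⟩)
    (by
      intro v _
      refine hdegSw _ ?_ v
      rw [hF, hA]
      intro e he
      rw [Finset.mem_sdiff, Finset.mem_sdiff] at he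
      by_contra h
      exact he.2 ⟨he.1, h⟩)
  have hDSw : Disjoint D Sw := by
    rw [Finset.disjoint_left]
    intro e he heS
    rcases Finset.mem_union.1 (hDFH he) with h | h
    · rw [hF, Finset.mem_sdiff] at h
      exact h.2 heS
    · rw [hH, Finset.mem_sdiff] at h
      exact h.2 heS
  have hDE : D ⊆ E := by
    intro e he
    rcases Finset.mem_union.1 (hDFH he) with h | h
    · rw [hF, Finset.mem_sdiff, crs, Finset.mem_sdiff, Finset.mem_sdiff] at h
      exact h.1.1.1
    · rw [hH, Finset.mem_sdiff, Finset.mem_union, inn, inn, Finset.mem_inter,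
        Finset.mem_inter] at h
      rcases h.1 with h | h
      · exact h.1
      · exact h.1
  have hDQ : ∀ j, Disjoint D (e1cQ c0 c1 j) := fun j =>
    Finset.disjoint_of_subset_right (hQSw j) hDSw
  -- the choice of `j`
  obtain ⟨j, hj⟩ : ∃ j : ℕ, j = (inn ((E \ D) \ e1cQ c0 c1 0) A).card % 6 := ⟨_, rfl⟩
  have hj5 : j ≤ 5 := by omega
  obtain ⟨Q, hQ⟩ : ∃ Q : Finset (Sym2 V), Q = e1cQ c0 c1 j := ⟨_, rfl⟩
  have hcA : 6 ∣ (inn ((E \ D) \ Q) A).card := by
    have h1 := e1c_card_inn (A := A) hDE (hQE j) (hDQ j)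
    have h2 := e1c_card_inn (A := A) hDE (hQE 0) (hDQ 0)
    have h3 := e1c_card_Q_inn (A := A) (fun i => (hsw1 i).2.2.2.2.2) hsw2 j hj5
    rw [hQ]
    omega
  have hcrG : ∀ e ∈ (E \ D) \ Q, e ∈ A.sym2 ∨ e ∈ B0.sym2 := by
    intro e he
    rw [Finset.mem_sdiff, Finset.mem_sdiff] at he
    by_contra h
    rw [not_or] at h
    by_cases hS : e ∈ Sw
    · refine he.2 ?_
      rw [hQ]
      exact hcrsQ j e hS h.1 h.2
    · refine he.1.2 (hFD ?_)
      rw [hF, Finset.mem_sdiff, crs, Finset.mem_sdiff, Finset.mem_sdiff]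
      exact ⟨⟨⟨he.1.1, h.1⟩, h.2⟩, hS⟩
  have hQsub : Q ⊆ E \ D := by
    intro e he
    rw [Finset.mem_sdiff]
    rw [hQ] at he
    exact ⟨hQE j he, fun h => (Finset.disjoint_left.1 (hDQ j)) h he⟩
  have hQDec' : Dec Q := by rw [hQ]; exact hQDec j
  have hevG : EvenDeg ((E \ D) \ Q) := (hev.sdiff hDdec.even hDE).sdiff hQDec'.even hQsub
  have hGsplit : (E \ D) \ Q = inn ((E \ D) \ Q) A ∪ inn ((E \ D) \ Q) B0 := by
    ext e
    rw [Finset.mem_union, inn, inn, Finset.mem_inter, Finset.mem_inter]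
    constructor
    · intro he
      rcases hcrG e he with h | h
      · exact Or.inl ⟨he, h⟩
      · exact Or.inr ⟨he, h⟩
    · rintro (h | h)
      · exact h.1
      · exact h.1
  have hGdisj : Disjoint (inn ((E \ D) \ Q) A) (inn ((E \ D) \ Q) B0) := by
    rw [Finset.disjoint_left]
    intro e he he'
    rw [inn, Finset.mem_inter] at he he'
    induction e using Sym2.ind with
    | _ a b =>
      rw [Finset.mk_mem_sym2_iff] at he he'
      exact (Finset.disjoint_left.1 hdAB) he.2.1 he'.2.1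
  have hcG : 6 ∣ ((E \ D) \ Q).card := by
    have h1 : ((E \ D) \ Q).card + Q.card = (E \ D).card := by
      rw [← Finset.card_union_of_disjoint Finset.sdiff_disjoint, Finset.sdiff_union_of_subset hQsub]
    have h2 : (E \ D).card + D.card = E.card := by
      rw [← Finset.card_union_of_disjoint Finset.sdiff_disjoint, Finset.sdiff_union_of_subset hDE]
    have h3 := hDdec.six_dvd
    have h4 := hQDec'.six_dvd
    omega
  have hcB : 6 ∣ (inn ((E \ D) \ Q) B0).card := by
    have h1 : ((E \ D) \ Q).card = (inn ((E \ D) \ Q) A).card + (inn ((E \ D) \ Q) B0).card := by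
      conv_lhs => rw [hGsplit]
      exact Finset.card_union_of_disjoint hGdisj
    omega
  -- sizes
  have hA'A : A' ⊆ A := by rw [hA]; exact henv.subA.trans Finset.subset_union_left
  have hsA := henv.sizeA
  have hsB := henv.sizeB
  have hA'le : (A'.card : ℝ) ≤ A.card := by exact_mod_cast Finset.card_le_card hA'A
  have hB'le : (B'.card : ℝ) ≤ B0.card := by exact_mod_cast Finset.card_le_card henv.subB
  have hcardAB : (A.card : ℝ) + B0.card = nV V := by
    have h1 : (A ∪ B0).card = A.card + B0.card := Finset.card_union_of_disjoint hdAB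
    rw [hcov, Finset.card_univ] at h1
    rw [nV, h1]
    push_cast
    ring
  have hεn : ε * nV V ≤ 1 / 20 * nV V := mul_le_mul_of_nonneg_right hε3 hn0
  have hτn : τ * nV V ≤ 1 / 20 * nV V := mul_le_mul_of_nonneg_right hτ' hn0
  have hdsum : ∀ u, deg E u = dg E A u + dg E B0 u := by
    intro u
    have h1 : deg E u = dg E Finset.univ u := deg_eq_dg (by
      intro e _
      rw [Finset.mem_sym2_iff]
      intro x _
      exact Finset.mem_univ x) u
    rw [h1, ← hcov]
    unfold dg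
    rw [Finset.filter_union, Finset.card_union_of_disjoint
      (Finset.disjoint_filter_filter hdAB)]
  have hdsub : ∀ (T T' : Finset V), T' ⊆ T → ∀ u, (dg E T u : ℝ) ≤ dg E T' u + (T.card - T'.card) := by
    intro T T' hT u
    have h1 : dg E T u ≤ dg E T' u + (T \ T').card := by
      unfold dg
      refine le_trans (Finset.card_le_card ?_) (Finset.card_union_le _ _)
      intro y hy
      rw [Finset.mem_filter] at hy
      rw [Finset.mem_union, Finset.mem_filter, Finset.mem_sdiff]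
      by_cases h : y ∈ T'
      · exact Or.inl ⟨h, hy.2⟩
      · exact Or.inr ⟨hy.1, h⟩
    have h2 : ((T \ T').card : ℝ) = T.card - T'.card := by
      rw [Finset.card_sdiff_of_subset hT, Nat.cast_sub (Finset.card_le_card hT)]
    have h3 : (dg E T u : ℝ) ≤ dg E T' u + (T \ T').card := by exact_mod_cast h1
    linarith
  have hmd : ∀ u, nV V ≤ 2 * ((dg E A u : ℝ) + dg E B0 u) + 1 := by
    intro u
    have h1 := henv.mindeg u
    rw [hdsum u] at h1
    rw [nV]
    exact_mod_cast h1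
  have hlowA : ∀ u ∈ A, τ * nV V ≤ (dg E A u : ℝ) := by
    intro u hu
    rw [hA, Finset.mem_union] at hu
    rcases hu with hu | hu
    · have h1 := henv.tA u hu
      have h2 := hdsub B0 B' henv.subB u
      have h3 := hmd u
      nlinarith
    · have h1 := (henv.mX u hu).1
      have h2 : (dg E A' u : ℝ) ≤ dg E A u := by exact_mod_cast dg_mono_right E hA'A u
      linarith
  have hlowB : ∀ u ∈ B0, τ * nV V ≤ (dg E B0 u : ℝ) := by
    intro u hu
    have h1 := henv.tB u hu
    have h2 := hdsub A A' hA'A u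
    have h3 := hmd u
    nlinarith
  have hFA : ∀ e ∈ F, e ∉ A.sym2 := by
    intro e he
    rw [hF, Finset.mem_sdiff, crs, Finset.mem_sdiff, Finset.mem_sdiff] at he
    exact he.1.1.2
  have hFB : ∀ e ∈ F, e ∉ B0.sym2 := by
    intro e he
    rw [hF, Finset.mem_sdiff, crs, Finset.mem_sdiff, Finset.mem_sdiff] at he
    exact he.1.2
  have hdA : Dec (inn ((E \ D) \ Q) A) :=
    e1c_half hnct rfl hτ hε2 (by linarith) hε₁ hρ2 hρ1 (by linarith) hb3 hb4 hdAB hcov hA'A
      hDFH hFA hl hcrG hevG hcA (by rw [hQ]; exact hQcard j) hDH hsA (hsB.trans hB'le) henv.nA hlowA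
  have hdB : Dec (inn ((E \ D) \ Q) B0) :=
    e1c_half hnct rfl hτ hε2 (by linarith) hε₁ hρ2 hρ1 (by linarith) hb3 hb4 hdAB.symm
      (by rw [Finset.union_comm]; exact hcov) henv.subB
      hDFH hFB hl (fun e he => (hcrG e he).symm) hevG hcB (by rw [hQ]; exact hQcard j) hDH hsB
      (hsA.trans hA'le) henv.nB hlowB
  have hG : Dec ((E \ D) \ Q) := by
    rw [hGsplit]
    exact hdA.union hdB hGdisj
  have hED : Dec (E \ D) := by
    rw [← Finset.sdiff_union_of_subset hQsub]
    exact hG.union hQDec' Finset.sdiff_disjoint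
  rw [← Finset.sdiff_union_of_subset hDE]
  exact hED.union hDdec Finset.sdiff_disjoint

end H15C6
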