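import Pool.Agent.H15.C6.E1A

/-!
Module E1T2 (part of E1T).  Extremal case 1: existence of five switches.  `A := A0 ∪ X`, `n = |V|`.
All auxiliary vertices are chosen in `A'`, `B'` (private, outside everything chosen before; every vertex of
`A'` is adjacent to all but `ε n` vertices of `A'`, etc.).

`sw_T1`: every vertex of `A0` has a neighbour in `B0`.  Choose greedily, for `i = 0..4`, `a, a' ∈ A'` adjacent with
neighbours `b ≠ b'` in `B0` (each `b ∈ B0` has at most `(τ + 2ε) n` neighbours in `A0`, so given `a, b` there is `a'`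
among the `≥ (1/2 - 2ε) n` neighbours of `a` in `A'` not adjacent to `b`), all ten `a`'s distinct.
`c0 = a b c c' b' a'` (path `b c c' b'`, inner edges of `A`: only `a'a`: 1), `c1 = a b c'' b' a' d` (2 inner edges of
`A`); all `c, c', c'', d` private.
`sw_T1'`: every vertex of `B0` has a neighbour in `A0`.  Symmetric choice of adjacent `b, b' ∈ B'` with
neighbours `a ≠ a'` in `A0`: `c0 = a b c b' a' d` (inner edges of `A`: 2), `c1 = b a d d' a' b'` with `b'b` an edge
(inner edges of `A`: 3).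
`sw_T2`: `x ∈ X` with `dg E A' x, dg E B' x ≥ 3τ n` and at least five edges `s(a_i,b_i)` between `A0` and `B0`.
For each choose private `b' ∈ B'` adjacent to `x` and to `b_i` (possible: `b_i` misses at most `(τ+4ε) n` vertices of
`B'`).  `c0 = a_i b_i c b' x d` (`c` common neighbour of `b_i, b'`; `d` common neighbour of `x, a_i`; inner edges of
`A`: 2), `c1 = a_i b_i b' x d' d''` (path `x d' d'' a_i`; inner edges of `A`: 3).
`sw_T3`: `x ≠ x' ∈ X` with at least `τ n` common neighbours in `A'`.  Five times: private `b, b' ∈ B'` with `x b`, `b b'`,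
`b' x'` edges; `c0 = x b c b' x' d` (`d` common neighbour of `x, x'` in `A'`; inner: 2),
`c1 = x b b' x' d' d''` (path of length three from `x'` to `x`; inner: 3).
-/

open Finset

namespace H15C6

/-- picking a vertex outside a small forbidden set -/
theorem e1t2_pick {V : Type} [DecidableEq V] (U Z : Finset V) (p q : V → Prop) [DecidablePred p]
    [DecidablePred q] {α β : ℝ} (h1 : α ≤ ((U.filter p).card : ℝ))
    (h2 : ((U.filter (fun y => ¬ q y)).card : ℝ) ≤ β) (h3 : (Z.card : ℝ) < α - β) :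
    ∃ y ∈ U, y ∉ Z ∧ p y ∧ q y := by
  by_contra hcon
  push Not at hcon
  have h0 : U.filter p ⊆ Z ∪ U.filter (fun y => ¬ q y) := by
    intro y hy
    rw [mem_filter] at hy
    rw [mem_union, mem_filter]
    by_cases hz : y ∈ Z
    · exact Or.inl hz
    · exact Or.inr ⟨hy.1, hcon y hy.1 hz hy.2⟩
  have h4 := (card_le_card h0).trans (card_union_le _ _)
  have h5 : ((U.filter p).card : ℝ) ≤ Z.card + (U.filter (fun y => ¬ q y)).card := by
    exact_mod_cast h4
  linarith

theorem e1t2_inj6 {V : Type} {a b c d e f : V} (h1 : a ≠ b) (h2 : a ≠ c) (h3 : a ≠ d)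
    (h4 : a ≠ e) (h5 : a ≠ f) (h6 : b ≠ c) (h7 : b ≠ d) (h8 : b ≠ e) (h9 : b ≠ f) (h10 : c ≠ d)
    (h11 : c ≠ e) (h12 : c ≠ f) (h13 : d ≠ e) (h14 : d ≠ f) (h15 : e ≠ f) :
    Function.Injective ![a, b, c, d, e, f] := by
  intro i j hij
  fin_cases i <;> fin_cases j <;> simp_all

theorem e1t2_mem_cyc {V : Type} [DecidableEq V] {a b c d e f : V} {t : Sym2 V} :
    t ∈ cyc ![a, b, c, d, e, f] ↔ t = s(a, b) ∨ t = s(b, c) ∨ t = s(c, d) ∨ t = s(d, e) ∨
      t = s(e, f) ∨ t = s(f, a) := by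
  rw [mem_cyc]
  constructor
  · rintro ⟨i, hi⟩
    fin_cases i <;> simp_all
  · rintro (h | h | h | h | h | h)
    · exact ⟨0, by simp [h]⟩
    · exact ⟨1, by simp [h]⟩
    · exact ⟨2, by simp [h]⟩
    · exact ⟨3, by simp [h]⟩
    · exact ⟨4, by simp [h]⟩
    · exact ⟨5, by simp [h]⟩

theorem e1t2_inn_card {V : Type} [DecidableEq V] {v : Fin 6 → V} (hv : Function.Injective v)
    (A : Finset V) :
    (inn (cyc v) A).card = (Finset.univ.filter (fun i : Fin 6 => v i ∈ A ∧ v (i + 1) ∈ A)).card := by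
  have : inn (cyc v) A =
      (Finset.univ.filter (fun i : Fin 6 => v i ∈ A ∧ v (i + 1) ∈ A)).image
        (fun i => s(v i, v (i + 1))) := by
    ext t
    simp only [inn, mem_inter, mem_cyc, mem_image, mem_filter, mem_univ, true_and]
    constructor
    · rintro ⟨⟨i, rfl⟩, h2⟩
      rw [Finset.mk_mem_sym2_iff] at h2
      exact ⟨i, h2, rfl⟩
    · rintro ⟨i, h1, rfl⟩
      exact ⟨⟨i, rfl⟩, Finset.mk_mem_sym2_iff.2 h1⟩
  rw [this, Finset.card_image_of_injective _ (cyc_inj hv)]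

/-- the two six-cycles of a switch with private vertices `P` -/
structure e1t2_Sw {V : Type} [DecidableEq V] (E : Finset (Sym2 V)) (A B : Finset V) (a b x : V)
    (P : Finset V) (c0 c1 : Finset (Sym2 V)) : Prop where
  h0 : IsC6 c0
  h1 : IsC6 c1
  s0 : c0 ⊆ E
  s1 : c1 ⊆ E
  cr : crs c0 A B = crs c1 A B
  ic : (inn c1 A).card = (inn c0 A).card + 1
  pr : ∀ e ∈ c0 ∪ c1, e = s(a, b) ∨ ∃ p ∈ P, p ∈ e
  vs : ∀ e ∈ c0 ∪ c1, ∀ v ∈ e, v ∈ P ∨ v = a ∨ v = b ∨ v = x

/-- greedy choice of private sets -/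
theorem e1t2_greedy {V : Type} [DecidableEq V] (K : ℕ) (Z0 : Finset V) :
    ∀ (m : ℕ) (Q : Fin m → Finset V → Prop),
      (∀ i, ∀ Z : Finset V, Z0 ⊆ Z → Z.card ≤ Z0.card + m * K →
        ∃ P : Finset V, P.card ≤ K ∧ Disjoint P Z ∧ Q i P) →
      ∃ P : Fin m → Finset V, (∀ i, Q i (P i)) ∧ (∀ i, (P i).card ≤ K) ∧
        (∀ i, Disjoint (P i) Z0) ∧ ∀ i j, i ≠ j → Disjoint (P i) (P j) := by
  intro m
  induction m with
  | zero =>
    intro Q _
    exact ⟨fun i => i.elim0, fun i => i.elim0, fun i => i.elim0, fun i => i.elim0,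
      fun i => i.elim0⟩
  | succ m ih =>
    intro Q hQ
    obtain ⟨P, h1, h2, h3, h4⟩ := ih (fun i => Q i.castSucc) (fun i Z hZ hc =>
      hQ i.castSucc Z hZ (hc.trans (Nat.add_le_add_left (Nat.mul_le_mul_right _ (Nat.le_succ m)) _)))
    have hcard : (Z0 ∪ Finset.univ.biUnion P).card ≤ Z0.card + (m + 1) * K := by
      refine (card_union_le _ _).trans (Nat.add_le_add_left ?_ _)
      refine (card_biUnion_le).trans ?_
      refine (Finset.sum_le_sum (fun i _ => h2 i)).trans ?_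
      simp only [sum_const, card_univ, Fintype.card_fin, smul_eq_mul]
      exact Nat.mul_le_mul_right _ (Nat.le_succ m)
    obtain ⟨R, r1, r2, r3⟩ := hQ (Fin.last m) (Z0 ∪ Finset.univ.biUnion P) subset_union_left hcard
    rw [disjoint_union_right] at r2
    have r4 : ∀ i, Disjoint R (P i) := by
      intro i
      have := r2.2
      rw [disjoint_biUnion_right] at this
      exact this i (mem_univ i)
    refine ⟨Fin.snoc P R, ?_, ?_, ?_, ?_⟩
    · intro i
      refine Fin.lastCases ?_ (fun i => ?_) i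
      · simpa using r3
      · simpa using h1 i
    · intro i
      refine Fin.lastCases ?_ (fun i => ?_) i
      · simpa using r1
      · simpa using h2 i
    · intro i
      refine Fin.lastCases ?_ (fun i => ?_) i
      · simpa using r2.1
      · simpa using h3 i
    · intro i
      refine Fin.lastCases ?_ (fun i => ?_) i
      · intro j
        refine Fin.lastCases ?_ (fun j => ?_) j
        · intro h; exact absurd rfl h
        · intro _
          simpa using r4 j
      · intro j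
        refine Fin.lastCases ?_ (fun j => ?_) j
        · intro _
          simpa using (r4 i).symm
        · intro hne
          simp only [Fin.snoc_castSucc]
          exact h4 i j (fun h => hne (by rw [h]))

/-- one switch -/
theorem e1t2_one {V : Type} [Fintype V] [DecidableEq V] {E : Finset (Sym2 V)} {τ : ℝ}
    {A0 B0 X A' B' : Finset V} (hτ : 0 < τ) (hτ' : τ ≤ 1 / 20) (hn : 1000 ≤ τ * nV V)
    (hl : Loopless E) (hE : Env1 E (τ / 10) τ A0 B0 X A' B') {x : V} (hx : x ∈ X)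
    (hxA : 3 * τ * nV V ≤ (dg E A' x : ℝ)) (hxB : 3 * τ * nV V ≤ (dg E B' x : ℝ))
    {a b : V} (ha : a ∈ A0) (hb : b ∈ B0) (hab : s(a, b) ∈ E) (Z : Finset V) (hZ : Z.card ≤ 100)
    (haZ : a ∈ Z) (hbZ : b ∈ Z) :
    ∃ P : Finset V, P.card ≤ 4 ∧ Disjoint P Z ∧
      ∃ c0 c1, e1t2_Sw E (A0 ∪ X) B0 a b x P c0 c1 := by
  obtain ⟨b1, b2, -, -, b5, b6, -⟩ := hE.basic hl
  have hnn : (20000 : ℝ) ≤ nV V := by nlinarith
  have hZ' : (Z.card : ℝ) ≤ 100 := by exact_mod_cast hZ
  -- number of non-neighbours of `b` in `B'`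
  have nb : ((B'.filter (fun y => ¬ s(b, y) ∈ E)).card : ℝ) ≤ (τ + 3 * (τ / 10)) * nV V + 1 := by
    have h1 := Finset.card_filter_add_card_filter_not (s := B') (fun y => s(b, y) ∈ E)
    have h2 : ((dg E B' b : ℕ) : ℝ) + ((B'.filter (fun y => ¬ s(b, y) ∈ E)).card : ℝ) = B'.card := by
      exact_mod_cast h1
    have h3 := b6 b hb
    linarith
  have na : ((A'.filter (fun y => ¬ s(a, y) ∈ E)).card : ℝ) ≤ (τ + 3 * (τ / 10)) * nV V + 1 := by
    have h1 := Finset.card_filter_add_card_filter_not (s := A') (fun y => s(a, y) ∈ E)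
    have h2 : ((dg E A' a : ℕ) : ℝ) + ((A'.filter (fun y => ¬ s(a, y) ∈ E)).card : ℝ) = A'.card := by
      exact_mod_cast h1
    have h3 := b5 a ha
    linarith
  obtain ⟨b', hb'1, hb'2, hb'3, hb'4⟩ := e1t2_pick B' Z (fun y => s(x, y) ∈ E)
    (fun y => s(b, y) ∈ E) hxB nb (by nlinarith)
  obtain ⟨c, hc1, hc2, hc3, hc4⟩ := e1t2_pick B' Z (fun y => s(b, y) ∈ E)
    (fun y => s(b', y) ∈ E) (b6 b hb) (hE.nB b' hb'1) (by nlinarith)
  obtain ⟨d, hd1, hd2, hd3, hd4⟩ := e1t2_pick A' Z (fun y => s(x, y) ∈ E)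
    (fun y => s(a, y) ∈ E) hxA na (by nlinarith)
  obtain ⟨e, he1, he2, he3, he4⟩ := e1t2_pick A' Z (fun y => s(a, y) ∈ E)
    (fun y => s(d, y) ∈ E) (b5 a ha) (hE.nA d hd1) (by nlinarith)
  -- memberships
  have mdA := hE.subA hd1
  have meA := hE.subA he1
  have mcB := hE.subB hc1
  have mbB := hE.subB hb'1
  have AB : ∀ {u w : V}, u ∈ A0 → w ∈ B0 → u ≠ w := fun hu hw h =>
    (Finset.disjoint_left.1 hE.dAB) hu (h ▸ hw)
  have AX : ∀ {u w : V}, u ∈ A0 → w ∈ X → u ≠ w := fun hu hw h =>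
    (Finset.disjoint_left.1 hE.dAX) hu (h ▸ hw)
  have BX : ∀ {u w : V}, u ∈ B0 → w ∈ X → u ≠ w := fun hu hw h =>
    (Finset.disjoint_left.1 hE.dBX) hu (h ▸ hw)
  have nz : ∀ {u w : V}, u ∈ Z → w ∉ Z → u ≠ w := fun hu hw h => hw (h ▸ hu)
  have inA : ∀ {u : V}, u ∈ A0 → u ∈ A0 ∪ X := fun hu => mem_union_left _ hu
  have nB : ∀ {u : V}, u ∈ A0 → u ∉ B0 := fun hu h => (Finset.disjoint_left.1 hE.dAB) hu h
  have nA : ∀ {u : V}, u ∈ B0 → u ∉ A0 ∪ X := by
    intro u hu h
    rw [mem_union] at h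
    rcases h with h | h
    · exact (Finset.disjoint_left.1 hE.dAB) h hu
    · exact (Finset.disjoint_left.1 hE.dBX) hu h
  have xA : x ∈ A0 ∪ X := mem_union_right _ hx
  have xB : x ∉ B0 := fun h => (Finset.disjoint_left.1 hE.dBX) h hx
  have i0 : Function.Injective ![a, b, c, b', x, d] :=
    e1t2_inj6 (AB ha hb) (AB ha mcB) (AB ha mbB) (AX ha hx) (nz haZ hd2) (nz hbZ hc2)
      (nz hbZ hb'2) (BX hb hx) (AB mdA hb).symm (hl.ne hc4).symm (BX mcB hx)
      (AB mdA mcB).symm (BX mbB hx) (AB mdA mbB).symm (AX mdA hx).symm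
  have i1 : Function.Injective ![a, b, b', x, d, e] :=
    e1t2_inj6 (AB ha hb) (AB ha mbB) (AX ha hx) (nz haZ hd2) (nz haZ he2) (nz hbZ hb'2)
      (BX hb hx) (AB mdA hb).symm (AB meA hb).symm (BX mbB hx) (AB mdA mbB).symm
      (AB meA mbB).symm (AX mdA hx).symm (AX meA hx).symm (hl.ne he4)
  refine ⟨{b', c, d, e}, ?_, ?_, cyc ![a, b, c, b', x, d], cyc ![a, b, b', x, d, e], ?_⟩
  · exact Finset.card_le_four
  · rw [Finset.disjoint_left]
    intro y hy
    simp only [mem_insert, mem_singleton] at hy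
    rcases hy with rfl | rfl | rfl | rfl <;> assumption
  · refine ⟨⟨_, i0, rfl⟩, ⟨_, i1, rfl⟩, ?_, ?_, ?_, ?_, ?_, ?_⟩
    · intro t ht
      rw [e1t2_mem_cyc] at ht
      rcases ht with rfl | rfl | rfl | rfl | rfl | rfl
      · exact hab
      · exact hc3
      · rw [Sym2.eq_swap]; exact hc4
      · rw [Sym2.eq_swap]; exact hb'3
      · exact hd3
      · rw [Sym2.eq_swap]; exact hd4
    · intro t ht
      rw [e1t2_mem_cyc] at ht
      rcases ht with rfl | rfl | rfl | rfl | rfl | rfl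
      · exact hab
      · exact hb'4
      · rw [Sym2.eq_swap]; exact hb'3
      · exact hd3
      · exact he4
      · rw [Sym2.eq_swap]; exact he3
    · have k0 : crs (cyc ![a, b, c, b', x, d]) (A0 ∪ X) B0 = {s(a, b), s(b', x)} := by
        ext t
        simp only [crs, mem_sdiff, e1t2_mem_cyc, mem_insert, mem_singleton]
        constructor
        · rintro ⟨⟨ht, h1⟩, h2⟩
          rcases ht with rfl | rfl | rfl | rfl | rfl | rfl
          · exact Or.inl rfl
          · exact absurd (Finset.mk_mem_sym2_iff.2 ⟨hb, mcB⟩) h2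
          · exact absurd (Finset.mk_mem_sym2_iff.2 ⟨mcB, mbB⟩) h2
          · exact Or.inr rfl
          · exact absurd (Finset.mk_mem_sym2_iff.2 ⟨xA, inA mdA⟩) h1
          · exact absurd (Finset.mk_mem_sym2_iff.2 ⟨inA mdA, inA ha⟩) h1
        · rintro (rfl | rfl)
          · exact ⟨⟨Or.inl rfl, fun h => nA hb (Finset.mk_mem_sym2_iff.1 h).2⟩,
              fun h => nB ha (Finset.mk_mem_sym2_iff.1 h).1⟩
          · exact ⟨⟨Or.inr (Or.inr (Or.inr (Or.inl rfl))),
              fun h => nA mbB (Finset.mk_mem_sym2_iff.1 h).1⟩,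
              fun h => xB (Finset.mk_mem_sym2_iff.1 h).2⟩
      have k1 : crs (cyc ![a, b, b', x, d, e]) (A0 ∪ X) B0 = {s(a, b), s(b', x)} := by
        ext t
        simp only [crs, mem_sdiff, e1t2_mem_cyc, mem_insert, mem_singleton]
        constructor
        · rintro ⟨⟨ht, h1⟩, h2⟩
          rcases ht with rfl | rfl | rfl | rfl | rfl | rfl
          · exact Or.inl rfl
          · exact absurd (Finset.mk_mem_sym2_iff.2 ⟨hb, mbB⟩) h2
          · exact Or.inr rfl
          · exact absurd (Finset.mk_mem_sym2_iff.2 ⟨xA, inA mdA⟩) h1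
          · exact absurd (Finset.mk_mem_sym2_iff.2 ⟨inA mdA, inA meA⟩) h1
          · exact absurd (Finset.mk_mem_sym2_iff.2 ⟨inA meA, inA ha⟩) h1
        · rintro (rfl | rfl)
          · exact ⟨⟨Or.inl rfl, fun h => nA hb (Finset.mk_mem_sym2_iff.1 h).2⟩,
              fun h => nB ha (Finset.mk_mem_sym2_iff.1 h).1⟩
          · exact ⟨⟨Or.inr (Or.inr (Or.inl rfl)),
              fun h => nA mbB (Finset.mk_mem_sym2_iff.1 h).1⟩,
              fun h => xB (Finset.mk_mem_sym2_iff.1 h).2⟩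
      rw [k0, k1]
    · rw [e1t2_inn_card i0, e1t2_inn_card i1, Finset.card_filter, Finset.card_filter,
        Fin.sum_univ_six, Fin.sum_univ_six]
      simp [inA ha, nA hb, nA mcB, nA mbB, xA, inA mdA, inA meA, -mem_union]
    · intro t ht
      rw [mem_union, e1t2_mem_cyc, e1t2_mem_cyc] at ht
      rcases ht with (rfl | rfl | rfl | rfl | rfl | rfl) | (rfl | rfl | rfl | rfl | rfl | rfl) <;>
        simp
    · intro t ht v hv
      rw [mem_union, e1t2_mem_cyc, e1t2_mem_cyc] at ht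
      simp only [mem_insert, mem_singleton]
      rcases ht with (rfl | rfl | rfl | rfl | rfl | rfl) | (rfl | rfl | rfl | rfl | rfl | rfl) <;>
        (rw [Sym2.mem_iff] at hv; clear * - hv; rcases hv with rfl | rfl <;> simp)

theorem sw_T2 (τ : ℝ) (hτ : 0 < τ) (hτ' : τ ≤ 1 / 20) :
    ∃ ε : ℝ, 0 < ε ∧ ∃ n0 : ℕ, ∀ (V : Type) [Fintype V] [DecidableEq V]
      (E : Finset (Sym2 V)) (A0 B0 X A' B' : Finset V), n0 ≤ Fintype.card V → Loopless E →
      Env1 E ε τ A0 B0 X A' B' → 5 ≤ (crs E (A0 ∪ X) (B0 ∪ X)).card →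
      (∃ x ∈ X, 3 * τ * nV V ≤ (dg E A' x : ℝ) ∧ 3 * τ * nV V ≤ (dg E B' x : ℝ)) →
      Switch5 E (A0 ∪ X) B0 := by
  refine ⟨τ / 10, by positivity, ⌈1000 / τ⌉₊, ?_⟩
  intro V _ _ E A0 B0 X A' B' hn0 hl hE h5 ⟨x, hx, hxA, hxB⟩
  have hn : 1000 ≤ τ * nV V := by
    have h1 : 1000 / τ ≤ nV V := (Nat.le_ceil _).trans (by exact_mod_cast hn0)
    rw [div_le_iff₀ hτ] at h1
    linarith
  -- five edges
  have hemb : Nonempty (Fin 5 ↪ {e // e ∈ crs E (A0 ∪ X) (B0 ∪ X)}) := by
    apply Function.Embedding.nonempty_of_card_le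
    rw [Fintype.card_fin, Fintype.card_coe]
    exact h5
  obtain ⟨g⟩ := hemb
  have hg : ∀ i, ∃ a b : V, a ∈ A0 ∧ b ∈ B0 ∧ s(a, b) ∈ E ∧ (g i : Sym2 V) = s(a, b) := by
    intro i
    obtain ⟨t, ht⟩ := g i
    simp only
    induction t using Sym2.ind with
    | _ u w =>
      simp only [crs, mem_sdiff, Finset.mk_mem_sym2_iff] at ht
      obtain ⟨⟨h1, h2⟩, h3⟩ := ht
      have hc : ∀ v : V, v ∈ A0 ∨ v ∈ B0 ∨ v ∈ X := by
        intro v
        have : v ∈ A0 ∪ B0 ∪ X := by rw [hE.cover]; exact mem_univ v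
        simp only [mem_union] at this
        tauto
      have hu := hc u
      have hw := hc w
      simp only [mem_union] at h2 h3
      by_cases hu' : u ∈ A0
      · exact ⟨u, w, hu', by tauto, h1, rfl⟩
      · exact ⟨w, u, by tauto, by tauto, by rw [Sym2.eq_swap]; exact h1, Sym2.eq_swap⟩
  choose fa fb hfa hfb hfe hge using hg
  set Z0 : Finset V := insert x (Finset.univ.image fa ∪ Finset.univ.image fb) with hZ0
  have hZ0c : Z0.card ≤ 11 := by
    refine (card_insert_le _ _).trans (Nat.succ_le_succ ((card_union_le _ _).trans ?_))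
    have h1 : (Finset.univ.image fa).card ≤ 5 := by
      refine card_image_le.trans (by simp)
    have h2 : (Finset.univ.image fb).card ≤ 5 := by
      refine card_image_le.trans (by simp)
    omega
  have hxZ : x ∈ Z0 := mem_insert_self _ _
  have haZ : ∀ i, fa i ∈ Z0 := fun i => by simp [hZ0]
  have hbZ : ∀ i, fb i ∈ Z0 := fun i => by simp [hZ0]
  obtain ⟨P, p1, -, p3, p4⟩ := e1t2_greedy 4 Z0 5
    (fun i P => ∃ c0 c1, e1t2_Sw E (A0 ∪ X) B0 (fa i) (fb i) x P c0 c1)
    (fun i Z hZ hc => e1t2_one hτ hτ' hn hl hE hx hxA hxB (hfa i) (hfb i) (hfe i) Z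
      (by omega) (hZ (haZ i)) (hZ (hbZ i)))
  choose c0 c1 hc using p1
  refine ⟨c0, c1, fun i => ⟨(hc i).h0, (hc i).h1, (hc i).s0, (hc i).s1, (hc i).cr, (hc i).ic⟩, ?_⟩
  -- a private vertex of `i` is in no edge of `j`
  have key : ∀ i j, i ≠ j → ∀ e ∈ c0 i ∪ c1 i, e ∈ c0 j ∪ c1 j → e = s(fa i, fb i) := by
    intro i j hij e hi hj
    rcases (hc i).pr e hi with h | ⟨p, hp, hpe⟩
    · exact h
    · exfalso
      have hp0 : p ∉ Z0 := fun h => (Finset.disjoint_left.1 (p3 i)) hp h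
      rcases (hc j).vs e hj p hpe with h | h | h | h
      · exact (Finset.disjoint_left.1 (p4 i j hij)) hp h
      · exact hp0 (h ▸ haZ j)
      · exact hp0 (h ▸ hbZ j)
      · exact hp0 (h ▸ hxZ)
  intro i j hij
  rw [Finset.disjoint_left]
  intro e hi hj
  have h1 := key i j hij e hi hj
  have h2 := key j i hij.symm e hj hi
  apply hij
  apply g.injective
  apply Subtype.ext
  rw [hge i, hge j, ← h1, h2]

end H15C6
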