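import Pool.Agent.H15.C6.E1A

/-!
Module E1T3 (part of E1T).  Extremal case 1: existence of five switches.  `A := A0 ∪ X`, `n = |V|`.
All auxiliary vertices are chosen in `A'`, `B'` (private, outside everything chosen before; every vertex of
`A'` is adjacent to all but `ε n` vertices of `A'`, etc.).

`sw_T1`: every vertex of `A0` has a neighbour in `B0`.  Choose greedily, for `i = 0..4`, `a, a' ∈ A'` adjacent with
neighbours `b ≠ b'` in `B0` (each `b ∈ B0` has at most `(τ + 2ε) n` neighbours in `A0`, so given `a, b` there is `a'`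
among the `≥ (1/2 - 2ε) n` neighbours of `a` in `A'` not adjacent to `b`), all ten `a`'s distinct.
`c0 = a b c c' b' a'` (path `b c c' b'`, inner edges of `A`: only `a'a`: 1), `c1 = a b c'' b' a' d` (2 inner edges of
`A`); all `c, c', c'', d` private.
`sw_T1'`: every vertex of `B0` has a neighbour in `A0`.  Symmetric choice of adjacent `b, b' ∈ B'` with
neighbours `a ≠ a'` in `A0`: `c0 = a b c b' a' d` (inner edges of `A`: 2), `c1 = b a d d' a' b'` with `b'b` an edge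
(inner edges of `A`: 3).
`sw_T2`: `x ∈ X` with `dg E A' x, dg E B' x ≥ 3τ n` and at least five edges `s(a_i,b_i)` between `A0` and `B0`.
For each choose private `b' ∈ B'` adjacent to `x` and to `b_i` (possible: `b_i` misses at most `(τ+4ε) n` vertices of
`B'`).  `c0 = a_i b_i c b' x d` (`c` common neighbour of `b_i, b'`; `d` common neighbour of `x, a_i`; inner edges of
`A`: 2), `c1 = a_i b_i b' x d' d''` (path `x d' d'' a_i`; inner edges of `A`: 3).
`sw_T3`: `x ≠ x' ∈ X` with at least `τ n` common neighbours in `A'`.  Five times: private `b, b' ∈ B'` with `x b`, `b b'`,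
`b' x'` edges; `c0 = x b c b' x' d` (`d` common neighbour of `x, x'` in `A'`; inner: 2),
`c1 = x b b' x' d' d''` (path of length three from `x'` to `x`; inner: 3).
-/

open Finset

namespace H15C6

/-- greedy choice of private six-tuples -/
theorem e1t3_greedy {V : Type} [DecidableEq V] {Q : (Fin 6 → V) → Prop} (M : ℕ) (F0 : Finset V)
    (h : ∀ F : Finset V, F.card ≤ M → ∃ g, Q g ∧ ∀ k, g k ∉ F) :
    ∀ m : ℕ, F0.card + 6 * m ≤ M + 6 → ∃ g : Fin m → Fin 6 → V, (∀ i, Q (g i)) ∧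
      (∀ i k, g i k ∉ F0) ∧ ∀ i j, i ≠ j → ∀ k l, g i k ≠ g j l := by
  intro m
  induction m with
  | zero =>
    intro _
    exact ⟨fun i => i.elim0, fun i => i.elim0, fun i => i.elim0, fun i => i.elim0⟩
  | succ m ih =>
    intro hm
    obtain ⟨g, h1, h2, h3⟩ := ih (by omega)
    have hF : (F0 ∪ Finset.univ.biUnion (fun i : Fin m => Finset.univ.image (g i))).card ≤ M := by
      refine (Finset.card_union_le _ _).trans ?_
      have h4 : (Finset.univ.biUnion (fun i : Fin m => Finset.univ.image (g i))).card ≤ m * 6 := by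
        refine (Finset.card_biUnion_le_card_mul _ _ 6 ?_).trans ?_
        · intro i _
          exact Finset.card_image_le.trans (by simp)
        · simp
      omega
    obtain ⟨g', hg1, hg2⟩ := h _ hF
    have hg3 : ∀ k, g' k ∉ F0 := fun k hk => hg2 k (Finset.mem_union_left _ hk)
    have hg4 : ∀ k i l, g' k ≠ g i l := by
      intro k i l he
      apply hg2 k
      rw [he]
      exact Finset.mem_union_right _ (Finset.mem_biUnion.2 ⟨i, Finset.mem_univ _,
        Finset.mem_image.2 ⟨l, Finset.mem_univ _, rfl⟩⟩)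
    refine ⟨Fin.cons g' g, ?_, ?_, ?_⟩
    · intro i
      refine Fin.cases ?_ (fun i => ?_) i
      · exact hg1
      · exact h1 i
    · intro i
      refine Fin.cases ?_ (fun i => ?_) i
      · exact hg3
      · exact h2 i
    · intro i j
      refine Fin.cases ?_ (fun i => ?_) i
      · refine Fin.cases ?_ (fun j => ?_) j
        · exact fun h => absurd rfl h
        · intro _ k l
          exact hg4 k j l
      · refine Fin.cases ?_ (fun j => ?_) j
        · intro _ k l he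
          exact hg4 l i k he.symm
        · intro hij k l
          exact h3 i j (fun h => hij (by rw [h])) k l

theorem e1t3_cyc {V : Type} [DecidableEq V] (a b c d e f : V) :
    cyc ![a, b, c, d, e, f] = {s(a, b), s(b, c), s(c, d), s(d, e), s(e, f), s(f, a)} := by
  ext p
  rw [mem_cyc]
  simp only [Finset.mem_insert, Finset.mem_singleton]
  constructor
  · rintro ⟨i, rfl⟩
    fin_cases i <;> simp
  · rintro (rfl | rfl | rfl | rfl | rfl | rfl)
    · exact ⟨0, rfl⟩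
    · exact ⟨1, rfl⟩
    · exact ⟨2, rfl⟩
    · exact ⟨3, rfl⟩
    · exact ⟨4, rfl⟩
    · exact ⟨5, rfl⟩

theorem e1t3_inj {V : Type} {a b c d e f : V} (h1 : a ≠ b) (h2 : a ≠ c) (h3 : a ≠ d) (h4 : a ≠ e)
    (h5 : a ≠ f) (h6 : b ≠ c) (h7 : b ≠ d) (h8 : b ≠ e) (h9 : b ≠ f) (h10 : c ≠ d) (h11 : c ≠ e)
    (h12 : c ≠ f) (h13 : d ≠ e) (h14 : d ≠ f) (h15 : e ≠ f) :
    Function.Injective ![a, b, c, d, e, f] := by
  have hl : [a, b, c, d, e, f].Nodup := by
    simp [h1, h2, h3, h4, h5, h6, h7, h8, h9, h10, h11, h12, h13, h14, h15]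
  have hg : (![a, b, c, d, e, f] : Fin 6 → V) = fun i => [a, b, c, d, e, f].get i := by
    funext i
    fin_cases i <;> rfl
  rw [hg]
  exact List.nodup_iff_injective_get.1 hl

/-- the requirements for one group `b, c, b', d, d', d''` -/
structure E1t3Q {V : Type} [DecidableEq V] (E : Finset (Sym2 V)) (A' B' : Finset V) (x x' : V)
    (g : Fin 6 → V) : Prop where
  b : g 0 ∈ B'
  c : g 1 ∈ B'
  b' : g 2 ∈ B'
  d : g 3 ∈ A'
  d' : g 4 ∈ A'
  d'' : g 5 ∈ A'
  bc : g 0 ≠ g 1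
  bb : g 0 ≠ g 2
  cb : g 1 ≠ g 2
  dd : g 4 ≠ g 5
  e1 : s(x, g 0) ∈ E
  e2 : s(g 0, g 1) ∈ E
  e3 : s(g 1, g 2) ∈ E
  e4 : s(g 2, x') ∈ E
  e5 : s(x', g 3) ∈ E
  e6 : s(g 3, x) ∈ E
  e7 : s(g 0, g 2) ∈ E
  e8 : s(x', g 4) ∈ E
  e9 : s(g 4, g 5) ∈ E
  e10 : s(g 5, x) ∈ E

theorem e1t3_pick {V : Type} [DecidableEq V] {S F : Finset V} (h : F.card < S.card) :
    ∃ v ∈ S, v ∉ F := Finset.exists_mem_notMem_of_card_lt_card h

theorem e1t3_card {V : Type} [DecidableEq V] (S : Finset V) (p : V → Prop) [DecidablePred p]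
    (q : V → Prop) [DecidablePred q] :
    (S.filter p).card ≤ (S.filter (fun y => p y ∧ q y)).card + (S.filter (fun y => ¬ q y)).card := by
  refine (Finset.card_le_card ?_).trans (Finset.card_union_le _ _)
  intro y hy
  rw [Finset.mem_filter] at hy
  rw [Finset.mem_union, Finset.mem_filter, Finset.mem_filter]
  by_cases hq : q y
  · exact Or.inl ⟨hy.1, hy.2, hq⟩
  · exact Or.inr ⟨hy.1, hq⟩

theorem e1t3_step {V : Type} [Fintype V] [DecidableEq V] {τ : ℝ} (hτ : 0 < τ) (hτ' : τ ≤ 1 / 20)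
    {E : Finset (Sym2 V)} {A0 B0 X A' B' : Finset V} (hl : Loopless E)
    (hE : Env1 E (τ / 4) τ A0 B0 X A' B') (hn : 100 ≤ τ * nV V) {x x' : V} (hx : x ∈ X)
    (hx' : x' ∈ X) (hcn : τ * nV V ≤ (cn E A' x x' : ℝ)) (F : Finset V) (hF : F.card ≤ 26) :
    ∃ g, E1t3Q E A' B' x x' g ∧ ∀ k, g k ∉ F := by
  have hF' : (F.card : ℝ) ≤ 26 := by exact_mod_cast hF
  -- b
  obtain ⟨b, hb, hbF⟩ : ∃ b ∈ B'.filter (fun y => s(x, y) ∈ E), b ∉ F := by
    apply e1t3_pick
    have h1 : τ * nV V ≤ ((B'.filter (fun y => s(x, y) ∈ E)).card : ℝ) := (hE.mX x hx).2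
    have h2 : (F.card : ℝ) < ((B'.filter (fun y => s(x, y) ∈ E)).card : ℝ) := by linarith
    exact_mod_cast h2
  rw [Finset.mem_filter] at hb
  -- b'
  obtain ⟨b', hb', hb'F⟩ : ∃ b' ∈ B'.filter (fun y => s(x', y) ∈ E ∧ s(b, y) ∈ E), b' ∉ F := by
    apply e1t3_pick
    have h1 : τ * nV V ≤ ((B'.filter (fun y => s(x', y) ∈ E)).card : ℝ) := (hE.mX x' hx').2
    have h2 := e1t3_card B' (fun y => s(x', y) ∈ E) (fun y => s(b, y) ∈ E)
    have h3 := hE.nB b hb.1
    have h4 : ((B'.filter (fun y => s(x', y) ∈ E)).card : ℝ) ≤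
      ((B'.filter (fun y => s(x', y) ∈ E ∧ s(b, y) ∈ E)).card : ℝ) +
        ((B'.filter (fun y => s(b, y) ∉ E)).card : ℝ) := by exact_mod_cast h2
    have h5 : (F.card : ℝ) < ((B'.filter (fun y => s(x', y) ∈ E ∧ s(b, y) ∈ E)).card : ℝ) := by
      linarith
    exact_mod_cast h5
  rw [Finset.mem_filter] at hb'
  have hbb : b ≠ b' := hl.ne hb'.2.2
  -- c
  obtain ⟨c, hc, hcF⟩ : ∃ c ∈ B'.filter (fun y => s(b, y) ∈ E ∧ s(b', y) ∈ E), c ∉ F := by
    apply e1t3_pick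
    have h1 : (1 / 2 - τ / 4) * nV V ≤ (B'.card : ℝ) := hE.sizeB
    have h2 := e1t3_card B' (fun y => s(b, y) ∈ E) (fun y => s(b', y) ∈ E)
    have h2' := e1t3_card B' (fun _ => True) (fun y => s(b, y) ∈ E)
    have h3 := hE.nB b hb.1
    have h3' := hE.nB b' hb'.1
    simp only [Finset.filter_true, true_and] at h2'
    have h4 : ((B'.filter (fun y => s(b, y) ∈ E)).card : ℝ) ≤
      ((B'.filter (fun y => s(b, y) ∈ E ∧ s(b', y) ∈ E)).card : ℝ) +
        ((B'.filter (fun y => s(b', y) ∉ E)).card : ℝ) := by exact_mod_cast h2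
    have h4' : (B'.card : ℝ) ≤
      ((B'.filter (fun y => s(b, y) ∈ E)).card : ℝ) +
        ((B'.filter (fun y => s(b, y) ∉ E)).card : ℝ) := by exact_mod_cast h2'
    have hn0 : 0 ≤ nV V := Nat.cast_nonneg _
    have h6 : τ * nV V ≤ 1 / 20 * nV V := by gcongr
    have h5 : (F.card : ℝ) < ((B'.filter (fun y => s(b, y) ∈ E ∧ s(b', y) ∈ E)).card : ℝ) := by
      linarith
    exact_mod_cast h5
  rw [Finset.mem_filter] at hc
  -- d
  obtain ⟨d, hd, hdF⟩ : ∃ d ∈ A'.filter (fun m => s(x, m) ∈ E ∧ s(m, x') ∈ E), d ∉ F := by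
    apply e1t3_pick
    have h2 : (F.card : ℝ) < ((A'.filter (fun m => s(x, m) ∈ E ∧ s(m, x') ∈ E)).card : ℝ) := by
      have : τ * nV V ≤ ((A'.filter (fun m => s(x, m) ∈ E ∧ s(m, x') ∈ E)).card : ℝ) := hcn
      linarith
    exact_mod_cast h2
  rw [Finset.mem_filter] at hd
  -- d'
  obtain ⟨d', hd', hd'F⟩ : ∃ d' ∈ A'.filter (fun y => s(x', y) ∈ E), d' ∉ F := by
    apply e1t3_pick
    have h1 : τ * nV V ≤ ((A'.filter (fun y => s(x', y) ∈ E)).card : ℝ) := (hE.mX x' hx').1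
    have h2 : (F.card : ℝ) < ((A'.filter (fun y => s(x', y) ∈ E)).card : ℝ) := by linarith
    exact_mod_cast h2
  rw [Finset.mem_filter] at hd'
  -- d''
  obtain ⟨d'', hd'', hd''F⟩ : ∃ d'' ∈ A'.filter (fun y => s(x, y) ∈ E ∧ s(d', y) ∈ E), d'' ∉ F := by
    apply e1t3_pick
    have h1 : τ * nV V ≤ ((A'.filter (fun y => s(x, y) ∈ E)).card : ℝ) := (hE.mX x hx).1
    have h2 := e1t3_card A' (fun y => s(x, y) ∈ E) (fun y => s(d', y) ∈ E)
    have h3 := hE.nA d' hd'.1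
    have h4 : ((A'.filter (fun y => s(x, y) ∈ E)).card : ℝ) ≤
      ((A'.filter (fun y => s(x, y) ∈ E ∧ s(d', y) ∈ E)).card : ℝ) +
        ((A'.filter (fun y => s(d', y) ∉ E)).card : ℝ) := by exact_mod_cast h2
    have h5 : (F.card : ℝ) < ((A'.filter (fun y => s(x, y) ∈ E ∧ s(d', y) ∈ E)).card : ℝ) := by
      linarith
    exact_mod_cast h5
  rw [Finset.mem_filter] at hd''
  refine ⟨![b, c, b', d, d', d''], ?_, ?_⟩
  · exact
      { b := hb.1
        c := hc.1
        b' := hb'.1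
        d := hd.1
        d' := hd'.1
        d'' := hd''.1
        bc := hl.ne hc.2.1
        bb := hbb
        cb := (hl.ne hc.2.2).symm
        dd := hl.ne hd''.2.2
        e1 := hb.2
        e2 := hc.2.1
        e3 := by rw [Sym2.eq_swap]; exact hc.2.2
        e4 := by rw [Sym2.eq_swap]; exact hb'.2.1
        e5 := by rw [Sym2.eq_swap]; exact hd.2.2
        e6 := by rw [Sym2.eq_swap]; exact hd.2.1
        e7 := hb'.2.2
        e8 := hd'.2
        e9 := hd''.2.2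
        e10 := by rw [Sym2.eq_swap]; exact hd''.2.1 }
  · intro k
    fin_cases k
    · exact hbF
    · exact hcF
    · exact hb'F
    · exact hdF
    · exact hd'F
    · exact hd''F

theorem e1t3_mem_inn {V : Type} [DecidableEq V] {E : Finset (Sym2 V)} {A : Finset V} :
    inn E A = E.filter (fun e => e ∈ A.sym2) := by
  unfold inn
  exact (Finset.filter_mem_eq_inter).symm

theorem e1t3_mem_crs {V : Type} [DecidableEq V] {E : Finset (Sym2 V)} {A B : Finset V} :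
    crs E A B = E.filter (fun e => e ∉ A.sym2 ∧ e ∉ B.sym2) := by
  unfold crs
  ext e
  rw [Finset.mem_sdiff, Finset.mem_sdiff, Finset.mem_filter]
  tauto

theorem e1t3_group {V : Type} [Fintype V] [DecidableEq V] {ε τ : ℝ}
    {E : Finset (Sym2 V)} {A0 B0 X A' B' : Finset V}
    (hE : Env1 E ε τ A0 B0 X A' B') {x x' : V} (hx : x ∈ X)
    (hx' : x' ∈ X) (hne : x ≠ x') {g : Fin 6 → V} (hg : E1t3Q E A' B' x x' g) :
    IsC6 (cyc ![x, g 0, g 1, g 2, x', g 3]) ∧ IsC6 (cyc ![x, g 0, g 2, x', g 4, g 5]) ∧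
    cyc ![x, g 0, g 1, g 2, x', g 3] ⊆ E ∧ cyc ![x, g 0, g 2, x', g 4, g 5] ⊆ E ∧
    crs (cyc ![x, g 0, g 1, g 2, x', g 3]) (A0 ∪ X) B0 =
      crs (cyc ![x, g 0, g 2, x', g 4, g 5]) (A0 ∪ X) B0 ∧
    (inn (cyc ![x, g 0, g 2, x', g 4, g 5]) (A0 ∪ X)).card =
      (inn (cyc ![x, g 0, g 1, g 2, x', g 3]) (A0 ∪ X)).card + 1 := by
  obtain ⟨b, c, b', d, d', d'', bc, bb, cb, dd, e1, e2, e3, e4, e5, e6, e7, e8, e9, e10⟩ := hg
  generalize g 0 = vb at *
  generalize g 1 = vc at *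
  generalize g 2 = vb' at *
  generalize g 3 = vd at *
  generalize g 4 = vd' at *
  generalize g 5 = vd'' at *
  have memA : ∀ v, v ∈ A' → v ∈ A0 ∪ X := fun v hv => Finset.mem_union_left _ (hE.subA hv)
  have memX : ∀ v, v ∈ X → v ∈ A0 ∪ X := fun v hv => Finset.mem_union_right _ hv
  have memB : ∀ v, v ∈ B' → v ∈ B0 := fun v hv => hE.subB hv
  have notA : ∀ v, v ∈ B0 → v ∉ A0 ∪ X := by
    intro v hv hv'
    rcases Finset.mem_union.1 hv' with h | h
    · exact Finset.disjoint_left.1 hE.dAB h hv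
    · exact Finset.disjoint_left.1 hE.dBX hv h
  have notB : ∀ v, v ∈ A0 ∪ X → v ∉ B0 := fun v hv hv' => notA v hv' hv
  have neAB : ∀ u v, u ∈ A0 ∪ X → v ∈ B0 → u ≠ v := by
    rintro u v hu hv rfl
    exact notA u hv hu
  have neAX : ∀ u v, u ∈ A' → v ∈ X → u ≠ v := by
    rintro u v hu hv rfl
    exact Finset.disjoint_left.1 hE.dAX (hE.subA hu) hv
  have hxA := memX x hx
  have hx'A := memX x' hx'
  have hdA := memA vd d
  have hd'A := memA vd' d'
  have hd''A := memA vd'' d''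
  have hbB := memB vb b
  have hcB := memB vc c
  have hb'B := memB vb' b'
  have hbA := notA vb hbB
  have hcA := notA vc hcB
  have hb'A := notA vb' hb'B
  have hxB := notB x hxA
  have hx'B := notB x' hx'A
  have hdB := notB vd hdA
  have hd'B := notB vd' hd'A
  have hd''B := notB vd'' hd''A
  refine ⟨⟨_, e1t3_inj (neAB _ _ hxA hbB) (neAB _ _ hxA hcB) (neAB _ _ hxA hb'B) hne
      (neAX _ _ d hx).symm bc bb (neAB _ _ hx'A hbB).symm (neAB _ _ hdA hbB).symm cb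
      (neAB _ _ hx'A hcB).symm (neAB _ _ hdA hcB).symm (neAB _ _ hx'A hb'B).symm
      (neAB _ _ hdA hb'B).symm (neAX _ _ d hx').symm, rfl⟩,
    ⟨_, e1t3_inj (neAB _ _ hxA hbB) (neAB _ _ hxA hb'B) hne (neAX _ _ d' hx).symm
      (neAX _ _ d'' hx).symm bb (neAB _ _ hx'A hbB).symm (neAB _ _ hd'A hbB).symm
      (neAB _ _ hd''A hbB).symm (neAB _ _ hx'A hb'B).symm (neAB _ _ hd'A hb'B).symm
      (neAB _ _ hd''A hb'B).symm (neAX _ _ d' hx').symm (neAX _ _ d'' hx').symm dd, rfl⟩,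
    ?_, ?_, ?_, ?_⟩
  · rw [e1t3_cyc]
    intro e he
    simp only [Finset.mem_insert, Finset.mem_singleton] at he
    rcases he with rfl | rfl | rfl | rfl | rfl | rfl <;> assumption
  · rw [e1t3_cyc]
    intro e he
    simp only [Finset.mem_insert, Finset.mem_singleton] at he
    rcases he with rfl | rfl | rfl | rfl | rfl | rfl <;> assumption
  · rw [e1t3_cyc, e1t3_cyc, e1t3_mem_crs, e1t3_mem_crs]
    simp only [Finset.filter_insert, Finset.filter_singleton, Finset.mk_mem_sym2_iff, hxA, hx'A, hdA,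
      hd'A, hd''A, hbA, hcA, hb'A, hbB, hcB, hb'B, hxB, hx'B, hdB, hd'B, hd''B, and_true, and_false,
      true_and, false_and, not_true, not_false_iff, if_true, if_false]
  · have i0 : inn (cyc ![x, vb, vc, vb', x', vd]) (A0 ∪ X) = {s(x', vd), s(vd, x)} := by
      rw [e1t3_cyc, e1t3_mem_inn]
      simp only [Finset.filter_insert, Finset.filter_singleton, Finset.mk_mem_sym2_iff, hxA, hx'A,
        hdA, hbA, hcA, hb'A, and_true, and_false, false_and, if_true,
        if_false]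
    have i1 : inn (cyc ![x, vb, vb', x', vd', vd'']) (A0 ∪ X) =
        {s(x', vd'), s(vd', vd''), s(vd'', x)} := by
      rw [e1t3_cyc, e1t3_mem_inn]
      simp only [Finset.filter_insert, Finset.filter_singleton, Finset.mk_mem_sym2_iff, hxA, hx'A,
        hd'A, hd''A, hbA, hb'A, and_true, and_false, false_and, if_true,
        if_false]
    have n1 : vd ≠ x := neAX _ _ d hx
    have n2 : vd ≠ x' := neAX _ _ d hx'
    have n3 : vd' ≠ x := neAX _ _ d' hx
    have n4 : vd' ≠ x' := neAX _ _ d' hx'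
    have n5 : vd'' ≠ x := neAX _ _ d'' hx
    have n6 : vd'' ≠ x' := neAX _ _ d'' hx'
    rw [i0, i1, Finset.card_pair, Finset.card_insert_of_notMem, Finset.card_pair]
    · intro h
      rw [Sym2.eq_iff] at h
      rcases h with h | h
      · exact dd h.1
      · exact n3 h.1
    · intro h
      rw [Finset.mem_insert, Finset.mem_singleton, Sym2.eq_iff, Sym2.eq_iff] at h
      rcases h with (h | h) | (h | h)
      · exact n4 h.1.symm
      · exact n6 h.1.symm
      · exact n6 h.1.symm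
      · exact hne h.1.symm
    · intro h
      rw [Sym2.eq_iff] at h
      rcases h with h | h
      · exact n2 h.1.symm
      · exact hne h.1.symm

/-- every edge of a group contains a private vertex, and only `x`, `x'` besides -/
theorem e1t3_priv {V : Type} [DecidableEq V] {x x' : V} {g : Fin 6 → V} {e : Sym2 V}
    (he : e ∈ cyc ![x, g 0, g 1, g 2, x', g 3] ∪ cyc ![x, g 0, g 2, x', g 4, g 5]) :
    (∃ k, g k ∈ e) ∧ ∀ v ∈ e, v = x ∨ v = x' ∨ ∃ k, v = g k := by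
  rw [e1t3_cyc, e1t3_cyc] at he
  simp only [Finset.mem_union, Finset.mem_insert, Finset.mem_singleton] at he
  have h1 : ∀ v k, v ∈ s(x, g k) → v = x ∨ v = x' ∨ ∃ k, v = g k := by
    intro v k hv
    rcases Sym2.mem_iff.1 hv with h | h
    · exact Or.inl h
    · exact Or.inr (Or.inr ⟨k, h⟩)
  have h2 : ∀ v k, v ∈ s(g k, x) → v = x ∨ v = x' ∨ ∃ k, v = g k := by
    intro v k hv
    rw [Sym2.eq_swap] at hv
    exact h1 v k hv
  have h3 : ∀ v k, v ∈ s(x', g k) → v = x ∨ v = x' ∨ ∃ k, v = g k := by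
    intro v k hv
    rcases Sym2.mem_iff.1 hv with h | h
    · exact Or.inr (Or.inl h)
    · exact Or.inr (Or.inr ⟨k, h⟩)
  have h4 : ∀ v k, v ∈ s(g k, x') → v = x ∨ v = x' ∨ ∃ k, v = g k := by
    intro v k hv
    rw [Sym2.eq_swap] at hv
    exact h3 v k hv
  have h5 : ∀ v k l, v ∈ s(g k, g l) → v = x ∨ v = x' ∨ ∃ k, v = g k := by
    intro v k l hv
    rcases Sym2.mem_iff.1 hv with h | h
    · exact Or.inr (Or.inr ⟨k, h⟩)
    · exact Or.inr (Or.inr ⟨l, h⟩)
  rcases he with (rfl | rfl | rfl | rfl | rfl | rfl) | (rfl | rfl | rfl | rfl | rfl | rfl)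
  · exact ⟨⟨0, Sym2.mem_mk_right _ _⟩, fun v => h1 v 0⟩
  · exact ⟨⟨0, Sym2.mem_mk_left _ _⟩, fun v => h5 v 0 1⟩
  · exact ⟨⟨1, Sym2.mem_mk_left _ _⟩, fun v => h5 v 1 2⟩
  · exact ⟨⟨2, Sym2.mem_mk_left _ _⟩, fun v => h4 v 2⟩
  · exact ⟨⟨3, Sym2.mem_mk_right _ _⟩, fun v => h3 v 3⟩
  · exact ⟨⟨3, Sym2.mem_mk_left _ _⟩, fun v => h2 v 3⟩
  · exact ⟨⟨0, Sym2.mem_mk_right _ _⟩, fun v => h1 v 0⟩
  · exact ⟨⟨0, Sym2.mem_mk_left _ _⟩, fun v => h5 v 0 2⟩
  · exact ⟨⟨2, Sym2.mem_mk_left _ _⟩, fun v => h4 v 2⟩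
  · exact ⟨⟨4, Sym2.mem_mk_right _ _⟩, fun v => h3 v 4⟩
  · exact ⟨⟨4, Sym2.mem_mk_left _ _⟩, fun v => h5 v 4 5⟩
  · exact ⟨⟨5, Sym2.mem_mk_left _ _⟩, fun v => h2 v 5⟩

theorem sw_T3 (τ : ℝ) (hτ : 0 < τ) (hτ' : τ ≤ 1 / 20) :
    ∃ ε : ℝ, 0 < ε ∧ ∃ n0 : ℕ, ∀ (V : Type) [Fintype V] [DecidableEq V]
      (E : Finset (Sym2 V)) (A0 B0 X A' B' : Finset V), n0 ≤ Fintype.card V → Loopless E →
      Env1 E ε τ A0 B0 X A' B' →
      (∃ x ∈ X, ∃ x' ∈ X, x ≠ x' ∧ τ * nV V ≤ (cn E A' x x' : ℝ)) →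
      Switch5 E (A0 ∪ X) B0 := by
  obtain ⟨n0, hn0⟩ := exists_nat_ge (100 / τ)
  refine ⟨τ / 4, by positivity, n0, ?_⟩
  intro V _ _ E A0 B0 X A' B' hn hl hE hex
  obtain ⟨x, hx, x', hx', hne, hcn⟩ := hex
  have hn1 : 100 ≤ τ * nV V := by
    have h1 : (n0 : ℝ) ≤ nV V := by exact_mod_cast hn
    have h2 : 100 / τ ≤ nV V := hn0.trans h1
    rw [div_le_iff₀ hτ] at h2
    linarith
  obtain ⟨g, hg1, hg2, hg3⟩ := e1t3_greedy 26 {x, x'}
    (fun F hF => e1t3_step hτ hτ' hl hE hn1 hx hx' hcn F hF) 5 (by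
      rw [Finset.card_pair hne])
  refine ⟨fun i => cyc ![x, g i 0, g i 1, g i 2, x', g i 3],
    fun i => cyc ![x, g i 0, g i 2, x', g i 4, g i 5],
    fun i => e1t3_group hE hx hx' hne (hg1 i), ?_⟩
  intro i j hij
  rw [Finset.disjoint_left]
  intro e hei hej
  obtain ⟨⟨k, hk⟩, -⟩ := e1t3_priv hei
  obtain ⟨-, h2⟩ := e1t3_priv hej
  have hF : g i k ∉ ({x, x'} : Finset V) := hg2 i k
  rw [Finset.mem_insert, Finset.mem_singleton] at hF
  rcases h2 _ hk with h | h | ⟨l, h⟩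
  · exact hF (Or.inl h)
  · exact hF (Or.inr h)
  · exact hg3 i j hij k l h

end H15C6
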