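import Pool.Agent.H15.C6.E1C
import Pool.Agent.H15.C6.E1T
import Pool.Agent.H15.C6.D1D

/-!
Module E1D.  Extremal case 1, assembly.  `n = |V|`, `α = |A0|`, `β = |B0|`, `ξ = |X|`, `f = |crs E (A0 ∪ X) (B0 ∪ X)|` (the
number of edges between `A0` and `B0`).  `τ2 := 1/20`, `τ1 := 1/60`; `ε` smaller than all the constants of `fin1`, `sw_*` for
`τ1, τ2`.  `A', B'` from `Ext1`.

(a) `prep1` with `τ2` gives `A0, B0, X`.  If `X = ∅`: `α + β = n`; if `2α ≤ n` every `a ∈ A0` has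
  `deg a ≥ (n-1)/2 > α - 1`, so a neighbour in `B0`: `sw_T1`, `fin1`; if `2β ≤ n`: `sw_T1'`, `fin1`.
(b) Otherwise some `x` has `dg E A' x, dg E B' x > τ2 n = 3 τ1 n`.  Now `prep1` with `τ1`; `x ∈ X`.
  If `2(α+ξ) ≤ n`: every `a ∈ A0` has at most `α + ξ - 1 < deg a` neighbours in `A0 ∪ X`: `sw_T1`, `fin1`.
  If `2(β+ξ) ≤ n`: `sw_T1'`, `fin1`.  Otherwise `2(α+ξ) ≥ n+1`, `2(β+ξ) ≥ n+1`.
  If `f ≥ 5`: `sw_T2`, `fin1`.  Let `f ≤ 4`.
  `ξ ≥ 3`: take three vertices of `X`; their neighbourhoods in `A' ∪ B'` have total size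
  `≥ 3((n-1)/2 - 2εn)`, so two of them have at least `(1/2 - 7ε)n/3` common neighbours in `A' ∪ B'`, hence at
  least `τ1 n` in `A'` or in `B'`: `sw_T3` and `fin1` for `Env1` or for `Env1.swap`.
  `ξ = 2`, `X = {x,x'}`: `α + β = n - 2`; by symmetry (swap) `α ≤ β`, so `2α ≤ n - 2`.  A vertex `a ∈ A0` without neighbour in
  `B0` has `(n-1)/2 ≤ deg a ≤ α - 1 + #(N(a) ∩ X)`, so it is adjacent to `x` and `x'`.  All but 4 vertices of
  `A0` are so: `cn E A' x x' ≥ |A'| - 4`: `sw_T3`, `fin1`.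
  `ξ = 1`: `2α ≥ n - 1`, `2β ≥ n - 1`, `α + β = n - 1`, so `α = β = (n-1)/2 =: m`.  A vertex `a ∈ A0` without neighbour in
  `B0` has `deg a ≤ m` and `2 deg a + 1 ≥ n`, so `deg a = m` is even: `m = 2k`, `n = 4k+1`; `D1Env`; the
  alternative `∀ v, n ≤ 2 deg v` fails at `a`, so `n % 24 ≠ 5, 13`: `d1_dec`.
-/

open Finset

namespace H15C6

theorem e1d_env_mono {V : Type} [Fintype V] [DecidableEq V] {E : Finset (Sym2 V)} {ε ε' τ : ℝ}
    {A0 B0 X A' B' : Finset V} (h : Env1 E ε τ A0 B0 X A' B') (he : ε ≤ ε') :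
    Env1 E ε' τ A0 B0 X A' B' := by
  have hn : (0 : ℝ) ≤ nV V := Nat.cast_nonneg _
  have h1 : ε * nV V ≤ ε' * nV V := mul_le_mul_of_nonneg_right he hn
  have h2 : (1 / 2 - ε') * nV V ≤ (1 / 2 - ε) * nV V := by nlinarith
  exact ⟨h.dAB, h.dAX, h.dBX, h.cover, h.subA, h.subB, h2.trans h.sizeA, h2.trans h.sizeB,
    fun a ha => (h.nA a ha).trans h1, fun a ha => (h.nA' a ha).trans h1,
    fun a ha => (h.nB a ha).trans h1, fun a ha => (h.nB' a ha).trans h1,
    h.tA, h.tB, h.mX, h.mindeg⟩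

theorem e1d_dg_lt {V : Type} [DecidableEq V] {E : Finset (Sym2 V)} (hl : Loopless E)
    {S : Finset V} {a : V} (ha : a ∈ S) : dg E S a + 1 ≤ S.card := by
  have h1 : (S.filter (fun y => s(a, y) ∈ E)) ⊆ S.erase a := by
    intro y hy
    rw [mem_filter] at hy
    rw [mem_erase]
    exact ⟨(hl.ne hy.2).symm, hy.1⟩
  have h2 := card_le_card h1
  rw [card_erase_of_mem ha] at h2
  have h3 : 0 < S.card := card_pos.2 ⟨a, ha⟩
  unfold dg
  omega

theorem e1d_deg_le {V : Type} [Fintype V] [DecidableEq V] {E : Finset (Sym2 V)} {S : Finset V}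
    {a : V} (h : ∀ y, s(a, y) ∈ E → y ∈ S) : deg E a ≤ dg E S a := by
  have h0 : E ⊆ (univ : Finset V).sym2 := by
    intro e _
    rw [Finset.mem_sym2_iff]
    intro x _
    exact mem_univ x
  rw [deg_eq_dg h0]
  unfold dg
  apply card_le_card
  intro y hy
  rw [mem_filter] at hy ⊢
  exact ⟨h y hy.2, hy.2⟩

theorem e1d_dg_union {V : Type} [DecidableEq V] (E : Finset (Sym2 V)) (S T : Finset V) (a : V) :
    dg E (S ∪ T) a ≤ dg E S a + dg E T a := by
  unfold dg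
  rw [filter_union]
  exact card_union_le _ _

/-- a vertex of `A0` without neighbour in `B0` -/
theorem e1d_noB {V : Type} [Fintype V] [DecidableEq V] {E : Finset (Sym2 V)} {ε τ : ℝ}
    {A0 B0 X A' B' : Finset V} (h : Env1 E ε τ A0 B0 X A' B') {a : V}
    (hno : ¬ ∃ b ∈ B0, s(a, b) ∈ E) : ∀ y, s(a, y) ∈ E → y ∈ A0 ∪ X := by
  intro y hy
  have h1 : y ∈ A0 ∪ B0 ∪ X := by rw [h.cover]; exact mem_univ y
  simp only [mem_union] at h1 ⊢
  rcases h1 with (h1 | h1) | h1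
  · exact Or.inl h1
  · exact absurd ⟨y, h1, hy⟩ hno
  · exact Or.inr h1

theorem e1d_small {V : Type} [Fintype V] [DecidableEq V] {E : Finset (Sym2 V)} {ε τ : ℝ}
    {A0 B0 X A' B' : Finset V} (hl : Loopless E) (h : Env1 E ε τ A0 B0 X A' B')
    (hs : 2 * (A0.card + X.card) ≤ Fintype.card V) : ∀ a ∈ A0, ∃ b ∈ B0, s(a, b) ∈ E := by
  intro a ha
  by_contra hno
  have h1 := e1d_deg_le (e1d_noB h hno)
  have h2 := e1d_dg_lt hl (S := A0 ∪ X) (mem_union_left X ha)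
  have h3 := card_union_le A0 X
  have h4 := h.mindeg a
  omega

theorem e1d_card {V : Type} [Fintype V] [DecidableEq V] {E : Finset (Sym2 V)} {ε τ : ℝ}
    {A0 B0 X A' B' : Finset V} (h : Env1 E ε τ A0 B0 X A' B') :
    A0.card + B0.card + X.card = Fintype.card V := by
  have h1 : Disjoint (A0 ∪ B0) X := by
    rw [disjoint_union_left]
    exact ⟨h.dAX, h.dBX⟩
  rw [← card_union_of_disjoint h.dAB, ← card_union_of_disjoint h1, h.cover, card_univ]

/-- vertices of `A0` with a neighbour in `B0` -/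
theorem e1d_few {V : Type} [Fintype V] [DecidableEq V] {E : Finset (Sym2 V)} {ε τ : ℝ}
    {A0 B0 X A' B' : Finset V} (h : Env1 E ε τ A0 B0 X A' B') :
    (A0.filter (fun a => ∃ b ∈ B0, s(a, b) ∈ E)).card ≤ (crs E (A0 ∪ X) (B0 ∪ X)).card := by
  have hch : ∀ a : V, ∃ b : V, (∃ b ∈ B0, s(a, b) ∈ E) → b ∈ B0 ∧ s(a, b) ∈ E := by
    intro a
    by_cases ha : ∃ b ∈ B0, s(a, b) ∈ E
    · obtain ⟨b, hb⟩ := ha
      exact ⟨b, fun _ => hb⟩
    · exact ⟨a, fun h' => absurd h' ha⟩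
  choose g hg using hch
  apply card_le_card_of_injOn (fun a => s(a, g a))
  · intro a ha
    have ha' := mem_filter.1 (mem_coe.1 ha)
    have hg' := hg a ha'.2
    refine mem_coe.2 ?_
    unfold crs
    rw [mem_sdiff, mem_sdiff]
    refine ⟨⟨hg'.2, ?_⟩, ?_⟩
    · rw [mk_mem_sym2_iff]
      rintro ⟨_, h2⟩
      rcases mem_union.1 h2 with h2 | h2
      · exact disjoint_left.1 h.dAB h2 hg'.1
      · exact disjoint_left.1 h.dBX hg'.1 h2
    · rw [mk_mem_sym2_iff]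
      rintro ⟨h2, _⟩
      rcases mem_union.1 h2 with h2 | h2
      · exact disjoint_left.1 h.dAB ha'.1 h2
      · exact disjoint_left.1 h.dAX ha'.1 h2
  · intro a ha a' ha' hEq
    have h1 := mem_filter.1 (mem_coe.1 ha)
    have h2 := mem_filter.1 (mem_coe.1 ha')
    have hEq' : s(a, g a) = s(a', g a') := hEq
    rw [Sym2.eq_iff] at hEq'
    rcases hEq' with h3 | h3
    · exact h3.1
    · exfalso
      have h4 := (hg a' h2.2).1
      rw [← h3.1] at h4
      exact disjoint_left.1 h.dAB h1.1 h4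

theorem e1d_crs_comm {V : Type} [DecidableEq V] (E : Finset (Sym2 V)) (A B : Finset V) :
    crs E A B = crs E B A := by
  unfold crs
  rw [sdiff_sdiff_comm]

/-- everything which follows from `fin1` and the switches, for one `τ` -/
theorem e1d_all (τ : ℝ) (hτ : 0 < τ) (hτ' : τ ≤ 1 / 20) :
    ∃ ε : ℝ, 0 < ε ∧ ∃ n0 : ℕ, ∀ (V : Type) [Fintype V] [DecidableEq V]
      (E : Finset (Sym2 V)) (A0 B0 X A' B' : Finset V), n0 ≤ Fintype.card V → Loopless E →
      EvenDeg E → 6 ∣ E.card → Env1 E ε τ A0 B0 X A' B' →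
      ((∀ a ∈ A0, ∃ b ∈ B0, s(a, b) ∈ E) ∨ (∀ b ∈ B0, ∃ a ∈ A0, s(a, b) ∈ E) ∨
        (5 ≤ (crs E (A0 ∪ X) (B0 ∪ X)).card ∧
          ∃ x ∈ X, 3 * τ * nV V ≤ (dg E A' x : ℝ) ∧ 3 * τ * nV V ≤ (dg E B' x : ℝ)) ∨
        (∃ x ∈ X, ∃ x' ∈ X, x ≠ x' ∧ τ * nV V ≤ (cn E A' x x' : ℝ))) → Dec E := by
  obtain ⟨ε1, he1, n1, H1⟩ := fin1 τ hτ hτ'
  obtain ⟨ε2, he2, n2, H2⟩ := sw_T1 τ hτ hτ'
  obtain ⟨ε3, he3, n3, H3⟩ := sw_T1' τ hτ hτ'
  obtain ⟨ε4, he4, n4, H4⟩ := sw_T2 τ hτ hτ'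
  obtain ⟨ε5, he5, n5, H5⟩ := sw_T3 τ hτ hτ'
  refine ⟨min ε1 (min ε2 (min ε3 (min ε4 ε5))), ?_, n1 + n2 + n3 + n4 + n5, ?_⟩
  · simp only [lt_min_iff]
    exact ⟨he1, he2, he3, he4, he5⟩
  intro V _ _ E A0 B0 X A' B' hn hl hev h6 henv hcase
  have l1 : min ε1 (min ε2 (min ε3 (min ε4 ε5))) ≤ ε1 := min_le_left _ _
  have l2 : min ε1 (min ε2 (min ε3 (min ε4 ε5))) ≤ ε2 := (min_le_right _ _).trans (min_le_left _ _)
  have l3 : min ε1 (min ε2 (min ε3 (min ε4 ε5))) ≤ ε3 :=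
    (min_le_right _ _).trans ((min_le_right _ _).trans (min_le_left _ _))
  have l4 : min ε1 (min ε2 (min ε3 (min ε4 ε5))) ≤ ε4 :=
    (min_le_right _ _).trans ((min_le_right _ _).trans ((min_le_right _ _).trans (min_le_left _ _)))
  have l5 : min ε1 (min ε2 (min ε3 (min ε4 ε5))) ≤ ε5 :=
    (min_le_right _ _).trans ((min_le_right _ _).trans ((min_le_right _ _).trans (min_le_right _ _)))
  have hsw : Switch5 E (A0 ∪ X) B0 := by
    rcases hcase with h | h | ⟨h, h'⟩ | h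
    · exact H2 V E A0 B0 X A' B' (by omega) hl (e1d_env_mono henv l2) h
    · exact H3 V E A0 B0 X A' B' (by omega) hl (e1d_env_mono henv l3) h
    · exact H4 V E A0 B0 X A' B' (by omega) hl (e1d_env_mono henv l4) h h'
    · exact H5 V E A0 B0 X A' B' (by omega) hl (e1d_env_mono henv l5) h
  exact H1 V E A0 B0 X A' B' (by omega) hl hev h6 (e1d_env_mono henv l1) hsw

theorem e1d_incl {V : Type} [DecidableEq V] (N1 N2 N3 : Finset V) :
    N1.card + N2.card + N3.card ≤ (N1 ∪ N2 ∪ N3).card + ((N1 ∩ N2).card + (N1 ∩ N3).card +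
      (N2 ∩ N3).card) := by
  have h1 := card_union_add_card_inter N1 N2
  have h2 := card_union_add_card_inter (N1 ∪ N2) N3
  have h3 : ((N1 ∪ N2) ∩ N3).card ≤ (N1 ∩ N3).card + (N2 ∩ N3).card := by
    rw [union_inter_distrib_right]
    exact card_union_le _ _
  omega

theorem e1d_cn {V : Type} [DecidableEq V] (E : Finset (Sym2 V)) (A B : Finset V) (x y : V) :
    (((A ∪ B).filter (fun m => s(x, m) ∈ E)) ∩ ((A ∪ B).filter (fun m => s(y, m) ∈ E))).card ≤
      cn E A x y + cn E B x y := by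
  unfold cn
  refine le_trans (card_le_card ?_) (card_union_le _ _)
  intro m hm
  rw [mem_inter, mem_filter, mem_filter] at hm
  obtain ⟨⟨h1, h2⟩, _, h3⟩ := hm
  rw [mem_union, mem_filter, mem_filter]
  have h4 : s(m, y) ∈ E := by rw [Sym2.eq_swap]; exact h3
  rcases mem_union.1 h1 with h | h
  · exact Or.inl ⟨h, h2, h4⟩
  · exact Or.inr ⟨h, h2, h4⟩

/-- three mixed vertices -/
theorem e1d_three {V : Type} [Fintype V] [DecidableEq V] {E : Finset (Sym2 V)} {ε : ℝ}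
    {A0 B0 X A' B' : Finset V} (hl : Loopless E) (h : Env1 E ε (1 / 60) A0 B0 X A' B')
    (hε : ε ≤ 1 / 1000) (hn : 1000 ≤ Fintype.card V) (hX : 2 < X.card) :
    ∃ x ∈ X, ∃ x' ∈ X, x ≠ x' ∧ (1 / 60 * nV V ≤ (cn E A' x x' : ℝ) ∨
      1 / 60 * nV V ≤ (cn E B' x x' : ℝ)) := by
  by_contra hcon
  push Not at hcon
  obtain ⟨x1, x2, x3, h1, h2, h3, h12, h13, h23⟩ := Finset.two_lt_card_iff.1 hX
  obtain ⟨-, -, hout, hdeg, -⟩ := h.basic hl
  have hnR : (1000 : ℝ) ≤ nV V := by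
    have : ((1000 : ℕ) : ℝ) ≤ (Fintype.card V : ℝ) := Nat.cast_le.2 hn
    simpa using this
  have hdisj : Disjoint A' B' := Finset.disjoint_of_subset_left h.subA
    (Finset.disjoint_of_subset_right h.subB h.dAB)
  have hN : ∀ x : V, (nV V - 1) / 2 - 2 * ε * nV V ≤
      (((A' ∪ B').filter (fun m => s(x, m) ∈ E)).card : ℝ) := by
    intro x
    have e1 : ((A' ∪ B').filter (fun m => s(x, m) ∈ E)).card = dg E A' x + dg E B' x := by
      unfold dg
      rw [filter_union, card_union_of_disjoint (disjoint_filter_filter hdisj)]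
    have e2 := hdeg x
    have e3 := h.mindeg x
    have e4 : (Fintype.card V : ℝ) ≤ 2 * (((dg E A' x + dg E B' x : ℕ) : ℝ) +
        ((Finset.univ \ (A' ∪ B')).card : ℝ)) + 1 := by
      have : Fintype.card V ≤ 2 * ((dg E A' x + dg E B' x) + (Finset.univ \ (A' ∪ B')).card) + 1 := by
        omega
      exact_mod_cast this
    rw [e1]
    have e5 : nV V = (Fintype.card V : ℝ) := rfl
    rw [← e5] at e4
    linarith
  have k1 := hcon x1 h1 x2 h2 h12
  have k2 := hcon x1 h1 x3 h3 h13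
  have k3 := hcon x2 h2 x3 h3 h23
  have c1 := e1d_cn E A' B' x1 x2
  have c2 := e1d_cn E A' B' x1 x3
  have c3 := e1d_cn E A' B' x2 x3
  have i1 := e1d_incl ((A' ∪ B').filter (fun m => s(x1, m) ∈ E))
    ((A' ∪ B').filter (fun m => s(x2, m) ∈ E)) ((A' ∪ B').filter (fun m => s(x3, m) ∈ E))
  have i2 : (((A' ∪ B').filter (fun m => s(x1, m) ∈ E)) ∪ ((A' ∪ B').filter (fun m => s(x2, m) ∈ E)) ∪
      ((A' ∪ B').filter (fun m => s(x3, m) ∈ E))).card ≤ Fintype.card V := card_le_univ _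
  have i3 : (((A' ∪ B').filter (fun m => s(x1, m) ∈ E)).card : ℝ) +
      (((A' ∪ B').filter (fun m => s(x2, m) ∈ E)).card : ℝ) +
      (((A' ∪ B').filter (fun m => s(x3, m) ∈ E)).card : ℝ) ≤ nV V +
      (((cn E A' x1 x2 : ℝ) + (cn E B' x1 x2 : ℝ)) + ((cn E A' x1 x3 : ℝ) + (cn E B' x1 x3 : ℝ)) +
        ((cn E A' x2 x3 : ℝ) + (cn E B' x2 x3 : ℝ))) := by
    have i4 : ((A' ∪ B').filter (fun m => s(x1, m) ∈ E)).card +
      ((A' ∪ B').filter (fun m => s(x2, m) ∈ E)).card +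
      ((A' ∪ B').filter (fun m => s(x3, m) ∈ E)).card ≤ Fintype.card V +
      ((cn E A' x1 x2 + cn E B' x1 x2) + (cn E A' x1 x3 + cn E B' x1 x3) +
        (cn E A' x2 x3 + cn E B' x2 x3)) := by omega
    exact_mod_cast i4
  have j1 := hN x1
  have j2 := hN x2
  have j3 := hN x3
  have j4 : ε * nV V ≤ 1 / 1000 * nV V := mul_le_mul_of_nonneg_right hε (by linarith)
  linarith [k1.1, k1.2, k2.1, k2.2, k3.1, k3.2]

/-- two mixed vertices, `|A0| ≤ |B0|` -/
theorem e1d_two {V : Type} [Fintype V] [DecidableEq V] {E : Finset (Sym2 V)} {ε : ℝ}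
    {A0 B0 X A' B' : Finset V} (hl : Loopless E) (h : Env1 E ε (1 / 60) A0 B0 X A' B')
    (hε : ε ≤ 1 / 1000) (hn : 1000 ≤ Fintype.card V) (hX : X.card = 2)
    (hf : (crs E (A0 ∪ X) (B0 ∪ X)).card ≤ 4) (hAB : A0.card ≤ B0.card) :
    ∃ x ∈ X, ∃ x' ∈ X, x ≠ x' ∧ 1 / 60 * nV V ≤ (cn E A' x x' : ℝ) := by
  obtain ⟨x, x', hxx, hXeq⟩ := card_eq_two.1 hX
  have hx : x ∈ X := by rw [hXeq]; simp
  have hx' : x' ∈ X := by rw [hXeq]; simp
  refine ⟨x, hx, x', hx', hxx, ?_⟩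
  have hcard := e1d_card h
  have hnR : (1000 : ℝ) ≤ nV V := by
    have : ((1000 : ℕ) : ℝ) ≤ (Fintype.card V : ℝ) := Nat.cast_le.2 hn
    simpa using this
  have key : A'.filter (fun a => ¬ ∃ b ∈ B0, s(a, b) ∈ E) ⊆
      A'.filter (fun m => s(x, m) ∈ E ∧ s(m, x') ∈ E) := by
    intro a ha
    rw [mem_filter] at ha ⊢
    have haA : a ∈ A0 := h.subA ha.1
    have h1 := e1d_deg_le (e1d_noB h ha.2)
    have h2 := e1d_dg_union E A0 X a
    have h3 := e1d_dg_lt hl haA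
    have h4 := h.mindeg a
    have h5 : X.card ≤ dg E X a := by omega
    have h6 : X.filter (fun y => s(a, y) ∈ E) = X :=
      Finset.eq_of_subset_of_card_le (filter_subset _ _) h5
    have h7 : s(a, x) ∈ E := by
      have : x ∈ X.filter (fun y => s(a, y) ∈ E) := by rw [h6]; exact hx
      exact (mem_filter.1 this).2
    have h8 : s(a, x') ∈ E := by
      have : x' ∈ X.filter (fun y => s(a, y) ∈ E) := by rw [h6]; exact hx'
      exact (mem_filter.1 this).2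
    exact ⟨ha.1, by rw [Sym2.eq_swap]; exact h7, h8⟩
  have h1 := card_le_card key
  have h2 : (A'.filter (fun a => ∃ b ∈ B0, s(a, b) ∈ E)).card ≤ 4 := by
    refine le_trans (card_le_card (filter_subset_filter _ h.subA)) ((e1d_few h).trans hf)
  have h3 := card_filter_add_card_filter_not (s := A') (fun a => ∃ b ∈ B0, s(a, b) ∈ E)
  have h4 : A'.card ≤ cn E A' x x' + 4 := by
    unfold cn
    omega
  have h5 : (A'.card : ℝ) ≤ (cn E A' x x' : ℝ) + 4 := by exact_mod_cast h4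
  have h6 := h.sizeA
  have j4 : ε * nV V ≤ 1 / 1000 * nV V := mul_le_mul_of_nonneg_right hε (by linarith)
  linarith

theorem ext1_dec :
    ∃ ε : ℝ, 0 < ε ∧ ∃ n0 : ℕ, ∀ (V : Type) [Fintype V] [DecidableEq V] (E : Finset (Sym2 V)),
      n0 ≤ Fintype.card V → Loopless E → EvenDeg E → 6 ∣ E.card →
      (∀ v, Fintype.card V ≤ 2 * deg E v + 1) →
      ((Fintype.card V % 24 ≠ 5 ∧ Fintype.card V % 24 ≠ 13) ∨ ∀ v, Fintype.card V ≤ 2 * deg E v) →
      Ext1 E ε → Dec E := by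
  obtain ⟨ε1, he1, n1, H1⟩ := e1d_all (1 / 60) (by norm_num) (by norm_num)
  obtain ⟨ε2, he2, n2, H2⟩ := e1d_all (1 / 20) (by norm_num) (by norm_num)
  obtain ⟨k0, H3⟩ := d1_dec
  obtain ⟨ε, hεpos, hε1, hε2, hε3⟩ : ∃ ε : ℝ, 0 < ε ∧ ε ≤ ε1 ∧ ε ≤ ε2 ∧ ε ≤ 1 / 1000 := by
    refine ⟨min ε1 (min ε2 (1 / 1000)), ?_, min_le_left _ _,
      (min_le_right _ _).trans (min_le_left _ _), (min_le_right _ _).trans (min_le_right _ _)⟩
    simp only [lt_min_iff]
    exact ⟨he1, he2, by norm_num⟩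
  obtain ⟨n3, P1⟩ := prep1 ε (1 / 60) hεpos (by linarith) (by norm_num)
  obtain ⟨n4, P2⟩ := prep1 ε (1 / 20) hεpos (by linarith) (by norm_num)
  refine ⟨ε, hεpos, n1 + n2 + n3 + n4 + 4 * k0 + 1000, ?_⟩
  intro V _ _ E hn hl hev h6 hmin hmod hext
  obtain ⟨A', B', hdis, hA', hB', hNA, hNB⟩ := hext
  have hnR : (1000 : ℝ) ≤ nV V := by
    have : ((1000 : ℕ) : ℝ) ≤ (Fintype.card V : ℝ) := Nat.cast_le.2 (by omega)
    simpa using this
  obtain ⟨A0, B0, X, henv, hX⟩ := P2 V E A' B' (by omega) hl hmin hdis hA' hB' hNA hNB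
  rcases X.eq_empty_or_nonempty with hXe | ⟨x, hx⟩
  · -- no mixed vertices
    have hcard := e1d_card henv
    rw [hXe, card_empty, add_zero] at hcard
    have hXc : X.card = 0 := by rw [hXe]; rfl
    rcases le_total A0.card B0.card with hab | hab
    · exact H2 V E A0 B0 X A' B' (by omega) hl hev h6 (e1d_env_mono henv hε2)
        (Or.inl (e1d_small hl henv (by omega)))
    · refine H2 V E A0 B0 X A' B' (by omega) hl hev h6 (e1d_env_mono henv hε2)
        (Or.inr (Or.inl ?_))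
      intro b hb
      obtain ⟨a, ha, hab'⟩ := e1d_small hl henv.swap (by omega) b hb
      exact ⟨a, ha, by rw [Sym2.eq_swap]; exact hab'⟩
  · -- mixed vertices
    have hxd := (hX x).1 hx
    obtain ⟨A1, B1, Y, henv1, hY⟩ := P1 V E A' B' (by omega) hl hmin hdis hA' hB' hNA hNB
    have hxY : x ∈ Y := by
      rw [hY]
      constructor <;> nlinarith [hxd.1, hxd.2]
    have hcard := e1d_card henv1
    have hYpos : 0 < Y.card := card_pos.2 ⟨x, hxY⟩
    have hfin := H1 V E A1 B1 Y A' B' (by omega) hl hev h6 (e1d_env_mono henv1 hε1)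
    have hfin' := H1 V E B1 A1 Y B' A' (by omega) hl hev h6 (e1d_env_mono henv1.swap hε1)
    by_cases hs1 : 2 * (A1.card + Y.card) ≤ Fintype.card V
    · exact hfin (Or.inl (e1d_small hl henv1 hs1))
    by_cases hs2 : 2 * (B1.card + Y.card) ≤ Fintype.card V
    · exact hfin' (Or.inl (e1d_small hl henv1.swap hs2))
    by_cases hf : 5 ≤ (crs E (A1 ∪ Y) (B1 ∪ Y)).card
    · exact hfin (Or.inr (Or.inr (Or.inl ⟨hf, x, hxY, by linarith [hxd.1], by linarith [hxd.2]⟩)))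
    push Not at hs1 hs2 hf
    by_cases h3 : 2 < Y.card
    · obtain ⟨y, hy, y', hy', hne, hc⟩ := e1d_three hl henv1 hε3 (by omega) h3
      rcases hc with hc | hc
      · exact hfin (Or.inr (Or.inr (Or.inr ⟨y, hy, y', hy', hne, hc⟩)))
      · exact hfin' (Or.inr (Or.inr (Or.inr ⟨y, hy, y', hy', hne, hc⟩)))
    by_cases h2 : Y.card = 2
    · rcases le_total A1.card B1.card with hab | hab
      · exact hfin (Or.inr (Or.inr (Or.inr (e1d_two hl henv1 hε3 (by omega) h2 (by omega) hab))))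
      · refine hfin' (Or.inr (Or.inr (Or.inr (e1d_two hl henv1.swap hε3 (by omega) h2 ?_ hab))))
        rw [e1d_crs_comm]
        omega
    · -- exactly one mixed vertex
      have hY1 : Y.card = 1 := by omega
      have hYx : Y = {x} := by
        obtain ⟨y, hy⟩ := card_eq_one.1 hY1
        rw [hy, mem_singleton] at hxY
        rw [hy, hxY]
      have hfew := e1d_few henv1
      have hbig : 4 < A1.card := by omega
      obtain ⟨a, haA, hano⟩ : ∃ a ∈ A1, ¬ ∃ b ∈ B1, s(a, b) ∈ E := by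
        by_contra hcon
        push Not at hcon
        have : A1.filter (fun a => ∃ b ∈ B1, s(a, b) ∈ E) = A1 := by
          rw [filter_eq_self]
          exact hcon
        rw [this] at hfew
        omega
      have d1 := e1d_deg_le (e1d_noB henv1 hano)
      have d2 := e1d_dg_lt hl (S := A1 ∪ Y) (mem_union_left Y haA)
      have d3 := card_union_le A1 Y
      have d4 := hmin a
      have hdega : deg E a = A1.card := by omega
      obtain ⟨k, hk⟩ := hev a
      have hmod' : Fintype.card V % 24 ≠ 5 ∧ Fintype.card V % 24 ≠ 13 := by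
        rcases hmod with h | h
        · exact h
        · have := h a
          omega
      have hn4 : Fintype.card V = 4 * k + 1 := by omega
      rw [hn4] at hmod'
      refine H3 V E k A1 B1 x (by omega) ?_ hmod'
      refine ⟨henv1.dAB, ?_, ?_, ?_, by omega, by omega, hl, hev, h6, ?_, ?_, by omega⟩
      · exact fun h => disjoint_left.1 henv1.dAX h hxY
      · exact fun h => disjoint_left.1 henv1.dBX h hxY
      · rw [← henv1.cover, hYx, union_comm _ ({x} : Finset V), insert_eq]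
      · intro v
        have := hmin v
        omega
      · have e1 : insert x A1 = A1 ∪ Y := by rw [hYx, union_comm, insert_eq]
        have e2 : insert x B1 = B1 ∪ Y := by rw [hYx, union_comm, insert_eq]
        rw [e1, e2]
        omega

end H15C6
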