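import Pool.Agent.H15.C6.E1A

/-!
Module E1T1 (part of E1T).  Extremal case 1: existence of five switches.  `A := A0 ∪ X`, `n = |V|`.
All auxiliary vertices are chosen in `A'`, `B'` (private, outside everything chosen before; every vertex of
`A'` is adjacent to all but `ε n` vertices of `A'`, etc.).

`sw_T1`: every vertex of `A0` has a neighbour in `B0`.  Choose greedily, for `i = 0..4`, `a, a' ∈ A'` adjacent with
neighbours `b ≠ b'` in `B0` (each `b ∈ B0` has at most `(τ + 2ε) n` neighbours in `A0`, so given `a, b` there is `a'`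
among the `≥ (1/2 - 2ε) n` neighbours of `a` in `A'` not adjacent to `b`), all ten `a`'s distinct.
`c0 = a b c c' b' a'` (path `b c c' b'`, inner edges of `A`: only `a'a`: 1), `c1 = a b c'' b' a' d` (2 inner edges of
`A`); all `c, c', c'', d` private.
`sw_T1'`: every vertex of `B0` has a neighbour in `A0`.  Symmetric choice of adjacent `b, b' ∈ B'` with
neighbours `a ≠ a'` in `A0`: `c0 = a b c b' a' d` (inner edges of `A`: 2), `c1 = b a d d' a' b'` with `b'b` an edge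
(inner edges of `A`: 3).
`sw_T2`: `x ∈ X` with `dg E A' x, dg E B' x ≥ 3τ n` and at least five edges `s(a_i,b_i)` between `A0` and `B0`.
For each choose private `b' ∈ B'` adjacent to `x` and to `b_i` (possible: `b_i` misses at most `(τ+4ε) n` vertices of
`B'`).  `c0 = a_i b_i c b' x d` (`c` common neighbour of `b_i, b'`; `d` common neighbour of `x, a_i`; inner edges of
`A`: 2), `c1 = a_i b_i b' x d' d''` (path `x d' d'' a_i`; inner edges of `A`: 3).
`sw_T3`: `x ≠ x' ∈ X` with at least `τ n` common neighbours in `A'`.  Five times: private `b, b' ∈ B'` with `x b`, `b b'`,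
`b' x'` edges; `c0 = x b c b' x' d` (`d` common neighbour of `x, x'` in `A'`; inner: 2),
`c1 = x b b' x' d' d''` (path of length three from `x'` to `x`; inner: 3).
-/

open Finset

namespace H15C6

theorem e1t1_greedy {V α : Type} [DecidableEq V] (sup : α → Finset V) (s N k : ℕ)
    (P : ℕ → α → Prop) (hs : ∀ i x, P i x → (sup x).card ≤ s) (G : Finset V)
    (hN : G.card + k * s ≤ N) (hne : Nonempty α)
    (h : ∀ i, i < k → ∀ F : Finset V, F.card ≤ N → ∃ x, P i x ∧ Disjoint (sup x) F) :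
    ∃ x : ℕ → α, ∀ i, i < k → P i (x i) ∧ Disjoint (sup (x i)) G ∧
      ∀ j, j < i → Disjoint (sup (x i)) (sup (x j)) := by
  suffices H : ∀ l, l ≤ k → ∃ x : ℕ → α, ∀ i, i < l → P i (x i) ∧ Disjoint (sup (x i)) G ∧
      ∀ j, j < i → Disjoint (sup (x i)) (sup (x j)) from H k le_rfl
  intro l
  induction l with
  | zero => intro _; exact ⟨fun _ => Classical.choice hne, fun i hi => absurd hi (by omega)⟩
  | succ l ih =>
    intro hl
    obtain ⟨x, hx⟩ := ih (by omega)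
    have hU : ((Finset.range l).biUnion (fun i => sup (x i))).card ≤ l * s := by
      refine Finset.card_biUnion_le_card_mul _ _ _ ?_ |>.trans (by rw [Finset.card_range])
      intro i hi
      exact hs i _ (hx i (Finset.mem_range.1 hi)).1
    have hls : l * s ≤ k * s := Nat.mul_le_mul_right s (by omega)
    obtain ⟨y, hy, hyd⟩ := h l (by omega) (G ∪ (Finset.range l).biUnion (fun i => sup (x i)))
      ((Finset.card_union_le _ _).trans (by omega))
    rw [Finset.disjoint_union_right, Finset.disjoint_biUnion_right] at hyd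
    refine ⟨fun i => if i < l then x i else y, fun i hi => ?_⟩
    rcases Nat.lt_or_ge i l with hil | hil
    · obtain ⟨h1, h2, h3⟩ := hx i hil
      simp only [if_pos hil]
      refine ⟨h1, h2, fun j hj => ?_⟩
      rw [if_pos (hj.trans hil)]
      exact h3 j hj
    · have hie : i = l := by omega
      subst hie
      simp only [lt_irrefl, if_false]
      refine ⟨hy, hyd.1, fun j hj => ?_⟩
      rw [if_pos hj]
      exact hyd.2 j (Finset.mem_range.2 hj)

/-- the facts about the environment which are used -/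
structure E1t1Half {V : Type} [DecidableEq V] (E : Finset (Sym2 V)) (A0 A' B0 B' : Finset V) :
    Prop where
  subA : A' ⊆ A0
  subB : B' ⊆ B0
  dis : Disjoint A0 B0
  ha : ∀ F : Finset V, F.card ≤ 60 → ∃ z ∈ A', z ∉ F
  ca : ∀ x ∈ A0, ∀ y ∈ A0, ∀ F : Finset V, F.card ≤ 60 →
    ∃ z ∈ A', z ∉ F ∧ s(x, z) ∈ E ∧ s(z, y) ∈ E
  cb : ∀ x ∈ B0, ∀ y ∈ B0, ∀ F : Finset V, F.card ≤ 60 →
    ∃ z ∈ B', z ∉ F ∧ s(x, z) ∈ E ∧ s(z, y) ∈ E
  da : ∀ x ∈ A0, ∀ y ∈ B0, ∀ F : Finset V, F.card ≤ 60 →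
    ∃ z ∈ A', z ∉ F ∧ s(x, z) ∈ E ∧ s(y, z) ∉ E

/-- a configuration: two six-cycles `x y c c' y' x'` and `x y c'' y' x' d` -/
structure E1t1Cfg {V : Type} [DecidableEq V] (E : Finset (Sym2 V)) (A0 B0 : Finset V)
    (x y x' y' c c' c'' d : V) : Prop where
  hx : x ∈ A0
  hy : y ∈ B0
  hx' : x' ∈ A0
  hy' : y' ∈ B0
  hc : c ∈ B0
  hc' : c' ∈ B0
  hc'' : c'' ∈ B0
  hd : d ∈ A0
  xy : s(x, y) ∈ E
  yc : s(y, c) ∈ E
  cc : s(c, c') ∈ E
  cy : s(c', y') ∈ E
  yx : s(y', x') ∈ E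
  xx : s(x', x) ∈ E
  yc2 : s(y, c'') ∈ E
  cy2 : s(c'', y') ∈ E
  xd : s(x', d) ∈ E
  dx : s(d, x) ∈ E
  n1 : x ≠ x'
  n2 : y ≠ y'
  n3 : c ≠ c'
  n4 : c ≠ y
  n5 : c ≠ y'
  n6 : c' ≠ y
  n7 : c' ≠ y'
  n8 : c'' ≠ y
  n9 : c'' ≠ y'
  n10 : d ≠ x
  n11 : d ≠ x'

theorem e1t1_cfgs {V : Type} [DecidableEq V] {E : Finset (Sym2 V)} {A0 A' B0 B' : Finset V}
    (hH : E1t1Half E A0 A' B0 B') (hl : Loopless E) (hnb : ∀ a ∈ A0, ∃ b ∈ B0, s(a, b) ∈ E) :
    ∃ x y x' y' c c' c'' d : ℕ → V,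
      (∀ i, i < 5 → E1t1Cfg E A0 B0 (x i) (y i) (x' i) (y' i) (c i) (c' i) (c'' i) (d i)) ∧
      (∀ i j, i < 5 → j < i →
        Disjoint ({x i, x' i, c i, c' i, c'' i, d i} : Finset V)
          {x j, x' j, c j, c' j, c'' j, d j, y j, y' j}) := by
  obtain ⟨v0, _, _⟩ := hH.ha ∅ (by simp)
  obtain ⟨t, ht⟩ := e1t1_greedy (α := V × V × V × V) (fun t => {t.1, t.2.2.1}) 2 10 5
    (fun _ t => (t.1 ∈ A' ∧ t.2.1 ∈ B0 ∧ t.2.2.1 ∈ A' ∧ t.2.2.2 ∈ B0) ∧ s(t.1, t.2.1) ∈ E ∧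
      s(t.2.2.1, t.2.2.2) ∈ E ∧ s(t.1, t.2.2.1) ∈ E ∧ t.2.1 ≠ t.2.2.2)
    (fun _ t _ => Finset.card_le_two) ∅ (by simp) ⟨(v0, v0, v0, v0)⟩ (by
      intro _ _ F hF
      obtain ⟨x, hx, hxF⟩ := hH.ha F (by omega)
      obtain ⟨y, hy, hxy⟩ := hnb x (hH.subA hx)
      obtain ⟨x', hx', hxF', hxx, hyx⟩ := hH.da x (hH.subA hx) y hy F (by omega)
      obtain ⟨y', hy', hxy'⟩ := hnb x' (hH.subA hx')
      have hyy : y ≠ y' := by
        intro hyy
        rw [← hyy, Sym2.eq_swap] at hxy'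
        exact hyx hxy'
      refine ⟨(x, y, x', y'), ⟨⟨hx, hy, hx', hy'⟩, hxy, hxy', hxx, hyy⟩, ?_⟩
      rw [Finset.disjoint_left]
      intro z hz
      simp only [Finset.mem_insert, Finset.mem_singleton] at hz
      rcases hz with rfl | rfl
      · exact hxF
      · exact hxF')
  obtain ⟨r, hr⟩ := e1t1_greedy (α := V × V × V × V)
    (fun r => {r.1, r.2.1, r.2.2.1, r.2.2.2}) 4 40 5
    (fun i r => (r.1 ∈ B' ∧ r.2.1 ∈ B' ∧ r.2.2.1 ∈ B' ∧ r.2.2.2 ∈ A') ∧
      (s((t i).2.1, r.1) ∈ E ∧ s(r.1, r.2.1) ∈ E ∧ s(r.2.1, (t i).2.2.2) ∈ E) ∧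
      (s((t i).2.1, r.2.2.1) ∈ E ∧ s(r.2.2.1, (t i).2.2.2) ∈ E) ∧
      (s((t i).2.2.1, r.2.2.2) ∈ E ∧ s(r.2.2.2, (t i).1) ∈ E))
    (fun _ r _ => Finset.card_le_four)
    ((Finset.range 5).biUnion (fun i => {(t i).1, (t i).2.1, (t i).2.2.1, (t i).2.2.2})) (by
      have h1 : ((Finset.range 5).biUnion (fun i =>
          ({(t i).1, (t i).2.1, (t i).2.2.1, (t i).2.2.2} : Finset V))).card ≤ 5 * 4 := by
        refine Finset.card_biUnion_le_card_mul _ _ _ (fun i _ => Finset.card_le_four) |>.trans ?_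
        rw [Finset.card_range]
      omega) ⟨(v0, v0, v0, v0)⟩ (by
      intro i hi F hF
      obtain ⟨⟨⟨h1, h2, h3, h4⟩, h5, h6, h7, h8⟩, -, -⟩ := ht i hi
      obtain ⟨c, hc, hcF, hc1, hc2⟩ := hH.cb _ h2 _ h2 F (by omega)
      obtain ⟨c', hc', hcF', hc1', hc2'⟩ := hH.cb c (hH.subB hc) _ h4 F (by omega)
      obtain ⟨c'', hc'', hcF'', hc1'', hc2''⟩ := hH.cb _ h2 _ h4 F (by omega)
      obtain ⟨d, hd, hdF, hd1, hd2⟩ := hH.ca _ (hH.subA h3) _ (hH.subA h1) F (by omega)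
      refine ⟨(c, c', c'', d), ⟨⟨hc, hc', hc'', hd⟩, ⟨hc1, hc1', hc2'⟩, ⟨hc1'', hc2''⟩, hd1, hd2⟩,
        ?_⟩
      rw [Finset.disjoint_left]
      intro z hz
      simp only [Finset.mem_insert, Finset.mem_singleton] at hz
      rcases hz with rfl | rfl | rfl | rfl <;> assumption)
  -- the second family avoids the first
  have hG : ∀ i, i < 5 → ∀ j, j < 5 → ∀ z, (z = (t j).1 ∨ z = (t j).2.1 ∨ z = (t j).2.2.1 ∨
      z = (t j).2.2.2) → z ≠ (r i).1 ∧ z ≠ (r i).2.1 ∧ z ≠ (r i).2.2.1 ∧ z ≠ (r i).2.2.2 := by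
    intro i hi j hj z hz
    have h1 := (hr i hi).2.1
    rw [Finset.disjoint_left] at h1
    have h2 : z ∈ (Finset.range 5).biUnion (fun i =>
        ({(t i).1, (t i).2.1, (t i).2.2.1, (t i).2.2.2} : Finset V)) := by
      rw [Finset.mem_biUnion]
      refine ⟨j, Finset.mem_range.2 hj, ?_⟩
      simp only [Finset.mem_insert, Finset.mem_singleton]
      exact hz
    refine ⟨?_, ?_, ?_, ?_⟩ <;> rintro rfl <;> exact h1 (by simp) h2
  refine ⟨fun i => (t i).1, fun i => (t i).2.1, fun i => (t i).2.2.1, fun i => (t i).2.2.2,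
    fun i => (r i).1, fun i => (r i).2.1, fun i => (r i).2.2.1, fun i => (r i).2.2.2, ?_, ?_⟩
  · intro i hi
    obtain ⟨⟨⟨h1, h2, h3, h4⟩, h5, h6, h7, h8⟩, -, -⟩ := ht i hi
    obtain ⟨⟨⟨k1, k2, k3, k4⟩, ⟨k5, k6, k7⟩, ⟨k8, k9⟩, k10, k11⟩, -, -⟩ := hr i hi
    have g1 := hG i hi i hi (t i).1 (Or.inl rfl)
    have g2 := hG i hi i hi (t i).2.1 (Or.inr (Or.inl rfl))
    have g3 := hG i hi i hi (t i).2.2.1 (Or.inr (Or.inr (Or.inl rfl)))
    have g4 := hG i hi i hi (t i).2.2.2 (Or.inr (Or.inr (Or.inr rfl)))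
    exact ⟨hH.subA h1, h2, hH.subA h3, h4, hH.subB k1, hH.subB k2, hH.subB k3, hH.subA k4, h5,
      k5, k6, k7, by rw [Sym2.eq_swap]; exact h6, by rw [Sym2.eq_swap]; exact h7, k8, k9, k10, k11,
      hl.ne h7, h8, hl.ne k6, g2.1.symm, g4.1.symm, g2.2.1.symm, g4.2.1.symm, g2.2.2.1.symm,
      g4.2.2.1.symm, g1.2.2.2.symm, g3.2.2.2.symm⟩
  · intro i j hi hj
    have hj5 : j < 5 := by omega
    obtain ⟨⟨⟨h1, h2, h3, h4⟩, h5, h6, h7, h8⟩, -, hd1⟩ := ht i hi
    obtain ⟨⟨⟨k1, k2, k3, k4⟩, ⟨k5, k6, k7⟩, ⟨k8, k9⟩, k10, k11⟩, -, hd2⟩ := hr i hi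
    obtain ⟨⟨⟨m1, m2, m3, m4⟩, -⟩, -, -⟩ := ht j hj5
    have hd1' := hd1 j hj
    have hd2' := hd2 j hj
    rw [Finset.disjoint_left] at hd1' hd2' ⊢
    simp only [Finset.mem_insert, Finset.mem_singleton] at hd1' hd2' ⊢
    have hAB : ∀ z, z ∈ A' → z ∈ B0 → False := fun z hz hz' =>
      Finset.disjoint_left.1 hH.dis (hH.subA hz) hz'
    intro z hz hz'
    have q1 : (z = (t i).1 ∨ z = (t i).2.2.1) ∨ (z = (r i).1 ∨ z = (r i).2.1 ∨ z = (r i).2.2.1 ∨
        z = (r i).2.2.2) := by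
      rcases hz with h | h | h | h | h | h
      · exact Or.inl (Or.inl h)
      · exact Or.inl (Or.inr h)
      · exact Or.inr (Or.inl h)
      · exact Or.inr (Or.inr (Or.inl h))
      · exact Or.inr (Or.inr (Or.inr (Or.inl h)))
      · exact Or.inr (Or.inr (Or.inr (Or.inr h)))
    have q2 : (z = (t j).1 ∨ z = (t j).2.2.1) ∨ (z = (r j).1 ∨ z = (r j).2.1 ∨ z = (r j).2.2.1 ∨
        z = (r j).2.2.2) ∨ (z = (t j).2.1 ∨ z = (t j).2.2.2) := by
      rcases hz' with h | h | h | h | h | h | h | h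
      · exact Or.inl (Or.inl h)
      · exact Or.inl (Or.inr h)
      · exact Or.inr (Or.inl (Or.inl h))
      · exact Or.inr (Or.inl (Or.inr (Or.inl h)))
      · exact Or.inr (Or.inl (Or.inr (Or.inr (Or.inl h))))
      · exact Or.inr (Or.inl (Or.inr (Or.inr (Or.inr h))))
      · exact Or.inr (Or.inr (Or.inl h))
      · exact Or.inr (Or.inr (Or.inr h))
    clear hz hz'
    have hno : ∀ {i}, (z ≠ (r i).1 ∧ z ≠ (r i).2.1 ∧ z ≠ (r i).2.2.1 ∧ z ≠ (r i).2.2.2) →
        (z = (r i).1 ∨ z = (r i).2.1 ∨ z = (r i).2.2.1 ∨ z = (r i).2.2.2) → False := by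
      rintro i ⟨g1, g2, g3, g4⟩ (h | h | h | h)
      · exact g1 h
      · exact g2 h
      · exact g3 h
      · exact g4 h
    rcases q1 with q1 | q1
    · have hzA : z ∈ A' := by
        rcases q1 with h | h
        · rw [h]; exact h1
        · rw [h]; exact h3
      rcases q2 with q2 | q2 | q2
      · exact hd1' q1 q2
      · refine hno (hG j hj5 i hi z ?_) q2
        rcases q1 with h | h
        · exact Or.inl h
        · exact Or.inr (Or.inr (Or.inl h))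
      · rcases q2 with q2 | q2
        · exact hAB z hzA (q2 ▸ m2)
        · exact hAB z hzA (q2 ▸ m4)
    · rcases q2 with q2 | q2 | q2
      · refine hno (hG i hi j hj5 z ?_) q1
        rcases q2 with h | h
        · exact Or.inl h
        · exact Or.inr (Or.inr (Or.inl h))
      · exact hd2' q1 q2
      · refine hno (hG i hi j hj5 z ?_) q1
        rcases q2 with h | h
        · exact Or.inr (Or.inl h)
        · exact Or.inr (Or.inr (Or.inr h))

theorem e1t1_inj {V : Type} {a b c d e f : V} (h1 : a ≠ b) (h2 : a ≠ c) (h3 : a ≠ d) (h4 : a ≠ e)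
    (h5 : a ≠ f) (h6 : b ≠ c) (h7 : b ≠ d) (h8 : b ≠ e) (h9 : b ≠ f) (h10 : c ≠ d) (h11 : c ≠ e)
    (h12 : c ≠ f) (h13 : d ≠ e) (h14 : d ≠ f) (h15 : e ≠ f) :
    Function.Injective (![a, b, c, d, e, f] : Fin 6 → V) := by
  intro i j hij
  fin_cases i <;> fin_cases j <;>
    first
    | rfl
    | exact absurd hij h1
    | exact absurd hij.symm h1
    | exact absurd hij h2
    | exact absurd hij.symm h2
    | exact absurd hij h3
    | exact absurd hij.symm h3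
    | exact absurd hij h4
    | exact absurd hij.symm h4
    | exact absurd hij h5
    | exact absurd hij.symm h5
    | exact absurd hij h6
    | exact absurd hij.symm h6
    | exact absurd hij h7
    | exact absurd hij.symm h7
    | exact absurd hij h8
    | exact absurd hij.symm h8
    | exact absurd hij h9
    | exact absurd hij.symm h9
    | exact absurd hij h10
    | exact absurd hij.symm h10
    | exact absurd hij h11
    | exact absurd hij.symm h11
    | exact absurd hij h12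
    | exact absurd hij.symm h12
    | exact absurd hij h13
    | exact absurd hij.symm h13
    | exact absurd hij h14
    | exact absurd hij.symm h14
    | exact absurd hij h15
    | exact absurd hij.symm h15

theorem e1t1_inn {V : Type} [DecidableEq V] {v : Fin 6 → V} (hv : Function.Injective v)
    (A : Finset V) (T : Finset (Fin 6)) (hT : ∀ i, i ∈ T ↔ (v i ∈ A ∧ v (i + 1) ∈ A)) :
    (inn (cyc v) A).card = T.card := by
  have h1 : inn (cyc v) A = T.image (fun i : Fin 6 => s(v i, v (i + 1))) := by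
    ext e
    unfold inn
    rw [Finset.mem_inter, mem_cyc, Finset.mem_image]
    constructor
    · rintro ⟨⟨i, rfl⟩, h⟩
      rw [Finset.mk_mem_sym2_iff] at h
      exact ⟨i, (hT i).2 h, rfl⟩
    · rintro ⟨i, hi, rfl⟩
      refine ⟨⟨i, rfl⟩, ?_⟩
      rw [Finset.mk_mem_sym2_iff]
      exact (hT i).1 hi
  rw [h1, Finset.card_image_of_injective _ (cyc_inj hv)]

theorem e1t1_crs {V : Type} [DecidableEq V] (v : Fin 6 → V)
    (A B : Finset V) (T : Finset (Fin 6)) (hT : ∀ i, i ∈ T ↔ (¬ (v i ∈ A ∧ v (i + 1) ∈ A) ∧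
      ¬ (v i ∈ B ∧ v (i + 1) ∈ B))) :
    crs (cyc v) A B = T.image (fun i : Fin 6 => s(v i, v (i + 1))) := by
  ext e
  unfold crs
  rw [Finset.mem_sdiff, Finset.mem_sdiff, mem_cyc, Finset.mem_image]
  constructor
  · rintro ⟨⟨⟨i, rfl⟩, h⟩, h'⟩
    rw [Finset.mk_mem_sym2_iff] at h h'
    exact ⟨i, (hT i).2 ⟨h, h'⟩, rfl⟩
  · rintro ⟨i, hi, rfl⟩
    refine ⟨⟨⟨i, rfl⟩, ?_⟩, ?_⟩
    · rw [Finset.mk_mem_sym2_iff]
      exact ((hT i).1 hi).1
    · rw [Finset.mk_mem_sym2_iff]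
      exact ((hT i).1 hi).2

theorem e1t1_six {p : Fin 6 → Prop} (h0 : p 0) (h1 : p 1) (h2 : p 2) (h3 : p 3) (h4 : p 4)
    (h5 : p 5) : ∀ i, p i := by
  intro i
  fin_cases i
  · exact h0
  · exact h1
  · exact h2
  · exact h3
  · exact h4
  · exact h5

section Cfg

variable {V : Type} [DecidableEq V] {E : Finset (Sym2 V)} {A0 B0 : Finset V}
  {x y x' y' c c' c'' d : V}

theorem E1t1Cfg.ne (h : E1t1Cfg E A0 B0 x y x' y' c c' c'' d) (hd : Disjoint A0 B0) :
    ∀ a ∈ A0, ∀ b ∈ B0, a ≠ b := by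
  rintro a ha b hb rfl
  exact Finset.disjoint_left.1 hd ha hb

theorem E1t1Cfg.inj0 (h : E1t1Cfg E A0 B0 x y x' y' c c' c'' d) (hd : Disjoint A0 B0) :
    Function.Injective (![x, y, c, c', y', x'] : Fin 6 → V) := by
  have hne := h.ne hd
  exact e1t1_inj (hne x h.hx y h.hy) (hne x h.hx c h.hc) (hne x h.hx c' h.hc')
    (hne x h.hx y' h.hy') h.n1 h.n4.symm h.n6.symm h.n2 (hne x' h.hx' y h.hy).symm h.n3 h.n5
    (hne x' h.hx' c h.hc).symm h.n7 (hne x' h.hx' c' h.hc').symm (hne x' h.hx' y' h.hy').symm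

theorem E1t1Cfg.inj1 (h : E1t1Cfg E A0 B0 x y x' y' c c' c'' d) (hd : Disjoint A0 B0) :
    Function.Injective (![x, y, c'', y', x', d] : Fin 6 → V) := by
  have hne := h.ne hd
  exact e1t1_inj (hne x h.hx y h.hy) (hne x h.hx c'' h.hc'') (hne x h.hx y' h.hy') h.n1
    h.n10.symm h.n8.symm h.n2 (hne x' h.hx' y h.hy).symm (hne d h.hd y h.hy).symm h.n9
    (hne x' h.hx' c'' h.hc'').symm (hne d h.hd c'' h.hc'').symm (hne x' h.hx' y' h.hy').symm
    (hne d h.hd y' h.hy').symm h.n11.symm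

theorem E1t1Cfg.sub0 (h : E1t1Cfg E A0 B0 x y x' y' c c' c'' d) :
    cyc ![x, y, c, c', y', x'] ⊆ E := by
  intro e he
  rw [mem_cyc] at he
  obtain ⟨i, rfl⟩ := he
  exact e1t1_six (p := fun i : Fin 6 => s((![x, y, c, c', y', x'] : Fin 6 → V) i,
    (![x, y, c, c', y', x'] : Fin 6 → V) (i + 1)) ∈ E) h.xy h.yc h.cc h.cy h.yx h.xx i

theorem E1t1Cfg.sub1 (h : E1t1Cfg E A0 B0 x y x' y' c c' c'' d) :
    cyc ![x, y, c'', y', x', d] ⊆ E := by
  intro e he
  rw [mem_cyc] at he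
  obtain ⟨i, rfl⟩ := he
  exact e1t1_six (p := fun i : Fin 6 => s((![x, y, c'', y', x', d] : Fin 6 → V) i,
    (![x, y, c'', y', x', d] : Fin 6 → V) (i + 1)) ∈ E) h.xy h.yc2 h.cy2 h.yx h.xd h.dx i

/-- all edges contain a private vertex -/
theorem E1t1Cfg.priv (h : E1t1Cfg E A0 B0 x y x' y' c c' c'' d) {e : Sym2 V}
    (he : e ∈ cyc ![x, y, c, c', y', x'] ∪ cyc ![x, y, c'', y', x', d]) :
    ∃ z ∈ e, z ∈ ({x, x', c, c', c'', d} : Finset V) := by
  rw [Finset.mem_union, mem_cyc, mem_cyc] at he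
  rcases he with ⟨i, rfl⟩ | ⟨i, rfl⟩
  · exact e1t1_six (p := fun i : Fin 6 => ∃ z ∈ s((![x, y, c, c', y', x'] : Fin 6 → V) i,
      (![x, y, c, c', y', x'] : Fin 6 → V) (i + 1)), z ∈ ({x, x', c, c', c'', d} : Finset V))
      ⟨x, Sym2.mem_mk_left _ _, by simp⟩ ⟨c, Sym2.mem_mk_right _ _, by simp⟩
      ⟨c, Sym2.mem_mk_left _ _, by simp⟩ ⟨c', Sym2.mem_mk_left _ _, by simp⟩
      ⟨x', Sym2.mem_mk_right _ _, by simp⟩ ⟨x, Sym2.mem_mk_right _ _, by simp⟩ i
  · exact e1t1_six (p := fun i : Fin 6 => ∃ z ∈ s((![x, y, c'', y', x', d] : Fin 6 → V) i,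
      (![x, y, c'', y', x', d] : Fin 6 → V) (i + 1)), z ∈ ({x, x', c, c', c'', d} : Finset V))
      ⟨x, Sym2.mem_mk_left _ _, by simp⟩ ⟨c'', Sym2.mem_mk_right _ _, by simp⟩
      ⟨c'', Sym2.mem_mk_left _ _, by simp⟩ ⟨x', Sym2.mem_mk_right _ _, by simp⟩
      ⟨x', Sym2.mem_mk_left _ _, by simp⟩ ⟨x, Sym2.mem_mk_right _ _, by simp⟩ i

theorem E1t1Cfg.all (h : E1t1Cfg E A0 B0 x y x' y' c c' c'' d) {e : Sym2 V}
    (he : e ∈ cyc ![x, y, c, c', y', x'] ∪ cyc ![x, y, c'', y', x', d]) :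
    ∀ z ∈ e, z ∈ ({x, x', c, c', c'', d, y, y'} : Finset V) := by
  have h0 : ∀ i, (![x, y, c, c', y', x'] : Fin 6 → V) i ∈
      ({x, x', c, c', c'', d, y, y'} : Finset V) :=
    e1t1_six (by simp) (by simp) (by simp) (by simp) (by simp) (by simp)
  have h1 : ∀ i, (![x, y, c'', y', x', d] : Fin 6 → V) i ∈
      ({x, x', c, c', c'', d, y, y'} : Finset V) :=
    e1t1_six (by simp) (by simp) (by simp) (by simp) (by simp) (by simp)
  rw [Finset.mem_union, mem_cyc, mem_cyc] at he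
  intro z hz
  rcases he with ⟨i, rfl⟩ | ⟨i, rfl⟩
  · rw [Sym2.mem_iff] at hz
    rcases hz with rfl | rfl
    · exact h0 _
    · exact h0 _
  · rw [Sym2.mem_iff] at hz
    rcases hz with rfl | rfl
    · exact h1 _
    · exact h1 _

/-- the edges between the two parts and the numbers of inner edges -/
theorem E1t1Cfg.count (h : E1t1Cfg E A0 B0 x y x' y' c c' c'' d) {A B : Finset V}
    (hA : A0 ⊆ A) (hB : B0 ⊆ B) (hAB : Disjoint A B) :
    crs (cyc ![x, y, c, c', y', x']) A B = crs (cyc ![x, y, c'', y', x', d]) A B ∧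
    crs (cyc ![x, y, c, c', y', x']) B A = crs (cyc ![x, y, c'', y', x', d]) B A ∧
    (inn (cyc ![x, y, c'', y', x', d]) A).card = (inn (cyc ![x, y, c, c', y', x']) A).card + 1 ∧
    (inn (cyc ![x, y, c, c', y', x']) B).card = (inn (cyc ![x, y, c'', y', x', d]) B).card + 1 := by
  have hd : Disjoint A0 B0 := Finset.disjoint_of_subset_left hA (Finset.disjoint_of_subset_right hB hAB)
  have a1 := hA h.hx
  have a2 := hA h.hx'
  have a3 := hA h.hd
  have b1 := hB h.hy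
  have b2 := hB h.hy'
  have b3 := hB h.hc
  have b4 := hB h.hc'
  have b5 := hB h.hc''
  have na : ∀ {z}, z ∈ A → z ∉ B := fun hz hz' => Finset.disjoint_left.1 hAB hz hz'
  have nb : ∀ {z}, z ∈ B → z ∉ A := fun hz hz' => Finset.disjoint_left.1 hAB hz' hz
  have c1 := na a1
  have c2 := na a2
  have c3 := na a3
  have d1 := nb b1
  have d2 := nb b2
  have d3 := nb b3
  have d4 := nb b4
  have d5 := nb b5
  have e0 : crs (cyc ![x, y, c, c', y', x']) A B = {s(x, y), s(y', x')} := by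
    rw [e1t1_crs _ A B {0, 4} (e1t1_six (by simp [*]) (by simp [*]) (by simp [*]) (by simp [*])
      (by simp [*]) (by simp [*]))]
    rw [Finset.image_insert, Finset.image_singleton]
    rfl
  have e1 : crs (cyc ![x, y, c'', y', x', d]) A B = {s(x, y), s(y', x')} := by
    rw [e1t1_crs _ A B {0, 3} (e1t1_six (by simp [*]) (by simp [*]) (by simp [*]) (by simp [*])
      (by simp [*]) (by simp [*]))]
    rw [Finset.image_insert, Finset.image_singleton]
    rfl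
  have e2 : crs (cyc ![x, y, c, c', y', x']) B A = {s(x, y), s(y', x')} := by
    rw [e1t1_crs _ B A {0, 4} (e1t1_six (by simp [*]) (by simp [*]) (by simp [*]) (by simp [*])
      (by simp [*]) (by simp [*]))]
    rw [Finset.image_insert, Finset.image_singleton]
    rfl
  have e3 : crs (cyc ![x, y, c'', y', x', d]) B A = {s(x, y), s(y', x')} := by
    rw [e1t1_crs _ B A {0, 3} (e1t1_six (by simp [*]) (by simp [*]) (by simp [*]) (by simp [*])
      (by simp [*]) (by simp [*]))]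
    rw [Finset.image_insert, Finset.image_singleton]
    rfl
  refine ⟨e0.trans e1.symm, e2.trans e3.symm, ?_, ?_⟩
  · rw [e1t1_inn (h.inj1 hd) A {4, 5} (e1t1_six (by simp [*]) (by simp [*]) (by simp [*])
      (by simp [*]) (by simp [*]) (by simp [*])),
      e1t1_inn (h.inj0 hd) A {5} (e1t1_six (by simp [*]) (by simp [*]) (by simp [*])
      (by simp [*]) (by simp [*]) (by simp [*]))]
    rfl
  · rw [e1t1_inn (h.inj0 hd) B {1, 2, 3} (e1t1_six (by simp [*]) (by simp [*]) (by simp [*])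
      (by simp [*]) (by simp [*]) (by simp [*])),
      e1t1_inn (h.inj1 hd) B {1, 2} (e1t1_six (by simp [*]) (by simp [*]) (by simp [*])
      (by simp [*]) (by simp [*]) (by simp [*]))]
    rfl

end Cfg

theorem e1t1_switch {V : Type} [Fintype V] [DecidableEq V] {E : Finset (Sym2 V)}
    {A0 A' B0 B' : Finset V} (hH : E1t1Half E A0 A' B0 B') (hl : Loopless E)
    (hnb : ∀ a ∈ A0, ∃ b ∈ B0, s(a, b) ∈ E) {A B : Finset V} (hA : A0 ⊆ A) (hB : B0 ⊆ B)
    (hAB : Disjoint A B) : Switch5 E A B ∧ Switch5 E B A := by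
  obtain ⟨x, y, x', y', c, c', c'', d, hcfg, hdis⟩ := e1t1_cfgs hH hl hnb
  have hd0 : Disjoint A0 B0 := hH.dis
  have hdd : ∀ i j : Fin 5, i ≠ j → Disjoint
      (cyc ![x i, y i, c i, c' i, y' i, x' i] ∪ cyc ![x i, y i, c'' i, y' i, x' i, d i])
      (cyc ![x j, y j, c j, c' j, y' j, x' j] ∪ cyc ![x j, y j, c'' j, y' j, x' j, d j]) := by
    have key : ∀ i j : Fin 5, j < i → Disjoint
      (cyc ![x i, y i, c i, c' i, y' i, x' i] ∪ cyc ![x i, y i, c'' i, y' i, x' i, d i])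
      (cyc ![x j, y j, c j, c' j, y' j, x' j] ∪ cyc ![x j, y j, c'' j, y' j, x' j, d j]) := by
      intro i j hij
      rw [Finset.disjoint_left]
      intro e he he'
      obtain ⟨z, hze, hz⟩ := (hcfg i i.2).priv he
      have hz' := (hcfg j j.2).all he' z hze
      exact Finset.disjoint_left.1 (hdis i j i.2 (Fin.lt_def.1 hij)) hz hz'
    intro i j hij
    rcases lt_or_gt_of_ne hij with h | h
    · exact (key j i h).symm
    · exact key i j h
  have h6 : ∀ i : Fin 5, IsC6 (cyc ![x i, y i, c i, c' i, y' i, x' i]) :=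
    fun i => ⟨_, (hcfg i i.2).inj0 hd0, rfl⟩
  have h6' : ∀ i : Fin 5, IsC6 (cyc ![x i, y i, c'' i, y' i, x' i, d i]) :=
    fun i => ⟨_, (hcfg i i.2).inj1 hd0, rfl⟩
  constructor
  · refine ⟨fun i => cyc ![x i, y i, c i, c' i, y' i, x' i],
      fun i => cyc ![x i, y i, c'' i, y' i, x' i, d i], fun i => ?_, hdd⟩
    have hc := (hcfg i i.2).count hA hB hAB
    exact ⟨h6 i, h6' i, (hcfg i i.2).sub0, (hcfg i i.2).sub1, hc.1, hc.2.2.1⟩
  · refine ⟨fun i => cyc ![x i, y i, c'' i, y' i, x' i, d i],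
      fun i => cyc ![x i, y i, c i, c' i, y' i, x' i], fun i => ?_, fun i j hij => ?_⟩
    · have hc := (hcfg i i.2).count hA hB hAB
      exact ⟨h6' i, h6 i, (hcfg i i.2).sub1, (hcfg i i.2).sub0, hc.2.1.symm, hc.2.2.2⟩
    · have := hdd i j hij
      rw [Finset.union_comm, Finset.union_comm (cyc ![x j, y j, c'' j, y' j, x' j, d j])]
      exact this

section Env

variable {V : Type} [Fintype V] [DecidableEq V] {E : Finset (Sym2 V)} {ε τ : ℝ}
  {A0 B0 X A' B' : Finset V}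

theorem e1t1_swap (h : Env1 E ε τ A0 B0 X A' B') : Env1 E ε τ B0 A0 X B' A' where
  dAB := h.dAB.symm
  dAX := h.dBX
  dBX := h.dAX
  cover := by rw [Finset.union_comm B0]; exact h.cover
  subA := h.subB
  subB := h.subA
  sizeA := h.sizeB
  sizeB := h.sizeA
  nA := h.nB
  nA' := h.nB'
  nB := h.nA
  nB' := h.nA'
  tA := h.tB
  tB := h.tA
  mX := fun x hx => ⟨(h.mX x hx).2, (h.mX x hx).1⟩
  mindeg := h.mindeg

theorem e1t1_split (h : Env1 E ε τ A0 B0 X A' B') (x : V) :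
    (deg E x : ℝ) ≤ dg E A' x + dg E B' x + (nV V - A'.card - B'.card) := by
  have hd : Disjoint A' B' :=
    Finset.disjoint_of_subset_left h.subA (Finset.disjoint_of_subset_right h.subB h.dAB)
  have h1 : deg E x = dg E Finset.univ x := deg_eq_dg (by
    rw [Finset.sym2_univ]
    exact Finset.subset_univ _) x
  have h2 : dg E Finset.univ x ≤ dg E A' x + dg E B' x + ((A' ∪ B')ᶜ).card := by
    unfold dg
    have h3 : (Finset.univ.filter fun y => s(x, y) ∈ E) ⊆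
        ((A'.filter fun y => s(x, y) ∈ E) ∪ (B'.filter fun y => s(x, y) ∈ E)) ∪ (A' ∪ B')ᶜ := by
      intro y hy
      simp only [Finset.mem_filter, Finset.mem_univ, true_and, Finset.mem_union,
        Finset.mem_compl] at hy ⊢
      tauto
    refine (Finset.card_le_card h3).trans ((Finset.card_union_le _ _).trans ?_)
    exact Nat.add_le_add_right (Finset.card_union_le _ _) _
  have h4 : (A' ∪ B').card + ((A' ∪ B')ᶜ).card = Fintype.card V := Finset.card_add_card_compl _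
  rw [Finset.card_union_of_disjoint hd] at h4
  have h5 : ((A'.card + B'.card + ((A' ∪ B')ᶜ).card : ℕ) : ℝ) = (Fintype.card V : ℝ) := by
    rw [h4]
  push_cast at h5
  have h6 : (deg E x : ℝ) ≤ ((dg E A' x + dg E B' x + ((A' ∪ B')ᶜ).card : ℕ) : ℝ) := by
    rw [h1]
    exact_mod_cast h2
  push_cast at h6
  show _ ≤ _ + _ + ((Fintype.card V : ℝ) - A'.card - B'.card)
  linarith

theorem e1t1_cardle (h : Env1 E ε τ A0 B0 X A' B') :
    (A'.card : ℝ) ≤ (1 / 2 + ε) * nV V := by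
  have hd : Disjoint A' B' :=
    Finset.disjoint_of_subset_left h.subA (Finset.disjoint_of_subset_right h.subB h.dAB)
  have h1 : (A' ∪ B').card ≤ Fintype.card V := Finset.card_le_univ _
  rw [Finset.card_union_of_disjoint hd] at h1
  have h2 : (A'.card : ℝ) + B'.card ≤ nV V := by exact_mod_cast h1
  have h3 := h.sizeB
  linarith

theorem e1t1_low (h : Env1 E ε τ A0 B0 X A' B') {x : V} (hx : x ∈ A0) :
    (1 / 2 - τ - 2 * ε) * nV V - 1 / 2 ≤ (dg E A' x : ℝ) := by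
  have h1 := e1t1_split h x
  have h2 := h.tA x hx
  have h3 : (Fintype.card V : ℝ) ≤ 2 * deg E x + 1 := by exact_mod_cast h.mindeg x
  have h4 := h.sizeA
  have h5 := h.sizeB
  have h6 : (Fintype.card V : ℝ) = nV V := rfl
  rw [h6] at h3
  linarith

theorem e1t1_pick {A' F : Finset V} (P : V → Prop) [DecidablePred P] (hF : F.card ≤ 60)
    (h : (60 : ℝ) < ((A'.filter P).card : ℝ)) : ∃ z ∈ A', z ∉ F ∧ P z := by
  have h1 : F.card < (A'.filter P).card := by
    have : 60 < (A'.filter P).card := by exact_mod_cast h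
    omega
  obtain ⟨z, hz1, hz2⟩ := Finset.exists_mem_notMem_of_card_lt_card h1
  rw [Finset.mem_filter] at hz1
  exact ⟨z, hz1.1, hz2, hz1.2⟩

theorem e1t1_ca (h : Env1 E ε τ A0 B0 X A' B') (hτ' : τ ≤ 1 / 20) (hε : ε = 1 / 100)
    (hn : 200 ≤ Fintype.card V) :
    ∀ x ∈ A0, ∀ y ∈ A0, ∀ F : Finset V, F.card ≤ 60 →
    ∃ z ∈ A', z ∉ F ∧ s(x, z) ∈ E ∧ s(z, y) ∈ E := by
  intro x hx y hy F hF
  apply e1t1_pick (fun z => s(x, z) ∈ E ∧ s(z, y) ∈ E) hF
  have hn' : (200 : ℝ) ≤ nV V := by exact_mod_cast hn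
  have h1 := e1t1_low h hx
  have h2 := e1t1_low h hy
  have h3 := e1t1_cardle h
  have h4 : dg E A' x + dg E A' y ≤
      A'.card + (A'.filter fun z => s(x, z) ∈ E ∧ s(z, y) ∈ E).card := by
    unfold dg
    have h5 := Finset.card_union_add_card_inter (A'.filter fun z => s(x, z) ∈ E)
      (A'.filter fun z => s(y, z) ∈ E)
    have h6 : (A'.filter fun z => s(x, z) ∈ E) ∪ (A'.filter fun z => s(y, z) ∈ E) ⊆ A' :=
      Finset.union_subset (Finset.filter_subset _ _) (Finset.filter_subset _ _)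
    have h7 : (A'.filter fun z => s(x, z) ∈ E) ∩ (A'.filter fun z => s(y, z) ∈ E) ⊆
        A'.filter fun z => s(x, z) ∈ E ∧ s(z, y) ∈ E := by
      intro z hz
      rw [Finset.mem_inter, Finset.mem_filter, Finset.mem_filter] at hz
      rw [Finset.mem_filter]
      refine ⟨hz.1.1, hz.1.2, ?_⟩
      rw [Sym2.eq_swap]
      exact hz.2.2
    have h8 := Finset.card_le_card h6
    have h9 := Finset.card_le_card h7
    omega
  have h5 : (dg E A' x : ℝ) + dg E A' y ≤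
      A'.card + (A'.filter fun z => s(x, z) ∈ E ∧ s(z, y) ∈ E).card := by exact_mod_cast h4
  subst hε
  nlinarith

theorem e1t1_da (h : Env1 E ε τ A0 B0 X A' B') (hτ' : τ ≤ 1 / 20) (hε : ε = 1 / 100)
    (hn : 200 ≤ Fintype.card V) :
    ∀ x ∈ A0, ∀ y ∈ B0, ∀ F : Finset V, F.card ≤ 60 →
    ∃ z ∈ A', z ∉ F ∧ s(x, z) ∈ E ∧ s(y, z) ∉ E := by
  intro x hx y hy F hF
  apply e1t1_pick (fun z => s(x, z) ∈ E ∧ s(y, z) ∉ E) hF
  have hn' : (200 : ℝ) ≤ nV V := by exact_mod_cast hn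
  have h1 := e1t1_low h hx
  have h2 := h.tB y hy
  have h4 : dg E A' x ≤ dg E A' y + (A'.filter fun z => s(x, z) ∈ E ∧ s(y, z) ∉ E).card := by
    unfold dg
    refine (Finset.card_le_card ?_).trans (Finset.card_union_le _ _)
    intro z hz
    rw [Finset.mem_filter] at hz
    rw [Finset.mem_union, Finset.mem_filter, Finset.mem_filter]
    by_cases hyz : s(y, z) ∈ E
    · exact Or.inl ⟨hz.1, hyz⟩
    · exact Or.inr ⟨hz.1, hz.2, hyz⟩
  have h5 : (dg E A' x : ℝ) ≤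
      dg E A' y + (A'.filter fun z => s(x, z) ∈ E ∧ s(y, z) ∉ E).card := by exact_mod_cast h4
  subst hε
  nlinarith

theorem e1t1_half (h : Env1 E ε τ A0 B0 X A' B') (hτ' : τ ≤ 1 / 20) (hε : ε = 1 / 100)
    (hn : 200 ≤ Fintype.card V) : E1t1Half E A0 A' B0 B' where
  subA := h.subA
  subB := h.subB
  dis := h.dAB
  ha := by
    intro F hF
    have hn' : (200 : ℝ) ≤ nV V := by exact_mod_cast hn
    have h1 := h.sizeA
    obtain ⟨z, hz, hzF, -⟩ := e1t1_pick (A' := A') (F := F) (fun _ => True) hF (by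
      rw [Finset.filter_true]
      subst hε
      nlinarith)
    exact ⟨z, hz, hzF⟩
  ca := e1t1_ca h hτ' hε hn
  cb := e1t1_ca (e1t1_swap h) hτ' hε hn
  da := e1t1_da h hτ' hε hn

end Env

theorem sw_T1 (τ : ℝ) (hτ : 0 < τ) (hτ' : τ ≤ 1 / 20) :
    ∃ ε : ℝ, 0 < ε ∧ ∃ n0 : ℕ, ∀ (V : Type) [Fintype V] [DecidableEq V]
      (E : Finset (Sym2 V)) (A0 B0 X A' B' : Finset V), n0 ≤ Fintype.card V → Loopless E →
      Env1 E ε τ A0 B0 X A' B' → (∀ a ∈ A0, ∃ b ∈ B0, s(a, b) ∈ E) →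
      Switch5 E (A0 ∪ X) B0 := by
  refine ⟨1 / 100, by norm_num, 200, fun V _ _ E A0 B0 X A' B' hn hl h hnb => ?_⟩
  refine (e1t1_switch (e1t1_half h hτ' rfl hn) hl hnb Finset.subset_union_left
    (Finset.Subset.refl B0) ?_).1
  rw [Finset.disjoint_union_left]
  exact ⟨h.dAB, h.dBX.symm⟩

theorem sw_T1' (τ : ℝ) (hτ : 0 < τ) (hτ' : τ ≤ 1 / 20) :
    ∃ ε : ℝ, 0 < ε ∧ ∃ n0 : ℕ, ∀ (V : Type) [Fintype V] [DecidableEq V]
      (E : Finset (Sym2 V)) (A0 B0 X A' B' : Finset V), n0 ≤ Fintype.card V → Loopless E →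
      Env1 E ε τ A0 B0 X A' B' → (∀ b ∈ B0, ∃ a ∈ A0, s(a, b) ∈ E) →
      Switch5 E (A0 ∪ X) B0 := by
  refine ⟨1 / 100, by norm_num, 200, fun V _ _ E A0 B0 X A' B' hn hl h hnb => ?_⟩
  refine (e1t1_switch (e1t1_half (e1t1_swap h) hτ' rfl hn) hl ?_ (Finset.Subset.refl B0)
    (Finset.subset_union_left (s₂ := X)) ?_).2
  · intro b hb
    obtain ⟨a, ha, hab⟩ := hnb b hb
    exact ⟨a, ha, by rw [Sym2.eq_swap]; exact hab⟩
  · rw [Finset.disjoint_union_right]
    exact ⟨h.dAB.symm, h.dBX⟩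

end H15C6
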