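import Pool.Agent.H15.C6.EDefs

/-!
Module E2A2 (part of E2A).  Extremal case 2 (almost bipartite): preparation and parity.  `n = |V|`.

`prep2`: `A', B'` = the sets of `Ext2`; `A := A' ∪ {y ∉ A' ∪ B' : dg E B' y ≥ n/5}`, `B :=` the rest; for
`y ∉ A' ∪ B'` in `B`: `dg E A' y ≥ deg y - n/5 - |V \ (A' ∪ B')| ≥ (1/5 - ε) n`.
For `a ∈ A'`: `dg E B' a ≥ |B'| - ε n`.

`par2`: `2 |inn E A| + e(A,B) = ∑_{a ∈ A} deg a` is even, so `e(A,B) = |crs|` is even, hence
`|inn E A| + |inn E B|` is even.

`odd2`: if `inn E A` and `inn E B` are nonempty, then there is a six-cycle with exactly one edge inside `A` and one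
edge inside `B`.  Let `A* (B*)` be the vertices of `A (B)` on an edge inside `A (B)`.  If there is no edge
between `A*` and `B*`, then for `a ∈ A*`, `b ∈ B*`: `N(a) ⊆ (A* \ a) ∪ (B \ B*)`,
`N(b) ⊆ (B* \ b) ∪ (A \ A*)`, so `deg a + deg b ≤ n - 2`, contradicting `2 deg + 1 ≥ n`.  So take
`a1 ∈ A*`, `b1 ∈ B*` adjacent, inner edges `a1a2`, `b1b2`; path `b2 a' b' a2` with `a' ∈ A'`, `b' ∈ B'` outside
`{a1,a2,b1,b2}`: `b2` has `≥ (1/5-ε) n` neighbours in `A'`, `a2` as many in `B'`, and most pairs of
`A' × B'` are adjacent.  Cycle `a2 a1 b1 b2 a' b'`.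
-/

open Finset

namespace H15C6

theorem par2 {V : Type} [Fintype V] [DecidableEq V] (E : Finset (Sym2 V)) (A B : Finset V)
    (hE : Loopless E) (he : EvenDeg E) (h6 : 6 ∣ E.card) (hd : Disjoint A B)
    (hc : A ∪ B = Finset.univ) :
    Even (crs E A B).card ∧ Even ((inn E A).card + (inn E B).card) := by
  have hAB : ∀ x, x ∈ A ∨ x ∈ B := fun x => by
    have : x ∈ A ∪ B := by rw [hc]; exact Finset.mem_univ x
    exact Finset.mem_union.1 this
  have hnAB : ∀ x, x ∈ A → x ∉ B := fun x h1 h2 => (Finset.disjoint_left.1 hd) h1 h2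
  have hdeg : ∀ a ∈ A, deg E a = deg (inn E A) a + deg (crs E A B) a := by
    intro a ha
    unfold deg
    rw [← Finset.card_union_of_disjoint]
    · congr 1
      ext e
      simp only [inn, crs, Finset.mem_filter, Finset.mem_union, Finset.mem_inter,
        Finset.mem_sdiff]
      constructor
      · rintro ⟨h1, h2⟩
        by_cases h3 : e ∈ A.sym2
        · left; exact ⟨⟨h1, h3⟩, h2⟩
        · right
          refine ⟨⟨⟨h1, h3⟩, ?_⟩, h2⟩
          intro h4
          rw [Finset.mem_sym2_iff] at h4
          exact hnAB a ha (h4 a h2)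
      · rintro (⟨⟨h1, _⟩, h2⟩ | ⟨⟨⟨h1, _⟩, _⟩, h2⟩)
        · exact ⟨h1, h2⟩
        · exact ⟨h1, h2⟩
    · rw [Finset.disjoint_left]
      intro e h1 h2
      simp only [inn, crs, Finset.mem_filter, Finset.mem_inter, Finset.mem_sdiff] at h1 h2
      exact h2.1.1.2 h1.1.2
  have hsum1 : ∑ a ∈ A, deg (inn E A) a = 2 * (inn E A).card :=
    sum_deg (Finset.inter_subset_right) (hE.mono Finset.inter_subset_left)
  have hsum2 : ∑ a ∈ A, deg (crs E A B) a = (crs E A B).card := by
    unfold deg
    simp_rw [Finset.card_filter]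
    rw [Finset.sum_comm]
    have : ∀ e ∈ crs E A B, (∑ x ∈ A, if x ∈ e then 1 else 0) = 1 := by
      intro e he
      induction e using Sym2.ind with
      | _ a b =>
        simp only [crs, Finset.mem_sdiff, Finset.mk_mem_sym2_iff, not_and] at he
        obtain ⟨⟨h1, h2⟩, h3⟩ := he
        rw [← Finset.card_filter]
        rcases hAB a with ha | ha
        · have hb : b ∉ A := h2 ha
          have : A.filter (fun x => x ∈ s(a, b)) = {a} := by
            ext x
            simp only [Sym2.mem_iff, Finset.mem_filter, Finset.mem_singleton]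
            constructor
            · rintro ⟨hx, rfl | rfl⟩
              · rfl
              · exact absurd hx hb
            · rintro rfl
              exact ⟨ha, Or.inl rfl⟩
          rw [this, Finset.card_singleton]
        · have hb : b ∉ B := h3 ha
          have hb' : b ∈ A := (hAB b).resolve_right hb
          have ha' : a ∉ A := fun h => hnAB a h ha
          have : A.filter (fun x => x ∈ s(a, b)) = {b} := by
            ext x
            simp only [Sym2.mem_iff, Finset.mem_filter, Finset.mem_singleton]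
            constructor
            · rintro ⟨hx, rfl | rfl⟩
              · exact absurd hx ha'
              · rfl
            · rintro rfl
              exact ⟨hb', Or.inr rfl⟩
          rw [this, Finset.card_singleton]
    rw [Finset.sum_congr rfl this]
    simp
  have htot : ∑ a ∈ A, deg E a = 2 * (inn E A).card + (crs E A B).card := by
    rw [Finset.sum_congr rfl hdeg, Finset.sum_add_distrib, hsum1, hsum2]
  have hev : Even (∑ a ∈ A, deg E a) := Finset.even_sum _ (fun a _ => he a)
  have hcrs : Even (crs E A B).card := by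
    rw [htot] at hev
    exact (Nat.even_add.1 hev).1 (even_two_mul _)
  refine ⟨hcrs, ?_⟩
  have hcard : E.card = (inn E A).card + (inn E B).card + (crs E A B).card := by
    have h1 : (E ∩ A.sym2).card + (E \ A.sym2).card = E.card := Finset.card_inter_add_card_sdiff _ _
    have h2 : ((E \ A.sym2) ∩ B.sym2).card + ((E \ A.sym2) \ B.sym2).card = (E \ A.sym2).card :=
      Finset.card_inter_add_card_sdiff _ _
    have h3 : (E \ A.sym2) ∩ B.sym2 = E ∩ B.sym2 := by
      ext e
      simp only [Finset.mem_inter, Finset.mem_sdiff]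
      constructor
      · rintro ⟨⟨h4, _⟩, h5⟩
        exact ⟨h4, h5⟩
      · rintro ⟨h4, h5⟩
        refine ⟨⟨h4, ?_⟩, h5⟩
        intro h6
        induction e using Sym2.ind with
        | _ a b =>
          rw [Finset.mk_mem_sym2_iff] at h5 h6
          exact hnAB a h6.1 h5.1
    rw [h3] at h2
    unfold inn crs
    omega
  have h2 : Even E.card := by
    obtain ⟨k, hk⟩ := h6
    rw [hk]
    exact ⟨3 * k, by ring⟩
  rw [hcard] at h2
  exact (Nat.even_add.1 h2).2 hcrs

theorem odd2 (ε : ℝ) (hε : 0 < ε) (hε' : ε ≤ 1 / 1000) :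
    ∃ n0 : ℕ, ∀ (V : Type) [Fintype V] [DecidableEq V] (E : Finset (Sym2 V)) (A B A' B' : Finset V),
      n0 ≤ Fintype.card V → Loopless E → (∀ v, Fintype.card V ≤ 2 * deg E v + 1) →
      Env2 E ε A B A' B' → (inn E A).Nonempty → (inn E B).Nonempty →
      ∃ C ⊆ E, IsC6 C ∧ (inn C A).card = 1 ∧ (inn C B).card = 1 := by
  refine ⟨100, ?_⟩
  intro V _ _ E A B A' B' hn hE hdeg hEnv hA hB
  have hAB : ∀ x, x ∈ A ∨ x ∈ B := fun x => by
    have : x ∈ A ∪ B := by rw [hEnv.cover]; exact Finset.mem_univ x
    exact Finset.mem_union.1 this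
  have hnAB : ∀ x, x ∈ A → x ∉ B := fun x h1 h2 => (Finset.disjoint_left.1 hEnv.disj) h1 h2
  have hnR : (100 : ℝ) ≤ nV V := by
    have : ((100 : ℕ) : ℝ) ≤ (Fintype.card V : ℝ) := by exact_mod_cast hn
    simpa using this
  -- adjacent inner edges
  obtain ⟨a1, a2, b1, b2, ha1, ha2, hb1, hb2, ha, hb, hab⟩ : ∃ a1 a2 b1 b2, a1 ∈ A ∧ a2 ∈ A ∧
      b1 ∈ B ∧ b2 ∈ B ∧ s(a1, a2) ∈ E ∧ s(b1, b2) ∈ E ∧ s(a1, b1) ∈ E := by
    by_contra hcon
    push Not at hcon
    obtain ⟨e, he⟩ := hA
    obtain ⟨f, hf⟩ := hB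
    induction e using Sym2.ind with
    | _ a a' =>
      induction f using Sym2.ind with
      | _ b b' =>
        simp only [inn, Finset.mem_inter, Finset.mk_mem_sym2_iff] at he hf
        obtain ⟨he, haA, haA'⟩ := he
        obtain ⟨hf, hbB, hbB'⟩ := hf
        let As : Finset V := A.filter (fun x => ∃ y ∈ A, s(x, y) ∈ E)
        let Bs : Finset V := B.filter (fun x => ∃ y ∈ B, s(x, y) ∈ E)
        have haAs : a ∈ As := Finset.mem_filter.2 ⟨haA, a', haA', he⟩
        have hbBs : b ∈ Bs := Finset.mem_filter.2 ⟨hbB, b', hbB', hf⟩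
        have hna : deg E a ≤ ((As.erase a) ∪ (B \ Bs)).card := by
          rw [deg_eq_dg (U := Finset.univ) (fun e _ => by simp) a]
          unfold dg
          apply Finset.card_le_card
          intro y hy
          have hy' := (Finset.mem_filter.1 hy).2
          rcases hAB y with h | h
          · refine Finset.mem_union_left _ (Finset.mem_erase.2 ⟨(hE.ne hy').symm, ?_⟩)
            exact Finset.mem_filter.2 ⟨h, a, haA, by rw [Sym2.eq_swap]; exact hy'⟩
          · refine Finset.mem_union_right _ (Finset.mem_sdiff.2 ⟨h, ?_⟩)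
            intro h'
            obtain ⟨z, hz, hyz⟩ := (Finset.mem_filter.1 h').2
            exact hcon a a' y z haA haA' h hz he hyz hy'
        have hnb : deg E b ≤ ((Bs.erase b) ∪ (A \ As)).card := by
          rw [deg_eq_dg (U := Finset.univ) (fun e _ => by simp) b]
          unfold dg
          apply Finset.card_le_card
          intro y hy
          have hy' := (Finset.mem_filter.1 hy).2
          rcases hAB y with h | h
          · refine Finset.mem_union_right _ (Finset.mem_sdiff.2 ⟨h, ?_⟩)
            intro h'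
            obtain ⟨z, hz, hyz⟩ := (Finset.mem_filter.1 h').2
            exact hcon y z b b' h hz hbB hbB' hyz hf (by rw [Sym2.eq_swap]; exact hy')
          · refine Finset.mem_union_left _ (Finset.mem_erase.2 ⟨(hE.ne hy').symm, ?_⟩)
            exact Finset.mem_filter.2 ⟨h, b, hbB, by rw [Sym2.eq_swap]; exact hy'⟩
        have c1 := Finset.card_union_le (As.erase a) (B \ Bs)
        have c2 := Finset.card_union_le (Bs.erase b) (A \ As)
        have c3 := Finset.card_erase_of_mem haAs
        have c4 := Finset.card_erase_of_mem hbBs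
        have c5 : (B \ Bs).card = B.card - Bs.card :=
          Finset.card_sdiff_of_subset (Finset.filter_subset _ _)
        have c6 : (A \ As).card = A.card - As.card :=
          Finset.card_sdiff_of_subset (Finset.filter_subset _ _)
        have c7 : As.card ≤ A.card := Finset.card_le_card (Finset.filter_subset _ _)
        have c8 : Bs.card ≤ B.card := Finset.card_le_card (Finset.filter_subset _ _)
        have c9 : A.card + B.card = Fintype.card V := by
          rw [← Finset.card_union_of_disjoint hEnv.disj, hEnv.cover, Finset.card_univ]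
        have c10 : 0 < As.card := Finset.card_pos.2 ⟨a, haAs⟩
        have c11 : 0 < Bs.card := Finset.card_pos.2 ⟨b, hbBs⟩
        have d1 := hdeg a
        have d2 := hdeg b
        omega
  have ha12 : a1 ≠ a2 := hE.ne ha
  have hb12 : b1 ≠ b2 := hE.ne hb
  -- the vertex b'
  obtain ⟨b', hb'1, hb'2⟩ : ∃ b' ∈ B'.filter (fun y => s(a2, y) ∈ E), b' ∉ ({b1, b2} : Finset V) := by
    apply Finset.exists_mem_notMem_of_card_lt_card
    have h1 := hEnv.lowA a2 ha2
    have h2 : ((B'.filter (fun y => s(a2, y) ∈ E)).card : ℝ) = (dg E B' a2 : ℝ) := rfl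
    have h3 : (({b1, b2} : Finset V).card : ℝ) ≤ 2 := by exact_mod_cast Finset.card_le_two
    have h4 : (({b1, b2} : Finset V).card : ℝ) < ((B'.filter (fun y => s(a2, y) ∈ E)).card : ℝ) := by
      rw [h2]
      nlinarith
    exact_mod_cast h4
  obtain ⟨hb'B', hb'a2⟩ := Finset.mem_filter.1 hb'1
  have hb'B := hEnv.subB hb'B'
  simp only [Finset.mem_insert, Finset.mem_singleton, not_or] at hb'2
  -- the vertex a'
  obtain ⟨a', ha'1, ha'2⟩ : ∃ a' ∈ A'.filter (fun y => s(b2, y) ∈ E),
      a' ∉ ({a1, a2} : Finset V) ∪ A'.filter (fun y => s(b', y) ∉ E) := by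
    apply Finset.exists_mem_notMem_of_card_lt_card
    have h1 := hEnv.lowB b2 hb2
    have h2 : ((A'.filter (fun y => s(b2, y) ∈ E)).card : ℝ) = (dg E A' b2 : ℝ) := rfl
    have h3 : (({a1, a2} : Finset V).card : ℝ) ≤ 2 := by exact_mod_cast Finset.card_le_two
    have h5 := hEnv.nB b' hb'B'
    have h6 : ((({a1, a2} : Finset V) ∪ A'.filter (fun y => s(b', y) ∉ E)).card : ℝ)
        ≤ (({a1, a2} : Finset V).card : ℝ) + ((A'.filter (fun y => s(b', y) ∉ E)).card : ℝ) := by
      exact_mod_cast Finset.card_union_le _ _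
    have h4 : ((({a1, a2} : Finset V) ∪ A'.filter (fun y => s(b', y) ∉ E)).card : ℝ)
        < ((A'.filter (fun y => s(b2, y) ∈ E)).card : ℝ) := by
      rw [h2]
      nlinarith
    exact_mod_cast h4
  obtain ⟨ha'A', ha'b2⟩ := Finset.mem_filter.1 ha'1
  have ha'A := hEnv.subA ha'A'
  simp only [Finset.mem_union, Finset.mem_insert, Finset.mem_singleton, Finset.mem_filter,
    not_or, not_and, not_not] at ha'2
  obtain ⟨⟨ha'1, ha'2⟩, ha'b'⟩ := ha'2
  have ha'b' := ha'b' ha'A'
  have hne : ∀ x ∈ A, ∀ y ∈ B, x ≠ y := fun x hx y hy h => hnAB x hx (h ▸ hy)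
  let v : Fin 6 → V := ![a2, a1, b1, b2, a', b']
  have hv : Function.Injective v := by
    intro i j hij
    fin_cases i <;> fin_cases j <;> simp only [v] at hij <;> first
      | rfl
      | (exfalso; revert hij; simp only [imp_false]; first
          | exact ha12 | exact ha12.symm | exact hb12 | exact hb12.symm
          | exact ha'1 | exact ha'2 | exact Ne.symm ha'1 | exact Ne.symm ha'2
          | exact hb'2.1 | exact hb'2.2 | exact Ne.symm hb'2.1 | exact Ne.symm hb'2.2
          | exact hne _ ha1 _ hb1 | exact hne _ ha1 _ hb2 | exact hne _ ha1 _ hb'B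
          | exact hne _ ha2 _ hb1 | exact hne _ ha2 _ hb2 | exact hne _ ha2 _ hb'B
          | exact hne _ ha'A _ hb1 | exact hne _ ha'A _ hb2 | exact hne _ ha'A _ hb'B
          | exact (hne _ ha1 _ hb1).symm | exact (hne _ ha1 _ hb2).symm
          | exact (hne _ ha1 _ hb'B).symm
          | exact (hne _ ha2 _ hb1).symm | exact (hne _ ha2 _ hb2).symm
          | exact (hne _ ha2 _ hb'B).symm
          | exact (hne _ ha'A _ hb1).symm | exact (hne _ ha'A _ hb2).symm
          | exact (hne _ ha'A _ hb'B).symm)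
  have hcyc : ∀ e, e ∈ cyc v ↔ e = s(a2, a1) ∨ e = s(a1, b1) ∨ e = s(b1, b2) ∨ e = s(b2, a') ∨
      e = s(a', b') ∨ e = s(b', a2) := by
    intro e
    rw [mem_cyc]
    constructor
    · rintro ⟨i, rfl⟩
      fin_cases i
      · left; rfl
      · right; left; rfl
      · right; right; left; rfl
      · right; right; right; left; rfl
      · right; right; right; right; left; rfl
      · right; right; right; right; right; rfl
    · rintro (rfl | rfl | rfl | rfl | rfl | rfl)
      · exact ⟨0, rfl⟩
      · exact ⟨1, rfl⟩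
      · exact ⟨2, rfl⟩
      · exact ⟨3, rfl⟩
      · exact ⟨4, rfl⟩
      · exact ⟨5, rfl⟩
  refine ⟨cyc v, ?_, ⟨v, hv, rfl⟩, ?_, ?_⟩
  · intro e he
    rcases (hcyc e).1 he with rfl | rfl | rfl | rfl | rfl | rfl
    · rw [Sym2.eq_swap]; exact ha
    · exact hab
    · exact hb
    · exact ha'b2
    · rw [Sym2.eq_swap]; exact ha'b'
    · rw [Sym2.eq_swap]; exact hb'a2
  · have : inn (cyc v) A = {s(a2, a1)} := by
      ext e
      rw [inn, Finset.mem_inter, hcyc, Finset.mem_singleton]
      constructor
      · rintro ⟨rfl | rfl | rfl | rfl | rfl | rfl, h⟩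
        · rfl
        · rw [Finset.mk_mem_sym2_iff] at h
          exact absurd hb1 (hnAB _ h.2)
        · rw [Finset.mk_mem_sym2_iff] at h
          exact absurd hb1 (hnAB _ h.1)
        · rw [Finset.mk_mem_sym2_iff] at h
          exact absurd hb2 (hnAB _ h.1)
        · rw [Finset.mk_mem_sym2_iff] at h
          exact absurd hb'B (hnAB _ h.2)
        · rw [Finset.mk_mem_sym2_iff] at h
          exact absurd hb'B (hnAB _ h.1)
      · rintro rfl
        exact ⟨Or.inl rfl, Finset.mk_mem_sym2_iff.2 ⟨ha2, ha1⟩⟩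
    rw [this, Finset.card_singleton]
  · have : inn (cyc v) B = {s(b1, b2)} := by
      ext e
      rw [inn, Finset.mem_inter, hcyc, Finset.mem_singleton]
      constructor
      · rintro ⟨rfl | rfl | rfl | rfl | rfl | rfl, h⟩
        · rw [Finset.mk_mem_sym2_iff] at h
          exact absurd h.1 (hnAB _ ha2)
        · rw [Finset.mk_mem_sym2_iff] at h
          exact absurd h.1 (hnAB _ ha1)
        · rfl
        · rw [Finset.mk_mem_sym2_iff] at h
          exact absurd h.2 (hnAB _ ha'A)
        · rw [Finset.mk_mem_sym2_iff] at h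
          exact absurd h.1 (hnAB _ ha'A)
        · rw [Finset.mk_mem_sym2_iff] at h
          exact absurd h.2 (hnAB _ ha2)
      · rintro rfl
        exact ⟨Or.inr (Or.inr (Or.inl rfl)), Finset.mk_mem_sym2_iff.2 ⟨hb1, hb2⟩⟩
    rw [this, Finset.card_singleton]

end H15C6
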