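import Pool.Agent.H15.C6.Defs

/-!
General lower bounds for walk counts (usable by all modules):
`cn_ge`, `P4_ge`, `P3_ge`, and set versions.
-/

set_option linter.unusedSectionVars false

open Finset

namespace H15C6

variable {V : Type} [DecidableEq V]

/-- inclusion-exclusion for common neighbours -/
theorem cn_ge (E : Finset (Sym2 V)) (S : Finset V) (x y : V) :
    dg E S x + dg E S y ≤ cn E S x y + S.card := by
  unfold dg cn
  have h1 : (S.filter (fun m => s(x, m) ∈ E ∧ s(m, y) ∈ E)) =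
      (S.filter (fun m => s(x, m) ∈ E)) ∩ (S.filter (fun m => s(y, m) ∈ E)) := by
    ext m
    simp only [Finset.mem_filter, Finset.mem_inter]
    rw [Sym2.eq_swap (a := m) (b := y)]
    tauto
  rw [h1]
  have h2 := Finset.card_union_add_card_inter (S.filter (fun m => s(x, m) ∈ E))
    (S.filter (fun m => s(y, m) ∈ E))
  have h3 : ((S.filter (fun m => s(x, m) ∈ E)) ∪ (S.filter (fun m => s(y, m) ∈ E))).card ≤
      S.card := Finset.card_le_card
        (Finset.union_subset (Finset.filter_subset _ _) (Finset.filter_subset _ _))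
  omega

/-- restricting the middle vertex to a subset -/
theorem cn_mono_right (E : Finset (Sym2 V)) {S T : Finset V} (h : S ⊆ T) (x y : V) :
    cn E S x y ≤ cn E T x y := by
  unfold cn
  apply Finset.card_le_card
  intro m hm
  rw [Finset.mem_filter] at hm ⊢
  exact ⟨h hm.1, hm.2⟩

theorem cn_mono {E F : Finset (Sym2 V)} (h : E ⊆ F) (S : Finset V) (x y : V) :
    cn E S x y ≤ cn F S x y := by
  unfold cn
  apply Finset.card_le_card
  intro m hm
  rw [Finset.mem_filter] at hm ⊢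
  exact ⟨hm.1, h hm.2.1, h hm.2.2⟩

theorem P4_mono {E F : Finset (Sym2 V)} (h : E ⊆ F) {S T : Finset V} (hS : S ⊆ T) (x y : V) :
    P4 E S x y ≤ P4 F T x y := by
  unfold P4
  apply Finset.card_le_card
  intro t ht
  simp only [Finset.mem_filter, Finset.mem_product] at ht ⊢
  exact ⟨⟨hS ht.1.1, hS ht.1.2.1, hS ht.1.2.2⟩, h ht.2.1, h ht.2.2.1, h ht.2.2.2.1, h ht.2.2.2.2⟩

theorem P3_mono {E F : Finset (Sym2 V)} (h : E ⊆ F) {S T : Finset V} (hS : S ⊆ T) (x y : V) :
    P3 E S x y ≤ P3 F T x y := by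
  unfold P3
  apply Finset.card_le_card
  intro t ht
  simp only [Finset.mem_filter, Finset.mem_product] at ht ⊢
  exact ⟨⟨hS ht.1.1, hS ht.1.2⟩, h ht.2.1, h ht.2.2.1, h ht.2.2.2⟩

/-- lower bound for `P4`: first vertex in `A1`, last vertex in `C1`, at least `k` middle vertices
for each choice -/
theorem P4_ge (E : Finset (Sym2 V)) (S A1 C1 : Finset V) (x y : V) (k : ℕ)
    (hA : A1 ⊆ S) (hC : C1 ⊆ S) (hxA : ∀ a ∈ A1, s(x, a) ∈ E) (hyC : ∀ c ∈ C1, s(c, y) ∈ E)
    (hk : ∀ a ∈ A1, ∀ c ∈ C1, k ≤ cn E S a c) :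
    A1.card * C1.card * k ≤ P4 E S x y := by
  classical
  set Sg : Finset (Σ _ : V × V, V) := (A1 ×ˢ C1).sigma
    (fun p => S.filter (fun m => s(p.1, m) ∈ E ∧ s(m, p.2) ∈ E)) with hSg
  have h1 : A1.card * C1.card * k ≤ Sg.card := by
    rw [hSg, Finset.card_sigma, ← Finset.card_product, ← smul_eq_mul]
    apply Finset.card_nsmul_le_sum
    intro p hp
    rw [Finset.mem_product] at hp
    exact hk p.1 hp.1 p.2 hp.2
  refine h1.trans ?_
  unfold P4
  apply Finset.card_le_card_of_injOn (fun q : (Σ _ : V × V, V) => (q.1.1, q.2, q.1.2))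
  · intro q hq
    have hq' := Finset.mem_sigma.1 (Finset.mem_coe.1 hq)
    obtain ⟨hq1, hq2⟩ := hq'
    rw [Finset.mem_product] at hq1
    rw [Finset.mem_filter] at hq2
    apply Finset.mem_coe.2
    simp only [Finset.mem_filter, Finset.mem_product]
    exact ⟨⟨hA hq1.1, hq2.1, hC hq1.2⟩, hxA _ hq1.1, hq2.2.1, hq2.2.2, hyC _ hq1.2⟩
  · rintro ⟨⟨a, c⟩, b⟩ _ ⟨⟨a', c'⟩, b'⟩ _ h
    simp only [Prod.mk.injEq] at h
    obtain ⟨rfl, rfl, rfl⟩ := h
    rfl

/-- lower bound for `P3` -/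
theorem P3_ge (E : Finset (Sym2 V)) (S A1 : Finset V) (x y : V) (k : ℕ)
    (hA : A1 ⊆ S) (hxA : ∀ a ∈ A1, s(x, a) ∈ E) (hk : ∀ a ∈ A1, k ≤ cn E S a y) :
    A1.card * k ≤ P3 E S x y := by
  classical
  set Sg : Finset (Σ _ : V, V) := A1.sigma
    (fun a => S.filter (fun m => s(a, m) ∈ E ∧ s(m, y) ∈ E)) with hSg
  have h1 : A1.card * k ≤ Sg.card := by
    rw [hSg, Finset.card_sigma, ← smul_eq_mul]
    apply Finset.card_nsmul_le_sum
    intro a ha
    exact hk a ha
  refine h1.trans ?_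
  unfold P3
  apply Finset.card_le_card_of_injOn (fun q : (Σ _ : V, V) => (q.1, q.2))
  · intro q hq
    have hq' := Finset.mem_sigma.1 (Finset.mem_coe.1 hq)
    obtain ⟨hq1, hq2⟩ := hq'
    rw [Finset.mem_filter] at hq2
    apply Finset.mem_coe.2
    simp only [Finset.mem_filter, Finset.mem_product]
    exact ⟨⟨hA hq1, hq2.1⟩, hxA _ hq1, hq2.2.1, hq2.2.2⟩
  · rintro ⟨a, b⟩ _ ⟨a', b'⟩ _ h
    simp only [Prod.mk.injEq] at h
    obtain ⟨rfl, rfl⟩ := h
    rfl

/-- neighbours of `x` in `S` as a set -/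
def nbr (E : Finset (Sym2 V)) (S : Finset V) (x : V) : Finset V := S.filter (fun y => s(x, y) ∈ E)

theorem mem_nbr {E : Finset (Sym2 V)} {S : Finset V} {x y : V} :
    y ∈ nbr E S x ↔ y ∈ S ∧ s(x, y) ∈ E := by simp [nbr]

theorem card_nbr (E : Finset (Sym2 V)) (S : Finset V) (x : V) : (nbr E S x).card = dg E S x := rfl

/-- non-neighbours and neighbours -/
theorem dg_add_non (E : Finset (Sym2 V)) (S : Finset V) (x : V) :
    dg E S x + (S.filter (fun y => s(x, y) ∉ E)).card = S.card := by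
  unfold dg
  exact Finset.card_filter_add_card_filter_not _

/-- splitting the set of neighbours -/
theorem dg_le_add (E : Finset (Sym2 V)) (S T : Finset V) (x : V) :
    dg E S x ≤ dg E T x + (S \ T).card := by
  unfold dg
  refine le_trans (Finset.card_le_card ?_) (Finset.card_union_le _ _)
  intro y hy
  simp only [Finset.mem_filter, Finset.mem_union, Finset.mem_sdiff] at hy ⊢
  by_cases h : y ∈ T
  · left; exact ⟨h, hy.2⟩
  · right; exact ⟨hy.1, h⟩

theorem dg_union_le (E : Finset (Sym2 V)) (S T : Finset V) (x : V) :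
    dg E (S ∪ T) x ≤ dg E S x + dg E T x := by
  unfold dg
  rw [Finset.filter_union]
  exact Finset.card_union_le _ _

/-- general lower bound for `P4` from real-valued degree conditions -/
theorem P4_ge_real (E : Finset (Sym2 V)) (S A1 C1 : Finset V) (x y : V) (a c k : ℝ)
    (ha : 0 ≤ a) (hc : 0 ≤ c) (hk0 : 0 ≤ k)
    (hA : A1 ⊆ S) (hC : C1 ⊆ S) (hxA : ∀ v ∈ A1, s(x, v) ∈ E) (hyC : ∀ v ∈ C1, s(v, y) ∈ E)
    (haA : a ≤ A1.card) (hcC : c ≤ C1.card)
    (hk : ∀ v ∈ A1, ∀ w ∈ C1, k ≤ (cn E S v w : ℝ)) :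
    a * c * k ≤ (P4 E S x y : ℝ) := by
  rcases Finset.eq_empty_or_nonempty A1 with h1 | ⟨v0, hv0⟩
  · rw [h1, Finset.card_empty] at haA
    have : a = 0 := le_antisymm (by exact_mod_cast haA) ha
    rw [this]; simp
  rcases Finset.eq_empty_or_nonempty C1 with h1 | ⟨w0, hw0⟩
  · rw [h1, Finset.card_empty] at hcC
    have : c = 0 := le_antisymm (by exact_mod_cast hcC) hc
    rw [this]; simp
  have hne : (A1 ×ˢ C1).Nonempty := ⟨(v0, w0), Finset.mem_product.2 ⟨hv0, hw0⟩⟩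
  obtain ⟨p, hp, hpmin⟩ := Finset.exists_min_image (A1 ×ˢ C1) (fun p => cn E S p.1 p.2) hne
  rw [Finset.mem_product] at hp
  have h2 := P4_ge E S A1 C1 x y (cn E S p.1 p.2) hA hC hxA hyC
    (fun v hv w hw => hpmin (v, w) (Finset.mem_product.2 ⟨hv, hw⟩))
  have h3 := hk p.1 hp.1 p.2 hp.2
  calc a * c * k ≤ (A1.card : ℝ) * C1.card * (cn E S p.1 p.2 : ℝ) := by
        apply mul_le_mul (mul_le_mul haA hcC hc (Nat.cast_nonneg _)) h3 hk0
        positivity
    _ ≤ (P4 E S x y : ℝ) := by exact_mod_cast h2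

theorem P3_ge_real (E : Finset (Sym2 V)) (S A1 : Finset V) (x y : V) (a k : ℝ)
    (ha : 0 ≤ a) (hk0 : 0 ≤ k)
    (hA : A1 ⊆ S) (hxA : ∀ v ∈ A1, s(x, v) ∈ E)
    (haA : a ≤ A1.card) (hk : ∀ v ∈ A1, k ≤ (cn E S v y : ℝ)) :
    a * k ≤ (P3 E S x y : ℝ) := by
  rcases Finset.eq_empty_or_nonempty A1 with h1 | hne
  · rw [h1, Finset.card_empty] at haA
    have : a = 0 := le_antisymm (by exact_mod_cast haA) ha
    rw [this]; simp
  obtain ⟨p, hp, hpmin⟩ := Finset.exists_min_image A1 (fun p => cn E S p y) hne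
  have h2 := P3_ge E S A1 x y (cn E S p y) hA hxA (fun v hv => hpmin v hv)
  have h3 := hk p hp
  calc a * k ≤ (A1.card : ℝ) * (cn E S p y : ℝ) := by
        apply mul_le_mul haA h3 hk0
        positivity
    _ ≤ (P3 E S x y : ℝ) := by exact_mod_cast h2

end H15C6
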