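import Pool.Agent.H15.C6.EDefs
import Pool.Agent.H15.C6.UTIL

/-!
Module E2A1 (part of E2A).  Extremal case 2 (almost bipartite): preparation and parity.  `n = |V|`.

`prep2`: `A', B'` = the sets of `Ext2`; `A := A' ∪ {y ∉ A' ∪ B' : dg E B' y ≥ n/5}`, `B :=` the rest; for
`y ∉ A' ∪ B'` in `B`: `dg E A' y ≥ deg y - n/5 - |V \ (A' ∪ B')| ≥ (1/5 - ε) n`.
For `a ∈ A'`: `dg E B' a ≥ |B'| - ε n`.

`par2`: `2 |inn E A| + e(A,B) = ∑_{a ∈ A} deg a` is even, so `e(A,B) = |crs|` is even, hence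
`|inn E A| + |inn E B|` is even.

`odd2`: if `inn E A` and `inn E B` are nonempty, then there is a six-cycle with exactly one edge inside `A` and one
edge inside `B`.  Let `A* (B*)` be the vertices of `A (B)` on an edge inside `A (B)`.  If there is no edge
between `A*` and `B*`, then for `a ∈ A*`, `b ∈ B*`: `N(a) ⊆ (A* \ a) ∪ (B \ B*)`,
`N(b) ⊆ (B* \ b) ∪ (A \ A*)`, so `deg a + deg b ≤ n - 2`, contradicting `2 deg + 1 ≥ n`.  So take
`a1 ∈ A*`, `b1 ∈ B*` adjacent, inner edges `a1a2`, `b1b2`; path `b2 a' b' a2` with `a' ∈ A'`, `b' ∈ B'` outside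
`{a1,a2,b1,b2}`: `b2` has `≥ (1/5-ε) n` neighbours in `A'`, `a2` as many in `B'`, and most pairs of
`A' × B'` are adjacent.  Cycle `a2 a1 b1 b2 a' b'`.
-/

open Finset

namespace H15C6

theorem prep2 (ε : ℝ) (hε : 0 < ε) (hε' : ε ≤ 1 / 1000) :
    ∃ n0 : ℕ, ∀ (V : Type) [Fintype V] [DecidableEq V] (E : Finset (Sym2 V)),
      n0 ≤ Fintype.card V → Loopless E → (∀ v, Fintype.card V ≤ 2 * deg E v + 1) →
      Ext2 E ε → ∃ A B A' B' : Finset V, Env2 E (4 * ε) A B A' B' := by
  refine ⟨⌈1 / (8 * ε)⌉₊ + 5, ?_⟩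
  intro V _ _ E hn hl hdeg hext
  classical
  obtain ⟨A', B', hdis, hA, hB, hNA, hNB⟩ := hext
  have hn' : ((⌈1 / (8 * ε)⌉₊ + 5 : ℕ) : ℝ) ≤ (Fintype.card V : ℝ) := by exact_mod_cast hn
  push_cast at hn'
  have hc1 : 1 / (8 * ε) ≤ (⌈1 / (8 * ε)⌉₊ : ℝ) := Nat.le_ceil _
  have hn5 : (5 : ℝ) ≤ nV V := by
    have : (0 : ℝ) ≤ (⌈1 / (8 * ε)⌉₊ : ℝ) := Nat.cast_nonneg _
    show (5 : ℝ) ≤ (Fintype.card V : ℝ)
    linarith
  have hnε : 1 ≤ 8 * ε * nV V := by
    have h1 : 1 / (8 * ε) ≤ nV V := by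
      show 1 / (8 * ε) ≤ (Fintype.card V : ℝ)
      linarith
    rw [div_le_iff₀ (by positivity)] at h1
    linarith
  have hεn : 0 ≤ ε * nV V := by nlinarith
  have hdegR : ∀ v, (nV V - 1) / 2 ≤ (deg E v : ℝ) := by
    intro v
    have h1 : ((Fintype.card V : ℕ) : ℝ) ≤ ((2 * deg E v + 1 : ℕ) : ℝ) := by exact_mod_cast hdeg v
    push_cast at h1
    show ((Fintype.card V : ℝ) - 1) / 2 ≤ _
    linarith
  -- degrees into the other side
  have hdA : ∀ a ∈ A', (1 / 2 - 2 * ε) * nV V ≤ (dg E B' a : ℝ) := by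
    intro a ha
    have h1 := (hNA a ha).2
    have h2 := dg_add_non E B' a
    have h3 : (dg E B' a : ℝ) + ((B'.filter (fun y => s(a, y) ∉ E)).card : ℝ) = (B'.card : ℝ) := by
      exact_mod_cast h2
    nlinarith
  have hdB : ∀ b ∈ B', (1 / 2 - 2 * ε) * nV V ≤ (dg E A' b : ℝ) := by
    intro b hb
    have h1 := (hNB b hb).2
    have h2 := dg_add_non E A' b
    have h3 : (dg E A' b : ℝ) + ((A'.filter (fun y => s(b, y) ∉ E)).card : ℝ) = (A'.card : ℝ) := by
      exact_mod_cast h2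
    nlinarith
  set A : Finset V := A' ∪ (Finset.univ.filter (fun y => y ∉ A' ∪ B' ∧
    nV V / 5 ≤ (dg E B' y : ℝ))) with hAdef
  have hmemA : ∀ y, y ∈ A ↔ (y ∈ A' ∨ (y ∉ A' ∪ B' ∧ nV V / 5 ≤ (dg E B' y : ℝ))) := by
    intro y
    rw [hAdef, Finset.mem_union, Finset.mem_filter]
    simp only [Finset.mem_univ, true_and]
  refine ⟨A, Aᶜ, A', B', ?_⟩
  refine ⟨disjoint_compl_right, Finset.union_compl A, ?_, ?_, ?_, ?_, ?_, ?_, ?_, ?_, ?_, ?_, ?_⟩
  · intro y hy
    exact (hmemA y).2 (Or.inl hy)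
  · intro y hy
    rw [Finset.mem_compl, hmemA]
    rintro (h | h)
    · exact (Finset.disjoint_left.1 hdis) h hy
    · exact h.1 (Finset.mem_union_right _ hy)
  · nlinarith
  · nlinarith
  · intro a ha
    have := (hNA a ha).2
    linarith
  · intro a ha
    have h1 := (hNA a ha).1
    have h2 : dg E A' a ≤ (Finset.univ.filter (fun y => s(a, y) ∈ E ∧ y ∉ B')).card := by
      unfold dg
      apply Finset.card_le_card
      intro y hy
      rw [Finset.mem_filter] at hy ⊢
      exact ⟨Finset.mem_univ _, hy.2, fun hc => (Finset.disjoint_left.1 hdis) hy.1 hc⟩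
    have h3 : (dg E A' a : ℝ) ≤
        ((Finset.univ.filter (fun y => s(a, y) ∈ E ∧ y ∉ B')).card : ℝ) := by exact_mod_cast h2
    linarith
  · intro b hb
    have := (hNB b hb).2
    linarith
  · intro b hb
    have h1 := (hNB b hb).1
    have h2 : dg E B' b ≤ (Finset.univ.filter (fun y => s(b, y) ∈ E ∧ y ∉ A')).card := by
      unfold dg
      apply Finset.card_le_card
      intro y hy
      rw [Finset.mem_filter] at hy ⊢
      exact ⟨Finset.mem_univ _, hy.2, fun hc => (Finset.disjoint_left.1 hdis) hc hy.1⟩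
    have h3 : (dg E B' b : ℝ) ≤
        ((Finset.univ.filter (fun y => s(b, y) ∈ E ∧ y ∉ A')).card : ℝ) := by exact_mod_cast h2
    linarith
  · intro a ha
    rcases (hmemA a).1 ha with h | h
    · have := hdA a h
      nlinarith
    · have := h.2
      nlinarith
  · intro b hb
    rw [Finset.mem_compl, hmemA] at hb
    push Not at hb
    by_cases hbB : b ∈ B'
    · have := hdB b hbB
      nlinarith
    · have hbn : b ∉ A' ∪ B' := by
        rw [Finset.mem_union]
        rintro (h | h)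
        · exact hb.1 h
        · exact hbB h
      have h1 := hb.2 hbn
      have h2 := hdegR b
      have h3 : deg E b = dg E Finset.univ b := deg_eq_dg (by simp) b
      have h4 : dg E Finset.univ b ≤ dg E A' b + dg E B' b + ((A' ∪ B')ᶜ).card := by
        have hu : (Finset.univ : Finset V) = (A' ∪ B') ∪ (A' ∪ B')ᶜ :=
          (Finset.union_compl _).symm
        calc dg E Finset.univ b = dg E ((A' ∪ B') ∪ (A' ∪ B')ᶜ) b := by rw [← hu]
          _ ≤ dg E (A' ∪ B') b + dg E ((A' ∪ B')ᶜ) b := dg_union_le E _ _ b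
          _ ≤ (dg E A' b + dg E B' b) + ((A' ∪ B')ᶜ).card := by
              refine Nat.add_le_add (dg_union_le E _ _ b) ?_
              unfold dg
              exact Finset.card_filter_le _ _
      have h5 : (A' ∪ B').card = A'.card + B'.card := Finset.card_union_of_disjoint hdis
      have h6 : ((A' ∪ B')ᶜ).card + (A' ∪ B').card = Fintype.card V := by
        rw [Finset.card_compl]
        exact Nat.sub_add_cancel (Finset.card_le_univ _)
      have h7 : (((A' ∪ B')ᶜ).card : ℝ) + ((A'.card : ℝ) + (B'.card : ℝ)) = nV V := by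
        show _ = (Fintype.card V : ℝ)
        rw [← h6, h5]
        push_cast
        ring
      have h8 : (deg E b : ℝ) ≤ (dg E A' b : ℝ) + (dg E B' b : ℝ) +
          (((A' ∪ B')ᶜ).card : ℝ) := by
        rw [h3]
        exact_mod_cast h4
      nlinarith
  · intro v
    have := hdegR v
    nlinarith

end H15C6
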