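import Pool.Agent.H15.C6.EDefs
import Pool.Agent.H15.C6.PM

/-!
Module E2B.  Extremal case 2: covering all inner edges.  `n = |V|`, host `H0 := crs E A B`
(edges between `A` and `B`), `S := A' ∪ B'`.

Facts.  `|A'|, |B'| ≤ (1/2+ε) n`.  For `u, w ∈ A` (or both in `B`): `P4 H0 S u w ≥ h n³` with an absolute
`h > 0` (say `h = 1/1000`): first and last vertex in `B'`, middle in `A'`.  Call `a ∈ A` large if
`dg E B' a ≥ (9/20 - 3ε) n`, similarly in `B`; vertices of `A', B'` are large; if `a ∈ A` is not large, then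
`dg E A' a ≥ n/30`.  If `q ∈ A` is large and `p ∈ A` arbitrary then `cn H0 S q p ≥ n/10`.

`F := inn E A ∪ inn E B`, `|F| ≤ 3 ε n²` (every vertex of `A'` has `≤ 3εn` inner edges, the others are at most `2εn`).
Let `lam := ⌈c n⌉`, `c` small absolute constant times a power of `ρ`, `ε ≪ c`.
`Bad := {v not large} ∪ {v : deg F v > lam}`, `|Bad| ≤ lam`; `ctr` from `assign` (`X = ∅`, `B = Bad`).
For `y` not large with an odd number of edges of `F` centred at `y`, choose such an edge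
`e_y = s(y,q)` with `q ∈ A'` (resp. `B'`) (all edges from `y` to `A'` are centred at `y`, because `A' ∩ Bad = ∅`).
`M1 := {e_y}`; `M2` from `cherry_pairing (F \ M1)`: its edges have a centre which is large.
`M := M1 ∪ M2`: every edge of `M` has a large end, `F \ M` has all counts even, `deg M p ≤ lam + 1`, `|M| ≤ n`.
`cherry_cover` for `F \ M` (ends of a cherry of inner edges are on the same side): `D1`.
`|inn M A|` is even since `|inn E A|` is even and every cherry uses two edges inside `A` or two inside `B`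
(its centre and its edges are on one side).  Then `pair_cover` for `inn M A` with host `H0 \ D1`, and for
`inn M B` with host `H0 \ D1 \ D2`; `hdis`: orient `m = s(p,q)`, `m' = s(p',q')` with `q, q'` large.
(`H0` loses at every vertex a small number of edges in every step: `P4_sdiff`, `cn_sdiff`.)
-/

set_option linter.unusedSectionVars false

open Finset

namespace H15C6

section E2B

variable {V : Type} [Fintype V] [DecidableEq V]

theorem e2b_symm {E : Finset (Sym2 V)} {ε : ℝ} {A B A' B' : Finset V} (h : Env2 E ε A B A' B') :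
    Env2 E ε B A B' A' where
  disj := h.disj.symm
  cover := by rw [Finset.union_comm]; exact h.cover
  subA := h.subB
  subB := h.subA
  sizeA := h.sizeB
  sizeB := h.sizeA
  nA := h.nB
  nA' := h.nB'
  nB := h.nA
  nB' := h.nA'
  lowA := h.lowB
  lowB := h.lowA
  mindeg := h.mindeg

theorem e2b_mem_crs {E : Finset (Sym2 V)} {A B : Finset V} {e : Sym2 V} :
    e ∈ crs E A B ↔ e ∈ E ∧ e ∉ A.sym2 ∧ e ∉ B.sym2 := by
  unfold crs
  simp only [Finset.mem_sdiff]
  tauto

theorem e2b_mem_inn {E : Finset (Sym2 V)} {A : Finset V} {e : Sym2 V} :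
    e ∈ inn E A ↔ e ∈ E ∧ e ∈ A.sym2 := by
  unfold inn
  simp only [Finset.mem_inter]

theorem e2b_crs_comm (E : Finset (Sym2 V)) (A B : Finset V) : crs E A B = crs E B A := by
  ext e
  rw [e2b_mem_crs, e2b_mem_crs]
  tauto

theorem e2b_crs_of {E : Finset (Sym2 V)} {A B : Finset V} (hd : Disjoint A B) {u b : V}
    (hu : u ∈ A) (hb : b ∈ B) (h : s(u, b) ∈ E) : s(u, b) ∈ crs E A B := by
  rw [e2b_mem_crs]
  refine ⟨h, ?_, ?_⟩
  · rw [Finset.mk_mem_sym2_iff]
    rintro ⟨_, h2⟩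
    exact Finset.disjoint_left.1 hd h2 hb
  · rw [Finset.mk_mem_sym2_iff]
    rintro ⟨h1, _⟩
    exact Finset.disjoint_left.1 hd hu h1

theorem e2b_crs_of' {E : Finset (Sym2 V)} {A B : Finset V} (hd : Disjoint A B) {u b : V}
    (hu : u ∈ A) (hb : b ∈ B) (h : s(b, u) ∈ E) : s(b, u) ∈ crs E A B := by
  rw [Sym2.eq_swap] at h ⊢
  exact e2b_crs_of hd hu hb h

/-- number of vertices of `A'` adjacent to both `a` and `c` -/
theorem e2b_mid {E : Finset (Sym2 V)} {ε : ℝ} {A B A' B' : Finset V} (h : Env2 E ε A B A' B')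
    {a c : V} (ha : a ∈ B') (hc : c ∈ B') :
    (1 / 2 - 3 * ε) * nV V ≤ ((A'.filter (fun b => s(a, b) ∈ E ∧ s(b, c) ∈ E)).card : ℝ) := by
  have h1 := h.nB a ha
  have h2 := h.nB c hc
  have h3 := h.sizeA
  have h4 : A'.card ≤ (A'.filter (fun b => s(a, b) ∈ E ∧ s(b, c) ∈ E)).card +
      ((A'.filter (fun y => s(a, y) ∉ E)).card + (A'.filter (fun y => s(c, y) ∉ E)).card) := by
    refine le_trans ?_ (Nat.add_le_add_left (Finset.card_union_le _ _) _)
    refine le_trans ?_ (Finset.card_union_le _ _)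
    apply Finset.card_le_card
    intro b hb
    simp only [Finset.mem_union, Finset.mem_filter]
    by_cases h5 : s(a, b) ∈ E
    · by_cases h6 : s(b, c) ∈ E
      · left; exact ⟨hb, h5, h6⟩
      · right; right; refine ⟨hb, ?_⟩
        rw [Sym2.eq_swap]; exact h6
    · right; left; exact ⟨hb, h5⟩
  have h5 : (A'.card : ℝ) ≤ ((A'.filter (fun b => s(a, b) ∈ E ∧ s(b, c) ∈ E)).card : ℝ) +
      (((A'.filter (fun y => s(a, y) ∉ E)).card : ℝ) + ((A'.filter (fun y => s(c, y) ∉ E)).card : ℝ)) := by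
    exact_mod_cast h4
  linarith

/-- walks of length four between two vertices of `A` -/
theorem e2b_P4 {E : Finset (Sym2 V)} {ε : ℝ} {A B A' B' : Finset V} (h : Env2 E ε A B A' B')
    (hε : ε ≤ 1 / 1000) {u w : V} (hu : u ∈ A) (hw : w ∈ A) :
    1 / 100 * nV V ^ 3 ≤ (P4 (crs E A B) (A' ∪ B') u w : ℝ) := by
  classical
  set Nu := B'.filter (fun y => s(u, y) ∈ E) with hNu
  set Nw := B'.filter (fun y => s(w, y) ∈ E) with hNw
  have hn : (0 : ℝ) ≤ nV V := Nat.cast_nonneg _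
  have hcu : (199 / 1000) * nV V ≤ (Nu.card : ℝ) := by
    have := h.lowA u hu
    unfold dg at this
    rw [← hNu] at this
    nlinarith
  have hcw : (199 / 1000) * nV V ≤ (Nw.card : ℝ) := by
    have := h.lowA w hw
    unfold dg at this
    rw [← hNw] at this
    nlinarith
  set T := ((A' ∪ B') ×ˢ (A' ∪ B') ×ˢ (A' ∪ B')).filter (fun t => s(u, t.1) ∈ crs E A B ∧
    s(t.1, t.2.1) ∈ crs E A B ∧ s(t.2.1, t.2.2) ∈ crs E A B ∧ s(t.2.2, w) ∈ crs E A B) with hT
  set T1 := T.filter (fun t => (t.1, t.2.2) ∈ Nu ×ˢ Nw) with hT1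
  have hle : (T1.card : ℝ) ≤ (T.card : ℝ) := by
    exact_mod_cast Finset.card_le_card (Finset.filter_subset _ _)
  have hfib : T1.card = ∑ x ∈ Nu ×ˢ Nw, (T1.filter (fun t => (t.1, t.2.2) = x)).card := by
    apply Finset.card_eq_sum_card_fiberwise
    intro t ht
    exact (Finset.mem_filter.1 (Finset.mem_coe.1 ht)).2
  have hfib2 : ∀ x ∈ Nu ×ˢ Nw, (497 / 1000) * nV V ≤
      ((T1.filter (fun t => (t.1, t.2.2) = x)).card : ℝ) := by
    rintro ⟨a, c⟩ hx
    rw [Finset.mem_product] at hx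
    have ha := Finset.mem_filter.1 hx.1
    have hc := Finset.mem_filter.1 hx.2
    simp only at ha hc
    have h1 := e2b_mid h ha.1 hc.1
    have h2 : (A'.filter (fun b => s(a, b) ∈ E ∧ s(b, c) ∈ E)).card ≤
        (T1.filter (fun t => (t.1, t.2.2) = (a, c))).card := by
      apply Finset.card_le_card_of_injOn (fun b => (a, b, c))
      · intro b hb
        have hb' := Finset.mem_filter.1 (Finset.mem_coe.1 hb)
        apply Finset.mem_coe.2
        rw [Finset.mem_filter, hT1, Finset.mem_filter, hT, Finset.mem_filter]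
        refine ⟨⟨⟨?_, ?_, ?_, ?_, ?_⟩, ?_⟩, rfl⟩
        · simp only [Finset.mem_product, Finset.mem_union]
          exact ⟨Or.inr ha.1, Or.inl hb'.1, Or.inr hc.1⟩
        · exact e2b_crs_of h.disj hu (h.subB ha.1) ha.2
        · exact e2b_crs_of' h.disj (h.subA hb'.1) (h.subB ha.1) hb'.2.1
        · exact e2b_crs_of h.disj (h.subA hb'.1) (h.subB hc.1) hb'.2.2
        · apply e2b_crs_of' h.disj hw (h.subB hc.1)
          rw [Sym2.eq_swap]; exact hc.2
        · exact Finset.mem_product.2 hx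
      · intro b _ b' _ hbb
        simp only [Prod.mk.injEq, true_and, and_true] at hbb
        exact hbb
    have h3 : ((A'.filter (fun b => s(a, b) ∈ E ∧ s(b, c) ∈ E)).card : ℝ) ≤
        ((T1.filter (fun t => (t.1, t.2.2) = (a, c))).card : ℝ) := by exact_mod_cast h2
    nlinarith
  have hsum : ((Nu ×ˢ Nw).card : ℝ) * ((497 / 1000) * nV V) ≤ (T1.card : ℝ) := by
    rw [hfib]
    push_cast
    rw [← nsmul_eq_mul]
    exact Finset.card_nsmul_le_sum _ _ _ hfib2
  rw [Finset.card_product] at hsum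
  push_cast at hsum
  have hP : (P4 (crs E A B) (A' ∪ B') u w : ℝ) = (T.card : ℝ) := by
    rw [hT]; rfl
  rw [hP]
  refine le_trans ?_ (hsum.trans hle)
  have h5 : (199 / 1000) * nV V * ((199 / 1000) * nV V) ≤ (Nu.card : ℝ) * (Nw.card : ℝ) :=
    mul_le_mul hcu hcw (by positivity) (by positivity)
  have h6 : (199 / 1000) * nV V * ((199 / 1000) * nV V) * ((497 / 1000) * nV V) ≤
      (Nu.card : ℝ) * (Nw.card : ℝ) * ((497 / 1000) * nV V) :=
    mul_le_mul_of_nonneg_right h5 (by positivity)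
  refine le_trans ?_ h6
  have h7 : 0 ≤ nV V ^ 3 := by positivity
  nlinarith

theorem e2b_cardS {E : Finset (Sym2 V)} {ε : ℝ} {A B A' B' : Finset V} (h : Env2 E ε A B A' B') :
    (A' ∪ B').card = A'.card + B'.card :=
  Finset.card_union_of_disjoint (Finset.disjoint_of_subset_left h.subA
    (Finset.disjoint_of_subset_right h.subB h.disj))

theorem e2b_cardS_le {E : Finset (Sym2 V)} {ε : ℝ} {A B A' B' : Finset V}
    (h : Env2 E ε A B A' B') : (A'.card : ℝ) + B'.card ≤ nV V := by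
  have h1 := e2b_cardS h
  have h2 : (A' ∪ B').card ≤ Fintype.card V := Finset.card_le_univ _
  rw [h1] at h2
  exact_mod_cast h2

theorem e2b_cardZ {E : Finset (Sym2 V)} {ε : ℝ} {A B A' B' : Finset V}
    (h : Env2 E ε A B A' B') : (((A' ∪ B')ᶜ).card : ℝ) ≤ 2 * ε * nV V := by
  have h1 := e2b_cardS h
  have h2 := Finset.card_add_card_compl (A' ∪ B')
  have h3 : ((A' ∪ B').card : ℝ) + (((A' ∪ B')ᶜ).card : ℝ) = nV V := by exact_mod_cast h2
  rw [h1] at h3
  push_cast at h3
  have h4 := h.sizeA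
  have h5 := h.sizeB
  nlinarith

/-- common neighbours of two vertices of `A` -/
theorem e2b_cn {E : Finset (Sym2 V)} {ε : ℝ} {A B A' B' : Finset V} (h : Env2 E ε A B A' B')
    {q p : V} (hq : q ∈ A) (hp : p ∈ A) :
    dg E B' q + dg E B' p ≤ cn (crs E A B) (A' ∪ B') q p + B'.card := by
  unfold dg cn
  rw [← Finset.card_union_add_card_inter]
  rw [add_comm]
  apply Nat.add_le_add
  · apply Finset.card_le_card
    intro y hy
    rw [Finset.mem_inter, Finset.mem_filter, Finset.mem_filter] at hy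
    rw [Finset.mem_filter]
    refine ⟨Finset.mem_union_right _ hy.1.1, ?_, ?_⟩
    · exact e2b_crs_of h.disj hq (h.subB hy.1.1) hy.1.2
    · apply e2b_crs_of' h.disj hp (h.subB hy.1.1)
      rw [Sym2.eq_swap]; exact hy.2.2
  · apply Finset.card_le_card
    intro y hy
    rw [Finset.mem_union, Finset.mem_filter, Finset.mem_filter] at hy
    rcases hy with hy | hy
    · exact hy.1
    · exact hy.1

theorem e2b_deg_univ (E : Finset (Sym2 V)) (x : V) : deg E x = dg E Finset.univ x :=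
  deg_eq_dg (fun e _ => by
    induction e using Sym2.ind with
    | _ a b => rw [Finset.mk_mem_sym2_iff]; simp) x

theorem e2b_deg_le_card (E : Finset (Sym2 V)) (x : V) : deg E x ≤ Fintype.card V := by
  rw [e2b_deg_univ]
  unfold dg
  exact (Finset.card_filter_le _ _).trans (le_of_eq Finset.card_univ)

theorem e2b_deg_le (E : Finset (Sym2 V)) (A' B' : Finset V) (x : V) :
    deg E x ≤ dg E A' x + dg E B' x + ((A' ∪ B')ᶜ).card := by
  rw [e2b_deg_univ]
  unfold dg
  refine le_trans ?_ (Nat.add_le_add_right (Finset.card_union_le _ _) _)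
  refine le_trans ?_ (Finset.card_union_le _ _)
  apply Finset.card_le_card
  intro y hy
  have hy' := (Finset.mem_filter.1 hy).2
  simp only [Finset.mem_union, Finset.mem_filter, Finset.mem_compl]
  by_cases h1 : y ∈ A'
  · left; left; exact ⟨h1, hy'⟩
  · by_cases h2 : y ∈ B'
    · left; right; exact ⟨h2, hy'⟩
    · right; tauto

/-- if `a` is not large, it has a neighbour in `A'` -/
theorem e2b_small {E : Finset (Sym2 V)} {ε : ℝ} {A B A' B' : Finset V} (h : Env2 E ε A B A' B')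
    (hn : 0 < nV V) {a : V} (hs : (dg E B' a : ℝ) < (9 / 20 - 3 * ε) * nV V) :
    ∃ q ∈ A', s(a, q) ∈ E := by
  have h1 := e2b_deg_le E A' B' a
  have h2 : (deg E a : ℝ) ≤ dg E A' a + dg E B' a + ((A' ∪ B')ᶜ).card := by exact_mod_cast h1
  have h3 := e2b_cardZ h
  have h4 := h.mindeg a
  have h5 : (0 : ℝ) < dg E A' a := by nlinarith
  have h6 : 0 < dg E A' a := by exact_mod_cast h5
  unfold dg at h6
  obtain ⟨q, hq⟩ := Finset.card_pos.1 h6
  rw [Finset.mem_filter] at hq
  exact ⟨q, hq.1, hq.2⟩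

theorem e2b_large {E : Finset (Sym2 V)} {ε : ℝ} {A B A' B' : Finset V} (h : Env2 E ε A B A' B')
    {a : V} (ha : a ∈ A') (hε0 : 0 ≤ ε) : (9 / 20 - 3 * ε) * nV V ≤ (dg E B' a : ℝ) := by
  have h1 := h.nA a ha
  have h2 : (B'.filter (fun y => s(a, y) ∈ E)).card + (B'.filter (fun y => ¬ s(a, y) ∈ E)).card =
      B'.card := Finset.card_filter_add_card_filter_not _
  have h3 : ((B'.filter (fun y => s(a, y) ∈ E)).card : ℝ) +
    ((B'.filter (fun y => ¬ s(a, y) ∈ E)).card : ℝ) = B'.card := by exact_mod_cast h2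
  have h4 := h.sizeB
  have hn : (0 : ℝ) ≤ nV V := Nat.cast_nonneg _
  unfold dg
  nlinarith

/-- inner edges at a vertex of `A'` -/
theorem e2b_degF {E : Finset (Sym2 V)} {ε : ℝ} {A B A' B' : Finset V} (h : Env2 E ε A B A' B')
    {a : V} (ha : a ∈ A') :
    (deg (inn E A ∪ inn E B) a : ℝ) ≤ 3 * ε * nV V := by
  have h1 := e2b_deg_le (inn E A ∪ inn E B) A' B' a
  have h2 : dg (inn E A ∪ inn E B) B' a = 0 := by
    unfold dg
    rw [Finset.card_eq_zero, Finset.filter_eq_empty_iff]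
    intro y hy hay
    rw [Finset.mem_union, e2b_mem_inn, e2b_mem_inn, Finset.mk_mem_sym2_iff,
      Finset.mk_mem_sym2_iff] at hay
    rcases hay with hay | hay
    · exact Finset.disjoint_left.1 h.disj hay.2.2 (h.subB hy)
    · exact Finset.disjoint_left.1 h.disj (h.subA ha) hay.2.1
  have h3 : dg (inn E A ∪ inn E B) A' a ≤ dg E A' a := by
    apply dg_mono
    intro e he
    rw [Finset.mem_union, e2b_mem_inn, e2b_mem_inn] at he
    tauto
  have h4 : deg (inn E A ∪ inn E B) a ≤ dg E A' a + ((A' ∪ B')ᶜ).card := by omega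
  have h5 : (deg (inn E A ∪ inn E B) a : ℝ) ≤ dg E A' a + ((A' ∪ B')ᶜ).card := by
    exact_mod_cast h4
  have h6 := h.nA' a ha
  have h7 := e2b_cardZ h
  linarith

theorem e2b_degF' {E : Finset (Sym2 V)} {ε : ℝ} {A B A' B' : Finset V} (h : Env2 E ε A B A' B')
    {a : V} (ha : a ∈ A' ∪ B') :
    (deg (inn E A ∪ inn E B) a : ℝ) ≤ 3 * ε * nV V := by
  rcases Finset.mem_union.1 ha with ha | ha
  · exact e2b_degF h ha
  · rw [Finset.union_comm]
    exact e2b_degF (e2b_symm h) ha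

theorem e2b_cardF {E : Finset (Sym2 V)} {ε : ℝ} {A B A' B' : Finset V} (h : Env2 E ε A B A' B')
    (hE : Loopless E) (hε0 : 0 ≤ ε) :
    ((inn E A ∪ inn E B).card : ℝ) ≤ 3 * ε * nV V ^ 2 := by
  have hn : (0 : ℝ) ≤ nV V := Nat.cast_nonneg _
  have hsub : inn E A ∪ inn E B ⊆ E := by
    intro e he
    rw [Finset.mem_union, e2b_mem_inn, e2b_mem_inn] at he
    tauto
  have h1 : ∑ x ∈ (Finset.univ : Finset V), deg (inn E A ∪ inn E B) x =
      2 * (inn E A ∪ inn E B).card := by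
    apply sum_deg
    · intro e _
      induction e using Sym2.ind with
      | _ a b => rw [Finset.mk_mem_sym2_iff]; simp
    · exact hE.mono hsub
  have h2 : (∑ x ∈ (Finset.univ : Finset V), (deg (inn E A ∪ inn E B) x : ℝ)) =
      2 * ((inn E A ∪ inn E B).card : ℝ) := by exact_mod_cast h1
  rw [← Finset.sum_add_sum_compl (A' ∪ B')] at h2
  have h3 : ∑ x ∈ A' ∪ B', (deg (inn E A ∪ inn E B) x : ℝ) ≤
      ((A' ∪ B').card : ℝ) * (3 * ε * nV V) := by
    rw [← nsmul_eq_mul]
    exact Finset.sum_le_card_nsmul _ _ _ (fun x hx => e2b_degF' h hx)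
  have h4 : ∑ x ∈ (A' ∪ B')ᶜ, (deg (inn E A ∪ inn E B) x : ℝ) ≤
      (((A' ∪ B')ᶜ).card : ℝ) * nV V := by
    rw [← nsmul_eq_mul]
    exact Finset.sum_le_card_nsmul _ _ _ (fun x _ => by exact_mod_cast e2b_deg_le_card _ x)
  have h5 : ((A' ∪ B').card : ℝ) ≤ nV V := by exact_mod_cast Finset.card_le_univ _
  have h6 := e2b_cardZ h
  have h7 : ((A' ∪ B').card : ℝ) * (3 * ε * nV V) ≤ nV V * (3 * ε * nV V) :=
    mul_le_mul_of_nonneg_right h5 (by positivity)
  have h8 : (((A' ∪ B')ᶜ).card : ℝ) * nV V ≤ 2 * ε * nV V * nV V :=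
    mul_le_mul_of_nonneg_right h6 hn
  have h9 : 0 ≤ ε * (nV V * nV V) := by positivity
  nlinarith


/-- choose one edge for every centre with an odd number of edges -/
theorem e2b_sel (F : Finset (Sym2 V)) (ctr : Sym2 V → V) (Lg : V → Prop)
    (hodd : ∀ v, Odd (F.filter (fun f => ctr f = v)).card → ∃ f ∈ F, ctr f = v ∧ ∃ x ∈ f, Lg x) :
    ∃ M ⊆ F, (∀ f ∈ M, ∃ x ∈ f, Lg x) ∧
      (∀ v, Even ((F \ M).filter (fun f => ctr f = v)).card) ∧
      (∀ v, (M.filter (fun f => ctr f = v)).card ≤ 1) ∧ M.card ≤ Fintype.card V := by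
  classical
  by_cases hne : Nonempty (Sym2 V)
  swap
  · refine ⟨∅, Finset.empty_subset _, by simp, ?_, by simp, by simp⟩
    intro v
    exact absurd ⟨s(v, v)⟩ hne
  have hch : ∀ v, ∃ f : Sym2 V, Odd (F.filter (fun f => ctr f = v)).card →
      (f ∈ F ∧ ctr f = v ∧ ∃ x ∈ f, Lg x) := by
    intro v
    by_cases ho : Odd (F.filter (fun f => ctr f = v)).card
    · obtain ⟨f, h1, h2, h3⟩ := hodd v ho
      exact ⟨f, fun _ => ⟨h1, h2, h3⟩⟩
    · exact ⟨hne.some, fun h => absurd h ho⟩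
  choose m hm using hch
  set O := (Finset.univ : Finset V).filter (fun v => Odd (F.filter (fun f => ctr f = v)).card)
    with hO
  have hmO : ∀ v ∈ O, m v ∈ F ∧ ctr (m v) = v ∧ ∃ x ∈ m v, Lg x := by
    intro v hv
    exact hm v (Finset.mem_filter.1 hv).2
  have hfil : ∀ v, (O.image m).filter (fun f => ctr f = v) = if v ∈ O then {m v} else ∅ := by
    intro v
    ext f
    simp only [Finset.mem_filter, Finset.mem_image]
    split_ifs with hv
    · rw [Finset.mem_singleton]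
      constructor
      · rintro ⟨⟨w, hw, rfl⟩, h2⟩
        rw [(hmO w hw).2.1] at h2
        rw [h2]
      · rintro rfl
        exact ⟨⟨v, hv, rfl⟩, (hmO v hv).2.1⟩
    · constructor
      · rintro ⟨⟨w, hw, rfl⟩, h2⟩
        rw [(hmO w hw).2.1] at h2
        exact absurd (h2 ▸ hw) hv
      · intro h; simp at h
  have hsub : O.image m ⊆ F := by
    intro f hf
    obtain ⟨v, hv, rfl⟩ := Finset.mem_image.1 hf
    exact (hmO v hv).1
  refine ⟨O.image m, hsub, ?_, ?_, ?_, ?_⟩
  · intro f hf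
    obtain ⟨v, hv, rfl⟩ := Finset.mem_image.1 hf
    exact (hmO v hv).2.2
  · intro v
    have h1 : (F \ O.image m).filter (fun f => ctr f = v) =
        F.filter (fun f => ctr f = v) \ (O.image m).filter (fun f => ctr f = v) := by
      ext f
      simp only [Finset.mem_filter, Finset.mem_sdiff]
      tauto
    rw [h1, Finset.card_sdiff_of_subset (Finset.filter_subset_filter _ hsub), hfil v]
    split_ifs with hv
    · have := (Finset.mem_filter.1 hv).2
      rw [Finset.card_singleton]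
      obtain ⟨k, hk⟩ := this
      rw [hk]
      exact ⟨k, by omega⟩
    · have h2 : ¬ Odd (F.filter (fun f => ctr f = v)).card := by
        intro h
        exact hv (Finset.mem_filter.2 ⟨Finset.mem_univ _, h⟩)
      rw [Finset.card_empty, Nat.sub_zero]
      exact Nat.not_odd_iff_even.1 h2
  · intro v
    rw [hfil v]
    split_ifs <;> simp
  · exact Finset.card_image_le.trans (Finset.card_le_univ _)

/-- parity of the selected edges inside `A` -/
theorem e2b_par {E F M : Finset (Sym2 V)} {A B : Finset V} (hd : Disjoint A B)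
    (hFd : F = inn E A ∪ inn E B) (hM : M ⊆ F) (ctr : Sym2 V → V)
    (hctr : ∀ f ∈ F, ctr f ∈ f)
    (heven : ∀ v, Even ((F \ M).filter (fun f => ctr f = v)).card)
    (hA : Even (inn E A).card) : Even (inn M A).card := by
  have h1 : (inn (F \ M) A).card = ∑ v ∈ A, ((inn (F \ M) A).filter (fun f => ctr f = v)).card := by
    apply Finset.card_eq_sum_card_fiberwise
    intro f hf
    have hf' := e2b_mem_inn.1 (Finset.mem_coe.1 hf)
    have h2 := hctr f (Finset.mem_sdiff.1 hf'.1).1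
    exact Finset.mem_coe.2 (Finset.mem_sym2_iff.1 hf'.2 _ h2)
  have h2 : Even (inn (F \ M) A).card := by
    rw [h1]
    apply Finset.even_sum
    intro v hv
    have h3 : (inn (F \ M) A).filter (fun f => ctr f = v) = (F \ M).filter (fun f => ctr f = v) := by
      ext f
      rw [Finset.mem_filter, Finset.mem_filter, e2b_mem_inn]
      constructor
      · rintro ⟨⟨h4, _⟩, h5⟩; exact ⟨h4, h5⟩
      · rintro ⟨h4, h5⟩
        refine ⟨⟨h4, ?_⟩, h5⟩
        have h6 := (Finset.mem_sdiff.1 h4).1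
        have h7 := hctr f h6
        rw [h5] at h7
        rw [hFd, Finset.mem_union, e2b_mem_inn, e2b_mem_inn] at h6
        rcases h6 with h6 | h6
        · exact h6.2
        · exfalso
          exact Finset.disjoint_left.1 hd hv (Finset.mem_sym2_iff.1 h6.2 _ h7)
    rw [h3]
    exact heven v
  have h3 : inn E A = inn M A ∪ inn (F \ M) A := by
    ext f
    rw [Finset.mem_union, e2b_mem_inn, e2b_mem_inn, e2b_mem_inn, Finset.mem_sdiff]
    constructor
    · rintro ⟨h4, h5⟩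
      by_cases h6 : f ∈ M
      · left; exact ⟨h6, h5⟩
      · right
        refine ⟨⟨?_, h6⟩, h5⟩
        rw [hFd, Finset.mem_union, e2b_mem_inn]
        left; exact ⟨h4, h5⟩
    · intro h
      have h7 : f ∈ F ∧ f ∈ A.sym2 := by
        rcases h with h | h
        · exact ⟨hM h.1, h.2⟩
        · exact ⟨h.1.1, h.2⟩
      refine ⟨?_, h7.2⟩
      have h8 := h7.1
      rw [hFd, Finset.mem_union, e2b_mem_inn, e2b_mem_inn] at h8
      tauto
  have h4 : Disjoint (inn M A) (inn (F \ M) A) := by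
    rw [Finset.disjoint_left]
    intro f h5 h6
    rw [e2b_mem_inn] at h5 h6
    exact (Finset.mem_sdiff.1 h6.1).2 h5.1
  rw [h3, Finset.card_union_of_disjoint h4] at hA
  exact (Nat.even_add.1 hA).2 h2

/-- one pairing step -/
theorem e2b_step {E : Finset (Sym2 V)} {ε : ℝ} {A B A' B' : Finset V} (h : Env2 E ε A B A' B')
    (hE : Loopless E) (hε : ε ≤ 1 / 1000) (Rm M : Finset (Sym2 V)) (d K : ℕ)
    (hK : 1 ≤ K) (hd : ∀ p, deg Rm p ≤ d) (hdn : (d : ℝ) ≤ nV V / 1000) (hME : M ⊆ E)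
    (hev : Even (inn M A).card)
    (hlg : ∀ f ∈ M, ∃ x ∈ f, x ∈ A → (9 / 20 - 3 * ε) * nV V ≤ (dg E B' x : ℝ))
    (hload : ∀ p, deg M p ≤ K + 1) (hMc : M.card ≤ Fintype.card V)
    (hnum : 18 * nV V / K + 24 * K + 20 < 1 / 400 * ((A' ∪ B').card : ℝ)) :
    ∃ D : Finset (Sym2 V), Dec D ∧ inn M A ⊆ D ∧ D ⊆ inn M A ∪ (crs E A B \ Rm) ∧
      ∀ p, deg (D ∩ (crs E A B \ Rm)) p ≤ 2 * ((K + 1) + K) := by
  have hn : (0 : ℝ) ≤ nV V := Nat.cast_nonneg _
  have hS : ((A' ∪ B').card : ℝ) ≤ nV V := by exact_mod_cast Finset.card_le_univ _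
  have hS0 : (0 : ℝ) ≤ ((A' ∪ B').card : ℝ) := Nat.cast_nonneg _
  have hinM : inn M A ⊆ M := by
    intro f hf; exact (e2b_mem_inn.1 hf).1
  apply pair_cover (A' ∪ B') (crs E A B \ Rm) (inn M A) (1 / 400) (K + 1) K hK
  · exact hE.mono (fun e he => (e2b_mem_crs.1 (Finset.mem_sdiff.1 he).1).1)
  · exact hE.mono (hinM.trans hME)
  · rw [Finset.disjoint_left]
    intro f hf hf'
    exact (e2b_mem_crs.1 (Finset.mem_sdiff.1 hf').1).2.1 (e2b_mem_inn.1 hf).2
  · exact hev
  · intro u v w _ huv hvw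
    have hu : u ∈ A := (Finset.mk_mem_sym2_iff.1 (e2b_mem_inn.1 huv).2).1
    have hw : w ∈ A := (Finset.mk_mem_sym2_iff.1 (e2b_mem_inn.1 hvw).2).2
    have h1 := e2b_P4 h hε hu hw
    have h2 := P4_sdiff (S := A' ∪ B') (crs E A B) Rm hd u w
    have h3 : (P4 (crs E A B) (A' ∪ B') u w : ℝ) ≤ P4 (crs E A B \ Rm) (A' ∪ B') u w +
        4 * d * ((A' ∪ B').card : ℝ) ^ 2 := by exact_mod_cast h2
    have h4 : ((A' ∪ B').card : ℝ) ^ 2 ≤ nV V ^ 2 := pow_le_pow_left₀ hS0 hS 2
    have h5 : ((A' ∪ B').card : ℝ) ^ 3 ≤ nV V ^ 3 := pow_le_pow_left₀ hS0 hS 3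
    have h6 : 4 * (d : ℝ) * ((A' ∪ B').card : ℝ) ^ 2 ≤ 4 * (nV V / 1000) * nV V ^ 2 :=
      mul_le_mul (by linarith) h4 (by positivity) (by positivity)
    have h7 : 0 ≤ nV V ^ 3 := by positivity
    nlinarith
  · intro m hm m' hm' _
    have hcn : ∀ q p, q ∈ A → p ∈ A → (9 / 20 - 3 * ε) * nV V ≤ (dg E B' q : ℝ) →
        nV V / 20 ≤ (cn (crs E A B \ Rm) (A' ∪ B') q p : ℝ) := by
      intro q p hq hp hqL
      have h1 := e2b_cn h hq hp
      have h2 := cn_sdiff (S := A' ∪ B') (crs E A B) Rm hd q p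
      have h3 : (dg E B' q : ℝ) + dg E B' p ≤ cn (crs E A B \ Rm) (A' ∪ B') q p + 2 * d +
          B'.card := by exact_mod_cast h1.trans (Nat.add_le_add_right h2 _)
      have h4 := h.lowA p hp
      have h5 := e2b_cardS_le h
      have h6 := h.sizeA
      nlinarith
    have hform : ∀ m ∈ inn M A, ∃ p q, m = s(p, q) ∧ p ∈ A ∧ q ∈ A ∧
        (9 / 20 - 3 * ε) * nV V ≤ (dg E B' q : ℝ) := by
      intro m hm
      obtain ⟨hm1, hm2⟩ := e2b_mem_inn.1 hm
      obtain ⟨q, hq, hqL⟩ := hlg m hm1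
      obtain ⟨p, rfl⟩ := Sym2.mem_iff_exists.1 hq
      rw [Finset.mk_mem_sym2_iff] at hm2
      exact ⟨p, q, Sym2.eq_swap, hm2.2, hm2.1, hqL hm2.1⟩
    obtain ⟨p, q, h1, hp, hq, hqL⟩ := hform m hm
    obtain ⟨p', q', h1', hp', hq', hqL'⟩ := hform m' hm'
    refine ⟨p, q, p', q', h1, h1', ?_⟩
    have h2 := hcn q p' hq hp' hqL
    have h3 := hcn q' p hq' hp hqL'
    have h4 : ((A' ∪ B').card : ℝ) ^ 2 ≤ nV V ^ 2 := pow_le_pow_left₀ hS0 hS 2
    have h5 : nV V / 20 * (nV V / 20) ≤ (cn (crs E A B \ Rm) (A' ∪ B') q p' : ℝ) *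
        (cn (crs E A B \ Rm) (A' ∪ B') q' p : ℝ) :=
      mul_le_mul h2 h3 (by positivity) (by positivity)
    nlinarith
  · intro p
    exact (deg_mono hinM p).trans (hload p)
  · have hc : ((inn M A).card : ℝ) ≤ nV V := by
      exact_mod_cast (Finset.card_le_card hinM).trans hMc
    have hKpos : (0 : ℝ) < K := by exact_mod_cast hK
    have h1 : 18 * ((inn M A).card : ℝ) / K ≤ 18 * nV V / K := by
      apply div_le_div_of_nonneg_right _ hKpos.le
      linarith
    push_cast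
    linarith


/-- existence of the centres and of the selected edges -/
theorem e2b_data {E : Finset (Sym2 V)} {ε : ℝ} {A B A' B' : Finset V} (h : Env2 E ε A B A' B')
    (hE : Loopless E) (hε0 : 0 ≤ ε) (hn : 0 < nV V) (K : ℕ) (hK : 3 * ε * nV V ≤ K)
    (hA : Even (inn E A).card) (hB : Even (inn E B).card) :
    ∃ (ctr : Sym2 V → V) (M : Finset (Sym2 V)), M ⊆ inn E A ∪ inn E B ∧
      (∀ f ∈ inn E A ∪ inn E B, ctr f ∈ f) ∧
      (∀ p, ((inn E A ∪ inn E B).filter (fun f => p ∈ f ∧ ctr f ≠ p)).card ≤ K) ∧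
      (∀ v, Even (((inn E A ∪ inn E B) \ M).filter (fun f => ctr f = v)).card) ∧
      (∀ p, deg M p ≤ K + 1) ∧ M.card ≤ Fintype.card V ∧
      (∀ f ∈ M, ∃ x ∈ f, x ∈ A → (9 / 20 - 3 * ε) * nV V ≤ (dg E B' x : ℝ)) ∧
      (∀ f ∈ M, ∃ x ∈ f, x ∈ B → (9 / 20 - 3 * ε) * nV V ≤ (dg E A' x : ℝ)) ∧
      Even (inn M A).card ∧ Even (inn M B).card := by
  classical
  set F := inn E A ∪ inn E B with hF
  have hFE : F ⊆ E := by
    intro e he
    rw [hF, Finset.mem_union, e2b_mem_inn, e2b_mem_inn] at he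
    tauto
  have hFl : Loopless F := hE.mono hFE
  obtain ⟨ctr, hc1, _, hc3, hc4⟩ := assign F hFl ∅ (A' ∪ B')ᶜ (Finset.empty_subset _) K
    (by
      intro v hv
      rw [Finset.mem_compl, not_not] at hv
      have h1 := e2b_degF' h hv
      have h2 : (deg F v : ℝ) ≤ (K : ℝ) := by rw [hF]; exact h1.trans hK
      exact_mod_cast h2)
    (by
      have h1 := e2b_cardZ h
      have h2 : (((A' ∪ B')ᶜ).card : ℝ) ≤ (K : ℝ) := by nlinarith
      exact_mod_cast h2)
  set Lg : V → Prop := fun x => (x ∈ A → (9 / 20 - 3 * ε) * nV V ≤ (dg E B' x : ℝ)) ∧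
    (x ∈ B → (9 / 20 - 3 * ε) * nV V ≤ (dg E A' x : ℝ)) with hLg
  have hLgA : ∀ x ∈ A', Lg x := by
    intro x hx
    refine ⟨fun _ => e2b_large h hx hε0, fun hxB => ?_⟩
    exact absurd hxB (Finset.disjoint_left.1 h.disj (h.subA hx))
  have hLgB : ∀ x ∈ B', Lg x := by
    intro x hx
    refine ⟨fun hxA => ?_, fun _ => e2b_large (e2b_symm h) hx hε0⟩
    exact absurd (h.subB hx) (Finset.disjoint_left.1 h.disj hxA)
  obtain ⟨M, hMF, hM1, hM2, hM3, hM4⟩ := e2b_sel F ctr Lg (by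
    intro v hv
    obtain ⟨k, hk⟩ := hv
    have hpos : 0 < (F.filter (fun f => ctr f = v)).card := by omega
    obtain ⟨f0, hf0⟩ := Finset.card_pos.1 hpos
    obtain ⟨hf0F, hf0v⟩ := Finset.mem_filter.1 hf0
    by_cases hv1 : v ∈ A' ∪ B'
    · refine ⟨f0, hf0F, hf0v, v, hf0v ▸ hc1 f0 hf0F, ?_⟩
      rcases Finset.mem_union.1 hv1 with h1 | h1
      · exact hLgA v h1
      · exact hLgB v h1
    · by_cases hvL : Lg v
      · exact ⟨f0, hf0F, hf0v, v, hf0v ▸ hc1 f0 hf0F, hvL⟩
      · -- `v` is not large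
        have hq : ∃ q ∈ A' ∪ B', s(v, q) ∈ F ∧ Lg q := by
          by_cases hvA : v ∈ A
          · have hvB : v ∉ B := Finset.disjoint_left.1 h.disj hvA
            have hs : (dg E B' v : ℝ) < (9 / 20 - 3 * ε) * nV V := by
              by_contra hcon
              exact hvL ⟨fun _ => not_lt.1 hcon, fun hh => absurd hh hvB⟩
            obtain ⟨q, hq, hvq⟩ := e2b_small h hn hs
            refine ⟨q, Finset.mem_union_left _ hq, ?_, hLgA q hq⟩
            rw [hF, Finset.mem_union, e2b_mem_inn, Finset.mk_mem_sym2_iff]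
            left; exact ⟨hvq, hvA, h.subA hq⟩
          · have hvB : v ∈ B := by
              have := Finset.mem_univ v
              rw [← h.cover, Finset.mem_union] at this
              exact this.resolve_left hvA
            have hs : (dg E A' v : ℝ) < (9 / 20 - 3 * ε) * nV V := by
              by_contra hcon
              exact hvL ⟨fun hh => absurd hh hvA, fun _ => not_lt.1 hcon⟩
            obtain ⟨q, hq, hvq⟩ := e2b_small (e2b_symm h) hn hs
            refine ⟨q, Finset.mem_union_right _ hq, ?_, hLgB q hq⟩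
            rw [hF, Finset.mem_union, e2b_mem_inn, e2b_mem_inn, Finset.mk_mem_sym2_iff]
            right; rw [Finset.mk_mem_sym2_iff]; exact ⟨hvq, hvB, h.subB hq⟩
        obtain ⟨q, hq, hvq, hqL⟩ := hq
        refine ⟨s(v, q), hvq, ?_, q, Sym2.mem_mk_right v q, hqL⟩
        have h2 := hc3 _ hvq ⟨v, Sym2.mem_mk_left v q, Finset.mem_compl.2 hv1⟩
        have h3 := hc1 _ hvq
        rw [Sym2.mem_iff] at h3
        rcases h3 with h3 | h3
        · exact h3
        · rw [h3] at h2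
          exact absurd hq (Finset.mem_compl.1 h2))
  refine ⟨ctr, M, hMF, hc1, hc4, hM2, ?_, hM4, ?_, ?_, ?_, ?_⟩
  · intro p
    unfold deg
    have h1 : (M.filter (fun e => p ∈ e)).card ≤
        (F.filter (fun f => p ∈ f ∧ ctr f ≠ p)).card + (M.filter (fun f => ctr f = p)).card := by
      refine le_trans ?_ (Finset.card_union_le _ _)
      apply Finset.card_le_card
      intro f hf
      obtain ⟨h2, h3⟩ := Finset.mem_filter.1 hf
      rw [Finset.mem_union, Finset.mem_filter, Finset.mem_filter]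
      by_cases h4 : ctr f = p
      · right; exact ⟨h2, h4⟩
      · left; exact ⟨hMF h2, h3, h4⟩
    exact h1.trans (Nat.add_le_add (hc4 p) (hM3 p))
  · intro f hf
    obtain ⟨x, hx, hxL⟩ := hM1 f hf
    exact ⟨x, hx, hxL.1⟩
  · intro f hf
    obtain ⟨x, hx, hxL⟩ := hM1 f hf
    exact ⟨x, hx, hxL.2⟩
  · exact e2b_par h.disj hF hMF ctr hc1 hM2 hA
  · exact e2b_par h.disj.symm (hF.trans (Finset.union_comm _ _)) hMF ctr hc1 hM2 hB

/-- covering the edges of `F \ M` -/
theorem e2b_first {E : Finset (Sym2 V)} {ε : ℝ} {A B A' B' : Finset V} (h : Env2 E ε A B A' B')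
    (hE : Loopless E) (hε : ε ≤ 1 / 1000) (G : Finset (Sym2 V)) (hG : G ⊆ inn E A ∪ inn E B)
    (ctr : Sym2 V → V) (K : ℕ) (hK : 1 ≤ K)
    (hc1 : ∀ f ∈ G, ctr f ∈ f)
    (hc4 : ∀ p, (G.filter (fun f => p ∈ f ∧ ctr f ≠ p)).card ≤ K)
    (heven : ∀ v, Even (G.filter (fun f => ctr f = v)).card)
    (hnum : 18 * (G.card : ℝ) / K + 24 * K + 8 < 1 / 100 * ((A' ∪ B').card : ℝ)) :
    ∃ D : Finset (Sym2 V), Dec D ∧ G ⊆ D ∧ D ⊆ G ∪ crs E A B ∧
      ∀ p, deg (D ∩ crs E A B) p ≤ 2 * (K + K) := by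
  have hn : (0 : ℝ) ≤ nV V := Nat.cast_nonneg _
  have hS : ((A' ∪ B').card : ℝ) ≤ nV V := by exact_mod_cast Finset.card_le_univ _
  have hS0 : (0 : ℝ) ≤ ((A' ∪ B').card : ℝ) := Nat.cast_nonneg _
  have hGi : ∀ f ∈ G, f ∈ E ∧ (f ∈ A.sym2 ∨ f ∈ B.sym2) := by
    intro f hf
    have := hG hf
    rw [Finset.mem_union, e2b_mem_inn, e2b_mem_inn] at this
    tauto
  apply cherry_cover (A' ∪ B') (crs E A B) G ctr (1 / 100) K K hK
  · exact hE.mono (fun e he => (e2b_mem_crs.1 he).1)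
  · exact hE.mono (fun e he => (hGi e he).1)
  · rw [Finset.disjoint_left]
    intro f hf hf'
    have h1 := (hGi f hf).2
    have h2 := (e2b_mem_crs.1 hf').2
    tauto
  · exact hc1
  · exact heven
  · intro v u w _ huv hvw _ _
    have h1 := (hGi _ huv).2
    have h2 := (hGi _ hvw).2
    rw [Finset.mk_mem_sym2_iff, Finset.mk_mem_sym2_iff] at h1 h2
    have h5 : ((A' ∪ B').card : ℝ) ^ 3 ≤ nV V ^ 3 := pow_le_pow_left₀ hS0 hS 3
    have h6 : 1 / 100 * ((A' ∪ B').card : ℝ) ^ 3 ≤ 1 / 100 * nV V ^ 3 := by linarith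
    refine h6.trans ?_
    by_cases hv : v ∈ A
    · have hvB : v ∉ B := Finset.disjoint_left.1 h.disj hv
      have hu : u ∈ A := by tauto
      have hw : w ∈ A := by tauto
      exact e2b_P4 h hε hu hw
    · have hu : u ∈ B := by tauto
      have hw : w ∈ B := by tauto
      have h7 := e2b_P4 (e2b_symm h) hε hu hw
      rw [e2b_crs_comm, Finset.union_comm]
      exact h7
  · exact hc4
  · linarith

end E2B

theorem cover2 (ρ : ℝ) (hρ : 0 < ρ) :
    ∃ ε : ℝ, 0 < ε ∧ ∃ n0 : ℕ, ∀ (V : Type) [Fintype V] [DecidableEq V] (E : Finset (Sym2 V))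
      (A B A' B' : Finset V), n0 ≤ Fintype.card V → Loopless E → EvenDeg E →
      Env2 E ε A B A' B' → Even (inn E A).card → Even (inn E B).card →
      ∃ D ⊆ E, Dec D ∧ inn E A ⊆ D ∧ inn E B ⊆ D ∧
        ∀ v, (deg (D ∩ crs E A B) v : ℝ) ≤ ρ * nV V := by
  classical
  set κ : ℝ := min (1 / 100000) (ρ / 100) with hκ
  have hκ0 : 0 < κ := by rw [hκ]; exact lt_min (by norm_num) (by positivity)
  have hκ1 : κ ≤ 1 / 100000 := min_le_left _ _
  have hκ2 : κ ≤ ρ / 100 := min_le_right _ _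
  refine ⟨κ / 60000, by positivity, ⌈10000 / κ⌉₊, ?_⟩
  intro V _ _ E A B A' B' hn0 hE _ h hA hB
  set n : ℝ := nV V with hn
  have hnbig : 10000 / κ ≤ n := by
    have h1 := Nat.le_ceil (10000 / κ)
    have h2 : ((⌈10000 / κ⌉₊ : ℕ) : ℝ) ≤ (Fintype.card V : ℝ) := by exact_mod_cast hn0
    exact h1.trans h2
  have hnκ : 10000 ≤ κ * n := by
    rw [div_le_iff₀ hκ0] at hnbig
    linarith
  have hnbig2 : 1000000000 ≤ n := by
    have : (1000000000 : ℝ) ≤ 10000 / κ := by
      rw [le_div_iff₀ hκ0]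
      nlinarith
    linarith
  have hnpos : 0 < n := by linarith
  set ε : ℝ := κ / 60000 with hε
  have hε0 : 0 ≤ ε := by rw [hε]; positivity
  have hεs : ε ≤ 1 / 1000 := by rw [hε]; linarith
  set K : ℕ := ⌈κ * n⌉₊ with hK
  have hK1 : κ * n ≤ (K : ℝ) := Nat.le_ceil _
  have hK2 : (K : ℝ) < κ * n + 1 := Nat.ceil_lt_add_one (by positivity)
  have hKpos : (0 : ℝ) < K := by linarith
  have hK3 : 1 ≤ K := by
    have : (0 : ℝ) < K := hKpos
    exact_mod_cast this
  have hKn : (K : ℝ) ≤ n / 100000 + 1 := by nlinarith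
  have hSn : (99 / 100) * n ≤ ((A' ∪ B').card : ℝ) := by
    have h1 := e2b_cardS h
    have h4 := h.sizeA
    have h5 := h.sizeB
    rw [h1]
    push_cast
    nlinarith
  obtain ⟨ctr, M, hMF, hc1, hc4, hM2, hM5, hM6, hM7, hM8, hM9, hM10⟩ :=
    e2b_data h hE hε0 hnpos K (by rw [hε]; nlinarith) hA hB
  set F := inn E A ∪ inn E B with hF
  have hFE : F ⊆ E := by
    intro e he
    rw [hF, Finset.mem_union, e2b_mem_inn, e2b_mem_inn] at he
    tauto
  have hFc : (F.card : ℝ) ≤ 3 * ε * n ^ 2 := e2b_cardF h hE hε0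
  -- first step
  obtain ⟨D1, hD1, hFD1, hD1s, hD1d⟩ := e2b_first h hE hεs (F \ M) Finset.sdiff_subset ctr K hK3
    (fun f hf => hc1 f (Finset.mem_sdiff.1 hf).1)
    (fun p => (Finset.card_le_card (Finset.filter_subset_filter _ Finset.sdiff_subset)).trans
      (hc4 p)) hM2
    (by
      have h1 : ((F \ M).card : ℝ) ≤ F.card := by
        exact_mod_cast Finset.card_le_card Finset.sdiff_subset
      have h2 : 18 * ((F \ M).card : ℝ) / K ≤ 9 / 10000 * n := by
        rw [div_le_iff₀ hKpos]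
        have h3 : 9 / 10000 * n * (κ * n) ≤ 9 / 10000 * n * K :=
          mul_le_mul_of_nonneg_left hK1 (by positivity)
        have h4 : 18 * (3 * ε * n ^ 2) = 9 / 10000 * n * (κ * n) := by
          rw [hε]; ring
        linarith
      linarith)
  -- second step
  obtain ⟨D2, hD2, hMD2, hD2s, hD2d⟩ := e2b_step h hE hεs (D1 ∩ crs E A B) M (2 * (K + K)) K hK3
    hD1d (by push_cast; linarith) (hMF.trans hFE) hM9 hM7 hM5 hM6
    (by
      have h2 : 18 * nV V / K ≤ 18 * n / (κ * n) := by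
        apply div_le_div_of_nonneg_left (by positivity) (by positivity) hK1
      have h3 : 18 * n / (κ * n) = 18 / κ := by field_simp
      have h4 : 18 / κ ≤ 18 / 10000 * n := by
        have : 18 / κ = 18 / 10000 * (10000 / κ) := by ring
        rw [this]
        exact mul_le_mul_of_nonneg_left hnbig (by norm_num)
      linarith)
  -- third step
  have hd2 : ∀ p, deg (D1 ∩ crs E A B ∪ D2 ∩ (crs E A B \ (D1 ∩ crs E A B))) p ≤
      2 * (K + K) + 2 * ((K + 1) + K) := by
    intro p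
    exact (deg_union_le _ _ p).trans (Nat.add_le_add (hD1d p) (hD2d p))
  obtain ⟨D3, hD3, hMD3, hD3s, hD3d⟩ := e2b_step (e2b_symm h) hE hεs
    (D1 ∩ crs E A B ∪ D2 ∩ (crs E A B \ (D1 ∩ crs E A B))) M
    (2 * (K + K) + 2 * ((K + 1) + K)) K hK3
    hd2 (by push_cast; linarith) (hMF.trans hFE) hM10 hM8 hM5 hM6
    (by
      rw [Finset.union_comm]
      have h2 : 18 * nV V / K ≤ 18 * n / (κ * n) := by
        apply div_le_div_of_nonneg_left (by positivity) (by positivity) hK1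
      have h3 : 18 * n / (κ * n) = 18 / κ := by field_simp
      have h4 : 18 / κ ≤ 18 / 10000 * n := by
        have : 18 / κ = 18 / 10000 * (10000 / κ) := by ring
        rw [this]
        exact mul_le_mul_of_nonneg_left hnbig (by norm_num)
      linarith)
  rw [e2b_crs_comm E B A] at hD3s hD3d
  set H := crs E A B with hH
  have hHF : ∀ e, e ∈ H → e ∉ F := by
    intro e he heF
    have h1 := e2b_mem_crs.1 he
    rw [hF, Finset.mem_union, e2b_mem_inn, e2b_mem_inn] at heF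
    tauto
  have hHE : ∀ e, e ∈ H → e ∈ E := fun e he => (e2b_mem_crs.1 he).1
  have hAB : ∀ e, e ∈ A.sym2 → e ∉ B.sym2 := by
    intro e
    induction e using Sym2.ind with
    | _ a b =>
      intro h1 h2
      rw [Finset.mk_mem_sym2_iff] at h1 h2
      exact Finset.disjoint_left.1 h.disj h1.1 h2.1
  have hd12 : Disjoint D1 D2 := by
    rw [Finset.disjoint_left]
    intro e h1 h2
    have h3 := hD1s h1
    have h4 := hD2s h2
    rw [Finset.mem_union, Finset.mem_sdiff] at h3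
    rw [Finset.mem_union, Finset.mem_sdiff, Finset.mem_inter, e2b_mem_inn] at h4
    rcases h4 with h4 | h4
    · rcases h3 with h3 | h3
      · exact h3.2 h4.1
      · exact hHF e h3 (hMF h4.1)
    · exact h4.2 ⟨h1, h4.1⟩
  have hd123 : Disjoint (D1 ∪ D2) D3 := by
    rw [Finset.disjoint_left]
    intro e h12 h2
    have h4 := hD3s h2
    rw [Finset.mem_union, e2b_mem_inn, Finset.mem_sdiff, Finset.mem_union, Finset.mem_inter,
      Finset.mem_inter, Finset.mem_sdiff, Finset.mem_inter] at h4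
    rcases Finset.mem_union.1 h12 with h1 | h1
    · have h3 := hD1s h1
      rw [Finset.mem_union, Finset.mem_sdiff] at h3
      rcases h4 with h4 | h4
      · rcases h3 with h3 | h3
        · exact h3.2 h4.1
        · exact hHF e h3 (hMF h4.1)
      · exact h4.2 (Or.inl ⟨h1, h4.1⟩)
    · have h3 := hD2s h1
      rw [Finset.mem_union, Finset.mem_sdiff, Finset.mem_inter, e2b_mem_inn] at h3
      rcases h4 with h4 | h4
      · rcases h3 with h3 | h3
        · exact hAB e h3.2 h4.2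
        · exact hHF e h3.1 (hMF h4.1)
      · rcases h3 with h3 | h3
        · exact hHF e h4.1 (hMF h3.1)
        · exact h4.2 (Or.inr ⟨h1, h3.1, h3.2⟩)
  refine ⟨D1 ∪ D2 ∪ D3, ?_, (hD1.union hD2 hd12).union hD3 hd123, ?_, ?_, ?_⟩
  · intro e he
    rw [Finset.mem_union, Finset.mem_union] at he
    rcases he with (he | he) | he
    · have h1 := hD1s he
      rw [Finset.mem_union, Finset.mem_sdiff] at h1
      rcases h1 with h1 | h1
      · exact hFE h1.1
      · exact hHE e h1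
    · have h1 := hD2s he
      rw [Finset.mem_union, Finset.mem_sdiff, e2b_mem_inn] at h1
      rcases h1 with h1 | h1
      · exact hFE (hMF h1.1)
      · exact hHE e h1.1
    · have h1 := hD3s he
      rw [Finset.mem_union, Finset.mem_sdiff, e2b_mem_inn] at h1
      rcases h1 with h1 | h1
      · exact hFE (hMF h1.1)
      · exact hHE e h1.1
  · intro e he
    by_cases hM : e ∈ M
    · apply Finset.mem_union_left; apply Finset.mem_union_right
      exact hMD2 (e2b_mem_inn.2 ⟨hM, (e2b_mem_inn.1 he).2⟩)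
    · apply Finset.mem_union_left; apply Finset.mem_union_left
      exact hFD1 (Finset.mem_sdiff.2 ⟨Finset.mem_union_left _ he, hM⟩)
  · intro e he
    by_cases hM : e ∈ M
    · apply Finset.mem_union_right
      exact hMD3 (e2b_mem_inn.2 ⟨hM, (e2b_mem_inn.1 he).2⟩)
    · apply Finset.mem_union_left; apply Finset.mem_union_left
      exact hFD1 (Finset.mem_sdiff.2 ⟨Finset.mem_union_right _ he, hM⟩)
  · intro v
    have h1 : (D1 ∪ D2 ∪ D3) ∩ H ⊆ (D1 ∩ H ∪ D2 ∩ (H \ (D1 ∩ H))) ∪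
        D3 ∩ (H \ (D1 ∩ H ∪ D2 ∩ (H \ (D1 ∩ H)))) := by
      intro e he
      simp only [Finset.mem_union, Finset.mem_inter, Finset.mem_sdiff] at he ⊢
      tauto
    have h2 : deg ((D1 ∪ D2 ∪ D3) ∩ H) v ≤
        2 * (K + K) + 2 * ((K + 1) + K) + 2 * ((K + 1) + K) := by
      refine (deg_mono h1 v).trans ((deg_union_le _ _ v).trans ?_)
      exact Nat.add_le_add (hd2 v) (hD3d v)
    have h3 : (deg ((D1 ∪ D2 ∪ D3) ∩ H) v : ℝ) ≤
        2 * (K + K) + 2 * ((K + 1) + K) + 2 * ((K + 1) + K) := by exact_mod_cast h2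
    refine h3.trans ?_
    have h4 : κ * n ≤ ρ / 100 * n := mul_le_mul_of_nonneg_right hκ2 hnpos.le
    linarith

end H15C6
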