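import Pool.Agent.H15.C6.E2A
import Pool.Agent.H15.C6.E2B
import Pool.Agent.H15.C6.NCT

/-!
Module E2C.  Extremal case 2, conclusion.
Constants: `c := 1/20` in `bipt` gives `ε3`; `ρ := min (1/100) (ε3/4)`; `cover2 ρ` gives `ε4`; `ε := min` of everything `/ 20`.
`prep2` gives `Env2 E (4ε)`.  By `par2` `|inn E A|` and `|inn E B|` have the same parity.  If both are odd,
`odd2` gives `C`; replace `E` by `E \ C` (even degrees, `6 ∣`, `Env2` with `5ε`, both numbers
become even).  `cover2` gives `D`; the rest `E \ D` is bipartite and `bipt` applies.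
-/

open Finset

namespace H15C6

set_option linter.unusedSectionVars false

section E2Caux

variable {V : Type} [Fintype V] [DecidableEq V]

theorem e2c_mono {E : Finset (Sym2 V)} {ε ε' : ℝ} {A B A' B' : Finset V} (h : ε ≤ ε')
    (hE : Env2 E ε A B A' B') : Env2 E ε' A B A' B' := by
  have hn : (0 : ℝ) ≤ nV V := Nat.cast_nonneg _
  have h1 : ε * nV V ≤ ε' * nV V := mul_le_mul_of_nonneg_right h hn
  refine ⟨hE.disj, hE.cover, hE.subA, hE.subB, ?_, ?_, ?_, ?_, ?_, ?_, ?_, ?_, ?_⟩
  · have := hE.sizeA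
    nlinarith
  · have := hE.sizeB
    nlinarith
  · intro a ha
    have := hE.nA a ha
    linarith
  · intro a ha
    have := hE.nA' a ha
    linarith
  · intro a ha
    have := hE.nB a ha
    linarith
  · intro a ha
    have := hE.nB' a ha
    linarith
  · intro a ha
    have := hE.lowA a ha
    nlinarith
  · intro a ha
    have := hE.lowB a ha
    nlinarith
  · intro a
    have := hE.mindeg a
    nlinarith

theorem e2c_deg_c6 {C : Finset (Sym2 V)} (hC : IsC6 C) (x : V) : deg C x ≤ 2 := by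
  obtain ⟨v, hv, rfl⟩ := hC
  by_cases hx : ∃ i, v i = x
  · obtain ⟨i, rfl⟩ := hx
    rw [deg_cyc_mem hv]
  · rw [deg_cyc_notMem (fun i hi => hx ⟨i, hi⟩)]
    omega

theorem e2c_non (E C : Finset (Sym2 V)) (T : Finset V) (x : V) :
    (T.filter (fun y => s(x, y) ∉ E \ C)).card ≤
      (T.filter (fun y => s(x, y) ∉ E)).card + deg C x := by
  refine le_trans (le_trans (card_le_card ?_) (card_union_le _ _))
    (Nat.add_le_add_left (dg_le_deg C T x) _)
  intro y hy
  simp only [mem_filter, mem_union, mem_sdiff, not_and, not_not] at hy ⊢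
  by_cases h : s(x, y) ∈ E
  · right
    exact ⟨hy.1, hy.2 h⟩
  · left
    exact ⟨hy.1, h⟩

/-- removing a six-cycle -/
theorem e2c_env {E C : Finset (Sym2 V)} {ε ε' : ℝ} {A B A' B' : Finset V}
    (hE : Env2 E ε A B A' B') (hC : IsC6 C) (hCE : C ⊆ E) (h : ε * nV V + 2 ≤ ε' * nV V) :
    Env2 (E \ C) ε' A B A' B' := by
  have hd : ∀ x, (deg C x : ℝ) ≤ 2 := by
    intro x
    exact_mod_cast e2c_deg_c6 hC x
  refine ⟨hE.disj, hE.cover, hE.subA, hE.subB, ?_, ?_, ?_, ?_, ?_, ?_, ?_, ?_, ?_⟩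
  · have := hE.sizeA
    nlinarith
  · have := hE.sizeB
    nlinarith
  · intro a ha
    have h1 := hE.nA a ha
    have h2 : ((B'.filter (fun y => s(a, y) ∉ E \ C)).card : ℝ) ≤
        ((B'.filter (fun y => s(a, y) ∉ E)).card : ℝ) + (deg C a : ℝ) := by
      exact_mod_cast e2c_non E C B' a
    linarith [hd a]
  · intro a ha
    have h1 := hE.nA' a ha
    have h2 : (dg (E \ C) A' a : ℝ) ≤ dg E A' a := by
      exact_mod_cast dg_mono sdiff_subset A' a
    linarith
  · intro a ha
    have h1 := hE.nB a ha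
    have h2 : ((A'.filter (fun y => s(a, y) ∉ E \ C)).card : ℝ) ≤
        ((A'.filter (fun y => s(a, y) ∉ E)).card : ℝ) + (deg C a : ℝ) := by
      exact_mod_cast e2c_non E C A' a
    linarith [hd a]
  · intro a ha
    have h1 := hE.nB' a ha
    have h2 : (dg (E \ C) B' a : ℝ) ≤ dg E B' a := by
      exact_mod_cast dg_mono sdiff_subset B' a
    linarith
  · intro a ha
    have h1 := hE.lowA a ha
    have h2 : (dg E B' a : ℝ) ≤ dg (E \ C) B' a + deg C a := by
      exact_mod_cast dg_le_sdiff_add E C B' a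
    have := hd a
    nlinarith
  · intro a ha
    have h1 := hE.lowB a ha
    have h2 : (dg E A' a : ℝ) ≤ dg (E \ C) A' a + deg C a := by
      exact_mod_cast dg_le_sdiff_add E C A' a
    have := hd a
    nlinarith
  · intro a
    have h1 := hE.mindeg a
    have h2 : (deg E a : ℝ) = deg (E \ C) a + deg C a := by
      exact_mod_cast (deg_sdiff hCE a).symm
    have := hd a
    nlinarith

theorem e2c_inn {E C : Finset (Sym2 V)} (hCE : C ⊆ E) (A : Finset V) :
    (inn (E \ C) A).card + (inn C A).card = (inn E A).card := by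
  have h : inn (E \ C) A = inn E A \ inn C A := by
    unfold inn
    ext e
    simp only [mem_inter, mem_sdiff]
    tauto
  have h2 : inn C A ⊆ inn E A := by
    unfold inn
    exact inter_subset_inter_right hCE
  rw [h]
  exact card_sdiff_add_card_eq_card h2

theorem e2c_dg {E D : Finset (Sym2 V)} {A B T : Finset V} {x : V}
    (h : ∀ y ∈ T, s(x, y) ∉ A.sym2 ∧ s(x, y) ∉ B.sym2) :
    dg E T x ≤ deg (E \ D) x + deg (D ∩ crs E A B) x := by
  refine le_trans ?_ (Nat.add_le_add (dg_le_deg (E \ D) T x) (dg_le_deg (D ∩ crs E A B) T x))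
  refine le_trans (card_le_card ?_) (card_union_le _ _)
  intro y hy
  simp only [mem_filter, mem_union, mem_sdiff, mem_inter, crs] at hy ⊢
  by_cases hD : s(x, y) ∈ D
  · right
    exact ⟨hy.1, hD, ⟨hy.2, (h y hy.1).1⟩, (h y hy.1).2⟩
  · left
    exact ⟨hy.1, hy.2, hD⟩

theorem e2c_size {ε : ℝ} {E : Finset (Sym2 V)} {A B A' B' : Finset V}
    (hE : Env2 E ε A B A' B') :
    (A.card : ℝ) + B.card = nV V ∧ (A'.card : ℝ) ≤ A.card ∧ (B'.card : ℝ) ≤ B.card := by
  refine ⟨?_, ?_, ?_⟩
  · have h1 := card_union_of_disjoint hE.disj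
    rw [hE.cover, card_univ] at h1
    unfold nV
    exact_mod_cast h1.symm
  · exact_mod_cast card_le_card hE.subA
  · exact_mod_cast card_le_card hE.subB

end E2Caux

/-- the case where the numbers of inner edges are even -/
theorem e2c_even : ∃ ε : ℝ, 0 < ε ∧ ∃ n0 : ℕ, ∀ (V : Type) [Fintype V] [DecidableEq V]
    (E : Finset (Sym2 V)) (A B A' B' : Finset V), n0 ≤ Fintype.card V → Loopless E → EvenDeg E →
      6 ∣ E.card → Env2 E ε A B A' B' → Even (inn E A).card → Even (inn E B).card → Dec E := by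
  obtain ⟨ε3, hε3, n3, h3⟩ := bipt (1 / 20) (by norm_num)
  set ρ : ℝ := min (1 / 100) (ε3 / 4) with hρ
  have hρ0 : 0 < ρ := by
    rw [hρ]
    exact lt_min (by norm_num) (by linarith)
  have hρ1 : ρ ≤ 1 / 100 := min_le_left _ _
  have hρ2 : ρ ≤ ε3 / 4 := min_le_right _ _
  obtain ⟨ε4, hε4, n4, h4⟩ := cover2 ρ hρ0
  set ε : ℝ := min (min (1 / 1000) (ε3 / 4)) ε4 with hε
  have hε0 : 0 < ε := by
    rw [hε]
    exact lt_min (lt_min (by norm_num) (by linarith)) hε4
  have hεa : ε ≤ 1 / 1000 := (min_le_left _ _).trans (min_le_left _ _)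
  have hεb : ε ≤ ε3 / 4 := (min_le_left _ _).trans (min_le_right _ _)
  have hεc : ε ≤ ε4 := min_le_right _ _
  refine ⟨ε, hε0, max n3 n4, ?_⟩
  intro V _ _ E A B A' B' hn hl he h6 hE hA hB
  obtain ⟨D, hDE, hD, hDA, hDB, hdeg⟩ := h4 V E A B A' B' ((le_max_right _ _).trans hn) hl he
    (e2c_mono hεc hE) hA hB
  have hsplit : E = D ∪ (E \ D) := (union_sdiff_of_subset hDE).symm
  rw [hsplit]
  refine Dec.union hD ?_ disjoint_sdiff
  have hnn : (0 : ℝ) ≤ nV V := Nat.cast_nonneg _
  obtain ⟨hs1, hs2, hs3⟩ := e2c_size hE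
  have hsA := hE.sizeA
  have hsB := hE.sizeB
  have hdisj := disjoint_left.1 hE.disj
  have hAB : ∀ x ∈ A, ∀ y ∈ B', s(x, y) ∉ A.sym2 ∧ s(x, y) ∉ B.sym2 := by
    intro x hx y hy
    rw [mk_mem_sym2_iff, mk_mem_sym2_iff]
    exact ⟨fun h => hdisj h.2 (hE.subB hy), fun h => hdisj hx h.1⟩
  have hBA : ∀ x ∈ B, ∀ y ∈ A', s(x, y) ∉ A.sym2 ∧ s(x, y) ∉ B.sym2 := by
    intro x hx y hy
    rw [mk_mem_sym2_iff, mk_mem_sym2_iff]
    exact ⟨fun h => hdisj h.1 hx, fun h => hdisj (hE.subA hy) h.2⟩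
  have hdA : ∀ x ∈ A, (dg E B' x : ℝ) - ρ * nV V ≤ deg (E \ D) x := by
    intro x hx
    have h1 : (dg E B' x : ℝ) ≤ deg (E \ D) x + deg (D ∩ crs E A B) x := by
      exact_mod_cast e2c_dg (hAB x hx)
    linarith [hdeg x]
  have hdB : ∀ x ∈ B, (dg E A' x : ℝ) - ρ * nV V ≤ deg (E \ D) x := by
    intro x hx
    have h1 : (dg E A' x : ℝ) ≤ deg (E \ D) x + deg (D ∩ crs E A B) x := by
      exact_mod_cast e2c_dg (hBA x hx)
    linarith [hdeg x]
  have hcompl : ∀ (T : Finset V) (x : V),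
      (dg E T x : ℝ) + ((T.filter (fun y => s(x, y) ∉ E)).card : ℝ) = T.card := by
    intro T x
    unfold dg
    exact_mod_cast card_filter_add_card_filter_not (fun y => s(x, y) ∈ E)
  refine h3 V univ A B A' B' (E \ D) ?_ hE.disj hE.cover.symm hE.subA hE.subB ?_ ?_ ?_ ?_ ?_ ?_ ?_
    ?_ ?_
  · rw [card_univ]
    exact (le_max_left _ _).trans hn
  · intro e hee
    rw [mem_sdiff] at hee
    induction e using Sym2.ind with
    | _ x y =>
      have hx : x ∈ A ∪ B := by rw [hE.cover]; exact mem_univ x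
      have hy : y ∈ A ∪ B := by rw [hE.cover]; exact mem_univ y
      rw [mem_union] at hx hy
      rcases hx with hx | hx <;> rcases hy with hy | hy
      · exfalso
        apply hee.2
        apply hDA
        unfold inn
        rw [mem_inter, mk_mem_sym2_iff]
        exact ⟨hee.1, hx, hy⟩
      · exact ⟨x, y, rfl, hx, hy⟩
      · exact ⟨y, x, Sym2.eq_swap, hy, hx⟩
      · exfalso
        apply hee.2
        apply hDB
        unfold inn
        rw [mem_inter, mk_mem_sym2_iff]
        exact ⟨hee.1, hx, hy⟩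
  · exact he.sdiff hD.even hDE
  · rw [card_sdiff_of_subset hDE]
    exact Nat.dvd_sub h6 hD.six_dvd
  · rw [card_univ]
    change 1 / 20 * nV V ≤ _
    nlinarith
  · rw [card_univ]
    change 1 / 20 * nV V ≤ _
    nlinarith
  · rw [card_univ]
    change _ ≤ ε3 * nV V
    have h1 : ((univ \ (A' ∪ B')).card : ℝ) + ((A' ∪ B').card : ℝ) = nV V := by
      unfold nV
      rw [← card_univ]
      exact_mod_cast card_sdiff_add_card_eq_card (subset_univ (A' ∪ B'))
    have h2 : ((A' ∪ B').card : ℝ) = A'.card + B'.card := by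
      exact_mod_cast card_union_of_disjoint
        (disjoint_of_subset_left hE.subA (disjoint_of_subset_right hE.subB hE.disj))
    nlinarith
  · intro a ha
    rw [card_univ]
    change _ - ε3 * nV V ≤ _
    have h1 := hdA a (hE.subA ha)
    have h2 := hE.nA a ha
    have h4 := hcompl B' a
    nlinarith
  · intro b hb
    rw [card_univ]
    change _ - ε3 * nV V ≤ _
    have h1 := hdB b (hE.subB hb)
    have h2 := hE.nB b hb
    have h4 := hcompl A' b
    nlinarith
  · intro u _
    rw [card_univ]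
    change 1 / 20 * nV V ≤ _
    have hu : u ∈ A ∪ B := by rw [hE.cover]; exact mem_univ u
    rw [mem_union] at hu
    rcases hu with hu | hu
    · have h1 := hdA u hu
      have h2 := hE.lowA u hu
      nlinarith
    · have h1 := hdB u hu
      have h2 := hE.lowB u hu
      nlinarith

theorem ext2_dec :
    ∃ ε : ℝ, 0 < ε ∧ ∃ n0 : ℕ, ∀ (V : Type) [Fintype V] [DecidableEq V] (E : Finset (Sym2 V)),
      n0 ≤ Fintype.card V → Loopless E → EvenDeg E → 6 ∣ E.card →
      (∀ v, Fintype.card V ≤ 2 * deg E v + 1) → Ext2 E ε → Dec E := by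
  obtain ⟨ε1, hε1, n1, h1⟩ := e2c_even
  set ε : ℝ := min (1 / 1000) ε1 / 20 with hε
  have hmin : 0 < min (1 / 1000 : ℝ) ε1 := lt_min (by norm_num) hε1
  have hε0 : 0 < ε := by
    rw [hε]
    linarith
  have hεa : 20 * ε ≤ 1 / 1000 := by
    rw [hε]
    have := min_le_left (1 / 1000 : ℝ) ε1
    linarith
  have hεb : 20 * ε ≤ ε1 := by
    rw [hε]
    have := min_le_right (1 / 1000 : ℝ) ε1
    linarith
  obtain ⟨n2, h2⟩ := prep2 ε hε0 (by linarith)
  obtain ⟨n3, h3⟩ := odd2 (4 * ε) (by linarith) (by linarith)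
  refine ⟨ε, hε0, max (max n1 n2) (max n3 ⌈2 / ε⌉₊), ?_⟩
  intro V _ _ E hn hl he h6 hmd hExt
  have hn1 : n1 ≤ Fintype.card V := ((le_max_left _ _).trans (le_max_left _ _)).trans hn
  have hn2 : n2 ≤ Fintype.card V := ((le_max_right _ _).trans (le_max_left _ _)).trans hn
  have hn3 : n3 ≤ Fintype.card V := ((le_max_left _ _).trans (le_max_right _ _)).trans hn
  have hn4 : ⌈2 / ε⌉₊ ≤ Fintype.card V := ((le_max_right _ _).trans (le_max_right _ _)).trans hn
  have hn5 : 2 ≤ ε * nV V := by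
    have := (Nat.le_ceil (2 / ε)).trans (Nat.cast_le.2 hn4)
    rw [div_le_iff₀ hε0] at this
    unfold nV
    linarith
  have hnn : (0 : ℝ) ≤ nV V := Nat.cast_nonneg _
  obtain ⟨A, B, A', B', hE⟩ := h2 V E hn2 hl hmd hExt
  have hpar := (par2 E A B hl he h6 hE.disj hE.cover).2
  by_cases hA : Even (inn E A).card
  · have hB : Even (inn E B).card := (Nat.even_add.1 hpar).1 hA
    exact h1 V E A B A' B' hn1 hl he h6 (e2c_mono (by linarith) hE) hA hB
  · have hB : ¬ Even (inn E B).card := fun h => hA ((Nat.even_add.1 hpar).2 h)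
    have hA1 : (inn E A).Nonempty := by
      rw [nonempty_iff_ne_empty]
      intro h
      rw [h] at hA
      simp at hA
    have hB1 : (inn E B).Nonempty := by
      rw [nonempty_iff_ne_empty]
      intro h
      rw [h] at hB
      simp at hB
    obtain ⟨C, hCE, hC, hCA, hCB⟩ := h3 V E A B A' B' hn3 hl hmd hE hA1 hB1
    have hE' : Env2 (E \ C) (5 * ε) A B A' B' := e2c_env hE hC hCE (by linarith)
    have e1 := e2c_inn hCE A
    have e2 := e2c_inn hCE B
    rw [hCA] at e1
    rw [hCB] at e2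
    have hsplit : E = (E \ C) ∪ C := (sdiff_union_of_subset hCE).symm
    rw [hsplit]
    refine Dec.add ?_ hC sdiff_disjoint
    refine h1 V (E \ C) A B A' B' hn1 (hl.mono sdiff_subset) (he.sdiff hC.even hCE) ?_
      (e2c_mono (by linarith) hE') ?_ ?_
    · rw [card_sdiff_of_subset hCE, hC.card]
      exact Nat.dvd_sub h6 (dvd_refl 6)
    · rw [← e1] at hA
      by_contra h
      exact hA ((Nat.not_even_iff_odd.1 h).add_odd odd_one)
    · rw [← e2] at hB
      by_contra h
      exact hB ((Nat.not_even_iff_odd.1 h).add_odd odd_one)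

end H15C6
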