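import Pool.Agent.H15.C6.E3A0

/-!
Module E3A1 (part of E3A).  Extremal case 3 (four-class pattern): preparation and the parity switch.  `n = |V|`.

Environment `Env3 E t ε τ X cl V'`: `cl : V → Fin 4` classes; `X` = atypical vertices; `V' i` = strongly typical vertices of
class `i` (pairwise disjoint, `⊆ Xᶜ`), `|V' i| ≥ t n`, `|V \ ⋃ V' i| ≤ ε n`; for `v ∈ V' i`: neighbourhood `=` row `i`
up to `ε n` (`row i = ⋃_{PatE i j} V' j`); for `v ∉ X`: neighbourhood = row `cl v` up to `τ n`; for `x ∈ X`: for every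
class `i` the neighbourhood differs from row `i` by more than `τ n`.

`prep3`: from `Ext3 E t ε`: `V' = V1..V4`; `v ∉ X` iff for some `i` `|N(v) Δ row i| ≤ τ n`; such an `i` is
unique because the rows differ pairwise in at least `2 t n > 2τ n` vertices (`τ < t`); `cl v := i`.

`wrong`: edges `s(u,v)` with `u, v ∉ X` and `¬ PatE (cl u) (cl v)`.  `host`: edges with both ends outside `X` and
`PatE`.

`switch3`: there are a wrong edge or a vertex of `X`.  Otherwise `deg v1 ≤ |V1| - 1 + |V2|`,
`deg v4 ≤ |V3| + |V4| - 1` (full classes), sum `≤ n - 2`, contradiction.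
There are two six-cycles `C0, C1 ⊆ E` containing the same non-host edges (at least one, and if they contain an
edge at `x ∈ X` then exactly two such edges, both at the same `x`), all other edges in `host`, with
`nV1 C0 ≢ nV1 C1 (mod 2)`:
* wrong edge `uv` of type `{0,2}`: walks `0,0,1,0,1,2` (one `{0,0}` edge) and `0,1,2,3,3,2` (none);
  type `{0,3}`: `0,0,0,1,2,3` (two) and `0,0,1,2,3,3` (one); type `{1,3}`: `1,0,0,1,2,3` (one) and
  `1,2,3,2,3,3` (none); type `{1,1}`: `1,0,0,1,0,1` (one) and `1,2,3,3,2,1` (none);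
  type `{2,2}`: `2,1,0,0,1,2` (one) and `2,3,3,2,3,2` (none); (paths of length 5 from `u` to `v`, all inner
  vertices strongly typical, distinct).
* `x ∈ X`: `x` has typical neighbours in classes 0 and 3, or in classes 1 and 2; otherwise its typical
  neighbours are in one row (`{0,1}`, `{0,2}`, `{3,1}`, `{3,2}` are the four rows), and since
  `deg x ≥ (n-1)/2`, `|row| ≤ (1/2 + 2ε) n`, `x` would be typical.  Paths of length 4 between typical `u` (class 0)
  and `w` (class 3): `0,0,1,2,3` (one) and `0,1,2,3,3` (none); `u` in class 1, `w` in class 2: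
  `1,0,0,1,2` (one) and `1,2,3,3,2` (none).
All private vertices of the two cycles are chosen distinct.
-/

open Finset

namespace H15C6

/-- the rows of the pattern -/
def e3a1_row {V : Type} [Fintype V] [DecidableEq V] (W : Fin 4 → Finset V) (i : Fin 4) : Finset V :=
  Finset.univ.filter (fun v => ∃ j, PatE i j ∧ v ∈ W j)

/-- `v` is typical of class `i` -/
def e3a1_Typ {V : Type} [Fintype V] [DecidableEq V] (E : Finset (Sym2 V)) (τ : ℝ)
    (W : Fin 4 → Finset V) (i : Fin 4) (v : V) : Prop :=
  (∀ j, PatE i j → (((W j).filter (fun y => s(v, y) ∉ E)).card : ℝ) ≤ τ * nV V) ∧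
    (∀ j, ¬ PatE i j → (dg E (W j) v : ℝ) ≤ τ * nV V)

theorem e3a1_pat1 : ∀ i i' : Fin 4, i ≠ i' → ∃ j, PatE i j ∧ ¬ PatE i' j := by decide

theorem e3a1_pat2 : ∀ i j : Fin 4, ¬ (PatE i j ∧ PatE (Fin.rev i) j) := by decide

theorem e3a1_mem_row {V : Type} [Fintype V] [DecidableEq V] {W : Fin 4 → Finset V} {i : Fin 4}
    {v : V} : v ∈ e3a1_row W i ↔ ∃ j, PatE i j ∧ v ∈ W j := by
  unfold e3a1_row
  rw [Finset.mem_filter]
  exact ⟨fun h => h.2, fun h => ⟨Finset.mem_univ _, h⟩⟩

theorem e3a1_deg {V : Type} [Fintype V] [DecidableEq V] (E : Finset (Sym2 V)) (v : V) :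
    deg E v = (Finset.univ.filter (fun y => s(v, y) ∈ E)).card := by
  rw [deg_eq_dg (U := Finset.univ) (fun e _ => by
    rw [Finset.mem_sym2_iff]
    exact fun a _ => Finset.mem_univ a)]
  rfl

/-- the sizes of the rows -/
theorem e3a1_rowsize {V : Type} [Fintype V] [DecidableEq V] {E : Finset (Sym2 V)} {ε : ℝ}
    {W : Fin 4 → Finset V} (hdisj : ∀ i j, i ≠ j → Disjoint (W i) (W j))
    (hne : ∀ i, (W i).Nonempty) (hNL : ∀ i, NbrsLike E ε (W i) (e3a1_row W i))
    (hmin : ∀ v, Fintype.card V ≤ 2 * deg E v + 1) (i : Fin 4) :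
    ((e3a1_row W i).card : ℝ) ≤ (1 / 2 + ε) * nV V + 1 / 2 := by
  obtain ⟨v, hv⟩ := hne (Fin.rev i)
  have h1 := (hNL (Fin.rev i) v hv).1
  have h2 : (deg E v : ℝ) ≤ (e3a1_row W (Fin.rev i)).card + ε * nV V := by
    have h3 : deg E v ≤ (e3a1_row W (Fin.rev i)).card +
        (Finset.univ.filter (fun y => s(v, y) ∈ E ∧ y ∉ e3a1_row W (Fin.rev i))).card := by
      rw [e3a1_deg]
      refine le_trans (Finset.card_le_card ?_) (Finset.card_union_le _ _)
      intro y hy
      rw [Finset.mem_filter] at hy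
      rw [Finset.mem_union, Finset.mem_filter]
      by_cases h : y ∈ e3a1_row W (Fin.rev i)
      · exact Or.inl h
      · exact Or.inr ⟨Finset.mem_univ _, hy.2, h⟩
    have h4 : (deg E v : ℝ) ≤ (e3a1_row W (Fin.rev i)).card +
        ((Finset.univ.filter (fun y => s(v, y) ∈ E ∧ y ∉ e3a1_row W (Fin.rev i))).card : ℝ) := by
      exact_mod_cast h3
    linarith
  have h5 : ((Fintype.card V : ℕ) : ℝ) ≤ 2 * deg E v + 1 := by exact_mod_cast hmin v
  have h6 : (e3a1_row W i).card + (e3a1_row W (Fin.rev i)).card ≤ Fintype.card V := by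
    rw [← Finset.card_union_of_disjoint]
    · exact Finset.card_le_univ _
    · rw [Finset.disjoint_left]
      intro y h7 h8
      rw [e3a1_mem_row] at h7 h8
      obtain ⟨j, hj, hyj⟩ := h7
      obtain ⟨j', hj', hyj'⟩ := h8
      by_cases hjj : j = j'
      · subst hjj
        exact e3a1_pat2 i j ⟨hj, hj'⟩
      · exact (Finset.disjoint_left.mp (hdisj j j' hjj)) hyj hyj'
  have h7 : ((e3a1_row W i).card : ℝ) + (e3a1_row W (Fin.rev i)).card ≤ (Fintype.card V : ℝ) := by
    exact_mod_cast h6
  show ((e3a1_row W i).card : ℝ) ≤ (1 / 2 + ε) * (Fintype.card V : ℝ) + 1 / 2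
  have h8 : ε * nV V = ε * (Fintype.card V : ℝ) := rfl
  rw [h8] at h2
  linarith

theorem e3a1_core {t τ ε : ℝ} (ht : 0 < t) (hτ : 0 < τ) (hτt : τ < t / 4) (hε : 0 < ε)
    (hετ : ε ≤ τ / 4) {V : Type} [Fintype V] [DecidableEq V] {E : Finset (Sym2 V)}
    (hn : 2 / ε ≤ nV V) {W : Fin 4 → Finset V}
    (hdisj : ∀ i j, i ≠ j → Disjoint (W i) (W j))
    (hsize : ∀ i, t * nV V ≤ ((W i).card : ℝ))
    (hcov : (1 - ε) * nV V ≤ ((Finset.univ.biUnion W).card : ℝ))
    (hNL : ∀ i, NbrsLike E ε (W i) (e3a1_row W i))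
    (hmin : ∀ v, Fintype.card V ≤ 2 * deg E v + 1) :
    ∃ (X : Finset V) (cl : V → Fin 4), Env3 E t (2 * ε) τ X cl W := by
  classical
  have hnpos : 0 < nV V := lt_of_lt_of_le (by positivity) hn
  have hεn : 2 ≤ ε * nV V := by
    rw [div_le_iff₀ hε] at hn
    linarith
  have hne : ∀ i, (W i).Nonempty := by
    intro i
    rw [← Finset.card_pos]
    have h1 : 0 < ((W i).card : ℝ) := lt_of_lt_of_le (mul_pos ht hnpos) (hsize i)
    exact_mod_cast h1
  have hrow := e3a1_rowsize hdisj hne hNL hmin
  have hfew : ((Finset.univ \ (Finset.univ.biUnion W)).card : ℝ) ≤ ε * nV V := by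
    have h1 : (Finset.univ \ (Finset.univ.biUnion W)).card + (Finset.univ.biUnion W).card
        = Fintype.card V := by
      rw [Finset.card_sdiff_add_card_eq_card (Finset.subset_univ _), Finset.card_univ]
    have h2 : ((Finset.univ \ (Finset.univ.biUnion W)).card : ℝ) + (Finset.univ.biUnion W).card
        = (Fintype.card V : ℝ) := by exact_mod_cast h1
    have h3 : nV V = (Fintype.card V : ℝ) := rfl
    rw [h3] at hcov ⊢
    linarith
  -- strong typicality
  have hstrong : ∀ i, ∀ v ∈ W i,
      (∀ j, PatE i j → (((W j).filter (fun y => s(v, y) ∉ E)).card : ℝ) ≤ ε * nV V) ∧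
      (∀ j, ¬ PatE i j → (dg E (W j) v : ℝ) ≤ ε * nV V) := by
    intro i v hv
    obtain ⟨h1, h2⟩ := hNL i v hv
    refine ⟨fun j hj => ?_, fun j hj => ?_⟩
    · refine le_trans ?_ h2
      have : ((W j).filter (fun y => s(v, y) ∉ E)).card ≤
          ((e3a1_row W i).filter (fun y => s(v, y) ∉ E)).card := by
        apply Finset.card_le_card
        intro y hy
        rw [Finset.mem_filter] at hy ⊢
        exact ⟨e3a1_mem_row.mpr ⟨j, hj, hy.1⟩, hy.2⟩
      exact_mod_cast this
    · refine le_trans ?_ h1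
      have : dg E (W j) v ≤
          (Finset.univ.filter (fun y => s(v, y) ∈ E ∧ y ∉ e3a1_row W i)).card := by
        unfold dg
        apply Finset.card_le_card
        intro y hy
        rw [Finset.mem_filter] at hy ⊢
        refine ⟨Finset.mem_univ _, hy.2, fun hr => ?_⟩
        obtain ⟨j', hj', hyj'⟩ := e3a1_mem_row.mp hr
        have hjj : j ≠ j' := fun h => hj (h ▸ hj')
        exact (Finset.disjoint_left.mp (hdisj j j' hjj)) hy.1 hyj'
      exact_mod_cast this
  have hετ' : ε * nV V ≤ τ * nV V := by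
    apply mul_le_mul_of_nonneg_right _ hnpos.le
    linarith
  have htyp : ∀ i, ∀ v ∈ W i, e3a1_Typ E τ W i v := fun i v hv =>
    ⟨fun j hj => ((hstrong i v hv).1 j hj).trans hετ', fun j hj =>
      ((hstrong i v hv).2 j hj).trans hετ'⟩
  have huniq : ∀ i i' v, e3a1_Typ E τ W i v → e3a1_Typ E τ W i' v → i = i' := by
    intro i i' v h1 h2
    by_contra hne'
    obtain ⟨j, hj, hj'⟩ := e3a1_pat1 i i' hne'
    have h3 := h1.1 j hj
    have h4 := h2.2 j hj'
    have h5 : (W j).card = (dg E (W j) v) + ((W j).filter (fun y => s(v, y) ∉ E)).card := by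
      unfold dg
      exact (Finset.card_filter_add_card_filter_not (s := W j) (fun y => s(v, y) ∈ E)).symm
    have h6 : ((W j).card : ℝ) = (dg E (W j) v : ℝ) +
        ((W j).filter (fun y => s(v, y) ∉ E)).card := by exact_mod_cast h5
    have h7 := hsize j
    have h8 : τ * nV V < t / 4 * nV V := mul_lt_mul_of_pos_right hτt hnpos
    have h9 : 0 < t * nV V := mul_pos ht hnpos
    nlinarith
  let X : Finset V := Finset.univ.filter (fun v => ¬ ∃ i, e3a1_Typ E τ W i v)
  let cl : V → Fin 4 := fun v => if h : ∃ i, e3a1_Typ E τ W i v then h.choose else 0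
  have hX : ∀ v, v ∉ X ↔ ∃ i, e3a1_Typ E τ W i v := by
    intro v
    simp only [X, Finset.mem_filter, Finset.mem_univ, true_and, not_not]
  have hcl : ∀ v, v ∉ X → e3a1_Typ E τ W (cl v) v := by
    intro v hv
    have h := (hX v).mp hv
    show e3a1_Typ E τ W (if h : ∃ i, e3a1_Typ E τ W i v then h.choose else 0) v
    rw [dif_pos h]
    exact h.choose_spec
  have hcls : ∀ i, ∀ v ∈ W i, v ∉ X ∧ cl v = i := by
    intro i v hv
    have h1 : v ∉ X := (hX v).mpr ⟨i, htyp i v hv⟩
    exact ⟨h1, huniq _ _ v (hcl v h1) (htyp i v hv)⟩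
  refine ⟨X, cl, ?_⟩
  refine ⟨hdisj, ?_, fun i v hv => (hcls i v hv).2, hsize, ?_, ?_, ?_, ?_, ?_, hmin⟩
  · intro i
    rw [Finset.disjoint_left]
    intro v hv
    exact (hcls i v hv).1
  · exact hfew.trans (by nlinarith)
  · intro i
    refine (hrow i).trans ?_
    nlinarith
  · intro i v hv
    refine ⟨fun j hj => ((hstrong i v hv).1 j hj).trans (by nlinarith), fun j hj =>
      ((hstrong i v hv).2 j hj).trans (by nlinarith)⟩
  · intro v hv
    exact hcl v hv
  · intro x hx i hcon
    have hzero : ∀ j, ¬ PatE i j → dg E (W j) x = 0 := by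
      intro j hj
      unfold dg
      rw [Finset.card_eq_zero, Finset.filter_eq_empty_iff]
      intro y hy
      exact hcon j hj y (hcls j y hy).1 (hcls j y hy).2
    have hxX : ¬ ∃ i, e3a1_Typ E τ W i x := fun h => ((hX x).mpr h) hx
    apply hxX
    refine ⟨i, fun j hj => ?_, fun j hj => ?_⟩
    · -- missing neighbours in the row
      have h1 : (((W j).filter (fun y => s(x, y) ∉ E)).card : ℝ) ≤
          ((e3a1_row W i).filter (fun y => s(x, y) ∉ E)).card := by
        have : ((W j).filter (fun y => s(x, y) ∉ E)).card ≤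
            ((e3a1_row W i).filter (fun y => s(x, y) ∉ E)).card := by
          apply Finset.card_le_card
          intro y hy
          rw [Finset.mem_filter] at hy ⊢
          exact ⟨e3a1_mem_row.mpr ⟨j, hj, hy.1⟩, hy.2⟩
        exact_mod_cast this
      have h2 : ((e3a1_row W i).card : ℝ) =
          ((e3a1_row W i).filter (fun y => s(x, y) ∈ E)).card +
          ((e3a1_row W i).filter (fun y => s(x, y) ∉ E)).card := by
        have : (e3a1_row W i).card = ((e3a1_row W i).filter (fun y => s(x, y) ∈ E)).card +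
            ((e3a1_row W i).filter (fun y => s(x, y) ∉ E)).card :=
          (Finset.card_filter_add_card_filter_not (s := e3a1_row W i)
            (fun y => s(x, y) ∈ E)).symm
        exact_mod_cast this
      have h3 : (deg E x : ℝ) ≤ ((e3a1_row W i).filter (fun y => s(x, y) ∈ E)).card + ε * nV V := by
        have h4 : deg E x ≤ ((e3a1_row W i).filter (fun y => s(x, y) ∈ E)).card +
            (Finset.univ \ (Finset.univ.biUnion W)).card := by
          rw [e3a1_deg]
          refine le_trans (Finset.card_le_card ?_) (Finset.card_union_le _ _)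
          intro y hy
          rw [Finset.mem_filter] at hy
          rw [Finset.mem_union]
          by_cases h : y ∈ Finset.univ.biUnion W
          · left
            rw [Finset.mem_biUnion] at h
            obtain ⟨j', _, hyj'⟩ := h
            rw [Finset.mem_filter]
            refine ⟨e3a1_mem_row.mpr ⟨j', ?_, hyj'⟩, hy.2⟩
            by_contra hj'
            exact hcon j' hj' y (hcls j' y hyj').1 (hcls j' y hyj').2 hy.2
          · right
            rw [Finset.mem_sdiff]
            exact ⟨Finset.mem_univ _, h⟩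
        have h5 : (deg E x : ℝ) ≤ ((e3a1_row W i).filter (fun y => s(x, y) ∈ E)).card +
            ((Finset.univ \ (Finset.univ.biUnion W)).card : ℝ) := by exact_mod_cast h4
        linarith
      have h6 : (nV V) ≤ 2 * deg E x + 1 := by
        have := hmin x
        show ((Fintype.card V : ℕ) : ℝ) ≤ _
        exact_mod_cast this
      have h7 := hrow i
      have h8 : ε * nV V ≤ τ / 4 * nV V := mul_le_mul_of_nonneg_right hετ hnpos.le
      nlinarith
    · rw [hzero j hj]
      have : 0 < τ * nV V := mul_pos hτ hnpos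
      simpa using this.le

theorem prep3 (t : ℝ) (ht : 0 < t) (τ : ℝ) (hτ : 0 < τ) (hτt : τ < t / 4) :
    ∃ ε1 : ℝ, 0 < ε1 ∧ ∀ ε : ℝ, 0 < ε → ε ≤ ε1 → ∃ n0 : ℕ, ∀ (V : Type) [Fintype V]
      [DecidableEq V] (E : Finset (Sym2 V)),
      n0 ≤ Fintype.card V → Loopless E → (∀ v, Fintype.card V ≤ 2 * deg E v + 1) →
      Ext3 E t ε → ∃ (X : Finset V) (cl : V → Fin 4) (V' : Fin 4 → Finset V),
        Env3 E t (2 * ε) τ X cl V' := by
  refine ⟨τ / 4, by positivity, fun ε hε hε1 => ⟨⌈2 / ε⌉₊, ?_⟩⟩
  intro V _ _ E hn _ hmin hE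
  obtain ⟨V1, V2, V3, V4, d12, d13, d14, d23, d24, d34, s1, s2, s3, s4, hcov, n1, n2, n3, n4⟩ := hE
  have hn' : 2 / ε ≤ nV V := by
    refine (Nat.le_ceil _).trans ?_
    show ((⌈2 / ε⌉₊ : ℕ) : ℝ) ≤ ((Fintype.card V : ℕ) : ℝ)
    exact_mod_cast hn
  have hr0 : e3a1_row ![V1, V2, V3, V4] 0 = V1 ∪ V2 := by
    ext v
    rw [e3a1_mem_row, Finset.mem_union]
    constructor
    · rintro ⟨j, hj, hv⟩
      fin_cases j
      · exact Or.inl hv
      · exact Or.inr hv
      · exact absurd hj (by decide)
      · exact absurd hj (by decide)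
    · rintro (h | h)
      · exact ⟨0, by decide, h⟩
      · exact ⟨1, by decide, h⟩
  have hr1 : e3a1_row ![V1, V2, V3, V4] 1 = V1 ∪ V3 := by
    ext v
    rw [e3a1_mem_row, Finset.mem_union]
    constructor
    · rintro ⟨j, hj, hv⟩
      fin_cases j
      · exact Or.inl hv
      · exact absurd hj (by decide)
      · exact Or.inr hv
      · exact absurd hj (by decide)
    · rintro (h | h)
      · exact ⟨0, by decide, h⟩
      · exact ⟨2, by decide, h⟩
  have hr2 : e3a1_row ![V1, V2, V3, V4] 2 = V2 ∪ V4 := by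
    ext v
    rw [e3a1_mem_row, Finset.mem_union]
    constructor
    · rintro ⟨j, hj, hv⟩
      fin_cases j
      · exact absurd hj (by decide)
      · exact Or.inl hv
      · exact absurd hj (by decide)
      · exact Or.inr hv
    · rintro (h | h)
      · exact ⟨1, by decide, h⟩
      · exact ⟨3, by decide, h⟩
  have hr3 : e3a1_row ![V1, V2, V3, V4] 3 = V3 ∪ V4 := by
    ext v
    rw [e3a1_mem_row, Finset.mem_union]
    constructor
    · rintro ⟨j, hj, hv⟩
      fin_cases j
      · exact absurd hj (by decide)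
      · exact absurd hj (by decide)
      · exact Or.inl hv
      · exact Or.inr hv
    · rintro (h | h)
      · exact ⟨2, by decide, h⟩
      · exact ⟨3, by decide, h⟩
  have hcov' : (Finset.univ.biUnion ![V1, V2, V3, V4]) = V1 ∪ V2 ∪ V3 ∪ V4 := by
    ext v
    rw [Finset.mem_biUnion, Finset.mem_union, Finset.mem_union, Finset.mem_union]
    constructor
    · rintro ⟨j, _, hv⟩
      fin_cases j
      · exact Or.inl (Or.inl (Or.inl hv))
      · exact Or.inl (Or.inl (Or.inr hv))
      · exact Or.inl (Or.inr hv)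
      · exact Or.inr hv
    · rintro (((h | h) | h) | h)
      · exact ⟨0, Finset.mem_univ _, h⟩
      · exact ⟨1, Finset.mem_univ _, h⟩
      · exact ⟨2, Finset.mem_univ _, h⟩
      · exact ⟨3, Finset.mem_univ _, h⟩
  obtain ⟨X, cl, h⟩ := e3a1_core (W := ![V1, V2, V3, V4]) ht hτ hτt hε hε1 hn' (by
      intro i j hij
      fin_cases i <;> fin_cases j <;>
        first
        | exact absurd rfl hij
        | exact d12
        | exact d13
        | exact d14
        | exact d23
        | exact d24
        | exact d34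
        | exact d12.symm
        | exact d13.symm
        | exact d14.symm
        | exact d23.symm
        | exact d24.symm
        | exact d34.symm) (by
      intro i
      fin_cases i
      · exact s1
      · exact s2
      · exact s3
      · exact s4) (by rw [hcov']; exact hcov) (by
      intro i
      fin_cases i
      · show NbrsLike E ε V1 (e3a1_row ![V1, V2, V3, V4] 0)
        rw [hr0]; exact n1
      · show NbrsLike E ε V2 (e3a1_row ![V1, V2, V3, V4] 1)
        rw [hr1]; exact n2
      · show NbrsLike E ε V3 (e3a1_row ![V1, V2, V3, V4] 2)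
        rw [hr2]; exact n3
      · show NbrsLike E ε V4 (e3a1_row ![V1, V2, V3, V4] 3)
        rw [hr3]; exact n4) hmin
  exact ⟨X, cl, ![V1, V2, V3, V4], h⟩

end H15C6
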