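import Pool.Agent.H15.C6.E3A0

/-!
Module E3A2 (part of E3A).  Extremal case 3 (four-class pattern): preparation and the parity switch.  `n = |V|`.

Environment `Env3 E t ε τ X cl V'`: `cl : V → Fin 4` classes; `X` = atypical vertices; `V' i` = strongly typical vertices of
class `i` (pairwise disjoint, `⊆ Xᶜ`), `|V' i| ≥ t n`, `|V \ ⋃ V' i| ≤ ε n`; for `v ∈ V' i`: neighbourhood `=` row `i`
up to `ε n` (`row i = ⋃_{PatE i j} V' j`); for `v ∉ X`: neighbourhood = row `cl v` up to `τ n`; for `x ∈ X`: for every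
class `i` the neighbourhood differs from row `i` by more than `τ n`.

`prep3`: from `Ext3 E t ε`: `V' = V1..V4`; `v ∉ X` iff for some `i` `|N(v) Δ row i| ≤ τ n`; such an `i` is
unique because the rows differ pairwise in at least `2 t n > 2τ n` vertices (`τ < t`); `cl v := i`.

`wrong`: edges `s(u,v)` with `u, v ∉ X` and `¬ PatE (cl u) (cl v)`.  `host`: edges with both ends outside `X` and
`PatE`.

`switch3`: there are a wrong edge or a vertex of `X`.  Otherwise `deg v1 ≤ |V1| - 1 + |V2|`,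
`deg v4 ≤ |V3| + |V4| - 1` (full classes), sum `≤ n - 2`, contradiction.
There are two six-cycles `C0, C1 ⊆ E` containing the same non-host edges (at least one, and if they contain an
edge at `x ∈ X` then exactly two such edges, both at the same `x`), all other edges in `host`, with
`nV1 C0 ≢ nV1 C1 (mod 2)`:
* wrong edge `uv` of type `{0,2}`: walks `0,0,1,0,1,2` (one `{0,0}` edge) and `0,1,2,3,3,2` (none);
  type `{0,3}`: `0,0,0,1,2,3` (two) and `0,0,1,2,3,3` (one); type `{1,3}`: `1,0,0,1,2,3` (one) and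
  `1,2,3,2,3,3` (none); type `{1,1}`: `1,0,0,1,0,1` (one) and `1,2,3,3,2,1` (none);
  type `{2,2}`: `2,1,0,0,1,2` (one) and `2,3,3,2,3,2` (none); (paths of length 5 from `u` to `v`, all inner
  vertices strongly typical, distinct).
* `x ∈ X`: `x` has typical neighbours in classes 0 and 3, or in classes 1 and 2; otherwise its typical
  neighbours are in one row (`{0,1}`, `{0,2}`, `{3,1}`, `{3,2}` are the four rows), and since
  `deg x ≥ (n-1)/2`, `|row| ≤ (1/2 + 2ε) n`, `x` would be typical.  Paths of length 4 between typical `u` (class 0)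
  and `w` (class 3): `0,0,1,2,3` (one) and `0,1,2,3,3` (none); `u` in class 1, `w` in class 2:
  `1,0,0,1,2` (one) and `1,2,3,3,2` (none).
All private vertices of the two cycles are chosen distinct.
-/

open Finset

namespace H15C6

theorem e3a2_patE_symm {a b : Fin 4} : PatE a b → PatE b a := by
  revert a b; decide

theorem e3a2_patE_iff (a b : Fin 4) : s(a, b) ∈
    ({s(0, 0), s(3, 3), s(0, 1), s(1, 2), s(2, 3)} : Finset (Sym2 (Fin 4))) ↔ PatE a b := by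
  revert a b; decide

theorem e3a2_mem_host {V : Type} [DecidableEq V] {E : Finset (Sym2 V)} {X : Finset V}
    {cl : V → Fin 4} {a b : V} :
    s(a, b) ∈ host3 E X cl ↔ s(a, b) ∈ E ∧ a ∉ X ∧ b ∉ X ∧ PatE (cl a) (cl b) := by
  unfold host3
  rw [Finset.mem_filter, Sym2.map_mk, e3a2_patE_iff]
  constructor
  · rintro ⟨h1, h2, h3⟩
    exact ⟨h1, fun h => h2 a h (Sym2.mem_mk_left _ _), fun h => h2 b h (Sym2.mem_mk_right _ _), h3⟩
  · rintro ⟨h1, h2, h3, h4⟩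
    refine ⟨h1, fun x hx hm => ?_, h4⟩
    rcases Sym2.mem_iff.1 hm with rfl | rfl
    · exact h2 hx
    · exact h3 hx

/-- common neighbours in a class of the right type -/
theorem e3a2_step {V : Type} [Fintype V] [DecidableEq V] {E : Finset (Sym2 V)} {t ε τ : ℝ}
    {X : Finset V} {cl : V → Fin 4} {V' : Fin 4 → Finset V} (h : Env3 E t ε τ X cl V')
    (hτt : τ < t / 8) (hn : 20 < t / 2 * nV V) (p q : V) (hp : p ∉ X) (hq : q ∉ X)
    (c : Fin 4) (hpc : PatE (cl p) c) (hqc : PatE c (cl q)) (Z : Finset V) (hZ : Z.card ≤ 10) :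
    ∃ a, a ∈ V' c ∧ a ∉ Z ∧ s(p, a) ∈ E ∧ s(a, q) ∈ E := by
  by_contra hcon
  push Not at hcon
  have h1 := (h.typical p hp).1 c hpc
  have h2 := (h.typical q hq).1 c (e3a2_patE_symm hqc)
  have h3 := h.size c
  have hsub : V' c ⊆ ((V' c).filter (fun y => s(p, y) ∉ E)) ∪ (((V' c).filter (fun y => s(q, y) ∉ E)) ∪ Z) := by
    intro a ha
    rw [Finset.mem_union, Finset.mem_union, Finset.mem_filter, Finset.mem_filter]
    by_cases h4 : s(p, a) ∈ E
    · by_cases h5 : a ∈ Z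
      · right; right; exact h5
      · right; left
        refine ⟨ha, ?_⟩
        rw [Sym2.eq_swap]
        exact hcon a ha h5 h4
    · left; exact ⟨ha, h4⟩
  have h4 := Finset.card_le_card hsub
  have h5 := h4.trans ((Finset.card_union_le _ _).trans (Nat.add_le_add_left (Finset.card_union_le _ _) _))
  have h6 : ((V' c).card : ℝ) ≤ (((V' c).filter (fun y => s(p, y) ∉ E)).card : ℝ) +
      ((((V' c).filter (fun y => s(q, y) ∉ E)).card : ℝ) + (Z.card : ℝ)) := by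
    exact_mod_cast h5
  have h7 : (Z.card : ℝ) ≤ 10 := by exact_mod_cast hZ
  have h8 : 0 ≤ nV V := Nat.cast_nonneg _
  nlinarith

/-- walks of classes -/
def e3a2_z (a b : Fin 4) : ℕ := if a = 0 ∧ b = 0 then 1 else 0

theorem e3a2_walkA (p q : Fin 4) (h : ¬ PatE p q) : ∃ c1 c2 c3 c4 d1 d2 d3 d4 : Fin 4,
    (PatE p c1 ∧ PatE c1 c2 ∧ PatE c2 c3 ∧ PatE c3 c4 ∧ PatE c4 q) ∧
    (PatE p d1 ∧ PatE d1 d2 ∧ PatE d2 d3 ∧ PatE d3 d4 ∧ PatE d4 q) ∧
    ¬ (Even (e3a2_z p c1 + e3a2_z c1 c2 + e3a2_z c2 c3 + e3a2_z c3 c4 + e3a2_z c4 q) ↔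
      Even (e3a2_z p d1 + e3a2_z d1 d2 + e3a2_z d2 d3 + e3a2_z d3 d4 + e3a2_z d4 q)) := by
  fin_cases p <;> fin_cases q
  · exact absurd (by decide) h
  · exact absurd (by decide) h
  · exact ⟨0, 1, 0, 1, 1, 2, 3, 3, by decide, by decide, by decide⟩
  · exact ⟨0, 0, 1, 2, 0, 1, 2, 3, by decide, by decide, by decide⟩
  · exact absurd (by decide) h
  · exact ⟨0, 0, 1, 0, 2, 3, 3, 2, by decide, by decide, by decide⟩
  · exact absurd (by decide) h
  · exact ⟨0, 0, 1, 2, 2, 3, 2, 3, by decide, by decide, by decide⟩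
  · exact ⟨1, 0, 1, 0, 3, 3, 2, 1, by decide, by decide, by decide⟩
  · exact absurd (by decide) h
  · exact ⟨1, 0, 0, 1, 3, 3, 2, 3, by decide, by decide, by decide⟩
  · exact absurd (by decide) h
  · exact ⟨2, 1, 0, 0, 3, 2, 1, 0, by decide, by decide, by decide⟩
  · exact ⟨2, 1, 0, 0, 3, 2, 3, 2, by decide, by decide, by decide⟩
  · exact absurd (by decide) h
  · exact absurd (by decide) h

theorem e3a2_walkB (p q : Fin 4) (h : (p = 0 ∧ q = 3) ∨ (p = 1 ∧ q = 2)) :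
    ∃ c1 c2 c3 d1 d2 d3 : Fin 4,
    (PatE p c1 ∧ PatE c1 c2 ∧ PatE c2 c3 ∧ PatE c3 q) ∧
    (PatE p d1 ∧ PatE d1 d2 ∧ PatE d2 d3 ∧ PatE d3 q) ∧
    ¬ (Even (e3a2_z p c1 + e3a2_z c1 c2 + e3a2_z c2 c3 + e3a2_z c3 q) ↔
      Even (e3a2_z p d1 + e3a2_z d1 d2 + e3a2_z d2 d3 + e3a2_z d3 q)) := by
  rcases h with ⟨rfl, rfl⟩ | ⟨rfl, rfl⟩
  · exact ⟨0, 1, 2, 1, 2, 3, by decide, by decide, by decide⟩
  · exact ⟨0, 0, 1, 2, 3, 3, by decide, by decide, by decide⟩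

theorem e3a2_nV1 {V : Type} [DecidableEq V] (E : Finset (Sym2 V)) (X : Finset V) (cl : V → Fin 4)
    {w : Fin 6 → V} (hw : Function.Injective w) :
    nV1 cl (cyc w ∩ host3 E X cl) =
      ∑ i : Fin 6, if (s(w i, w (i + 1)) ∈ host3 E X cl ∧ cl (w i) = 0 ∧ cl (w (i + 1)) = 0) then 1 else 0 := by
  rw [← Finset.card_filter]
  unfold nV1
  have : (cyc w ∩ host3 E X cl).filter (fun e => Sym2.map cl e = s(0, 0)) =
      (Finset.univ.filter (fun i : Fin 6 => s(w i, w (i + 1)) ∈ host3 E X cl ∧ cl (w i) = 0 ∧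
        cl (w (i + 1)) = 0)).image (fun i => s(w i, w (i + 1))) := by
    ext e
    simp only [Finset.mem_filter, Finset.mem_inter, Finset.mem_image, Finset.mem_univ, true_and, mem_cyc]
    constructor
    · rintro ⟨⟨⟨i, rfl⟩, h2⟩, h3⟩
      refine ⟨i, ⟨h2, ?_⟩, rfl⟩
      rw [Sym2.map_mk, Sym2.eq_iff] at h3
      rcases h3 with h3 | h3
      · exact h3
      · exact h3
    · rintro ⟨i, ⟨h2, h3, h4⟩, rfl⟩
      refine ⟨⟨⟨i, rfl⟩, h2⟩, ?_⟩
      rw [Sym2.map_mk, h3, h4]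
  rw [this, Finset.card_image_of_injective _ (cyc_inj hw)]

theorem e3a2_inj6 {V : Type} [DecidableEq V] {a b c d e f : V} (h1 : a ∉ ({b, c, d, e, f} : Finset V))
    (h2 : b ∉ ({c, d, e, f} : Finset V)) (h3 : c ∉ ({d, e, f} : Finset V)) (h4 : d ∉ ({e, f} : Finset V))
    (h5 : e ∉ ({f} : Finset V)) : Function.Injective ![a, b, c, d, e, f] := by
  simp only [Finset.mem_insert, Finset.mem_singleton, not_or] at h1 h2 h3 h4 h5
  intro i j hij
  fin_cases i <;> fin_cases j <;> simp_all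

theorem e3a2_cyc6 {V : Type} [DecidableEq V] (a b c d e f : V) :
    cyc ![a, b, c, d, e, f] = {s(a, b), s(b, c), s(c, d), s(d, e), s(e, f), s(f, a)} := by
  ext x
  rw [mem_cyc]
  constructor
  · rintro ⟨i, rfl⟩
    fin_cases i <;> simp
  · intro h
    simp only [Finset.mem_insert, Finset.mem_singleton] at h
    rcases h with rfl | rfl | rfl | rfl | rfl | rfl
    · exact ⟨0, rfl⟩
    · exact ⟨1, rfl⟩
    · exact ⟨2, rfl⟩
    · exact ⟨3, rfl⟩
    · exact ⟨4, rfl⟩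
    · exact ⟨5, rfl⟩

theorem e3a2_pathA {V : Type} [Fintype V] [DecidableEq V] {E : Finset (Sym2 V)} {t ε τ : ℝ}
    {X : Finset V} {cl : V → Fin 4} {V' : Fin 4 → Finset V} (h : Env3 E t ε τ X cl V')
    (hτt : τ < t / 8) (hn : 20 < t / 2 * nV V) (u v : V) (hu : u ∉ X) (hv : v ∉ X) (huv : u ≠ v)
    (hE : s(v, u) ∈ E) (hnp : ¬ PatE (cl u) (cl v)) (c1 c2 c3 c4 : Fin 4) (h1 : PatE (cl u) c1)
    (h2 : PatE c1 c2) (h3 : PatE c2 c3) (h4 : PatE c3 c4) (h5 : PatE c4 (cl v)) :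
    ∃ C ⊆ E, IsC6 C ∧ C \ host3 E X cl = {s(v, u)} ∧ (∀ e ∈ C, ∀ x ∈ X, x ∉ e) ∧
      nV1 cl (C ∩ host3 E X cl) = e3a2_z (cl u) c1 + e3a2_z c1 c2 + e3a2_z c2 c3 +
        e3a2_z c3 c4 + e3a2_z c4 (cl v) := by
  obtain ⟨a1, ha1, hz1, hE1, -⟩ := e3a2_step h hτt hn u u hu hu c1 h1 (e3a2_patE_symm h1) {u, v}
    ((Finset.card_le_two).trans (by norm_num))
  have hc1 : cl a1 = c1 := h.cls _ _ ha1
  have hX1 : a1 ∉ X := Finset.disjoint_left.1 (h.subX _) ha1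
  obtain ⟨a2, ha2, hz2, hE2, -⟩ := e3a2_step h hτt hn a1 a1 hX1 hX1 c2 (by rw [hc1]; exact h2)
    (by rw [hc1]; exact e3a2_patE_symm h2) {a1, u, v} ((Finset.card_le_three).trans (by norm_num))
  have hc2 : cl a2 = c2 := h.cls _ _ ha2
  have hX2 : a2 ∉ X := Finset.disjoint_left.1 (h.subX _) ha2
  obtain ⟨a3, ha3, hz3, hE3, -⟩ := e3a2_step h hτt hn a2 a2 hX2 hX2 c3 (by rw [hc2]; exact h3)
    (by rw [hc2]; exact e3a2_patE_symm h3) {a2, a1, u, v} ((Finset.card_le_four).trans (by norm_num))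
  have hc3 : cl a3 = c3 := h.cls _ _ ha3
  have hX3 : a3 ∉ X := Finset.disjoint_left.1 (h.subX _) ha3
  obtain ⟨a4, ha4, hz4, hE4, hE5⟩ := e3a2_step h hτt hn a3 v hX3 hv c4 (by rw [hc3]; exact h4)
    h5 {a3, a2, a1, u, v} ((Finset.card_le_five).trans (by norm_num))
  have hc4 : cl a4 = c4 := h.cls _ _ ha4
  have hX4 : a4 ∉ X := Finset.disjoint_left.1 (h.subX _) ha4
  simp only [Finset.mem_insert, Finset.mem_singleton, not_or] at hz1 hz2 hz3 hz4
  have hinj : Function.Injective ![u, a1, a2, a3, a4, v] := by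
    apply e3a2_inj6 <;> simp only [Finset.mem_insert, Finset.mem_singleton, not_or]
    · exact ⟨Ne.symm hz1.1, Ne.symm hz2.2.1, Ne.symm hz3.2.2.1, Ne.symm hz4.2.2.2.1, huv⟩
    · exact ⟨Ne.symm hz2.1, Ne.symm hz3.2.1, Ne.symm hz4.2.2.1, hz1.2⟩
    · exact ⟨Ne.symm hz3.1, Ne.symm hz4.2.1, hz2.2.2⟩
    · exact ⟨Ne.symm hz4.1, hz3.2.2.2⟩
    · exact hz4.2.2.2.2
  have H1 : s(u, a1) ∈ host3 E X cl := e3a2_mem_host.2 ⟨hE1, hu, hX1, by rw [hc1]; exact h1⟩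
  have H2 : s(a1, a2) ∈ host3 E X cl := e3a2_mem_host.2 ⟨hE2, hX1, hX2, by rw [hc1, hc2]; exact h2⟩
  have H3 : s(a2, a3) ∈ host3 E X cl := e3a2_mem_host.2 ⟨hE3, hX2, hX3, by rw [hc2, hc3]; exact h3⟩
  have H4 : s(a3, a4) ∈ host3 E X cl := e3a2_mem_host.2 ⟨hE4, hX3, hX4, by rw [hc3, hc4]; exact h4⟩
  have H5 : s(a4, v) ∈ host3 E X cl := e3a2_mem_host.2 ⟨hE5, hX4, hv, by rw [hc4]; exact h5⟩
  have H6 : s(v, u) ∉ host3 E X cl := fun hh => hnp (e3a2_patE_symm (e3a2_mem_host.1 hh).2.2.2)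
  refine ⟨cyc ![u, a1, a2, a3, a4, v], ?_, ⟨_, hinj, rfl⟩, ?_, ?_, ?_⟩
  · rw [e3a2_cyc6]
    intro e he
    simp only [Finset.mem_insert, Finset.mem_singleton] at he
    rcases he with rfl | rfl | rfl | rfl | rfl | rfl
    exacts [hE1, hE2, hE3, hE4, hE5, hE]
  · rw [e3a2_cyc6]
    ext e
    simp only [Finset.mem_sdiff, Finset.mem_insert, Finset.mem_singleton]
    constructor
    · rintro ⟨rfl | rfl | rfl | rfl | rfl | rfl, he⟩
      exacts [absurd H1 he, absurd H2 he, absurd H3 he, absurd H4 he, absurd H5 he, rfl]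
    · rintro rfl
      exact ⟨Or.inr (Or.inr (Or.inr (Or.inr (Or.inr rfl)))), H6⟩
  · rw [e3a2_cyc6]
    intro e he x hx hxe
    simp only [Finset.mem_insert, Finset.mem_singleton] at he
    rcases he with rfl | rfl | rfl | rfl | rfl | rfl <;> rcases Sym2.mem_iff.1 hxe with rfl | rfl <;>
      contradiction
  · rw [e3a2_nV1 E X cl hinj, Fin.sum_univ_six]
    show (if (s(u, a1) ∈ host3 E X cl ∧ cl u = 0 ∧ cl a1 = 0) then 1 else 0) +
      (if (s(a1, a2) ∈ host3 E X cl ∧ cl a1 = 0 ∧ cl a2 = 0) then 1 else 0) +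
      (if (s(a2, a3) ∈ host3 E X cl ∧ cl a2 = 0 ∧ cl a3 = 0) then 1 else 0) +
      (if (s(a3, a4) ∈ host3 E X cl ∧ cl a3 = 0 ∧ cl a4 = 0) then 1 else 0) +
      (if (s(a4, v) ∈ host3 E X cl ∧ cl a4 = 0 ∧ cl v = 0) then 1 else 0) +
      (if (s(v, u) ∈ host3 E X cl ∧ cl v = 0 ∧ cl u = 0) then 1 else 0) = _
    simp only [H1, H2, H3, H4, H5, H6, true_and, false_and, if_false, add_zero, hc1, hc2, hc3, hc4,
      e3a2_z]

theorem e3a2_pathB {V : Type} [Fintype V] [DecidableEq V] {E : Finset (Sym2 V)} {t ε τ : ℝ}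
    {X : Finset V} {cl : V → Fin 4} {V' : Fin 4 → Finset V} (h : Env3 E t ε τ X cl V')
    (hτt : τ < t / 8) (hn : 20 < t / 2 * nV V) (x u v : V) (hx : x ∈ X) (hu : u ∉ X) (hv : v ∉ X)
    (huv : u ≠ v)
    (hE : s(x, u) ∈ E) (hE' : s(v, x) ∈ E) (c1 c2 c3 : Fin 4) (h1 : PatE (cl u) c1)
    (h2 : PatE c1 c2) (h3 : PatE c2 c3) (h4 : PatE c3 (cl v)) :
    ∃ C ⊆ E, IsC6 C ∧ C \ host3 E X cl = {s(x, u), s(v, x)} ∧
      (∀ e ∈ C, ¬ (∃ x ∈ X, ∃ y ∈ X, e = s(x, y))) ∧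
      nV1 cl (C ∩ host3 E X cl) = e3a2_z (cl u) c1 + e3a2_z c1 c2 + e3a2_z c2 c3 +
        e3a2_z c3 (cl v) := by
  obtain ⟨a1, ha1, hz1, hE1, -⟩ := e3a2_step h hτt hn u u hu hu c1 h1 (e3a2_patE_symm h1) {u, v}
    ((Finset.card_le_two).trans (by norm_num))
  have hc1 : cl a1 = c1 := h.cls _ _ ha1
  have hX1 : a1 ∉ X := Finset.disjoint_left.1 (h.subX _) ha1
  obtain ⟨a2, ha2, hz2, hE2, -⟩ := e3a2_step h hτt hn a1 a1 hX1 hX1 c2 (by rw [hc1]; exact h2)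
    (by rw [hc1]; exact e3a2_patE_symm h2) {a1, u, v} ((Finset.card_le_three).trans (by norm_num))
  have hc2 : cl a2 = c2 := h.cls _ _ ha2
  have hX2 : a2 ∉ X := Finset.disjoint_left.1 (h.subX _) ha2
  obtain ⟨a3, ha3, hz3, hE3, hE4⟩ := e3a2_step h hτt hn a2 v hX2 hv c3 (by rw [hc2]; exact h3)
    h4 {a2, a1, u, v} ((Finset.card_le_four).trans (by norm_num))
  have hc3 : cl a3 = c3 := h.cls _ _ ha3
  have hX3 : a3 ∉ X := Finset.disjoint_left.1 (h.subX _) ha3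
  simp only [Finset.mem_insert, Finset.mem_singleton, not_or] at hz1 hz2 hz3
  have hxn : ∀ y, y ∉ X → x ≠ y := by
    rintro y hy rfl
    exact hy hx
  have hinj : Function.Injective ![x, u, a1, a2, a3, v] := by
    apply e3a2_inj6 <;> simp only [Finset.mem_insert, Finset.mem_singleton, not_or]
    · exact ⟨hxn _ hu, hxn _ hX1, hxn _ hX2, hxn _ hX3, hxn _ hv⟩
    · exact ⟨Ne.symm hz1.1, Ne.symm hz2.2.1, Ne.symm hz3.2.2.1, huv⟩
    · exact ⟨Ne.symm hz2.1, Ne.symm hz3.2.1, hz1.2⟩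
    · exact ⟨Ne.symm hz3.1, hz2.2.2⟩
    · exact hz3.2.2.2
  have H1 : s(u, a1) ∈ host3 E X cl := e3a2_mem_host.2 ⟨hE1, hu, hX1, by rw [hc1]; exact h1⟩
  have H2 : s(a1, a2) ∈ host3 E X cl := e3a2_mem_host.2 ⟨hE2, hX1, hX2, by rw [hc1, hc2]; exact h2⟩
  have H3 : s(a2, a3) ∈ host3 E X cl := e3a2_mem_host.2 ⟨hE3, hX2, hX3, by rw [hc2, hc3]; exact h3⟩
  have H4 : s(a3, v) ∈ host3 E X cl := e3a2_mem_host.2 ⟨hE4, hX3, hv, by rw [hc3]; exact h4⟩
  have H5 : s(x, u) ∉ host3 E X cl := fun hh => (e3a2_mem_host.1 hh).2.1 hx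
  have H6 : s(v, x) ∉ host3 E X cl := fun hh => (e3a2_mem_host.1 hh).2.2.1 hx
  refine ⟨cyc ![x, u, a1, a2, a3, v], ?_, ⟨_, hinj, rfl⟩, ?_, ?_, ?_⟩
  · rw [e3a2_cyc6]
    intro e he
    simp only [Finset.mem_insert, Finset.mem_singleton] at he
    rcases he with rfl | rfl | rfl | rfl | rfl | rfl
    exacts [hE, hE1, hE2, hE3, hE4, hE']
  · rw [e3a2_cyc6]
    ext e
    simp only [Finset.mem_sdiff, Finset.mem_insert, Finset.mem_singleton]
    constructor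
    · rintro ⟨rfl | rfl | rfl | rfl | rfl | rfl, he⟩
      exacts [Or.inl rfl, absurd H1 he, absurd H2 he, absurd H3 he, absurd H4 he, Or.inr rfl]
    · rintro (rfl | rfl)
      · exact ⟨Or.inl rfl, H5⟩
      · exact ⟨Or.inr (Or.inr (Or.inr (Or.inr (Or.inr rfl)))), H6⟩
  · rw [e3a2_cyc6]
    rintro e he ⟨y, hy, z, hz, rfl⟩
    simp only [Finset.mem_insert, Finset.mem_singleton] at he
    have key : ∀ p q : V, s(y, z) = s(p, q) → p ∈ X ∧ q ∈ X := by
      intro p q hpq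
      rcases Sym2.eq_iff.1 hpq with ⟨rfl, rfl⟩ | ⟨rfl, rfl⟩
      · exact ⟨hy, hz⟩
      · exact ⟨hz, hy⟩
    rcases he with he | he | he | he | he | he
    · exact hu (key _ _ he).2
    · exact hu (key _ _ he).1
    · exact hX1 (key _ _ he).1
    · exact hX2 (key _ _ he).1
    · exact hX3 (key _ _ he).1
    · exact hv (key _ _ he).1
  · rw [e3a2_nV1 E X cl hinj, Fin.sum_univ_six]
    show (if (s(x, u) ∈ host3 E X cl ∧ cl x = 0 ∧ cl u = 0) then 1 else 0) +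
      (if (s(u, a1) ∈ host3 E X cl ∧ cl u = 0 ∧ cl a1 = 0) then 1 else 0) +
      (if (s(a1, a2) ∈ host3 E X cl ∧ cl a1 = 0 ∧ cl a2 = 0) then 1 else 0) +
      (if (s(a2, a3) ∈ host3 E X cl ∧ cl a2 = 0 ∧ cl a3 = 0) then 1 else 0) +
      (if (s(a3, v) ∈ host3 E X cl ∧ cl a3 = 0 ∧ cl v = 0) then 1 else 0) +
      (if (s(v, x) ∈ host3 E X cl ∧ cl v = 0 ∧ cl x = 0) then 1 else 0) = _
    simp only [H1, H2, H3, H4, H5, H6, true_and, false_and, if_false, add_zero, zero_add, hc1, hc2, hc3,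
      e3a2_z]

/-- an atypical vertex has typical neighbours in classes 0, 3 or in classes 1, 2 -/
theorem e3a2_atyp {V : Type} [Fintype V] [DecidableEq V] {E : Finset (Sym2 V)} {t ε τ : ℝ}
    {X : Finset V} {cl : V → Fin 4} {V' : Fin 4 → Finset V} (h : Env3 E t ε τ X cl V') (x : V)
    (hx : x ∈ X) : ∃ u v : V, u ∉ X ∧ v ∉ X ∧ s(x, u) ∈ E ∧ s(x, v) ∈ E ∧
      ((cl u = 0 ∧ cl v = 3) ∨ (cl u = 1 ∧ cl v = 2)) := by
  by_contra hcon
  push Not at hcon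
  have hK : ∀ i : Fin 4, ∃ y, y ∉ X ∧ s(x, y) ∈ E ∧ ¬ PatE i (cl y) := by
    intro i
    have := h.atyp x hx i
    push Not at this
    obtain ⟨j, hj, y, hy, hyj, hxy⟩ := this
    exact ⟨y, hy, hxy, by rw [hyj]; exact hj⟩
  obtain ⟨y0, hy0, hE0, hp0⟩ := hK 0
  obtain ⟨y1, hy1, hE1, hp1⟩ := hK 1
  obtain ⟨y2, hy2, hE2, hp2⟩ := hK 2
  obtain ⟨y3, hy3, hE3, hp3⟩ := hK 3
  have hc : ∀ u v, u ∉ X → v ∉ X → s(x, u) ∈ E → s(x, v) ∈ E →
      ¬ (cl u = 0 ∧ cl v = 3) ∧ ¬ (cl u = 1 ∧ cl v = 2) := by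
    intro u v hu hv h1 h2
    have := hcon u v hu hv h1 h2
    exact ⟨fun hh => this.1 hh.1 hh.2, fun hh => this.2 hh.1 hh.2⟩
  have hall : ∀ a0 a1 a2 a3 : Fin 4, ¬ PatE 0 a0 → ¬ PatE 1 a1 → ¬ PatE 2 a2 → ¬ PatE 3 a3 →
      (∃ p ∈ ({a0, a1, a2, a3} : Finset (Fin 4)), ∃ q ∈ ({a0, a1, a2, a3} : Finset (Fin 4)),
        (p = 0 ∧ q = 3) ∨ (p = 1 ∧ q = 2)) := by decide
  obtain ⟨p, hp, q, hq, hpq⟩ := hall _ _ _ _ hp0 hp1 hp2 hp3
  have hrep : ∀ p ∈ ({cl y0, cl y1, cl y2, cl y3} : Finset (Fin 4)), ∃ y, y ∉ X ∧ s(x, y) ∈ E ∧ cl y = p := by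
    intro p hp
    simp only [Finset.mem_insert, Finset.mem_singleton] at hp
    rcases hp with rfl | rfl | rfl | rfl
    exacts [⟨y0, hy0, hE0, rfl⟩, ⟨y1, hy1, hE1, rfl⟩, ⟨y2, hy2, hE2, rfl⟩, ⟨y3, hy3, hE3, rfl⟩]
  obtain ⟨u, hu, huE, hup⟩ := hrep p hp
  obtain ⟨v, hv, hvE, hvq⟩ := hrep q hq
  have := hc u v hu hv huE hvE
  rw [hup, hvq] at this
  rcases hpq with hpq | hpq
  · exact this.1 hpq
  · exact this.2 hpq

/-- there is an atypical vertex or a wrong edge -/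
theorem e3a2_wrong {V : Type} [Fintype V] [DecidableEq V] {E : Finset (Sym2 V)} {t ε τ : ℝ}
    {X : Finset V} {cl : V → Fin 4} {V' : Fin 4 → Finset V} (h : Env3 E t ε τ X cl V')
    (hl : Loopless E) (ht : 0 < t) (hn : 0 < nV V) (hX : X = ∅) :
    ∃ u v : V, s(v, u) ∈ E ∧ ¬ PatE (cl u) (cl v) := by
  by_contra hcon
  push Not at hcon
  have hne : ∀ i, (V' i).Nonempty := by
    intro i
    rw [← Finset.card_pos]
    have h1 := h.size i
    have h2 : 0 < t * nV V := mul_pos ht hn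
    have h3 : (0 : ℝ) < ((V' i).card : ℝ) := lt_of_lt_of_le h2 h1
    exact_mod_cast h3
  obtain ⟨v, hv⟩ := hne 0
  obtain ⟨w, hw⟩ := hne 3
  have hcv := h.cls _ _ hv
  have hcw := h.cls _ _ hw
  have hd1 := h.mindeg v
  have hd2 := h.mindeg w
  have hdeg : ∀ x, deg E x ≤ ((Finset.univ.filter (fun y => PatE (cl x) (cl y))).erase x).card := by
    intro x
    rw [deg_eq_dg (U := Finset.univ) (by intro e _; simp) x]
    unfold dg
    apply Finset.card_le_card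
    intro y hy
    rw [Finset.mem_filter] at hy
    rw [Finset.mem_erase, Finset.mem_filter]
    refine ⟨(hl.ne hy.2).symm, Finset.mem_univ _, hcon _ _ ?_⟩
    rw [Sym2.eq_swap]
    exact hy.2
  have e1 := hdeg v
  have e2 := hdeg w
  rw [Finset.card_erase_of_mem (by rw [Finset.mem_filter, hcv]; exact ⟨Finset.mem_univ _, by decide⟩)] at e1
  rw [Finset.card_erase_of_mem (by rw [Finset.mem_filter, hcw]; exact ⟨Finset.mem_univ _, by decide⟩)] at e2
  have hdisj : Disjoint (Finset.univ.filter (fun y => PatE (cl v) (cl y)))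
      (Finset.univ.filter (fun y => PatE (cl w) (cl y))) := by
    rw [Finset.disjoint_filter]
    intro y _ h1 h2
    rw [hcv] at h1
    rw [hcw] at h2
    have : ∀ c : Fin 4, PatE 0 c → ¬ PatE 3 c := by decide
    exact this _ h1 h2
  have e3 := Finset.card_union_of_disjoint hdisj
  have e4 := Finset.card_le_univ ((Finset.univ.filter (fun y => PatE (cl v) (cl y))) ∪
      (Finset.univ.filter (fun y => PatE (cl w) (cl y))))
  have e5 : 0 < (Finset.univ.filter (fun y => PatE (cl v) (cl y))).card :=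
    Finset.card_pos.2 ⟨v, by rw [Finset.mem_filter, hcv]; exact ⟨Finset.mem_univ _, by decide⟩⟩
  have e6 : 0 < (Finset.univ.filter (fun y => PatE (cl w) (cl y))).card :=
    Finset.card_pos.2 ⟨w, by rw [Finset.mem_filter, hcw]; exact ⟨Finset.mem_univ _, by decide⟩⟩
  omega

theorem switch3 (t : ℝ) (ht : 0 < t) (τ : ℝ) (hτ : 0 < τ) (hτt : τ < t / 8) :
    ∃ ε : ℝ, 0 < ε ∧ ∃ n0 : ℕ, ∀ (V : Type) [Fintype V] [DecidableEq V] (E : Finset (Sym2 V))
      (X : Finset V) (cl : V → Fin 4) (V' : Fin 4 → Finset V),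
      n0 ≤ Fintype.card V → Loopless E → Env3 E t ε τ X cl V' →
      ∃ C0 ⊆ E, ∃ C1 ⊆ E, IsC6 C0 ∧ IsC6 C1 ∧ C0 \ host3 E X cl = C1 \ host3 E X cl ∧
        (∀ x ∈ X, Even (deg (C0 \ host3 E X cl) x)) ∧
        (∀ e ∈ C0, ¬ (∃ x ∈ X, ∃ y ∈ X, e = s(x, y))) ∧
        ¬ (Even (nV1 cl (C0 ∩ host3 E X cl)) ↔ Even (nV1 cl (C1 ∩ host3 E X cl))) := by
  obtain ⟨n0, hn0⟩ := exists_nat_gt (40 / t)
  refine ⟨1, one_pos, n0, ?_⟩
  intro V _ _ E X cl V' hcard hl h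
  have hn : 20 < t / 2 * nV V := by
    have h1 : (n0 : ℝ) ≤ nV V := by exact_mod_cast hcard
    have h2 : 40 / t < nV V := hn0.trans_le h1
    rw [div_lt_iff₀ ht] at h2
    nlinarith
  have hn' : 0 < nV V := by
    by_contra hneg
    push Not at hneg
    nlinarith
  by_cases hX : X = ∅
  · obtain ⟨u, v, hE, hnp⟩ := e3a2_wrong h hl ht hn' hX
    have huv : u ≠ v := (hl.ne hE).symm
    have hu : u ∉ X := by rw [hX]; exact Finset.notMem_empty _
    have hv : v ∉ X := by rw [hX]; exact Finset.notMem_empty _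
    obtain ⟨c1, c2, c3, c4, d1, d2, d3, d4, ⟨p1, p2, p3, p4, p5⟩, ⟨q1, q2, q3, q4, q5⟩, hpar⟩ :=
      e3a2_walkA _ _ hnp
    obtain ⟨C0, hC0, hc0, hs0, hx0, hN0⟩ := e3a2_pathA h hτt hn u v hu hv huv hE hnp c1 c2 c3 c4
      p1 p2 p3 p4 p5
    obtain ⟨C1, hC1, hc1, hs1, hx1, hN1⟩ := e3a2_pathA h hτt hn u v hu hv huv hE hnp d1 d2 d3 d4
      q1 q2 q3 q4 q5
    refine ⟨C0, hC0, C1, hC1, hc0, hc1, by rw [hs0, hs1], ?_, ?_, ?_⟩
    · intro x hx
      rw [hX] at hx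
      exact absurd hx (Finset.notMem_empty _)
    · rintro e he ⟨x, hx, -⟩
      rw [hX] at hx
      exact absurd hx (Finset.notMem_empty _)
    · rw [hN0, hN1]
      exact hpar
  · obtain ⟨x, hx⟩ := Finset.nonempty_iff_ne_empty.2 hX
    obtain ⟨u, v, hu, hv, huE, hvE, hcl⟩ := e3a2_atyp h x hx
    have huv : u ≠ v := by
      rintro rfl
      rcases hcl with ⟨h1, h2⟩ | ⟨h1, h2⟩ <;> rw [h1] at h2 <;> exact absurd h2 (by decide)
    have hvE' : s(v, x) ∈ E := by rw [Sym2.eq_swap]; exact hvE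
    obtain ⟨c1, c2, c3, d1, d2, d3, ⟨p1, p2, p3, p4⟩, ⟨q1, q2, q3, q4⟩, hpar⟩ :=
      e3a2_walkB _ _ hcl
    obtain ⟨C0, hC0, hc0, hs0, hx0, hN0⟩ := e3a2_pathB h hτt hn x u v hx hu hv huv huE hvE' c1 c2 c3
      p1 p2 p3 p4
    obtain ⟨C1, hC1, hc1, hs1, hx1, hN1⟩ := e3a2_pathB h hτt hn x u v hx hu hv huv huE hvE' d1 d2 d3
      q1 q2 q3 q4
    refine ⟨C0, hC0, C1, hC1, hc0, hc1, by rw [hs0, hs1], ?_, hx0, ?_⟩
    · intro y hy
      rw [hs0]
      have hyu : y ≠ u := by rintro rfl; exact hu hy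
      have hyv : y ≠ v := by rintro rfl; exact hv hy
      unfold deg
      by_cases hyx : y = x
      · subst hyx
        have : ({s(y, u), s(v, y)} : Finset (Sym2 V)).filter (fun e => y ∈ e) = {s(y, u), s(v, y)} := by
          rw [Finset.filter_eq_self]
          intro e he
          simp only [Finset.mem_insert, Finset.mem_singleton] at he
          rcases he with rfl | rfl
          · exact Sym2.mem_mk_left _ _
          · exact Sym2.mem_mk_right _ _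
        rw [this, Finset.card_pair]
        · exact even_two
        · intro heq
          rcases Sym2.eq_iff.1 heq with ⟨h1, _⟩ | ⟨_, h2⟩
          · exact hyv h1
          · exact huv h2
      · have : ({s(x, u), s(v, x)} : Finset (Sym2 V)).filter (fun e => y ∈ e) = ∅ := by
          rw [Finset.filter_eq_empty_iff]
          intro e he hye
          simp only [Finset.mem_insert, Finset.mem_singleton] at he
          rcases he with rfl | rfl <;> rcases Sym2.mem_iff.1 hye with h1 | h1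
          · exact hyx h1
          · exact hyu h1
          · exact hyv h1
          · exact hyx h1
        rw [this]
        simp
    · rw [hN0, hN1]
      exact hpar

end H15C6
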