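import Pool.Agent.H15.C6.SDefs
import Pool.Agent.H15.C6.ABE1

/-!
Module E3A0 (part of E3A).  Extremal case 3 (four-class pattern): preparation and the parity switch.  `n = |V|`.

Environment `Env3 E t ε τ X cl V'`: `cl : V → Fin 4` classes; `X` = atypical vertices; `V' i` = strongly typical vertices of
class `i` (pairwise disjoint, `⊆ Xᶜ`), `|V' i| ≥ t n`, `|V \ ⋃ V' i| ≤ ε n`; for `v ∈ V' i`: neighbourhood `=` row `i`
up to `ε n` (`row i = ⋃_{PatE i j} V' j`); for `v ∉ X`: neighbourhood = row `cl v` up to `τ n`; for `x ∈ X`: for every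
class `i` the neighbourhood differs from row `i` by more than `τ n`.

`prep3`: from `Ext3 E t ε`: `V' = V1..V4`; `v ∉ X` iff for some `i` `|N(v) Δ row i| ≤ τ n`; such an `i` is
unique because the rows differ pairwise in at least `2 t n > 2τ n` vertices (`τ < t`); `cl v := i`.

`wrong`: edges `s(u,v)` with `u, v ∉ X` and `¬ PatE (cl u) (cl v)`.  `host`: edges with both ends outside `X` and
`PatE`.

`switch3`: there are a wrong edge or a vertex of `X`.  Otherwise `deg v1 ≤ |V1| - 1 + |V2|`,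
`deg v4 ≤ |V3| + |V4| - 1` (full classes), sum `≤ n - 2`, contradiction.
There are two six-cycles `C0, C1 ⊆ E` containing the same non-host edges (at least one, and if they contain an
edge at `x ∈ X` then exactly two such edges, both at the same `x`), all other edges in `host`, with
`nV1 C0 ≢ nV1 C1 (mod 2)`:
* wrong edge `uv` of type `{0,2}`: walks `0,0,1,0,1,2` (one `{0,0}` edge) and `0,1,2,3,3,2` (none);
  type `{0,3}`: `0,0,0,1,2,3` (two) and `0,0,1,2,3,3` (one); type `{1,3}`: `1,0,0,1,2,3` (one) and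
  `1,2,3,2,3,3` (none); type `{1,1}`: `1,0,0,1,0,1` (one) and `1,2,3,3,2,1` (none);
  type `{2,2}`: `2,1,0,0,1,2` (one) and `2,3,3,2,3,2` (none); (paths of length 5 from `u` to `v`, all inner
  vertices strongly typical, distinct).
* `x ∈ X`: `x` has typical neighbours in classes 0 and 3, or in classes 1 and 2; otherwise its typical
  neighbours are in one row (`{0,1}`, `{0,2}`, `{3,1}`, `{3,2}` are the four rows), and since
  `deg x ≥ (n-1)/2`, `|row| ≤ (1/2 + 2ε) n`, `x` would be typical.  Paths of length 4 between typical `u` (class 0)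
  and `w` (class 3): `0,0,1,2,3` (one) and `0,1,2,3,3` (none); `u` in class 1, `w` in class 2:
  `1,0,0,1,2` (one) and `1,2,3,3,2` (none).
All private vertices of the two cycles are chosen distinct.
-/

open Finset

namespace H15C6

/-- environment for the third extremal case -/
structure Env3 {V : Type} [Fintype V] [DecidableEq V] (E : Finset (Sym2 V)) (t ε τ : ℝ)
    (X : Finset V) (cl : V → Fin 4) (V' : Fin 4 → Finset V) : Prop where
  disj : ∀ i j, i ≠ j → Disjoint (V' i) (V' j)
  subX : ∀ i, Disjoint (V' i) X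
  cls : ∀ i, ∀ v ∈ V' i, cl v = i
  size : ∀ i, t * nV V ≤ ((V' i).card : ℝ)
  few : ((Finset.univ \ (Finset.univ.biUnion V')).card : ℝ) ≤ ε * nV V
  rowsize : ∀ i, ((Finset.univ.filter (fun v => ∃ j, PatE i j ∧ v ∈ V' j)).card : ℝ) ≤
    (1 / 2 + 2 * ε) * nV V
  strong : ∀ i, ∀ v ∈ V' i, (∀ j, PatE i j → (((V' j).filter (fun y => s(v, y) ∉ E)).card : ℝ) ≤
    ε * nV V) ∧ (∀ j, ¬ PatE i j → (dg E (V' j) v : ℝ) ≤ ε * nV V)
  typical : ∀ v, v ∉ X → (∀ j, PatE (cl v) j →
    (((V' j).filter (fun y => s(v, y) ∉ E)).card : ℝ) ≤ τ * nV V) ∧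
    (∀ j, ¬ PatE (cl v) j → (dg E (V' j) v : ℝ) ≤ τ * nV V)
  atyp : ∀ x ∈ X, ∀ i : Fin 4, ¬ (∀ j, ¬ PatE i j → ∀ y, y ∉ X → cl y = j → s(x, y) ∉ E)
  mindeg : ∀ v, Fintype.card V ≤ 2 * deg E v + 1

/-- edges of the right type between typical vertices -/
def host3 {V : Type} [DecidableEq V] (E : Finset (Sym2 V)) (X : Finset V) (cl : V → Fin 4) :
    Finset (Sym2 V) :=
  E.filter (fun e => (∀ x ∈ X, x ∉ e) ∧ Sym2.map cl e ∈
    ({s(0, 0), s(3, 3), s(0, 1), s(1, 2), s(2, 3)} : Finset (Sym2 (Fin 4))))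

end H15C6
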