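import Pool.Agent.H15.C6.E3A
import Pool.Agent.H15.C6.CV
import Pool.Agent.H15.C6.CC
import Pool.Agent.H15.C6.RICH2

/-!
Module E3B.  Extremal case 3: covering non-host edges.  `n = |V|`, `S := ⋃ V' i`.

Richness: for every vertex `u` (typical or not) let `K_u` be the set of classes `i` such that `u` has at least
`(t/10) n` neighbours in `V' i` (through host edges if `u` is typical, through edges of `FX` if `u ∈ X`).
`|K_u| ≥ 2`: for typical `u` the two classes of its row; for `u ∈ X` because `deg u ≥ (n-1)/2` and every class has at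
most `(1/2 - t + 4ε) n` elements (every row consists of two classes, each of size `≥ t n`, and has size
`≤ (1/2+2ε) n`).  Given `u, w` choose `i ∈ K_u`, `j ∈ K_w`, `j ≠ 3 - i`; then some class `m` is adjacent to both
(`PatE i m`, `PatE m j`), so `P4 Hst S u w ≥ h n³`, `h = (t/10)^3/8`, with `Hst` = host edges plus edges
`X`-typical.
Steps: `F = FXX ∪ FX ∪ FW` (inside `X`; between `X` and typical; typical-typical).
1. `cover_sparse` for `FXX` with host `H ∪ FX`: `D1`.
2. `FX \ D1` has even degree at every `x ∈ X` (`deg F x` even, `D1` even, edges of `D1` at `x` are in `F`):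
   `cherry_cover` with centre in `X`, load `≤ |X| ≤ ε n`, host `H \ D1`: `D2`.
3. `cover_sparse` for `FW` (`|FW| ≤ 5 ε n²`) with host `H \ D1 \ D2`: `D3`.
`U = univ` in `cover_sparse`.
-/

set_option linter.unusedSectionVars false
set_option linter.unusedVariables false

open Finset

namespace H15C6

theorem e3b_pat_common : ∀ i j : Fin 4, j ≠ 3 - i → ∃ m, PatE i m ∧ PatE j m := by decide

theorem e3b_pat_two : ∀ i : Fin 4, ∃ j j', j ≠ j' ∧ PatE i j ∧ PatE i j' := by decide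

theorem e3b_pat_symm : ∀ i j : Fin 4, PatE i j → PatE j i := by decide

theorem e3b_pat_row : ∀ k : Fin 4, ∃ i j, j ≠ k ∧ PatE i k ∧ PatE i j := by decide

theorem e3b_pat_mem : ∀ i j : Fin 4, s(i, j) ∈
    ({s(0, 0), s(3, 3), s(0, 1), s(1, 2), s(2, 3)} : Finset (Sym2 (Fin 4))) ↔ PatE i j := by
  decide

theorem e3b_mem_host {V : Type} [DecidableEq V] {E : Finset (Sym2 V)} {X : Finset V}
    {cl : V → Fin 4} {a b : V} :
    s(a, b) ∈ host3 E X cl ↔ s(a, b) ∈ E ∧ a ∉ X ∧ b ∉ X ∧ PatE (cl a) (cl b) := by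
  unfold host3
  rw [Finset.mem_filter, Sym2.map_mk, e3b_pat_mem]
  constructor
  · rintro ⟨h1, h2, h3⟩
    exact ⟨h1, fun h => h2 a h (Sym2.mem_mk_left a b), fun h => h2 b h (Sym2.mem_mk_right a b), h3⟩
  · rintro ⟨h1, h2, h3, h4⟩
    refine ⟨h1, ?_, h4⟩
    intro x hx hxe
    rw [Sym2.mem_iff] at hxe
    rcases hxe with rfl | rfl
    · exact h2 hx
    · exact h3 hx

theorem e3b_host_notMem {V : Type} [DecidableEq V] {E : Finset (Sym2 V)} {X : Finset V}
    {cl : V → Fin 4} {e : Sym2 V} (h : e ∈ host3 E X cl) {x : V} (hx : x ∈ X) : x ∉ e := by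
  unfold host3 at h
  rw [Finset.mem_filter] at h
  exact h.2.1 x hx

theorem e3b_host_sub {V : Type} [DecidableEq V] {E : Finset (Sym2 V)} {X : Finset V}
    {cl : V → Fin 4} {e : Sym2 V} (h : e ∈ host3 E X cl) : e ∈ E := by
  unfold host3 at h
  exact (Finset.mem_filter.1 h).1

section

variable {V : Type} [Fintype V] [DecidableEq V]

/-- many walks of length four -/
theorem e3b_P4_ge (G : Finset (Sym2 V)) (A C : Finset V) (u w : V) (k : ℕ)
    (hA : ∀ a ∈ A, s(u, a) ∈ G) (hC : ∀ c ∈ C, s(c, w) ∈ G)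
    (hB : ∀ a ∈ A, ∀ c ∈ C, k ≤ cn G Finset.univ a c) :
    A.card * C.card * k ≤ P4 G Finset.univ u w := by
  classical
  set T := ((Finset.univ ×ˢ Finset.univ ×ˢ Finset.univ : Finset (V × V × V)).filter
    (fun t => s(u, t.1) ∈ G ∧ s(t.1, t.2.1) ∈ G ∧ s(t.2.1, t.2.2) ∈ G ∧ s(t.2.2, w) ∈ G)) with hT
  have h1 : ∀ p ∈ A ×ˢ C, k ≤ (T.filter (fun t => (t.1, t.2.2) = p)).card := by
    intro p hp
    rw [Finset.mem_product] at hp
    refine (hB p.1 hp.1 p.2 hp.2).trans ?_
    unfold cn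
    apply Finset.card_le_card_of_injOn (fun m => (p.1, m, p.2))
    · intro m hm
      have hm' := Finset.mem_filter.1 (Finset.mem_coe.1 hm)
      refine Finset.mem_coe.2 (Finset.mem_filter.2 ⟨?_, rfl⟩)
      rw [hT]
      refine Finset.mem_filter.2 ⟨by simp, hA _ hp.1, hm'.2.1, hm'.2.2, hC _ hp.2⟩
    · intro m _ m' _ h
      simpa using h
  have h2 : (A ×ˢ C).card * k ≤ ∑ p ∈ A ×ˢ C, (T.filter (fun t => (t.1, t.2.2) = p)).card := by
    rw [← smul_eq_mul]
    exact Finset.card_nsmul_le_sum _ _ _ h1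
  have h3 : ∑ p ∈ A ×ˢ C, (T.filter (fun t => (t.1, t.2.2) = p)).card ≤ T.card := by
    rw [← Finset.card_biUnion]
    · apply Finset.card_le_card
      intro t ht
      rw [Finset.mem_biUnion] at ht
      obtain ⟨p, _, h⟩ := ht
      exact (Finset.mem_filter.1 h).1
    · intro p _ p' _ hne
      rw [Function.onFun, Finset.disjoint_left]
      intro t ht ht'
      exact hne ((Finset.mem_filter.1 ht).2.symm.trans (Finset.mem_filter.1 ht').2)
  rw [Finset.card_product] at h2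
  exact h2.trans h3

/-- two classes with many neighbours -/
def e3b_two (G : Finset (Sym2 V)) (t : ℝ) (V' : Fin 4 → Finset V) (u : V) : Prop :=
  ∃ i j : Fin 4, i ≠ j ∧ t / 10 * nV V ≤ (dg G (V' i) u : ℝ) ∧ t / 10 * nV V ≤ (dg G (V' j) u : ℝ)

theorem e3b_two_mono {G G' : Finset (Sym2 V)} {t : ℝ} {V' : Fin 4 → Finset V} {u : V}
    (h : G ⊆ G') (hu : e3b_two G t V' u) : e3b_two G' t V' u := by
  obtain ⟨i, j, hij, h1, h2⟩ := hu
  refine ⟨i, j, hij, h1.trans ?_, h2.trans ?_⟩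
  · exact_mod_cast dg_mono h (V' i) u
  · exact_mod_cast dg_mono h (V' j) u

/-- non-neighbours of a strongly typical vertex in an adjacent class -/
theorem e3b_miss {E H : Finset (Sym2 V)} {t ε τ θ : ℝ} {X : Finset V} {cl : V → Fin 4}
    {V' : Fin 4 → Finset V} (hE : Env3 E t ε τ X cl V')
    (hH : ∀ v, (deg (host3 E X cl \ H) v : ℝ) ≤ θ * nV V) {i m : Fin 4} (hp : PatE i m) {a : V}
    (ha : a ∈ V' i) :
    (((V' m).filter (fun y => s(a, y) ∉ H)).card : ℝ) ≤ (ε + θ) * nV V := by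
  have h1 : ((V' m).filter (fun y => s(a, y) ∉ H)).card ≤
      ((V' m).filter (fun y => s(a, y) ∉ E)).card + dg (host3 E X cl \ H) (V' m) a := by
    unfold dg
    refine le_trans (Finset.card_le_card ?_) (Finset.card_union_le _ _)
    intro y hy
    simp only [Finset.mem_filter, Finset.mem_union, Finset.mem_sdiff] at hy ⊢
    by_cases hyE : s(a, y) ∈ E
    · right
      refine ⟨hy.1, ?_, hy.2⟩
      rw [e3b_mem_host]
      refine ⟨hyE, ?_, ?_, ?_⟩
      · exact Finset.disjoint_left.1 (hE.subX i) ha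
      · exact Finset.disjoint_left.1 (hE.subX m) hy.1
      · rw [hE.cls i a ha, hE.cls m y hy.1]; exact hp
    · left; exact ⟨hy.1, hyE⟩
  have h2 := (hE.strong i a ha).1 m hp
  have h3 := hH a
  have h4 : (dg (host3 E X cl \ H) (V' m) a : ℝ) ≤ (deg (host3 E X cl \ H) a : ℝ) := by
    exact_mod_cast dg_le_deg _ _ _
  have h5 : (((V' m).filter (fun y => s(a, y) ∉ H)).card : ℝ) ≤
      (((V' m).filter (fun y => s(a, y) ∉ E)).card : ℝ) +
        (dg (host3 E X cl \ H) (V' m) a : ℝ) := by exact_mod_cast h1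
  linarith

theorem e3b_typ {E H : Finset (Sym2 V)} {t ε τ θ : ℝ} {X : Finset V} {cl : V → Fin 4}
    {V' : Fin 4 → Finset V} (hE : Env3 E t ε τ X cl V')
    (hH : ∀ v, (deg (host3 E X cl \ H) v : ℝ) ≤ θ * nV V) {u : V} (hu : u ∉ X)
    (hθ : τ + θ ≤ t / 2) : e3b_two H t V' u := by
  have key : ∀ m, PatE (cl u) m → t / 10 * nV V ≤ (dg H (V' m) u : ℝ) := by
    intro m hm
    have h1 : ((V' m).filter (fun y => s(u, y) ∉ H)).card ≤
        ((V' m).filter (fun y => s(u, y) ∉ E)).card + dg (host3 E X cl \ H) (V' m) u := by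
      unfold dg
      refine le_trans (Finset.card_le_card ?_) (Finset.card_union_le _ _)
      intro y hy
      simp only [Finset.mem_filter, Finset.mem_union, Finset.mem_sdiff] at hy ⊢
      by_cases hyE : s(u, y) ∈ E
      · right
        refine ⟨hy.1, ?_, hy.2⟩
        rw [e3b_mem_host]
        refine ⟨hyE, hu, ?_, ?_⟩
        · exact Finset.disjoint_left.1 (hE.subX m) hy.1
        · rw [hE.cls m y hy.1]; exact hm
      · left; exact ⟨hy.1, hyE⟩
    have h2 := (hE.typical u hu).1 m hm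
    have h3 := hH u
    have h4 : (dg (host3 E X cl \ H) (V' m) u : ℝ) ≤ (deg (host3 E X cl \ H) u : ℝ) := by
      exact_mod_cast dg_le_deg _ _ _
    have h5 : (((V' m).filter (fun y => s(u, y) ∉ H)).card : ℝ) ≤
        (((V' m).filter (fun y => s(u, y) ∉ E)).card : ℝ) +
          (dg (host3 E X cl \ H) (V' m) u : ℝ) := by exact_mod_cast h1
    have h6 : ((V' m).filter (fun y => s(u, y) ∈ H)).card +
        ((V' m).filter (fun y => ¬ s(u, y) ∈ H)).card = (V' m).card :=
      Finset.card_filter_add_card_filter_not _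
    have h7 : (dg H (V' m) u : ℝ) + (((V' m).filter (fun y => s(u, y) ∉ H)).card : ℝ) =
        ((V' m).card : ℝ) := by
      unfold dg; exact_mod_cast h6
    have h8 := hE.size m
    have hn : (0 : ℝ) ≤ nV V := by positivity
    nlinarith
  obtain ⟨j, j', h1, h2, h3⟩ := e3b_pat_two (cl u)
  exact ⟨j, j', h1, key j h2, key j' h3⟩

theorem e3b_rich {E H G : Finset (Sym2 V)} {t ε τ θ : ℝ} {X : Finset V} {cl : V → Fin 4}
    {V' : Fin 4 → Finset V} (hE : Env3 E t ε τ X cl V')
    (hH : ∀ v, (deg (host3 E X cl \ H) v : ℝ) ≤ θ * nV V) (ht : 0 < t)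
    (hθ : ε + θ ≤ t / 8) (hHG : H ⊆ G) (hn : 100 / t ≤ nV V) {u w : V} (hu : e3b_two G t V' u)
    (hw : e3b_two G t V' w) :
    t ^ 3 / 400 * ((Finset.univ : Finset V).card : ℝ) ^ 3 ≤ (P4 G Finset.univ u w : ℝ) := by
  obtain ⟨i, i', _, hi, _⟩ := hu
  have hj : ∃ j, j ≠ 3 - i ∧ t / 10 * nV V ≤ (dg G (V' j) w : ℝ) := by
    obtain ⟨j, j', h1, h2, h3⟩ := hw
    by_cases hj : j = 3 - i
    · exact ⟨j', fun h => h1 (hj.trans h.symm), h3⟩
    · exact ⟨j, hj, h2⟩
  obtain ⟨j, hj, hjw⟩ := hj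
  obtain ⟨m, hm1, hm2⟩ := e3b_pat_common i j hj
  have hnn : (0 : ℝ) ≤ nV V := by positivity
  set A := (V' i).filter (fun y => s(u, y) ∈ G) with hA
  set C := (V' j).filter (fun y => s(w, y) ∈ G) with hC
  set k := ⌊t / 2 * nV V⌋₊ with hk
  have hkle : (k : ℝ) ≤ t / 2 * nV V := Nat.floor_le (by positivity)
  have hkge : t / 2 * nV V - 1 ≤ (k : ℝ) := (Nat.sub_one_lt_floor _).le
  have h1 := e3b_P4_ge G A C u w k (fun a ha => (Finset.mem_filter.1 ha).2)
    (fun c hc => by rw [Sym2.eq_swap]; exact (Finset.mem_filter.1 hc).2) (by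
      intro a ha c hc
      have ha' := (Finset.mem_filter.1 ha).1
      have hc' := (Finset.mem_filter.1 hc).1
      have h2 := e3b_miss hE hH hm1 ha'
      have h3 := e3b_miss hE hH hm2 hc'
      have h4 : (V' m).card ≤ cn G Finset.univ a c +
          (((V' m).filter (fun y => s(a, y) ∉ H)).card +
            ((V' m).filter (fun y => s(c, y) ∉ H)).card) := by
        unfold cn
        refine le_trans (Finset.card_le_card (t := (Finset.univ.filter (fun m => s(a, m) ∈ G ∧
          s(m, c) ∈ G)) ∪ (((V' m).filter (fun y => s(a, y) ∉ H)) ∪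
            ((V' m).filter (fun y => s(c, y) ∉ H)))) ?_) ?_
        · intro y hy
          simp only [Finset.mem_filter, Finset.mem_union, Finset.mem_univ, true_and]
          by_cases h5 : s(a, y) ∈ H
          · by_cases h6 : s(c, y) ∈ H
            · left
              exact ⟨hHG h5, hHG (by rw [Sym2.eq_swap]; exact h6)⟩
            · right; right; exact ⟨hy, h6⟩
          · right; left; exact ⟨hy, h5⟩
        · refine (Finset.card_union_le _ _).trans (Nat.add_le_add_left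
            (Finset.card_union_le _ _) _)
      have h5 : ((V' m).card : ℝ) ≤ (cn G Finset.univ a c : ℝ) +
          ((((V' m).filter (fun y => s(a, y) ∉ H)).card : ℝ) +
            (((V' m).filter (fun y => s(c, y) ∉ H)).card : ℝ)) := by exact_mod_cast h4
      have h6 := hE.size m
      have h7 : t / 2 * nV V ≤ (cn G Finset.univ a c : ℝ) := by nlinarith
      exact_mod_cast hkle.trans h7)
  have h2 : t / 10 * nV V ≤ (A.card : ℝ) := hi
  have h3 : t / 10 * nV V ≤ (C.card : ℝ) := hjw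
  have h4 : (A.card : ℝ) * (C.card : ℝ) * (k : ℝ) ≤ (P4 G Finset.univ u w : ℝ) := by
    exact_mod_cast h1
  refine le_trans ?_ h4
  have hcard : ((Finset.univ : Finset V).card : ℝ) = nV V := by simp
  rw [hcard]
  have h5 : 100 ≤ t * nV V := by
    rw [div_le_iff₀ ht] at hn
    linarith
  have h6 : t / 4 * nV V ≤ (k : ℝ) := by nlinarith
  have h7 : (0 : ℝ) ≤ t / 10 * nV V := by positivity
  have h8 : (0 : ℝ) ≤ t / 4 * nV V := by positivity
  calc t ^ 3 / 400 * nV V ^ 3 = t / 10 * nV V * (t / 10 * nV V) * (t / 4 * nV V) := by ring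
    _ ≤ (A.card : ℝ) * (C.card : ℝ) * (k : ℝ) :=
      mul_le_mul (mul_le_mul h2 h3 h7 (h7.trans h2)) h6 h8 (by positivity)

/-- splitting the number of neighbours over the classes -/
theorem e3b_deg_split (G : Finset (Sym2 V)) (V' : Fin 4 → Finset V) (v : V) :
    deg G v ≤ (∑ i : Fin 4, dg G (V' i) v) + (Finset.univ \ (Finset.univ.biUnion V')).card := by
  rw [deg_eq_dg (U := Finset.univ) (by simp) v]
  unfold dg
  refine le_trans (Finset.card_le_card (t := (Finset.univ.biUnion (fun i => (V' i).filter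
    (fun y => s(v, y) ∈ G))) ∪ (Finset.univ \ (Finset.univ.biUnion V'))) ?_) ?_
  · intro y hy
    have hy' := (Finset.mem_filter.1 hy).2
    rw [Finset.mem_union]
    by_cases h : y ∈ Finset.univ.biUnion V'
    · left
      rw [Finset.mem_biUnion] at h ⊢
      obtain ⟨i, hi, h⟩ := h
      exact ⟨i, hi, Finset.mem_filter.2 ⟨h, hy'⟩⟩
    · right
      exact Finset.mem_sdiff.2 ⟨Finset.mem_univ y, h⟩
  · refine (Finset.card_union_le _ _).trans (Nat.add_le_add_right Finset.card_biUnion_le _)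

theorem e3b_class_le {E : Finset (Sym2 V)} {t ε τ : ℝ} {X : Finset V} {cl : V → Fin 4}
    {V' : Fin 4 → Finset V} (hE : Env3 E t ε τ X cl V') (k : Fin 4) :
    ((V' k).card : ℝ) ≤ (1 / 2 + 2 * ε - t) * nV V := by
  obtain ⟨i, j, hjk, h1, h2⟩ := e3b_pat_row k
  have h3 : (V' k ∪ V' j).card ≤
      (Finset.univ.filter (fun v => ∃ j, PatE i j ∧ v ∈ V' j)).card := by
    apply Finset.card_le_card
    intro v hv
    rw [Finset.mem_filter]
    rw [Finset.mem_union] at hv
    rcases hv with hv | hv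
    · exact ⟨Finset.mem_univ v, k, h1, hv⟩
    · exact ⟨Finset.mem_univ v, j, h2, hv⟩
  rw [Finset.card_union_of_disjoint (hE.disj k j hjk.symm)] at h3
  have h4 : ((V' k).card : ℝ) + ((V' j).card : ℝ) ≤
      ((Finset.univ.filter (fun v => ∃ j, PatE i j ∧ v ∈ V' j)).card : ℝ) := by exact_mod_cast h3
  have h5 := hE.rowsize i
  have h6 := hE.size j
  linarith

theorem e3b_atyp {E F : Finset (Sym2 V)} {t ε τ θ : ℝ} {X : Finset V} {cl : V → Fin 4}
    {V' : Fin 4 → Finset V} (hE : Env3 E t ε τ X cl V')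
    (hF : ∀ x ∈ X, (deg ((E \ host3 E X cl) \ F) x : ℝ) ≤ θ * nV V) (ht : 0 < t)
    (hθ : 3 * ε + θ ≤ t / 10) (hn : 100 / t ≤ nV V) {x : V} (hx : x ∈ X) :
    e3b_two F t V' x := by
  have hnn : (0 : ℝ) ≤ nV V := by positivity
  have h1 : deg E x ≤ deg F x + deg ((E \ host3 E X cl) \ F) x := by
    refine le_trans ?_ (deg_union_le _ _ _)
    unfold deg
    apply Finset.card_le_card
    intro e he
    rw [Finset.mem_filter] at he ⊢
    refine ⟨?_, he.2⟩
    rw [Finset.mem_union]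
    by_cases h : e ∈ F
    · left; exact h
    · right
      rw [Finset.mem_sdiff, Finset.mem_sdiff]
      refine ⟨⟨he.1, fun h' => ?_⟩, h⟩
      exact e3b_host_notMem h' hx he.2
  have h2 := hE.mindeg x
  have h3 := hF x hx
  have h4 := e3b_deg_split F V' x
  have h5 := hE.few
  rw [Fin.sum_univ_four] at h4
  have h1' : (deg E x : ℝ) ≤ deg F x + deg ((E \ host3 E X cl) \ F) x := by exact_mod_cast h1
  have h2' : nV V ≤ 2 * (deg E x : ℝ) + 1 := by exact_mod_cast h2
  have h4' : (deg F x : ℝ) ≤ ((dg F (V' 0) x : ℝ) + dg F (V' 1) x + dg F (V' 2) x +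
      dg F (V' 3) x) + ((Finset.univ \ (Finset.univ.biUnion V')).card : ℝ) := by exact_mod_cast h4
  have h6 : ∀ i, (dg F (V' i) x : ℝ) ≤ (1 / 2 + 2 * ε - t) * nV V := by
    intro i
    refine le_trans ?_ (e3b_class_le hE i)
    unfold dg
    exact_mod_cast Finset.card_filter_le _ _
  have h7 : 100 ≤ t * nV V := by
    rw [div_le_iff₀ ht] at hn
    linarith
  have h8 : (3 * ε + θ) * nV V ≤ t / 10 * nV V := mul_le_mul_of_nonneg_right hθ hnn
  by_contra hcon
  have h9 : ∀ i j : Fin 4, i ≠ j → t / 10 * nV V ≤ (dg F (V' i) x : ℝ) →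
      (dg F (V' j) x : ℝ) < t / 10 * nV V := by
    intro i j hij h
    by_contra h'
    exact hcon ⟨i, j, hij, h, not_lt.1 h'⟩
  have a0 := h6 0
  have a1 := h6 1
  have a2 := h6 2
  have a3 := h6 3
  by_cases b0 : t / 10 * nV V ≤ (dg F (V' 0) x : ℝ)
  · have c1 := h9 0 1 (by decide) b0
    have c2 := h9 0 2 (by decide) b0
    have c3 := h9 0 3 (by decide) b0
    linarith
  by_cases b1 : t / 10 * nV V ≤ (dg F (V' 1) x : ℝ)
  · have c2 := h9 1 2 (by decide) b1
    have c3 := h9 1 3 (by decide) b1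
    linarith
  by_cases b2 : t / 10 * nV V ≤ (dg F (V' 2) x : ℝ)
  · have c3 := h9 2 3 (by decide) b2
    linarith
  · linarith

/-- edges of `F` inside `X` -/
def e3bXX (F : Finset (Sym2 V)) (X : Finset V) : Finset (Sym2 V) :=
  F.filter (fun e => e ∈ X.sym2)

/-- edges of `F` outside `X` -/
def e3bW (F : Finset (Sym2 V)) (X : Finset V) : Finset (Sym2 V) :=
  F.filter (fun e => e ∈ (Finset.univ \ X).sym2)

/-- edges of `F` between `X` and the rest -/
def e3bX (F : Finset (Sym2 V)) (X : Finset V) : Finset (Sym2 V) :=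
  F.filter (fun e => e ∉ X.sym2 ∧ e ∉ (Finset.univ \ X).sym2)

theorem e3b_mem_XX {F : Finset (Sym2 V)} {X : Finset V} {a b : V} :
    s(a, b) ∈ e3bXX F X ↔ s(a, b) ∈ F ∧ a ∈ X ∧ b ∈ X := by
  unfold e3bXX
  rw [Finset.mem_filter, Finset.mk_mem_sym2_iff]

theorem e3b_mem_W {F : Finset (Sym2 V)} {X : Finset V} {a b : V} :
    s(a, b) ∈ e3bW F X ↔ s(a, b) ∈ F ∧ a ∉ X ∧ b ∉ X := by
  unfold e3bW
  rw [Finset.mem_filter, Finset.mk_mem_sym2_iff]
  simp

theorem e3b_mem_X {F : Finset (Sym2 V)} {X : Finset V} {a b : V} :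
    s(a, b) ∈ e3bX F X ↔ s(a, b) ∈ F ∧ ((a ∈ X ∧ b ∉ X) ∨ (a ∉ X ∧ b ∈ X)) := by
  unfold e3bX
  rw [Finset.mem_filter, Finset.mk_mem_sym2_iff, Finset.mk_mem_sym2_iff]
  simp only [Finset.mem_sdiff, Finset.mem_univ, true_and]
  tauto

theorem e3b_union (F : Finset (Sym2 V)) (X : Finset V) :
    F ⊆ e3bXX F X ∪ e3bX F X ∪ e3bW F X := by
  intro e he
  induction e using Sym2.ind with
  | _ a b =>
    rw [Finset.mem_union, Finset.mem_union, e3b_mem_XX, e3b_mem_X, e3b_mem_W]
    tauto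

theorem e3b_XX_sub (F : Finset (Sym2 V)) (X : Finset V) : e3bXX F X ⊆ F :=
  Finset.filter_subset _ _

theorem e3b_X_sub (F : Finset (Sym2 V)) (X : Finset V) : e3bX F X ⊆ F :=
  Finset.filter_subset _ _

theorem e3b_W_sub (F : Finset (Sym2 V)) (X : Finset V) : e3bW F X ⊆ F :=
  Finset.filter_subset _ _

theorem e3b_dXX_X (F : Finset (Sym2 V)) (X : Finset V) : Disjoint (e3bXX F X) (e3bX F X) := by
  rw [Finset.disjoint_left]
  intro e
  induction e using Sym2.ind with
  | _ a b =>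
    rw [e3b_mem_XX, e3b_mem_X]
    tauto

theorem e3b_dXX_W (F : Finset (Sym2 V)) (X : Finset V) : Disjoint (e3bXX F X) (e3bW F X) := by
  rw [Finset.disjoint_left]
  intro e
  induction e using Sym2.ind with
  | _ a b =>
    rw [e3b_mem_XX, e3b_mem_W]
    tauto

theorem e3b_dX_W (F : Finset (Sym2 V)) (X : Finset V) : Disjoint (e3bX F X) (e3bW F X) := by
  rw [Finset.disjoint_left]
  intro e
  induction e using Sym2.ind with
  | _ a b =>
    rw [e3b_mem_X, e3b_mem_W]
    tauto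

theorem e3b_deg_le (G : Finset (Sym2 V)) (x : V) : deg G x ≤ Fintype.card V := by
  rw [deg_eq_dg (U := Finset.univ) (by simp) x]
  unfold dg
  exact Finset.card_filter_le _ _

theorem e3b_card_le (G : Finset (Sym2 V)) (X : Finset V) (h : ∀ e ∈ G, ∃ x ∈ X, x ∈ e) :
    G.card ≤ X.card * Fintype.card V := by
  have h1 : G ⊆ X.biUnion (fun x => G.filter (fun e => x ∈ e)) := by
    intro e he
    obtain ⟨x, hx, hxe⟩ := h e he
    rw [Finset.mem_biUnion]
    exact ⟨x, hx, Finset.mem_filter.2 ⟨he, hxe⟩⟩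
  refine (Finset.card_le_card h1).trans (Finset.card_biUnion_le.trans ?_)
  rw [← smul_eq_mul]
  exact Finset.sum_le_card_nsmul _ _ _ (fun x _ => e3b_deg_le G x)

theorem e3b_card_XX (F : Finset (Sym2 V)) (X : Finset V) :
    (e3bXX F X).card ≤ X.card * Fintype.card V := by
  apply e3b_card_le
  intro e
  induction e using Sym2.ind with
  | _ a b =>
    intro he
    rw [e3b_mem_XX] at he
    exact ⟨a, he.2.1, Sym2.mem_mk_left a b⟩

theorem e3b_card_X (F : Finset (Sym2 V)) (X : Finset V) :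
    (e3bX F X).card ≤ X.card * Fintype.card V := by
  apply e3b_card_le
  intro e
  induction e using Sym2.ind with
  | _ a b =>
    intro he
    rw [e3b_mem_X] at he
    rcases he.2 with h | h
    · exact ⟨a, h.1, Sym2.mem_mk_left a b⟩
    · exact ⟨b, h.2, Sym2.mem_mk_right a b⟩

theorem e3b_card_W {E F : Finset (Sym2 V)} {t ε τ : ℝ} {X : Finset V} {cl : V → Fin 4}
    {V' : Fin 4 → Finset V} (hE : Env3 E t ε τ X cl V') (hl : Loopless E)
    (hF : F ⊆ E \ host3 E X cl) (hε : 0 < ε) :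
    ((e3bW F X).card : ℝ) ≤ 3 * ε * nV V ^ 2 := by
  have hnn : (0 : ℝ) ≤ nV V := by positivity
  have h0 : Loopless (e3bW F X) :=
    hl.mono ((e3b_W_sub F X).trans (hF.trans Finset.sdiff_subset))
  have h1 : ∑ x ∈ (Finset.univ : Finset V), deg (e3bW F X) x = 2 * (e3bW F X).card :=
    sum_deg (by simp) h0
  have h2 : ∀ v ∈ Finset.univ.biUnion V', (deg (e3bW F X) v : ℝ) ≤ 5 * ε * nV V := by
    intro v hv
    rw [Finset.mem_biUnion] at hv
    obtain ⟨i, _, hv⟩ := hv
    have h3 : ∀ j, (dg (e3bW F X) (V' j) v : ℝ) ≤ ε * nV V := by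
      intro j
      by_cases hp : PatE i j
      · have : dg (e3bW F X) (V' j) v = 0 := by
          unfold dg
          rw [Finset.card_eq_zero, Finset.filter_eq_empty_iff]
          intro y hy hvy
          rw [e3b_mem_W] at hvy
          have h4 := Finset.mem_sdiff.1 (hF hvy.1)
          apply h4.2
          rw [e3b_mem_host, hE.cls i v hv, hE.cls j y hy]
          exact ⟨h4.1, hvy.2.1, hvy.2.2, hp⟩
        rw [this]
        push_cast
        positivity
      · refine le_trans ?_ ((hE.strong i v hv).2 j hp)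
        exact_mod_cast dg_mono ((e3b_W_sub F X).trans (hF.trans Finset.sdiff_subset)) (V' j) v
    have h4 := e3b_deg_split (e3bW F X) V' v
    rw [Fin.sum_univ_four] at h4
    have h5 : (deg (e3bW F X) v : ℝ) ≤ ((dg (e3bW F X) (V' 0) v : ℝ) + dg (e3bW F X) (V' 1) v +
        dg (e3bW F X) (V' 2) v + dg (e3bW F X) (V' 3) v) +
        ((Finset.univ \ (Finset.univ.biUnion V')).card : ℝ) := by exact_mod_cast h4
    have h6 := hE.few
    have := h3 0
    have := h3 1
    have := h3 2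
    have := h3 3
    linarith
  have h3 : ∀ v ∈ Finset.univ \ Finset.univ.biUnion V', (deg (e3bW F X) v : ℝ) ≤ nV V := by
    intro v _
    exact_mod_cast e3b_deg_le _ _
  have h4 : ((Finset.univ.biUnion V').card : ℝ) ≤ nV V := by
    exact_mod_cast Finset.card_le_univ _
  have h5 : (∑ x ∈ (Finset.univ : Finset V), (deg (e3bW F X) x : ℝ)) ≤
      ε * nV V * nV V + nV V * (5 * ε * nV V) := by
    rw [← Finset.sum_sdiff (Finset.subset_univ (Finset.univ.biUnion V'))]
    refine add_le_add ?_ ?_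
    · refine (Finset.sum_le_card_nsmul _ _ _ h3).trans ?_
      rw [nsmul_eq_mul]
      exact mul_le_mul_of_nonneg_right hE.few hnn
    · refine (Finset.sum_le_card_nsmul _ _ _ h2).trans ?_
      rw [nsmul_eq_mul]
      exact mul_le_mul_of_nonneg_right h4 (by positivity)
  have h6 : (∑ x ∈ (Finset.univ : Finset V), (deg (e3bW F X) x : ℝ)) =
      2 * ((e3bW F X).card : ℝ) := by exact_mod_cast h1
  nlinarith

theorem e3b_even {F H D : Finset (Sym2 V)} {X : Finset V} (hD : Dec D)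
    (hs : D ⊆ F ∪ H) (hXX : e3bXX F X ⊆ D) (hH : ∀ e ∈ H, ∀ x ∈ X, x ∉ e)
    {x : V} (hx : x ∈ X) (hF : Even (deg F x)) : Even (deg (e3bX F X \ D) x) := by
  have h1 : deg (e3bX F X \ D) x = deg (F \ D) x := by
    unfold deg
    congr 1
    ext e
    simp only [Finset.mem_filter, Finset.mem_sdiff]
    constructor
    · rintro ⟨⟨h1, h2⟩, h3⟩
      exact ⟨⟨e3b_X_sub F X h1, h2⟩, h3⟩
    · rintro ⟨⟨h1, h2⟩, h3⟩
      refine ⟨⟨?_, h2⟩, h3⟩
      have h4 := e3b_union F X h1
      rw [Finset.mem_union, Finset.mem_union] at h4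
      rcases h4 with (h4 | h4) | h4
      · exact absurd (hXX h4) h2
      · exact h4
      · exfalso
        unfold e3bW at h4
        have h5 := (Finset.mem_filter.1 h4).2
        rw [Finset.mem_sym2_iff] at h5
        have := h5 x h3
        rw [Finset.mem_sdiff] at this
        exact this.2 hx
  have h2 : deg (F ∩ D) x = deg D x := by
    unfold deg
    congr 1
    ext e
    simp only [Finset.mem_filter, Finset.mem_inter]
    constructor
    · rintro ⟨⟨h1, h2⟩, h3⟩
      exact ⟨h2, h3⟩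
    · rintro ⟨h2, h3⟩
      refine ⟨⟨?_, h2⟩, h3⟩
      have h4 := hs h2
      rw [Finset.mem_union] at h4
      rcases h4 with h4 | h4
      · exact h4
      · exact absurd h3 (hH e h4 x hx)
  have h3 : deg (F \ D) x + deg (F ∩ D) x = deg F x := by
    rw [← Finset.sdiff_inter_self_left F D]
    exact deg_sdiff Finset.inter_subset_left x
  rw [← h3, Nat.even_add, h2] at hF
  rw [h1]
  exact hF.2 (hD.even x)

theorem e3b_ctr [Nonempty V] (F : Finset (Sym2 V)) (X : Finset V) :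
    ∃ ctr : Sym2 V → V, ∀ e ∈ e3bX F X, ctr e ∈ e ∧ ctr e ∈ X ∧ ∀ x ∈ e, x ∈ X → x = ctr e := by
  have h : ∀ e : Sym2 V, ∃ c : V, e ∈ e3bX F X → c ∈ e ∧ c ∈ X ∧ ∀ x ∈ e, x ∈ X → x = c := by
    intro e
    induction e using Sym2.ind with
    | _ a b =>
      by_cases he : s(a, b) ∈ e3bX F X
      · rw [e3b_mem_X] at he
        rcases he.2 with h | h
        · refine ⟨a, fun _ => ⟨Sym2.mem_mk_left a b, h.1, ?_⟩⟩
          intro x hx hxX
          rw [Sym2.mem_iff] at hx
          rcases hx with rfl | rfl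
          · rfl
          · exact absurd hxX h.2
        · refine ⟨b, fun _ => ⟨Sym2.mem_mk_right a b, h.2, ?_⟩⟩
          intro x hx hxX
          rw [Sym2.mem_iff] at hx
          rcases hx with rfl | rfl
          · exact absurd hxX h.1
          · rfl
      · exact ⟨Classical.arbitrary V, fun h => absurd h he⟩
  choose ctr hctr using h
  exact ⟨ctr, hctr⟩

/-- richness after deleting a sparse set -/
theorem e3b_P4_sdiff (H D : Finset (Sym2 V)) (h r : ℝ) (hr : 0 ≤ r)
    (hD : ∀ p, (deg (D ∩ H) p : ℝ) ≤ r * nV V) {u w : V}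
    (hP : h * ((Finset.univ : Finset V).card : ℝ) ^ 3 ≤ (P4 H Finset.univ u w : ℝ)) :
    (h - 4 * r) * ((Finset.univ : Finset V).card : ℝ) ^ 3 ≤ (P4 (H \ D) Finset.univ u w : ℝ) := by
  have hnn : (0 : ℝ) ≤ nV V := by positivity
  have h1 : ∀ p, deg (D ∩ H) p ≤ ⌊r * nV V⌋₊ := fun p => Nat.le_floor (hD p)
  have h2 := P4_sdiff (S := (Finset.univ : Finset V)) H (D ∩ H) h1 u w
  rw [show H \ (D ∩ H) = H \ D from by
    ext e; simp only [Finset.mem_sdiff, Finset.mem_inter]; tauto] at h2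
  have h3 : (P4 H Finset.univ u w : ℝ) ≤ (P4 (H \ D) Finset.univ u w : ℝ) +
      4 * (⌊r * nV V⌋₊ : ℝ) * ((Finset.univ : Finset V).card : ℝ) ^ 2 := by exact_mod_cast h2
  have h4 : (⌊r * nV V⌋₊ : ℝ) ≤ r * nV V := Nat.floor_le (by positivity)
  have hcard : ((Finset.univ : Finset V).card : ℝ) = nV V := by simp
  rw [hcard] at h3 hP ⊢
  have h5 : 4 * (⌊r * nV V⌋₊ : ℝ) * nV V ^ 2 ≤ 4 * (r * nV V) * nV V ^ 2 :=
    mul_le_mul_of_nonneg_right (by linarith) (by positivity)
  have h6 : 4 * (r * nV V) * nV V ^ 2 = 4 * r * nV V ^ 3 := by ring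
  linarith

end

theorem e3b_main (t : ℝ) (ht : 0 < t) (τ : ℝ) (hτt : τ < t / 8) (ρ : ℝ) (hρ : 0 < ρ)
    (h0 ρ1 γ1 γ3 c ε : ℝ) (N1 N3 : ℕ) (hh0 : h0 = t ^ 3 / 400) (hρ1 : 0 < ρ1) (hρ1' : ρ1 ≤ ρ / 3)
    (hρ1'' : ρ1 ≤ h0 / 16) (hc : c = ρ1 / 8) (hε : 0 < ε) (hε1 : ε ≤ t / 100) (hε2 : ε ≤ γ1)
    (hε3 : ε ≤ γ3 / 3) (hε4 : ε ≤ c) (hε5 : ε ≤ c * h0 / 400)
    (hcov1 : ∀ (V : Type) [Fintype V] [DecidableEq V] (U S : Finset V)
      (H F : Finset (Sym2 V)), N1 ≤ U.card → S ⊆ U → 1 * (U.card : ℝ) ≤ (S.card : ℝ) →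
      H ⊆ U.sym2 → F ⊆ U.sym2 → Loopless H → Loopless F → Disjoint F H →
      (F.card : ℝ) ≤ γ1 * (U.card : ℝ) ^ 2 →
      (∀ v u w, s(v, u) ∈ F ∪ H → s(v, w) ∈ F ∪ H →
        h0 * (S.card : ℝ) ^ 3 ≤ (P4 H S u w : ℝ)) →
      ∃ D : Finset (Sym2 V), Dec D ∧ F ⊆ D ∧ D ⊆ F ∪ H ∧
        ∀ p, (deg (D ∩ H) p : ℝ) ≤ ρ1 * U.card)
    (hcov3 : ∀ (V : Type) [Fintype V] [DecidableEq V] (U S : Finset V)
      (H F : Finset (Sym2 V)), N3 ≤ U.card → S ⊆ U → 1 * (U.card : ℝ) ≤ (S.card : ℝ) →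
      H ⊆ U.sym2 → F ⊆ U.sym2 → Loopless H → Loopless F → Disjoint F H →
      (F.card : ℝ) ≤ γ3 * (U.card : ℝ) ^ 2 →
      (∀ v u w, s(v, u) ∈ F ∪ H → s(v, w) ∈ F ∪ H →
        (h0 / 2) * (S.card : ℝ) ^ 3 ≤ (P4 H S u w : ℝ)) →
      ∃ D : Finset (Sym2 V), Dec D ∧ F ⊆ D ∧ D ⊆ F ∪ H ∧
        ∀ p, (deg (D ∩ H) p : ℝ) ≤ ρ / 3 * U.card)
    (V : Type) [Fintype V] [DecidableEq V]
    (E F H : Finset (Sym2 V)) (X : Finset V) (cl : V → Fin 4) (V' : Fin 4 → Finset V)
    (hn1 : N1 ≤ Fintype.card V) (hn3 : N3 ≤ Fintype.card V) (hn4 : 100 / t ≤ nV V)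
    (hn5 : 1000 / h0 ≤ nV V) (hn6 : 8 / ρ1 ≤ nV V) (hl : Loopless E) (hE : Env3 E t ε τ X cl V')
    (hF : F ⊆ E \ host3 E X cl) (hH : H ⊆ host3 E X cl)
    (hHd : ∀ v, (deg (host3 E X cl \ H) v : ℝ) ≤ t / 100 * nV V)
    (hFd : ∀ x ∈ X, (deg ((E \ host3 E X cl) \ F) x : ℝ) ≤ t / 100 * nV V)
    (hev : ∀ x ∈ X, Even (deg F x)) :
    ∃ D : Finset (Sym2 V), Dec D ∧ F ⊆ D ∧ D ⊆ F ∪ H ∧ ∀ v, (deg (D ∩ H) v : ℝ) ≤ ρ * nV V := by
  classical
  have hh0' : 0 < h0 := by rw [hh0]; positivity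
  have hnn : (0 : ℝ) ≤ nV V := by positivity
  have hnpos : (0 : ℝ) < nV V := lt_of_lt_of_le (by positivity) hn4
  have hne : Nonempty V := by
    rw [← Fintype.card_pos_iff]
    exact_mod_cast hnpos
  have hcard : ((Finset.univ : Finset V).card : ℝ) = nV V := by simp
  have hcpos : 0 < c := by rw [hc]; positivity
  -- size of X
  have hX : (X.card : ℝ) ≤ ε * nV V := by
    refine le_trans ?_ hE.few
    have : X ⊆ Finset.univ \ Finset.univ.biUnion V' := by
      intro x hx
      rw [Finset.mem_sdiff, Finset.mem_biUnion]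
      refine ⟨Finset.mem_univ x, ?_⟩
      rintro ⟨i, _, hi⟩
      exact Finset.disjoint_left.1 (hE.subX i) hi hx
    exact_mod_cast Finset.card_le_card this
  have hHX : ∀ e ∈ H, ∀ x ∈ X, x ∉ e := fun e he x hx => e3b_host_notMem (hH he) hx
  have hFE : F ⊆ E := hF.trans Finset.sdiff_subset
  have hHE : H ⊆ E := fun e he => e3b_host_sub (hH he)
  have hFH : Disjoint F H := by
    rw [Finset.disjoint_left]
    intro e he he'
    exact (Finset.mem_sdiff.1 (hF he)).2 (hH he')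
  have hlF : Loopless F := hl.mono hFE
  have hlH : Loopless H := hl.mono hHE
  set FXX := e3bXX F X with hFXX
  set FX := e3bX F X with hFX
  set FW := e3bW F X with hFW
  -- richness
  have htyp : ∀ u, u ∉ X → e3b_two H t V' u := fun u hu =>
    e3b_typ hE hHd hu (by linarith)
  have hatyp : ∀ u, u ∈ X → e3b_two (H ∪ FX) t V' u := by
    intro u hu
    obtain ⟨i, j, hij, h1, h2⟩ := e3b_atyp hE hFd ht (by linarith) hn4 hu
    have key : ∀ i, dg F (V' i) u ≤ dg (H ∪ FX) (V' i) u := by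
      intro i
      unfold dg
      apply Finset.card_le_card
      intro y hy
      rw [Finset.mem_filter] at hy ⊢
      refine ⟨hy.1, Finset.mem_union_right _ ?_⟩
      rw [hFX, e3b_mem_X]
      exact ⟨hy.2, Or.inl ⟨hu, Finset.disjoint_left.1 (hE.subX i) hy.1⟩⟩
    exact ⟨i, j, hij, h1.trans (by exact_mod_cast key i), h2.trans (by exact_mod_cast key j)⟩
  have hrichH : ∀ u w, u ∉ X → w ∉ X →
      h0 * ((Finset.univ : Finset V).card : ℝ) ^ 3 ≤ (P4 H Finset.univ u w : ℝ) := by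
    intro u w hu hw
    rw [hh0]
    exact e3b_rich hE hHd ht (by linarith) (Finset.Subset.refl H) hn4 (htyp u hu) (htyp w hw)
  have hrichG : ∀ u w,
      h0 * ((Finset.univ : Finset V).card : ℝ) ^ 3 ≤ (P4 (H ∪ FX) Finset.univ u w : ℝ) := by
    intro u w
    have h1 : ∀ u, e3b_two (H ∪ FX) t V' u := by
      intro u
      by_cases hu : u ∈ X
      · exact hatyp u hu
      · exact e3b_two_mono Finset.subset_union_left (htyp u hu)
    rw [hh0]
    exact e3b_rich hE hHd ht (by linarith) Finset.subset_union_left hn4 (h1 u) (h1 w)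
  -- step 1
  have hXXc : (FXX.card : ℝ) ≤ ε * nV V ^ 2 := by
    have h1 : (FXX.card : ℝ) ≤ (X.card : ℝ) * nV V := by exact_mod_cast e3b_card_XX F X
    nlinarith
  have hXc : (FX.card : ℝ) ≤ ε * nV V ^ 2 := by
    have h1 : (FX.card : ℝ) ≤ (X.card : ℝ) * nV V := by exact_mod_cast e3b_card_X F X
    nlinarith
  obtain ⟨D1, hD1, hD1a, hD1b, hD1c⟩ := hcov1 V Finset.univ Finset.univ (H ∪ FX) FXX
    (by rw [Finset.card_univ]; exact hn1) (Finset.Subset.refl _) (by rw [one_mul]) (by simp)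
    (by simp) (hlH.union (hlF.mono (e3b_X_sub F X))) (hlF.mono (e3b_XX_sub F X))
    (by
      rw [Finset.disjoint_union_right]
      exact ⟨hFH.mono_left (e3b_XX_sub F X), e3b_dXX_X F X⟩)
    (by
      rw [hcard]
      exact hXXc.trans (mul_le_mul_of_nonneg_right hε2 (by positivity)))
    (fun v u w _ _ => hrichG u w)
  rw [hcard] at hD1c
  have hD1s : D1 ⊆ F ∪ H := by
    refine hD1b.trans (Finset.union_subset ((e3b_XX_sub F X).trans Finset.subset_union_left)
      (Finset.union_subset Finset.subset_union_right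
        ((e3b_X_sub F X).trans Finset.subset_union_left)))
  have hD1H : ∀ p, (deg (D1 ∩ H) p : ℝ) ≤ ρ1 * nV V := by
    intro p
    refine le_trans ?_ (hD1c p)
    exact_mod_cast deg_mono (Finset.inter_subset_inter_left Finset.subset_union_left) p
  -- step 2
  obtain ⟨ctr, hctr⟩ := e3b_ctr F X
  set q := ⌈c * nV V⌉₊ with hq
  have hq1 : c * nV V ≤ (q : ℝ) := Nat.le_ceil _
  have hq2 : (q : ℝ) ≤ c * nV V + 1 := (Nat.ceil_lt_add_one (by positivity)).le
  have hq3 : 1 ≤ q := by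
    rw [Nat.one_le_iff_ne_zero, ← Nat.pos_iff_ne_zero, hq, Nat.ceil_pos]
    positivity
  have hn5' : 1000 ≤ h0 * nV V := by
    rw [div_le_iff₀ hh0'] at hn5
    linarith
  have hn6' : 8 ≤ ρ1 * nV V := by
    rw [div_le_iff₀ hρ1] at hn6
    linarith
  have hrich2 : ∀ u w, u ∉ X → w ∉ X →
      h0 / 2 * ((Finset.univ : Finset V).card : ℝ) ^ 3 ≤ (P4 (H \ D1) Finset.univ u w : ℝ) := by
    intro u w hu hw
    refine le_trans ?_ (e3b_P4_sdiff H D1 h0 ρ1 hρ1.le hD1H (hrichH u w hu hw))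
    apply mul_le_mul_of_nonneg_right _ (by positivity)
    linarith
  have hnum : 18 * ((FX \ D1).card : ℝ) / q + 12 * (X.card : ℕ) + 12 * q + 8 <
      h0 / 2 * ((Finset.univ : Finset V).card : ℝ) := by
    rw [hcard]
    have h1 : ((FX \ D1).card : ℝ) ≤ ε * nV V ^ 2 := by
      refine le_trans ?_ hXc
      exact_mod_cast Finset.card_le_card Finset.sdiff_subset
    have hqpos : (0 : ℝ) < q := lt_of_lt_of_le (by positivity) hq1
    have h2 : 18 * ((FX \ D1).card : ℝ) / q ≤ 18 / 400 * (h0 * nV V) := by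
      rw [div_le_iff₀ hqpos]
      have h3 : ε * nV V ^ 2 ≤ c * h0 / 400 * nV V ^ 2 :=
        mul_le_mul_of_nonneg_right hε5 (by positivity)
      have h4 : 18 / 400 * (h0 * nV V) * (c * nV V) ≤ 18 / 400 * (h0 * nV V) * q :=
        mul_le_mul_of_nonneg_left hq1 (by positivity)
      have h5 : 18 / 400 * (h0 * nV V) * (c * nV V) = 18 * (c * h0 / 400 * nV V ^ 2) := by ring
      linarith
    have h3 : (X.card : ℝ) ≤ c * nV V := hX.trans (mul_le_mul_of_nonneg_right hε4 hnn)
    have h4 : c * nV V ≤ 1 / 128 * (h0 * nV V) := by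
      have : c ≤ 1 / 128 * h0 := by rw [hc]; linarith
      have h5 := mul_le_mul_of_nonneg_right this hnn
      linarith
    linarith
  obtain ⟨D2, hD2, hD2a, hD2b, hD2c⟩ := cherry_cover Finset.univ (H \ D1) (FX \ D1) ctr (h0 / 2)
    X.card q hq3 (hlH.mono Finset.sdiff_subset)
    (hlF.mono (Finset.sdiff_subset.trans (e3b_X_sub F X)))
    (Disjoint.mono (Finset.sdiff_subset.trans (e3b_X_sub F X)) Finset.sdiff_subset hFH)
    (fun f hf => (hctr f (Finset.sdiff_subset hf)).1)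
    (by
      intro v
      by_cases hv : v ∈ X
      · have h1 := e3b_even hD1 hD1s hD1a hHX hv (hev v hv)
        unfold deg at h1
        rw [show (FX \ D1).filter (fun f => ctr f = v) = (FX \ D1).filter (fun e => v ∈ e) from ?_]
        · exact h1
        · apply Finset.filter_congr
          intro f hf
          have h2 := hctr f (Finset.sdiff_subset hf)
          constructor
          · rintro rfl
            exact h2.1
          · intro h3
            exact (h2.2.2 v h3 hv).symm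
      · rw [Finset.filter_false_of_mem]
        · simp
        · intro f hf h1
          exact hv (h1 ▸ (hctr f (Finset.sdiff_subset hf)).2.1))
    (by
      intro v u w _ h1 h2 h3 h4
      have h5 := hctr _ (Finset.sdiff_subset h1)
      rw [h3] at h5
      have h6 := Finset.sdiff_subset h1
      have h7 := Finset.sdiff_subset h2
      rw [e3b_mem_X] at h6 h7
      have hu : u ∉ X := by
        rcases h6.2 with h | h
        · exact absurd h5.2.1 h.2
        · exact h.1
      have hw : w ∉ X := by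
        rcases h7.2 with h | h
        · exact h.2
        · exact absurd h5.2.1 h.1
      exact hrich2 u w hu hw)
    (by
      intro p
      have h1 : (FX \ D1).filter (fun f => p ∈ f ∧ ctr f ≠ p) ⊆ X.image (fun x => s(p, x)) := by
        intro f hf
        rw [Finset.mem_filter] at hf
        have h2 := hctr f (Finset.sdiff_subset hf.1)
        rw [Finset.mem_image]
        refine ⟨ctr f, h2.2.1, ?_⟩
        exact ((Sym2.mem_and_mem_iff hf.2.2.symm).1 ⟨hf.2.1, h2.1⟩).symm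
      exact (Finset.card_le_card h1).trans Finset.card_image_le)
    hnum
  have hD12 : Disjoint D1 D2 := by
    rw [Finset.disjoint_left]
    intro e h1 h2
    have h3 := hD2b h2
    rw [Finset.mem_union, Finset.mem_sdiff, Finset.mem_sdiff] at h3
    rcases h3 with h3 | h3
    · exact h3.2 h1
    · exact h3.2 h1
  have hD2s : D2 ⊆ FX ∪ H := by
    refine hD2b.trans (Finset.union_subset (Finset.sdiff_subset.trans Finset.subset_union_left)
      (Finset.sdiff_subset.trans Finset.subset_union_right))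
  have hD2H : ∀ p, (deg (D2 ∩ H) p : ℝ) ≤ ρ1 * nV V := by
    intro p
    have h1 : D2 ∩ H ⊆ D2 ∩ (H \ D1) := by
      intro e he
      rw [Finset.mem_inter] at he ⊢
      exact ⟨he.1, Finset.mem_sdiff.2 ⟨he.2, fun h => Finset.disjoint_left.1 hD12 h he.1⟩⟩
    have h2 : deg (D2 ∩ H) p ≤ 2 * (X.card + q) := (deg_mono h1 p).trans (hD2c p)
    have h3 : (deg (D2 ∩ H) p : ℝ) ≤ 2 * ((X.card : ℝ) + q) := by exact_mod_cast h2
    have h4 : (X.card : ℝ) ≤ c * nV V := hX.trans (mul_le_mul_of_nonneg_right hε4 hnn)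
    have h5 : c * nV V = 1 / 8 * (ρ1 * nV V) := by rw [hc]; ring
    linarith
  have hrich3 : ∀ u w, u ∉ X → w ∉ X →
      h0 / 2 * ((Finset.univ : Finset V).card : ℝ) ^ 3 ≤
        (P4 (H \ (D1 ∪ D2)) Finset.univ u w : ℝ) := by
    intro u w hu hw
    refine le_trans ?_ (e3b_P4_sdiff H (D1 ∪ D2) h0 (2 * ρ1) (by positivity) ?_
      (hrichH u w hu hw))
    · apply mul_le_mul_of_nonneg_right _ (by positivity)
      linarith
    · intro p
      have h1 : deg ((D1 ∪ D2) ∩ H) p ≤ deg (D1 ∩ H) p + deg (D2 ∩ H) p := by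
        rw [Finset.union_inter_distrib_right]
        exact deg_union_le _ _ _
      have h2 : (deg ((D1 ∪ D2) ∩ H) p : ℝ) ≤ deg (D1 ∩ H) p + deg (D2 ∩ H) p := by
        exact_mod_cast h1
      have h3 := hD1H p
      have h4 := hD2H p
      linarith
  -- step 3
  obtain ⟨D3, hD3, hD3a, hD3b, hD3c⟩ := hcov3 V Finset.univ Finset.univ (H \ (D1 ∪ D2)) FW
    (by rw [Finset.card_univ]; exact hn3) (Finset.Subset.refl _) (by rw [one_mul]) (by simp)
    (by simp) (hlH.mono Finset.sdiff_subset) (hlF.mono (e3b_W_sub F X))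
    (Disjoint.mono (e3b_W_sub F X) Finset.sdiff_subset hFH)
    (by
      rw [hcard]
      refine (e3b_card_W hE hl hF hε).trans (mul_le_mul_of_nonneg_right ?_ (by positivity))
      linarith)
    (by
      intro v u w h1 h2
      have key : ∀ u, s(v, u) ∈ FW ∪ (H \ (D1 ∪ D2)) → u ∉ X := by
        intro u h
        rw [Finset.mem_union] at h
        rcases h with h | h
        · rw [hFW, e3b_mem_W] at h
          exact h.2.2
        · intro hu
          exact hHX _ (Finset.sdiff_subset h) u hu (Sym2.mem_mk_right v u)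
      exact hrich3 u w (key u h1) (key w h2))
  rw [hcard] at hD3c
  have hD123 : Disjoint (D1 ∪ D2) D3 := by
    rw [Finset.disjoint_left]
    intro e h1 h2
    have h3 := hD3b h2
    rw [Finset.mem_union] at h3
    rcases h3 with h3 | h3
    · rw [Finset.mem_union] at h1
      rcases h1 with h1 | h1
      · have h4 := hD1b h1
        rw [Finset.mem_union, Finset.mem_union] at h4
        rcases h4 with h4 | h4 | h4
        · exact Finset.disjoint_left.1 (e3b_dXX_W F X) h4 h3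
        · exact Finset.disjoint_left.1 hFH (e3b_W_sub F X h3) h4
        · exact Finset.disjoint_left.1 (e3b_dX_W F X) h4 h3
      · have h4 := hD2s h1
        rw [Finset.mem_union] at h4
        rcases h4 with h4 | h4
        · exact Finset.disjoint_left.1 (e3b_dX_W F X) h4 h3
        · exact Finset.disjoint_left.1 hFH (e3b_W_sub F X h3) h4
    · exact (Finset.mem_sdiff.1 h3).2 h1
  refine ⟨D1 ∪ D2 ∪ D3, (hD1.union hD2 hD12).union hD3 hD123, ?_, ?_, ?_⟩
  · intro e he
    have h1 := e3b_union F X he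
    rw [Finset.mem_union, Finset.mem_union] at h1
    rw [Finset.mem_union, Finset.mem_union]
    rcases h1 with (h1 | h1) | h1
    · exact Or.inl (Or.inl (hD1a h1))
    · by_cases h2 : e ∈ D1
      · exact Or.inl (Or.inl h2)
      · exact Or.inl (Or.inr (hD2a (Finset.mem_sdiff.2 ⟨h1, h2⟩)))
    · exact Or.inr (hD3a h1)
  · refine Finset.union_subset (Finset.union_subset hD1s (hD2s.trans
      (Finset.union_subset_union_left (e3b_X_sub F X)))) (hD3b.trans ?_)
    exact Finset.union_subset_union (e3b_W_sub F X) Finset.sdiff_subset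
  · intro p
    have h1 : deg ((D1 ∪ D2 ∪ D3) ∩ H) p ≤
        deg (D1 ∩ H) p + deg (D2 ∩ H) p + deg (D3 ∩ H) p := by
      rw [Finset.union_inter_distrib_right, Finset.union_inter_distrib_right]
      exact (deg_union_le _ _ _).trans (Nat.add_le_add_right (deg_union_le _ _ _) _)
    have h2 : D3 ∩ H ⊆ D3 ∩ (H \ (D1 ∪ D2)) := by
      intro e he
      rw [Finset.mem_inter] at he ⊢
      exact ⟨he.1, Finset.mem_sdiff.2 ⟨he.2, fun h => Finset.disjoint_left.1 hD123 h he.1⟩⟩
    have h3 : (deg (D3 ∩ H) p : ℝ) ≤ ρ / 3 * nV V := by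
      refine le_trans ?_ (hD3c p)
      exact_mod_cast deg_mono h2 p
    have h4 : (deg ((D1 ∪ D2 ∪ D3) ∩ H) p : ℝ) ≤
        deg (D1 ∩ H) p + deg (D2 ∩ H) p + deg (D3 ∩ H) p := by exact_mod_cast h1
    have h5 := hD1H p
    have h6 := hD2H p
    have h7 : ρ1 * nV V ≤ ρ / 3 * nV V := mul_le_mul_of_nonneg_right hρ1' hnn
    linarith

theorem cover3 (t : ℝ) (ht : 0 < t) (τ : ℝ) (hτ : 0 < τ) (hτt : τ < t / 8) (ρ : ℝ) (hρ : 0 < ρ) :
    ∃ ε θ : ℝ, 0 < ε ∧ 0 < θ ∧ ∃ n0 : ℕ, ∀ (V : Type) [Fintype V] [DecidableEq V]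
      (E F H : Finset (Sym2 V)) (X : Finset V) (cl : V → Fin 4) (V' : Fin 4 → Finset V),
      n0 ≤ Fintype.card V → Loopless E → Env3 E t ε τ X cl V' →
      F ⊆ E \ host3 E X cl → H ⊆ host3 E X cl →
      (∀ v, (deg (host3 E X cl \ H) v : ℝ) ≤ θ * nV V) →
      (∀ x ∈ X, (deg ((E \ host3 E X cl) \ F) x : ℝ) ≤ θ * nV V) →
      (∀ x ∈ X, Even (deg F x)) →
      ∃ D : Finset (Sym2 V), Dec D ∧ F ⊆ D ∧ D ⊆ F ∪ H ∧ ∀ v, (deg (D ∩ H) v : ℝ) ≤ ρ * nV V := by
  have hh0 : 0 < t ^ 3 / 400 := by positivity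
  set h0 := t ^ 3 / 400 with hh0e
  have hρ1 : 0 < min (ρ / 3) (h0 / 16) := lt_min (by positivity) (by positivity)
  set ρ1 := min (ρ / 3) (h0 / 16) with hρ1e
  obtain ⟨γ1, hγ1, N1, hcov1⟩ := cover_sparse h0 1 ρ1 hh0 one_pos hρ1
  obtain ⟨γ3, hγ3, N3, hcov3⟩ := cover_sparse (h0 / 2) 1 (ρ / 3) (by positivity) one_pos
    (by positivity)
  set c := ρ1 / 8 with hc
  have hcpos : 0 < c := by rw [hc]; positivity
  have hε : 0 < min (min (t / 100) γ1) (min (γ3 / 3) (min c (c * h0 / 400))) :=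
    lt_min (lt_min (by positivity) hγ1) (lt_min (by positivity) (lt_min hcpos (by positivity)))
  refine ⟨min (min (t / 100) γ1) (min (γ3 / 3) (min c (c * h0 / 400))), t / 100, hε,
    by positivity, N1 + N3 + ⌈100 / t⌉₊ + ⌈1000 / h0⌉₊ + ⌈8 / ρ1⌉₊, ?_⟩
  intro V _ _ E F H X cl V' hn hl hE hF hH hHd hFd hev
  have hle : ∀ x : ℝ, ⌈x⌉₊ ≤ Fintype.card V → x ≤ nV V := fun x hx =>
    (Nat.le_ceil x).trans (by exact_mod_cast hx)
  exact e3b_main t ht τ hτt ρ hρ h0 ρ1 γ1 γ3 c _ N1 N3 hh0e hρ1 (min_le_left _ _)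
    (min_le_right _ _) hc hε ((min_le_left _ _).trans (min_le_left _ _))
    ((min_le_left _ _).trans (min_le_right _ _)) ((min_le_right _ _).trans (min_le_left _ _))
    ((min_le_right _ _).trans ((min_le_right _ _).trans (min_le_left _ _)))
    ((min_le_right _ _).trans ((min_le_right _ _).trans (min_le_right _ _))) hcov1 hcov3
    V E F H X cl V' (by omega) (by omega) (hle _ (by omega)) (hle _ (by omega))
    (hle _ (by omega)) hl hE hF hH hHd hFd hev

end H15C6
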