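import Pool.Agent.H15.C6.E3B
import Pool.Agent.H15.C6.NCT3

/-!
Module E3C.  Extremal case 3, conclusion.
`τ3` from `e3t (t/2)`; `τ := min (τ3/8) (t/16)`, `ρ := τ3/8`.  `prep3` and `switch3` give `C0, C1`.
`F := (E \ host) \ C0` (`= (E \ host) \ C1`), `H := host \ (C0 ∪ C1)`; degrees of `F` at `x ∈ X` are even
(`deg E x` even, no host edge at `x`, `C0 \ host` even at `x`).  `cover3` gives `D`.
`G_j := (host \ D) \ C_j`, `j = 0, 1`; `E = D ⊔ C_j ⊔ G_j`, so `G_j` has even degrees and `6 ∣ |G_j|`; the numbers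
`nV1 G_0`, `nV1 G_1` have different parity, choose the even one and apply `e3t` with `U := univ \ X`.
(Missing pattern neighbours in `U` of a typical vertex: at most `2 τ n + ε n + ρ n + 2`.)
-/

open Finset

namespace H15C6

theorem e3c_mono {V : Type} [Fintype V] [DecidableEq V] {E : Finset (Sym2 V)} {t ε ε' τ : ℝ}
    {X : Finset V} {cl : V → Fin 4} {V' : Fin 4 → Finset V} (h : Env3 E t ε τ X cl V')
    (hε : ε ≤ ε') : Env3 E t ε' τ X cl V' := by
  have hn : (0 : ℝ) ≤ nV V := Nat.cast_nonneg _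
  refine ⟨h.disj, h.subX, h.cls, h.size, ?_, ?_, ?_, h.typical, h.atyp, h.mindeg⟩
  · exact h.few.trans (mul_le_mul_of_nonneg_right hε hn)
  · intro i
    exact (h.rowsize i).trans (mul_le_mul_of_nonneg_right (by linarith) hn)
  · intro i v hv
    refine ⟨fun j hj => ((h.strong i v hv).1 j hj).trans (mul_le_mul_of_nonneg_right hε hn),
      fun j hj => ((h.strong i v hv).2 j hj).trans (mul_le_mul_of_nonneg_right hε hn)⟩

theorem e3c_nV1_union {V : Type} [DecidableEq V] (cl : V → Fin 4) {E F : Finset (Sym2 V)}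
    (h : Disjoint E F) : nV1 cl (E ∪ F) = nV1 cl E + nV1 cl F := by
  unfold nV1
  rw [Finset.filter_union, Finset.card_union_of_disjoint (Finset.disjoint_filter_filter h)]

theorem e3c_pat : ∀ a b : Fin 4, (s(a, b) ∈
    ({s(0, 0), s(3, 3), s(0, 1), s(1, 2), s(2, 3)} : Finset (Sym2 (Fin 4)))) ↔ PatE a b := by
  decide

theorem e3c_host {V : Type} [DecidableEq V] {E : Finset (Sym2 V)} {X : Finset V}
    {cl : V → Fin 4} {x y : V} : s(x, y) ∈ host3 E X cl ↔
      s(x, y) ∈ E ∧ (x ∉ X ∧ y ∉ X) ∧ PatE (cl x) (cl y) := by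
  unfold host3
  rw [Finset.mem_filter, Sym2.map_mk, e3c_pat]
  constructor
  · rintro ⟨h1, h2, h3⟩
    exact ⟨h1, ⟨fun hx => h2 x hx (Sym2.mem_mk_left x y), fun hy => h2 y hy (Sym2.mem_mk_right x y)⟩,
      h3⟩
  · rintro ⟨h1, ⟨h2, h2'⟩, h3⟩
    refine ⟨h1, fun z hz hze => ?_, h3⟩
    rw [Sym2.mem_iff] at hze
    rcases hze with rfl | rfl
    · exact h2 hz
    · exact h2' hz

theorem e3c_host_sub {V : Type} [DecidableEq V] (E : Finset (Sym2 V)) (X : Finset V)
    (cl : V → Fin 4) : host3 E X cl ⊆ E := Finset.filter_subset _ _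

theorem e3c_host_deg {V : Type} [DecidableEq V] {E : Finset (Sym2 V)} {X : Finset V}
    {cl : V → Fin 4} {x : V} (hx : x ∈ X) : deg (host3 E X cl) x = 0 := by
  unfold deg
  rw [Finset.card_eq_zero, Finset.filter_eq_empty_iff]
  intro e he hxe
  unfold host3 at he
  exact (Finset.mem_filter.1 he).2.1 x hx hxe

theorem e3c_deg_le {V : Type} [DecidableEq V] {C : Finset (Sym2 V)} (h : IsC6 C) (x : V) :
    deg C x ≤ 2 := by
  obtain ⟨v, hv, rfl⟩ := h
  by_cases hx : ∃ i, v i = x
  · obtain ⟨i, rfl⟩ := hx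
    rw [deg_cyc_mem hv]
  · rw [deg_cyc_notMem (fun i hi => hx ⟨i, hi⟩)]
    omega

/-- the number of vertices joined to `x` by an edge of `F` -/
theorem e3c_nbr {V : Type} [Fintype V] [DecidableEq V] (F : Finset (Sym2 V)) (x : V) :
    (Finset.univ.filter (fun y => s(x, y) ∈ F)).card ≤ deg F x :=
  dg_le_deg F Finset.univ x

/-- the last step for one of the two cycles -/
theorem e3c_last {V : Type} [Fintype V] [DecidableEq V] {E D C F H : Finset (Sym2 V)}
    {t ε τ ρ τ3 : ℝ} {X : Finset V} {cl : V → Fin 4} {V' : Fin 4 → Finset V} {n3 : ℕ}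
    (ht : 0 < t) (hτ3 : 0 < τ3) (hε : 0 < ε) (hε1 : ε ≤ 1 / 8) (hε2 : ε ≤ τ3 / 8)
    (hτ : τ ≤ τ3 / 8) (hρ : ρ ≤ τ3 / 8)
    (h3 : ∀ (U : Finset V) (E : Finset (Sym2 V)) (cl : V → Fin 4), n3 ≤ U.card → E ⊆ U.sym2 →
      Loopless E → EvenDeg E → 6 ∣ E.card → (∀ x y, s(x, y) ∈ E → PatE (cl x) (cl y)) →
      (∀ i : Fin 4, t / 2 * U.card ≤ ((U.filter (fun x => cl x = i)).card : ℝ)) →
      (∀ x ∈ U, ((U.filter (fun y => PatE (cl x) (cl y) ∧ s(x, y) ∉ E)).card : ℝ) ≤ τ3 * U.card) →
      Even (nV1 cl E) → Dec E)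
    (hn : 2 * n3 ≤ Fintype.card V) (hn2 : 2 ≤ τ3 / 8 * nV V)
    (hl : Loopless E) (he : EvenDeg E) (h6 : 6 ∣ E.card) (henv : Env3 E t ε τ X cl V')
    (hD : Dec D) (hDE : D ⊆ F ∪ H) (hF : F ⊆ E \ host3 E X cl) (hH : H ⊆ host3 E X cl)
    (hdeg : ∀ v, (deg (D ∩ H) v : ℝ) ≤ ρ * nV V) (hC : IsC6 C) (hCE : C ⊆ E)
    (hFC : Disjoint F C) (hHC : Disjoint H C)
    (hFD : (E \ host3 E X cl) \ C ⊆ D)
    (hev : Even (nV1 cl ((host3 E X cl \ D) \ C))) : Dec E := by
  set host := host3 E X cl with hhost
  set G := (host \ D) \ C with hG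
  have hhE : host ⊆ E := e3c_host_sub E X cl
  have hDE' : D ⊆ E := by
    intro e he
    rcases Finset.mem_union.1 (hDE he) with h | h
    · exact (Finset.mem_sdiff.1 (hF h)).1
    · exact hhE (hH h)
  have hDC : Disjoint D C := by
    rw [Finset.disjoint_left]
    intro e he heC
    rcases Finset.mem_union.1 (hDE he) with h | h
    · exact Finset.disjoint_left.1 hFC h heC
    · exact Finset.disjoint_left.1 hHC h heC
  have hGE : G = (E \ D) \ C := by
    ext e
    simp only [hG, Finset.mem_sdiff]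
    constructor
    · rintro ⟨⟨h1, h2⟩, h4⟩
      exact ⟨⟨hhE h1, h2⟩, h4⟩
    · rintro ⟨⟨h1, h2⟩, h4⟩
      refine ⟨⟨?_, h2⟩, h4⟩
      by_contra hc
      exact h2 (hFD (Finset.mem_sdiff.2 ⟨Finset.mem_sdiff.2 ⟨h1, hc⟩, h4⟩))
  have hCD : C ⊆ E \ D := fun e he => Finset.mem_sdiff.2 ⟨hCE he, fun hd =>
    Finset.disjoint_left.1 hDC hd he⟩
  have hEG : E = (D ∪ C) ∪ G := by
    rw [hGE]
    ext e
    simp only [Finset.mem_union, Finset.mem_sdiff]
    constructor
    · intro h
      by_cases h1 : e ∈ D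
      · exact Or.inl (Or.inl h1)
      · by_cases h2 : e ∈ C
        · exact Or.inl (Or.inr h2)
        · exact Or.inr ⟨⟨h, h1⟩, h2⟩
    · rintro ((h | h) | h)
      · exact hDE' h
      · exact hCE h
      · exact h.1.1
  have hdisj : Disjoint (D ∪ C) G := by
    rw [Finset.disjoint_left]
    intro e he heG
    rw [hG, Finset.mem_sdiff, Finset.mem_sdiff] at heG
    rcases Finset.mem_union.1 he with h | h
    · exact heG.1.2 h
    · exact heG.2 h
  have hnn : (0 : ℝ) ≤ nV V := Nat.cast_nonneg _
  -- the set `X` is small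
  have hX : (X.card : ℝ) ≤ ε * nV V := by
    refine le_trans ?_ henv.few
    norm_cast
    apply Finset.card_le_card
    intro x hx
    rw [Finset.mem_sdiff]
    refine ⟨Finset.mem_univ x, fun h => ?_⟩
    rw [Finset.mem_biUnion] at h
    obtain ⟨i, _, hi⟩ := h
    exact Finset.disjoint_left.1 (henv.subX i) hi hx
  set U : Finset V := Finset.univ \ X with hU
  have hUc : (U.card : ℝ) + X.card = nV V := by
    have h1 : U.card + X.card = Fintype.card V := by
      rw [hU, Finset.card_sdiff_add_card_eq_card (Finset.subset_univ X), Finset.card_univ]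
    have h2 : ((U.card + X.card : ℕ) : ℝ) = ((Fintype.card V : ℕ) : ℝ) := by rw [h1]
    push_cast at h2
    exact h2
  have hU78 : 7 / 8 * nV V ≤ (U.card : ℝ) := by
    have : ε * nV V ≤ 1 / 8 * nV V := mul_le_mul_of_nonneg_right hε1 hnn
    linarith
  have hUn : (U.card : ℝ) ≤ nV V := by
    have : (0 : ℝ) ≤ X.card := Nat.cast_nonneg _
    linarith
  have hmemU : ∀ x, x ∈ U ↔ x ∉ X := by
    intro x; rw [hU, Finset.mem_sdiff]; simp
  have hDecG : Dec G := by
    refine h3 U G cl ?_ ?_ ?_ ?_ ?_ ?_ ?_ ?_ hev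
    · have h1 : ((2 * n3 : ℕ) : ℝ) ≤ nV V := by exact_mod_cast hn
      push_cast at h1
      have h2 : (n3 : ℝ) ≤ (U.card : ℝ) := by
        have : (0 : ℝ) ≤ n3 := Nat.cast_nonneg _
        linarith
      exact_mod_cast h2
    · intro e he
      induction e using Sym2.ind with
      | _ a b =>
        rw [hG, Finset.mem_sdiff, Finset.mem_sdiff] at he
        have h1 := (e3c_host.1 he.1.1).2.1
        rw [Finset.mk_mem_sym2_iff, hmemU, hmemU]
        exact h1
    · refine hl.mono ?_
      rw [hGE]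
      exact (Finset.sdiff_subset).trans Finset.sdiff_subset
    · rw [hGE]
      exact (he.sdiff hD.even hDE').sdiff hC.even hCD
    · have h1 : E.card = D.card + C.card + G.card := by
        conv_lhs => rw [hEG]
        rw [Finset.card_union_of_disjoint hdisj, Finset.card_union_of_disjoint hDC]
      have h2 := hD.six_dvd
      have h3' : 6 ∣ C.card := by rw [hC.card]
      have h4 : 6 ∣ D.card + C.card + G.card := h1 ▸ h6
      exact (Nat.dvd_add_right (dvd_add h2 h3')).1 h4
    · intro x y hxy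
      rw [hG, Finset.mem_sdiff, Finset.mem_sdiff] at hxy
      exact (e3c_host.1 hxy.1.1).2.2
    · intro i
      have h1 := henv.size i
      have h2 : ((V' i).card : ℝ) ≤ ((U.filter (fun x => cl x = i)).card : ℝ) := by
        norm_cast
        apply Finset.card_le_card
        intro x hx
        rw [Finset.mem_filter, hmemU]
        exact ⟨Finset.disjoint_left.1 (henv.subX i) hx, henv.cls i x hx⟩
      have h5 : t / 2 * U.card ≤ t / 2 * nV V := mul_le_mul_of_nonneg_left hUn (by linarith)
      have h6' : t / 2 * nV V ≤ t * nV V := mul_le_mul_of_nonneg_right (by linarith) hnn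
      linarith
    · intro x hx
      have hxX := (hmemU x).1 hx
      have hsub : (U.filter (fun y => PatE (cl x) (cl y) ∧ s(x, y) ∉ G)) ⊆
          ((Finset.univ \ (Finset.univ.biUnion V')) ∪
          ((Finset.univ.filter (fun j => PatE (cl x) j)).biUnion
            (fun j => (V' j).filter (fun y => s(x, y) ∉ E)))) ∪
          ((Finset.univ.filter (fun y => s(x, y) ∈ D ∩ H)) ∪
          (Finset.univ.filter (fun y => s(x, y) ∈ C))) := by
        intro y hy
        rw [Finset.mem_filter] at hy
        obtain ⟨hyU, hpat, hyG⟩ := hy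
        have hyX := (hmemU y).1 hyU
        by_cases h1 : y ∈ Finset.univ.biUnion V'
        · have h1' := h1
          rw [Finset.mem_biUnion] at h1
          obtain ⟨j, _, hj⟩ := h1
          have hcl := henv.cls j y hj
          by_cases h2 : s(x, y) ∈ E
          · have h4 : s(x, y) ∈ host := e3c_host.2 ⟨h2, ⟨hxX, hyX⟩, hpat⟩
            apply Finset.mem_union_right
            by_cases h5 : s(x, y) ∈ C
            · apply Finset.mem_union_right
              rw [Finset.mem_filter]
              exact ⟨Finset.mem_univ y, h5⟩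
            · have h6' : s(x, y) ∈ D := by
                by_contra h7
                apply hyG
                rw [hG, Finset.mem_sdiff, Finset.mem_sdiff]
                exact ⟨⟨h4, h7⟩, h5⟩
              apply Finset.mem_union_left
              rw [Finset.mem_filter]
              refine ⟨Finset.mem_univ y, Finset.mem_inter.2 ⟨h6', ?_⟩⟩
              rcases Finset.mem_union.1 (hDE h6') with h | h
              · exact absurd h4 (Finset.mem_sdiff.1 (hF h)).2
              · exact h
          · apply Finset.mem_union_left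
            apply Finset.mem_union_right
            rw [Finset.mem_biUnion]
            refine ⟨j, ?_, ?_⟩
            · rw [Finset.mem_filter]
              exact ⟨Finset.mem_univ j, hcl ▸ hpat⟩
            · rw [Finset.mem_filter]
              exact ⟨hj, h2⟩
        · apply Finset.mem_union_left
          apply Finset.mem_union_left
          rw [Finset.mem_sdiff]
          exact ⟨Finset.mem_univ y, h1⟩
      have hcard := Finset.card_le_card hsub
      have hA := henv.few
      have hB : ((((Finset.univ.filter (fun j => PatE (cl x) j)).biUnion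
            (fun j => (V' j).filter (fun y => s(x, y) ∉ E)))).card : ℝ) ≤ 4 * (τ * nV V) := by
        have h1 : ((((Finset.univ.filter (fun j => PatE (cl x) j)).biUnion
            (fun j => (V' j).filter (fun y => s(x, y) ∉ E)))).card : ℝ) ≤
            ∑ j ∈ (Finset.univ.filter (fun j => PatE (cl x) j)),
              (((V' j).filter (fun y => s(x, y) ∉ E)).card : ℝ) := by
          exact_mod_cast Finset.card_biUnion_le
        refine h1.trans ?_
        have h2 : ∑ j ∈ (Finset.univ.filter (fun j => PatE (cl x) j)),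
              (((V' j).filter (fun y => s(x, y) ∉ E)).card : ℝ) ≤
            ∑ j ∈ (Finset.univ.filter (fun j => PatE (cl x) j)), τ * nV V := by
          refine Finset.sum_le_sum fun j hj => ?_
          exact (henv.typical x hxX).1 j (Finset.mem_filter.1 hj).2
        refine h2.trans ?_
        rw [Finset.sum_const, nsmul_eq_mul]
        have h4 : (0 : ℝ) ≤ τ * nV V := by
          have h5 := (henv.typical x hxX)
          obtain ⟨j, hj⟩ : ∃ j, PatE (cl x) j := by
            generalize cl x = a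
            revert a
            decide
          exact (Nat.cast_nonneg _).trans (h5.1 j hj)
        refine mul_le_mul_of_nonneg_right ?_ h4
        have h5 : (Finset.univ.filter (fun j => PatE (cl x) j)).card ≤ 4 := by
          refine (Finset.card_le_univ _).trans ?_
          simp
        exact_mod_cast h5
      have hCc : ((Finset.univ.filter (fun y => s(x, y) ∈ D ∩ H)).card : ℝ) ≤ ρ * nV V := by
        refine le_trans ?_ (hdeg x)
        exact_mod_cast e3c_nbr (D ∩ H) x
      have hDc : ((Finset.univ.filter (fun y => s(x, y) ∈ C)).card : ℝ) ≤ 2 := by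
        have := (e3c_nbr C x).trans (e3c_deg_le hC x)
        exact_mod_cast this
      have htot : ((U.filter (fun y => PatE (cl x) (cl y) ∧ s(x, y) ∉ G)).card : ℝ) ≤
          ε * nV V + 4 * (τ * nV V) + (ρ * nV V + 2) := by
        have h1 := Finset.card_union_le ((Finset.univ \ (Finset.univ.biUnion V')) ∪
          ((Finset.univ.filter (fun j => PatE (cl x) j)).biUnion
            (fun j => (V' j).filter (fun y => s(x, y) ∉ E))))
          ((Finset.univ.filter (fun y => s(x, y) ∈ D ∩ H)) ∪
          (Finset.univ.filter (fun y => s(x, y) ∈ C)))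
        have h2 := Finset.card_union_le (Finset.univ \ (Finset.univ.biUnion V'))
          ((Finset.univ.filter (fun j => PatE (cl x) j)).biUnion
            (fun j => (V' j).filter (fun y => s(x, y) ∉ E)))
        have h4 := Finset.card_union_le (Finset.univ.filter (fun y => s(x, y) ∈ D ∩ H))
          (Finset.univ.filter (fun y => s(x, y) ∈ C))
        have h5 : ((U.filter (fun y => PatE (cl x) (cl y) ∧ s(x, y) ∉ G)).card : ℝ) ≤
            ((Finset.univ \ (Finset.univ.biUnion V')).card : ℝ) +
            (((Finset.univ.filter (fun j => PatE (cl x) j)).biUnion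
            (fun j => (V' j).filter (fun y => s(x, y) ∉ E))).card : ℝ) +
            (((Finset.univ.filter (fun y => s(x, y) ∈ D ∩ H)).card : ℝ) +
            ((Finset.univ.filter (fun y => s(x, y) ∈ C)).card : ℝ)) := by
          norm_cast
          omega
        linarith
      refine htot.trans ?_
      have e1 : ε * nV V ≤ τ3 / 8 * nV V := mul_le_mul_of_nonneg_right hε2 hnn
      have e2 : τ * nV V ≤ τ3 / 8 * nV V := mul_le_mul_of_nonneg_right hτ hnn
      have e3 : ρ * nV V ≤ τ3 / 8 * nV V := mul_le_mul_of_nonneg_right hρ hnn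
      have e4 : τ3 * (7 / 8 * nV V) ≤ τ3 * U.card := mul_le_mul_of_nonneg_left hU78 hτ3.le
      linarith
  rw [hEG]
  exact (hD.union hC.dec hDC).union hDecG hdisj

theorem ext3_dec (t : ℝ) (ht : 0 < t) :
    ∃ ε : ℝ, 0 < ε ∧ ∃ n0 : ℕ, ∀ (V : Type) [Fintype V] [DecidableEq V] (E : Finset (Sym2 V)),
      n0 ≤ Fintype.card V → Loopless E → EvenDeg E → 6 ∣ E.card →
      (∀ v, Fintype.card V ≤ 2 * deg E v + 1) → Ext3 E t ε → Dec E := by
  obtain ⟨τ3, hτ3, n3, h3⟩ := e3t (t / 2) (by linarith)
  set τ : ℝ := min (τ3 / 8) (t / 16) with hτ_def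
  have hτ : 0 < τ := lt_min (by linarith) (by linarith)
  have hτa : τ ≤ τ3 / 8 := min_le_left _ _
  have hτb : τ ≤ t / 16 := min_le_right _ _
  obtain ⟨ε1, hε1, hprep⟩ := prep3 t ht τ hτ (by linarith)
  obtain ⟨εs, hεs, ns, hswitch⟩ := switch3 t ht τ hτ (by linarith)
  obtain ⟨εc, θ, hεc, hθ, nc, hcover⟩ := cover3 t ht τ hτ (by linarith) (τ3 / 8) (by linarith)
  set ε : ℝ := min (min ε1 (min (εs / 2) (εc / 2))) (min (1 / 16) (τ3 / 16)) with hε_def
  have hε : 0 < ε := by
    refine lt_min (lt_min hε1 (lt_min (by linarith) (by linarith))) (lt_min (by norm_num) (by linarith))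
  have hεa : ε ≤ ε1 := (min_le_left _ _).trans (min_le_left _ _)
  have hεb : ε ≤ εs / 2 := (min_le_left _ _).trans ((min_le_right _ _).trans (min_le_left _ _))
  have hεc' : ε ≤ εc / 2 := (min_le_left _ _).trans ((min_le_right _ _).trans (min_le_right _ _))
  have hεd : ε ≤ 1 / 16 := (min_le_right _ _).trans (min_le_left _ _)
  have hεe : ε ≤ τ3 / 16 := (min_le_right _ _).trans (min_le_right _ _)
  obtain ⟨np, hprep⟩ := hprep ε hε hεa
  obtain ⟨na, hna⟩ := exists_nat_ge (4 / θ)
  obtain ⟨nb, hnb⟩ := exists_nat_ge (16 / τ3)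
  refine ⟨ε, hε, np + ns + nc + 2 * n3 + na + nb, ?_⟩
  intro V _ _ E hn hl he h6 hmin hext
  obtain ⟨X, cl, V', henv⟩ := hprep V E (by omega) hl hmin hext
  obtain ⟨C0, hC0E, C1, hC1E, hC0, hC1, hCC, hCX, -, hpar⟩ :=
    hswitch V E X cl V' (by omega) hl (e3c_mono henv (by linarith))
  set host := host3 E X cl with hhost
  have hhE : host ⊆ E := e3c_host_sub E X cl
  have hnθ : 4 ≤ θ * nV V := by
    have h1 : (na : ℝ) ≤ nV V := by
      have : na ≤ Fintype.card V := by omega
      exact_mod_cast this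
    have h2 : 4 / θ ≤ nV V := hna.trans h1
    rw [div_le_iff₀ hθ] at h2
    linarith
  have hnτ : 2 ≤ τ3 / 8 * nV V := by
    have h1 : (nb : ℝ) ≤ nV V := by
      have : nb ≤ Fintype.card V := by omega
      exact_mod_cast this
    have h2 : 16 / τ3 ≤ nV V := hnb.trans h1
    rw [div_le_iff₀ hτ3] at h2
    linarith
  have hmemCC : ∀ e, e ∉ host → (e ∈ C0 ↔ e ∈ C1) := by
    intro e he
    have h1 : e ∈ C0 \ host ↔ e ∈ C1 \ host := by rw [hCC]
    rw [Finset.mem_sdiff, Finset.mem_sdiff] at h1
    tauto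
  obtain ⟨D, hD, hFD, hDFH, hDdeg⟩ := hcover V E ((E \ host) \ C0) (host \ (C0 ∪ C1)) X cl V'
    (by omega) hl (e3c_mono henv (by linarith)) Finset.sdiff_subset Finset.sdiff_subset (by
      intro v
      have h1 : host \ (host \ (C0 ∪ C1)) ⊆ C0 ∪ C1 := by
        intro e he
        rw [Finset.mem_sdiff, Finset.mem_sdiff] at he
        by_contra hc
        exact he.2 ⟨he.1, hc⟩
      have h2 := (deg_mono h1 v).trans (deg_union_le C0 C1 v)
      have h4 := e3c_deg_le hC0 v
      have h5 := e3c_deg_le hC1 v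
      have h6' : deg (host \ (host \ (C0 ∪ C1))) v ≤ 4 := by omega
      have h7 : ((deg (host \ (host \ (C0 ∪ C1))) v : ℕ) : ℝ) ≤ 4 := by exact_mod_cast h6'
      exact h7.trans hnθ) (by
      intro x _
      have h1 : (E \ host) \ ((E \ host) \ C0) ⊆ C0 := by
        intro e he
        rw [Finset.mem_sdiff, Finset.mem_sdiff] at he
        by_contra hc
        exact he.2 (Finset.mem_sdiff.2 ⟨Finset.mem_sdiff.2 he.1, hc⟩)
      have h2 := deg_mono h1 x
      have h4 := e3c_deg_le hC0 x
      have h7 : ((deg ((E \ host) \ ((E \ host) \ C0)) x : ℕ) : ℝ) ≤ 4 := by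
        have : deg ((E \ host) \ ((E \ host) \ C0)) x ≤ 4 := by omega
        exact_mod_cast this
      exact h7.trans hnθ) (by
      intro x hx
      have h1 : deg (E \ host) x = deg E x := by
        have h2 := deg_sdiff hhE x
        rw [hhost, e3c_host_deg hx] at h2
        rw [hhost]
        omega
      have h2 : (E \ host) \ C0 = (E \ host) \ (C0 \ host) := by
        ext e
        simp only [Finset.mem_sdiff]
        tauto
      have h4 : C0 \ host ⊆ E \ host := Finset.sdiff_subset_sdiff hC0E (Finset.Subset.refl _)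
      have h5 := deg_sdiff h4 x
      rw [h2]
      have h6' : Even (deg (E \ host) x) := h1 ▸ he x
      rw [← h5] at h6'
      exact (Nat.even_add.1 h6').2 (hCX x hx))
  -- parities
  have hFC1 : (E \ host) \ C1 = (E \ host) \ C0 := by
    ext e
    simp only [Finset.mem_sdiff]
    constructor
    · rintro ⟨h1, h2⟩
      exact ⟨h1, fun h => h2 ((hmemCC e h1.2).1 h)⟩
    · rintro ⟨h1, h2⟩
      exact ⟨h1, fun h => h2 ((hmemCC e h1.2).2 h)⟩
  have hlast : ∀ C : Finset (Sym2 V), IsC6 C → C ⊆ E → C ⊆ C0 ∪ C1 →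
      (E \ host) \ C = (E \ host) \ C0 → Even (nV1 cl ((host \ D) \ C)) → Dec E := by
    intro C hC hCE hCs hCF hev
    refine e3c_last (ε := 2 * ε) (n3 := n3) ht hτ3 (by linarith) (by linarith) (by linarith) hτa
      (le_refl (τ3 / 8)) (fun U E cl => h3 V U E cl) (by omega) hnτ hl he h6 henv hD hDFH
      Finset.sdiff_subset Finset.sdiff_subset hDdeg hC hCE ?_ ?_ ?_ hev
    · rw [← hCF]
      exact Finset.sdiff_disjoint
    · rw [Finset.disjoint_left]
      intro e he heC
      exact (Finset.mem_sdiff.1 he).2 (hCs heC)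
    · rw [← hhost, hCF]; exact hFD
  have hDC : ∀ C : Finset (Sym2 V), C ⊆ C0 ∪ C1 → (E \ host) \ C = (E \ host) \ C0 →
      Disjoint D C := by
    intro C hCs hCF
    rw [Finset.disjoint_left]
    intro e he heC
    rcases Finset.mem_union.1 (hDFH he) with h | h
    · rw [← hCF] at h
      exact (Finset.mem_sdiff.1 h).2 heC
    · exact (Finset.mem_sdiff.1 h).2 (hCs heC)
  have hcount : ∀ C : Finset (Sym2 V), C ⊆ C0 ∪ C1 → (E \ host) \ C = (E \ host) \ C0 →
      nV1 cl ((host \ D) \ C) + nV1 cl (C ∩ host) = nV1 cl (host \ D) := by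
    intro C hCs hCF
    rw [← e3c_nV1_union]
    · congr 1
      ext e
      simp only [Finset.mem_union, Finset.mem_sdiff, Finset.mem_inter]
      constructor
      · rintro (⟨h1, _⟩ | ⟨h1, h2⟩)
        · exact h1
        · exact ⟨h2, fun hd => Finset.disjoint_left.1 (hDC C hCs hCF) hd h1⟩
      · intro h1
        by_cases h2 : e ∈ C
        · exact Or.inr ⟨h2, h1.1⟩
        · exact Or.inl ⟨h1, h2⟩
    · rw [Finset.disjoint_left]
      intro e he heC
      exact (Finset.mem_sdiff.1 he).2 (Finset.mem_inter.1 heC).1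
  have hc0 := hcount C0 Finset.subset_union_left rfl
  have hc1 := hcount C1 Finset.subset_union_right hFC1
  by_cases hp : Even (nV1 cl ((host \ D) \ C0))
  · exact hlast C0 hC0 hC0E Finset.subset_union_left rfl hp
  · refine hlast C1 hC1 hC1E Finset.subset_union_right hFC1 ?_
    by_contra hp1
    apply hpar
    rw [← hhost] at *
    have e0 : (Even (nV1 cl (host \ D)) ↔ ¬ Even (nV1 cl (C0 ∩ host))) := by
      rw [← hc0, Nat.even_add]; tauto
    have e1 : (Even (nV1 cl (host \ D)) ↔ ¬ Even (nV1 cl (C1 ∩ host))) := by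
      rw [← hc1, Nat.even_add]; tauto
    tauto

end H15C6
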