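import Pool.Agent.H15.C6.SDefs

/-!
Environments for the extremal cases 1 and 2.
-/

open Finset

namespace H15C6

variable {V : Type} [Fintype V] [DecidableEq V]

/-- almost complete bipartite graph with parts `A ⊇ A'`, `B ⊇ B'`; `A', B'` strongly typical -/
structure Env2 (E : Finset (Sym2 V)) (ε : ℝ) (A B A' B' : Finset V) : Prop where
  disj : Disjoint A B
  cover : A ∪ B = Finset.univ
  subA : A' ⊆ A
  subB : B' ⊆ B
  sizeA : (1 / 2 - ε) * nV V ≤ (A'.card : ℝ)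
  sizeB : (1 / 2 - ε) * nV V ≤ (B'.card : ℝ)
  nA : ∀ a ∈ A', ((B'.filter (fun y => s(a, y) ∉ E)).card : ℝ) ≤ ε * nV V
  nA' : ∀ a ∈ A', (dg E A' a : ℝ) ≤ ε * nV V
  nB : ∀ b ∈ B', ((A'.filter (fun y => s(b, y) ∉ E)).card : ℝ) ≤ ε * nV V
  nB' : ∀ b ∈ B', (dg E B' b : ℝ) ≤ ε * nV V
  lowA : ∀ a ∈ A, (1 / 5 - ε) * nV V ≤ (dg E B' a : ℝ)
  lowB : ∀ b ∈ B, (1 / 5 - ε) * nV V ≤ (dg E A' b : ℝ)
  mindeg : ∀ v, (1 / 2 - ε) * nV V ≤ (deg E v : ℝ)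

/-- two almost complete halves; `A0, B0` typical, `X` mixed vertices, `A', B'` strongly typical -/
structure Env1 (E : Finset (Sym2 V)) (ε τ : ℝ) (A0 B0 X A' B' : Finset V) : Prop where
  dAB : Disjoint A0 B0
  dAX : Disjoint A0 X
  dBX : Disjoint B0 X
  cover : A0 ∪ B0 ∪ X = Finset.univ
  subA : A' ⊆ A0
  subB : B' ⊆ B0
  sizeA : (1 / 2 - ε) * nV V ≤ (A'.card : ℝ)
  sizeB : (1 / 2 - ε) * nV V ≤ (B'.card : ℝ)
  nA : ∀ a ∈ A', ((A'.filter (fun y => s(a, y) ∉ E)).card : ℝ) ≤ ε * nV V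
  nA' : ∀ a ∈ A', (dg E B' a : ℝ) ≤ ε * nV V
  nB : ∀ b ∈ B', ((B'.filter (fun y => s(b, y) ∉ E)).card : ℝ) ≤ ε * nV V
  nB' : ∀ b ∈ B', (dg E A' b : ℝ) ≤ ε * nV V
  tA : ∀ a ∈ A0, (dg E B' a : ℝ) ≤ τ * nV V
  tB : ∀ b ∈ B0, (dg E A' b : ℝ) ≤ τ * nV V
  mX : ∀ x ∈ X, τ * nV V ≤ (dg E A' x : ℝ) ∧ τ * nV V ≤ (dg E B' x : ℝ)
  mindeg : ∀ v, Fintype.card V ≤ 2 * deg E v + 1

/-- edges inside `A` -/
def inn (E : Finset (Sym2 V)) (A : Finset V) : Finset (Sym2 V) := E ∩ A.sym2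

/-- edges neither inside `A` nor inside `B` -/
def crs (E : Finset (Sym2 V)) (A B : Finset V) : Finset (Sym2 V) := (E \ A.sym2) \ B.sym2

/-- five independent switches: two six-cycles with the same cross edges and numbers of edges inside `A`
differing by one -/
def Switch5 (E : Finset (Sym2 V)) (A B : Finset V) : Prop :=
  ∃ c0 c1 : Fin 5 → Finset (Sym2 V),
    (∀ i, IsC6 (c0 i) ∧ IsC6 (c1 i) ∧ c0 i ⊆ E ∧ c1 i ⊆ E ∧ crs (c0 i) A B = crs (c1 i) A B ∧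
      (inn (c1 i) A).card = (inn (c0 i) A).card + 1) ∧
    (∀ i j, i ≠ j → Disjoint (c0 i ∪ c1 i) (c0 j ∪ c1 j))

end H15C6
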