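import Pool.Agent.H15.C6.Defs

/-!
Module IFACE.  Interface between Mathlib's simple graphs and edge sets.

`G : SimpleGraph V`, `V` finite.  `HasC6Decomposition G`: a set of subgraphs of `G`, each isomorphic to the cycle
graph on six vertices, such that every edge of `G` lies in exactly one of them.
(⇒) The set `D` of subgraphs is finite; for `H ∈ D` with `φ : H.coe ≃g cycleGraph 6` the edge set of `H` is `cyc v` with
`v i = (φ.symm i : V)`; edge sets of different `H, H' ∈ D` are disjoint by uniqueness.  `Dec.biUnion`.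
(⇐) From `Dec E` obtain a finset of pairwise disjoint six-cycles with union `E` (induction), and turn each
`cyc v ⊆ E` into the subgraph with vertex set `Set.range v` and these edges, isomorphic to `cycleGraph 6` via `v`.
-/

open Finset

namespace H15C6

/-- `G` has a decomposition into cycles of length six -/
def HasC6Decomposition {V : Type} (G : SimpleGraph V) : Prop :=
  ∃ D : Set G.Subgraph, (∀ H ∈ D, Nonempty (H.coe ≃g SimpleGraph.cycleGraph 6)) ∧
    ∀ e ∈ G.edgeSet, ∃! H : G.Subgraph, H ∈ D ∧ e ∈ H.edgeSet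

open Classical in
/-- the finite edge set of `G` -/
noncomputable def eset {V : Type} [Fintype V] (G : SimpleGraph V) : Finset (Sym2 V) :=
  Finset.univ.filter (fun e => e ∈ G.edgeSet)

theorem mem_eset {V : Type} [Fintype V] (G : SimpleGraph V) (e : Sym2 V) :
    e ∈ eset G ↔ e ∈ G.edgeSet := by
  simp [eset]

theorem eset_loopless {V : Type} [Fintype V] (G : SimpleGraph V) : Loopless (eset G) := by
  intro x hx
  rw [mem_eset, SimpleGraph.mem_edgeSet] at hx
  exact G.loopless.irrefl x hx

theorem iface_coe_eset {V : Type} [Fintype V] (G : SimpleGraph V) :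
    ((eset G : Finset (Sym2 V)) : Set (Sym2 V)) = G.edgeSet := by
  ext e
  rw [Finset.mem_coe, mem_eset]

theorem eset_card {V : Type} [Fintype V] (G : SimpleGraph V) :
    (eset G).card = G.edgeSet.ncard := by
  rw [← iface_coe_eset, Set.ncard_coe_finset]

theorem eset_deg {V : Type} [Fintype V] [DecidableEq V] (G : SimpleGraph V) (v : V) :
    deg (eset G) v = (G.neighborSet v).ncard := by
  classical
  have h1 : ((Finset.univ.filter (fun y => G.Adj v y) : Finset V) : Set V) = G.neighborSet v := by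
    ext y
    simp
  rw [← h1, Set.ncard_coe_finset]
  unfold deg
  symm
  apply Finset.card_bij (fun y _ => s(v, y))
  · intro y hy
    rw [Finset.mem_filter] at hy ⊢
    exact ⟨(mem_eset G _).2 (G.mem_edgeSet.2 hy.2), Sym2.mem_mk_left v y⟩
  · intro y _ z _ hyz
    exact Sym2.congr_right.1 hyz
  · intro e he
    rw [Finset.mem_filter] at he
    obtain ⟨y, rfl⟩ := Sym2.mem_iff_exists.1 he.2
    refine ⟨y, ?_, rfl⟩
    rw [Finset.mem_filter]
    exact ⟨Finset.mem_univ _, G.mem_edgeSet.1 ((mem_eset G _).1 he.1)⟩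

theorem exists_graph {V : Type} [Fintype V] [DecidableEq V] (E : Finset (Sym2 V))
    (hE : Loopless E) : ∃ G : SimpleGraph V, eset G = E := by
  refine ⟨⟨fun x y => s(x, y) ∈ E, ⟨fun x y h => ?_⟩, ⟨fun x h => hE x h⟩⟩, ?_⟩
  · rw [Sym2.eq_swap]; exact h
  · ext e
    rw [mem_eset]
    induction e using Sym2.ind with
    | _ a b => exact Iff.rfl

theorem iface_adj_iff : ∀ i j : Fin 6, (SimpleGraph.cycleGraph 6).Adj i j ↔
    (j = i + 1 ∨ i = j + 1) := by
  intro i j
  refine (SimpleGraph.cycleGraph_adj (n := 4)).trans ?_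
  revert i j
  decide

/-- the subgraph with the edges of `cyc v` -/
def ifaceSub {V : Type} [Fintype V] [DecidableEq V] (G : SimpleGraph V) (v : Fin 6 → V)
    (h : cyc v ⊆ eset G) : G.Subgraph where
  verts := Set.range v
  Adj x y := s(x, y) ∈ cyc v
  adj_sub {x y} hxy := G.mem_edgeSet.1 ((mem_eset G _).1 (h hxy))
  edge_vert {x y} hxy := by
    rw [mem_cyc] at hxy
    obtain ⟨i, hi⟩ := hxy
    rcases Sym2.eq_iff.1 hi with ⟨h1, _⟩ | ⟨_, h1⟩
    · exact ⟨i, h1⟩
    · exact ⟨i + 1, h1⟩
  symm := ⟨fun x y hxy => by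
    rw [Sym2.eq_swap]; exact hxy⟩

theorem ifaceSub_mem {V : Type} [Fintype V] [DecidableEq V] (G : SimpleGraph V) (v : Fin 6 → V)
    (h : cyc v ⊆ eset G) (e : Sym2 V) : e ∈ (ifaceSub G v h).edgeSet ↔ e ∈ cyc v := by
  induction e using Sym2.ind with
  | _ a b => exact Iff.rfl

theorem ifaceSub_iso {V : Type} [Fintype V] [DecidableEq V] (G : SimpleGraph V) (v : Fin 6 → V)
    (hv : Function.Injective v) (h : cyc v ⊆ eset G) :
    Nonempty ((ifaceSub G v h).coe ≃g SimpleGraph.cycleGraph 6) := by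
  refine ⟨(RelIso.symm ⟨Equiv.ofInjective v hv, ?_⟩)⟩
  intro i j
  rw [iface_adj_iff]
  change s(v i, v j) ∈ cyc v ↔ _
  rw [mem_cyc]
  constructor
  · rintro ⟨k, hk⟩
    rcases Sym2.eq_iff.1 hk with ⟨h1, h2⟩ | ⟨h1, h2⟩
    · left
      rw [← hv h1, ← hv h2]
    · right
      rw [← hv h1, ← hv h2]
  · rintro (rfl | rfl)
    · exact ⟨i, rfl⟩
    · exact ⟨j, Sym2.eq_swap⟩

theorem decomposition_of_dec {V : Type} [Fintype V] [DecidableEq V] (G : SimpleGraph V)
    (h : Dec (eset G)) : HasC6Decomposition G := by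
  have key : ∀ E : Finset (Sym2 V), Dec E → E ⊆ eset G →
      ∃ D : Set G.Subgraph, (∀ H ∈ D, Nonempty (H.coe ≃g SimpleGraph.cycleGraph 6)) ∧
        (∀ e ∈ E, ∃! H : G.Subgraph, H ∈ D ∧ e ∈ H.edgeSet) ∧
        ∀ H ∈ D, ∀ e ∈ H.edgeSet, e ∈ E := by
    intro E hE
    induction hE with
    | empty =>
      intro _
      exact ⟨∅, by simp, by simp, by simp⟩
    | @add E C hE hC hd ih =>
      intro hsub
      obtain ⟨D, h1, h2, h3⟩ := ih (Finset.union_subset_left hsub)
      obtain ⟨v, hv, rfl⟩ := hC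
      have hCs : cyc v ⊆ eset G := Finset.union_subset_right hsub
      refine ⟨insert (ifaceSub G v hCs) D, ?_, ?_, ?_⟩
      · intro H hH
        rcases hH with rfl | hH
        · exact ifaceSub_iso G v hv hCs
        · exact h1 H hH
      · intro e he
        rw [Finset.mem_union] at he
        rcases he with he | he
        · obtain ⟨H, ⟨hHD, heH⟩, huniq⟩ := h2 e he
          refine ⟨H, ⟨Set.mem_insert_of_mem _ hHD, heH⟩, ?_⟩
          rintro H' ⟨hH', heH'⟩
          rcases hH' with rfl | hH'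
          · rw [ifaceSub_mem] at heH'
            exact absurd heH' (Finset.disjoint_left.1 hd he)
          · exact huniq H' ⟨hH', heH'⟩
        · refine ⟨ifaceSub G v hCs, ⟨Set.mem_insert _ _, (ifaceSub_mem G v hCs e).2 he⟩, ?_⟩
          rintro H' ⟨hH', heH'⟩
          rcases hH' with rfl | hH'
          · rfl
          · exact absurd he (Finset.disjoint_left.1 hd (h3 H' hH' e heH'))
      · intro H hH e he
        rw [Finset.mem_union]
        rcases hH with rfl | hH
        · exact Or.inr ((ifaceSub_mem G v hCs e).1 he)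
        · exact Or.inl (h3 H hH e he)
  obtain ⟨D, h1, h2, _⟩ := key (eset G) h (Finset.Subset.refl _)
  exact ⟨D, h1, fun e he => h2 e ((mem_eset G e).2 he)⟩

open Classical in
/-- the finite edge set of a subgraph -/
noncomputable def ifaceE {V : Type} [Fintype V] {G : SimpleGraph V} (H : G.Subgraph) :
    Finset (Sym2 V) := Finset.univ.filter (fun e => e ∈ H.edgeSet)

theorem mem_ifaceE {V : Type} [Fintype V] {G : SimpleGraph V} (H : G.Subgraph) (e : Sym2 V) :
    e ∈ ifaceE H ↔ e ∈ H.edgeSet := by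
  simp [ifaceE]

theorem ifaceE_isC6 {V : Type} [Fintype V] [DecidableEq V] {G : SimpleGraph V} (H : G.Subgraph)
    (φ : H.coe ≃g SimpleGraph.cycleGraph 6) : IsC6 (ifaceE H) := by
  refine ⟨fun i => (φ.symm i : V), ?_, ?_⟩
  · intro i j hij
    exact φ.symm.injective (Subtype.ext hij)
  · ext e
    rw [mem_ifaceE, mem_cyc]
    constructor
    · intro he
      induction e using Sym2.ind with
      | _ a b =>
        have hab : H.Adj a b := he
        have ha : a ∈ H.verts := hab.fst_mem
        have hb : b ∈ H.verts := hab.snd_mem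
        have h1 : H.coe.Adj ⟨a, ha⟩ ⟨b, hb⟩ := hab
        have h2 := φ.map_rel_iff.2 h1
        rw [iface_adj_iff] at h2
        rcases h2 with h2 | h2
        · refine ⟨φ ⟨a, ha⟩, ?_⟩
          rw [← h2]
          simp
        · refine ⟨φ ⟨b, hb⟩, ?_⟩
          rw [← h2]
          simp [Sym2.eq_swap]
    · rintro ⟨i, rfl⟩
      have h1 : (SimpleGraph.cycleGraph 6).Adj i (i + 1) := (iface_adj_iff i (i + 1)).2 (Or.inl rfl)
      exact φ.symm.map_rel_iff.2 h1

theorem dec_of_decomposition {V : Type} [Fintype V] [DecidableEq V] (G : SimpleGraph V)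
    (h : HasC6Decomposition G) : Dec (eset G) := by
  classical
  obtain ⟨D, h1, h2⟩ := h
  have hJ : eset G = (Finset.univ.filter (fun E : Finset (Sym2 V) =>
      ∃ H ∈ D, E = ifaceE H)).biUnion id := by
    ext e
    rw [mem_eset, Finset.mem_biUnion]
    constructor
    · intro he
      obtain ⟨H, ⟨hHD, heH⟩, _⟩ := h2 e he
      refine ⟨ifaceE H, ?_, (mem_ifaceE H e).2 heH⟩
      rw [Finset.mem_filter]
      exact ⟨Finset.mem_univ _, H, hHD, rfl⟩
    · rintro ⟨E, hE, he⟩
      rw [Finset.mem_filter] at hE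
      obtain ⟨_, H, hHD, rfl⟩ := hE
      exact H.edgeSet_subset ((mem_ifaceE H e).1 he)
  rw [hJ]
  apply Dec.biUnion
  · intro E hE
    rw [Finset.mem_filter] at hE
    obtain ⟨_, H, hHD, rfl⟩ := hE
    obtain ⟨φ⟩ := h1 H hHD
    exact (ifaceE_isC6 H φ).dec
  · intro E hE E' hE' hne
    rw [Finset.mem_filter] at hE hE'
    obtain ⟨_, H, hHD, rfl⟩ := hE
    obtain ⟨_, H', hHD', rfl⟩ := hE'
    rw [Finset.disjoint_left]
    intro e he he'
    have he1 := (mem_ifaceE H e).1 he
    have he2 := (mem_ifaceE H' e).1 he'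
    obtain ⟨K, _, hK⟩ := h2 e (H.edgeSet_subset he1)
    apply hne
    rw [hK H ⟨hHD, he1⟩, hK H' ⟨hHD', he2⟩]

end H15C6
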