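import Pool.Agent.H15.C6.ABE

/-!
Module LB3.  Lower bound for `n = 4k+2`: complete blow-up of the four-class pattern.

Classes of sizes `a, 2k+1-a, 2k-a, a+1` where `2 ≤ a ≤ 13`, `a ≡ 2 (mod 4)`, `a ≡ 4k(k+1) (mod 3)` (Chinese
remainder; `a` exists for every `k`: by cases `k % 3`), e.g. `cl v = 0` for `v < a`, `1` for `a ≤ v < 2k+1`, `2` for
`2k+1 ≤ v < 4k+1-a`, `3` for the last `a+1` vertices; `E := {s(u,v) : u ≠ v, PatE (cl u) (cl v)}`.
Degrees: `2k, 2k, 2k+2, 2k` on the four classes.  `2|E| = a*2k + (2k+1-a)*2k + (2k-a)*(2k+2) + (a+1)*2k`, so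
`|E| = 4k(k+1) - a ≡ 0 (mod 6)`.  The number of edges inside class 0 is `a(a-1)/2`, odd.
By `dec_even_V1` not decomposable.
-/

open Finset

namespace H15C6

theorem lb3_patE_symm {a b : Fin 4} (h : PatE a b) : PatE b a := by
  revert a b
  decide

/-- the class function -/
def lb3_cl (k a : ℕ) (v : Fin (4 * k + 2)) : Fin 4 :=
  if (v : ℕ) < a then 0 else if (v : ℕ) < 2 * k + 1 then 1 else if (v : ℕ) < 4 * k + 1 - a then 2
  else 3

/-- the edge set -/
def lb3_E (k a : ℕ) : Finset (Sym2 (Fin (4 * k + 2))) :=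
  ((univ : Finset (Fin (4 * k + 2) × Fin (4 * k + 2))).filter
    (fun p => p.1 ≠ p.2 ∧ PatE (lb3_cl k a p.1) (lb3_cl k a p.2))).image (fun p => s(p.1, p.2))

theorem lb3_mem {k a : ℕ} {x y : Fin (4 * k + 2)} :
    s(x, y) ∈ lb3_E k a ↔ x ≠ y ∧ PatE (lb3_cl k a x) (lb3_cl k a y) := by
  unfold lb3_E
  simp only [mem_image, mem_filter, mem_univ, true_and, Prod.exists]
  constructor
  · rintro ⟨u, v, ⟨h1, h2⟩, h3⟩
    rw [Sym2.eq_iff] at h3
    rcases h3 with ⟨rfl, rfl⟩ | ⟨rfl, rfl⟩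
    · exact ⟨h1, h2⟩
    · exact ⟨h1.symm, lb3_patE_symm h2⟩
  · rintro ⟨h1, h2⟩
    exact ⟨x, y, ⟨h1, h2⟩, rfl⟩

theorem lb3_interval (n p q : ℕ) (hq : q ≤ n) :
    (univ.filter (fun v : Fin n => p ≤ (v : ℕ) ∧ (v : ℕ) < q)).card = q - p := by
  rw [card_filter]
  rw [Fin.sum_univ_eq_sum_range (fun i => if p ≤ i ∧ i < q then 1 else 0) n, ← card_filter]
  have : (range n).filter (fun i => p ≤ i ∧ i < q) = Ico p q := by
    ext i
    simp only [mem_filter, mem_range, mem_Ico]
    omega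
  rw [this, Nat.card_Ico]

/-- number of vertices in a class -/
theorem lb3_card {k a : ℕ} (ha : a + 1 ≤ 2 * k) :
    ((univ.filter (fun v => lb3_cl k a v = 0)).card = a ∧
      (univ.filter (fun v => lb3_cl k a v = 1)).card = 2 * k + 1 - a) ∧
      ((univ.filter (fun v => lb3_cl k a v = 2)).card = 2 * k - a ∧
      (univ.filter (fun v => lb3_cl k a v = 3)).card = a + 1) := by
  have key : ∀ (i : Fin 4) (p q : ℕ), q ≤ 4 * k + 2 →
      (∀ v : Fin (4 * k + 2), lb3_cl k a v = i ↔ p ≤ (v : ℕ) ∧ (v : ℕ) < q) →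
      (univ.filter (fun v => lb3_cl k a v = i)).card = q - p := by
    intro i p q hq h
    have h1 : univ.filter (fun v => lb3_cl k a v = i) =
        univ.filter (fun v : Fin (4 * k + 2) => p ≤ (v : ℕ) ∧ (v : ℕ) < q) := by
      ext v
      simp only [mem_filter, mem_univ, true_and]
      exact h v
    rw [h1]
    exact lb3_interval (4 * k + 2) p q hq
  refine ⟨⟨?_, ?_⟩, ?_, ?_⟩
  · rw [key 0 0 a (by omega)]
    · omega
    · intro v
      unfold lb3_cl
      split_ifs with h1 h2 h3 <;> simp <;> omega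
  · rw [key 1 a (2 * k + 1) (by omega)]
    intro v
    unfold lb3_cl
    split_ifs with h1 h2 h3 <;> simp <;> omega
  · rw [key 2 (2 * k + 1) (4 * k + 1 - a) (by omega)]
    · omega
    · intro v
      unfold lb3_cl
      split_ifs with h1 h2 h3 <;> simp <;> omega
  · rw [key 3 (4 * k + 1 - a) (4 * k + 2) (by omega)]
    · omega
    · intro v
      have := v.2
      unfold lb3_cl
      split_ifs with h1 h2 h3 <;> simp <;> omega

theorem lb3_loopless (k a : ℕ) : Loopless (lb3_E k a) := by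
  intro x hx
  rw [lb3_mem] at hx
  exact hx.1 rfl

theorem lb3_sub (k a : ℕ) : lb3_E k a ⊆ (univ : Finset (Fin (4 * k + 2))).sym2 := by
  intro e _
  rw [sym2_univ]
  exact mem_univ _

/-- degrees -/
theorem lb3_deg {k a : ℕ} (ha0 : 1 ≤ a) (ha : a + 1 ≤ 2 * k) (x : Fin (4 * k + 2)) :
    deg (lb3_E k a) x = if lb3_cl k a x = 2 then 2 * k + 2 else 2 * k := by
  obtain ⟨⟨c0, c1⟩, c2, c3⟩ := lb3_card ha
  rw [deg_eq_dg (lb3_sub k a)]
  unfold dg
  have hset : ∀ (S T : Finset (Fin (4 * k + 2))), (∀ y, y ∈ S ∪ T ↔ PatE (lb3_cl k a x) (lb3_cl k a y)) →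
      Disjoint S T → (univ.filter (fun y => s(x, y) ∈ lb3_E k a)).card =
        ((S ∪ T).erase x).card := by
    intro S T h _
    congr 1
    ext y
    rw [mem_filter, mem_erase, lb3_mem, h y]
    simp only [mem_univ, true_and]
    rw [ne_comm]
  have hdisj : ∀ i j : Fin 4, i ≠ j → Disjoint (univ.filter (fun v => lb3_cl k a v = i))
      (univ.filter (fun v => lb3_cl k a v = j)) := by
    intro i j hij
    rw [disjoint_filter]
    intro v _ h1 h2
    exact hij (h1.symm.trans h2)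
  have hcase : lb3_cl k a x = 0 ∨ lb3_cl k a x = 1 ∨ lb3_cl k a x = 2 ∨ lb3_cl k a x = 3 := by
    generalize lb3_cl k a x = i
    revert i
    decide
  rcases hcase with h | h | h | h
  · rw [hset (univ.filter (fun v => lb3_cl k a v = 0)) (univ.filter (fun v => lb3_cl k a v = 1)) ?_
      (hdisj 0 1 (by decide)), card_erase_of_mem, card_union_of_disjoint (hdisj 0 1 (by decide)),
      c0, c1, if_neg (by rw [h]; decide)]
    · omega
    · simp [h]
    · intro y
      rw [h]
      simp only [mem_union, mem_filter, mem_univ, true_and]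
      generalize lb3_cl k a y = j
      revert j
      decide
  · rw [hset (univ.filter (fun v => lb3_cl k a v = 0)) (univ.filter (fun v => lb3_cl k a v = 2)) ?_
      (hdisj 0 2 (by decide)), erase_eq_of_notMem, card_union_of_disjoint (hdisj 0 2 (by decide)),
      c0, c2, if_neg (by rw [h]; decide)]
    · omega
    · simp [h]
    · intro y
      rw [h]
      simp only [mem_union, mem_filter, mem_univ, true_and]
      generalize lb3_cl k a y = j
      revert j
      decide
  · rw [hset (univ.filter (fun v => lb3_cl k a v = 1)) (univ.filter (fun v => lb3_cl k a v = 3)) ?_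
      (hdisj 1 3 (by decide)), erase_eq_of_notMem, card_union_of_disjoint (hdisj 1 3 (by decide)),
      c1, c3, if_pos h]
    · omega
    · simp [h]
    · intro y
      rw [h]
      simp only [mem_union, mem_filter, mem_univ, true_and]
      generalize lb3_cl k a y = j
      revert j
      decide
  · rw [hset (univ.filter (fun v => lb3_cl k a v = 2)) (univ.filter (fun v => lb3_cl k a v = 3)) ?_
      (hdisj 2 3 (by decide)), card_erase_of_mem, card_union_of_disjoint (hdisj 2 3 (by decide)),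
      c2, c3, if_neg (by rw [h]; decide)]
    · omega
    · simp [h]
    · intro y
      rw [h]
      simp only [mem_union, mem_filter, mem_univ, true_and]
      generalize lb3_cl k a y = j
      revert j
      decide

/-- number of edges -/
theorem lb3_cardE {k a : ℕ} (ha0 : 1 ≤ a) (ha : a + 1 ≤ 2 * k) :
    (lb3_E k a).card + a = 4 * k * (k + 1) := by
  obtain ⟨⟨c0, c1⟩, c2, c3⟩ := lb3_card ha
  have h1 := sum_deg (lb3_sub k a) (lb3_loopless k a)
  have h2 : ∑ x, deg (lb3_E k a) x = (4 * k + 2) * (2 * k) + 2 * (2 * k - a) := by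
    have h3 : ∀ x, deg (lb3_E k a) x = 2 * k + (if lb3_cl k a x = 2 then 2 else 0) := by
      intro x
      rw [lb3_deg ha0 ha]
      split_ifs <;> rfl
    simp only [h3]
    rw [sum_add_distrib, sum_const, ← sum_filter, sum_const, c2]
    simp
    ring
  rw [h2] at h1
  have h4 : 4 * k * (k + 1) = 4 * (k * k) + 4 * k := by ring
  have h5 : (4 * k + 2) * (2 * k) = 8 * (k * k) + 4 * k := by ring
  rw [h4]
  rw [h5] at h1
  omega

/-- number of edges inside class 0 -/
theorem lb3_nV1 {k a : ℕ} (ha : a + 1 ≤ 2 * k) :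
    nV1 (lb3_cl k a) (lb3_E k a) = a.choose 2 := by
  obtain ⟨⟨c0, c1⟩, c2, c3⟩ := lb3_card ha
  unfold nV1
  have h0 := Sym2.card_image_offDiag (univ.filter (fun v => lb3_cl k a v = 0))
  rw [c0] at h0
  rw [← h0]
  congr 1
  ext e
  induction e using Sym2.ind with
  | _ x y =>
    simp only [mem_filter, lb3_mem, Sym2.map_mk, mem_image, mem_offDiag, Prod.exists,
      Function.uncurry_apply_pair]
    constructor
    · rintro ⟨⟨h1, h2⟩, h3⟩
      rw [Sym2.eq_iff] at h3
      have h4 : lb3_cl k a x = 0 ∧ lb3_cl k a y = 0 := by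
        rcases h3 with h3 | h3 <;> exact h3
      exact ⟨x, y, ⟨by simp [h4.1], by simp [h4.2], h1⟩, rfl⟩
    · rintro ⟨u, v, ⟨h1, h2, h3⟩, h4⟩
      simp only [mem_univ, true_and] at h1 h2
      rw [Sym2.eq_iff] at h4
      rcases h4 with ⟨rfl, rfl⟩ | ⟨rfl, rfl⟩
      · refine ⟨⟨h3, ?_⟩, ?_⟩
        · rw [h1, h2]; decide
        · rw [h1, h2]
      · refine ⟨⟨h3.symm, ?_⟩, ?_⟩
        · rw [h1, h2]; decide
        · rw [h1, h2]

theorem lower_2 (k : ℕ) (hk : 20 ≤ k) :
    ∃ E : Finset (Sym2 (Fin (4 * k + 2))), Loopless E ∧ EvenDeg E ∧ 6 ∣ E.card ∧ ¬ Dec E ∧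
      ∀ v, 2 * k ≤ deg E v := by
  obtain ⟨a, ha0, ha1, ha2, ha3⟩ : ∃ a : ℕ, 1 ≤ a ∧ a + 1 ≤ 2 * k ∧ ¬ Even (a.choose 2) ∧
      ∀ c : ℕ, c + a = 4 * k * (k + 1) → 6 ∣ c := by
    have hk3 : k % 3 = 0 ∨ k % 3 = 1 ∨ k % 3 = 2 := by omega
    rcases hk3 with h | h | h
    · refine ⟨6, by norm_num, by omega, by decide, fun c hc => ?_⟩
      obtain ⟨m, hm⟩ : ∃ m, k = 3 * m := ⟨k / 3, by omega⟩
      subst hm
      have h2 : 4 * (3 * m) * (3 * m + 1) = 6 * (2 * m * (3 * m + 1)) := by ring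
      rw [h2] at hc
      omega
    · refine ⟨2, by norm_num, by omega, by decide, fun c hc => ?_⟩
      obtain ⟨m, hm⟩ : ∃ m, k = 3 * m + 1 := ⟨k / 3, by omega⟩
      subst hm
      have h2 : 4 * (3 * m + 1) * (3 * m + 1 + 1) = 6 * (6 * m * m + 6 * m + 1) + 2 := by ring
      rw [h2] at hc
      omega
    · refine ⟨6, by norm_num, by omega, by decide, fun c hc => ?_⟩
      obtain ⟨m, hm⟩ : ∃ m, k = 3 * m + 2 := ⟨k / 3, by omega⟩
      subst hm
      have h2 : 4 * (3 * m + 2) * (3 * m + 2 + 1) = 6 * (2 * (3 * m + 2) * (m + 1)) := by ring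
      rw [h2] at hc
      omega
  refine ⟨lb3_E k a, lb3_loopless k a, ?_, ha3 _ (lb3_cardE ha0 ha1), ?_, ?_⟩
  · intro x
    rw [lb3_deg ha0 ha1]
    split_ifs
    · exact ⟨k + 1, by ring⟩
    · exact ⟨k, by ring⟩
  · intro hD
    have h := dec_even_V1 (lb3_cl k a) (lb3_E k a) hD (fun x y hxy => (lb3_mem.1 hxy).2)
    rw [lb3_nV1 ha1] at h
    exact ha2 h
  · intro v
    rw [lb3_deg ha0 ha1]
    split_ifs <;> omega

end H15C6
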