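import Pool.Agent.H15.C6.LB2
import Pool.Agent.H15.C6.LB3

/-!
Module LB4.  Lower bound, assembly.

`thr n` is the claimed threshold.
* `n = 4k`: blocks `s1 = 2k`, `s2 = 2k+1` (`p = 2k-1`, `q = 2k`), residues `ρ1 = 1`, `ρ2 = 5`: degrees
  `≥ 2k-2` (the cut vertex: `≥ 4k+1-28 ≥ 2k-2`).  `thr n = 2k-1`.
* `n = 4k+1`: `s1 = s2 = 2k+1`, `ρ1 = 1, ρ2 = 5`: degrees `≥ 2k-2`; `thr n = 2k-1`, if `n % 24 ≠ 5, 13`;
  otherwise (`k ≡ 1, 3 (mod 6)`) two complete blocks, `|E_i| = k(2k+1) ≡ 3 (mod 6)`, degrees `≥ 2k`, `thr n = 2k+1`.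
* `n = 4k+2`: `lower_2`, `thr n = 2k+1`.
* `n = 4k+3`: `s1 = s2 = 2k+2`, `ρ1 = 1, ρ2 = 5`: degrees `≥ 2k`, `thr n = 2k+1`.
`glue` and `transport` along an equivalence `Option (Fin p ⊕ Fin q) ≃ Fin n` (`Fintype.equivFinOfCardEq`).
-/

open Finset

namespace H15C6

/-- the exact threshold -/
def thr (n : ℕ) : ℕ :=
  if n % 4 = 0 then n / 2 - 1
  else if n % 4 = 2 then n / 2
  else if n % 4 = 3 then (n - 1) / 2
  else if n % 24 = 5 ∨ n % 24 = 13 then (n + 1) / 2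
  else (n - 3) / 2

/-- two blocks, transported to `Fin n` -/
theorem lb4_two (n s1 s2 : ℕ) (h1 : 1 ≤ s1) (h2 : 1 ≤ s2) (hn : s1 + s2 = n + 1) (d : ℕ)
    (E1 : Finset (Sym2 (Option (Fin (s1 - 1))))) (E2 : Finset (Sym2 (Option (Fin (s2 - 1)))))
    (hl1 : Loopless E1) (hl2 : Loopless E2) (he1 : EvenDeg E1) (he2 : EvenDeg E2)
    (hc : 6 ∣ E1.card + E2.card) (hn6 : ¬ 6 ∣ E1.card)
    (hd1 : ∀ v, d ≤ deg E1 (some v)) (hd2 : ∀ v, d ≤ deg E2 (some v))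
    (hd0 : d ≤ deg E1 none + deg E2 none) :
    ∃ E : Finset (Sym2 (Fin n)), Loopless E ∧ EvenDeg E ∧ 6 ∣ E.card ∧ ¬ Dec E ∧
      ∀ v, d ≤ deg E v := by
  obtain ⟨E, hl, he, h6, hD, hi, hr, h0⟩ := glue (s1 - 1) (s2 - 1) E1 E2 hl1 hl2 he1 he2 hc hn6
  have hcard : Fintype.card (Option (Fin (s1 - 1) ⊕ Fin (s2 - 1))) = n := by
    rw [Fintype.card_option, Fintype.card_sum, Fintype.card_fin, Fintype.card_fin]
    omega
  refine transport (Fintype.equivFinOfCardEq hcard) E hl he h6 hD d ?_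
  intro v
  rcases v with _ | v
  · rw [h0]; exact hd0
  · rcases v with v | v
    · rw [hi]; exact hd1 v
    · rw [hr]; exact hd2 v

theorem lb4_blocks (n s1 s2 : ℕ) (h1 : 40 ≤ s1) (h2 : 40 ≤ s2) (hn : s1 + s2 = n + 1) (d : ℕ)
    (hd1 : d ≤ s1 - 3 + (s1 + 1) % 2) (hd2 : d ≤ s2 - 3 + (s2 + 1) % 2)
    (hd0 : d ≤ (s1 - 14) + (s2 - 14)) :
    ∃ E : Finset (Sym2 (Fin n)), Loopless E ∧ EvenDeg E ∧ 6 ∣ E.card ∧ ¬ Dec E ∧
      ∀ v, d ≤ deg E v := by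
  obtain ⟨E1, hl1, he1, hc1, hs1, hz1⟩ := block s1 h1 1
  obtain ⟨E2, hl2, he2, hc2, hs2, hz2⟩ := block s2 h2 5
  refine lb4_two n s1 s2 (by omega) (by omega) hn d E1 E2 hl1 hl2 he1 he2 (by omega) (by omega)
    (fun v => hd1.trans (hs1 v)) (fun v => hd2.trans (hs2 v)) (hd0.trans ?_)
  omega

theorem lb4_exc (k : ℕ) (hk : 1 ≤ k) (h : k % 6 = 1 ∨ k % 6 = 3) :
    ∃ E : Finset (Sym2 (Fin (4 * k + 1))), Loopless E ∧ EvenDeg E ∧ 6 ∣ E.card ∧ ¬ Dec E ∧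
      ∀ v, 2 * k ≤ deg E v := by
  obtain ⟨E, hl, he, hc, hd⟩ := block_complete (2 * k + 1) (by omega) (by omega)
  have hc1 : E.card = k * (2 * k + 1) := by
    have h1 : (2 * k + 1) * (2 * k + 1 - 1) = 2 * (k * (2 * k + 1)) := by
      rw [Nat.add_sub_cancel]
      ring
    rw [h1] at hc
    omega
  have hc6 : E.card % 6 = 3 := by
    rw [hc1]
    rcases h with h | h
    · obtain ⟨q, rfl⟩ : ∃ q, k = 6 * q + 1 := ⟨k / 6, by omega⟩
      have h2 : (6 * q + 1) * (2 * (6 * q + 1) + 1) = 6 * (12 * q * q + 5 * q) + 3 := by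
        ring
      omega
    · obtain ⟨q, rfl⟩ : ∃ q, k = 6 * q + 3 := ⟨k / 6, by omega⟩
      have h2 : (6 * q + 3) * (2 * (6 * q + 3) + 1) = 6 * (12 * q * q + 13 * q + 3) + 3 := by
        ring
      omega
  refine lb4_two (4 * k + 1) (2 * k + 1) (2 * k + 1) (by omega) (by omega) (by omega) (2 * k)
    E E hl hl he he (by omega) (by omega) ?_ ?_ ?_
  · intro v; rw [hd]; omega
  · intro v; rw [hd]; omega
  · rw [hd]; omega

theorem lower (n : ℕ) (hn : 1000 ≤ n) :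
    ∃ E : Finset (Sym2 (Fin n)), Loopless E ∧ EvenDeg E ∧ 6 ∣ E.card ∧ ¬ Dec E ∧
      ∀ v, thr n ≤ deg E v + 1 := by
  have h4 : n % 4 = 0 ∨ n % 4 = 1 ∨ n % 4 = 2 ∨ n % 4 = 3 := by omega
  rcases h4 with h | h | h | h
  · obtain ⟨k, rfl⟩ : ∃ k, n = 4 * k := ⟨n / 4, by omega⟩
    have ht : thr (4 * k) = 4 * k / 2 - 1 := by
      unfold thr; rw [if_pos h]
    obtain ⟨E, h1, h2, h3, h5, h6⟩ := lb4_blocks (4 * k) (2 * k) (2 * k + 1) (by omega) (by omega)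
      (by omega) (2 * k - 2) (by omega) (by omega) (by omega)
    exact ⟨E, h1, h2, h3, h5, fun v => by have := h6 v; omega⟩
  · obtain ⟨k, rfl⟩ : ∃ k, n = 4 * k + 1 := ⟨n / 4, by omega⟩
    by_cases hx : (4 * k + 1) % 24 = 5 ∨ (4 * k + 1) % 24 = 13
    · have ht : thr (4 * k + 1) = (4 * k + 1 + 1) / 2 := by
        unfold thr
        rw [if_neg (by omega), if_neg (by omega), if_neg (by omega), if_pos hx]
      obtain ⟨E, h1, h2, h3, h5, h6⟩ := lb4_exc k (by omega) (by omega)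
      exact ⟨E, h1, h2, h3, h5, fun v => by have := h6 v; omega⟩
    · have ht : thr (4 * k + 1) = (4 * k + 1 - 3) / 2 := by
        unfold thr
        rw [if_neg (by omega), if_neg (by omega), if_neg (by omega), if_neg hx]
      obtain ⟨E, h1, h2, h3, h5, h6⟩ := lb4_blocks (4 * k + 1) (2 * k + 1) (2 * k + 1) (by omega)
        (by omega) (by omega) (2 * k - 2) (by omega) (by omega) (by omega)
      exact ⟨E, h1, h2, h3, h5, fun v => by have := h6 v; omega⟩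
  · obtain ⟨k, rfl⟩ : ∃ k, n = 4 * k + 2 := ⟨n / 4, by omega⟩
    have ht : thr (4 * k + 2) = (4 * k + 2) / 2 := by
      unfold thr
      rw [if_neg (by omega), if_pos h]
    obtain ⟨E, h1, h2, h3, h5, h6⟩ := lower_2 k (by omega)
    exact ⟨E, h1, h2, h3, h5, fun v => by have := h6 v; omega⟩
  · obtain ⟨k, rfl⟩ : ∃ k, n = 4 * k + 3 := ⟨n / 4, by omega⟩
    have ht : thr (4 * k + 3) = (4 * k + 3 - 1) / 2 := by
      unfold thr
      rw [if_neg (by omega), if_neg (by omega), if_pos h]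
    obtain ⟨E, h1, h2, h3, h5, h6⟩ := lb4_blocks (4 * k + 3) (2 * k + 2) (2 * k + 2) (by omega)
      (by omega) (by omega) (2 * k) (by omega) (by omega) (by omega)
    exact ⟨E, h1, h2, h3, h5, fun v => by have := h6 v; omega⟩

end H15C6
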