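import Pool.Agent.H15.C6.UPPER
import Pool.Agent.H15.C6.LB4
import Pool.Agent.H15.C6.IFACE

/-!
Module FINAL.  The exact minimum-degree threshold for `C_6`-decompositions.
Upper bound: `upper` for `E = eset G` and `V = Fin n`; even degrees turn `thr n ≤ deg` into the required inequality.
Lower bound: `lower` + `exists_graph` + `dec_of_decomposition`.
-/

open Finset

namespace H15C6

/-- `6 ∣ e(G)` and all degrees are even -/
def C6Divisible {n : ℕ} (G : SimpleGraph (Fin n)) : Prop :=
  6 ∣ G.edgeSet.ncard ∧ ∀ v, Even (G.neighborSet v).ncard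

/-- `f n` -/
noncomputable def threshold (n : ℕ) : ℕ :=
  sInf {d : ℕ | ∀ G : SimpleGraph (Fin n), C6Divisible G →
    (∀ v, d ≤ (G.neighborSet v).ncard) → HasC6Decomposition G}

theorem threshold_eq : ∃ n0 : ℕ, ∀ n : ℕ, n0 ≤ n → threshold n = thr n := by
  obtain ⟨n0, hup⟩ := upper
  refine ⟨max n0 1000, fun n hn => ?_⟩
  have hn0 : n0 ≤ n := (le_max_left _ _).trans hn
  have hn1 : 1000 ≤ n := (le_max_right _ _).trans hn
  have hmem : thr n ∈ {d : ℕ | ∀ G : SimpleGraph (Fin n), C6Divisible G →
      (∀ v, d ≤ (G.neighborSet v).ncard) → HasC6Decomposition G} := by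
    intro G hG hd
    refine decomposition_of_dec G ?_
    have hev : EvenDeg (eset G) := by
      intro v
      rw [eset_deg]
      exact hG.2 v
    have hcard : Fintype.card (Fin n) = n := Fintype.card_fin n
    have hkey : ∀ v, Fintype.card (Fin n) ≤ 2 * deg (eset G) v + 1 ∧
        ((n % 24 = 5 ∨ n % 24 = 13) → Fintype.card (Fin n) ≤ 2 * deg (eset G) v) := by
      intro v
      have h1 := hd v
      rw [← eset_deg G v] at h1
      obtain ⟨r, hr⟩ := hev v
      rw [hcard]
      unfold thr at h1
      split_ifs at h1 <;> omega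
    refine hup (Fin n) (eset G) (by rw [hcard]; exact hn0) (eset_loopless G) hev ?_
      (fun v => (hkey v).1) ?_
    · rw [eset_card]
      exact hG.1
    · rw [hcard]
      by_cases hc : n % 24 = 5 ∨ n % 24 = 13
      · right
        intro v
        have := (hkey v).2 hc
        rw [hcard] at this
        exact this
      · left
        push Not at hc
        exact hc
  refine le_antisymm (Nat.sInf_le hmem) ?_
  refine le_csInf ⟨_, hmem⟩ fun d hd => ?_
  by_contra hlt
  push Not at hlt
  obtain ⟨E, hl, he, h6, hnd, hdeg⟩ := lower n hn1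
  obtain ⟨G, hG⟩ := exists_graph E hl
  refine hnd ?_
  rw [← hG]
  refine dec_of_decomposition G (hd G ⟨?_, ?_⟩ ?_)
  · rw [← eset_card, hG]
    exact h6
  · intro v
    rw [← eset_deg, hG]
    exact he v
  · intro v
    rw [← eset_deg, hG]
    have := hdeg v
    omega

end H15C6
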