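import Pool.Agent.H15.C6.Defs

/-!
Module GL.  General greedy completion lemma: a family of partial six-cycles, each with many
completions in the host graph `H`, can be completed edge-disjointly, every vertex having
small degree in the used part of `H`.

Proof.  Process the requests one by one (`Finset.induction_on` with a stronger statement, or
list induction).  Invariant after processing a set `J'`: completions `v j`, `j ∈ J'`, whose new
edge sets `cyc (v j) \ fixE (c j) = cyc (v j) ∩ H` are pairwise disjoint, and each vertex `p` is an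
*unknown value* (`v j i = p` with `c j i = none`) for at most `q` pairs `(j,i)`; call `p` exhausted if
it is so exactly `q` times.  At most `6 |J| / q` vertices are exhausted.  The used edges at a vertex
`p` number at most `2 (e + q)` (at most 2 for each request where `p` is a port, at most 2 for each
unknown value; a fixed vertex that is not a port has no new edge).  For the next request with `k`
unknowns at most
`6 * (6|J|/q) |S|^(k-1)` completions contain an exhausted unknown vertex and at most
`6 * 2(e+q) * |S|^(k-1)` completions contain a used edge (for a new edge `i`: one of the two positions is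
unknown; fix all other unknowns, then the remaining one is a neighbour through a used edge of a
given vertex; when both are unknown choose one of them freely in `S`).
By `hnum` some completion is left.  Note `|{v ∈ compl6 : v i = a}| ≤ |S|^(k-1)` for `c i = none`,
because a completion is determined by its values on the unknown positions.
Finally `D := J.biUnion (fun j => cyc (v j))`, `Dec D` by `Dec.biUnion` (the sets `cyc (v j)` are
`fixE (c j) ∪ new edges`, all disjoint: `fixE`'s are pairwise disjoint and disjoint from `H`).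
-/

open Finset

set_option linter.unusedSectionVars false

namespace H15C6

/-- new edges of a completion -/
def gl_new {V : Type} [DecidableEq V] (c : Fin 6 → Option V) (v : Fin 6 → V) :
    Finset (Sym2 V) :=
  (univ.filter (fun i : Fin 6 => c i = none ∨ c (i + 1) = none)).image
    (fun i => s(v i, v (i + 1)))

section GLaux

variable {V ι : Type} [DecidableEq V] [DecidableEq ι]

theorem gl_mem_new {c : Fin 6 → Option V} {v : Fin 6 → V} {e : Sym2 V} :
    e ∈ gl_new c v ↔ ∃ i : Fin 6, (c i = none ∨ c (i + 1) = none) ∧ s(v i, v (i + 1)) = e := by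
  simp [gl_new]

theorem gl_new_subset {S : Finset V} {H : Finset (Sym2 V)} {c : Fin 6 → Option V}
    {v : Fin 6 → V} (h : Completes S H c v) : gl_new c v ⊆ H := by
  intro e he
  obtain ⟨i, hi, rfl⟩ := gl_mem_new.1 he
  exact h.2.2.2 i hi

theorem gl_mem_fix {c : Fin 6 → Option V} {e : Sym2 V} :
    e ∈ fixE c ↔ ∃ (i : Fin 6) (p q : V), c i = some p ∧ c (i + 1) = some q ∧ e = s(p, q) := by
  simp only [fixE, mem_biUnion, mem_univ, true_and]
  constructor
  · rintro ⟨i, hi⟩
    cases hp : c i with
    | none => simp [hp] at hi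
    | some p =>
      cases hq : c (i + 1) with
      | none => simp [hp, hq] at hi
      | some q =>
        simp only [hp, hq, mem_singleton] at hi
        exact ⟨i, p, q, hp, hq, hi⟩
  · rintro ⟨i, p, q, hp, hq, rfl⟩
    refine ⟨i, ?_⟩
    rw [hp, hq]
    simp

theorem gl_cyc {S : Finset V} {H : Finset (Sym2 V)} {c : Fin 6 → Option V} {v : Fin 6 → V}
    (h : Completes S H c v) : cyc v = fixE c ∪ gl_new c v := by
  ext e
  rw [mem_union, gl_mem_fix, gl_mem_new, mem_cyc]
  constructor
  · rintro ⟨i, rfl⟩
    cases hp : c i with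
    | none => exact Or.inr ⟨i, Or.inl hp, rfl⟩
    | some p =>
      cases hq : c (i + 1) with
      | none => exact Or.inr ⟨i, Or.inr hq, rfl⟩
      | some q =>
        left
        exact ⟨i, p, q, hp, hq, by rw [h.2.2.1 i p hp, h.2.2.1 _ q hq]⟩
  · rintro (⟨i, p, q, hp, hq, rfl⟩ | ⟨i, _, rfl⟩)
    · exact ⟨i, by rw [h.2.2.1 i p hp, h.2.2.1 _ q hq]⟩
    · exact ⟨i, rfl⟩

theorem gl_prod (c : Fin 6 → Option V) (pos : Fin 6) (hpos : c pos = none) (N : ℕ) :
    ∏ j : Fin 6, (if c j = none ∧ j ≠ pos then N else 1) = N ^ (unk c - 1) := by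
  rw [Finset.prod_ite, prod_const, prod_const_one, mul_one]
  congr 1
  have h : (univ.filter (fun j : Fin 6 => c j = none ∧ j ≠ pos)) =
      (univ.filter (fun j : Fin 6 => c j = none)).erase pos := by
    ext j
    simp only [mem_filter, mem_univ, true_and, mem_erase]
    tauto
  rw [h, card_erase_of_mem (by simpa using hpos)]
  rfl

/-- completions with a restricted value at one unknown position -/
theorem gl_count [Fintype V] {S : Finset V} {H : Finset (Sym2 V)} {c : Fin 6 → Option V}
    {pos : Fin 6} (hpos : c pos = none) (a0 : V) (F : Finset (Fin 6 → V))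
    (hF : F ⊆ compl6 S H c) (B : (Fin 6 → V) → Finset V) (b : ℕ)
    (hB : ∀ v, (B v).card ≤ b) (hBu : ∀ v, B (Function.update v pos a0) = B v)
    (hFB : ∀ v ∈ F, v pos ∈ B v) : F.card ≤ b * S.card ^ (unk c - 1) := by
  have h1 : F.card ≤ b * (F.image (fun v => Function.update v pos a0)).card := by
    apply Finset.card_le_mul_card_image
    intro a ha
    refine le_trans (Finset.card_le_card_of_injOn (fun v => v pos) (t := B a) ?_ ?_) (hB a)
    · intro v hv
      have hv' := mem_filter.1 (mem_coe.1 hv)
      have h3 := hFB v hv'.1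
      rw [← hBu, hv'.2] at h3
      exact mem_coe.2 h3
    · intro v hv v' hv' hvv
      have hv1 := mem_filter.1 (mem_coe.1 hv)
      have hv2 := mem_filter.1 (mem_coe.1 hv')
      funext j
      by_cases hj : j = pos
      · rw [hj]; exact hvv
      · have h3 := congrFun (hv1.2.trans hv2.2.symm) j
        rwa [Function.update_of_ne hj, Function.update_of_ne hj] at h3
  have h2 : (F.image (fun v => Function.update v pos a0)).card ≤ S.card ^ (unk c - 1) := by
    set T : Fin 6 → Finset V := fun j => if j = pos then {a0} else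
      (c j).elim S (fun p => {p}) with hT
    have hsub : F.image (fun v => Function.update v pos a0) ⊆ Fintype.piFinset T := by
      intro u hu
      obtain ⟨v, hv, rfl⟩ := mem_image.1 hu
      rw [Fintype.mem_piFinset]
      have hc := mem_compl6.1 (hF hv)
      intro j
      rw [hT]
      by_cases hj : j = pos
      · subst hj
        simp
      · simp only [if_neg hj, Function.update_of_ne hj]
        cases hcj : c j with
        | none => simpa using hc.2.1 j hcj
        | some p => simpa using hc.2.2.1 j p hcj
    refine (card_le_card hsub).trans ?_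
    rw [Fintype.card_piFinset, ← gl_prod c pos hpos]
    apply le_of_eq
    apply prod_congr rfl
    intro j _
    rw [hT]
    by_cases hj : j = pos
    · simp [hj]
    · simp only [if_neg hj]
      cases hcj : c j with
      | none => simp [hj]
      | some p => simp
  calc F.card ≤ b * (F.image (fun v => Function.update v pos a0)).card := h1
    _ ≤ b * S.card ^ (unk c - 1) := Nat.mul_le_mul_left _ h2

theorem gl_deg_cyc {v : Fin 6 → V} (hv : Function.Injective v) (p : V) : deg (cyc v) p ≤ 2 := by
  by_cases hx : ∃ i, v i = p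
  · obtain ⟨i, rfl⟩ := hx
    rw [deg_cyc_mem hv]
  · rw [deg_cyc_notMem (fun i hi => hx ⟨i, hi⟩)]
    omega

theorem gl_fin6 : ∀ i : Fin 6, i + 1 + 5 = i := by decide

theorem gl_deg_new {S : Finset V} {H : Finset (Sym2 V)} {c : Fin 6 → Option V} {v : Fin 6 → V}
    (h : Completes S H c v) (p : V) :
    deg (gl_new c v) p ≤ 2 * ((if IsPort c p then 1 else 0) +
      (univ.filter (fun i : Fin 6 => c i = none ∧ v i = p)).card) := by
  by_cases h0 : ∃ e ∈ gl_new c v, p ∈ e
  · have h1 : deg (gl_new c v) p ≤ 2 := by
      refine le_trans (deg_mono ?_ p) (gl_deg_cyc h.1 p)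
      rw [gl_cyc h]
      exact subset_union_right
    obtain ⟨e, he, hpe⟩ := h0
    obtain ⟨i, hi, rfl⟩ := gl_mem_new.1 he
    rw [Sym2.mem_iff] at hpe
    have key : IsPort c p ∨ ∃ j : Fin 6, c j = none ∧ v j = p := by
      rcases hpe with hp | hp
      · cases hc : c i with
        | none => exact Or.inr ⟨i, hc, hp.symm⟩
        | some p' =>
          left
          have h2 := h.2.2.1 i p' hc
          rw [hc] at hi
          refine ⟨i, ?_, Or.inl (by simpa using hi)⟩
          rw [hc, hp, h2]
      · cases hc : c (i + 1) with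
        | none => exact Or.inr ⟨i + 1, hc, hp.symm⟩
        | some p' =>
          left
          have h2 := h.2.2.1 (i + 1) p' hc
          rw [hc] at hi
          refine ⟨i + 1, ?_, Or.inr ?_⟩
          · rw [hc, hp, h2]
          · rw [gl_fin6]
            simpa using hi
    have h3 : 1 ≤ (if IsPort c p then 1 else 0) +
      (univ.filter (fun i : Fin 6 => c i = none ∧ v i = p)).card := by
      rcases key with hk | ⟨j, hj⟩
      · rw [if_pos hk]; omega
      · have : 0 < (univ.filter (fun i : Fin 6 => c i = none ∧ v i = p)).card :=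
          card_pos.2 ⟨j, by simpa using hj⟩
        omega
    omega
  · have h1 : deg (gl_new c v) p = 0 := by
      unfold deg
      rw [card_eq_zero, filter_eq_empty_iff]
      intro e he hp
      exact h0 ⟨e, he, hp⟩
    omega

theorem gl_deg_biUnion (J : Finset ι) (f : ι → Finset (Sym2 V)) (p : V) :
    deg (J.biUnion f) p ≤ ∑ j ∈ J, deg (f j) p := by
  induction J using Finset.induction_on with
  | empty => simp
  | @insert a J ha ih =>
    rw [biUnion_insert, sum_insert ha]
    exact (deg_union_le _ _ p).trans (Nat.add_le_add_left ih _)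

theorem gl_deg_used {S : Finset V} {H : Finset (Sym2 V)} (J : Finset ι)
    (c : ι → Fin 6 → Option V) (w : ι → Fin 6 → V) (hw : ∀ j ∈ J, Completes S H (c j) (w j))
    (e q : ℕ) (p : V) (he : (J.filter (fun j => IsPort (c j) p)).card ≤ e)
    (hq : ∑ j ∈ J, (univ.filter (fun i : Fin 6 => c j i = none ∧ w j i = p)).card ≤ q) :
    deg (J.biUnion (fun j => gl_new (c j) (w j))) p ≤ 2 * (e + q) := by
  calc deg (J.biUnion (fun j => gl_new (c j) (w j))) p
      ≤ ∑ j ∈ J, deg (gl_new (c j) (w j)) p := gl_deg_biUnion _ _ _
    _ ≤ ∑ j ∈ J, 2 * ((if IsPort (c j) p then 1 else 0) +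
      (univ.filter (fun i : Fin 6 => c j i = none ∧ w j i = p)).card) :=
        sum_le_sum (fun j hj => gl_deg_new (hw j hj) p)
    _ = 2 * ((J.filter (fun j => IsPort (c j) p)).card +
      ∑ j ∈ J, (univ.filter (fun i : Fin 6 => c j i = none ∧ w j i = p)).card) := by
        rw [← mul_sum, sum_add_distrib, card_filter]
    _ ≤ 2 * (e + q) := by omega

/-- the number of exhausted vertices -/
theorem gl_exhausted [Fintype V] (J : Finset ι) (c : ι → Fin 6 → Option V)
    (w : ι → Fin 6 → V) (q : ℕ) :
    q * (univ.filter (fun p : V => q ≤ ∑ j ∈ J,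
      (univ.filter (fun i : Fin 6 => c j i = none ∧ w j i = p)).card)).card ≤ 6 * J.card := by
  set X := univ.filter (fun p : V => q ≤ ∑ j ∈ J,
      (univ.filter (fun i : Fin 6 => c j i = none ∧ w j i = p)).card) with hX
  have h1 : q * X.card ≤ ∑ p ∈ X, ∑ j ∈ J,
      (univ.filter (fun i : Fin 6 => c j i = none ∧ w j i = p)).card := by
    rw [mul_comm, ← smul_eq_mul, ← sum_const]
    apply sum_le_sum
    intro p hp
    exact (mem_filter.1 hp).2
  have h2 : ∑ p ∈ X, ∑ j ∈ J,
      (univ.filter (fun i : Fin 6 => c j i = none ∧ w j i = p)).card ≤ 6 * J.card := by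
    rw [sum_comm, mul_comm, ← smul_eq_mul, ← sum_const]
    apply sum_le_sum
    intro j _
    calc ∑ p ∈ X, (univ.filter (fun i : Fin 6 => c j i = none ∧ w j i = p)).card
        ≤ ∑ p : V, (univ.filter (fun i : Fin 6 => c j i = none ∧ w j i = p)).card :=
          sum_le_sum_of_subset (subset_univ _)
      _ ≤ ∑ p : V, (univ.filter (fun i : Fin 6 => w j i = p)).card := by
          apply sum_le_sum
          intro p _
          apply card_le_card
          intro i hi
          simp only [mem_filter, mem_univ, true_and] at hi ⊢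
          exact hi.2
      _ = (univ : Finset (Fin 6)).card :=
          (card_eq_sum_card_fiberwise (fun i _ => mem_coe.2 (mem_univ (w j i)))).symm
      _ = 6 := by simp
  omega

/-- one greedy step -/
theorem gl_step [Fintype V] {S : Finset V} {H U : Finset (Sym2 V)} {c : Fin 6 → Option V}
    {X : Finset V} {a0 : V} {d : ℕ} (hU : ∀ p, deg U p ≤ d)
    (hbig : (6 * X.card + 6 * d) * S.card ^ (unk c - 1) < (compl6 S H c).card) :
    ∃ v, Completes S H c v ∧ (∀ i, c i = none → v i ∉ X) ∧ Disjoint (gl_new c v) U := by
  by_contra hcon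
  push Not at hcon
  -- every completion is bad
  have hcov : compl6 S H c ⊆
      (univ.filter (fun i : Fin 6 => c i = none)).biUnion
        (fun i => (compl6 S H c).filter (fun v => v i ∈ X)) ∪
      (univ.filter (fun i : Fin 6 => c i = none ∨ c (i + 1) = none)).biUnion
        (fun i => (compl6 S H c).filter (fun v => s(v i, v (i + 1)) ∈ U)) := by
    intro v hv
    rw [mem_union]
    by_cases h1 : ∀ i, c i = none → v i ∉ X
    · right
      have h2 := hcon v (mem_compl6.1 hv) h1
      rw [not_disjoint_iff] at h2
      obtain ⟨e, he, heU⟩ := h2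
      obtain ⟨i, hi, rfl⟩ := gl_mem_new.1 he
      rw [mem_biUnion]
      exact ⟨i, by simpa using hi, mem_filter.2 ⟨hv, heU⟩⟩
    · left
      push Not at h1
      obtain ⟨i, hi, hX⟩ := h1
      rw [mem_biUnion]
      exact ⟨i, by simpa using hi, mem_filter.2 ⟨hv, hX⟩⟩
  have hnb : ∀ x : V, ((univ : Finset V).filter (fun y => s(x, y) ∈ U)).card ≤ d := by
    intro x
    refine le_trans ?_ (hU x)
    exact dg_le_deg U univ x
  have hA : ((univ.filter (fun i : Fin 6 => c i = none)).biUnion
      (fun i => (compl6 S H c).filter (fun v => v i ∈ X))).card ≤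
      6 * (X.card * S.card ^ (unk c - 1)) := by
    refine card_biUnion_le.trans ?_
    calc ∑ i ∈ univ.filter (fun i : Fin 6 => c i = none),
          ((compl6 S H c).filter (fun v => v i ∈ X)).card
        ≤ ∑ _i ∈ univ.filter (fun i : Fin 6 => c i = none), X.card * S.card ^ (unk c - 1) := by
          apply sum_le_sum
          intro i hi
          exact gl_count (pos := i) (by simpa using hi) a0 _ (filter_subset _ _) (fun _ => X)
            X.card (fun _ => le_rfl) (fun _ => rfl) (fun v hv => (mem_filter.1 hv).2)
      _ ≤ 6 * (X.card * S.card ^ (unk c - 1)) := by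
          rw [sum_const, smul_eq_mul]
          apply Nat.mul_le_mul_right
          exact (card_filter_le _ _).trans (by simp)
  have hne : ∀ i : Fin 6, i ≠ i + 1 := fin6_aux2
  have hB : ((univ.filter (fun i : Fin 6 => c i = none ∨ c (i + 1) = none)).biUnion
      (fun i => (compl6 S H c).filter (fun v => s(v i, v (i + 1)) ∈ U))).card ≤
      6 * (d * S.card ^ (unk c - 1)) := by
    refine card_biUnion_le.trans ?_
    calc ∑ i ∈ univ.filter (fun i : Fin 6 => c i = none ∨ c (i + 1) = none),
          ((compl6 S H c).filter (fun v => s(v i, v (i + 1)) ∈ U)).card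
        ≤ ∑ _i ∈ univ.filter (fun i : Fin 6 => c i = none ∨ c (i + 1) = none),
          d * S.card ^ (unk c - 1) := by
          apply sum_le_sum
          intro i hi
          rw [mem_filter] at hi
          rcases hi.2 with hi | hi
          · refine gl_count (pos := i) hi a0 _ (filter_subset _ _)
              (fun v => univ.filter (fun y => s(v (i + 1), y) ∈ U)) d (fun v => hnb _)
              (fun v => ?_) (fun v hv => ?_)
            · rw [Function.update_of_ne (hne i).symm]
            · rw [mem_filter]
              refine ⟨mem_univ _, ?_⟩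
              rw [Sym2.eq_swap]
              exact (mem_filter.1 hv).2
          · refine gl_count (pos := i + 1) hi a0 _ (filter_subset _ _)
              (fun v => univ.filter (fun y => s(v i, y) ∈ U)) d (fun v => hnb _)
              (fun v => ?_) (fun v hv => ?_)
            · rw [Function.update_of_ne (hne i)]
            · rw [mem_filter]
              exact ⟨mem_univ _, (mem_filter.1 hv).2⟩
      _ ≤ 6 * (d * S.card ^ (unk c - 1)) := by
          rw [sum_const, smul_eq_mul]
          apply Nat.mul_le_mul_right
          exact (card_filter_le _ _).trans (by simp)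
  have h1 := (card_le_card hcov).trans (card_union_le _ _)
  have h2 : (6 * X.card + 6 * d) * S.card ^ (unk c - 1) =
      6 * (X.card * S.card ^ (unk c - 1)) + 6 * (d * S.card ^ (unk c - 1)) := by ring
  omega

end GLaux

theorem gl_induct {V ι : Type} [Fintype V] [DecidableEq V] [DecidableEq ι]
    (J : Finset ι) (c : ι → Fin 6 → Option V) (S : Finset V) (H : Finset (Sym2 V))
    (h : ℝ) (e q : ℕ) (hq : 1 ≤ q)
    (hunk : ∀ j ∈ J, 1 ≤ unk (c j))
    (hrich : ∀ j ∈ J, h * (S.card : ℝ) ^ (unk (c j)) ≤ ((compl6 S H (c j)).card : ℝ))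
    (hload : ∀ p, (J.filter (fun j => IsPort (c j) p)).card ≤ e)
    (hnum : 36 * (J.card : ℝ) / q + 12 * e + 12 * q < h * S.card) (a0 : V)
    (hS : 0 < S.card) (J' : Finset ι) (hJ' : J' ⊆ J) :
    ∃ w : ι → Fin 6 → V, (∀ j ∈ J', Completes S H (c j) (w j)) ∧
      (∀ j ∈ J', ∀ j' ∈ J', j ≠ j' → Disjoint (gl_new (c j) (w j)) (gl_new (c j') (w j'))) ∧
      ∀ p, ∑ j ∈ J', (univ.filter (fun i : Fin 6 => c j i = none ∧ w j i = p)).card ≤ q := by
  induction J' using Finset.induction_on with
  | empty =>
    refine ⟨fun _ _ => a0, fun j hj => absurd hj (notMem_empty j),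
      fun j hj => absurd hj (notMem_empty j), fun p => ?_⟩
    rw [sum_empty]
    omega
  | @insert a J' ha ih =>
    obtain ⟨w, hw1, hw2, hw3⟩ := ih ((subset_insert a J').trans hJ')
    have haJ : a ∈ J := hJ' (mem_insert_self a J')
    have hJ'J : J' ⊆ J := (subset_insert a J').trans hJ'
    set U := J'.biUnion (fun j => gl_new (c j) (w j)) with hU
    set X := univ.filter (fun p : V => q ≤ ∑ j ∈ J',
      (univ.filter (fun i : Fin 6 => c j i = none ∧ w j i = p)).card) with hX
    have hdeg : ∀ p, deg U p ≤ 2 * (e + q) := by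
      intro p
      apply gl_deg_used J' c w hw1 e q p _ (hw3 p)
      exact (card_le_card (filter_subset_filter _ hJ'J)).trans (hload p)
    have hXc : (X.card : ℝ) ≤ 6 * J.card / q := by
      have h1 := gl_exhausted J' c w q
      rw [← hX] at h1
      have h2 : J'.card ≤ J.card := card_le_card hJ'J
      have hq0 : (0 : ℝ) < q := by exact_mod_cast hq
      rw [le_div_iff₀ hq0]
      have h3 : q * X.card ≤ 6 * J.card := by omega
      have h4 : (q : ℝ) * X.card ≤ 6 * J.card := by exact_mod_cast h3
      linarith
    have hbig : (6 * X.card + 6 * (2 * (e + q))) * S.card ^ (unk (c a) - 1) <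
        (compl6 S H (c a)).card := by
      have h1 := hrich a haJ
      have h2 : (unk (c a)) = (unk (c a) - 1) + 1 := by
        have := hunk a haJ
        omega
      rw [h2, pow_succ] at h1
      have hS' : (0 : ℝ) < S.card := by exact_mod_cast hS
      have h3 : (0 : ℝ) < (S.card : ℝ) ^ (unk (c a) - 1) := pow_pos hS' _
      have h4 : ((6 * X.card + 6 * (2 * (e + q)) : ℕ) : ℝ) < h * S.card := by
        push_cast
        have h5 : 36 * (J.card : ℝ) / q = 6 * (6 * J.card / q) := by ring
        rw [h5] at hnum
        linarith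
      have h6 : ((6 * X.card + 6 * (2 * (e + q)) : ℕ) : ℝ) * (S.card : ℝ) ^ (unk (c a) - 1) <
          ((compl6 S H (c a)).card : ℝ) := by
        calc ((6 * X.card + 6 * (2 * (e + q)) : ℕ) : ℝ) * (S.card : ℝ) ^ (unk (c a) - 1)
            < h * S.card * (S.card : ℝ) ^ (unk (c a) - 1) := mul_lt_mul_of_pos_right h4 h3
          _ = h * ((S.card : ℝ) ^ (unk (c a) - 1) * S.card) := by ring
          _ ≤ _ := h1
      exact_mod_cast h6
    obtain ⟨v, hv1, hv2, hv3⟩ := gl_step (a0 := a0) hdeg hbig
    refine ⟨Function.update w a v, ?_, ?_, ?_⟩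
    · intro j hj
      rcases mem_insert.1 hj with rfl | hj
      · rw [Function.update_self]
        exact hv1
      · have hja : j ≠ a := fun hEq => ha (hEq ▸ hj)
        rw [Function.update_of_ne hja]
        exact hw1 j hj
    · have hdis : ∀ j ∈ J', Disjoint (gl_new (c a) v) (gl_new (c j) (w j)) := by
        intro j hj
        exact disjoint_of_subset_right (subset_biUnion_of_mem (fun j => gl_new (c j) (w j)) hj)
          hv3
      intro j hj0 j' hj0' hne
      rcases mem_insert.1 hj0 with hj | hj
      · rcases mem_insert.1 hj0' with hj' | hj'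
        · exact absurd (hj.trans hj'.symm) hne
        · rw [hj] at hne ⊢
          rw [Function.update_self, Function.update_of_ne hne.symm]
          exact hdis j' hj'
      · rcases mem_insert.1 hj0' with hj' | hj'
        · rw [hj'] at hne ⊢
          rw [Function.update_self, Function.update_of_ne hne]
          exact (hdis j hj).symm
        · have hja : j ≠ a := fun hEq => ha (hEq ▸ hj)
          have hja' : j' ≠ a := fun hEq => ha (hEq ▸ hj')
          rw [Function.update_of_ne hja, Function.update_of_ne hja']
          exact hw2 j hj j' hj' hne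
    · intro p
      rw [sum_insert ha, Function.update_self]
      have h1 : ∑ j ∈ J', (univ.filter (fun i : Fin 6 => c j i = none ∧
          Function.update w a v j i = p)).card =
          ∑ j ∈ J', (univ.filter (fun i : Fin 6 => c j i = none ∧ w j i = p)).card := by
        apply sum_congr rfl
        intro j hj
        have hja : j ≠ a := fun hEq => ha (hEq ▸ hj)
        rw [Function.update_of_ne hja]
      rw [h1]
      have h2 : (univ.filter (fun i : Fin 6 => c a i = none ∧ v i = p)).card ≤ 1 := by
        rw [card_le_one]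
        intro i hi i' hi'
        simp only [mem_filter, mem_univ, true_and] at hi hi'
        exact hv1.1 (hi.2.trans hi'.2.symm)
      by_cases hp : p ∈ X
      · have h3 : (univ.filter (fun i : Fin 6 => c a i = none ∧ v i = p)).card = 0 := by
          rw [card_eq_zero, filter_eq_empty_iff]
          rintro i _ ⟨hi1, hi2⟩
          exact hv2 i hi1 (hi2 ▸ hp)
        have h4 := hw3 p
        omega
      · have h3 : ∑ j ∈ J', (univ.filter (fun i : Fin 6 => c j i = none ∧ w j i = p)).card < q := by
          by_contra hcon
          exact hp (mem_filter.2 ⟨mem_univ _, not_lt.1 hcon⟩)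
        omega

theorem greedy_complete {V ι : Type} [Fintype V] [DecidableEq V] [DecidableEq ι]
    (J : Finset ι) (c : ι → Fin 6 → Option V) (S : Finset V) (H : Finset (Sym2 V))
    (h : ℝ) (e q : ℕ) (hq : 1 ≤ q)
    (hunk : ∀ j ∈ J, 1 ≤ unk (c j))
    (hrich : ∀ j ∈ J, h * (S.card : ℝ) ^ (unk (c j)) ≤ ((compl6 S H (c j)).card : ℝ))
    (hload : ∀ p, (J.filter (fun j => IsPort (c j) p)).card ≤ e)
    (hnum : 36 * (J.card : ℝ) / q + 12 * e + 12 * q < h * S.card)
    (hfix : ∀ j ∈ J, ∀ j' ∈ J, j ≠ j' → Disjoint (fixE (c j)) (fixE (c j')))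
    (hfixH : ∀ j ∈ J, Disjoint (fixE (c j)) H) :
    ∃ D : Finset (Sym2 V), Dec D ∧ (∀ j ∈ J, fixE (c j) ⊆ D) ∧
      D ⊆ H ∪ J.biUnion (fun j => fixE (c j)) ∧ ∀ p, deg (D ∩ H) p ≤ 2 * (e + q) := by
  have hS : 0 < S.card := by
    rcases Nat.eq_zero_or_pos S.card with h0 | h0
    · exfalso
      rw [h0, Nat.cast_zero, mul_zero] at hnum
      have h1 : (0 : ℝ) ≤ 36 * (J.card : ℝ) / q + 12 * e + 12 * q := by positivity
      linarith
    · exact h0
  obtain ⟨a0, _⟩ := card_pos.1 hS
  obtain ⟨w, hw1, hw2, hw3⟩ := gl_induct J c S H h e q hq hunk hrich hload hnum a0 hS J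
    (Subset.refl J)
  refine ⟨J.biUnion (fun j => cyc (w j)), ?_, ?_, ?_, ?_⟩
  · apply Dec.biUnion
    · intro j hj
      exact IsC6.dec ⟨w j, (hw1 j hj).1, rfl⟩
    · intro j hj j' hj' hne
      rw [gl_cyc (hw1 j hj), gl_cyc (hw1 j' hj'), disjoint_union_left, disjoint_union_right,
        disjoint_union_right]
      exact ⟨⟨hfix j hj j' hj' hne,
        disjoint_of_subset_right (gl_new_subset (hw1 j' hj')) (hfixH j hj)⟩,
        (disjoint_of_subset_right (gl_new_subset (hw1 j hj)) (hfixH j' hj')).symm,
        hw2 j hj j' hj' hne⟩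
  · intro j hj
    refine Subset.trans ?_ (subset_biUnion_of_mem (fun j => cyc (w j)) hj)
    rw [gl_cyc (hw1 j hj)]
    exact subset_union_left
  · intro x hx
    obtain ⟨j, hj, hxj⟩ := mem_biUnion.1 hx
    rw [gl_cyc (hw1 j hj), mem_union] at hxj
    rw [mem_union]
    rcases hxj with hxj | hxj
    · right
      exact mem_biUnion.2 ⟨j, hj, hxj⟩
    · left
      exact gl_new_subset (hw1 j hj) hxj
  · intro p
    refine le_trans (deg_mono ?_ p) (gl_deg_used J c w hw1 e q p (hload p) (hw3 p))
    intro x hx
    obtain ⟨hx1, hx2⟩ := mem_inter.1 hx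
    obtain ⟨j, hj, hxj⟩ := mem_biUnion.1 hx1
    rw [gl_cyc (hw1 j hj), mem_union] at hxj
    rw [mem_biUnion]
    rcases hxj with hxj | hxj
    · exact absurd hx2 (disjoint_left.1 (hfixH j hj) hxj)
    · exact ⟨j, hj, hxj⟩

end H15C6
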