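import Pool.Agent.H15.C6.COL

/-!
Module INH.  Inheritance of path counts by colour classes.

Apply `exists_coloring` with `S` and the weight functions (index type a sum type or
`Fin 4 × V × V`, all values in `[0,1]`; `s = |S|`)
* `w0 = 1`;
* `w1(b,y) : c ↦ [s(b,c) ∈ E ∧ s(c,y) ∈ E]`, `b ∈ S`, `y ∈ U`;
* `w2(a,y) : b ↦ [s(a,b) ∈ E] * (#{c ∈ S : s(b,c) ∈ E ∧ s(c,y) ∈ E}) / s`, `a ∈ S`, `y ∈ U`;
* `w3(x,y) : a ↦ [s(x,a) ∈ E] * P3 E S a y / s^2`, `x, y ∈ U`.
In total at most `3 |U|^2 + 1` functions.  With `K = |κ|`, for all colours: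
`N1(b,y;k3) := #{c ∈ S: walk b c y, τ c = k3} ≥ cn(b,y)/K - t`;
`N2(a,y;k2,k3) := ∑_{b ∈ N(a), τ b = k2} N1(b,y;k3) ≥ (1/K) ∑_{b ∈ N(a), τ b = k2} cn(b,y) - t s
  ≥ (1/K)(P3(a,y)/K - t s) - t s ≥ P3(a,y)/K^2 - 2 t s`;
`N3(x,y;k1,k2,k3) ≥ (1/K^2)(P4(x,y)/K - t s^2) - 2 t s^2 ≥ P4(x,y)/K^3 - 3 t s^2`.
-/

open Finset

namespace H15C6

section
variable {V : Type} [DecidableEq V]

/-- indicator of the edge `pq` -/
private noncomputable def inhE (E : Finset (Sym2 V)) (p q : V) : ℝ := if s(p, q) ∈ E then 1 else 0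

private noncomputable def inh3 (E : Finset (Sym2 V)) (C : Finset V) (b y : V) : ℝ :=
  ∑ c ∈ C, inhE E b c * inhE E c y

private noncomputable def inh2 (E : Finset (Sym2 V)) (B C : Finset V) (a y : V) : ℝ :=
  ∑ b ∈ B, inhE E a b * inh3 E C b y

private noncomputable def inh1 (E : Finset (Sym2 V)) (A B C : Finset V) (x y : V) : ℝ :=
  ∑ a ∈ A, inhE E x a * inh2 E B C a y

private theorem inhE_nonneg (E : Finset (Sym2 V)) (p q : V) : 0 ≤ inhE E p q := by
  unfold inhE; split_ifs <;> norm_num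

private theorem inhE_le_one (E : Finset (Sym2 V)) (p q : V) : inhE E p q ≤ 1 := by
  unfold inhE; split_ifs <;> norm_num

private theorem inh3_nonneg (E : Finset (Sym2 V)) (C : Finset V) (b y : V) : 0 ≤ inh3 E C b y :=
  sum_nonneg fun _ _ => mul_nonneg (inhE_nonneg _ _ _) (inhE_nonneg _ _ _)

private theorem inh2_nonneg (E : Finset (Sym2 V)) (B C : Finset V) (b y : V) :
    0 ≤ inh2 E B C b y :=
  sum_nonneg fun _ _ => mul_nonneg (inhE_nonneg _ _ _) (inh3_nonneg _ _ _ _)

private theorem inh3_le (E : Finset (Sym2 V)) (C : Finset V) (b y : V) :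
    inh3 E C b y ≤ C.card := by
  unfold inh3
  refine (sum_le_card_nsmul _ _ 1 fun c _ => ?_).trans (by simp)
  exact mul_le_one₀ (inhE_le_one _ _ _) (inhE_nonneg _ _ _) (inhE_le_one _ _ _)

private theorem inh2_le (E : Finset (Sym2 V)) (B C : Finset V) (b y : V) :
    inh2 E B C b y ≤ (B.card : ℝ) * C.card := by
  unfold inh2
  refine (sum_le_card_nsmul _ _ (C.card : ℝ) fun c _ => ?_).trans (by simp)
  calc inhE E b c * inh3 E C c y ≤ 1 * C.card :=
        mul_le_mul (inhE_le_one _ _ _) (inh3_le _ _ _ _) (inh3_nonneg _ _ _ _) zero_le_one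
    _ = _ := one_mul _

private theorem inh_card (E : Finset (Sym2 V)) (A B C : Finset V) (x y : V) :
    (((A ×ˢ B ×ˢ C).filter (fun t => s(x, t.1) ∈ E ∧ s(t.1, t.2.1) ∈ E ∧
      s(t.2.1, t.2.2) ∈ E ∧ s(t.2.2, y) ∈ E)).card : ℝ) = inh1 E A B C x y := by
  rw [card_filter]
  push_cast
  rw [sum_product]
  unfold inh1
  refine sum_congr rfl fun a _ => ?_
  rw [sum_product, inh2, mul_sum]
  refine sum_congr rfl fun b _ => ?_
  rw [inh3, mul_sum, mul_sum]
  refine sum_congr rfl fun c _ => ?_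
  simp only [inhE]
  by_cases h1 : s(x, a) ∈ E <;> by_cases h2 : s(a, b) ∈ E <;> by_cases h3 : s(b, c) ∈ E <;>
    by_cases h4 : s(c, y) ∈ E <;> simp [h1, h2, h3, h4]

private theorem inh_P4 (E : Finset (Sym2 V)) (S : Finset V) (x y : V) :
    (P4 E S x y : ℝ) = inh1 E S S S x y := inh_card E S S S x y

private theorem inh_P4k {κ : Type} [DecidableEq κ] (E : Finset (Sym2 V)) (S : Finset V)
    (τ : V → κ) (k1 k2 k3 : κ) (x y : V) :
    (P4k E S τ k1 k2 k3 x y : ℝ) = inh1 E (S.filter (fun u => τ u = k1))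
      (S.filter (fun u => τ u = k2)) (S.filter (fun u => τ u = k3)) x y := by
  rw [← inh_card]
  unfold P4k
  congr 2
  ext ⟨a, b, c⟩
  simp only [mem_filter, mem_product]
  tauto

end

theorem P4_inherit {V κ : Type} [DecidableEq V] [Fintype κ] [DecidableEq κ] [Nonempty κ]
    (U S : Finset V) (hSU : S ⊆ U) (E : Finset (Sym2 V)) (t : ℝ) (ht : 0 < t)
    (hnum : 2 * (3 * (U.card : ℝ) ^ 2 + 1) * (Fintype.card κ : ℝ) *
      Real.exp (-(t ^ 2) / (4 * (S.card : ℝ))) < 1) :
    ∃ τ : V → κ,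
      (∀ k : κ, |((S.filter (fun u => τ u = k)).card : ℝ) - (S.card : ℝ) / (Fintype.card κ : ℝ)| ≤ t) ∧
      ∀ x ∈ U, ∀ y ∈ U, ∀ k1 k2 k3 : κ,
        (P4 E S x y : ℝ) / (Fintype.card κ : ℝ) ^ 3 - 3 * t * (S.card : ℝ) ^ 2 ≤
          (P4k E S τ k1 k2 k3 x y : ℝ) := by
  classical
  set K : ℝ := (Fintype.card κ : ℝ) with hK
  have hK1 : 1 ≤ K := by
    rw [hK]
    exact_mod_cast Fintype.card_pos
  have hK0 : 0 < K := by linarith
  set σ : ℝ := (S.card : ℝ) with hσ
  have hσ0 : 0 ≤ σ := Nat.cast_nonneg _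
  -- the weights
  let w : Option (Fin 3 × V × V) → V → ℝ := fun i u =>
    match i with
    | none => 1
    | some (0, b, y) => inhE E b u * inhE E u y
    | some (1, a, y) => inhE E a u * (inh3 E S u y / σ)
    | some (2, x, y) => inhE E x u * (inh2 E S S u y / σ ^ 2)
  let F : Finset (Option (Fin 3 × V × V)) :=
    insert none (((univ : Finset (Fin 3)) ×ˢ U ×ˢ U).map Function.Embedding.some)
  have hFmem : ∀ i : Fin 3, ∀ p ∈ U, ∀ q ∈ U, some (i, p, q) ∈ F := by
    intro i p hp q hq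
    simp only [F, mem_insert, mem_map, Function.Embedding.some_apply]
    right
    exact ⟨(i, p, q), by simp [hp, hq], rfl⟩
  have hFcard : (F.card : ℝ) ≤ 3 * (U.card : ℝ) ^ 2 + 1 := by
    have h1 : F.card ≤ 3 * U.card ^ 2 + 1 := by
      refine (card_insert_le _ _).trans ?_
      rw [card_map, card_product, card_product, card_univ, Fintype.card_fin, sq]
    exact_mod_cast h1
  have hdiv1 : ∀ z : ℝ, 0 ≤ z → z ≤ σ → 0 ≤ z / σ ∧ z / σ ≤ 1 := by
    intro z hz hz'
    refine ⟨div_nonneg hz hσ0, ?_⟩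
    exact div_le_one_of_le₀ hz' hσ0
  have hdiv2 : ∀ z : ℝ, 0 ≤ z → z ≤ σ ^ 2 → 0 ≤ z / σ ^ 2 ∧ z / σ ^ 2 ≤ 1 := by
    intro z hz hz'
    refine ⟨div_nonneg hz (by positivity), ?_⟩
    exact div_le_one_of_le₀ hz' (by positivity)
  have hw : ∀ i ∈ F, ∀ u ∈ S, 0 ≤ w i u ∧ w i u ≤ 1 := by
    intro i _ u _
    match i with
    | none => exact ⟨zero_le_one, le_rfl⟩
    | some (0, b, y) =>
      exact ⟨mul_nonneg (inhE_nonneg _ _ _) (inhE_nonneg _ _ _),
        mul_le_one₀ (inhE_le_one _ _ _) (inhE_nonneg _ _ _) (inhE_le_one _ _ _)⟩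
    | some (1, a, y) =>
      have h1 := hdiv1 _ (inh3_nonneg E S u y) (inh3_le E S u y)
      exact ⟨mul_nonneg (inhE_nonneg _ _ _) h1.1, mul_le_one₀ (inhE_le_one _ _ _) h1.1 h1.2⟩
    | some (2, x, y) =>
      have h1 := hdiv2 _ (inh2_nonneg E S S u y) (by rw [sq]; exact inh2_le E S S u y)
      exact ⟨mul_nonneg (inhE_nonneg _ _ _) h1.1, mul_le_one₀ (inhE_le_one _ _ _) h1.1 h1.2⟩
  have hnum' : 2 * (F.card : ℝ) * (Fintype.card κ : ℝ) *
      Real.exp (-(t ^ 2) / (4 * (S.card : ℝ))) < 1 := by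
    refine lt_of_le_of_lt ?_ hnum
    refine mul_le_mul_of_nonneg_right ?_ (Real.exp_pos _).le
    refine mul_le_mul_of_nonneg_right ?_ (Nat.cast_nonneg _)
    linarith
  obtain ⟨τ, hτ⟩ := exists_coloring S F w hw t ht hnum'
  refine ⟨τ, ?_, ?_⟩
  · intro k
    have h1 := hτ none (mem_insert_self _ _) k
    simpa [w] using h1
  · intro x hx y hy k1 k2 k3
    rw [inh_P4, inh_P4k]
    set S1 := S.filter (fun u => τ u = k1) with hS1
    set S2 := S.filter (fun u => τ u = k2) with hS2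
    set S3 := S.filter (fun u => τ u = k3) with hS3
    have hc1 : (S1.card : ℝ) ≤ σ := Nat.cast_le.2 (card_filter_le _ _)
    have hc2 : (S2.card : ℝ) ≤ σ := Nat.cast_le.2 (card_filter_le _ _)
    -- layer 3
    have l3 : ∀ b ∈ S, inh3 E S b y / K - t ≤ inh3 E S3 b y := by
      intro b hb
      have h1 := (abs_le.1 (hτ _ (hFmem 0 b (hSU hb) y hy) k3)).1
      have h2 : ∑ u ∈ S3, w (some (0, b, y)) u = inh3 E S3 b y := rfl
      have h3 : ∑ u ∈ S, w (some (0, b, y)) u = inh3 E S b y := rfl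
      rw [h2, h3] at h1
      linarith
    -- layer 2
    have l2' : ∀ a ∈ S, inh2 E S S a y / K - t * σ ≤ ∑ b ∈ S2, inhE E a b * inh3 E S b y := by
      intro a ha
      have h1 := (abs_le.1 (hτ _ (hFmem 1 a (hSU ha) y hy) k2)).1
      have hσp : 0 < σ := by
        have : 0 < S.card := card_pos.2 ⟨a, ha⟩
        rw [hσ]; exact_mod_cast this
      have h2 : ∑ u ∈ S2, w (some (1, a, y)) u = (∑ b ∈ S2, inhE E a b * inh3 E S b y) / σ := by
        rw [sum_div]
        exact sum_congr rfl fun u _ => (mul_div_assoc _ _ _).symm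
      have h3 : ∑ u ∈ S, w (some (1, a, y)) u = inh2 E S S a y / σ := by
        unfold inh2
        rw [sum_div]
        exact sum_congr rfl fun u _ => (mul_div_assoc _ _ _).symm
      rw [h2, h3] at h1
      have h4 : inh2 E S S a y / σ / K - t ≤ (∑ b ∈ S2, inhE E a b * inh3 E S b y) / σ := by
        linarith
      rw [le_div_iff₀ hσp] at h4
      calc inh2 E S S a y / K - t * σ = (inh2 E S S a y / σ / K - t) * σ := by
            field_simp
        _ ≤ _ := h4
    have l2 : ∀ a ∈ S, inh2 E S S a y / K ^ 2 - 2 * t * σ ≤ inh2 E S2 S3 a y := by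
      intro a ha
      have h1 : ∑ b ∈ S2, inhE E a b * (inh3 E S b y / K - t) ≤ inh2 E S2 S3 a y := by
        unfold inh2
        refine sum_le_sum fun b hb => ?_
        exact mul_le_mul_of_nonneg_left (l3 b (mem_filter.1 hb).1) (inhE_nonneg _ _ _)
      have h2 : (∑ b ∈ S2, inhE E a b * inh3 E S b y) / K - t * σ ≤
          ∑ b ∈ S2, inhE E a b * (inh3 E S b y / K - t) := by
        have h3 : ∑ b ∈ S2, inhE E a b * t ≤ t * σ := by
          rw [← sum_mul, mul_comm]
          refine mul_le_mul_of_nonneg_left ?_ ht.le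
          refine (sum_le_card_nsmul _ _ 1 fun b _ => inhE_le_one _ _ _).trans ?_
          simpa using hc2
        have h4 : ∑ b ∈ S2, inhE E a b * (inh3 E S b y / K - t) =
            (∑ b ∈ S2, inhE E a b * inh3 E S b y) / K - ∑ b ∈ S2, inhE E a b * t := by
          rw [sum_div, ← sum_sub_distrib]
          refine sum_congr rfl fun b _ => ?_
          ring
        rw [h4]
        linarith
      have h5 := l2' a ha
      have h6 : (inh2 E S S a y / K - t * σ) / K ≤
          (∑ b ∈ S2, inhE E a b * inh3 E S b y) / K := div_le_div_of_nonneg_right h5 hK0.le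
      have h7 : (inh2 E S S a y / K - t * σ) / K = inh2 E S S a y / K ^ 2 - t * σ / K := by
        field_simp
      have h8 : t * σ / K ≤ t * σ := div_le_self (by positivity) hK1
      linarith
    -- layer 1
    have l1' : inh1 E S S S x y / K - t * σ ^ 2 ≤ ∑ a ∈ S1, inhE E x a * inh2 E S S a y := by
      rcases S.eq_empty_or_nonempty with hSe | hSn
      · have h1 : S1 = ∅ := by rw [hS1, hSe, filter_empty]
        rw [h1]
        unfold inh1
        rw [hSe]
        simp only [sum_empty, zero_div, zero_sub]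
        have : 0 ≤ t * σ ^ 2 := by positivity
        linarith
      have hσp : 0 < σ := by
        have : 0 < S.card := card_pos.2 hSn
        rw [hσ]; exact_mod_cast this
      have h1 := (abs_le.1 (hτ _ (hFmem 2 x hx y hy) k1)).1
      have h2 : ∑ u ∈ S1, w (some (2, x, y)) u =
          (∑ a ∈ S1, inhE E x a * inh2 E S S a y) / σ ^ 2 := by
        rw [sum_div]
        exact sum_congr rfl fun u _ => (mul_div_assoc _ _ _).symm
      have h3 : ∑ u ∈ S, w (some (2, x, y)) u = inh1 E S S S x y / σ ^ 2 := by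
        unfold inh1
        rw [sum_div]
        exact sum_congr rfl fun u _ => (mul_div_assoc _ _ _).symm
      rw [h2, h3] at h1
      have h4 : inh1 E S S S x y / σ ^ 2 / K - t ≤
          (∑ a ∈ S1, inhE E x a * inh2 E S S a y) / σ ^ 2 := by
        linarith
      rw [le_div_iff₀ (by positivity)] at h4
      calc inh1 E S S S x y / K - t * σ ^ 2 = (inh1 E S S S x y / σ ^ 2 / K - t) * σ ^ 2 := by
            field_simp
        _ ≤ _ := h4
    have h1 : ∑ a ∈ S1, inhE E x a * (inh2 E S S a y / K ^ 2 - 2 * t * σ) ≤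
        inh1 E S1 S2 S3 x y := by
      unfold inh1
      refine sum_le_sum fun a ha => ?_
      exact mul_le_mul_of_nonneg_left (l2 a (mem_filter.1 ha).1) (inhE_nonneg _ _ _)
    have h2 : (∑ a ∈ S1, inhE E x a * inh2 E S S a y) / K ^ 2 - 2 * t * σ ^ 2 ≤
        ∑ a ∈ S1, inhE E x a * (inh2 E S S a y / K ^ 2 - 2 * t * σ) := by
      have h3 : ∑ a ∈ S1, inhE E x a * (2 * t * σ) ≤ 2 * t * σ ^ 2 := by
        rw [← sum_mul]
        have h4 : ∑ a ∈ S1, inhE E x a ≤ σ := by
          refine (sum_le_card_nsmul _ _ 1 fun b _ => inhE_le_one _ _ _).trans ?_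
          simpa using hc1
        calc (∑ a ∈ S1, inhE E x a) * (2 * t * σ) ≤ σ * (2 * t * σ) :=
              mul_le_mul_of_nonneg_right h4 (by positivity)
          _ = 2 * t * σ ^ 2 := by ring
      have h4 : ∑ a ∈ S1, inhE E x a * (inh2 E S S a y / K ^ 2 - 2 * t * σ) =
          (∑ a ∈ S1, inhE E x a * inh2 E S S a y) / K ^ 2 -
            ∑ a ∈ S1, inhE E x a * (2 * t * σ) := by
        rw [sum_div, ← sum_sub_distrib]
        refine sum_congr rfl fun b _ => ?_
        ring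
      rw [h4]
      linarith
    have h5 : (inh1 E S S S x y / K - t * σ ^ 2) / K ^ 2 ≤
        (∑ a ∈ S1, inhE E x a * inh2 E S S a y) / K ^ 2 :=
      div_le_div_of_nonneg_right l1' (by positivity)
    have h6 : (inh1 E S S S x y / K - t * σ ^ 2) / K ^ 2 =
        inh1 E S S S x y / K ^ 3 - t * σ ^ 2 / K ^ 2 := by
      field_simp
    have h7 : t * σ ^ 2 / K ^ 2 ≤ t * σ ^ 2 :=
      div_le_self (by positivity) (one_le_pow₀ hK1)
    linarith

end H15C6
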