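import Pool.Agent.H15.C6.VX
import Pool.Agent.H15.C6.CD

/-!
Module ITER.  Iteration of the cover-down step along the vortex.

WLOG `η ≤ 1` (replace `η` by `min η 1`).  Constants: `K, θ, s1` from `cover_down (η/32) L`; `C', s2` from
`vortex_step L K (η/2)`; potential `hpot s := η - C s^(-1/4)` with `C := 20 C'`, `s0 ≥ s1, s2` so large that
`hpot s ≥ η/2` for `s ≥ s0`.

Claim (strong induction on `|U1|`): for all `U1 ⊆ U` with `s0 ≤ |U1|`, `|U| ≤ 2L|U1|`, `E` (inside `U`) and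
`∀ x y ∈ U, R x y → hpot |U1| * |U1|^3 ≤ P4 E U1 x y` there is `X ⊆ U1`, `|X| ≤ M := 2 L s0`, such that for
every `E' ⊆ E` as in the statement there is `D ⊆ E'`, `Dec D`, `E' \ D ⊆ X.sym2`.
`vortex_step` (with `h := hpot |U1|`) gives `U2, χ`; since `|U2| ≤ (2/3)|U1|`,
`|U2|^(-1/4) ≥ 1.1 |U1|^(-1/4)`, so `hpot |U1| - C' |U1|^(-1/4) ≥ hpot |U2|`.
If `|U2| < s0` take `X := U1` (`|U1| ≤ 2L|U2| ≤ 2 L s0`) and one application of `cover_down`
(with `h := η/32`).  If `|U2| ≥ s0` the induction hypothesis applies to `(U1, U2)` with the graph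
`E ∩ U1.sym2`, giving `X ⊆ U2`; for `E'`: `cover_down` gives `D1`, and then `E'' := E' \ D1 ⊆ U1.sym2`
satisfies: it contains all edges of `E` inside `U2`; `dg ((E ∩ U1.sym2) \ E'') U2 u = dg D1 U2 u ≤ θ|U2|` for
`u ∈ U1` (all edges of `E` inside `U1` are in `E'`); even degrees.  `D := D1 ∪ D2`.
The statement's hypothesis `η * |U1|^3 ≤ P4` implies the one with `hpot`.
-/

open Finset

namespace H15C6

/-- `20 b^(-1/4) ≥ 21 a^(-1/4)` if `b ≤ 2a/3`. -/
theorem iter_rpow (a b : ℕ) (hb : 0 < b) (hab : 3 * b ≤ 2 * a) :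
    21 * (a : ℝ) ^ (-(1 / 4 : ℝ)) ≤ 20 * (b : ℝ) ^ (-(1 / 4 : ℝ)) := by
  have hbR : (0 : ℝ) < b := by exact_mod_cast hb
  have haR : (0 : ℝ) < a := by
    have : 0 < a := by omega
    exact_mod_cast this
  have habR : (3 : ℝ) * b ≤ 2 * a := by exact_mod_cast hab
  have h1 : ((2 / 3 : ℝ) * a) ^ (-(1 / 4 : ℝ)) ≤ (b : ℝ) ^ (-(1 / 4 : ℝ)) :=
    Real.rpow_le_rpow_of_nonpos hbR (by linarith) (by norm_num)
  rw [Real.mul_rpow (by norm_num) haR.le] at h1
  have h2 : (21 / 20 : ℝ) ≤ (2 / 3 : ℝ) ^ (-(1 / 4 : ℝ)) := by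
    rw [Real.rpow_neg (by norm_num), ← Real.inv_rpow (by norm_num)]
    have h3 : (21 / 20 : ℝ) = (((21 / 20 : ℝ) ^ 4)) ^ (1 / 4 : ℝ) := by
      have := Real.pow_rpow_inv_natCast (x := (21 / 20 : ℝ)) (n := 4) (by norm_num) (by norm_num)
      rw [one_div]
      push_cast at this
      exact this.symm
    rw [h3]
    exact Real.rpow_le_rpow (by norm_num) (by norm_num) (by norm_num)
  have h4 : 0 ≤ (a : ℝ) ^ (-(1 / 4 : ℝ)) := Real.rpow_nonneg haR.le _
  have h5 := mul_le_mul_of_nonneg_right h2 h4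
  linarith

theorem iter_s0 (C η : ℝ) (hC : 0 < C) (hη : 0 < η) :
    ∃ s0 : ℕ, ∀ s : ℕ, s0 ≤ s → C * (s : ℝ) ^ (-(1 / 4 : ℝ)) ≤ η / 2 := by
  refine ⟨⌈(2 * C / η) ^ 4⌉₊ + 1, fun s hs => ?_⟩
  have h1 : (2 * C / η) ^ 4 ≤ (s : ℝ) := by
    refine (Nat.le_ceil _).trans ?_
    have : ⌈(2 * C / η) ^ 4⌉₊ ≤ s := by omega
    exact_mod_cast this
  have hpos : 0 < 2 * C / η := by positivity
  have h2 : (s : ℝ) ^ (-(1 / 4 : ℝ)) ≤ ((2 * C / η) ^ 4) ^ (-(1 / 4 : ℝ)) :=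
    Real.rpow_le_rpow_of_nonpos (by positivity) h1 (by norm_num)
  have h3 : ((2 * C / η) ^ 4) ^ (-(1 / 4 : ℝ)) = (2 * C / η)⁻¹ := by
    rw [Real.rpow_neg (by positivity)]
    congr 1
    have := Real.pow_rpow_inv_natCast (x := 2 * C / η) (n := 4) hpos.le (by norm_num)
    rw [one_div]
    push_cast at this
    exact this
  rw [h3] at h2
  have h4 := mul_le_mul_of_nonneg_left h2 hC.le
  have h5 : C * (2 * C / η)⁻¹ = η / 2 := by
    field_simp
  linarith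

/-- walks with inner vertices in `U2 ⊆ U1` and ends in `U1` stay inside `U1`. -/
theorem iter_P4 {V : Type} [DecidableEq V] (E : Finset (Sym2 V)) (U1 U2 : Finset V)
    (h21 : U2 ⊆ U1) (x y : V) (hx : x ∈ U1) (hy : y ∈ U1) :
    P4 (E ∩ U1.sym2) U2 x y = P4 E U2 x y := by
  unfold P4
  congr 1
  ext ⟨a, b, c⟩
  simp only [Finset.mem_filter, Finset.mem_product, Finset.mem_inter, Finset.mk_mem_sym2_iff]
  constructor
  · rintro ⟨h1, h2, h3, h4, h5⟩
    exact ⟨h1, h2.1, h3.1, h4.1, h5.1⟩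
  · rintro ⟨⟨ha, hb, hc⟩, h2, h3, h4, h5⟩
    exact ⟨⟨ha, hb, hc⟩, ⟨h2, hx, h21 ha⟩, ⟨h3, h21 ha, h21 hb⟩, ⟨h4, h21 hb, h21 hc⟩,
      ⟨h5, h21 hc, hy⟩⟩

theorem vortex_dec (η : ℝ) (hη : 0 < η) (L : ℕ) (hL : 3 ≤ L) :
    ∃ (M s0 : ℕ) (θ : ℝ), 0 < θ ∧
      ∀ (V : Type) [Fintype V] [DecidableEq V] (U U1 : Finset V) (E : Finset (Sym2 V))
        (R : V → V → Prop),
      U1 ⊆ U → s0 ≤ U1.card → (U.card : ℝ) ≤ 2 * L * U1.card →
      E ⊆ U.sym2 → Loopless E →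
      (∀ v x y, s(v, x) ∈ E → s(v, y) ∈ E → R x y) →
      (∀ x ∈ U, ∀ y ∈ U, R x y → η * (U1.card : ℝ) ^ 3 ≤ (P4 E U1 x y : ℝ)) →
      ∃ X ⊆ U1, X.card ≤ M ∧ ∀ E' ⊆ E, (∀ e ∈ E, e ∈ U1.sym2 → e ∈ E') →
        (∀ u ∈ U, (dg (E \ E') U1 u : ℝ) ≤ θ * U1.card) → EvenDeg E' →
        ∃ D ⊆ E', Dec D ∧ E' \ D ⊆ X.sym2 := by
  obtain ⟨η0, hη0def⟩ : ∃ η0 : ℝ, η0 = min η 1 := ⟨_, rfl⟩
  have hη0 : 0 < η0 := by rw [hη0def]; exact lt_min hη one_pos
  have hη01 : η0 ≤ 1 := by rw [hη0def]; exact min_le_right _ _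
  have hη0η : η0 ≤ η := by rw [hη0def]; exact min_le_left _ _
  obtain ⟨K, hK, θ, hθ, s1, hcd⟩ := cover_down (η0 / 32) (by positivity) L hL
  obtain ⟨C', hC', s2, hvx⟩ := vortex_step L K hL hK (η0 / 2) (by positivity)
  obtain ⟨s3, hs3⟩ := iter_s0 (20 * C') η0 (by positivity) hη0
  obtain ⟨s0, hs0⟩ : ∃ s0 : ℕ, s0 = max (max s1 s2) (max s3 1) := ⟨_, rfl⟩
  have hs01 : s1 ≤ s0 := by rw [hs0]; exact (le_max_left _ _).trans (le_max_left _ _)
  have hs02 : s2 ≤ s0 := by rw [hs0]; exact (le_max_right _ _).trans (le_max_left _ _)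
  have hs03 : s3 ≤ s0 := by rw [hs0]; exact (le_max_left _ _).trans (le_max_right _ _)
  have hs04 : 1 ≤ s0 := by rw [hs0]; exact (le_max_right _ _).trans (le_max_right _ _)
  refine ⟨2 * L * s0, s0, θ, hθ, ?_⟩
  intro V _ _
  have key : ∀ n : ℕ, ∀ (U U1 : Finset V) (E : Finset (Sym2 V)) (R : V → V → Prop),
      U1.card = n → U1 ⊆ U → s0 ≤ U1.card → (U.card : ℝ) ≤ 2 * L * U1.card →
      E ⊆ U.sym2 → Loopless E →
      (∀ v x y, s(v, x) ∈ E → s(v, y) ∈ E → R x y) →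
      (∀ x ∈ U, ∀ y ∈ U, R x y →
        (η0 - 20 * C' * (U1.card : ℝ) ^ (-(1 / 4 : ℝ))) * (U1.card : ℝ) ^ 3 ≤ (P4 E U1 x y : ℝ)) →
      ∃ X ⊆ U1, X.card ≤ 2 * L * s0 ∧ ∀ E' ⊆ E, (∀ e ∈ E, e ∈ U1.sym2 → e ∈ E') →
        (∀ u ∈ U, (dg (E \ E') U1 u : ℝ) ≤ θ * U1.card) → EvenDeg E' →
        ∃ D ⊆ E', Dec D ∧ E' \ D ⊆ X.sym2 := by
    intro n
    induction n using Nat.strong_induction_on with
    | _ n ih =>
      intro U U1 E R hn hU1 hs hU hE hl hR hP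
      have hpot := hs3 U1.card (hs03.trans hs)
      have hr0 : 0 ≤ (U1.card : ℝ) ^ (-(1 / 4 : ℝ)) := Real.rpow_nonneg (Nat.cast_nonneg _) _
      have hpot1 : η0 / 2 ≤ η0 - 20 * C' * (U1.card : ℝ) ^ (-(1 / 4 : ℝ)) := by linarith
      have hpot2 : η0 - 20 * C' * (U1.card : ℝ) ^ (-(1 / 4 : ℝ)) ≤ 1 := by
        have : 0 ≤ 20 * C' * (U1.card : ℝ) ^ (-(1 / 4 : ℝ)) := by positivity
        linarith
      obtain ⟨U2, h21, χ, h12, h2L, hP2, hPc, hc1, hc2⟩ := hvx V U U1 E R _ hpot1 hpot2 hU1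
        (hs02.trans hs) hU hP
      have hPc' : ∀ x ∈ U, ∀ y ∈ U, R x y → ∀ k k' : Fin K,
          η0 / 32 * (U1.card : ℝ) ^ 3 / (K : ℝ) ^ 2 ≤ (P4c E (U1 \ U2) χ k k' x y : ℝ) := by
        intro x hx y hy hxy k k'
        refine le_trans ?_ (hPc x hx y hy hxy k k')
        refine div_le_div_of_nonneg_right ?_ (by positivity)
        refine mul_le_mul_of_nonneg_right ?_ (by positivity)
        linarith
      have hU2lt : 3 * U2.card ≤ 2 * U1.card := by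
        have h1 : (3 : ℝ) * U2.card ≤ 2 * U1.card := by
          have : (3 : ℝ) ≤ L := by exact_mod_cast hL
          have h2 : (3 : ℝ) * U2.card ≤ L * U2.card :=
            mul_le_mul_of_nonneg_right this (Nat.cast_nonneg _)
          linarith
        exact_mod_cast h1
      have hcov : ∀ E' ⊆ E, (∀ e ∈ E, e ∈ U1.sym2 → e ∈ E') →
          (∀ u ∈ U, (dg (E \ E') U1 u : ℝ) ≤ θ * U1.card) → EvenDeg E' →
          ∃ D ⊆ E', Dec D ∧ (∀ e ∈ E' \ D, e ∈ U1.sym2) ∧ (∀ e ∈ D, e ∉ U2.sym2) ∧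
            (∀ u ∈ U1, (dg D U2 u : ℝ) ≤ θ * U2.card) := by
        intro E' hE' hE'1 hE'2 hev
        exact hcd V U U1 U2 E E' R χ hU1 h21 (hs01.trans hs) hU h12 h2L hE hl hR hPc' hc1 hc2 hE'
          hE'1 hE'2 hev
      rcases Nat.lt_or_ge U2.card s0 with hsmall | hbig
      · refine ⟨U1, Finset.Subset.refl _, ?_, ?_⟩
        · have h1 : (U1.card : ℝ) ≤ 2 * L * s0 := by
            have h2 : (U2.card : ℝ) ≤ s0 := by exact_mod_cast hsmall.le
            have h3 : (2 : ℝ) * L * U2.card ≤ 2 * L * s0 :=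
              mul_le_mul_of_nonneg_left h2 (by positivity)
            linarith
          exact_mod_cast h1
        · intro E' hE' hE'1 hE'2 hev
          obtain ⟨D, hD, hDdec, hD1, -, -⟩ := hcov E' hE' hE'1 hE'2 hev
          exact ⟨D, hD, hDdec, fun e he => hD1 e he⟩
      · have hU2pos : 0 < U2.card := lt_of_lt_of_le hs04 hbig
        have hlt : U2.card < n := by omega
        have hih := ih U2.card hlt U1 U2 (E ∩ U1.sym2) R rfl h21 hbig h12
          Finset.inter_subset_right (hl.mono Finset.inter_subset_left)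
          (fun v x y h1 h2 => hR v x y (Finset.mem_inter.1 h1).1 (Finset.mem_inter.1 h2).1) ?_
        · obtain ⟨X, hX, hXc, hXp⟩ := hih
          refine ⟨X, hX.trans h21, hXc, ?_⟩
          intro E' hE' hE'1 hE'2 hev
          obtain ⟨D1, hD1, hD1dec, hD1a, hD1b, hD1c⟩ := hcov E' hE' hE'1 hE'2 hev
          have hE1 : ∀ e ∈ E ∩ U1.sym2, e ∈ E' := fun e he =>
            hE'1 e (Finset.mem_inter.1 he).1 (Finset.mem_inter.1 he).2
          have g1 : E' \ D1 ⊆ E ∩ U1.sym2 := by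
            intro e he
            rw [Finset.mem_inter]
            exact ⟨hE' (Finset.mem_sdiff.1 he).1, hD1a e he⟩
          have g2 : ∀ e ∈ E ∩ U1.sym2, e ∈ U2.sym2 → e ∈ E' \ D1 := by
            intro e he he2
            rw [Finset.mem_sdiff]
            exact ⟨hE1 e he, fun h => hD1b e h he2⟩
          have g3 : ∀ u ∈ U1, (dg ((E ∩ U1.sym2) \ (E' \ D1)) U2 u : ℝ) ≤ θ * U2.card := by
            intro u hu
            refine le_trans ?_ (hD1c u hu)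
            have : dg ((E ∩ U1.sym2) \ (E' \ D1)) U2 u ≤ dg D1 U2 u := by
              apply dg_mono
              intro e he
              rw [Finset.mem_sdiff, Finset.mem_sdiff] at he
              by_contra hcon
              exact he.2 ⟨hE1 e he.1, hcon⟩
            exact_mod_cast this
          obtain ⟨D2, hD2, hD2dec, hD2a⟩ := hXp (E' \ D1) g1 g2 g3 (hev.sdiff hD1dec.even hD1)
          refine ⟨D1 ∪ D2, Finset.union_subset hD1 (hD2.trans Finset.sdiff_subset),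
            hD1dec.union hD2dec ?_, ?_⟩
          · rw [Finset.disjoint_right]
            intro e he
            exact (Finset.mem_sdiff.1 (hD2 he)).2
          · intro e he
            rw [Finset.mem_sdiff, Finset.mem_union] at he
            apply hD2a
            rw [Finset.mem_sdiff, Finset.mem_sdiff]
            exact ⟨⟨he.1, fun h => he.2 (Or.inl h)⟩, fun h => he.2 (Or.inr h)⟩
        · intro x hx y hy hxy
          rw [iter_P4 E U1 U2 h21 x y hx hy]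
          refine le_trans ?_ (hP2 x (hU1 hx) y (hU1 hy) hxy)
          refine mul_le_mul_of_nonneg_right ?_ (by positivity)
          have h1 := iter_rpow U1.card U2.card hU2pos hU2lt
          have h2 := mul_le_mul_of_nonneg_left h1 hC'.le
          linarith
  intro U U1 E R hU1 hs hU hE hl hR hP
  refine key U1.card U U1 E R rfl hU1 hs hU hE hl hR ?_
  intro x hx y hy hxy
  refine le_trans ?_ (hP x hx y hy hxy)
  refine mul_le_mul_of_nonneg_right ?_ (by positivity)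
  have : 0 ≤ 20 * C' * (U1.card : ℝ) ^ (-(1 / 4 : ℝ)) := by positivity
  linarith

end H15C6
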