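import Pool.Agent.H15.C6.Defs

/-!
Module KST.  A set of at least `γ N²` edges on `N` vertices contains a six-cycle
(it even contains a `K_{3,3}`), and therefore greedy removal of six-cycles leaves fewer
than `γ N²` edges.

Proof of `kst_c6`.  Put `N = |U|`, `d x = deg E x` (= number of neighbours in `U`), `∑ d = 2|E|`.
Count pairs (x, T) with `T` an ordered triple of distinct neighbours of `x`:
`∑_x d(x)(d(x)-1)(d(x)-2)`.  By convexity (or: vertices with `d x ≥ γ N` are at least `γ N`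
many, since `2 γ N² ≤ ∑ d ≤ N·#{d ≥ γN} + γ N·N`) this is at least `γ N · (γN-2)^3 > 2 N³`
for large `N`, so some ordered triple `T = (y0,y1,y2)` of distinct vertices has
at least 3 common neighbours `x0,x1,x2` (distinct); they are not in `T` because `E` is loopless.
The cycle is `y0 x0 y1 x1 y2 x2`.
`sparse_leftover` : strong induction on `|E|`, remove six-cycles while possible.
-/

open Finset

namespace H15C6

/-- three vertices with three common neighbours give a six-cycle -/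
private theorem kst_cycle {V : Type} [DecidableEq V] {E : Finset (Sym2 V)} (hl : Loopless E)
    {y0 y1 y2 x0 x1 x2 : V} (hy01 : y0 ≠ y1) (hy12 : y1 ≠ y2) (hy02 : y0 ≠ y2)
    (hx01 : x0 ≠ x1) (hx02 : x0 ≠ x2) (hx12 : x1 ≠ x2)
    (h0 : s(x0, y0) ∈ E ∧ s(x0, y1) ∈ E ∧ s(x0, y2) ∈ E)
    (h1 : s(x1, y0) ∈ E ∧ s(x1, y1) ∈ E ∧ s(x1, y2) ∈ E)
    (h2 : s(x2, y0) ∈ E ∧ s(x2, y1) ∈ E ∧ s(x2, y2) ∈ E) : ∃ C ⊆ E, IsC6 C := by
  refine ⟨cyc ![y0, x0, y1, x1, y2, x2], ?_, ![y0, x0, y1, x1, y2, x2], ?_, rfl⟩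
  · intro e he
    rw [mem_cyc] at he
    obtain ⟨i, rfl⟩ := he
    fin_cases i
    · change s(y0, x0) ∈ E
      rw [Sym2.eq_swap]; exact h0.1
    · change s(x0, y1) ∈ E
      exact h0.2.1
    · change s(y1, x1) ∈ E
      rw [Sym2.eq_swap]; exact h1.2.1
    · change s(x1, y2) ∈ E
      exact h1.2.2
    · change s(y2, x2) ∈ E
      rw [Sym2.eq_swap]; exact h2.2.2
    · change s(x2, y0) ∈ E
      exact h2.1
  · have a00 := hl.ne h0.1
    have a01 := hl.ne h0.2.1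
    have a02 := hl.ne h0.2.2
    have a10 := hl.ne h1.1
    have a11 := hl.ne h1.2.1
    have a12 := hl.ne h1.2.2
    have a20 := hl.ne h2.1
    have a21 := hl.ne h2.2.1
    have a22 := hl.ne h2.2.2
    intro i j hij
    fin_cases i <;> fin_cases j <;> first | rfl | (exfalso; simp_all)

/-- number of common neighbours of the three entries of `T` -/
private def kcn {V : Type} [DecidableEq V] (E : Finset (Sym2 V)) (U : Finset V)
    (T : V × V × V) : ℕ :=
  (U.filter (fun x => s(x, T.1) ∈ E ∧ s(x, T.2.1) ∈ E ∧ s(x, T.2.2) ∈ E)).card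

private theorem kst_double {V : Type} [DecidableEq V] (E : Finset (Sym2 V)) (U : Finset V) :
    ∑ x ∈ U, (dg E U x) ^ 3 = ∑ T ∈ U ×ˢ U ×ˢ U, kcn E U T := by
  have h1 : ∀ x ∈ U, (dg E U x) ^ 3 = ((U ×ˢ U ×ˢ U).filter
      (fun T : V × V × V => s(x, T.1) ∈ E ∧ s(x, T.2.1) ∈ E ∧ s(x, T.2.2) ∈ E)).card := by
    intro x _
    have h2 : (U ×ˢ U ×ˢ U).filter
        (fun T : V × V × V => s(x, T.1) ∈ E ∧ s(x, T.2.1) ∈ E ∧ s(x, T.2.2) ∈ E) =
        (U.filter (fun y => s(x, y) ∈ E)) ×ˢ (U.filter (fun y => s(x, y) ∈ E)) ×ˢ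
          (U.filter (fun y => s(x, y) ∈ E)) := by
      ext ⟨a, b, c⟩
      simp only [mem_filter, mem_product]
      tauto
    rw [h2, card_product, card_product]
    unfold dg
    ring
  rw [sum_congr rfl h1]
  unfold kcn
  simp_rw [card_filter]
  rw [sum_comm]

private theorem kst_nondistinct {V : Type} [DecidableEq V] (U : Finset V) :
    ((U ×ˢ U ×ˢ U).filter (fun T : V × V × V => T.1 = T.2.1 ∨ T.2.1 = T.2.2 ∨ T.1 = T.2.2)).card ≤
      3 * U.card ^ 2 := by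
  have hsub : (U ×ˢ U ×ˢ U).filter
      (fun T : V × V × V => T.1 = T.2.1 ∨ T.2.1 = T.2.2 ∨ T.1 = T.2.2) ⊆
      ((U ×ˢ U).image (fun p : V × V => (p.1, p.1, p.2))) ∪
      (((U ×ˢ U).image (fun p : V × V => (p.1, p.2, p.2))) ∪
      ((U ×ˢ U).image (fun p : V × V => (p.1, p.2, p.1)))) := by
    rintro ⟨a, b, c⟩ h
    simp only [mem_filter, mem_product] at h
    simp only [mem_union, mem_image, mem_product, Prod.mk.injEq, Prod.exists]
    obtain ⟨⟨ha, hb, hc⟩, h1 | h1 | h1⟩ := h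
    · left; exact ⟨a, c, ⟨ha, hc⟩, rfl, h1, rfl⟩
    · right; left; exact ⟨a, b, ⟨ha, hb⟩, rfl, rfl, h1⟩
    · right; right; exact ⟨a, b, ⟨ha, hb⟩, rfl, rfl, h1⟩
  have h3 := card_le_card hsub
  have h4 : ∀ f : V × V → V × V × V, ((U ×ˢ U).image f).card ≤ U.card ^ 2 := by
    intro f
    refine card_image_le.trans ?_
    rw [card_product, sq]
  have h5 := card_union_le ((U ×ˢ U).image (fun p : V × V => (p.1, p.1, p.2)))
    (((U ×ˢ U).image (fun p : V × V => (p.1, p.2, p.2))) ∪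
      ((U ×ˢ U).image (fun p : V × V => (p.1, p.2, p.1))))
  have h6 := card_union_le ((U ×ˢ U).image (fun p : V × V => (p.1, p.2, p.2)))
    ((U ×ˢ U).image (fun p : V × V => (p.1, p.2, p.1)))
  have h7 := h4 (fun p : V × V => (p.1, p.1, p.2))
  have h8 := h4 (fun p : V × V => (p.1, p.2, p.2))
  have h9 := h4 (fun p : V × V => (p.1, p.2, p.1))
  omega

theorem kst_c6 (γ : ℝ) (hγ : 0 < γ) : ∃ N0 : ℕ, ∀ (V : Type) [DecidableEq V] (U : Finset V)
    (E : Finset (Sym2 V)), N0 ≤ U.card → E ⊆ U.sym2 → Loopless E →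
    γ * (U.card : ℝ) ^ 2 ≤ (E.card : ℝ) → ∃ C ⊆ E, IsC6 C := by
  obtain ⟨N0, hN0⟩ := exists_nat_gt (5 / (8 * γ ^ 3))
  refine ⟨N0 + 1, fun V _ U E hU hE hl hcard => ?_⟩
  have hUpos : 0 < U.card := by omega
  have hN : (0 : ℝ) < U.card := by exact_mod_cast hUpos
  by_contra hcon
  -- every distinct triple has at most two common neighbours
  have h2 : ∀ T ∈ U ×ˢ U ×ˢ U, ¬ (T.1 = T.2.1 ∨ T.2.1 = T.2.2 ∨ T.1 = T.2.2) →
      kcn E U T ≤ 2 := by
    rintro ⟨a, b, c⟩ _ hne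
    by_contra hlt
    push Not at hlt hne
    unfold kcn at hlt
    rw [two_lt_card] at hlt
    obtain ⟨x0, hx0, x1, hx1, x2, hx2, h01, h02, h12⟩ := hlt
    rw [mem_filter] at hx0 hx1 hx2
    exact hcon (kst_cycle hl hne.1 hne.2.1 hne.2.2 h01 h02 h12 hx0.2 hx1.2 hx2.2)
  have h3 : ∀ T ∈ U ×ˢ U ×ˢ U, kcn E U T ≤ U.card := fun T _ => card_filter_le _ _
  have h4 : ∑ T ∈ U ×ˢ U ×ˢ U, kcn E U T ≤ 5 * U.card ^ 3 := by
    rw [← sum_filter_add_sum_filter_not (U ×ˢ U ×ˢ U)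
      (fun T : V × V × V => T.1 = T.2.1 ∨ T.2.1 = T.2.2 ∨ T.1 = T.2.2)]
    have h5 : ∑ T ∈ (U ×ˢ U ×ˢ U).filter
        (fun T : V × V × V => T.1 = T.2.1 ∨ T.2.1 = T.2.2 ∨ T.1 = T.2.2), kcn E U T ≤
        3 * U.card ^ 3 := by
      refine (sum_le_card_nsmul _ _ U.card fun T hT => h3 T (mem_filter.1 hT).1).trans ?_
      rw [smul_eq_mul]
      refine (Nat.mul_le_mul_right _ (kst_nondistinct U)).trans (le_of_eq ?_)
      ring
    have h6 : ∑ T ∈ (U ×ˢ U ×ˢ U).filter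
        (fun T : V × V × V => ¬ (T.1 = T.2.1 ∨ T.2.1 = T.2.2 ∨ T.1 = T.2.2)), kcn E U T ≤
        2 * U.card ^ 3 := by
      refine (sum_le_card_nsmul _ _ 2 fun T hT =>
        h2 T (mem_filter.1 hT).1 (mem_filter.1 hT).2).trans ?_
      rw [smul_eq_mul]
      refine (Nat.mul_le_mul_right _ (card_filter_le _ _)).trans (le_of_eq ?_)
      rw [card_product, card_product]; ring
    omega
  rw [← kst_double] at h4
  -- power mean
  have h5 : (∑ x ∈ U, (dg E U x : ℝ)) ^ 3 / (U.card : ℝ) ^ 2 ≤ ∑ x ∈ U, (dg E U x : ℝ) ^ 3 :=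
    pow_sum_div_card_le_sum_pow (fun x _ => Nat.cast_nonneg _) 2
  have h6 : ∑ x ∈ U, (dg E U x : ℝ) = 2 * (E.card : ℝ) := by
    have := sum_deg hE hl
    have h7 : ∑ x ∈ U, dg E U x = 2 * E.card := by
      rw [← this]
      exact sum_congr rfl fun x _ => (deg_eq_dg hE x).symm
    exact_mod_cast h7
  rw [h6] at h5
  have h7 : ∑ x ∈ U, (dg E U x : ℝ) ^ 3 ≤ 5 * (U.card : ℝ) ^ 3 := by exact_mod_cast h4
  have h8 : (2 * (γ * (U.card : ℝ) ^ 2)) ^ 3 ≤ (2 * (E.card : ℝ)) ^ 3 := by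
    apply pow_le_pow_left₀ (by positivity)
    linarith
  have h9 : (2 * (E.card : ℝ)) ^ 3 ≤ 5 * (U.card : ℝ) ^ 3 * (U.card : ℝ) ^ 2 := by
    rw [div_le_iff₀ (by positivity)] at h5
    exact h5.trans (mul_le_mul_of_nonneg_right h7 (by positivity))
  have h10 : 8 * γ ^ 3 * (U.card : ℝ) * (U.card : ℝ) ^ 5 ≤ 5 * (U.card : ℝ) ^ 5 := by
    calc _ = (2 * (γ * (U.card : ℝ) ^ 2)) ^ 3 := by ring
      _ ≤ 5 * (U.card : ℝ) ^ 3 * (U.card : ℝ) ^ 2 := h8.trans h9
      _ = _ := by ring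
  have h11 : 8 * γ ^ 3 * (U.card : ℝ) ≤ 5 := le_of_mul_le_mul_right h10 (by positivity)
  have h12 : 5 / (8 * γ ^ 3) < (U.card : ℝ) := by
    refine hN0.trans ?_
    have : N0 < U.card := by omega
    exact_mod_cast this
  rw [div_lt_iff₀ (by positivity)] at h12
  linarith

theorem sparse_leftover (γ : ℝ) (hγ : 0 < γ) : ∃ N0 : ℕ, ∀ (V : Type) [DecidableEq V]
    (U : Finset V) (E : Finset (Sym2 V)), N0 ≤ U.card → E ⊆ U.sym2 → Loopless E →
    ∃ D ⊆ E, Dec D ∧ ((E \ D).card : ℝ) ≤ γ * (U.card : ℝ) ^ 2 := by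
  obtain ⟨N0, hN0⟩ := kst_c6 γ hγ
  refine ⟨N0, fun V _ U E hU => ?_⟩
  induction hn : E.card using Nat.strong_induction_on generalizing E with
  | _ n ih =>
    intro hE hl
    by_cases hcard : γ * (U.card : ℝ) ^ 2 ≤ (E.card : ℝ)
    · obtain ⟨C, hCE, hC⟩ := hN0 V U E hU hE hl hcard
      have hlt : (E \ C).card < n := by
        have h1 := card_sdiff_add_card_eq_card hCE
        have h2 := hC.card
        omega
      obtain ⟨D, hD, hDec, hDc⟩ := ih _ hlt (E \ C) rfl (sdiff_subset.trans hE)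
        (hl.mono sdiff_subset)
      refine ⟨D ∪ C, union_subset (hD.trans sdiff_subset) hCE,
        hDec.add hC (disjoint_of_subset_left hD sdiff_disjoint), ?_⟩
      have h3 : E \ (D ∪ C) = (E \ C) \ D := by
        ext x
        simp only [mem_sdiff, mem_union]
        tauto
      rw [h3]
      exact hDc
    · refine ⟨∅, empty_subset _, Dec.empty, ?_⟩
      rw [sdiff_empty]
      exact (not_le.1 hcard).le

end H15C6
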