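import Pool.Agent.H15.C6.ADefs

/-!
Module LB1B (part of LB1).  Lower bound, two blocks with a common cut vertex.

`c6_block`: if every edge of the six-cycle `C` is inside `AX = insert x A0` or inside `BX = insert x B0` (`A0, B0`
disjoint, `x` in neither), then `C` is inside `AX` or inside `BX`.  Proof: let `g i : Fin 3` be the kind of `v i`
(`0` if in `A0`, `1` if in `B0`, `2` otherwise, i.e. `= x`); consecutive kinds are never `{0,1}`, at most one `i` has
kind 2; then not both kinds 0 and 1 occur (`decide` over `Fin 6 → Fin 3`, 729 functions).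
`dec_block`: hence `Dec E → 6 ∣ (E ∩ AX.sym2).card` for every `E` all of whose edges are inside `AX` or `BX` (induction on
`Dec`; a cycle inside `AX` has 6 edges there, a cycle inside `BX` has none inside `AX` because there are no
loops and `AX ∩ BX = {x}`).
`block_even`, `block_odd`: graphs on `Option (Fin (s-1))` (`none` is the cut vertex).
* `s` even, `j ≤ 5`: complete graph minus the edges `s(none, i)`, `i < 2j+1`, and `s(m, m+1)` for odd `m ≥ 2j+1`, `m+1 ≤ s-2`.
  Every `some v` has degree `s - 2`, `none` has degree `s - 2 - 2j`; `2|E| = s(s-2) - 2j`.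
* `s` odd, `3 ≤ l ≤ 8`: complete graph minus the cycle `0,1,...,l-1`: degrees `s - 1` or `s - 3`;
  `2|E| = s(s-1) - 2l`.
`block` : every residue mod 6 is attained.
-/

open Finset

namespace H15C6

/-! ### the complete graph -/

/-- all non-loops -/
def lb1b_K (V : Type) [Fintype V] [DecidableEq V] : Finset (Sym2 V) :=
  Finset.univ.filter (fun e : Sym2 V => ¬ e.IsDiag)

section

variable {V : Type} [Fintype V] [DecidableEq V]

theorem lb1b_mem {x y : V} : s(x, y) ∈ lb1b_K V ↔ x ≠ y := by
  simp [lb1b_K]

theorem lb1b_loopless : Loopless (lb1b_K V) := fun x hx => (lb1b_mem.1 hx) rfl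

theorem lb1b_sub_univ (E : Finset (Sym2 V)) : E ⊆ (Finset.univ : Finset V).sym2 := by
  intro e _
  rw [Finset.mem_sym2_iff]
  intro a _
  exact Finset.mem_univ a

theorem lb1b_deg (x : V) : deg (lb1b_K V) x = Fintype.card V - 1 := by
  rw [deg_eq_dg (lb1b_sub_univ _) x]
  unfold dg
  have h : (Finset.univ.filter (fun y : V => s(x, y) ∈ lb1b_K V)) = Finset.univ.erase x := by
    ext y
    simp only [Finset.mem_filter, Finset.mem_univ, true_and, lb1b_mem, Finset.mem_erase, and_true]
    exact ne_comm
  rw [h, Finset.card_erase_of_mem (Finset.mem_univ x), Finset.card_univ]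

theorem lb1b_card : 2 * (lb1b_K V).card = Fintype.card V * (Fintype.card V - 1) := by
  rw [← sum_deg (lb1b_sub_univ _) lb1b_loopless]
  simp [lb1b_deg]

theorem lb1b_sub_K {F : Finset (Sym2 V)} (hF : Loopless F) : F ⊆ lb1b_K V := by
  intro e he
  induction e using Sym2.ind with
  | _ a b => exact lb1b_mem.2 (hF.ne he)

end

theorem lb1b_cardV (s : ℕ) (hs : 1 ≤ s) : Fintype.card (Option (Fin (s - 1))) = s := by
  rw [Fintype.card_option, Fintype.card_fin]
  omega

/-! ### `s` odd: remove a short cycle -/

/-- image under an injective map -/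
theorem lb1b_deg_image {W V : Type} [DecidableEq V] [DecidableEq W] (f : W → V)
    (hf : Function.Injective f) (F : Finset (Sym2 W)) (i : W) :
    deg (F.image (Sym2.map f)) (f i) = deg F i := by
  unfold deg
  rw [Finset.filter_image, Finset.card_image_of_injective _ (Sym2.map.injective hf)]
  congr 1
  ext e
  simp only [Finset.mem_filter, and_congr_right_iff]
  intro _
  induction e using Sym2.ind with
  | _ a b =>
    simp only [Sym2.map_mk, Sym2.mem_iff]
    constructor
    · rintro (h | h)
      · left; exact hf h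
      · right; exact hf h
    · rintro (h | h)
      · left; rw [h]
      · right; rw [h]

theorem lb1b_deg_image0 {W V : Type} [DecidableEq V] [DecidableEq W] (f : W → V)
    (F : Finset (Sym2 W)) (x : V) (hx : ∀ i, f i ≠ x) :
    deg (F.image (Sym2.map f)) x = 0 := by
  unfold deg
  rw [Finset.card_eq_zero, Finset.filter_eq_empty_iff]
  intro e he hxe
  rw [Finset.mem_image] at he
  obtain ⟨e', _, rfl⟩ := he
  induction e' using Sym2.ind with
  | _ a b =>
    simp only [Sym2.map_mk, Sym2.mem_iff] at hxe
    rcases hxe with h | h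
    · exact hx _ h.symm
    · exact hx _ h.symm

/-- small graphs with degrees `0` and `2` -/
def lb1b_F : Fin 6 → Finset (Sym2 (Fin 8)) :=
  ![∅,
    {s(0, 1), s(1, 2), s(2, 3), s(3, 4), s(4, 5), s(5, 6), s(6, 0)},
    {s(0, 1), s(1, 2), s(2, 3), s(3, 4), s(4, 5), s(5, 6), s(6, 7), s(7, 0)},
    {s(0, 1), s(1, 2), s(2, 0)},
    {s(0, 1), s(1, 2), s(2, 3), s(3, 0)},
    {s(0, 1), s(1, 2), s(2, 3), s(3, 4), s(4, 0)}]

theorem lb1b_F_deg : ∀ r : Fin 6, ∀ i : Fin 8, deg (lb1b_F r) i = 0 ∨ deg (lb1b_F r) i = 2 := by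
  unfold deg
  decide

theorem lb1b_F_card : ∀ r : Fin 6, (lb1b_F r).card % 6 = r.1 := by
  decide

theorem lb1b_F_card_le : ∀ r : Fin 6, (lb1b_F r).card ≤ 8 := by
  decide

theorem lb1b_F_loop : ∀ r : Fin 6, ∀ i : Fin 8, s(i, i) ∉ lb1b_F r := by
  decide

theorem lb1b_odd (s : ℕ) (hs : 40 ≤ s) (hodd : s % 2 = 1) (ρ : ℕ) :
    ∃ E : Finset (Sym2 (Option (Fin (s - 1)))), Loopless E ∧ EvenDeg E ∧ E.card % 6 = ρ % 6 ∧
      (∀ v : Fin (s - 1), s - 3 + (s + 1) % 2 ≤ deg E (some v)) ∧ s - 14 ≤ deg E none := by
  have hcV := lb1b_cardV s (by omega)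
  have hK := lb1b_card (V := Option (Fin (s - 1)))
  rw [hcV] at hK
  set K := lb1b_K (Option (Fin (s - 1))) with hKdef
  set r : Fin 6 := ⟨(K.card + 6 * ρ - ρ % 6) % 6, Nat.mod_lt _ (by norm_num)⟩ with hr
  have hlt : ∀ i : Fin 8, i.1 < s - 1 := fun i => by have := i.2; omega
  set f : Fin 8 → Option (Fin (s - 1)) := fun i => some ⟨i.1, hlt i⟩ with hf
  have hfi : Function.Injective f := by
    intro i j hij
    simp only [hf, Option.some.injEq, Fin.mk.injEq] at hij
    exact Fin.ext hij
  set F := (lb1b_F r).image (Sym2.map f) with hF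
  have hFl : Loopless F := by
    intro x hx
    rw [hF, Finset.mem_image] at hx
    obtain ⟨e, he, hex⟩ := hx
    induction e using Sym2.ind with
    | _ a b =>
      simp only [Sym2.map_mk, Sym2.eq_iff, or_self] at hex
      have : a = b := hfi (hex.1.trans hex.2.symm)
      subst this
      exact lb1b_F_loop r a he
  have hFK : F ⊆ K := lb1b_sub_K hFl
  have hFc : F.card = (lb1b_F r).card := by
    rw [hF, Finset.card_image_of_injective _ (Sym2.map.injective hfi)]
  have hFd : ∀ x, deg F x = 0 ∨ deg F x = 2 := by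
    intro x
    by_cases hx : ∃ i, f i = x
    · obtain ⟨i, rfl⟩ := hx
      rw [hF, lb1b_deg_image f hfi]
      exact lb1b_F_deg r i
    · left
      exact lb1b_deg_image0 f _ x (fun i hi => hx ⟨i, hi⟩)
  have hdeg : ∀ x, deg (K \ F) x + deg F x = s - 1 := by
    intro x
    rw [deg_sdiff hFK, lb1b_deg, hcV]
  have hcard : (K \ F).card + F.card = K.card := by
    rw [Finset.card_sdiff_add_card_eq_card hFK]
  refine ⟨K \ F, lb1b_loopless.mono Finset.sdiff_subset, ?_, ?_, ?_, ?_⟩
  · intro x
    have h1 := hdeg x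
    rcases hFd x with h2 | h2
    · rw [h2] at h1
      rw [Nat.even_iff]
      omega
    · rw [h2] at h1
      rw [Nat.even_iff]
      omega
  · have h1 := lb1b_F_card r
    have h2 := lb1b_F_card_le r
    have h3 : r.1 = (K.card + 6 * ρ - ρ % 6) % 6 := rfl
    have h4 : ρ % 6 ≤ 6 * ρ := by omega
    have h5 : 8 ≤ K.card := by
      have : 40 * 39 ≤ s * (s - 1) := Nat.mul_le_mul hs (by omega)
      omega
    omega
  · intro v
    have h1 := hdeg (some v)
    rcases hFd (some v) with h2 | h2 <;> omega
  · have h1 := hdeg none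
    rcases hFd none with h2 | h2 <;> omega

/-! ### `s` even -/

/-- the partner -/
def lb1b_p (s j : ℕ) (v : Fin (s - 1)) : Option (Fin (s - 1)) :=
  if v.1 < 2 * j + 1 then none
  else if v.1 % 2 = 1 then (if h : v.1 + 1 < s - 1 then some ⟨v.1 + 1, h⟩ else none)
  else some ⟨v.1 - 1, by have := v.2; omega⟩

theorem lb1b_even (s : ℕ) (hs : 40 ≤ s) (heven : s % 2 = 0) (ρ : ℕ) :
    ∃ E : Finset (Sym2 (Option (Fin (s - 1)))), Loopless E ∧ EvenDeg E ∧ E.card % 6 = ρ % 6 ∧
      (∀ v : Fin (s - 1), s - 3 + (s + 1) % 2 ≤ deg E (some v)) ∧ s - 14 ≤ deg E none := by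
  have hcV := lb1b_cardV s (by omega)
  have hK := lb1b_card (V := Option (Fin (s - 1)))
  rw [hcV] at hK
  set K := lb1b_K (Option (Fin (s - 1))) with hKdef
  obtain ⟨t, ht⟩ : ∃ t, s = 2 * t := ⟨s / 2, by omega⟩
  obtain ⟨m, hm⟩ : ∃ m, m = t * (s - 2) := ⟨_, rfl⟩
  have hmK : K.card = m + t := by
    have h1 : s * (s - 1) = 2 * (t * (s - 2)) + 2 * t := by
      subst ht
      obtain ⟨u, rfl⟩ : ∃ u, t = u + 1 := ⟨t - 1, by omega⟩
      have e1 : 2 * (u + 1) - 1 = 2 * u + 1 := by omega
      have e2 : 2 * (u + 1) - 2 = 2 * u := by omega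
      rw [e1, e2]
      ring
    rw [h1, ← hm] at hK
    omega
  have hm6 : 6 ≤ m := by
    have : 20 * 38 ≤ t * (s - 2) := Nat.mul_le_mul (by omega) (by omega)
    omega
  set j := (m + 6 * ρ - ρ % 6) % 6 with hj
  have hj6 : j < 6 := Nat.mod_lt _ (by norm_num)
  set p := lb1b_p s j with hp
  set F : Finset (Sym2 (Option (Fin (s - 1)))) := Finset.univ.image (fun v => s(some v, p v)) with hF
  -- the partner map is an involution
  have hpp : ∀ v w : Fin (s - 1), p v = some w → p w = some v := by
    intro v w hvw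
    have hv := v.2
    have hw := w.2
    simp only [hp, lb1b_p] at hvw ⊢
    split_ifs at hvw with h1 h2 h3
    · simp only [Option.some.injEq] at hvw
      subst hvw
      rw [if_neg (by simp only []; omega), if_neg (by simp only []; omega)]
      simp
    · simp only [Option.some.injEq] at hvw
      subst hvw
      have h4 : ¬ (v.1 - 1 < 2 * j + 1) := by omega
      have h5 : (v.1 - 1) % 2 = 1 := by omega
      have h6 : v.1 - 1 + 1 < s - 1 := by omega
      rw [if_neg (by simpa using h4), if_pos (by simpa using h5), dif_pos (by simpa using h6)]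
      simp only [Option.some.injEq]
      apply Fin.ext
      simp only []
      omega
  have hpn : ∀ v : Fin (s - 1), p v = none ↔ v.1 < 2 * j + 1 := by
    intro v
    have hv := v.2
    simp only [hp, lb1b_p]
    split_ifs with h1 h2 h3
    · simp [h1]
    · simp [h1]
    · omega
    · simp [h1]
  have hps : ∀ v : Fin (s - 1), p v ≠ some v := by
    intro v hv
    simp only [hp, lb1b_p] at hv
    split_ifs at hv with h1 h2 h3
    · simp only [Option.some.injEq] at hv
      have := congrArg Fin.val hv
      simp only [] at this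
      omega
    · simp only [Option.some.injEq] at hv
      have := congrArg Fin.val hv
      simp only [] at this
      omega
  have hFl : Loopless F := by
    intro x hx
    rw [hF, Finset.mem_image] at hx
    obtain ⟨v, _, hv⟩ := hx
    simp only [Sym2.eq_iff, or_self] at hv
    exact hps v (hv.2.trans hv.1.symm)
  have hFK : F ⊆ K := lb1b_sub_K hFl
  have hd1 : ∀ v : Fin (s - 1), deg F (some v) = 1 := by
    intro v
    unfold deg
    have : F.filter (fun e => (some v : Option (Fin (s - 1))) ∈ e) = {s(some v, p v)} := by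
      ext e
      simp only [hF, Finset.mem_filter, Finset.mem_image, Finset.mem_univ, true_and,
        Finset.mem_singleton]
      constructor
      · rintro ⟨⟨w, rfl⟩, h⟩
        rw [Sym2.mem_iff] at h
        rcases h with h | h
        · simp only [Option.some.injEq] at h
          rw [h]
        · rw [← h, hpp w v h.symm]
          exact Sym2.eq_swap
      · rintro rfl
        exact ⟨⟨v, rfl⟩, Sym2.mem_mk_left _ _⟩
    rw [this, Finset.card_singleton]
  have hd0 : deg F none = 2 * j + 1 := by
    unfold deg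
    have h1 : F.filter (fun e => (none : Option (Fin (s - 1))) ∈ e) =
        (Finset.univ.filter (fun v : Fin (s - 1) => v.1 < 2 * j + 1)).image
          (fun v => s(some v, none)) := by
      ext e
      simp only [hF, Finset.mem_filter, Finset.mem_image, Finset.mem_univ, true_and]
      constructor
      · rintro ⟨⟨w, rfl⟩, h⟩
        rw [Sym2.mem_iff] at h
        rcases h with h | h
        · simp at h
        · exact ⟨w, (hpn w).1 h.symm, by rw [← h]⟩
      · rintro ⟨w, hw, rfl⟩
        refine ⟨⟨w, by rw [(hpn w).2 hw]⟩, Sym2.mem_mk_right _ _⟩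
    rw [h1, Finset.card_image_of_injective]
    · have h2 : (Finset.univ.filter (fun v : Fin (s - 1) => v.1 < 2 * j + 1)) =
          Finset.univ.image (fun i : Fin (2 * j + 1) =>
            (⟨i.1, by have := i.2; omega⟩ : Fin (s - 1))) := by
        ext v
        simp only [Finset.mem_filter, Finset.mem_univ, true_and, Finset.mem_image]
        constructor
        · intro h
          exact ⟨⟨v.1, h⟩, rfl⟩
        · rintro ⟨i, rfl⟩
          exact i.2
      rw [h2, Finset.card_image_of_injective]
      · simp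
      · intro a b hab
        simp only [Fin.mk.injEq] at hab
        exact Fin.ext hab
    · intro a b hab
      simp only [Sym2.eq_iff, Option.some.injEq, and_true, reduceCtorEq, and_false, or_false]
        at hab
      exact hab
  have hFc : 2 * F.card = (s - 1) + (2 * j + 1) := by
    rw [← sum_deg (lb1b_sub_univ _) hFl, Fintype.sum_option, hd0]
    simp only [hd1, Finset.sum_const, Finset.card_univ, Fintype.card_fin, smul_eq_mul, mul_one]
    omega
  have hdeg : ∀ x, deg (K \ F) x + deg F x = s - 1 := by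
    intro x
    rw [deg_sdiff hFK, lb1b_deg, hcV]
  have hcard : (K \ F).card + F.card = K.card := by
    rw [Finset.card_sdiff_add_card_eq_card hFK]
  refine ⟨K \ F, lb1b_loopless.mono Finset.sdiff_subset, ?_, ?_, ?_, ?_⟩
  · intro x
    have h1 := hdeg x
    rw [Nat.even_iff]
    cases x with
    | none => rw [hd0] at h1; omega
    | some v => rw [hd1] at h1; omega
  · have h4 : ρ % 6 ≤ 6 * ρ := by omega
    have h5 : F.card = t + j := by omega
    have h6 : (K \ F).card + j = m := by omega
    omega
  · intro v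
    have h1 := hdeg (some v)
    rw [hd1] at h1
    omega
  · have h1 := hdeg none
    rw [hd0] at h1
    omega

theorem block (s : ℕ) (hs : 40 ≤ s) (ρ : ℕ) :
    ∃ E : Finset (Sym2 (Option (Fin (s - 1)))), Loopless E ∧ EvenDeg E ∧ E.card % 6 = ρ % 6 ∧
      (∀ v : Fin (s - 1), s - 3 + (s + 1) % 2 ≤ deg E (some v)) ∧ s - 14 ≤ deg E none := by
  rcases Nat.mod_two_eq_zero_or_one s with h | h
  · exact lb1b_even s hs h ρ
  · exact lb1b_odd s hs h ρ

/-- the complete graph -/
theorem block_complete (s : ℕ) (hs : 3 ≤ s) (hodd : s % 2 = 1) :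
    ∃ E : Finset (Sym2 (Option (Fin (s - 1)))), Loopless E ∧ EvenDeg E ∧
      2 * E.card = s * (s - 1) ∧ ∀ v, deg E v = s - 1 := by
  have hcV := lb1b_cardV s (by omega)
  refine ⟨lb1b_K _, lb1b_loopless, ?_, ?_, ?_⟩
  · intro x
    rw [lb1b_deg, hcV, Nat.even_iff]
    omega
  · rw [lb1b_card, hcV]
  · intro x
    rw [lb1b_deg, hcV]

end H15C6
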