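import Pool.Agent.H15.C6.ADefs

/-!
Module LB1A (part of LB1).  Lower bound, two blocks with a common cut vertex.

`c6_block`: if every edge of the six-cycle `C` is inside `AX = insert x A0` or inside `BX = insert x B0` (`A0, B0`
disjoint, `x` in neither), then `C` is inside `AX` or inside `BX`.  Proof: let `g i : Fin 3` be the kind of `v i`
(`0` if in `A0`, `1` if in `B0`, `2` otherwise, i.e. `= x`); consecutive kinds are never `{0,1}`, at most one `i` has
kind 2; then not both kinds 0 and 1 occur (`decide` over `Fin 6 → Fin 3`, 729 functions).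
`dec_block`: hence `Dec E → 6 ∣ (E ∩ AX.sym2).card` for every `E` all of whose edges are inside `AX` or `BX` (induction on
`Dec`; a cycle inside `AX` has 6 edges there, a cycle inside `BX` has none inside `AX` because there are no
loops and `AX ∩ BX = {x}`).
`block_even`, `block_odd`: graphs on `Option (Fin (s-1))` (`none` is the cut vertex).
* `s` even, `j ≤ 5`: complete graph minus the edges `s(none, i)`, `i < 2j+1`, and `s(m, m+1)` for odd `m ≥ 2j+1`, `m+1 ≤ s-2`.
  Every `some v` has degree `s - 2`, `none` has degree `s - 2 - 2j`; `2|E| = s(s-2) - 2j`.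
* `s` odd, `3 ≤ l ≤ 8`: complete graph minus the cycle `0,1,...,l-1`: degrees `s - 1` or `s - 3`;
  `2|E| = s(s-1) - 2l`.
`block` : every residue mod 6 is attained.
-/

open Finset

namespace H15C6

set_option maxRecDepth 100000 in
theorem lb1a_fin (g : Fin 6 → Fin 3) :
    (∀ i : Fin 6, (g i ≠ 1 ∧ g (i + 1) ≠ 1) ∨ (g i ≠ 0 ∧ g (i + 1) ≠ 0)) →
    (∀ i j : Fin 6, g i = 2 → g j = 2 → i = j) →
    (∀ i, g i ≠ 1) ∨ (∀ i, g i ≠ 0) := by
  revert g
  decide +kernel

theorem c6_block {V : Type} [DecidableEq V] (A0 B0 : Finset V) (x : V) (hd : Disjoint A0 B0)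
    (hxA : x ∉ A0) (hxB : x ∉ B0) (C : Finset (Sym2 V)) (hC : IsC6 C)
    (h : ∀ e ∈ C, e ∈ (insert x A0).sym2 ∨ e ∈ (insert x B0).sym2) :
    C ⊆ (insert x A0).sym2 ∨ C ⊆ (insert x B0).sym2 := by
  obtain ⟨v, hv, rfl⟩ := hC
  have hcons : ∀ i : Fin 6, (v i ∈ insert x A0 ∧ v (i + 1) ∈ insert x A0) ∨
      (v i ∈ insert x B0 ∧ v (i + 1) ∈ insert x B0) := by
    intro i
    rcases h _ (mem_cyc.2 ⟨i, rfl⟩) with h1 | h1
    · left
      exact Finset.mk_mem_sym2_iff.1 h1
    · right
      exact Finset.mk_mem_sym2_iff.1 h1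
  let g : Fin 6 → Fin 3 := fun i => if v i ∈ A0 then 0 else if v i ∈ B0 then 1 else 2
  have g0 : ∀ i, g i = 0 ↔ v i ∈ A0 := by
    intro i
    simp only [g]
    by_cases h1 : v i ∈ A0
    · simp [h1]
    · by_cases h2 : v i ∈ B0 <;> simp [h1, h2]
  have g1 : ∀ i, g i = 1 ↔ v i ∈ B0 := by
    intro i
    simp only [g]
    by_cases h1 : v i ∈ A0
    · have h2 : v i ∉ B0 := Finset.disjoint_left.1 hd h1
      simp [h1, h2]
    · by_cases h2 : v i ∈ B0 <;> simp [h1, h2]
  have g2 : ∀ i, g i = 2 → v i = x := by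
    intro i hi
    by_contra hne
    rcases hcons i with ⟨h1, -⟩ | ⟨h1, -⟩
    · rcases Finset.mem_insert.1 h1 with h2 | h2
      · exact hne h2
      · rw [(g0 i).2 h2] at hi
        exact absurd hi (by decide)
    · rcases Finset.mem_insert.1 h1 with h2 | h2
      · exact hne h2
      · rw [(g1 i).2 h2] at hi
        exact absurd hi (by decide)
  have nA : ∀ i, v i ∈ insert x A0 → g i ≠ 1 := by
    intro i hi hg
    have h2 := (g1 i).1 hg
    rcases Finset.mem_insert.1 hi with h3 | h3
    · rw [h3] at h2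
      exact hxB h2
    · exact Finset.disjoint_left.1 hd h3 h2
  have nB : ∀ i, v i ∈ insert x B0 → g i ≠ 0 := by
    intro i hi hg
    have h2 := (g0 i).1 hg
    rcases Finset.mem_insert.1 hi with h3 | h3
    · rw [h3] at h2
      exact hxA h2
    · exact Finset.disjoint_left.1 hd h2 h3
  have key := lb1a_fin g
    (fun i => (hcons i).imp (fun h => ⟨nA _ h.1, nA _ h.2⟩) (fun h => ⟨nB _ h.1, nB _ h.2⟩))
    (fun i j hi hj => hv ((g2 i hi).trans (g2 j hj).symm))
  rcases key with k | k
  · left
    intro e he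
    obtain ⟨i, rfl⟩ := mem_cyc.1 he
    have hA : ∀ i, v i ∈ insert x A0 := by
      intro i
      rcases hcons i with ⟨h1, -⟩ | ⟨h1, -⟩
      · exact h1
      · rcases Finset.mem_insert.1 h1 with h2 | h2
        · rw [h2]
          exact Finset.mem_insert_self _ _
        · exact absurd ((g1 i).2 h2) (k i)
    exact Finset.mk_mem_sym2_iff.2 ⟨hA i, hA (i + 1)⟩
  · right
    intro e he
    obtain ⟨i, rfl⟩ := mem_cyc.1 he
    have hB : ∀ i, v i ∈ insert x B0 := by
      intro i
      rcases hcons i with ⟨h1, -⟩ | ⟨h1, -⟩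
      · rcases Finset.mem_insert.1 h1 with h2 | h2
        · rw [h2]
          exact Finset.mem_insert_self _ _
        · exact absurd ((g0 i).2 h2) (k i)
      · exact h1
    exact Finset.mk_mem_sym2_iff.2 ⟨hB i, hB (i + 1)⟩

theorem dec_block {V : Type} [DecidableEq V] (A0 B0 : Finset V) (x : V) (hd : Disjoint A0 B0)
    (hxA : x ∉ A0) (hxB : x ∉ B0) (E : Finset (Sym2 V)) (hE : Dec E)
    (h : ∀ e ∈ E, e ∈ (insert x A0).sym2 ∨ e ∈ (insert x B0).sym2) :
    6 ∣ (E ∩ (insert x A0).sym2).card := by
  induction hE with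
  | empty => simp
  | @add E C hE hC hdis ih =>
    have hE' : ∀ e ∈ E, e ∈ (insert x A0).sym2 ∨ e ∈ (insert x B0).sym2 :=
      fun e he => h e (Finset.mem_union_left _ he)
    have hC' : ∀ e ∈ C, e ∈ (insert x A0).sym2 ∨ e ∈ (insert x B0).sym2 :=
      fun e he => h e (Finset.mem_union_right _ he)
    rw [Finset.union_inter_distrib_right, Finset.card_union_of_disjoint
      (Finset.disjoint_of_subset_left Finset.inter_subset_left
        (Finset.disjoint_of_subset_right Finset.inter_subset_left hdis))]
    refine (Nat.dvd_add_right (ih hE')).2 ?_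
    rcases c6_block A0 B0 x hd hxA hxB C hC hC' with h1 | h1
    · rw [Finset.inter_eq_left.2 h1, hC.card]
    · have : C ∩ (insert x A0).sym2 = ∅ := by
        rw [Finset.eq_empty_iff_forall_notMem]
        intro e he
        rw [Finset.mem_inter] at he
        obtain ⟨he1, he2⟩ := he
        have he3 := h1 he1
        have hl := hC.loopless
        induction e using Sym2.ind with
        | _ a b =>
          rw [Finset.mk_mem_sym2_iff] at he2 he3
          have hone : ∀ y, y ∈ insert x A0 → y ∈ insert x B0 → y = x := by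
            intro y h1 h2
            rcases Finset.mem_insert.1 h1 with h3 | h3
            · exact h3
            · rcases Finset.mem_insert.1 h2 with h4 | h4
              · exact h4
              · exact absurd h4 (Finset.disjoint_left.1 hd h3)
          have ha := hone a he2.1 he3.1
          have hb := hone b he2.2 he3.2
          rw [ha, hb] at he1
          exact hl x he1
      rw [this]
      simp

end H15C6
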