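import Pool.Agent.H15.C6.LB1

/-!
Module LB2.  Gluing two blocks at a vertex, and transport along equivalences.

`glue`: `V = Option (Fin p ⊕ Fin q)`; image of `E1` under `Option.map Sum.inl` and of `E2` under `Option.map Sum.inr`
(`Finset.map`/`image` with `Sym2.map`); their union is disjoint (loopless), degrees add up; not decomposable by
`dec_block` because `|E ∩ AX.sym2| = |E1|` is not divisible by 6.
`transport`: for `e : V ≃ W` the image of `E` under `Sym2.map e`.
-/

open Finset

namespace H15C6

section Img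

variable {V W : Type} [DecidableEq V] [DecidableEq W]

/-- the image of an edge set -/
def lb2_img (f : V → W) (E : Finset (Sym2 V)) : Finset (Sym2 W) := E.image (Sym2.map f)

theorem lb2_mem {f : V → W} {E : Finset (Sym2 V)} {e : Sym2 W} (he : e ∈ lb2_img f E) :
    ∃ a b, s(a, b) ∈ E ∧ e = s(f a, f b) := by
  unfold lb2_img at he
  rw [Finset.mem_image] at he
  obtain ⟨e', he', rfl⟩ := he
  induction e' using Sym2.ind with
  | _ a b => exact ⟨a, b, he', rfl⟩

theorem lb2_mk {f : V → W} {E : Finset (Sym2 V)} {a b : V} (h : s(a, b) ∈ E) :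
    s(f a, f b) ∈ lb2_img f E := by
  unfold lb2_img
  rw [Finset.mem_image]
  exact ⟨_, h, rfl⟩

theorem lb2_card {f : V → W} (hf : Function.Injective f) (E : Finset (Sym2 V)) :
    (lb2_img f E).card = E.card :=
  Finset.card_image_of_injective _ (Sym2.map.injective hf)

theorem lb2_loopless {f : V → W} (hf : Function.Injective f) {E : Finset (Sym2 V)} (h : Loopless E) :
    Loopless (lb2_img f E) := by
  intro x hx
  obtain ⟨a, b, hab, he⟩ := lb2_mem hx
  rw [Sym2.eq_iff] at he
  have hne := h.ne hab
  rcases he with ⟨h1, h2⟩ | ⟨h1, h2⟩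
  · exact hne (hf (h1.symm.trans h2))
  · exact hne (hf (h2.symm.trans h1))

theorem lb2_deg {f : V → W} (hf : Function.Injective f) (E : Finset (Sym2 V)) (x : V) :
    deg (lb2_img f E) (f x) = deg E x := by
  unfold deg lb2_img
  rw [Finset.filter_image, Finset.card_image_of_injective _ (Sym2.map.injective hf)]
  congr 1
  ext e
  rw [Finset.mem_filter, Finset.mem_filter]
  refine and_congr_right fun _ => ?_
  induction e using Sym2.ind with
  | _ a b =>
    rw [Sym2.map_mk, Sym2.mem_iff, Sym2.mem_iff]
    constructor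
    · rintro (h | h)
      · exact Or.inl (hf h)
      · exact Or.inr (hf h)
    · rintro (h | h)
      · exact Or.inl (congrArg f h)
      · exact Or.inr (congrArg f h)

theorem lb2_deg_out {f : V → W} (E : Finset (Sym2 V)) {y : W} (hy : ∀ x, f x ≠ y) :
    deg (lb2_img f E) y = 0 := by
  unfold deg
  rw [Finset.card_eq_zero, Finset.filter_eq_empty_iff]
  intro e he hye
  obtain ⟨a, b, _, rfl⟩ := lb2_mem he
  rw [Sym2.mem_iff] at hye
  rcases hye with h | h
  · exact hy a h.symm
  · exact hy b h.symm

theorem lb2_isC6 {f : V → W} (hf : Function.Injective f) {C : Finset (Sym2 V)} (h : IsC6 C) :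
    IsC6 (lb2_img f C) := by
  obtain ⟨v, hv, rfl⟩ := h
  refine ⟨f ∘ v, hf.comp hv, ?_⟩
  unfold lb2_img cyc
  rw [Finset.image_image]
  rfl

theorem lb2_dec {f : V → W} (hf : Function.Injective f) {E : Finset (Sym2 V)} (h : Dec E) :
    Dec (lb2_img f E) := by
  induction h with
  | empty =>
    unfold lb2_img
    rw [Finset.image_empty]
    exact Dec.empty
  | @add E C hE hC hd ih =>
    have e : lb2_img f (E ∪ C) = lb2_img f E ∪ lb2_img f C := Finset.image_union _ _
    rw [e]
    exact Dec.add ih (lb2_isC6 hf hC) ((Finset.disjoint_image (Sym2.map.injective hf)).2 hd)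

theorem lb2_comp {X : Type} [DecidableEq X] (f : V → W) (g : W → X) (E : Finset (Sym2 V)) :
    lb2_img g (lb2_img f E) = lb2_img (g ∘ f) E := by
  unfold lb2_img
  rw [Finset.image_image]
  congr 1
  funext e
  exact (Sym2.map_comp (f := f) (g := g) ▸ rfl)

theorem lb2_id (E : Finset (Sym2 V)) : lb2_img id E = E := by
  unfold lb2_img
  rw [Sym2.map_id, Finset.image_id]

end Img

theorem glue (p q : ℕ) (E1 : Finset (Sym2 (Option (Fin p)))) (E2 : Finset (Sym2 (Option (Fin q))))
    (h1 : Loopless E1) (h2 : Loopless E2) (he1 : EvenDeg E1) (he2 : EvenDeg E2)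
    (hc : 6 ∣ E1.card + E2.card) (hn : ¬ 6 ∣ E1.card) :
    ∃ E : Finset (Sym2 (Option (Fin p ⊕ Fin q))), Loopless E ∧ EvenDeg E ∧ 6 ∣ E.card ∧ ¬ Dec E ∧
      (∀ v, deg E (some (Sum.inl v)) = deg E1 (some v)) ∧
      (∀ v, deg E (some (Sum.inr v)) = deg E2 (some v)) ∧
      deg E none = deg E1 none + deg E2 none := by
  have hf1 : Function.Injective (Option.map (Sum.inl : Fin p → Fin p ⊕ Fin q)) :=
    Option.map_injective Sum.inl_injective
  have hf2 : Function.Injective (Option.map (Sum.inr : Fin q → Fin p ⊕ Fin q)) :=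
    Option.map_injective Sum.inr_injective
  set f1 : Option (Fin p) → Option (Fin p ⊕ Fin q) := Option.map Sum.inl with hf1_def
  set f2 : Option (Fin q) → Option (Fin p ⊕ Fin q) := Option.map Sum.inr with hf2_def
  have hnone : ∀ a b, f1 a = f2 b → a = none ∧ b = none := by
    intro a b hab
    cases a with
    | none =>
      cases b with
      | none => exact ⟨rfl, rfl⟩
      | some b => simp [hf1_def, hf2_def] at hab
    | some a =>
      cases b with
      | none => simp [hf1_def, hf2_def] at hab
      | some b => simp [hf1_def, hf2_def] at hab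
  have hdis : Disjoint (lb2_img f1 E1) (lb2_img f2 E2) := by
    rw [Finset.disjoint_left]
    intro e ha hb
    obtain ⟨a, b, hab, rfl⟩ := lb2_mem ha
    obtain ⟨c, d, hcd, he⟩ := lb2_mem hb
    rw [Sym2.eq_iff] at he
    rcases he with ⟨e1, e2⟩ | ⟨e1, e2⟩
    · exact h1.ne hab ((hnone _ _ e1).1.trans (hnone _ _ e2).1.symm)
    · exact h1.ne hab ((hnone _ _ e1).1.trans (hnone _ _ e2).1.symm)
  have hl1 := lb2_loopless hf1 h1
  have hl2 := lb2_loopless hf2 h2
  have d1 : ∀ v, deg (lb2_img f1 E1 ∪ lb2_img f2 E2) (some (Sum.inl v)) = deg E1 (some v) := by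
    intro v
    rw [deg_union hdis]
    have e1 : (some (Sum.inl v) : Option (Fin p ⊕ Fin q)) = f1 (some v) := rfl
    have e2 : deg (lb2_img f2 E2) (some (Sum.inl v)) = 0 := by
      refine lb2_deg_out E2 ?_
      intro x hx
      cases x with
      | none => simp [hf2_def] at hx
      | some x => simp [hf2_def] at hx
    rw [e2, e1, lb2_deg hf1, Nat.add_zero]
  have d2 : ∀ v, deg (lb2_img f1 E1 ∪ lb2_img f2 E2) (some (Sum.inr v)) = deg E2 (some v) := by
    intro v
    rw [deg_union hdis]
    have e1 : (some (Sum.inr v) : Option (Fin p ⊕ Fin q)) = f2 (some v) := rfl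
    have e2 : deg (lb2_img f1 E1) (some (Sum.inr v)) = 0 := by
      refine lb2_deg_out E1 ?_
      intro x hx
      cases x with
      | none => simp [hf1_def] at hx
      | some x => simp [hf1_def] at hx
    rw [e2, e1, lb2_deg hf2, Nat.zero_add]
  have d3 : deg (lb2_img f1 E1 ∪ lb2_img f2 E2) none = deg E1 none + deg E2 none := by
    rw [deg_union hdis]
    have e1 : deg (lb2_img f1 E1) none = deg E1 none := lb2_deg hf1 E1 none
    have e2 : deg (lb2_img f2 E2) none = deg E2 none := lb2_deg hf2 E2 none
    rw [e1, e2]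
  have hcard : (lb2_img f1 E1 ∪ lb2_img f2 E2).card = E1.card + E2.card := by
    rw [Finset.card_union_of_disjoint hdis, lb2_card hf1, lb2_card hf2]
  refine ⟨lb2_img f1 E1 ∪ lb2_img f2 E2, hl1.union hl2, ?_, ?_, ?_, d1, d2, d3⟩
  · intro x
    rcases x with _ | x | x
    · rw [d3]; exact (he1 none).add (he2 none)
    · rw [d1]; exact he1 _
    · rw [d2]; exact he2 _
  · rw [hcard]; exact hc
  · intro hD
    apply hn
    set A0 : Finset (Option (Fin p ⊕ Fin q)) := univ.image (fun v : Fin p => some (Sum.inl v)) with hA0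
    set B0 : Finset (Option (Fin p ⊕ Fin q)) := univ.image (fun v : Fin q => some (Sum.inr v)) with hB0
    have hAB : Disjoint A0 B0 := by
      rw [Finset.disjoint_left]
      intro x hx hy
      rw [hA0, Finset.mem_image] at hx
      rw [hB0, Finset.mem_image] at hy
      obtain ⟨a, _, rfl⟩ := hx
      obtain ⟨b, _, hb⟩ := hy
      simp at hb
    have hxA : (none : Option (Fin p ⊕ Fin q)) ∉ A0 := by
      rw [hA0, Finset.mem_image]
      rintro ⟨a, _, ha⟩
      simp at ha
    have hxB : (none : Option (Fin p ⊕ Fin q)) ∉ B0 := by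
      rw [hB0, Finset.mem_image]
      rintro ⟨a, _, ha⟩
      simp at ha
    have hm1 : ∀ a, f1 a ∈ insert none A0 := by
      intro a
      cases a with
      | none => exact Finset.mem_insert_self _ _
      | some a =>
        refine Finset.mem_insert_of_mem ?_
        rw [hA0, Finset.mem_image]
        exact ⟨a, mem_univ _, rfl⟩
    have hm2 : ∀ a, f2 a ∈ insert none B0 := by
      intro a
      cases a with
      | none => exact Finset.mem_insert_self _ _
      | some a =>
        refine Finset.mem_insert_of_mem ?_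
        rw [hB0, Finset.mem_image]
        exact ⟨a, mem_univ _, rfl⟩
    have hm3 : ∀ a, f2 a ∈ insert none A0 → a = none := by
      intro a ha
      rw [Finset.mem_insert] at ha
      rcases ha with ha | ha
      · exact (hnone none a ha.symm).2
      · rw [hA0, Finset.mem_image] at ha
        obtain ⟨b, _, hb⟩ := ha
        exact (hnone (some b) a hb).2
    have hblock := dec_block A0 B0 none hAB hxA hxB _ hD (by
      intro e he
      rw [Finset.mem_union] at he
      rcases he with he | he
      · left
        obtain ⟨a, b, _, rfl⟩ := lb2_mem he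
        rw [Finset.mk_mem_sym2_iff]
        exact ⟨hm1 a, hm1 b⟩
      · right
        obtain ⟨a, b, _, rfl⟩ := lb2_mem he
        rw [Finset.mk_mem_sym2_iff]
        exact ⟨hm2 a, hm2 b⟩)
    have heq : (lb2_img f1 E1 ∪ lb2_img f2 E2) ∩ (insert none A0).sym2 = lb2_img f1 E1 := by
      ext e
      rw [Finset.mem_inter, Finset.mem_union]
      constructor
      · rintro ⟨he | he, hs⟩
        · exact he
        · exfalso
          obtain ⟨a, b, hab, rfl⟩ := lb2_mem he
          rw [Finset.mk_mem_sym2_iff] at hs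
          exact h2.ne hab ((hm3 a hs.1).trans (hm3 b hs.2).symm)
      · intro he
        refine ⟨Or.inl he, ?_⟩
        obtain ⟨a, b, _, rfl⟩ := lb2_mem he
        rw [Finset.mk_mem_sym2_iff]
        exact ⟨hm1 a, hm1 b⟩
    rw [heq, lb2_card hf1] at hblock
    exact hblock

theorem transport {V W : Type} [DecidableEq V] [DecidableEq W] (f : V ≃ W)
    (E : Finset (Sym2 V)) (hl : Loopless E) (he : EvenDeg E) (h6 : 6 ∣ E.card) (hD : ¬ Dec E)
    (d : ℕ) (hd : ∀ v, d ≤ deg E v) :
    ∃ E' : Finset (Sym2 W), Loopless E' ∧ EvenDeg E' ∧ 6 ∣ E'.card ∧ ¬ Dec E' ∧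
      ∀ v, d ≤ deg E' v := by
  have hdeg : ∀ w, deg (lb2_img f E) w = deg E (f.symm w) := by
    intro w
    have h := lb2_deg f.injective E (f.symm w)
    rwa [Equiv.apply_symm_apply] at h
  refine ⟨lb2_img f E, lb2_loopless f.injective hl, ?_, ?_, ?_, ?_⟩
  · intro w
    rw [hdeg]
    exact he _
  · rw [lb2_card f.injective]
    exact h6
  · intro h
    apply hD
    have h' := lb2_dec f.symm.injective h
    rw [lb2_comp] at h'
    have e : (f.symm : W → V) ∘ (f : V → W) = id := by
      funext x
      exact f.symm_apply_apply x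
    rw [e, lb2_id] at h'
    exact h'
  · intro w
    rw [hdeg]
    exact hd _

end H15C6
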