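import Pool.Agent.H15.C6.CORE
import Pool.Agent.H15.C6.ABN1
import Pool.Agent.H15.C6.UTIL

/-!
Module NCT1 (part of NCT).  Decomposition of nearly complete structures: near-complete graphs (`nct`), near-complete
bipartite graphs (`bipt`), near-complete blow-ups of the four-class pattern (`e3t`).
All by `core` + absorbers; `|U| = n`.

`nct`: all vertices have degree `≥ c n`; all vertices of `A ⊆ U` (`|U \ A| ≤ ε n`) have degree `≥ (1-ε) n`.
`R = True`; for `x, y ∈ U`: `≥ (c-ε) n` choices each for `a ∈ N(x) ∩ A`, `c' ∈ N(y) ∩ A`, then `b` adjacent to both: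
`≥ (1-2ε)n`, so `P4 ≥ (c/2)^2/2 n^3` (`η := c^2/16`).  `Gam` with `η' := c/2`: every vertex of `A` is `Gam`-adjacent to
every other vertex; `hK4`: any two vertices of `A` outside `Z ∪ {x_i}`; hub: any vertex of `A \ Z`,
`ζ := c/2`.
`bipt`: `U = A ∪ B`, all edges between `A` and `B`; `R x y :=` same side.  Vertices of `A' ⊆ A` (resp. `B' ⊆ B`) are adjacent
to all but `ε n` vertices of `B` (resp. `A`), all vertices have degree `≥ c n`.
`e3t`: from `absorb_e3`; `R = True`; `P4 ≥ η n^3` for all pairs of vertices: between any two classes there is a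
walk of length four in the pattern (loops at 0 and 3, path 0-1-2-3), choose the classes along it.
-/

open Finset

namespace H15C6

theorem nct1_cn (V : Type) [Fintype V] [DecidableEq V] (U : Finset V) (E : Finset (Sym2 V))
    (hEU : E ⊆ U.sym2) (a u : V) : deg E a + deg E u ≤ cn E U a u + U.card := by
  rw [deg_eq_dg hEU, deg_eq_dg hEU]
  exact cn_ge E U a u

theorem nct (c : ℝ) (hc : 0 < c) :
    ∃ ε : ℝ, 0 < ε ∧ ∃ n0 : ℕ, ∀ (V : Type) [Fintype V] [DecidableEq V] (U A : Finset V)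
      (E : Finset (Sym2 V)), n0 ≤ U.card → A ⊆ U → E ⊆ U.sym2 → Loopless E → EvenDeg E →
      6 ∣ E.card → ((U \ A).card : ℝ) ≤ ε * U.card →
      (∀ a ∈ A, (1 - ε) * (U.card : ℝ) ≤ (deg E a : ℝ)) →
      (∀ u ∈ U, c * (U.card : ℝ) ≤ (deg E u : ℝ)) → Dec E := by
  obtain ⟨d, hd0, hdc, hd1⟩ : ∃ d : ℝ, 0 < d ∧ d ≤ c ∧ d ≤ 1 :=
    ⟨min c 1, lt_min hc one_pos, min_le_left _ _, min_le_right _ _⟩
  obtain ⟨εa, hεa, habs⟩ := absorb_nb (d / 2) (d / 2) (1 / 4) (by positivity) (by positivity)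
    (by norm_num)
  obtain ⟨M, hcore⟩ := core (d ^ 2 / 16) εa (by positivity) hεa
  obtain ⟨C, na, habs⟩ := habs M
  obtain ⟨nc, hcore⟩ := hcore C
  refine ⟨d / 8, by positivity, max (max na nc) (max 100 (⌈8 / d⌉₊ + 1)), ?_⟩
  intro V _ _ U A E hn hAU hEU hl hev h6 hUA hA hU
  have hna : na ≤ U.card := (le_max_left _ _).trans ((le_max_left _ _).trans hn)
  have hnc : nc ≤ U.card := (le_max_right _ _).trans ((le_max_left _ _).trans hn)
  have hn100 : 100 ≤ U.card := (le_max_left _ _).trans ((le_max_right _ _).trans hn)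
  have hn8 : 8 / d < U.card := by
    have h1 : ⌈8 / d⌉₊ + 1 ≤ U.card := (le_max_right _ _).trans ((le_max_right _ _).trans hn)
    have h2 : 8 / d ≤ ⌈8 / d⌉₊ := Nat.le_ceil _
    have h3 : ((⌈8 / d⌉₊ + 1 : ℕ) : ℝ) ≤ U.card := by exact_mod_cast h1
    push_cast at h3
    linarith
  have hnR : (100 : ℝ) ≤ U.card := by exact_mod_cast hn100
  have hnpos : (0 : ℝ) < U.card := by linarith
  have hd8 : 8 ≤ d * U.card := by
    rw [div_lt_iff₀ hd0] at hn8
    linarith
  have hAc : (1 - d / 8) * (U.card : ℝ) ≤ A.card := by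
    have h1 : U.card ≤ A.card + (U \ A).card := by
      have := Finset.card_sdiff_add_card_eq_card hAU
      omega
    have h2 : (U.card : ℝ) ≤ A.card + ((U \ A).card : ℝ) := by exact_mod_cast h1
    linarith
  have hdeg : ∀ u ∈ U, d * (U.card : ℝ) ≤ deg E u := fun u hu =>
    (mul_le_mul_of_nonneg_right hdc hnpos.le).trans (hU u hu)
  -- common neighbours
  have hcnA : ∀ a ∈ A, ∀ u ∈ U, d / 2 * (U.card : ℝ) ≤ (cn E U a u : ℝ) := by
    intro a ha u hu
    have h1 := nct1_cn V U E hEU a u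
    have h2 : (deg E a : ℝ) + deg E u ≤ cn E U a u + U.card := by exact_mod_cast h1
    have h3 := hA a ha
    have h4 := hdeg u hu
    nlinarith
  have hcnAA : ∀ a ∈ A, ∀ u ∈ A, 1 / 2 * (U.card : ℝ) ≤ (cn E U a u : ℝ) := by
    intro a ha u hu
    have h1 := nct1_cn V U E hEU a u
    have h2 : (deg E a : ℝ) + deg E u ≤ cn E U a u + U.card := by exact_mod_cast h1
    have h3 := hA a ha
    have h4 := hA u hu
    nlinarith
  have hGam : ∀ a ∈ A, ∀ u ∈ U, a ≠ u → Gam E U (d / 2) a u := fun a ha u hu hne =>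
    ⟨hne, hcnA a ha u hu⟩
  -- many neighbours in A
  have hnA : ∀ u ∈ U, d / 2 * (U.card : ℝ) ≤ (dg E A u : ℝ) := by
    intro u hu
    have h1 := dg_le_add E U A u
    rw [← deg_eq_dg hEU] at h1
    have h2 : (deg E u : ℝ) ≤ dg E A u + (U \ A).card := by exact_mod_cast h1
    have h3 := hdeg u hu
    nlinarith
  have hpickA : ∀ Z : Finset V, (Z.card : ℝ) ≤ 1 / 4 * U.card → ∀ F : Finset V, F.card ≤ 6 →
      ∃ z ∈ A, z ∉ Z ∧ z ∉ F := by
    intro Z hZ F hF
    have h1 : ((Z ∪ F).card : ℝ) < A.card := by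
      have h2 : ((Z ∪ F).card : ℝ) ≤ Z.card + F.card := by exact_mod_cast Finset.card_union_le Z F
      have h3 : (F.card : ℝ) ≤ 6 := by exact_mod_cast hF
      nlinarith
    obtain ⟨z, hz1, hz2⟩ := Finset.exists_mem_notMem_of_card_lt_card
      (show (Z ∪ F).card < A.card by exact_mod_cast h1)
    rw [Finset.mem_union, not_or] at hz2
    exact ⟨z, hz1, hz2.1, hz2.2⟩
  refine hcore V U E (fun _ _ => True) (fun H => EvenDeg H ∧ 6 ∣ H.card) hnc hEU hl
    (fun _ _ _ _ _ => trivial) ?_ (fun H hH => hH.1) ?_ ⟨hev, h6⟩ ?_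
  · intro x hx y hy _
    have h1 := P4_ge_real E U (nbr E A x) (nbr E A y) x y (d / 2 * U.card) (d / 2 * U.card)
      (1 / 2 * U.card) (by positivity) (by positivity) (by positivity)
      (fun v hv => hAU (mem_nbr.1 hv).1) (fun v hv => hAU (mem_nbr.1 hv).1)
      (fun v hv => (mem_nbr.1 hv).2)
      (fun v hv => by rw [Sym2.eq_swap]; exact (mem_nbr.1 hv).2)
      (hnA x hx) (hnA y hy)
      (fun v hv w hw => hcnAA v (mem_nbr.1 hv).1 w (mem_nbr.1 hw).1)
    refine le_trans ?_ h1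
    have h2 : 0 < (U.card : ℝ) ^ 3 := by positivity
    nlinarith
  · intro H C' hH hC' hC6
    refine ⟨hH.1.sdiff hC6.even hC', ?_⟩
    have h1 := Finset.card_sdiff_add_card_eq_card hC'
    rw [hC6.card] at h1
    obtain ⟨m, hm⟩ := hH.2
    refine ⟨m - 1, ?_⟩
    omega
  · refine habs V U E hna hEU hl ?_ ?_
    · intro x1 hx1 x2 hx2 x3 hx3 x4 hx4 Z hZ
      obtain ⟨z, hzA, hzZ, hzF⟩ := hpickA Z hZ {x1, x2, x3, x4} (Finset.card_le_four.trans (by norm_num))
      obtain ⟨w, hwA, hwZ, hwF⟩ := hpickA Z hZ {z, x1, x2, x3, x4}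
        (Finset.card_le_five.trans (by norm_num))
      simp only [Finset.mem_insert, Finset.mem_singleton, not_or] at hzF hwF
      exact ⟨z, hAU hzA, w, hAU hwA, hzZ, hwZ, hGam z hzA w (hAU hwA) (Ne.symm hwF.1),
        ⟨hGam z hzA x1 hx1 hzF.1, hGam z hzA x2 hx2 hzF.2.1, hGam z hzA x3 hx3 hzF.2.2.1,
          hGam z hzA x4 hx4 hzF.2.2.2⟩,
        ⟨hGam w hwA x1 hx1 hwF.2.1, hGam w hwA x2 hx2 hwF.2.2.1, hGam w hwA x3 hx3 hwF.2.2.2.1,
          hGam w hwA x4 hx4 hwF.2.2.2.2⟩⟩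
    · intro Z hZ
      obtain ⟨w0, hw0A, hw0Z, _⟩ := hpickA Z hZ ∅ (by simp)
      refine ⟨w0, hAU hw0A, hw0Z, ?_⟩
      intro x hx hxw Q hQ
      have h1 : (insert w0 Q).card < (nbr E U x).card := by
        have h2 : ((insert w0 Q).card : ℝ) ≤ Q.card + 1 := by
          exact_mod_cast Finset.card_insert_le w0 Q
        have h3 : d * (U.card : ℝ) ≤ ((nbr E U x).card : ℝ) := by
          rw [card_nbr, ← deg_eq_dg hEU]
          exact hdeg x hx
        have h4 : ((insert w0 Q).card : ℝ) < ((nbr E U x).card : ℝ) := by nlinarith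
        exact_mod_cast h4
      obtain ⟨q, hq1, hq2⟩ := Finset.exists_mem_notMem_of_card_lt_card h1
      rw [Finset.mem_insert, not_or] at hq2
      rw [mem_nbr] at hq1
      exact ⟨q, hq1.1, hq2.2, hq1.2, (hGam w0 hw0A q hq1.1 (Ne.symm hq2.1)).symm⟩

end H15C6
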