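import Pool.Agent.H15.C6.SDefs
import Pool.Agent.H15.C6.NCT

/-!
Module NEQ.  The non-extremal case.  `n = |V|`, all degrees at least `(n-1)/2`.

* `R = True`, `P4 E univ x y ≥ μ η² n³`: choose `b` with `¬ Small x b`, `¬ Small y b` (`≥ μ n` choices), then `a`,
  `c` among the common neighbours.
* K4 property with `ε0 := μ/2` and `Gam E univ η`: among three vertices outside `Z ∪ {x_i}` with
  `¬ Small x_i ·` two are not `Small` for each other: otherwise the three neighbourhoods are nearly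
  disjoint, `3 (n-1)/2 ≤ n + 3 η n`, impossible.
* hub: call `w` heavy if `#{y : Small w y} > (1/2 - μ/2) n`.  If `w` is heavy and `Small w w'` then `w'` is not
  heavy: the sets `S_w = {y : Small w y}`, `S_w'` are disjoint (again no three pairwise `Small` vertices;
  note `¬ Small y y`), and `NE4` gives `|S_w| + |S_w'| ≤ (1-μ) n`.  So either no vertex is heavy or at least
  `(1/2-μ/2) n` vertices are not heavy; in any case some `w0 ∉ Z` is not heavy.  For `x ≠ w0`:
  `#{q : s(x,q) ∈ E, ¬ Small w0 q} ≥ (n-1)/2 - (1/2-μ/2) n ≥ (μ/3) n`, so `ζ := μ/4`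
  (also `q ≠ w0`).
Then `absorb_nb` and `core` with `U = univ`, `P H = EvenDeg H ∧ 6 ∣ |H|`.
-/

open Finset

namespace H15C6

section

variable {V : Type} [Fintype V] [DecidableEq V]

/-- the neighbourhood -/
def neq_N (E : Finset (Sym2 V)) (v : V) : Finset V := Finset.univ.filter (fun y => s(v, y) ∈ E)

omit [DecidableEq V] in
theorem neq_sub (E : Finset (Sym2 V)) : E ⊆ (Finset.univ : Finset V).sym2 := by
  intro e _
  rw [Finset.mem_sym2_iff]
  intro a _
  exact Finset.mem_univ a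

theorem neq_card_N (E : Finset (Sym2 V)) (v : V) : (neq_N E v).card = deg E v :=
  (deg_eq_dg (neq_sub E) v).symm

theorem neq_cn (E : Finset (Sym2 V)) (x y : V) :
    cn E Finset.univ x y = (neq_N E x ∩ neq_N E y).card := by
  unfold cn neq_N
  congr 1
  ext m
  simp only [Finset.mem_filter, Finset.mem_univ, true_and, Finset.mem_inter]
  rw [Sym2.eq_swap (a := m) (b := y)]

theorem neq_cn_comm (E : Finset (Sym2 V)) (x y : V) :
    cn E Finset.univ x y = cn E Finset.univ y x := by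
  rw [neq_cn, neq_cn, Finset.inter_comm]

theorem neq_small_comm {E : Finset (Sym2 V)} {η : ℝ} {x y : V} (h : Small E η x y) :
    Small E η y x := by
  unfold Small at h ⊢
  rwa [neq_cn_comm]

theorem neq_three (A B C : Finset V) :
    A.card + B.card + C.card ≤ Fintype.card V + ((A ∩ B).card + (A ∩ C).card + (B ∩ C).card) := by
  have h1 := Finset.card_union_add_card_inter A B
  have h2 := Finset.card_union_add_card_inter (A ∪ B) C
  have h3 : ((A ∪ B) ∩ C).card ≤ (A ∩ C).card + (B ∩ C).card := by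
    rw [Finset.union_inter_distrib_right]
    exact Finset.card_union_le _ _
  have h4 : ((A ∪ B) ∪ C).card ≤ Fintype.card V := Finset.card_le_univ _
  omega

/-- no three pairwise small vertices -/
theorem neq_no_three {E : Finset (Sym2 V)} {η : ℝ} (hη' : η ≤ 1 / 10) (hn : 100 ≤ Fintype.card V)
    (hdeg : ∀ v, Fintype.card V ≤ 2 * deg E v + 1) {a b c : V} (hab : Small E η a b)
    (hac : Small E η a c) (hbc : Small E η b c) : False := by
  have h := neq_three (neq_N E a) (neq_N E b) (neq_N E c)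
  rw [neq_card_N, neq_card_N, neq_card_N, ← neq_cn, ← neq_cn, ← neq_cn] at h
  have h1 := hdeg a
  have h2 := hdeg b
  have h3 := hdeg c
  unfold Small nV at hab hac hbc
  have h' : ((deg E a + deg E b + deg E c : ℕ) : ℝ) ≤ ((Fintype.card V + (cn E univ a b + cn E univ a c +
    cn E univ b c) : ℕ) : ℝ) := by exact_mod_cast h
  have h1' : (Fintype.card V : ℝ) ≤ 2 * deg E a + 1 := by exact_mod_cast h1
  have h2' : (Fintype.card V : ℝ) ≤ 2 * deg E b + 1 := by exact_mod_cast h2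
  have h3' : (Fintype.card V : ℝ) ≤ 2 * deg E c + 1 := by exact_mod_cast h3
  have hn' : (100 : ℝ) ≤ Fintype.card V := by exact_mod_cast hn
  have h5 : η * (Fintype.card V : ℝ) ≤ 1 / 10 * Fintype.card V := by gcongr
  push_cast at h'
  linarith

theorem neq_P4 (E : Finset (Sym2 V)) (x y : V) :
    P4 E Finset.univ x y = ∑ b : V, cn E Finset.univ x b * cn E Finset.univ b y := by
  unfold P4 cn
  simp only [Finset.card_filter, Finset.sum_product, Finset.sum_mul_sum]
  rw [Finset.sum_comm]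
  refine Finset.sum_congr rfl (fun b _ => ?_)
  refine Finset.sum_congr rfl (fun a _ => ?_)
  refine Finset.sum_congr rfl (fun c _ => ?_)
  by_cases h1 : s(x, a) ∈ E ∧ s(a, b) ∈ E
  · by_cases h2 : s(b, c) ∈ E ∧ s(c, y) ∈ E
    · rw [if_pos ⟨h1.1, h1.2, h2.1, h2.2⟩, if_pos h1, if_pos h2, mul_one]
    · rw [if_neg (fun h => h2 ⟨h.2.2.1, h.2.2.2⟩), if_neg h2, mul_zero]
  · rw [if_neg (fun h => h1 ⟨h.1, h.2.1⟩), if_neg h1, zero_mul]

/-- the number of walks of length four -/
theorem neq_P4_ge {E : Finset (Sym2 V)} {η μ : ℝ} (hη : 0 < η) (hne : NE4 E η μ) (x y : V) :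
    μ * η ^ 2 * (Fintype.card V : ℝ) ^ 3 ≤ (P4 E Finset.univ x y : ℝ) := by
  classical
  rw [neq_P4]
  push_cast
  have h1 := hne x x y y
  set G := Finset.univ.filter (fun w => ¬ Small E η x w ∧ ¬ Small E η x w ∧ ¬ Small E η y w ∧
    ¬ Small E η y w) with hG
  have h2 : ∑ b ∈ G, (η * nV V) * (η * nV V) ≤
      ∑ b ∈ G, (cn E Finset.univ x b : ℝ) * (cn E Finset.univ b y : ℝ) := by
    refine Finset.sum_le_sum (fun b hb => ?_)
    have hb' := (Finset.mem_filter.1 hb).2
    have h3 : η * nV V ≤ (cn E Finset.univ x b : ℝ) := not_lt.1 hb'.1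
    have h4 : η * nV V ≤ (cn E Finset.univ b y : ℝ) := by
      rw [neq_cn_comm]
      exact not_lt.1 hb'.2.2.1
    have h5 : 0 ≤ η * nV V := by positivity
    gcongr
  have h6 : ∑ b ∈ G, (cn E Finset.univ x b : ℝ) * (cn E Finset.univ b y : ℝ) ≤
      ∑ b : V, (cn E Finset.univ x b : ℝ) * (cn E Finset.univ b y : ℝ) :=
    Finset.sum_le_sum_of_subset_of_nonneg (Finset.subset_univ _) (fun _ _ _ => by positivity)
  refine le_trans ?_ (h2.trans h6)
  rw [Finset.sum_const, nsmul_eq_mul]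
  calc μ * η ^ 2 * (Fintype.card V : ℝ) ^ 3 = (μ * nV V) * ((η * nV V) * (η * nV V)) := by
        unfold nV; ring
    _ ≤ (G.card : ℝ) * ((η * nV V) * (η * nV V)) := by
        gcongr

/-- Gam from not Small -/
theorem neq_gam {E : Finset (Sym2 V)} {η : ℝ} {x y : V} (hne : x ≠ y) (h : ¬ Small E η x y) :
    Gam E Finset.univ η x y := by
  refine ⟨hne, ?_⟩
  rw [Finset.card_univ]
  exact not_lt.1 h

/-- the K4 property -/
theorem neq_K4 {E : Finset (Sym2 V)} {η μ : ℝ} (hη' : η ≤ 1 / 10) (hμ : 0 < μ) (hμ' : μ ≤ 1 / 10)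
    (hn : 100 / μ ≤ (Fintype.card V : ℝ)) (hdeg : ∀ v, Fintype.card V ≤ 2 * deg E v + 1)
    (hne : NE4 E η μ) (x1 x2 x3 x4 : V) (Z : Finset V)
    (hZ : (Z.card : ℝ) ≤ μ / 2 * (Fintype.card V : ℝ)) :
    ∃ z w : V, z ∉ Z ∧ w ∉ Z ∧ Gam E Finset.univ η z w ∧
      (Gam E Finset.univ η z x1 ∧ Gam E Finset.univ η z x2 ∧ Gam E Finset.univ η z x3 ∧
        Gam E Finset.univ η z x4) ∧
      (Gam E Finset.univ η w x1 ∧ Gam E Finset.univ η w x2 ∧ Gam E Finset.univ η w x3 ∧
        Gam E Finset.univ η w x4) := by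
  classical
  have hn1 : 100 ≤ μ * (Fintype.card V : ℝ) := by
    rw [div_le_iff₀ hμ] at hn
    linarith
  have hn2 : 100 ≤ Fintype.card V := by
    have h0 : (0 : ℝ) ≤ Fintype.card V := by positivity
    have : (100 : ℝ) ≤ Fintype.card V := by nlinarith
    exact_mod_cast this
  set G := Finset.univ.filter (fun w => ¬ Small E η x1 w ∧ ¬ Small E η x2 w ∧ ¬ Small E η x3 w ∧
    ¬ Small E η x4 w) with hG
  have h1 : μ * nV V ≤ (G.card : ℝ) := hne x1 x2 x3 x4
  set W := G \ (Z ∪ {x1, x2, x3, x4}) with hW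
  have h2 : G.card ≤ W.card + (Z.card + 4) := by
    have h3 : G.card ≤ (G \ (Z ∪ {x1, x2, x3, x4})).card + (Z ∪ {x1, x2, x3, x4}).card :=
      Finset.card_le_card_sdiff_add_card
    rw [← hW] at h3
    have h4 : (Z ∪ {x1, x2, x3, x4}).card ≤ Z.card + 4 :=
      (Finset.card_union_le _ _).trans (Nat.add_le_add_left Finset.card_le_four _)
    omega
  have h3 : 2 < W.card := by
    have h4 : (G.card : ℝ) ≤ W.card + (Z.card + 4) := by exact_mod_cast h2
    unfold nV at h1
    have : (2 : ℝ) < W.card := by linarith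
    exact_mod_cast this
  obtain ⟨z1, z2, z3, hz1, hz2, hz3, h12, h13, h23⟩ := Finset.two_lt_card_iff.1 h3
  have key : ∀ z ∈ W, z ∉ Z ∧ (Gam E Finset.univ η z x1 ∧ Gam E Finset.univ η z x2 ∧
      Gam E Finset.univ η z x3 ∧ Gam E Finset.univ η z x4) := by
    intro z hz
    rw [hW, Finset.mem_sdiff, Finset.mem_union, not_or] at hz
    obtain ⟨hzG, hzZ, hzx⟩ := hz
    have hzG' := (Finset.mem_filter.1 hzG).2
    simp only [Finset.mem_insert, Finset.mem_singleton, not_or] at hzx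
    refine ⟨hzZ, (neq_gam (Ne.symm hzx.1) hzG'.1).symm, (neq_gam (Ne.symm hzx.2.1) hzG'.2.1).symm,
      (neq_gam (Ne.symm hzx.2.2.1) hzG'.2.2.1).symm, (neq_gam (Ne.symm hzx.2.2.2) hzG'.2.2.2).symm⟩
  have hpair : ∃ z ∈ W, ∃ w ∈ W, z ≠ w ∧ ¬ Small E η z w := by
    by_contra hcon
    push Not at hcon
    exact neq_no_three hη' hn2 hdeg (hcon z1 hz1 z2 hz2 h12) (hcon z1 hz1 z3 hz3 h13)
      (hcon z2 hz2 z3 hz3 h23)
  obtain ⟨z, hz, w, hw, hzw, hs⟩ := hpair
  exact ⟨z, w, (key z hz).1, (key w hw).1, neq_gam hzw hs, (key z hz).2, (key w hw).2⟩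

/-- the hub -/
theorem neq_hub {E : Finset (Sym2 V)} {η μ : ℝ} (hη' : η ≤ 1 / 10) (hμ : 0 < μ) (hμ' : μ ≤ 1 / 10)
    (hn : 100 / μ ≤ (Fintype.card V : ℝ)) (hdeg : ∀ v, Fintype.card V ≤ 2 * deg E v + 1)
    (hne : NE4 E η μ) (Z : Finset V) (hZ : (Z.card : ℝ) ≤ μ / 2 * (Fintype.card V : ℝ)) :
    ∃ w0 : V, w0 ∉ Z ∧ ∀ x : V, ∀ Q : Finset V, (Q.card : ℝ) < μ / 4 * (Fintype.card V : ℝ) →
      ∃ q : V, q ∉ Q ∧ s(x, q) ∈ E ∧ Gam E Finset.univ η q w0 := by
  classical
  have hn1 : 100 ≤ μ * (Fintype.card V : ℝ) := by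
    rw [div_le_iff₀ hμ] at hn
    linarith
  have hn2' : (100 : ℝ) ≤ Fintype.card V := by
    have h0 : (0 : ℝ) ≤ Fintype.card V := by positivity
    nlinarith
  have hn2 : 100 ≤ Fintype.card V := by exact_mod_cast hn2'
  have hμn : μ * (Fintype.card V : ℝ) ≤ 1 / 10 * Fintype.card V := by gcongr
  set S : V → Finset V := fun w => Finset.univ.filter (fun y => Small E η w y) with hS
  have hex : ∃ w0 : V, w0 ∉ Z ∧ ((S w0).card : ℝ) ≤ (1 / 2 - μ / 2) * (Fintype.card V : ℝ) := by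
    by_cases hh : ∃ w, (1 / 2 - μ / 2) * (Fintype.card V : ℝ) < ((S w).card : ℝ)
    · obtain ⟨w, hw⟩ := hh
      have hlt : Z.card < (S w).card := by
        have : (Z.card : ℝ) < (S w).card := by linarith
        exact_mod_cast this
      obtain ⟨w0, hw0, hw0Z⟩ := Finset.exists_mem_notMem_of_card_lt_card hlt
      refine ⟨w0, hw0Z, ?_⟩
      have hsm : Small E η w w0 := (Finset.mem_filter.1 hw0).2
      have hdis : Disjoint (S w) (S w0) := by
        rw [Finset.disjoint_left]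
        intro y hy1 hy2
        exact neq_no_three hη' hn2 hdeg hsm (Finset.mem_filter.1 hy1).2 (Finset.mem_filter.1 hy2).2
      have h1 := hne w w w0 w0
      have h2 : (Finset.univ.filter (fun y => ¬ Small E η w y ∧ ¬ Small E η w y ∧ ¬ Small E η w0 y ∧
          ¬ Small E η w0 y)).card + (S w ∪ S w0).card ≤ Fintype.card V := by
        rw [← Finset.card_union_of_disjoint]
        · exact Finset.card_le_univ _
        · rw [Finset.disjoint_left]
          intro y hy1 hy2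
          have h3 := (Finset.mem_filter.1 hy1).2
          rcases Finset.mem_union.1 hy2 with h4 | h4
          · exact h3.1 (Finset.mem_filter.1 h4).2
          · exact h3.2.2.1 (Finset.mem_filter.1 h4).2
      rw [Finset.card_union_of_disjoint hdis] at h2
      have h2' : ((Finset.univ.filter (fun y => ¬ Small E η w y ∧ ¬ Small E η w y ∧ ¬ Small E η w0 y ∧
          ¬ Small E η w0 y)).card : ℝ) + ((S w).card + (S w0).card) ≤ Fintype.card V := by
        exact_mod_cast h2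
      unfold nV at h1
      linarith
    · push Not at hh
      have hlt : Z.card < (Finset.univ : Finset V).card := by
        rw [Finset.card_univ]
        have : (Z.card : ℝ) < Fintype.card V := by linarith
        exact_mod_cast this
      obtain ⟨w0, -, hw0Z⟩ := Finset.exists_mem_notMem_of_card_lt_card hlt
      exact ⟨w0, hw0Z, hh w0⟩
  obtain ⟨w0, hw0Z, hw0⟩ := hex
  refine ⟨w0, hw0Z, fun x Q hQ => ?_⟩
  have hlt : (S w0 ∪ insert w0 Q).card < (neq_N E x).card := by
    rw [neq_card_N]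
    have h1 : (S w0 ∪ insert w0 Q).card ≤ (S w0).card + (Q.card + 1) :=
      (Finset.card_union_le _ _).trans (Nat.add_le_add_left (Finset.card_insert_le _ _) _)
    have h1' : ((S w0 ∪ insert w0 Q).card : ℝ) ≤ (S w0).card + (Q.card + 1) := by exact_mod_cast h1
    have h2 : (Fintype.card V : ℝ) ≤ 2 * deg E x + 1 := by exact_mod_cast hdeg x
    have : ((S w0 ∪ insert w0 Q).card : ℝ) < deg E x := by linarith
    exact_mod_cast this
  obtain ⟨q, hq1, hq2⟩ := Finset.exists_mem_notMem_of_card_lt_card hlt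
  rw [Finset.mem_union, Finset.mem_insert, not_or, not_or] at hq2
  refine ⟨q, hq2.2.2, (Finset.mem_filter.1 hq1).2, (neq_gam (Ne.symm hq2.2.1) ?_).symm⟩
  intro h
  exact hq2.1 (Finset.mem_filter.2 ⟨Finset.mem_univ _, h⟩)

end

theorem ne4_dec (η μ : ℝ) (hη : 0 < η) (hη' : η ≤ 1 / 10) (hμ : 0 < μ) (hμ' : μ ≤ 1 / 10) :
    ∃ n0 : ℕ, ∀ (V : Type) [Fintype V] [DecidableEq V] (E : Finset (Sym2 V)),
      n0 ≤ Fintype.card V → Loopless E → EvenDeg E → 6 ∣ E.card →
      (∀ v, Fintype.card V ≤ 2 * deg E v + 1) → NE4 E η μ → Dec E := by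
  obtain ⟨ε, hε, habs⟩ := absorb_nb η (μ / 4) (μ / 2) hη (by positivity) (by positivity)
  obtain ⟨M, hM⟩ := core (μ * η ^ 2) ε (by positivity) hε
  obtain ⟨C, n1, hC⟩ := habs M
  obtain ⟨n2, hn2⟩ := hM C
  refine ⟨max (max n1 n2) ⌈100 / μ⌉₊, ?_⟩
  intro V _ _ E hn hl hev h6 hdeg hne
  have hn1' : n1 ≤ (Finset.univ : Finset V).card := by
    rw [Finset.card_univ]
    exact (le_max_left _ _).trans ((le_max_left _ _).trans hn)
  have hn2' : n2 ≤ (Finset.univ : Finset V).card := by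
    rw [Finset.card_univ]
    exact (le_max_right _ _).trans ((le_max_left _ _).trans hn)
  have hn3 : 100 / μ ≤ (Fintype.card V : ℝ) := by
    refine (Nat.le_ceil _).trans ?_
    exact_mod_cast (le_max_right _ _).trans hn
  refine hn2 V Finset.univ E (fun _ _ => True) (fun H => EvenDeg H ∧ 6 ∣ H.card) hn2' (neq_sub E) hl
    (fun _ _ _ _ _ => trivial) ?_ (fun H h => h.1) ?_ ⟨hev, h6⟩ ?_
  · intro x _ y _ _
    rw [Finset.card_univ]
    exact neq_P4_ge hη hne x y
  · intro H C' hH hsub hC'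
    refine ⟨hH.1.sdiff hC'.even hsub, ?_⟩
    rw [Finset.card_sdiff_of_subset hsub, hC'.card]
    exact Nat.dvd_sub hH.2 (dvd_refl 6)
  · refine hC V Finset.univ E hn1' (neq_sub E) hl ?_ ?_
    · intro x1 _ x2 _ x3 _ x4 _ Z hZ
      rw [Finset.card_univ] at hZ
      obtain ⟨z, w, h1, h2, h3, h4, h5⟩ := neq_K4 hη' hμ hμ' hn3 hdeg hne x1 x2 x3 x4 Z hZ
      exact ⟨z, Finset.mem_univ _, w, Finset.mem_univ _, h1, h2, h3, h4, h5⟩
    · intro Z hZ
      rw [Finset.card_univ] at hZ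
      obtain ⟨w0, h1, h2⟩ := neq_hub hη' hμ hμ' hn3 hdeg hne Z hZ
      refine ⟨w0, Finset.mem_univ _, h1, fun x _ _ Q hQ => ?_⟩
      rw [Finset.card_univ] at hQ
      obtain ⟨q, h3, h4, h5⟩ := h2 x Q hQ
      exact ⟨q, Finset.mem_univ _, h3, h4, h5⟩

end H15C6
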