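import Pool.Agent.H15.C6.Defs

/-!
Module PAIR1 (part of PAIR).  Three small combinatorial lemmas.

`assign`: choose for every edge of `F` one of its end vertices as its *centre*.  If `e` meets `X`
take an end in `X`; else if `e` meets `B` take an end in `B`; else an arbitrary end.
Then `x ∉ B` is a non-centre end of at most `deg F x ≤ lam` edges, and for `x ∈ B` such an edge has
its centre (the other end) in `B`, so there are at most `|B| ≤ lam` of them.

`cherry_pairing`: for every centre `v` pair up the edges of `F` centred at `v` arbitrarily, leaving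
one over iff their number is odd; `J` is the set of cherries `(u,v,w)`, `M` the set of left-over
edges.  (Induction on `|F|`: if two edges have the same centre, remove them.)

`fix_edges`: greedy choice, for the vertices of `O` one after the other, of `r v ∈ S` adjacent to `v`,
such that no vertex is chosen more than `l` times, and the edges `s(v, r v)` are distinct.  When
treating `v`: forbidden are the `≤ |O|/l` vertices already chosen `l` times and the `≤ l`
earlier `v'` with `r v' = v`.
-/

open Finset

namespace H15C6

variable {V : Type} [Fintype V] [DecidableEq V]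

theorem assign (F : Finset (Sym2 V)) (hF : Loopless F) (X B : Finset V) (hXB : X ⊆ B) (lam : ℕ)
    (hdeg : ∀ v, v ∉ B → deg F v ≤ lam) (hB : B.card ≤ lam) :
    ∃ ctr : Sym2 V → V, (∀ e ∈ F, ctr e ∈ e) ∧
      (∀ e ∈ F, (∃ x ∈ e, x ∈ X) → ctr e ∈ X) ∧
      (∀ e ∈ F, (∃ x ∈ e, x ∈ B) → ctr e ∈ B) ∧
      ∀ x, (F.filter (fun e => x ∈ e ∧ ctr e ≠ x)).card ≤ lam := by
  classical
  let ctr : Sym2 V → V := fun e =>
    if h : ∃ x ∈ e, x ∈ X then h.choose
    else if h' : ∃ x ∈ e, x ∈ B then h'.choose
    else e.out.1
  have hmem : ∀ e, ctr e ∈ e := by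
    intro e
    simp only [ctr]
    split_ifs with h h'
    · exact h.choose_spec.1
    · exact h'.choose_spec.1
    · exact Sym2.out_fst_mem e
  have hX : ∀ e, (∃ x ∈ e, x ∈ X) → ctr e ∈ X := by
    intro e h
    simp only [ctr, dif_pos h]
    exact h.choose_spec.2
  have hBB : ∀ e, (∃ x ∈ e, x ∈ B) → ctr e ∈ B := by
    intro e h'
    by_cases h : ∃ x ∈ e, x ∈ X
    · exact hXB (hX e h)
    · simp only [ctr, dif_neg h, dif_pos h']
      exact h'.choose_spec.2
  refine ⟨ctr, fun e _ => hmem e, fun e _ => hX e, fun e _ => hBB e, ?_⟩
  intro x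
  by_cases hx : x ∈ B
  · refine le_trans ?_ hB
    apply Finset.card_le_card_of_injOn ctr
    · intro e he
      obtain ⟨_, h1, _⟩ := Finset.mem_filter.1 (Finset.mem_coe.1 he)
      exact Finset.mem_coe.2 (hBB e ⟨x, h1, hx⟩)
    · intro e he e' he' hee
      obtain ⟨_, h1, h2⟩ := Finset.mem_filter.1 (Finset.mem_coe.1 he)
      obtain ⟨_, h1', h2'⟩ := Finset.mem_filter.1 (Finset.mem_coe.1 he')
      rw [(Sym2.mem_and_mem_iff (Ne.symm h2)).1 ⟨h1, hmem e⟩,
        (Sym2.mem_and_mem_iff (Ne.symm h2')).1 ⟨h1', hmem e'⟩, hee]
  · refine le_trans ?_ (hdeg x hx)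
    unfold deg
    apply Finset.card_le_card
    intro e he
    rw [Finset.mem_filter] at he ⊢
    exact ⟨he.1, he.2.1⟩

theorem fix_edges (O S : Finset V) (H : Finset (Sym2 V)) (hH : Loopless H) (l : ℕ) (hl : 1 ≤ l)
    (hdeg : ∀ v ∈ O, O.card / l + l + 1 < dg H S v) :
    ∃ r : V → V, (∀ v ∈ O, r v ∈ S ∧ s(v, r v) ∈ H) ∧
      (∀ u, (O.filter (fun v => r v = u)).card ≤ l) ∧
      (∀ v ∈ O, ∀ v' ∈ O, v ≠ v' → s(v, r v) ≠ s(v', r v')) := by
  classical
  have key : ∀ O' : Finset V, O' ⊆ O → ∃ r : V → V, (∀ v ∈ O', r v ∈ S ∧ s(v, r v) ∈ H) ∧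
      (∀ u, (O'.filter (fun v => r v = u)).card ≤ l) ∧
      (∀ v ∈ O', ∀ v' ∈ O', v ≠ v' → s(v, r v) ≠ s(v', r v')) := by
    intro O'
    induction O' using Finset.induction_on with
    | empty =>
      intro _
      exact ⟨id, by simp, by simp, by simp⟩
    | @insert v O' hv ih =>
      intro hO
      obtain ⟨r, h1, h2, h3⟩ := ih ((Finset.subset_insert _ _).trans hO)
      have hvO : v ∈ O := hO (Finset.mem_insert_self _ _)
      have hO'O : O' ⊆ O := (Finset.subset_insert _ _).trans hO
      -- the vertices chosen `l` times
      have hA : (S.filter (fun u => l ≤ (O'.filter (fun v => r v = u)).card)).card ≤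
          O.card / l := by
        rw [Nat.le_div_iff_mul_le (by omega)]
        refine le_trans ?_ (Finset.card_le_card hO'O)
        rw [← smul_eq_mul]
        refine le_trans (Finset.card_nsmul_le_sum _
          (fun u => (O'.filter (fun v => r v = u)).card) l
          (fun u hu => (Finset.mem_filter.1 hu).2)) ?_
        rw [← Finset.card_biUnion]
        · apply Finset.card_le_card
          intro w hw
          rw [Finset.mem_biUnion] at hw
          obtain ⟨u, _, hw⟩ := hw
          exact (Finset.mem_filter.1 hw).1
        · intro u _ u' _ huu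
          rw [Function.onFun, Finset.disjoint_left]
          intro w hw hw'
          exact huu ((Finset.mem_filter.1 hw).2.symm.trans (Finset.mem_filter.1 hw').2)
      have hdg := hdeg v hvO
      have hlt : ((S.filter (fun u => l ≤ (O'.filter (fun v => r v = u)).card)) ∪
          (O'.filter (fun v' => r v' = v))).card < (S.filter (fun y => s(v, y) ∈ H)).card := by
        refine lt_of_le_of_lt (Finset.card_union_le _ _) ?_
        have h4 := h2 v
        unfold dg at hdg
        omega
      obtain ⟨u, hu, hu'⟩ := Finset.exists_mem_notMem_of_card_lt_card hlt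
      rw [Finset.mem_filter] at hu
      rw [Finset.mem_union, Finset.mem_filter, Finset.mem_filter, not_or] at hu'
      obtain ⟨hu1, hu2⟩ := hu'
      have hucard : (O'.filter (fun v => r v = u)).card < l := by
        by_contra h
        exact hu1 ⟨hu.1, not_lt.1 h⟩
      have hne : ∀ v' ∈ O', v' ≠ v := fun v' hv' h => hv (h ▸ hv')
      have hr' : ∀ v' ∈ O', Function.update r v u v' = r v' := fun v' hv' =>
        Function.update_of_ne (hne v' hv') _ _
      have hfil : ∀ w, O'.filter (fun v' => Function.update r v u v' = w) =
          O'.filter (fun v' => r v' = w) := by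
        intro w
        apply Finset.filter_congr
        intro v' hv'
        rw [hr' v' hv']
      have hedge : ∀ v' ∈ O', s(v, u) ≠ s(v', r v') := by
        intro v' hv' h
        rw [Sym2.eq_iff] at h
        rcases h with ⟨h, _⟩ | ⟨h, h'⟩
        · exact hne v' hv' h.symm
        · exact hu2 ⟨h' ▸ hv', by rw [h', ← h]⟩
      refine ⟨Function.update r v u, ?_, ?_, ?_⟩
      · intro w hw
        rw [Finset.mem_insert] at hw
        rcases hw with rfl | hw
        · rw [Function.update_self]
          exact hu
        · rw [hr' w hw]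
          exact h1 w hw
      · intro w
        rw [Finset.filter_insert, Function.update_self]
        split_ifs with huw
        · rw [hfil, ← huw]
          exact (Finset.card_insert_le _ _).trans hucard
        · rw [hfil]
          exact h2 w
      · intro w hw w' hw' hww
        rw [Finset.mem_insert] at hw hw'
        rcases hw with rfl | hw
        · rcases hw' with rfl | hw'
          · exact absurd rfl hww
          · rw [Function.update_self, hr' w' hw']
            exact hedge w' hw'
        · rcases hw' with rfl | hw'
          · rw [Function.update_self, hr' w hw]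
            exact (hedge w hw).symm
          · rw [hr' w hw, hr' w' hw']
            exact h3 w hw w' hw' hww
  exact key O (Finset.Subset.refl _)

end H15C6
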