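import Pool.Agent.H15.C6.ADefs

/-!
Module REG.  Regrouping cherries with private distinct middle vertices: if the ends of the cherries form,
as a multiset of pairs, the boundary of a list of triangles, then the union of the cherries is
decomposable (whatever the assignment of middle vertices).

Proof: induction on `T`.  For `t = (a,b,c) :: T'` the multiset `J.val.map ends` contains
`s(a,b), s(b,c), s(c,a)` (three different pairs), hence there are three different `j1, j2, j3 ∈ J`
with these ends.  `a, m j1, b, m j2, c, m j3` is a six-cycle whose edge set is the union of the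
three `chE`'s.  Remove `j1, j2, j3` from `J`; the `chE`'s of different `j` are disjoint
because all middle vertices are distinct and different from all ends.
-/

open Finset

namespace H15C6

theorem reg_cyc {V : Type} [DecidableEq V] (a p b q c r : V) :
    cyc ![a, p, b, q, c, r] = {s(a, p), s(p, b)} ∪ ({s(b, q), s(q, c)} ∪ {s(c, r), s(r, a)}) := by
  ext e
  rw [mem_cyc]
  simp only [Finset.mem_union, Finset.mem_insert, Finset.mem_singleton]
  constructor
  · rintro ⟨i, rfl⟩
    fin_cases i <;> simp
  · rintro ((h | h) | (h | h) | (h | h))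
    · exact ⟨0, by simp [h]⟩
    · exact ⟨1, by simp [h]⟩
    · exact ⟨2, by simp [h]⟩
    · exact ⟨3, by simp [h]⟩
    · exact ⟨4, by simp [h]⟩
    · exact ⟨5, by simp [h]⟩

theorem reg_inj {V : Type} [DecidableEq V] (a p b q c r : V) (hab : a ≠ b) (hbc : b ≠ c)
    (hca : c ≠ a) (hpq : p ≠ q) (hqr : q ≠ r) (hrp : r ≠ p)
    (hp : p ≠ a ∧ p ≠ b ∧ p ≠ c) (hq : q ≠ a ∧ q ≠ b ∧ q ≠ c) (hr : r ≠ a ∧ r ≠ b ∧ r ≠ c) :
    Function.Injective ![a, p, b, q, c, r] := by
  obtain ⟨hp1, hp2, hp3⟩ := hp
  obtain ⟨hq1, hq2, hq3⟩ := hq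
  obtain ⟨hr1, hr2, hr3⟩ := hr
  intro i j hij
  fin_cases i <;> fin_cases j <;> simp at hij ⊢ <;>
    first
    | exact absurd hij hab
    | exact absurd hij.symm hab
    | exact absurd hij hbc
    | exact absurd hij.symm hbc
    | exact absurd hij hca
    | exact absurd hij.symm hca
    | exact absurd hij hpq
    | exact absurd hij.symm hpq
    | exact absurd hij hqr
    | exact absurd hij.symm hqr
    | exact absurd hij hrp
    | exact absurd hij.symm hrp
    | exact absurd hij hp1
    | exact absurd hij.symm hp1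
    | exact absurd hij hp2
    | exact absurd hij.symm hp2
    | exact absurd hij hp3
    | exact absurd hij.symm hp3
    | exact absurd hij hq1
    | exact absurd hij.symm hq1
    | exact absurd hij hq2
    | exact absurd hij.symm hq2
    | exact absurd hij hq3
    | exact absurd hij.symm hq3
    | exact absurd hij hr1
    | exact absurd hij.symm hr1
    | exact absurd hij hr2
    | exact absurd hij.symm hr2
    | exact absurd hij hr3
    | exact absurd hij.symm hr3

theorem reg_chE {V : Type} [DecidableEq V] {x m y a b : V} (h : s(x, y) = s(a, b)) :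
    chE (x, m, y) = {s(a, m), s(m, b)} := by
  unfold chE
  rcases Sym2.eq_iff.1 h with ⟨rfl, rfl⟩ | ⟨rfl, rfl⟩
  · rfl
  · simp only
    rw [Finset.pair_comm, Sym2.eq_swap (a := m) (b := x), Sym2.eq_swap (a := y) (b := m),
      Finset.pair_comm]

theorem regroup {V ι : Type} [DecidableEq V] [DecidableEq ι] (J : Finset ι) (x m y : ι → V)
    (T : List (V × V × V))
    (hm : ∀ j ∈ J, ∀ j' ∈ J, m j = m j' → j = j')
    (hmx : ∀ j ∈ J, ∀ j' ∈ J, m j ≠ x j' ∧ m j ≠ y j')
    (hT : ∀ t ∈ T, t.1 ≠ t.2.1 ∧ t.2.1 ≠ t.2.2 ∧ t.2.2 ≠ t.1)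
    (hJ : J.val.map (fun j => s(x j, y j)) = bd T) :
    Dec (J.biUnion (fun j => chE (x j, m j, y j))) := by
  induction T generalizing J with
  | nil =>
    have h0 : J.val.map (fun j => s(x j, y j)) = 0 := by
      rw [hJ]; simp [bd]
    rw [Multiset.map_eq_zero, Finset.val_eq_zero] at h0
    subst h0
    simpa using Dec.empty
  | cons t T ih =>
    obtain ⟨a, b, c⟩ := t
    have hbd : bd ((a, b, c) :: T) = {s(a, b), s(b, c), s(c, a)} + bd T := by
      simp [bd, sides]
    obtain ⟨hab, hbc, hca⟩ := hT (a, b, c) (by simp)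
    simp only at hab hbc hca
    rw [hbd] at hJ
    have hmem : ∀ e ∈ ({s(a, b), s(b, c), s(c, a)} : Multiset (Sym2 V)),
        ∃ j ∈ J, s(x j, y j) = e := by
      intro e he
      have : e ∈ J.val.map (fun j => s(x j, y j)) := by
        rw [hJ]; exact Multiset.mem_add.2 (Or.inl he)
      rw [Multiset.mem_map] at this
      exact this
    obtain ⟨j1, hj1, h1⟩ := hmem s(a, b) (by simp)
    obtain ⟨j2, hj2, h2⟩ := hmem s(b, c) (by simp)
    obtain ⟨j3, hj3, h3⟩ := hmem s(c, a) (by simp)
    have h12 : j1 ≠ j2 := by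
      rintro rfl
      rw [h1, Sym2.eq_iff] at h2
      rcases h2 with ⟨h, _⟩ | ⟨h, _⟩
      · exact hab h
      · exact hca h.symm
    have h23 : j2 ≠ j3 := by
      rintro rfl
      rw [h2, Sym2.eq_iff] at h3
      rcases h3 with ⟨h, _⟩ | ⟨h, _⟩
      · exact hbc h
      · exact hab h.symm
    have h13 : j1 ≠ j3 := by
      rintro rfl
      rw [h1, Sym2.eq_iff] at h3
      rcases h3 with ⟨h, _⟩ | ⟨_, h⟩
      · exact hca h.symm
      · exact hbc h
    set J' := J \ {j1, j2, j3} with hJ'
    have hsub : J' ⊆ J := Finset.sdiff_subset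
    have hdisj : Disjoint J' {j1, j2, j3} := Finset.sdiff_disjoint
    have hJun : J = J' ∪ {j1, j2, j3} := by
      rw [hJ', Finset.sdiff_union_of_subset]
      intro j hj
      simp only [Finset.mem_insert, Finset.mem_singleton] at hj
      rcases hj with rfl | rfl | rfl <;> assumption
    have hval : J.val = J'.val + {j1, j2, j3} := by
      have h123 : (({j1, j2, j3} : Finset ι)).val = ({j1, j2, j3} : Multiset ι) := by
        rw [Finset.insert_val_of_notMem (by simp [h12, h13]),
          Finset.insert_val_of_notMem (by simp [h23]), Finset.singleton_val]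
        rfl
      rw [← h123]
      conv_lhs => rw [hJun]
      rw [← Finset.disjUnion_eq_union _ _ hdisj, Finset.disjUnion_val]
    have hmap : J'.val.map (fun j => s(x j, y j)) = bd T := by
      rw [hval, Multiset.map_add] at hJ
      have h4 : Multiset.map (fun j => s(x j, y j)) ({j1, j2, j3} : Multiset ι) =
          {s(a, b), s(b, c), s(c, a)} := by
        simp [h1, h2, h3]
      rw [h4, add_comm] at hJ
      exact add_left_cancel hJ
    have hD' := ih J' (fun j hj j' hj' => hm j (hsub hj) j' (hsub hj'))
      (fun j hj j' hj' => hmx j (hsub hj) j' (hsub hj'))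
      (fun t ht => hT t (List.mem_cons_of_mem _ ht)) hmap
    have hends : ∀ j ∈ J, m j ≠ a ∧ m j ≠ b ∧ m j ≠ c := by
      intro j hj
      have e1 := hmx j hj j1 hj1
      have e2 := hmx j hj j2 hj2
      refine ⟨?_, ?_, ?_⟩
      · rcases Sym2.eq_iff.1 h1 with ⟨p, q⟩ | ⟨p, q⟩
        · rw [← p]; exact e1.1
        · rw [← q]; exact e1.2
      · rcases Sym2.eq_iff.1 h1 with ⟨p, q⟩ | ⟨p, q⟩
        · rw [← q]; exact e1.2
        · rw [← p]; exact e1.1
      · rcases Sym2.eq_iff.1 h2 with ⟨p, q⟩ | ⟨p, q⟩
        · rw [← q]; exact e2.2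
        · rw [← p]; exact e2.1
    have hcyc : IsC6 (({j1, j2, j3} : Finset ι).biUnion (fun j => chE (x j, m j, y j))) := by
      refine ⟨![a, m j1, b, m j2, c, m j3], ?_, ?_⟩
      · exact reg_inj _ _ _ _ _ _ hab hbc hca (fun h => h12 (hm _ hj1 _ hj2 h))
          (fun h => h23 (hm _ hj2 _ hj3 h)) (fun h => h13 (hm _ hj3 _ hj1 h).symm)
          (hends _ hj1) (hends _ hj2) (hends _ hj3)
      · rw [reg_cyc, Finset.biUnion_insert, Finset.biUnion_insert, Finset.singleton_biUnion,
          reg_chE h1, reg_chE h2, reg_chE h3]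
    have hfin : J.biUnion (fun j => chE (x j, m j, y j)) =
        J'.biUnion (fun j => chE (x j, m j, y j)) ∪
          ({j1, j2, j3} : Finset ι).biUnion (fun j => chE (x j, m j, y j)) := by
      conv_lhs => rw [hJun]
      rw [Finset.union_biUnion]
    rw [hfin]
    refine Dec.add hD' hcyc ?_
    rw [Finset.disjoint_biUnion_left]
    intro j hj
    rw [Finset.disjoint_biUnion_right]
    intro j' hj'
    have hj'J : j' ∈ J := by
      simp only [Finset.mem_insert, Finset.mem_singleton] at hj'
      rcases hj' with rfl | rfl | rfl <;> assumption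
    have hne : j ≠ j' := by
      rintro rfl
      exact (Finset.disjoint_left.1 hdisj) hj hj'
    have hmne : m j ≠ m j' := fun h => hne (hm _ (hsub hj) _ hj'J h)
    rw [Finset.disjoint_left]
    intro e he he'
    have hin : m j ∈ e := by
      simp only [chE, Finset.mem_insert, Finset.mem_singleton] at he
      rcases he with rfl | rfl
      · exact Sym2.mem_mk_right _ _
      · exact Sym2.mem_mk_left _ _
    simp only [chE, Finset.mem_insert, Finset.mem_singleton] at he'
    have hx := hmx j (hsub hj) j' hj'J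
    rcases he' with rfl | rfl
    · rcases Sym2.mem_iff.1 hin with h | h
      · exact hx.1 h
      · exact hmne h
    · rcases Sym2.mem_iff.1 hin with h | h
      · exact hmne h
      · exact hx.2 h

end H15C6
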