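import Pool.Agent.H15.C6.Defs

/-!
Module RICH1 (part of RICH).  (1) the number of completions of the three types of partial cycles in terms of
walk counts; (2) walk counts after deletion of a set of edges of small maximum degree.

(1) A walk count minus the degenerate walks.  For `cA u v w` (positions `0,1,2 = u,v,w`, unknown
`3,4,5`): the walk `w, v3, v4, v5, u`, i.e. `(v5, v4, v3)` is counted by `P4 H S u w`.
Non-injective ones: loopless gives consecutive vertices distinct; the others are
`v3 = v5`, `v3 ∈ {u, v}`, `v4 ∈ {u, v, w}`, `v5 ∈ {v, w}`: at most `8 |S|^2` walks.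
For `cB x p q y`: unknown `4, 5`: walk `y, v4, v5, x`, counted by `P3 H S y x`; degenerate ones
at most `6 |S|` (`v4 ∈ {x,p,q}`, `v5 ∈ {p,q,y}`).
For `cC p q p' q'`: unknown `2` (between `q` and `p'`) and `5` (between `q'` and `p`); degenerate
ones: `v2 = v5`, `v2 ∈ {p, q'}`, `v5 ∈ {q, p'}`: at most `5 |S|`.
(2) A walk lost by deleting `Rm` uses an edge of `Rm` in one of its 4 (3, 2) places; for each
place there are at most `d * |S|^2` (`d * |S|`, `d`) such walks (fix all but one vertex).
-/

open Finset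

namespace H15C6

variable {V : Type} [Fintype V] [DecidableEq V]

theorem rich1_inj6 {a b c d e f : V} (hab : a ≠ b) (hac : a ≠ c) (had : a ≠ d) (hae : a ≠ e)
    (haf : a ≠ f) (hbc : b ≠ c) (hbd : b ≠ d) (hbe : b ≠ e) (hbf : b ≠ f) (hcd : c ≠ d)
    (hce : c ≠ e) (hcf : c ≠ f) (hde : d ≠ e) (hdf : d ≠ f) (hef : e ≠ f) :
    Function.Injective (![a, b, c, d, e, f] : Fin 6 → V) := by
  intro i j h
  fin_cases i <;> fin_cases j <;>
    first
    | rfl
    | exact absurd h hab
    | exact absurd h hac
    | exact absurd h had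
    | exact absurd h hae
    | exact absurd h haf
    | exact absurd h hbc
    | exact absurd h hbd
    | exact absurd h hbe
    | exact absurd h hbf
    | exact absurd h hcd
    | exact absurd h hce
    | exact absurd h hcf
    | exact absurd h hde
    | exact absurd h hdf
    | exact absurd h hef
    | exact absurd h.symm hab
    | exact absurd h.symm hac
    | exact absurd h.symm had
    | exact absurd h.symm hae
    | exact absurd h.symm haf
    | exact absurd h.symm hbc
    | exact absurd h.symm hbd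
    | exact absurd h.symm hbe
    | exact absurd h.symm hbf
    | exact absurd h.symm hcd
    | exact absurd h.symm hce
    | exact absurd h.symm hcf
    | exact absurd h.symm hde
    | exact absurd h.symm hdf
    | exact absurd h.symm hef

/-- filter of a triple product on which `f` is injective with values in `S × S` -/
theorem rich1_slice {S : Finset V} (p : V × V × V → Prop) [DecidablePred p]
    (f : V × V × V → V × V) (hf : ∀ t, t ∈ S ×ˢ S ×ˢ S → f t ∈ S ×ˢ S)
    (hinj : ∀ t t', p t → p t' → f t = f t' → t = t') :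
    ((S ×ˢ S ×ˢ S).filter p).card ≤ S.card ^ 2 := by
  have h : ((S ×ˢ S ×ˢ S).filter p).card ≤ (S ×ˢ S).card := by
    apply Finset.card_le_card_of_injOn f
    · intro t ht
      exact Finset.mem_coe.2 (hf t (Finset.mem_filter.1 (Finset.mem_coe.1 ht)).1)
    · intro t ht t' ht' h
      exact hinj t t' (Finset.mem_filter.1 (Finset.mem_coe.1 ht)).2
        (Finset.mem_filter.1 (Finset.mem_coe.1 ht')).2 h
  rw [Finset.card_product] at h
  rw [sq]
  exact h

theorem rich1_slice2 {S : Finset V} (p : V × V → Prop) [DecidablePred p]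
    (f : V × V → V) (hf : ∀ t, t ∈ S ×ˢ S → f t ∈ S)
    (hinj : ∀ t t', p t → p t' → f t = f t' → t = t') :
    ((S ×ˢ S).filter p).card ≤ S.card := by
  apply Finset.card_le_card_of_injOn f
  · intro t ht
    exact Finset.mem_coe.2 (hf t (Finset.mem_filter.1 (Finset.mem_coe.1 ht)).1)
  · intro t ht t' ht' h
    exact hinj t t' (Finset.mem_filter.1 (Finset.mem_coe.1 ht)).2
      (Finset.mem_filter.1 (Finset.mem_coe.1 ht')).2 h

theorem rich1_sum_le {ι α : Type} [DecidableEq α] (J : Finset ι) (f : ι → Finset α) {k : ℕ}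
    (h : ∀ j ∈ J, (f j).card ≤ k) : (J.biUnion f).card ≤ J.card * k := by
  refine Finset.card_biUnion_le.trans ?_
  have := Finset.sum_le_card_nsmul J (fun j => (f j).card) k h
  simpa using this

theorem rich_cA {S : Finset V} {H : Finset (Sym2 V)} (hH : Loopless H) {u v w : V}
    (huv : u ≠ v) (hvw : v ≠ w) (huw : u ≠ w) :
    P4 H S u w ≤ (compl6 S H (cA u v w)).card + 8 * S.card ^ 2 := by
  set T := S ×ˢ S ×ˢ S with hT
  set good := (T.filter (fun t => (s(u, t.1) ∈ H ∧ s(t.1, t.2.1) ∈ H ∧
    s(t.2.1, t.2.2) ∈ H ∧ s(t.2.2, w) ∈ H) ∧ t.1 ≠ v ∧ t.1 ≠ w ∧ t.2.1 ≠ u ∧ t.2.1 ≠ v ∧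
      t.2.1 ≠ w ∧ t.2.2 ≠ u ∧ t.2.2 ≠ v ∧ t.1 ≠ t.2.2)) with hgood
  have hsub : (T.filter (fun t => s(u, t.1) ∈ H ∧ s(t.1, t.2.1) ∈ H ∧
    s(t.2.1, t.2.2) ∈ H ∧ s(t.2.2, w) ∈ H)) ⊆ good ∪ (T.filter (fun t => t.1 = v) ∪
      (T.filter (fun t => t.1 = w) ∪ (T.filter (fun t => t.2.1 = u) ∪
      (T.filter (fun t => t.2.1 = v) ∪ (T.filter (fun t => t.2.1 = w) ∪
      (T.filter (fun t => t.2.2 = u) ∪ (T.filter (fun t => t.2.2 = v) ∪
      T.filter (fun t => t.1 = t.2.2)))))))) := by
    intro t ht
    simp only [hgood, Finset.mem_union, Finset.mem_filter] at ht ⊢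
    tauto
  have hc := Finset.card_le_card hsub
  have h1 : (T.filter (fun t => t.1 = v)).card ≤ S.card ^ 2 := by
    apply rich1_slice _ (fun t => (t.2.1, t.2.2))
    · intro t ht
      simp only [Finset.mem_product] at ht ⊢
      exact ⟨ht.2.1, ht.2.2⟩
    · rintro ⟨a, b, c⟩ ⟨a', b', c'⟩ h h' he
      simp_all
  have h2 : (T.filter (fun t => t.1 = w)).card ≤ S.card ^ 2 := by
    apply rich1_slice _ (fun t => (t.2.1, t.2.2))
    · intro t ht
      simp only [Finset.mem_product] at ht ⊢
      exact ⟨ht.2.1, ht.2.2⟩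
    · rintro ⟨a, b, c⟩ ⟨a', b', c'⟩ h h' he
      simp_all
  have h3 : ∀ z : V, (T.filter (fun t => t.2.1 = z)).card ≤ S.card ^ 2 := by
    intro z
    apply rich1_slice _ (fun t => (t.1, t.2.2))
    · intro t ht
      simp only [Finset.mem_product] at ht ⊢
      exact ⟨ht.1, ht.2.2⟩
    · rintro ⟨a, b, c⟩ ⟨a', b', c'⟩ h h' he
      simp_all
  have h4 : ∀ z : V, (T.filter (fun t => t.2.2 = z)).card ≤ S.card ^ 2 := by
    intro z
    apply rich1_slice _ (fun t => (t.1, t.2.1))
    · intro t ht
      simp only [Finset.mem_product] at ht ⊢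
      exact ⟨ht.1, ht.2.1⟩
    · rintro ⟨a, b, c⟩ ⟨a', b', c'⟩ h h' he
      simp_all
  have h5 : (T.filter (fun t => t.1 = t.2.2)).card ≤ S.card ^ 2 := by
    apply rich1_slice _ (fun t => (t.1, t.2.1))
    · intro t ht
      simp only [Finset.mem_product] at ht ⊢
      exact ⟨ht.1, ht.2.1⟩
    · rintro ⟨a, b, c⟩ ⟨a', b', c'⟩ h h' he
      simp_all
  have hg : good.card ≤ (compl6 S H (cA u v w)).card := by
    apply Finset.card_le_card_of_injOn (fun t => (![u, v, w, t.2.2, t.2.1, t.1] : Fin 6 → V))
    · intro t ht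
      have ht' := Finset.mem_coe.1 ht
      simp only [hgood, hT, Finset.mem_filter, Finset.mem_product] at ht'
      obtain ⟨⟨m1, m2, m3⟩, ⟨e1, e2, e3, e4⟩, n1, n2, n3, n4, n5, n6, n7, n8⟩ := ht'
      have k1 := hH.ne e1
      have k2 := hH.ne e2
      have k3 := hH.ne e3
      have k4 := hH.ne e4
      apply Finset.mem_coe.2
      rw [mem_compl6]
      refine ⟨rich1_inj6 huv huw n6.symm n3.symm k1 hvw n7.symm n4.symm n1.symm k4.symm
        n5.symm n2.symm k3.symm n8.symm k2.symm, ?_, ?_, ?_⟩
      · intro i hi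
        fin_cases i
        · simp [cA] at hi
        · simp [cA] at hi
        · simp [cA] at hi
        · exact m3
        · exact m2
        · exact m1
      · intro i p hi
        fin_cases i
        · exact Option.some.inj hi
        · exact Option.some.inj hi
        · exact Option.some.inj hi
        · simp [cA] at hi
        · simp [cA] at hi
        · simp [cA] at hi
      · intro i hi
        fin_cases i
        · simp [cA] at hi
        · simp [cA] at hi
        · show s(w, t.2.2) ∈ H
          rw [Sym2.eq_swap]; exact e4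
        · show s(t.2.2, t.2.1) ∈ H
          rw [Sym2.eq_swap]; exact e3
        · show s(t.2.1, t.1) ∈ H
          rw [Sym2.eq_swap]; exact e2
        · show s(t.1, u) ∈ H
          rw [Sym2.eq_swap]; exact e1
    · rintro ⟨a, b, c⟩ _ ⟨a', b', c'⟩ _ he
      have q3 : c = c' := congrFun he 3
      have q4 : b = b' := congrFun he 4
      have q5 : a = a' := congrFun he 5
      rw [q3, q4, q5]
  have hP : P4 H S u w = (T.filter (fun t => s(u, t.1) ∈ H ∧ s(t.1, t.2.1) ∈ H ∧
    s(t.2.1, t.2.2) ∈ H ∧ s(t.2.2, w) ∈ H)).card := rfl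
  rw [hP]
  refine hc.trans ?_
  refine (Finset.card_union_le _ _).trans ?_
  have hb : (T.filter (fun t => t.1 = v) ∪
      (T.filter (fun t => t.1 = w) ∪ (T.filter (fun t => t.2.1 = u) ∪
      (T.filter (fun t => t.2.1 = v) ∪ (T.filter (fun t => t.2.1 = w) ∪
      (T.filter (fun t => t.2.2 = u) ∪ (T.filter (fun t => t.2.2 = v) ∪
      T.filter (fun t => t.1 = t.2.2)))))))).card ≤ 8 * S.card ^ 2 := by
    refine (Finset.card_union_le _ _).trans ?_
    refine (Nat.add_le_add_left (Finset.card_union_le _ _) _).trans ?_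
    refine (Nat.add_le_add_left (Nat.add_le_add_left (Finset.card_union_le _ _) _) _).trans ?_
    refine (Nat.add_le_add_left (Nat.add_le_add_left (Nat.add_le_add_left
      (Finset.card_union_le _ _) _) _) _).trans ?_
    refine (Nat.add_le_add_left (Nat.add_le_add_left (Nat.add_le_add_left (Nat.add_le_add_left
      (Finset.card_union_le _ _) _) _) _) _).trans ?_
    refine (Nat.add_le_add_left (Nat.add_le_add_left (Nat.add_le_add_left (Nat.add_le_add_left
      (Nat.add_le_add_left (Finset.card_union_le _ _) _) _) _) _) _).trans ?_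
    refine (Nat.add_le_add_left (Nat.add_le_add_left (Nat.add_le_add_left (Nat.add_le_add_left
      (Nat.add_le_add_left (Nat.add_le_add_left (Finset.card_union_le _ _) _) _) _) _) _) _).trans ?_
    have a3 := h3 u
    have a4 := h3 v
    have a5 := h3 w
    have a6 := h4 u
    have a7 := h4 v
    omega
  omega

theorem rich_cB {S : Finset V} {H : Finset (Sym2 V)} (hH : Loopless H) {x p q y : V}
    (hxp : x ≠ p) (hxq : x ≠ q) (hxy : x ≠ y) (hpq : p ≠ q) (hpy : p ≠ y) (hqy : q ≠ y) :
    P3 H S y x ≤ (compl6 S H (cB x p q y)).card + 6 * S.card := by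
  set T := S ×ˢ S with hT
  set good := (T.filter (fun t => (s(y, t.1) ∈ H ∧ s(t.1, t.2) ∈ H ∧ s(t.2, x) ∈ H) ∧
    t.1 ≠ x ∧ t.1 ≠ p ∧ t.1 ≠ q ∧ t.2 ≠ p ∧ t.2 ≠ q ∧ t.2 ≠ y)) with hgood
  have hsub : (T.filter (fun t => s(y, t.1) ∈ H ∧ s(t.1, t.2) ∈ H ∧ s(t.2, x) ∈ H)) ⊆
      good ∪ (T.filter (fun t => t.1 = x) ∪ (T.filter (fun t => t.1 = p) ∪
      (T.filter (fun t => t.1 = q) ∪ (T.filter (fun t => t.2 = p) ∪
      (T.filter (fun t => t.2 = q) ∪ T.filter (fun t => t.2 = y)))))) := by
    intro t ht
    simp only [hgood, Finset.mem_union, Finset.mem_filter] at ht ⊢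
    tauto
  have hc := Finset.card_le_card hsub
  have h1 : ∀ z : V, (T.filter (fun t => t.1 = z)).card ≤ S.card := by
    intro z
    apply rich1_slice2 _ (fun t => t.2)
    · intro t ht
      exact (Finset.mem_product.1 ht).2
    · rintro ⟨a, b⟩ ⟨a', b'⟩ h h' he
      simp_all
  have h2 : ∀ z : V, (T.filter (fun t => t.2 = z)).card ≤ S.card := by
    intro z
    apply rich1_slice2 _ (fun t => t.1)
    · intro t ht
      exact (Finset.mem_product.1 ht).1
    · rintro ⟨a, b⟩ ⟨a', b'⟩ h h' he
      simp_all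
  have hg : good.card ≤ (compl6 S H (cB x p q y)).card := by
    apply Finset.card_le_card_of_injOn (fun t => (![x, p, q, y, t.1, t.2] : Fin 6 → V))
    · intro t ht
      have ht' := Finset.mem_coe.1 ht
      simp only [hgood, hT, Finset.mem_filter, Finset.mem_product] at ht'
      obtain ⟨⟨m1, m2⟩, ⟨e1, e2, e3⟩, n1, n2, n3, n4, n5, n6⟩ := ht'
      have k1 := hH.ne e1
      have k2 := hH.ne e2
      have k3 := hH.ne e3
      apply Finset.mem_coe.2
      rw [mem_compl6]
      refine ⟨rich1_inj6 hxp hxq hxy n1.symm k3.symm hpq hpy n2.symm n4.symm hqy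
        n3.symm n5.symm k1 n6.symm k2, ?_, ?_, ?_⟩
      · intro i hi
        fin_cases i
        · simp [cB] at hi
        · simp [cB] at hi
        · simp [cB] at hi
        · simp [cB] at hi
        · exact m1
        · exact m2
      · intro i z hi
        fin_cases i
        · exact Option.some.inj hi
        · exact Option.some.inj hi
        · exact Option.some.inj hi
        · exact Option.some.inj hi
        · simp [cB] at hi
        · simp [cB] at hi
      · intro i hi
        fin_cases i
        · simp [cB] at hi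
        · simp [cB] at hi
        · simp [cB] at hi
        · exact e1
        · exact e2
        · exact e3
    · rintro ⟨a, b⟩ _ ⟨a', b'⟩ _ he
      have q3 : a = a' := congrFun he 4
      have q4 : b = b' := congrFun he 5
      rw [q3, q4]
  have hP : P3 H S y x = (T.filter (fun t => s(y, t.1) ∈ H ∧ s(t.1, t.2) ∈ H ∧
    s(t.2, x) ∈ H)).card := rfl
  rw [hP]
  refine hc.trans ?_
  refine (Finset.card_union_le _ _).trans ?_
  have hb : (T.filter (fun t => t.1 = x) ∪ (T.filter (fun t => t.1 = p) ∪
      (T.filter (fun t => t.1 = q) ∪ (T.filter (fun t => t.2 = p) ∪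
      (T.filter (fun t => t.2 = q) ∪ T.filter (fun t => t.2 = y)))))).card ≤ 6 * S.card := by
    refine (Finset.card_union_le _ _).trans ?_
    refine (Nat.add_le_add_left (Finset.card_union_le _ _) _).trans ?_
    refine (Nat.add_le_add_left (Nat.add_le_add_left (Finset.card_union_le _ _) _) _).trans ?_
    refine (Nat.add_le_add_left (Nat.add_le_add_left (Nat.add_le_add_left
      (Finset.card_union_le _ _) _) _) _).trans ?_
    refine (Nat.add_le_add_left (Nat.add_le_add_left (Nat.add_le_add_left (Nat.add_le_add_left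
      (Finset.card_union_le _ _) _) _) _) _).trans ?_
    have a1 := h1 x
    have a2 := h1 p
    have a3 := h1 q
    have a4 := h2 p
    have a5 := h2 q
    have a6 := h2 y
    omega
  omega

theorem rich_cC {S : Finset V} {H : Finset (Sym2 V)} (hH : Loopless H) {p q p' q' : V}
    (h1 : p ≠ q) (h2 : p ≠ p') (h3 : p ≠ q') (h4 : q ≠ p') (h5 : q ≠ q') (h6 : p' ≠ q') :
    cn H S q p' * cn H S q' p ≤ (compl6 S H (cC p q p' q')).card + 5 * S.card := by
  set T := S ×ˢ S with hT
  set good := (T.filter (fun t => (s(q, t.1) ∈ H ∧ s(t.1, p') ∈ H ∧ s(q', t.2) ∈ H ∧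
    s(t.2, p) ∈ H) ∧ t.1 ≠ p ∧ t.1 ≠ q' ∧ t.2 ≠ q ∧ t.2 ≠ p' ∧ t.1 ≠ t.2)) with hgood
  have hsub : (T.filter (fun t => s(q, t.1) ∈ H ∧ s(t.1, p') ∈ H ∧ s(q', t.2) ∈ H ∧
    s(t.2, p) ∈ H)) ⊆
      good ∪ (T.filter (fun t => t.1 = p) ∪ (T.filter (fun t => t.1 = q') ∪
      (T.filter (fun t => t.2 = q) ∪ (T.filter (fun t => t.2 = p') ∪
      T.filter (fun t => t.1 = t.2))))) := by
    intro t ht
    simp only [hgood, Finset.mem_union, Finset.mem_filter] at ht ⊢
    tauto
  have hc := Finset.card_le_card hsub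
  have b1 : ∀ z : V, (T.filter (fun t => t.1 = z)).card ≤ S.card := by
    intro z
    apply rich1_slice2 _ (fun t => t.2)
    · intro t ht
      exact (Finset.mem_product.1 ht).2
    · rintro ⟨a, b⟩ ⟨a', b'⟩ h h' he
      simp_all
  have b2 : ∀ z : V, (T.filter (fun t => t.2 = z)).card ≤ S.card := by
    intro z
    apply rich1_slice2 _ (fun t => t.1)
    · intro t ht
      exact (Finset.mem_product.1 ht).1
    · rintro ⟨a, b⟩ ⟨a', b'⟩ h h' he
      simp_all
  have b3 : (T.filter (fun t => t.1 = t.2)).card ≤ S.card := by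
    apply rich1_slice2 _ (fun t => t.1)
    · intro t ht
      exact (Finset.mem_product.1 ht).1
    · rintro ⟨a, b⟩ ⟨a', b'⟩ h h' he
      simp_all
  have hg : good.card ≤ (compl6 S H (cC p q p' q')).card := by
    apply Finset.card_le_card_of_injOn (fun t => (![p, q, t.1, p', q', t.2] : Fin 6 → V))
    · intro t ht
      have ht' := Finset.mem_coe.1 ht
      simp only [hgood, hT, Finset.mem_filter, Finset.mem_product] at ht'
      obtain ⟨⟨m1, m2⟩, ⟨e1, e2, e3, e4⟩, n1, n2, n3, n4, n5⟩ := ht'
      have k1 := hH.ne e1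
      have k2 := hH.ne e2
      have k3 := hH.ne e3
      have k4 := hH.ne e4
      apply Finset.mem_coe.2
      rw [mem_compl6]
      refine ⟨rich1_inj6 h1 n1.symm h2 h3 k4.symm k1 h4 h5 n3.symm k2 n2 n5 h6 n4.symm k3,
        ?_, ?_, ?_⟩
      · intro i hi
        fin_cases i
        · simp [cC] at hi
        · simp [cC] at hi
        · exact m1
        · simp [cC] at hi
        · simp [cC] at hi
        · exact m2
      · intro i z hi
        fin_cases i
        · exact Option.some.inj hi
        · exact Option.some.inj hi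
        · simp [cC] at hi
        · exact Option.some.inj hi
        · exact Option.some.inj hi
        · simp [cC] at hi
      · intro i hi
        fin_cases i
        · simp [cC] at hi
        · exact e1
        · exact e2
        · simp [cC] at hi
        · exact e3
        · exact e4
    · rintro ⟨a, b⟩ _ ⟨a', b'⟩ _ he
      have q3 : a = a' := congrFun he 2
      have q4 : b = b' := congrFun he 5
      rw [q3, q4]
  have hP : cn H S q p' * cn H S q' p = (T.filter (fun t => s(q, t.1) ∈ H ∧ s(t.1, p') ∈ H ∧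
      s(q', t.2) ∈ H ∧ s(t.2, p) ∈ H)).card := by
    unfold cn
    rw [← Finset.card_product]
    congr 1
    ext t
    simp only [hT, Finset.mem_product, Finset.mem_filter]
    tauto
  rw [hP]
  refine hc.trans ?_
  refine (Finset.card_union_le _ _).trans ?_
  have hb : (T.filter (fun t => t.1 = p) ∪ (T.filter (fun t => t.1 = q') ∪
      (T.filter (fun t => t.2 = q) ∪ (T.filter (fun t => t.2 = p') ∪
      T.filter (fun t => t.1 = t.2))))).card ≤ 5 * S.card := by
    refine (Finset.card_union_le _ _).trans ?_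
    refine (Nat.add_le_add_left (Finset.card_union_le _ _) _).trans ?_
    refine (Nat.add_le_add_left (Nat.add_le_add_left (Finset.card_union_le _ _) _) _).trans ?_
    refine (Nat.add_le_add_left (Nat.add_le_add_left (Nat.add_le_add_left
      (Finset.card_union_le _ _) _) _) _).trans ?_
    have a1 := b1 p
    have a2 := b1 q'
    have a3 := b2 q
    have a4 := b2 p'
    omega
  omega

end H15C6
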