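import Pool.Agent.H15.C6.ADefs

/-!
Definitions for the stability part (all graphs on a finite type `V`, `n = |V|`).
-/

open Finset

namespace H15C6

variable {V : Type} [Fintype V] [DecidableEq V]

/-- number of vertices -/
abbrev nV (V : Type) [Fintype V] : ℝ := (Fintype.card V : ℝ)

/-- `x` and `w` have fewer than `η n` common neighbours -/
def Small (E : Finset (Sym2 V)) (η : ℝ) (x w : V) : Prop := (cn E Finset.univ x w : ℝ) < η * nV V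

open Classical in
/-- no four sets `S_x` cover almost all vertices -/
def NE4 (E : Finset (Sym2 V)) (η μ : ℝ) : Prop :=
  ∀ x1 x2 x3 x4 : V, μ * nV V ≤ ((Finset.univ.filter (fun w => ¬ Small E η x1 w ∧
    ¬ Small E η x2 w ∧ ¬ Small E η x3 w ∧ ¬ Small E η x4 w)).card : ℝ)

/-- the neighbourhood of every vertex of `A` is `T` up to `ε n` vertices -/
def NbrsLike (E : Finset (Sym2 V)) (ε : ℝ) (A T : Finset V) : Prop :=
  ∀ a ∈ A, ((Finset.univ.filter (fun y => s(a, y) ∈ E ∧ y ∉ T)).card : ℝ) ≤ ε * nV V ∧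
    ((T.filter (fun y => s(a, y) ∉ E)).card : ℝ) ≤ ε * nV V

/-- two almost complete halves -/
def Ext1 (E : Finset (Sym2 V)) (ε : ℝ) : Prop :=
  ∃ A B : Finset V, Disjoint A B ∧ (1 / 2 - ε) * nV V ≤ A.card ∧ (1 / 2 - ε) * nV V ≤ B.card ∧
    NbrsLike E ε A A ∧ NbrsLike E ε B B

/-- almost complete bipartite -/
def Ext2 (E : Finset (Sym2 V)) (ε : ℝ) : Prop :=
  ∃ A B : Finset V, Disjoint A B ∧ (1 / 2 - ε) * nV V ≤ A.card ∧ (1 / 2 - ε) * nV V ≤ B.card ∧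
    NbrsLike E ε A B ∧ NbrsLike E ε B A

/-- almost complete blow-up of the path with loops at both ends -/
def Ext3 (E : Finset (Sym2 V)) (t ε : ℝ) : Prop :=
  ∃ V1 V2 V3 V4 : Finset V, Disjoint V1 V2 ∧ Disjoint V1 V3 ∧ Disjoint V1 V4 ∧ Disjoint V2 V3 ∧
    Disjoint V2 V4 ∧ Disjoint V3 V4 ∧
    t * nV V ≤ V1.card ∧ t * nV V ≤ V2.card ∧ t * nV V ≤ V3.card ∧ t * nV V ≤ V4.card ∧
    (1 - ε) * nV V ≤ ((V1 ∪ V2 ∪ V3 ∪ V4).card : ℝ) ∧
    NbrsLike E ε V1 (V1 ∪ V2) ∧ NbrsLike E ε V2 (V1 ∪ V3) ∧ NbrsLike E ε V3 (V2 ∪ V4) ∧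
    NbrsLike E ε V4 (V3 ∪ V4)

end H15C6
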