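import Pool.Agent.H15.C6.SDefs

/-!
Module STA1B (part of STA1).  Three lemmas for the stability theorem.  `n = |V|`.

`twin_classes`: `x_1..x_4` from `¬ NE4`; `C i := {w : Small x_i w} \ ⋃_{j<i} {w : Small x_j w}`,
`M i := V \ N(x_i)`.  For `w ∈ C i`: `|N(w) \ M i| = |N(w) ∩ N(x_i)| < η n`, and
`|M i \ N(w)| = |M i| - |N(w)| + |N(w) \ M i| ≤ (n+1)/2 - (n-1)/2 + η n ≤ 2 η n` for large `n`.

`zero_one`: for `(w,u) ∈ Ci × Cj` the number of pairs with `[wu ∈ E] ≠ [u ∈ Mi]` is at most `4 η n |Ci|`, the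
number with `[wu ∈ E] ≠ [w ∈ Mj]` at most `4 η n |Cj|`.  So with `p = |Mi ∩ Cj|`, `q = |Mj ∩ Ci|`:
`p (|Ci| - q) + (|Cj| - p) q ≤ 8 η n²`.  If `q ≤ |Ci|/2` then `p ≤ 16 η n/s' ≤ |Cj|/2` and then
`q ≤ 16 η n/s'`; else `|Cj| - p ≤ 16 η n/s'`, so `p ≥ |Cj|/2` and `|Ci| - q ≤ 16 η n/s'`.

`scales`: define `sc 5, sc 4, ..., sc 0` downwards by `sc i := min (stuff) (G (sc (i+1)))`.
Pigeonhole: if for every `i < 5` some `c j ∈ [sc i, sc (i+1))`, the map `i ↦ j` is injective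
(disjoint intervals, `sc` increasing), impossible from `Fin 5` to `Fin 4`.
-/

open Finset

namespace H15C6

theorem sta1b_row {V : Type} [Fintype V] [DecidableEq V] (E : Finset (Sym2 V)) (η : ℝ)
    (A B M : Finset V) (h : NbrsLike E (2 * η) A M) :
    (((A ×ˢ B).filter (fun t => ¬ (s(t.1, t.2) ∈ E ↔ t.2 ∈ M))).card : ℝ) ≤
      A.card * (4 * η * nV V) := by
  have h1 : ((A ×ˢ B).filter (fun t => ¬ (s(t.1, t.2) ∈ E ↔ t.2 ∈ M))).card =
      ∑ w ∈ A, (B.filter (fun u => ¬ (s(w, u) ∈ E ↔ u ∈ M))).card := by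
    rw [Finset.card_filter, Finset.sum_product]
    refine Finset.sum_congr rfl fun w _ => ?_
    rw [Finset.card_filter]
  rw [h1]
  push_cast
  rw [← nsmul_eq_mul]
  refine Finset.sum_le_card_nsmul _ _ _ fun w hw => ?_
  obtain ⟨e1, e2⟩ := h w hw
  have h2 : (B.filter (fun u => ¬ (s(w, u) ∈ E ↔ u ∈ M))) ⊆
      (Finset.univ.filter (fun y => s(w, y) ∈ E ∧ y ∉ M)) ∪ (M.filter (fun y => s(w, y) ∉ E)) := by
    intro u hu
    simp only [Finset.mem_filter, Finset.mem_union, Finset.mem_univ, true_and] at hu ⊢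
    tauto
  have h3 : ((B.filter (fun u => ¬ (s(w, u) ∈ E ↔ u ∈ M))).card : ℝ) ≤
      ((Finset.univ.filter (fun y => s(w, y) ∈ E ∧ y ∉ M)).card : ℝ) +
        ((M.filter (fun y => s(w, y) ∉ E)).card : ℝ) := by
    exact_mod_cast (Finset.card_le_card h2).trans (Finset.card_union_le _ _)
  linarith

theorem sta1b_num {a b p q n η s' : ℝ} (hη : 0 < η) (hs' : 0 < s') (hηs : 32 * η ≤ s' ^ 2)
    (hn : 0 < n) (ha : s' * n ≤ a) (hb : s' * n ≤ b) (hp : 0 ≤ p) (hq : 0 ≤ q) (hqa : q ≤ a)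
    (hpb : p ≤ b) (h : p * (a - q) + (b - p) * q ≤ 8 * η * n ^ 2) :
    (p ≤ 16 * η / s' * n ∧ q ≤ 16 * η / s' * n) ∨
      (b - p ≤ 16 * η / s' * n ∧ a - q ≤ 16 * η / s' * n) := by
  have key : ∀ x y : ℝ, 0 ≤ x → s' * n / 2 ≤ y → x * y ≤ 8 * η * n ^ 2 →
      x ≤ 16 * η / s' * n := by
    intro x y hx hy hxy
    have h1 : x * (s' * n / 2) ≤ 8 * η * n ^ 2 := (mul_le_mul_of_nonneg_left hy hx).trans hxy
    rw [div_mul_eq_mul_div, le_div_iff₀ hs']
    have h2 : (x * s') * n ≤ (16 * η * n) * n := by nlinarith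
    exact le_of_mul_le_mul_right h2 hn
  have hsmall : 16 * η / s' * n ≤ s' * n / 2 := by
    rw [div_mul_eq_mul_div, div_le_iff₀ hs']
    nlinarith
  have hp1 : 0 ≤ p * (a - q) := mul_nonneg hp (by linarith)
  have hq1 : 0 ≤ (b - p) * q := mul_nonneg (by linarith) hq
  by_cases hc : q ≤ a / 2
  · left
    have e1 : p ≤ 16 * η / s' * n := key p (a - q) hp (by linarith) (by linarith)
    refine ⟨e1, ?_⟩
    exact key q (b - p) hq (by linarith) (by linarith)
  · right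
    push Not at hc
    have e1 : b - p ≤ 16 * η / s' * n := key (b - p) q (by linarith) (by linarith) (by linarith)
    refine ⟨e1, ?_⟩
    exact key (a - q) p (by linarith) (by linarith) (by linarith)

theorem zero_one {V : Type} [Fintype V] [DecidableEq V] (E : Finset (Sym2 V)) (η s' : ℝ)
    (hη : 0 < η) (hs' : 0 < s') (hηs : 32 * η ≤ s' ^ 2) (Ci Cj Mi Mj : Finset V)
    (hCi : s' * nV V ≤ (Ci.card : ℝ)) (hCj : s' * nV V ≤ (Cj.card : ℝ)) (hn : 0 < nV V)
    (hi : NbrsLike E (2 * η) Ci Mi) (hj : NbrsLike E (2 * η) Cj Mj) :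
    (((Mi ∩ Cj).card : ℝ) ≤ 16 * η / s' * nV V ∧ ((Mj ∩ Ci).card : ℝ) ≤ 16 * η / s' * nV V) ∨
    (((Cj \ Mi).card : ℝ) ≤ 16 * η / s' * nV V ∧ ((Ci \ Mj).card : ℝ) ≤ 16 * η / s' * nV V) := by
  have r1 := sta1b_row E η Ci Cj Mi hi
  have r2 := sta1b_row E η Cj Ci Mj hj
  -- the second count in the other order
  have r3 : (((Ci ×ˢ Cj).filter (fun t => ¬ (s(t.1, t.2) ∈ E ↔ t.1 ∈ Mj))).card : ℝ) ≤
      Cj.card * (4 * η * nV V) := by
    refine le_trans (le_of_eq ?_) r2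
    congr 1
    refine Finset.card_bij (fun t _ => (t.2, t.1)) ?_ ?_ ?_
    · intro t ht
      simp only [Finset.mem_filter, Finset.mem_product] at ht ⊢
      rw [Sym2.eq_swap (a := t.2) (b := t.1)]
      exact ⟨⟨ht.1.2, ht.1.1⟩, ht.2⟩
    · intro t _ t' _ h
      simp only [Prod.mk.injEq] at h
      exact Prod.ext h.2 h.1
    · intro t ht
      simp only [Finset.mem_filter, Finset.mem_product] at ht
      refine ⟨(t.2, t.1), ?_, rfl⟩
      simp only [Finset.mem_filter, Finset.mem_product]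
      rw [Sym2.eq_swap (a := t.2) (b := t.1)]
      exact ⟨⟨ht.1.2, ht.1.1⟩, ht.2⟩
  have hsub : ((Ci \ Mj) ×ˢ (Cj ∩ Mi)) ∪ ((Ci ∩ Mj) ×ˢ (Cj \ Mi)) ⊆
      ((Ci ×ˢ Cj).filter (fun t => ¬ (s(t.1, t.2) ∈ E ↔ t.2 ∈ Mi))) ∪
      ((Ci ×ˢ Cj).filter (fun t => ¬ (s(t.1, t.2) ∈ E ↔ t.1 ∈ Mj))) := by
    intro t ht
    simp only [Finset.mem_filter, Finset.mem_union, Finset.mem_product, Finset.mem_sdiff,
      Finset.mem_inter] at ht ⊢
    tauto
  have hdisj : Disjoint ((Ci \ Mj) ×ˢ (Cj ∩ Mi)) ((Ci ∩ Mj) ×ˢ (Cj \ Mi)) := by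
    rw [Finset.disjoint_left]
    intro t h1 h2
    simp only [Finset.mem_product, Finset.mem_sdiff, Finset.mem_inter] at h1 h2
    exact h1.1.2 h2.1.2
  have hcard := Finset.card_le_card hsub
  rw [Finset.card_union_of_disjoint hdisj, Finset.card_product, Finset.card_product] at hcard
  have hcard2 : (((Ci \ Mj).card * (Cj ∩ Mi).card + (Ci ∩ Mj).card * (Cj \ Mi).card : ℕ) : ℝ) ≤
      (((Ci ×ˢ Cj).filter (fun t => ¬ (s(t.1, t.2) ∈ E ↔ t.2 ∈ Mi))).card : ℝ) +
      (((Ci ×ˢ Cj).filter (fun t => ¬ (s(t.1, t.2) ∈ E ↔ t.1 ∈ Mj))).card : ℝ) := by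
    exact_mod_cast hcard.trans (Finset.card_union_le _ _)
  push_cast at hcard2
  have hCin : (Ci.card : ℝ) ≤ nV V := by exact_mod_cast Finset.card_le_univ Ci
  have hCjn : (Cj.card : ℝ) ≤ nV V := by exact_mod_cast Finset.card_le_univ Cj
  have e1 : ((Ci \ Mj).card : ℝ) = Ci.card - (Mj ∩ Ci).card := by
    rw [Finset.inter_comm, eq_sub_iff_add_eq]
    exact_mod_cast Finset.card_sdiff_add_card_inter Ci Mj
  have e2 : ((Cj \ Mi).card : ℝ) = Cj.card - (Mi ∩ Cj).card := by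
    rw [Finset.inter_comm, eq_sub_iff_add_eq]
    exact_mod_cast Finset.card_sdiff_add_card_inter Cj Mi
  rw [Finset.inter_comm Cj Mi, Finset.inter_comm Ci Mj] at hcard2
  rw [e1, e2] at hcard2 ⊢
  refine sta1b_num hη hs' hηs hn hCi hCj (Nat.cast_nonneg _) (Nat.cast_nonneg _) ?_ ?_ ?_
  · exact_mod_cast Finset.card_le_card Finset.inter_subset_right
  · exact_mod_cast Finset.card_le_card Finset.inter_subset_right
  · have h4 : 0 ≤ 4 * η * nV V := by positivity
    have h5 : (Ci.card : ℝ) * (4 * η * nV V) ≤ nV V * (4 * η * nV V) :=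
      mul_le_mul_of_nonneg_right hCin h4
    have h6 : (Cj.card : ℝ) * (4 * η * nV V) ≤ nV V * (4 * η * nV V) :=
      mul_le_mul_of_nonneg_right hCjn h4
    nlinarith

/-- the scales -/
noncomputable def sta1b_f (G : ℝ → ℝ) (a : ℝ) : ℕ → ℝ
  | 0 => a
  | (k + 1) => min (G (sta1b_f G a k)) (sta1b_f G a k / 100)

theorem scales (G : ℝ → ℝ) (hG : ∀ t, 0 < t → 0 < G t) (a : ℝ) (ha : 0 < a) :
    ∃ sc : Fin 6 → ℝ, (∀ i, 0 < sc i) ∧ (∀ i, sc i ≤ a) ∧
      (∀ i : Fin 5, sc i.castSucc ≤ G (sc i.succ) ∧ 100 * sc i.castSucc ≤ sc i.succ) ∧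
      ∀ c : Fin 4 → ℝ, ∃ i : Fin 5, ∀ j, c j < sc i.castSucc ∨ sc i.succ ≤ c j := by
  have hpos : ∀ k, 0 < sta1b_f G a k := by
    intro k
    induction k with
    | zero => exact ha
    | succ k ih => exact lt_min (hG _ ih) (by positivity)
  have hanti : Antitone (sta1b_f G a) := by
    refine antitone_nat_of_succ_le fun k => ?_
    show min (G (sta1b_f G a k)) (sta1b_f G a k / 100) ≤ sta1b_f G a k
    refine (min_le_right _ _).trans ?_
    have := hpos k
    linarith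
  have hstep : ∀ i : Fin 5, (5 - (i.castSucc : Fin 6).val) = (5 - (i.succ : Fin 6).val) + 1 := by
    intro i
    have := i.isLt
    simp only [Fin.val_castSucc, Fin.val_succ]
    omega
  refine ⟨fun i => sta1b_f G a (5 - i.val), fun i => hpos _, fun i => ?_, fun i => ?_, ?_⟩
  · exact hanti (Nat.zero_le _)
  · show sta1b_f G a (5 - (i.castSucc : Fin 6).val) ≤ G (sta1b_f G a (5 - (i.succ : Fin 6).val)) ∧
      100 * sta1b_f G a (5 - (i.castSucc : Fin 6).val) ≤ sta1b_f G a (5 - (i.succ : Fin 6).val)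
    rw [hstep i]
    refine ⟨min_le_left _ _, ?_⟩
    have : sta1b_f G a (5 - (i.succ : Fin 6).val + 1) ≤
      sta1b_f G a (5 - (i.succ : Fin 6).val) / 100 := min_le_right _ _
    linarith
  · intro c
    by_contra hcon
    push Not at hcon
    choose j hj1 hj2 using hcon
    have hinj : Function.Injective j := by
      have hlt : ∀ i i' : Fin 5, i < i' → j i ≠ j i' := by
        intro i i' hii heq
        have h1 := hj2 i
        have h2 := hj1 i'
        rw [heq] at h1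
        have h3 : sta1b_f G a (5 - (i.succ : Fin 6).val) ≤
            sta1b_f G a (5 - (i'.castSucc : Fin 6).val) := by
          apply hanti
          have : i.val < i'.val := hii
          simp only [Fin.val_castSucc, Fin.val_succ]
          omega
        exact absurd (h2.trans_lt h1) (not_lt.2 h3)
      intro i i' heq
      rcases lt_trichotomy i i' with h | h | h
      · exact absurd heq (hlt i i' h)
      · exact h
      · exact absurd heq.symm (hlt i' i h)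
    have := Fintype.card_le_of_injective j hinj
    simp at this

end H15C6
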