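import Pool.Agent.H15.C6.SDefs

/-!
Module STA1A (part of STA1).  Three lemmas for the stability theorem.  `n = |V|`.

`twin_classes`: `x_1..x_4` from `¬ NE4`; `C i := {w : Small x_i w} \ ⋃_{j<i} {w : Small x_j w}`,
`M i := V \ N(x_i)`.  For `w ∈ C i`: `|N(w) \ M i| = |N(w) ∩ N(x_i)| < η n`, and
`|M i \ N(w)| = |M i| - |N(w)| + |N(w) \ M i| ≤ (n+1)/2 - (n-1)/2 + η n ≤ 2 η n` for large `n`.
-/

open Finset

namespace H15C6

theorem sta1a_deg {V : Type} [Fintype V] [DecidableEq V] (E : Finset (Sym2 V)) (x : V) :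
    deg E x = dg E Finset.univ x := by
  unfold deg dg
  symm
  apply Finset.card_bij (fun y _ => s(x, y))
  · intro y hy
    rw [Finset.mem_filter] at hy ⊢
    exact ⟨hy.2, by simp⟩
  · intro y _ y' _ h
    exact Sym2.congr_right.1 h
  · intro e he
    rw [Finset.mem_filter] at he
    obtain ⟨y, rfl⟩ := he.2
    exact ⟨y, by simpa using he.1, rfl⟩

/-- basic counting for a vertex `w` with few common neighbours with `x` -/
theorem sta1a_count {V : Type} [Fintype V] [DecidableEq V] (E : Finset (Sym2 V)) (η : ℝ)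
    (hd : ∀ v, Fintype.card V ≤ 2 * deg E v + 1) (hn : 1 ≤ η * nV V) (x w : V)
    (h : Small E η x w) :
    (((Finset.univ.filter (fun y => s(w, y) ∈ E ∧
        y ∉ Finset.univ.filter (fun y => s(x, y) ∉ E))).card : ℝ) ≤ 2 * η * nV V ∧
      (((Finset.univ.filter (fun y => s(x, y) ∉ E)).filter
        (fun y => s(w, y) ∉ E)).card : ℝ) ≤ 2 * η * nV V) ∧
    (1 / 2 - 2 * η) * nV V ≤ ((Finset.univ.filter (fun y => s(x, y) ∉ E)).card : ℝ) ∧
    ((Finset.univ.filter (fun y => s(x, y) ∉ E)).card : ℝ) ≤ (1 / 2 + 2 * η) * nV V := by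
  have e1 : (Finset.univ.filter (fun y => s(w, y) ∈ E ∧
        y ∉ Finset.univ.filter (fun y => s(x, y) ∉ E))).card = cn E Finset.univ x w := by
    unfold cn
    congr 1
    ext y
    simp only [Finset.mem_filter, Finset.mem_univ, true_and, not_not]
    rw [Sym2.eq_swap (a := w) (b := y)]
    tauto
  have e2 : dg E Finset.univ x + (Finset.univ.filter (fun y => s(x, y) ∉ E)).card =
      Fintype.card V := by
    unfold dg
    rw [Finset.card_filter_add_card_filter_not]
    rfl
  -- the number of neighbours of `w`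
  have e3 : dg E Finset.univ w = cn E Finset.univ x w +
      ((Finset.univ.filter (fun y => s(x, y) ∉ E)).filter (fun y => s(w, y) ∈ E)).card := by
    rw [← e1]
    unfold dg
    rw [← Finset.card_filter_add_card_filter_not (s := Finset.univ.filter (fun y => s(w, y) ∈ E))
      (fun y => y ∉ Finset.univ.filter (fun y => s(x, y) ∉ E))]
    congr 1
    · congr 1
      ext y
      simp only [Finset.mem_filter, Finset.mem_univ, true_and, not_not]
    · congr 1
      ext y
      simp only [Finset.mem_filter, Finset.mem_univ, true_and, not_not]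
      tauto
  have e4 : ((Finset.univ.filter (fun y => s(x, y) ∉ E)).filter (fun y => s(w, y) ∈ E)).card +
      ((Finset.univ.filter (fun y => s(x, y) ∉ E)).filter (fun y => s(w, y) ∉ E)).card =
      (Finset.univ.filter (fun y => s(x, y) ∉ E)).card :=
    Finset.card_filter_add_card_filter_not _
  have dx := hd x
  have dw := hd w
  rw [sta1a_deg] at dx dw
  have hs : (cn E Finset.univ x w : ℝ) < η * nV V := h
  rw [e1]
  set a := ((Finset.univ.filter (fun y => s(x, y) ∉ E)).filter (fun y => s(w, y) ∈ E)).card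
  set b := ((Finset.univ.filter (fun y => s(x, y) ∉ E)).filter (fun y => s(w, y) ∉ E)).card
  set m := (Finset.univ.filter (fun y => s(x, y) ∉ E)).card
  set c := cn E Finset.univ x w
  set p := dg E Finset.univ x
  set q := dg E Finset.univ w
  have f2 : (p : ℝ) + m = nV V := by unfold nV; exact_mod_cast e2
  have f3 : (q : ℝ) = c + a := by exact_mod_cast e3
  have f4 : (a : ℝ) + b = m := by exact_mod_cast e4
  have f5 : nV V ≤ 2 * (p : ℝ) + 1 := by unfold nV; exact_mod_cast dx
  have f6 : nV V ≤ 2 * (q : ℝ) + 1 := by unfold nV; exact_mod_cast dw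
  have hb : (0 : ℝ) ≤ b := Nat.cast_nonneg _
  refine ⟨⟨?_, ?_⟩, ?_, ?_⟩ <;> nlinarith

theorem twin_classes (η μ : ℝ) (hη : 0 < η) (hη' : η ≤ 1 / 10) :
    ∃ n0 : ℕ, ∀ (V : Type) [Fintype V] [DecidableEq V] (E : Finset (Sym2 V)),
      n0 ≤ Fintype.card V → Loopless E → (∀ v, Fintype.card V ≤ 2 * deg E v + 1) →
      ¬ NE4 E η μ →
      ∃ C M : Fin 4 → Finset V, (∀ i j, i ≠ j → Disjoint (C i) (C j)) ∧
        (1 - μ) * nV V ≤ ((Finset.univ.biUnion C).card : ℝ) ∧
        (∀ i, (C i).Nonempty → (1 / 2 - 2 * η) * nV V ≤ ((M i).card : ℝ) ∧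
          ((M i).card : ℝ) ≤ (1 / 2 + 2 * η) * nV V) ∧
        (∀ i, NbrsLike E (2 * η) (C i) (M i)) := by
  obtain ⟨n0, hn0⟩ := exists_nat_gt (1 / η)
  refine ⟨n0, ?_⟩
  intro V _ _ E hcard _ hd hne
  classical
  have hn : 1 ≤ η * nV V := by
    have h1 : (1 / η : ℝ) < nV V := lt_of_lt_of_le hn0 (by unfold nV; exact_mod_cast hcard)
    rw [div_lt_iff₀ hη] at h1
    linarith
  unfold NE4 at hne
  push Not at hne
  obtain ⟨x1, x2, x3, x4, hx⟩ := hne
  let X : Fin 4 → V := ![x1, x2, x3, x4]
  let C : Fin 4 → Finset V := fun i =>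
    Finset.univ.filter (fun w => Small E η (X i) w ∧ ∀ j, j < i → ¬ Small E η (X j) w)
  refine ⟨C, fun i => Finset.univ.filter (fun y => s(X i, y) ∉ E), ?_, ?_, ?_, ?_⟩
  · intro i j hij
    rw [Finset.disjoint_left]
    intro w hw hw'
    simp only [C, Finset.mem_filter, Finset.mem_univ, true_and] at hw hw'
    rcases lt_or_gt_of_ne hij with h | h
    · exact hw'.2 i h hw.1
    · exact hw.2 j h hw'.1
  · -- the union
    have h1 : (Finset.univ.filter (fun w => ¬ Small E η x1 w ∧
        ¬ Small E η x2 w ∧ ¬ Small E η x3 w ∧ ¬ Small E η x4 w)) ∪ Finset.univ.biUnion C =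
        Finset.univ := by
      rw [Finset.eq_univ_iff_forall]
      intro w
      rw [Finset.mem_union, Finset.mem_filter, Finset.mem_biUnion]
      by_cases h : ∃ i, Small E η (X i) w
      · right
        obtain ⟨i, hi, hmin⟩ : ∃ i, Small E η (X i) w ∧ ∀ j, j < i → ¬ Small E η (X j) w := by
          by_cases h0 : Small E η (X 0) w
          · exact ⟨0, h0, fun j hj => absurd hj (by simp)⟩
          by_cases h1 : Small E η (X 1) w
          · refine ⟨1, h1, fun j hj => ?_⟩
            fin_cases j
            · exact h0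
            all_goals exact absurd hj (by decide)
          by_cases h2 : Small E η (X 2) w
          · refine ⟨2, h2, fun j hj => ?_⟩
            fin_cases j
            · exact h0
            · exact h1
            all_goals exact absurd hj (by decide)
          obtain ⟨i, hi⟩ := h
          fin_cases i
          · exact absurd hi h0
          · exact absurd hi h1
          · exact absurd hi h2
          refine ⟨3, hi, fun j hj => ?_⟩
          fin_cases j
          · exact h0
          · exact h1
          · exact h2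
          all_goals exact absurd hj (by decide)
        exact ⟨i, Finset.mem_univ _, by
          simp only [C, Finset.mem_filter, Finset.mem_univ, true_and]; exact ⟨hi, hmin⟩⟩
      · left
        push Not at h
        exact ⟨Finset.mem_univ _, h 0, h 1, h 2, h 3⟩
    have h2 : Fintype.card V ≤ (Finset.univ.filter (fun w => ¬ Small E η x1 w ∧
        ¬ Small E η x2 w ∧ ¬ Small E η x3 w ∧ ¬ Small E η x4 w)).card +
        (Finset.univ.biUnion C).card := by
      have h3 := congrArg Finset.card h1
      rw [Finset.card_univ] at h3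
      rw [← h3]
      exact Finset.card_union_le _ _
    have h3 : nV V ≤ ((Finset.univ.filter (fun w => ¬ Small E η x1 w ∧
        ¬ Small E η x2 w ∧ ¬ Small E η x3 w ∧ ¬ Small E η x4 w)).card : ℝ) +
        ((Finset.univ.biUnion C).card : ℝ) := by unfold nV; exact_mod_cast h2
    linarith
  · rintro i ⟨w, hw⟩
    simp only [C, Finset.mem_filter, Finset.mem_univ, true_and] at hw
    exact (sta1a_count E η hd hn (X i) w hw.1).2
  · intro i w hw
    simp only [C, Finset.mem_filter, Finset.mem_univ, true_and] at hw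
    exact (sta1a_count E η hd hn (X i) w hw.1).1

end H15C6
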