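import Pool.Agent.H15.C6.STA1
import Pool.Agent.H15.C6.CLS

/-!
Module STA2.  The stability theorem.  `n = |V|`.

Take `sc` from `scales` with `a := min (ε2/12) (1/1000)` and `G t := min (g t) 1 / 12`.  Put
`s0 := sc 0` (the smallest one; all others are larger), `μ := s0/4`, `η := s0^3/10^6`.  `T :=` image of `sc`.
Assume `¬ NE4 E η μ`; `twin_classes` gives `C, M`.  `c j := |C j|/n`; choose `i : Fin 5` by the pigeonhole,
`s := sc i.castSucc`, `s' := sc i.succ`; `I := {j : s' ≤ c j}`, for `j ∉ I` `c j < s`.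
`κ := 16 η/s' ≤ s/64`.  For `i, j ∈ I` put `P i j :⇔ |C j \ M i| ≤ κ n`; by `zero_one` (and `κ n < |C j|/2`) `P` is
symmetric, and `¬ P i j → |M i ∩ C j| ≤ κ n`.  With `T_i := ⋃_{j ∈ I, P i j} C j`:
`|M i \ T_i| ≤ (μ + 3 s + 4 κ) n` (the set of vertices outside `⋃_{j ∈ I} C j` has at most `(μ + 3s) n`
elements), `|T_i \ M i| ≤ 4 κ n`, so `NbrsLike E (6 s) (C i) T_i` and
`| |T_i| - n/2 | ≤ 5 s n`.  Apply `classify` (with weights `c`, parameter `s`).
`k = 0`: `A := ⋃_{i ∈ I, f i = 0} C i`, `B := ⋃_{i ∈ I, f i = 1} C i`: `T_i = A` for `f i = 0`, etc.: `Ext1 E (6s)`;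
`k = 1`: `Ext2`; `k = 2`: `V_m := C (f⁻¹ m)`: `Ext3 E s' (6 s)` and `6 s ≤ g s'`.
`NbrsLike` and `Ext*` are monotone in the error parameter.
-/

open Finset

namespace H15C6

section Aux

variable {V : Type} [Fintype V] [DecidableEq V] {E : Finset (Sym2 V)}

theorem sta2_mono {ε ε' : ℝ} {A T : Finset V} (h : NbrsLike E ε A T) (hε : ε ≤ ε') :
    NbrsLike E ε' A T := by
  intro a ha
  have h0 : (0:ℝ) ≤ nV V := Nat.cast_nonneg _
  obtain ⟨h1, h2⟩ := h a ha
  have h3 := mul_le_mul_of_nonneg_right hε h0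
  exact ⟨h1.trans h3, h2.trans h3⟩

theorem sta2_biUnion {ε : ℝ} {J : Finset (Fin 4)} {C : Fin 4 → Finset V} {T : Finset V}
    (h : ∀ j ∈ J, NbrsLike E ε (C j) T) : NbrsLike E ε (J.biUnion C) T := by
  intro a ha
  obtain ⟨j, hj, haj⟩ := Finset.mem_biUnion.1 ha
  exact h j hj a haj

theorem sta2_change {a b : ℝ} {A M T : Finset V} (h : NbrsLike E a A M)
    (h1 : ((T \ M).card : ℝ) ≤ b * nV V) (h2 : ((M \ T).card : ℝ) ≤ b * nV V) :
    NbrsLike E (a + b) A T := by
  intro x hx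
  obtain ⟨h3, h4⟩ := h x hx
  constructor
  · have h5 : (univ.filter (fun y => s(x, y) ∈ E ∧ y ∉ T)) ⊆
        (univ.filter (fun y => s(x, y) ∈ E ∧ y ∉ M)) ∪ (M \ T) := by
      intro y hy
      simp only [mem_filter, mem_univ, true_and, mem_union, mem_sdiff] at hy ⊢
      tauto
    have h6 := (card_le_card h5).trans (card_union_le _ _)
    have h7 : ((univ.filter (fun y => s(x, y) ∈ E ∧ y ∉ T)).card : ℝ) ≤
        ((univ.filter (fun y => s(x, y) ∈ E ∧ y ∉ M)).card : ℝ) + ((M \ T).card : ℝ) := by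
      exact_mod_cast h6
    rw [add_mul]; linarith
  · have h5 : (T.filter (fun y => s(x, y) ∉ E)) ⊆
        (M.filter (fun y => s(x, y) ∉ E)) ∪ (T \ M) := by
      intro y hy
      simp only [mem_filter, mem_union, mem_sdiff] at hy ⊢
      tauto
    have h6 := (card_le_card h5).trans (card_union_le _ _)
    have h7 : ((T.filter (fun y => s(x, y) ∉ E)).card : ℝ) ≤
        ((M.filter (fun y => s(x, y) ∉ E)).card : ℝ) + ((T \ M).card : ℝ) := by
      exact_mod_cast h6
    rw [add_mul]; linarith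

omit [Fintype V] in
theorem sta2_union_le {J : Finset (Fin 4)} {D : Fin 4 → Finset V} {t : ℝ} (ht : 0 ≤ t)
    (h : ∀ j ∈ J, ((D j).card : ℝ) ≤ t) : ((J.biUnion D).card : ℝ) ≤ 4 * t := by
  have h1 : ((J.biUnion D).card : ℝ) ≤ ∑ j ∈ J, ((D j).card : ℝ) := by
    exact_mod_cast card_biUnion_le
  have h2 : ∑ j ∈ J, ((D j).card : ℝ) ≤ J.card * t := by
    have := Finset.sum_le_card_nsmul J (fun j => ((D j).card : ℝ)) t h
    rwa [nsmul_eq_mul] at this
  have h3 : (J.card : ℝ) ≤ 4 := by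
    have : J.card ≤ 4 := (card_le_univ J).trans (by simp)
    exact_mod_cast this
  have h4 := mul_le_mul_of_nonneg_right h3 ht
  linarith

/-- comparison of the model neighbourhood with the union of the classes -/
theorem sta2_row {C : Fin 4 → Finset V} {M : Finset V} {I : Finset (Fin 4)} {P : Fin 4 → Prop}
    [DecidablePred P] {κ ν : ℝ} (hκ : 0 ≤ κ)
    (h1 : ∀ j ∈ I, P j → ((C j \ M).card : ℝ) ≤ κ * nV V)
    (h2 : ∀ j ∈ I, ¬ P j → ((M ∩ C j).card : ℝ) ≤ κ * nV V)
    (h3 : ((univ \ I.biUnion C).card : ℝ) ≤ ν * nV V) :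
    ((((I.filter P).biUnion C) \ M).card : ℝ) ≤ 4 * κ * nV V ∧
      ((M \ ((I.filter P).biUnion C)).card : ℝ) ≤ (ν + 4 * κ) * nV V := by
  have h0 : (0:ℝ) ≤ nV V := Nat.cast_nonneg _
  have hκ' : 0 ≤ κ * nV V := mul_nonneg hκ h0
  constructor
  · have h4 : ((I.filter P).biUnion C) \ M ⊆ (I.filter P).biUnion (fun j => C j \ M) := by
      intro y hy
      simp only [mem_sdiff, mem_biUnion, mem_filter] at hy ⊢
      obtain ⟨⟨j, hj, hyj⟩, hyM⟩ := hy
      exact ⟨j, hj, hyj, hyM⟩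
    have h5 : (((((I.filter P).biUnion C) \ M).card : ℝ)) ≤
        (((I.filter P).biUnion (fun j => C j \ M)).card : ℝ) := by
      exact_mod_cast card_le_card h4
    have h6 := sta2_union_le (J := I.filter P) (D := fun j => C j \ M) hκ'
      (fun j hj => h1 j (mem_filter.1 hj).1 (mem_filter.1 hj).2)
    linarith
  · have h4 : M \ ((I.filter P).biUnion C) ⊆
        (univ \ I.biUnion C) ∪ (I.filter (fun j => ¬ P j)).biUnion (fun j => M ∩ C j) := by
      intro y hy
      rw [mem_sdiff] at hy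
      rw [mem_union]
      by_cases hyI : y ∈ I.biUnion C
      · right
        obtain ⟨j, hj, hyj⟩ := mem_biUnion.1 hyI
        refine mem_biUnion.2 ⟨j, mem_filter.2 ⟨hj, fun hP => hy.2 ?_⟩, mem_inter.2 ⟨hy.1, hyj⟩⟩
        exact mem_biUnion.2 ⟨j, mem_filter.2 ⟨hj, hP⟩, hyj⟩
      · left
        exact mem_sdiff.2 ⟨mem_univ _, hyI⟩
    have h5 : ((M \ ((I.filter P).biUnion C)).card : ℝ) ≤ ((univ \ I.biUnion C).card : ℝ) +
        (((I.filter (fun j => ¬ P j)).biUnion (fun j => M ∩ C j)).card : ℝ) := by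
      exact_mod_cast (card_le_card h4).trans (card_union_le _ _)
    have h6 := sta2_union_le (J := I.filter (fun j => ¬ P j)) (D := fun j => M ∩ C j) hκ'
      (fun j hj => h2 j (mem_filter.1 hj).1 (mem_filter.1 hj).2)
    linarith

omit [Fintype V] in
theorem sta2_card_le (M T : Finset V) : (M.card : ℝ) ≤ (T.card : ℝ) + ((M \ T).card : ℝ) := by
  have h : M ⊆ T ∪ (M \ T) := by
    intro y hy
    by_cases hT : y ∈ T
    · exact mem_union_left _ hT
    · exact mem_union_right _ (mem_sdiff.2 ⟨hy, hT⟩)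
  exact_mod_cast (card_le_card h).trans (card_union_le _ _)

end Aux

theorem sta2_fin4 : ∀ x : Fin 4, x = 0 ∨ x = 1 ∨ x = 2 ∨ x = 3 := by decide

theorem sta2_fin3 : ∀ x : Fin 3, x = 0 ∨ x = 1 ∨ x = 2 := by decide

set_option maxHeartbeats 2000000 in
theorem stability (ε2 : ℝ) (hε2 : 0 < ε2) (g : ℝ → ℝ) (hg : ∀ t, 0 < t → 0 < g t) :
    ∃ (η μ : ℝ) (T : Finset ℝ), 0 < η ∧ η ≤ 1 / 10 ∧ 0 < μ ∧ μ ≤ 1 / 10 ∧ (∀ t ∈ T, 0 < t) ∧
    ∃ n0 : ℕ, ∀ (V : Type) [Fintype V] [DecidableEq V] (E : Finset (Sym2 V)),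
      n0 ≤ Fintype.card V → Loopless E → (∀ v, Fintype.card V ≤ 2 * deg E v + 1) →
      NE4 E η μ ∨ Ext1 E ε2 ∨ Ext2 E ε2 ∨ ∃ t ∈ T, Ext3 E t (g t) := by
  classical
  obtain ⟨sc, hsc0, hsca, hscG, hpig⟩ := scales (fun t => min (g t) 1 / 12)
    (fun t ht => by have := hg t ht; positivity) (min (ε2 / 12) (1 / 1000)) (by positivity)
  have hmon : ∀ i : Fin 5, sc i.castSucc ≤ sc i.succ := fun i => by
    have h1 := (hscG i).2
    have h2 := hsc0 i.castSucc
    linarith
  have hsmono : Monotone sc := Fin.monotone_iff_le_succ.2 hmon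
  have hs0 : 0 < sc 0 := hsc0 0
  have hs0' : sc 0 ≤ 1 / 1000 := (hsca 0).trans (min_le_right _ _)
  have hcube : sc 0 ^ 3 ≤ sc 0 := by
    have : sc 0 ^ 2 ≤ 1 := by nlinarith
    calc sc 0 ^ 3 = sc 0 ^ 2 * sc 0 := by ring
      _ ≤ 1 * sc 0 := mul_le_mul_of_nonneg_right this hs0.le
      _ = sc 0 := one_mul _
  have hη0 : 0 < sc 0 ^ 3 / 10 ^ 6 := by positivity
  have hη1 : sc 0 ^ 3 / 10 ^ 6 ≤ sc 0 / 10 ^ 6 := by gcongr
  obtain ⟨n0, H⟩ := twin_classes (sc 0 ^ 3 / 10 ^ 6) (sc 0 / 4) hη0 (by linarith)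
  refine ⟨sc 0 ^ 3 / 10 ^ 6, sc 0 / 4, univ.image sc, hη0, by linarith, by positivity, by linarith,
    ?_, max n0 1, ?_⟩
  · intro t ht
    obtain ⟨i, -, rfl⟩ := mem_image.1 ht
    exact hsc0 i
  intro V _ _ E hn hl hdeg
  by_cases hNE : NE4 E (sc 0 ^ 3 / 10 ^ 6) (sc 0 / 4)
  · exact Or.inl hNE
  right
  obtain ⟨C, M, hdis, hcov, hM, hNb⟩ := H V E (le_trans (le_max_left _ _) hn) hl hdeg hNE
  have hn1 : (1:ℝ) ≤ nV V := by
    have : 1 ≤ Fintype.card V := le_trans (le_max_right _ _) hn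
    exact_mod_cast this
  have hnpos : (0:ℝ) < nV V := by linarith
  set η := sc 0 ^ 3 / 10 ^ 6 with hη
  obtain ⟨i0, hi0⟩ := hpig (fun j => ((C j).card : ℝ) / nV V)
  set s := sc i0.castSucc with hs
  set s' := sc i0.succ with hs'
  have hspos : 0 < s := hsc0 _
  have hspos' : 0 < s' := hsc0 _
  have hs0s : sc 0 ≤ s := hsmono (Fin.zero_le _)
  have hss' : 100 * s ≤ s' := (hscG i0).2
  have hsG : s ≤ min (g s') 1 / 12 := (hscG i0).1
  have hsg : 12 * s ≤ g s' := by
    have := min_le_left (g s') 1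
    linarith
  have hsmall : s ≤ 1 / 1000 := (hsca _).trans (min_le_right _ _)
  have hsmall' : s' ≤ 1 / 1000 := (hsca _).trans (min_le_right _ _)
  have hsε : s ≤ ε2 / 12 := (hsca _).trans (min_le_left _ _)
  have hηs : η ≤ s / 10 ^ 6 := hη1.trans (by gcongr)
  -- κ
  set κ := 16 * η / s' with hκ
  have hκ0 : 0 < κ := by positivity
  have hκs : κ ≤ s / 64 := by
    rw [hκ, div_le_iff₀ hspos']
    have h1 : η ≤ s ^ 3 / 10 ^ 6 := by
      rw [hη]; gcongr
    have h2 : s ^ 3 / 10 ^ 6 ≤ s * s / 10 ^ 6 := by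
      have h3 : s ^ 3 ≤ s * s := by nlinarith [mul_pos hspos hspos]
      gcongr
    have h3 : s * (100 * s) ≤ s * s' := mul_le_mul_of_nonneg_left hss' hspos.le
    nlinarith [mul_pos hspos hspos]
  -- the set of large classes
  let I : Finset (Fin 4) := univ.filter fun j => s' ≤ ((C j).card : ℝ) / nV V
  have hI : ∀ j, j ∈ I ↔ s' ≤ ((C j).card : ℝ) / nV V := fun j => by simp [I]
  have hIc : ∀ j, j ∈ I → s' * nV V ≤ ((C j).card : ℝ) := fun j hj => by
    have := (hI j).1 hj
    rwa [le_div_iff₀ hnpos] at this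
  have hIn : ∀ j, j ∉ I → ((C j).card : ℝ) ≤ s * nV V := fun j hj => by
    rcases hi0 j with h | h
    · rw [div_lt_iff₀ hnpos] at h
      exact h.le
    · exact absurd ((hI j).2 h) hj
  have hcardU : ((univ.biUnion C).card : ℝ) = ∑ j, ((C j).card : ℝ) := by
    rw [card_biUnion (fun i _ j _ hij => hdis i j hij)]
    push_cast; rfl
  have hcardI : ((I.biUnion C).card : ℝ) = ∑ j ∈ I, ((C j).card : ℝ) := by
    rw [card_biUnion (fun i _ j _ hij => hdis i j hij)]
    push_cast; rfl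
  have hsplit : ∑ j, ((C j).card : ℝ) = ∑ j ∈ I, ((C j).card : ℝ) + ∑ j ∈ Iᶜ, ((C j).card : ℝ) :=
    (Finset.sum_add_sum_compl I _).symm
  have hcompl : ∑ j ∈ Iᶜ, ((C j).card : ℝ) ≤ Iᶜ.card * (s * nV V) := by
    have := Finset.sum_le_card_nsmul Iᶜ (fun j => ((C j).card : ℝ)) (s * nV V)
      (fun j hj => hIn j (mem_compl.1 hj))
    rwa [nsmul_eq_mul] at this
  have hsn : 0 < s * nV V := by positivity
  have hIne : I.Nonempty := by
    by_contra hcon
    rw [not_nonempty_iff_eq_empty] at hcon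
    rw [hcon] at hcompl
    simp only [compl_empty, card_univ, Fintype.card_fin] at hcompl
    rw [hcardU] at hcov
    push_cast at hcompl
    have h1 : (1 - sc 0 / 4) * nV V ≤ 4 * s * nV V := by linarith
    have h2 := le_of_mul_le_mul_right h1 hnpos
    linarith
  have hIcard : (Iᶜ.card : ℝ) ≤ 3 := by
    have h1 : Iᶜ.card ≤ 3 := by
      rw [card_compl, Fintype.card_fin]
      have := hIne.card_pos
      omega
    exact_mod_cast h1
  have hsumI : (1 - 4 * s) * nV V ≤ ∑ j ∈ I, ((C j).card : ℝ) := by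
    have h1 : ∑ j ∈ Iᶜ, ((C j).card : ℝ) ≤ 3 * (s * nV V) :=
      hcompl.trans (mul_le_mul_of_nonneg_right hIcard hsn.le)
    rw [hcardU, hsplit] at hcov
    have h2 : sc 0 / 4 * nV V ≤ s * nV V := by
      refine mul_le_mul_of_nonneg_right ?_ hnpos.le
      linarith
    nlinarith
  have hsumI' : ∑ j ∈ I, ((C j).card : ℝ) ≤ nV V := by
    rw [← hcardI]
    exact_mod_cast card_le_univ _
  have hout : ((univ \ I.biUnion C).card : ℝ) ≤ 4 * s * nV V := by
    have h1 : (univ \ I.biUnion C).card + (I.biUnion C).card = Fintype.card V := by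
      rw [card_sdiff_add_card_eq_card (subset_univ _), card_univ]
    have h2 : ((univ \ I.biUnion C).card : ℝ) + ((I.biUnion C).card : ℝ) = nV V := by
      exact_mod_cast h1
    rw [hcardI] at h2
    linarith
  -- the relation
  let P : Fin 4 → Fin 4 → Prop := fun i j => ((C j \ M i).card : ℝ) ≤ κ * nV V
  have hzo : ∀ i ∈ I, ∀ j ∈ I,
      (((M i ∩ C j).card : ℝ) ≤ κ * nV V ∧ ((M j ∩ C i).card : ℝ) ≤ κ * nV V) ∨
      (((C j \ M i).card : ℝ) ≤ κ * nV V ∧ ((C i \ M j).card : ℝ) ≤ κ * nV V) := by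
    intro i hi j hj
    refine zero_one E η s' hη0 hspos' ?_ (C i) (C j) (M i) (M j) (hIc i hi) (hIc j hj) hnpos
      (hNb i) (hNb j)
    have h1 : η ≤ s' ^ 2 / 100 := by
      have h2 : η ≤ sc 0 ^ 2 / 10 ^ 6 := by
        rw [hη]
        have : sc 0 ^ 3 ≤ sc 0 ^ 2 := by nlinarith [sq_nonneg (sc 0)]
        gcongr
      have h3 : sc 0 ^ 2 ≤ s' ^ 2 := by
        have : sc 0 ≤ s' := by linarith
        gcongr
      nlinarith
    nlinarith
  have hPn : ∀ i ∈ I, ∀ j ∈ I, ¬ P i j → ((M i ∩ C j).card : ℝ) ≤ κ * nV V := by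
    intro i hi j hj hP
    rcases hzo i hi j hj with h | h
    · exact h.1
    · exact absurd h.1 hP
  have hPs : ∀ i ∈ I, ∀ j ∈ I, P i j → P j i := by
    intro i hi j hj hP
    rcases hzo i hi j hj with h | h
    · exfalso
      have h1 : (C j).card = (C j ∩ M i).card + (C j \ M i).card :=
        (card_inter_add_card_sdiff (C j) (M i)).symm
      rw [inter_comm] at h1
      have h2 : ((C j).card : ℝ) = ((M i ∩ C j).card : ℝ) + ((C j \ M i).card : ℝ) := by
        exact_mod_cast h1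
      have h3 := hIc j hj
      have h4 : ((C j \ M i).card : ℝ) ≤ κ * nV V := hP
      have h5 : s' * nV V ≤ (2 * κ) * nV V := by linarith [h.1]
      have h6 := le_of_mul_le_mul_right h5 hnpos
      linarith
    · exact h.2
  -- rows
  have hrows : ∀ i ∈ I, NbrsLike E (6 * s) (C i) ((I.filter (P i)).biUnion C) ∧
      (1 / 2 - 5 * s) * nV V ≤ (((I.filter (P i)).biUnion C).card : ℝ) ∧
      (((I.filter (P i)).biUnion C).card : ℝ) ≤ (1 / 2 + 5 * s) * nV V := by
    intro i hi
    obtain ⟨h1, h2⟩ := sta2_row (C := C) (M := M i) (I := I) (P := P i) hκ0.le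
      (fun j _ h => h) (fun j hj h => hPn i hi j hj h) hout
    have hne : (C i).Nonempty := by
      rw [← card_pos]
      have := hIc i hi
      have h3 : (0:ℝ) < (C i).card := lt_of_lt_of_le (by positivity) this
      exact_mod_cast h3
    obtain ⟨h3, h4⟩ := hM i hne
    have h5 : 4 * κ * nV V ≤ (4 * s + 4 * κ) * nV V :=
      mul_le_mul_of_nonneg_right (by linarith) hnpos.le
    refine ⟨sta2_mono (sta2_change (hNb i) (h1.trans h5) h2) (by linarith), ?_, ?_⟩
    · have h6 := sta2_card_le (M i) ((I.filter (P i)).biUnion C)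
      have h7 : (2 * η + (4 * s + 4 * κ)) * nV V ≤ 5 * s * nV V :=
        mul_le_mul_of_nonneg_right (by linarith) hnpos.le
      linarith
    · have h6 := sta2_card_le ((I.filter (P i)).biUnion C) (M i)
      have h7 : (2 * η + (4 * s + 4 * κ)) * nV V ≤ 5 * s * nV V :=
        mul_le_mul_of_nonneg_right (by linarith) hnpos.le
      linarith
  have hTsum : ∀ i, ∑ j ∈ I.filter (P i), ((C j).card : ℝ) / nV V =
      (((I.filter (P i)).biUnion C).card : ℝ) / nV V := by
    intro i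
    rw [← Finset.sum_div, card_biUnion (fun i _ j _ hij => hdis i j hij)]
    push_cast; rfl
  obtain ⟨k, f, hf, hk1, hk2⟩ := classify s hspos hsmall I (fun j => ((C j).card : ℝ) / nV V)
    (fun i hi => by
      have := (hI i).1 hi
      linarith)
    (by rw [← Finset.sum_div, le_div_iff₀ hnpos]; exact hsumI)
    (by rw [← Finset.sum_div, div_le_iff₀ hnpos, one_mul]; exact hsumI')
    P hPs
    (fun i hi => by rw [hTsum i, le_div_iff₀ hnpos]; exact (hrows i hi).2.1)
    (fun i hi => by rw [hTsum i, div_le_iff₀ hnpos]; exact (hrows i hi).2.2)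
  have hdisAB : Disjoint ((I.filter (fun j => f j = 0)).biUnion C)
      ((I.filter (fun j => f j = 1)).biUnion C) := by
    rw [disjoint_biUnion_left]
    intro i hi
    rw [disjoint_biUnion_right]
    intro j hj
    refine hdis i j ?_
    rintro rfl
    have h1 := (mem_filter.1 hi).2
    have h2 := (mem_filter.1 hj).2
    rw [h1] at h2
    exact absurd h2 (by decide)
  have hε5 : 5 * s ≤ ε2 := by linarith
  have hε6 : 6 * s ≤ ε2 := by linarith
  have hmul5 : (1 / 2 - ε2) * nV V ≤ (1 / 2 - 5 * s) * nV V :=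
    mul_le_mul_of_nonneg_right (by linarith) hnpos.le
  have hk : k = 0 ∨ k = 1 ∨ k = 2 := sta2_fin3 k
  rcases hk with rfl | rfl | rfl
  · -- two cliques
    left
    obtain ⟨h01, ⟨i, hi, hfi⟩, ⟨j, hj, hfj⟩⟩ := hk1 (by decide)
    have hT : ∀ i ∈ I, ∀ a : Fin 4, f i = a →
        (I.filter (P i)).biUnion C = (I.filter (fun j => f j = a)).biUnion C := by
      intro i hi a ha
      congr 1
      refine filter_congr fun j hj => ?_
      rw [hf i hi j hj]
      unfold Pat
      rw [ha]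
      constructor
      · rintro (⟨-, h⟩ | ⟨h, -⟩ | ⟨h, -⟩)
        · exact h.symm
        · exact absurd h (by decide)
        · exact absurd h (by decide)
      · intro h
        exact Or.inl ⟨rfl, h.symm⟩
    refine ⟨(I.filter (fun j => f j = 0)).biUnion C, (I.filter (fun j => f j = 1)).biUnion C,
      hdisAB, ?_, ?_, ?_, ?_⟩
    · rw [← hT i hi 0 hfi]; exact hmul5.trans (hrows i hi).2.1
    · rw [← hT j hj 1 hfj]; exact hmul5.trans (hrows j hj).2.1
    · refine sta2_biUnion fun l hl => ?_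
      obtain ⟨hl1, hl2⟩ := mem_filter.1 hl
      have := (hrows l hl1).1
      rw [hT l hl1 0 hl2] at this
      exact sta2_mono this hε6
    · refine sta2_biUnion fun l hl => ?_
      obtain ⟨hl1, hl2⟩ := mem_filter.1 hl
      have := (hrows l hl1).1
      rw [hT l hl1 1 hl2] at this
      exact sta2_mono this hε6
  · -- bipartite
    right; left
    obtain ⟨h01, ⟨i, hi, hfi⟩, ⟨j, hj, hfj⟩⟩ := hk1 (by decide)
    have hT : ∀ i ∈ I, ∀ a b : Fin 4, f i = a → ((a = 0 ∧ b = 1) ∨ (a = 1 ∧ b = 0)) →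
        (I.filter (P i)).biUnion C = (I.filter (fun j => f j = b)).biUnion C := by
      intro i hi a b ha hab
      congr 1
      refine filter_congr fun j hj => ?_
      rw [hf i hi j hj]
      unfold Pat
      rw [ha]
      have hj01 := h01 j hj
      constructor
      · rintro (⟨h, -⟩ | ⟨-, h⟩ | ⟨h, -⟩)
        · exact absurd h (by decide)
        · rcases hab with ⟨rfl, rfl⟩ | ⟨rfl, rfl⟩
          · rcases hj01 with h1 | h1
            · exact absurd h1.symm h
            · exact h1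
          · rcases hj01 with h1 | h1
            · exact h1
            · exact absurd h1.symm h
        · exact absurd h (by decide)
      · intro h
        refine Or.inr (Or.inl ⟨rfl, ?_⟩)
        rw [h]
        rcases hab with ⟨rfl, rfl⟩ | ⟨rfl, rfl⟩ <;> decide
    refine ⟨(I.filter (fun j => f j = 0)).biUnion C, (I.filter (fun j => f j = 1)).biUnion C,
      hdisAB, ?_, ?_, ?_, ?_⟩
    · rw [← hT j hj 1 0 hfj (Or.inr ⟨rfl, rfl⟩)]; exact hmul5.trans (hrows j hj).2.1
    · rw [← hT i hi 0 1 hfi (Or.inl ⟨rfl, rfl⟩)]; exact hmul5.trans (hrows i hi).2.1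
    · refine sta2_biUnion fun l hl => ?_
      obtain ⟨hl1, hl2⟩ := mem_filter.1 hl
      have := (hrows l hl1).1
      rw [hT l hl1 0 1 hl2 (Or.inl ⟨rfl, rfl⟩)] at this
      exact sta2_mono this hε6
    · refine sta2_biUnion fun l hl => ?_
      obtain ⟨hl1, hl2⟩ := mem_filter.1 hl
      have := (hrows l hl1).1
      rw [hT l hl1 1 0 hl2 (Or.inr ⟨rfl, rfl⟩)] at this
      exact sta2_mono this hε6
  · -- path with loops
    right; right
    obtain ⟨hIu, hbij⟩ := hk2 rfl
    refine ⟨s', mem_image.2 ⟨_, mem_univ _, rfl⟩, ?_⟩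
    let φ := Equiv.ofBijective f hbij
    have hφ : ∀ m, f (φ.symm m) = m := fun m => Equiv.ofBijective_apply_symm_apply f hbij m
    have hφ' : ∀ i, φ.symm (f i) = i := fun i => Equiv.ofBijective_symm_apply_apply f hbij i
    have hmem : ∀ i, i ∈ I := fun i => by rw [hIu]; exact mem_univ _
    have hD : ∀ m m' : Fin 4, m ≠ m' → Disjoint (C (φ.symm m)) (C (φ.symm m')) := by
      intro m m' hmm
      exact hdis _ _ (fun h => hmm (φ.symm.injective h))
    have hTm : ∀ m, NbrsLike E (g s') (C (φ.symm m))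
        ((univ.filter (fun b => Pat 2 m b)).biUnion (fun b => C (φ.symm b))) := by
      intro m
      have h1 := (hrows (φ.symm m) (hmem _)).1
      have h2 : (I.filter (P (φ.symm m))).biUnion C =
          (univ.filter (fun b => Pat 2 m b)).biUnion (fun b => C (φ.symm b)) := by
        ext y
        simp only [mem_biUnion, mem_filter, mem_univ, true_and]
        constructor
        · rintro ⟨j, ⟨-, hj⟩, hy⟩
          refine ⟨f j, ?_, by rw [hφ']; exact hy⟩
          have := (hf _ (hmem (φ.symm m)) j (hmem j)).1 hj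
          rwa [hφ] at this
        · rintro ⟨b, hb, hy⟩
          refine ⟨φ.symm b, ⟨hmem _, ?_⟩, hy⟩
          rw [hf _ (hmem _) _ (hmem _), hφ, hφ]
          exact hb
      rw [h2] at h1
      exact sta2_mono h1 (by linarith)
    have hT0 : (univ.filter (fun b => Pat 2 0 b)).biUnion (fun b => C (φ.symm b)) =
        C (φ.symm 0) ∪ C (φ.symm 1) := by
      have : (univ.filter (fun b => Pat 2 0 b)) = {0, 1} := by
        ext b; fin_cases b <;> simp [Pat]
      rw [this, biUnion_insert, singleton_biUnion]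
    have hT1 : (univ.filter (fun b => Pat 2 1 b)).biUnion (fun b => C (φ.symm b)) =
        C (φ.symm 0) ∪ C (φ.symm 2) := by
      have : (univ.filter (fun b => Pat 2 1 b)) = {0, 2} := by
        ext b; fin_cases b <;> simp [Pat]
      rw [this, biUnion_insert, singleton_biUnion]
    have hT2 : (univ.filter (fun b => Pat 2 2 b)).biUnion (fun b => C (φ.symm b)) =
        C (φ.symm 1) ∪ C (φ.symm 3) := by
      have : (univ.filter (fun b => Pat 2 2 b)) = {1, 3} := by
        ext b; fin_cases b <;> simp [Pat]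
      rw [this, biUnion_insert, singleton_biUnion]
    have hT3 : (univ.filter (fun b => Pat 2 3 b)).biUnion (fun b => C (φ.symm b)) =
        C (φ.symm 2) ∪ C (φ.symm 3) := by
      have : (univ.filter (fun b => Pat 2 3 b)) = {2, 3} := by
        ext b; fin_cases b <;> simp [Pat]
      rw [this, biUnion_insert, singleton_biUnion]
    refine ⟨C (φ.symm 0), C (φ.symm 1), C (φ.symm 2), C (φ.symm 3), hD _ _ (by decide),
      hD _ _ (by decide), hD _ _ (by decide), hD _ _ (by decide), hD _ _ (by decide),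
      hD _ _ (by decide), hIc _ (hmem _), hIc _ (hmem _), hIc _ (hmem _), hIc _ (hmem _), ?_,
      by rw [← hT0]; exact hTm 0, by rw [← hT1]; exact hTm 1, by rw [← hT2]; exact hTm 2,
      by rw [← hT3]; exact hTm 3⟩
    have hsub : univ.biUnion C ⊆ C (φ.symm 0) ∪ C (φ.symm 1) ∪ C (φ.symm 2) ∪ C (φ.symm 3) := by
      intro y hy
      obtain ⟨j, -, hyj⟩ := mem_biUnion.1 hy
      rw [← hφ' j] at hyj
      have hfj : f j = 0 ∨ f j = 1 ∨ f j = 2 ∨ f j = 3 := sta2_fin4 (f j)
      simp only [mem_union]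
      rcases hfj with h | h | h | h <;> rw [h] at hyj
      · exact Or.inl (Or.inl (Or.inl hyj))
      · exact Or.inl (Or.inl (Or.inr hyj))
      · exact Or.inl (Or.inr hyj)
      · exact Or.inr hyj
    have h1 : ((univ.biUnion C).card : ℝ) ≤
        ((C (φ.symm 0) ∪ C (φ.symm 1) ∪ C (φ.symm 2) ∪ C (φ.symm 3)).card : ℝ) := by
      exact_mod_cast card_le_card hsub
    refine le_trans ?_ (hcov.trans h1)
    exact mul_le_mul_of_nonneg_right (by linarith) hnpos.le

end H15C6
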