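import Pool.Agent.H15.C6.STA2
import Pool.Agent.H15.C6.NEQ
import Pool.Agent.H15.C6.E1D
import Pool.Agent.H15.C6.E2C
import Pool.Agent.H15.C6.E3C

/-!
Module UPPER.  The upper bound.  `ε2 := min` of the constants of `ext1_dec`, `ext2_dec`; `g t :=` the constant of
`ext3_dec t` for `t > 0` (choice), `1` otherwise; `stability ε2 g`; `n0` = maximum of all the `n0`'s
(for `t ∈ T`, a finite set).
-/

open Finset

namespace H15C6

theorem upper_nbrs {V : Type} [Fintype V] [DecidableEq V] {E : Finset (Sym2 V)} {ε ε' : ℝ}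
    (h : ε ≤ ε') {A T : Finset V} (hA : NbrsLike E ε A T) : NbrsLike E ε' A T := by
  intro a ha
  have h1 : ε * nV V ≤ ε' * nV V := mul_le_mul_of_nonneg_right h (Nat.cast_nonneg _)
  exact ⟨(hA a ha).1.trans h1, (hA a ha).2.trans h1⟩

theorem upper_ext1 {V : Type} [Fintype V] [DecidableEq V] {E : Finset (Sym2 V)} {ε ε' : ℝ}
    (h : ε ≤ ε') (hE : Ext1 E ε) : Ext1 E ε' := by
  obtain ⟨A, B, h1, h2, h3, h4, h5⟩ := hE
  have h0 : (1 / 2 - ε') * nV V ≤ (1 / 2 - ε) * nV V :=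
    mul_le_mul_of_nonneg_right (by linarith) (Nat.cast_nonneg _)
  exact ⟨A, B, h1, h0.trans h2, h0.trans h3, upper_nbrs h h4, upper_nbrs h h5⟩

theorem upper_ext2 {V : Type} [Fintype V] [DecidableEq V] {E : Finset (Sym2 V)} {ε ε' : ℝ}
    (h : ε ≤ ε') (hE : Ext2 E ε) : Ext2 E ε' := by
  obtain ⟨A, B, h1, h2, h3, h4, h5⟩ := hE
  have h0 : (1 / 2 - ε') * nV V ≤ (1 / 2 - ε) * nV V :=
    mul_le_mul_of_nonneg_right (by linarith) (Nat.cast_nonneg _)
  exact ⟨A, B, h1, h0.trans h2, h0.trans h3, upper_nbrs h h4, upper_nbrs h h5⟩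

theorem upper : ∃ n0 : ℕ, ∀ (V : Type) [Fintype V] [DecidableEq V] (E : Finset (Sym2 V)),
    n0 ≤ Fintype.card V → Loopless E → EvenDeg E → 6 ∣ E.card →
    (∀ v, Fintype.card V ≤ 2 * deg E v + 1) →
    ((Fintype.card V % 24 ≠ 5 ∧ Fintype.card V % 24 ≠ 13) ∨ ∀ v, Fintype.card V ≤ 2 * deg E v) →
    Dec E := by
  classical
  obtain ⟨e1, he1, n1, hn1⟩ := ext1_dec
  obtain ⟨e2, he2, n2, hn2⟩ := ext2_dec
  have h3 : ∀ t : ℝ, ∃ ε : ℝ, 0 < ε ∧ ∃ n0 : ℕ, 0 < t →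
      ∀ (V : Type) [Fintype V] [DecidableEq V] (E : Finset (Sym2 V)),
      n0 ≤ Fintype.card V → Loopless E → EvenDeg E → 6 ∣ E.card →
      (∀ v, Fintype.card V ≤ 2 * deg E v + 1) → Ext3 E t ε → Dec E := by
    intro t
    by_cases ht : 0 < t
    · obtain ⟨ε, hε, n0, hn0⟩ := ext3_dec t ht
      exact ⟨ε, hε, n0, fun _ => hn0⟩
    · exact ⟨1, one_pos, 0, fun h => absurd h ht⟩
  choose g hg n3 hn3 using h3
  obtain ⟨η, μ, T, hη, hη', hμ, hμ', hT, n4, hn4⟩ :=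
    stability (min e1 e2) (lt_min he1 he2) g (fun t _ => hg t)
  obtain ⟨n5, hn5⟩ := ne4_dec η μ hη hη' hμ hμ'
  refine ⟨max (max n1 n2) (max (max n4 n5) (T.sup n3)), ?_⟩
  intro V _ _ E hn hl hev h6 hdeg h24
  have hN1 : n1 ≤ Fintype.card V := (le_max_left _ _).trans ((le_max_left _ _).trans hn)
  have hN2 : n2 ≤ Fintype.card V := (le_max_right _ _).trans ((le_max_left _ _).trans hn)
  have hN4 : n4 ≤ Fintype.card V :=
    (le_max_left _ _).trans ((le_max_left _ _).trans ((le_max_right _ _).trans hn))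
  have hN5 : n5 ≤ Fintype.card V :=
    (le_max_right _ _).trans ((le_max_left _ _).trans ((le_max_right _ _).trans hn))
  have hN3 : T.sup n3 ≤ Fintype.card V :=
    (le_max_right _ _).trans ((le_max_right _ _).trans hn)
  rcases hn4 V E hN4 hl hdeg with h | h | h | ⟨t, ht, h⟩
  · exact hn5 V E hN5 hl hev h6 hdeg h
  · exact hn1 V E hN1 hl hev h6 hdeg h24 (upper_ext1 (min_le_left _ _) h)
  · exact hn2 V E hN2 hl hev h6 hdeg (upper_ext2 (min_le_right _ _) h)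
  · exact hn3 t (hT t ht) V E ((Finset.le_sup ht).trans hN3) hl hev h6 hdeg h

end H15C6
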