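import Pool.Agent.H15.C6.INH

/-!
Module VX.  One step of the vortex.

Let `s = |U1|`.  Apply `P4_inherit` with `κ = Fin K × Fin L`, `S = U1`, `t = s^(3/4)`:
`exp(-(t^2)/(4s)) = exp(-√s/4)` and `|U| ≤ 2 L s`, so the numerical hypothesis holds for `s ≥ s0`.
`U2 := {u ∈ U1 : (τ u).2 = 0}` (fix the element `0 : Fin L`), `χ u := (τ u).1` for `u ∈ U1`; on
`U \ U1` choose any balanced colouring (e.g. via an equivalence with `Fin m` and `mod K`): every
class has at most `|U|/K + 1 ≤ 2|U|/K` elements.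
* `| |U2| - s/L | ≤ K t`, hence `s ≤ 2 L |U2|` and `L |U2| ≤ 2 s` for large `s`;
* `P4 E U2 x y ≥ ∑_{k1,k2,k3} P4k (k1,0)(k2,0)(k3,0) ≥ P4 E U1 x y / L^3 - 3 K^3 t s^2
   ≥ h s^3/L^3 - 3 K^3 t s^2 ≥ (h - C s^(-1/4)) |U2|^3` because `|U2|^3 ≤ (s/L + K t)^3`;
* for colours `k, k'`: `P4c E (U1 \ U2) χ k k' x y ≥ ∑_{l1,l2,l3 ≠ 0} ∑_{k2} P4k (k,l1)(k2,l2)(k',l3)
   ≥ ((L-1)/L)^3 h s^3/K^2 - 3 (L-1)^3 K t s^2 ≥ h/16 * s^3/K^2`;
* `#{u ∈ U1 \ U2 : χ u = k} ≤ s/K + L t ≤ 2 s/K`.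
-/

open Finset

namespace H15C6

theorem vx_sum_card_le {α β : Type} [DecidableEq α] [DecidableEq β] (T : Finset α) (J : Finset β)
    (f : α → β) (P : β → Finset α) (hP : ∀ j ∈ J, ∀ t ∈ P j, t ∈ T ∧ f t = j) :
    ∑ j ∈ J, (P j).card ≤ T.card := by
  calc ∑ j ∈ J, (P j).card ≤ ∑ j ∈ J, (T.filter (fun i => f i = j)).card := by
        apply Finset.sum_le_sum
        intro j hj
        apply Finset.card_le_card
        intro t ht
        rw [Finset.mem_filter]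
        exact hP j hj t ht
    _ = (T.filter (fun i => f i ∈ J)).card := Finset.sum_card_fiberwise_eq_card_filter T J f
    _ ≤ T.card := Finset.card_filter_le _ _

theorem vx_mul_le {α β : Type} [DecidableEq α] [DecidableEq β] (T : Finset α) (J : Finset β)
    (f : α → β) (P : β → Finset α) (hP : ∀ j ∈ J, ∀ t ∈ P j, t ∈ T ∧ f t = j) (b : ℝ)
    (hb : ∀ j ∈ J, b ≤ ((P j).card : ℝ)) :
    (J.card : ℝ) * b ≤ (T.card : ℝ) := by
  have h1 : (∑ j ∈ J, ((P j).card : ℝ)) ≤ (T.card : ℝ) := by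
    exact_mod_cast vx_sum_card_le T J f P hP
  have h2 : ∑ j ∈ J, b ≤ ∑ j ∈ J, ((P j).card : ℝ) := Finset.sum_le_sum hb
  rw [Finset.sum_const, nsmul_eq_mul] at h2
  exact h2.trans h1

theorem vx_num (A B : ℝ) (hA : 0 ≤ A) (hB : 0 ≤ B) :
    ∃ r0 : ℝ, ∀ r : ℝ, r0 ≤ r → A * r ^ 8 + B < Real.exp (r ^ 2 / 4) := by
  refine ⟨122880 * (A + B) + 1, ?_⟩
  intro r hr
  have hr1 : 1 ≤ r := by linarith
  have h1 : (r ^ 2 / 4) ^ 5 / (Nat.factorial 5 : ℝ) ≤ Real.exp (r ^ 2 / 4) :=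
    Real.pow_div_factorial_le_exp (r ^ 2 / 4) (by positivity) 5
  have h2 : (r ^ 2 / 4) ^ 5 / (Nat.factorial 5 : ℝ) = r ^ 10 / 122880 := by
    have : (Nat.factorial 5 : ℝ) = 120 := by norm_num [Nat.factorial]
    rw [this]; ring
  rw [h2] at h1
  refine lt_of_lt_of_le ?_ h1
  have h3 : 1 ≤ r ^ 8 := one_le_pow₀ hr1
  have h4 : r ≤ r ^ 2 := by first | linarith | nlinarith
  have h5 : (122880 * (A + B) + 1) ≤ r ^ 2 := hr.trans h4
  have h6 : r ^ 10 = r ^ 2 * r ^ 8 := by ring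
  rw [h6, lt_div_iff₀ (by norm_num)]
  have h7 : (122880 * (A + B) + 1) * r ^ 8 ≤ r ^ 2 * r ^ 8 := by
    apply mul_le_mul_of_nonneg_right h5 (by positivity)
  nlinarith [mul_le_mul_of_nonneg_left h3 hB]

/-- balanced colouring of a finite set -/
theorem vx_balanced {V : Type} [DecidableEq V] (W : Finset V) (K : ℕ) (hK : 0 < K) :
    ∃ χ : V → Fin K, ∀ k : Fin K,
      ((W.filter (fun u => χ u = k)).card : ℝ) ≤ W.card / K + 1 := by
  classical
  let e := W.equivFin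
  refine ⟨fun u => if hu : u ∈ W then ⟨(e ⟨u, hu⟩ : ℕ) % K, Nat.mod_lt _ hK⟩ else ⟨0, hK⟩, ?_⟩
  intro k
  have h1 : (W.filter (fun u => (if hu : u ∈ W then (⟨(e ⟨u, hu⟩ : ℕ) % K, Nat.mod_lt _ hK⟩ : Fin K)
      else ⟨0, hK⟩) = k)).card ≤ ((Finset.range W.card).filter (fun i => i % K = k)).card := by
    apply Finset.card_le_card_of_injOn (fun u => if hu : u ∈ W then (e ⟨u, hu⟩ : ℕ) else 0)
    · intro u hu
      obtain ⟨hu1, hu2⟩ := Finset.mem_filter.1 (Finset.mem_coe.1 hu)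
      rw [dif_pos hu1] at hu2
      simp only [dif_pos hu1]
      refine Finset.mem_coe.2 (Finset.mem_filter.2 ⟨Finset.mem_range.2 (e ⟨u, hu1⟩).2, ?_⟩)
      rw [← hu2]
    · intro u hu v hv huv
      obtain ⟨hu1, hu2⟩ := Finset.mem_filter.1 (Finset.mem_coe.1 hu)
      obtain ⟨hv1, hv2⟩ := Finset.mem_filter.1 (Finset.mem_coe.1 hv)
      simp only [dif_pos hu1, dif_pos hv1] at huv
      have := e.injective (Fin.ext huv)
      exact congrArg Subtype.val this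
  have h2 : ((Finset.range W.card).filter (fun i => i % K = k)).card ≤ W.card / K + 1 := by
    calc ((Finset.range W.card).filter (fun i => i % K = k)).card
        ≤ (Finset.range (W.card / K + 1)).card := by
          apply Finset.card_le_card_of_injOn (fun i => i / K)
          · intro i hi
            obtain ⟨hi1, hi2⟩ := Finset.mem_filter.1 (Finset.mem_coe.1 hi)
            rw [Finset.mem_range] at hi1
            refine Finset.mem_coe.2 (Finset.mem_range.2 ?_)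
            exact Nat.lt_succ_of_le (Nat.div_le_div_right hi1.le)
          · intro i hi j hj hij
            obtain ⟨hi1, hi2⟩ := Finset.mem_filter.1 (Finset.mem_coe.1 hi)
            obtain ⟨hj1, hj2⟩ := Finset.mem_filter.1 (Finset.mem_coe.1 hj)
            simp only at hij
            rw [← Nat.div_add_mod i K, ← Nat.div_add_mod j K, hi2, hj2, hij]
      _ = W.card / K + 1 := Finset.card_range _
  have h3 : ((W.card / K : ℕ) : ℝ) ≤ (W.card : ℝ) / K := Nat.cast_div_le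
  have h4 : ((W.filter (fun u => (if hu : u ∈ W then
      (⟨(e ⟨u, hu⟩ : ℕ) % K, Nat.mod_lt _ hK⟩ : Fin K)
      else ⟨0, hK⟩) = k)).card : ℝ) ≤ ((W.card / K : ℕ) : ℝ) + 1 := by
    exact_mod_cast h1.trans h2
  linarith

theorem vortex_step (L K : ℕ) (hL : 3 ≤ L) (hK : 1 ≤ K) (h0 : ℝ) (hh0 : 0 < h0) :
    ∃ C : ℝ, 0 < C ∧ ∃ s0 : ℕ, ∀ (V : Type) [DecidableEq V] (U U1 : Finset V)
      (E : Finset (Sym2 V)) (R : V → V → Prop) (h : ℝ), h0 ≤ h → h ≤ 1 → U1 ⊆ U →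
      s0 ≤ U1.card → (U.card : ℝ) ≤ 2 * L * U1.card →
      (∀ x ∈ U, ∀ y ∈ U, R x y → h * (U1.card : ℝ) ^ 3 ≤ (P4 E U1 x y : ℝ)) →
      ∃ U2 ⊆ U1, ∃ χ : V → Fin K,
        (U1.card : ℝ) ≤ 2 * L * U2.card ∧ (L : ℝ) * U2.card ≤ 2 * U1.card ∧
        (∀ x ∈ U, ∀ y ∈ U, R x y →
          (h - C * (U1.card : ℝ) ^ (-(1 / 4 : ℝ))) * (U2.card : ℝ) ^ 3 ≤ (P4 E U2 x y : ℝ)) ∧
        (∀ x ∈ U, ∀ y ∈ U, R x y → ∀ k k' : Fin K,
          h / 16 * (U1.card : ℝ) ^ 3 / (K : ℝ) ^ 2 ≤ (P4c E (U1 \ U2) χ k k' x y : ℝ)) ∧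
        (∀ k : Fin K, (((U1 \ U2).filter (fun u => χ u = k)).card : ℝ) ≤ 2 * U1.card / K) ∧
        (∀ k : Fin K, (((U \ U1).filter (fun u => χ u = k)).card : ℝ) ≤ 2 * U.card / K) := by
  have hK0 : 0 < K := hK
  have hL0 : 0 < L := by omega
  have hKr : (1 : ℝ) ≤ K := by exact_mod_cast hK
  have hLr : (3 : ℝ) ≤ L := by exact_mod_cast hL
  obtain ⟨r0, hr0⟩ := vx_num (24 * (L : ℝ) ^ 2 * (K * L)) (2 * (K * L)) (by positivity) (by positivity)
  have hten : Filter.Tendsto (fun s : ℕ => (s : ℝ) ^ (1 / 4 : ℝ)) Filter.atTop Filter.atTop :=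
    (tendsto_rpow_atTop (by norm_num)).comp tendsto_natCast_atTop_atTop
  obtain ⟨s0, hs0⟩ := Filter.eventually_atTop.1
    (hten.eventually_ge_atTop (max r0 (2 * K * L + 24 * L ^ 3 * K ^ 3 / h0 + 1)))
  refine ⟨7 * K * L + 3 * K ^ 3 * L ^ 3, by positivity, s0, ?_⟩
  intro V _ U U1 E R h hh1 hh2 hU hs hUs hP
  obtain ⟨r, hrdef⟩ : ∃ r : ℝ, r = (U1.card : ℝ) ^ (1 / 4 : ℝ) := ⟨_, rfl⟩
  have hr := hs0 U1.card hs
  rw [← hrdef] at hr
  have hrr0 : r0 ≤ r := (le_max_left _ _).trans hr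
  have hr2 : 2 * K * L + 24 * L ^ 3 * K ^ 3 / h0 + 1 ≤ r := (le_max_right _ _).trans hr
  have hq : 0 ≤ 24 * (L : ℝ) ^ 3 * K ^ 3 / h0 := by positivity
  have hKL0 : 0 ≤ 2 * (K : ℝ) * L := by positivity
  have hr1 : 1 ≤ r := by linarith
  have hrpos : 0 < r := by linarith
  have hrKL : 2 * K * L ≤ r := by linarith
  have hrh : 24 * (L : ℝ) ^ 3 * K ^ 3 / h0 ≤ r := by linarith
  have hrh' : 24 * (L : ℝ) ^ 3 * K ^ 3 ≤ h0 * r := by
    rw [div_le_iff₀ hh0] at hrh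
    linarith
  have hs4 : (U1.card : ℝ) = r ^ 4 := by
    rw [hrdef, ← Real.rpow_natCast, ← Real.rpow_mul (Nat.cast_nonneg _)]
    norm_num
  have hrm : (U1.card : ℝ) ^ (-(1 / 4 : ℝ)) = r⁻¹ := by
    rw [Real.rpow_neg (Nat.cast_nonneg _), ← hrdef]
  have hspos : 0 < (U1.card : ℝ) := by rw [hs4]; positivity
  have : Nonempty (Fin K × Fin L) := ⟨(⟨0, hK0⟩, ⟨0, hL0⟩)⟩
  have hcardκ : (Fintype.card (Fin K × Fin L) : ℝ) = K * L := by
    simp
  -- the numerical hypothesis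
  have hnum : 2 * (3 * (U.card : ℝ) ^ 2 + 1) * (Fintype.card (Fin K × Fin L) : ℝ) *
      Real.exp (-((r ^ 3) ^ 2) / (4 * (U1.card : ℝ))) < 1 := by
    rw [hcardκ, hs4]
    have h1 : -((r ^ 3) ^ 2) / (4 * r ^ 4) = -(r ^ 2 / 4) := by
      field_simp
    rw [h1, Real.exp_neg, ← div_eq_mul_inv, div_lt_one (Real.exp_pos _)]
    refine lt_of_le_of_lt ?_ (hr0 r hrr0)
    have h2 : (U.card : ℝ) ^ 2 ≤ 4 * L ^ 2 * r ^ 8 := by
      have h3 : (U.card : ℝ) ^ 2 ≤ (2 * L * U1.card) ^ 2 :=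
        pow_le_pow_left₀ (Nat.cast_nonneg _) hUs 2
      rw [hs4] at h3
      refine h3.trans (le_of_eq ?_)
      ring
    have h4 : 0 ≤ (K : ℝ) * L := by positivity
    nlinarith [mul_le_mul_of_nonneg_right h2 h4]
  obtain ⟨τ, hτ1, hτ2⟩ := P4_inherit U U1 hU E (r ^ 3) (by positivity) hnum
  rw [hcardκ] at hτ1 hτ2
  set z : Fin L := ⟨0, hL0⟩ with hz
  obtain ⟨χ0, hχ0⟩ := vx_balanced (U \ U1) K hK0
  set U2 : Finset V := U1.filter (fun u => (τ u).2 = z) with hU2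
  set χ : V → Fin K := fun u => if u ∈ U1 then (τ u).1 else χ0 u with hχ
  have hU2U1 : U2 ⊆ U1 := Finset.filter_subset _ _
  have hmem1 : ∀ u, u ∈ U1 \ U2 ↔ u ∈ U1 ∧ (τ u).2 ≠ z := by
    intro u
    rw [Finset.mem_sdiff, hU2, Finset.mem_filter]
    tauto
  have hχ1 : ∀ u ∈ U1, χ u = (τ u).1 := by
    intro u hu
    simp only [hχ, if_pos hu]
  -- size of `U2`
  have hcU2 : (U2.card : ℝ) = ∑ k : Fin K, ((U1.filter (fun u => τ u = (k, z))).card : ℝ) := by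
    have h1 : U2.card = ∑ k : Fin K, (U2.filter (fun u => (τ u).1 = k)).card :=
      Finset.card_eq_sum_card_fiberwise (fun _ _ => Finset.mem_coe.2 (Finset.mem_univ _))
    rw [h1, Nat.cast_sum]
    apply Finset.sum_congr rfl
    intro k _
    congr 2
    ext u
    rw [hU2, Finset.mem_filter, Finset.mem_filter, Finset.mem_filter, Prod.ext_iff]
    tauto
  have hupper : ∀ kl : Fin K × Fin L, ((U1.filter (fun u => τ u = kl)).card : ℝ) ≤
      (U1.card : ℝ) / (K * L) + r ^ 3 := by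
    intro kl
    have := (abs_le.1 (hτ1 kl)).2
    linarith
  have hlower : ∀ kl : Fin K × Fin L, (U1.card : ℝ) / (K * L) - r ^ 3 ≤
      ((U1.filter (fun u => τ u = kl)).card : ℝ) := by
    intro kl
    have := (abs_le.1 (hτ1 kl)).1
    linarith
  have hU2up : (U2.card : ℝ) ≤ K * ((U1.card : ℝ) / (K * L) + r ^ 3) := by
    rw [hcU2]
    refine (Finset.sum_le_sum (fun k _ => hupper (k, z))).trans (le_of_eq ?_)
    rw [Finset.sum_const, Finset.card_univ, Fintype.card_fin, nsmul_eq_mul]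
  have hU2lo : K * ((U1.card : ℝ) / (K * L) - r ^ 3) ≤ (U2.card : ℝ) := by
    rw [hcU2]
    refine le_trans (le_of_eq ?_) (Finset.sum_le_sum (fun k _ => hlower (k, z)))
    rw [Finset.sum_const, Finset.card_univ, Fintype.card_fin, nsmul_eq_mul]
  have hKL : (0 : ℝ) < K * L := by positivity
  have hU2up' : (U2.card : ℝ) ≤ r ^ 4 / L + K * r ^ 3 := by
    refine hU2up.trans (le_of_eq ?_)
    rw [hs4]
    field_simp
  have hU2lo' : r ^ 4 / L - K * r ^ 3 ≤ (U2.card : ℝ) := by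
    refine le_trans (le_of_eq ?_) hU2lo
    rw [hs4]
    field_simp
  refine ⟨U2, hU2U1, χ, ?_, ?_, ?_, ?_, ?_, ?_⟩
  · rw [hs4]
    have h1 : 2 * L * (r ^ 4 / L - K * r ^ 3) ≤ 2 * L * (U2.card : ℝ) :=
      mul_le_mul_of_nonneg_left hU2lo' (by positivity)
    refine le_trans ?_ h1
    have h2 : 2 * L * (r ^ 4 / L - K * r ^ 3) = 2 * r ^ 4 - (2 * K * L) * r ^ 3 := by
      field_simp
    rw [h2]
    have h3 : (2 * K * L) * r ^ 3 ≤ r * r ^ 3 := mul_le_mul_of_nonneg_right hrKL (by positivity)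
    linarith
  · rw [hs4]
    have h1 : L * (U2.card : ℝ) ≤ L * (r ^ 4 / L + K * r ^ 3) :=
      mul_le_mul_of_nonneg_left hU2up' (by positivity)
    refine le_trans h1 ?_
    have h2 : L * (r ^ 4 / L + K * r ^ 3) = r ^ 4 + (K * L) * r ^ 3 := by
      field_simp
    rw [h2]
    have h3 : (2 * K * L) * r ^ 3 ≤ r * r ^ 3 := mul_le_mul_of_nonneg_right hrKL (by positivity)
    have h4 : 0 ≤ (K * L) * r ^ 3 := by positivity
    linarith
  · intro x hx y hy hR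
    rw [hrm]
    have hPxy := hP x hx y hy hR
    -- lower bound of P4 in U2
    have hlow : ((Finset.univ : Finset (Fin K × Fin K × Fin K)).card : ℝ) *
        ((P4 E U1 x y : ℝ) / ((K : ℝ) * L) ^ 3 - 3 * r ^ 3 * (U1.card : ℝ) ^ 2) ≤ (P4 E U2 x y : ℝ) := by
      unfold P4
      refine vx_mul_le _ Finset.univ (fun t : V × V × V => ((τ t.1).1, (τ t.2.1).1, (τ t.2.2).1))
        (fun j => ((U1 ×ˢ U1 ×ˢ U1).filter (fun t => (s(x, t.1) ∈ E ∧ s(t.1, t.2.1) ∈ E ∧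
          s(t.2.1, t.2.2) ∈ E ∧ s(t.2.2, y) ∈ E) ∧ τ t.1 = (j.1, z) ∧ τ t.2.1 = (j.2.1, z) ∧
          τ t.2.2 = (j.2.2, z)))) ?_ _ ?_
      · intro j _ t ht
        simp only [Finset.mem_filter, Finset.mem_product, hU2] at ht ⊢
        obtain ⟨⟨h1, h2, h3⟩, h4, h5, h6, h7⟩ := ht
        rw [h5, h6, h7]
        exact ⟨⟨⟨⟨h1, rfl⟩, ⟨h2, rfl⟩, ⟨h3, rfl⟩⟩, h4⟩, rfl⟩
      · intro j _
        exact hτ2 x hx y hy (j.1, z) (j.2.1, z) (j.2.2, z)
    have hcard3 : ((Finset.univ : Finset (Fin K × Fin K × Fin K)).card : ℝ) = (K : ℝ) ^ 3 := by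
      rw [Finset.card_univ, Fintype.card_prod, Fintype.card_prod, Fintype.card_fin]
      push_cast
      ring
    rw [hcard3] at hlow
    refine le_trans ?_ hlow
    rw [hs4] at hPxy ⊢
    have hb1 : h * r ^ 12 / (L : ℝ) ^ 3 - 3 * K ^ 3 * r ^ 11 ≤ (K : ℝ) ^ 3 *
        ((P4 E U1 x y : ℝ) / ((K : ℝ) * L) ^ 3 - 3 * r ^ 3 * (r ^ 4) ^ 2) := by
      have e1 : (K : ℝ) ^ 3 * ((P4 E U1 x y : ℝ) / ((K : ℝ) * L) ^ 3 - 3 * r ^ 3 * (r ^ 4) ^ 2) =
          (P4 E U1 x y : ℝ) / (L : ℝ) ^ 3 - 3 * K ^ 3 * r ^ 11 := by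
        field_simp
      rw [e1]
      have e2 : h * r ^ 12 / (L : ℝ) ^ 3 ≤ (P4 E U1 x y : ℝ) / (L : ℝ) ^ 3 := by
        apply div_le_div_of_nonneg_right _ (by positivity)
        calc h * r ^ 12 = h * (r ^ 4) ^ 3 := by ring
          _ ≤ _ := hPxy
      linarith
    refine le_trans ?_ hb1
    by_cases hneg : h - (7 * K * L + 3 * K ^ 3 * L ^ 3) * r⁻¹ ≤ 0
    · have hl : (h - (7 * K * L + 3 * K ^ 3 * L ^ 3) * r⁻¹) * (U2.card : ℝ) ^ 3 ≤ 0 :=
        mul_nonpos_of_nonpos_of_nonneg hneg (pow_nonneg (Nat.cast_nonneg _) 3)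
      refine hl.trans ?_
      have h1 : 3 * (K : ℝ) ^ 3 * L ^ 3 ≤ h * r := by
        have : h0 * r ≤ h * r := mul_le_mul_of_nonneg_right hh1 hrpos.le
        have h24 : 3 * (K : ℝ) ^ 3 * L ^ 3 ≤ 24 * (L : ℝ) ^ 3 * K ^ 3 := by
          have : 0 ≤ (K : ℝ) ^ 3 * L ^ 3 := by positivity
          linarith
        linarith
      rw [sub_nonneg, le_div_iff₀ (by positivity)]
      have h2 : 3 * (K : ℝ) ^ 3 * r ^ 11 * L ^ 3 = (3 * (K : ℝ) ^ 3 * L ^ 3) * r ^ 11 := by ring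
      have h3 : h * r ^ 12 = (h * r) * r ^ 11 := by ring
      rw [h2, h3]
      exact mul_le_mul_of_nonneg_right h1 (by positivity)
    · rw [not_le] at hneg
      have hc3 : (U2.card : ℝ) ^ 3 ≤ (r ^ 4 / L + K * r ^ 3) ^ 3 :=
        pow_le_pow_left₀ (Nat.cast_nonneg _) hU2up' 3
      refine (mul_le_mul_of_nonneg_left hc3 hneg.le).trans ?_
      -- put `e = r⁻¹`
      have hx0 : 0 ≤ (K : ℝ) * L * r⁻¹ := by positivity
      have hx1 : (K : ℝ) * L * r⁻¹ ≤ 1 := by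
        rw [← div_eq_mul_inv, div_le_one hrpos]
        linarith
      have e1 : (r ^ 4 / L + K * r ^ 3) ^ 3 = r ^ 12 / (L : ℝ) ^ 3 * (1 + K * L * r⁻¹) ^ 3 := by
        field_simp
      have e2 : (1 + (K : ℝ) * L * r⁻¹) ^ 3 ≤ 1 + 7 * (K * L * r⁻¹) := by
        nlinarith [mul_nonneg hx0 hx0, mul_nonneg hx0 (sub_nonneg.2 hx1),
          mul_nonneg (mul_nonneg hx0 hx0) (sub_nonneg.2 hx1)]
      have e3 : (h - (7 * K * L + 3 * K ^ 3 * L ^ 3) * r⁻¹) * (1 + (K : ℝ) * L * r⁻¹) ^ 3 ≤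
          h - 3 * K ^ 3 * L ^ 3 * r⁻¹ := by
        refine (mul_le_mul_of_nonneg_left e2 hneg.le).trans ?_
        have e4 : 0 ≤ (7 * K * L + 3 * K ^ 3 * L ^ 3) * r⁻¹ * (7 * ((K : ℝ) * L * r⁻¹)) := by
          positivity
        have e5 : h * (7 * ((K : ℝ) * L * r⁻¹)) ≤ 1 * (7 * ((K : ℝ) * L * r⁻¹)) :=
          mul_le_mul_of_nonneg_right hh2 (by positivity)
        linarith
      rw [e1]
      have e6 : h * r ^ 12 / (L : ℝ) ^ 3 - 3 * K ^ 3 * r ^ 11 =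
          r ^ 12 / (L : ℝ) ^ 3 * (h - 3 * K ^ 3 * L ^ 3 * r⁻¹) := by
        field_simp
      rw [e6]
      calc (h - (7 * K * L + 3 * K ^ 3 * L ^ 3) * r⁻¹) *
            (r ^ 12 / (L : ℝ) ^ 3 * (1 + K * L * r⁻¹) ^ 3)
          = r ^ 12 / (L : ℝ) ^ 3 * ((h - (7 * K * L + 3 * K ^ 3 * L ^ 3) * r⁻¹) *
            (1 + K * L * r⁻¹) ^ 3) := by ring
        _ ≤ _ := mul_le_mul_of_nonneg_left e3 (by positivity)
  · intro x hx y hy hR k k'
    have hPxy := hP x hx y hy hR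
    set J : Finset (Fin L × Fin K × Fin L × Fin L) :=
      (Finset.univ.erase z) ×ˢ (Finset.univ ×ˢ ((Finset.univ.erase z) ×ˢ (Finset.univ.erase z)))
      with hJ
    have hlow : (J.card : ℝ) *
        ((P4 E U1 x y : ℝ) / ((K : ℝ) * L) ^ 3 - 3 * r ^ 3 * (U1.card : ℝ) ^ 2) ≤
          (P4c E (U1 \ U2) χ k k' x y : ℝ) := by
      unfold P4c
      refine vx_mul_le _ J (fun t : V × V × V => ((τ t.1).2, (τ t.2.1).1, (τ t.2.1).2, (τ t.2.2).2))
        (fun j => ((U1 ×ˢ U1 ×ˢ U1).filter (fun t => (s(x, t.1) ∈ E ∧ s(t.1, t.2.1) ∈ E ∧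
          s(t.2.1, t.2.2) ∈ E ∧ s(t.2.2, y) ∈ E) ∧ τ t.1 = (k, j.1) ∧ τ t.2.1 = (j.2.1, j.2.2.1) ∧
          τ t.2.2 = (k', j.2.2.2)))) ?_ _ ?_
      · intro j hj t ht
        rw [hJ] at hj
        simp only [Finset.mem_product, Finset.mem_erase, Finset.mem_univ, and_true,
          true_and] at hj
        obtain ⟨hj1, hj2, hj3⟩ := hj
        obtain ⟨ht1, h4, h5, h6, h7⟩ := Finset.mem_filter.1 ht
        rw [Finset.mem_product, Finset.mem_product] at ht1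
        obtain ⟨h1, h2, h3⟩ := ht1
        refine ⟨Finset.mem_filter.2 ⟨?_, h4, ?_, ?_⟩, ?_⟩
        · rw [Finset.mem_product, Finset.mem_product, hmem1, hmem1, hmem1, h5, h6, h7]
          exact ⟨⟨h1, hj1⟩, ⟨h2, hj2⟩, ⟨h3, hj3⟩⟩
        · rw [hχ1 _ h1, h5]
        · rw [hχ1 _ h3, h7]
        · simp only [h5, h6, h7]
      · intro j _
        exact hτ2 x hx y hy (k, j.1) (j.2.1, j.2.2.1) (k', j.2.2.2)
    have hJc : (J.card : ℝ) = K * ((L : ℝ) - 1) ^ 3 := by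
      rw [hJ]
      simp only [Finset.card_product, Finset.card_erase_of_mem (Finset.mem_univ z),
        Finset.card_univ, Fintype.card_fin]
      push_cast [Nat.cast_sub (show 1 ≤ L by omega)]
      ring
    rw [hJc] at hlow
    refine le_trans ?_ hlow
    rw [hs4] at hPxy ⊢
    have hL1 : 0 ≤ (L : ℝ) - 1 := by linarith
    have hb1 : K * ((L : ℝ) - 1) ^ 3 * (h * r ^ 12 / ((K : ℝ) * L) ^ 3 - 3 * r ^ 11) ≤
        K * ((L : ℝ) - 1) ^ 3 *
        ((P4 E U1 x y : ℝ) / ((K : ℝ) * L) ^ 3 - 3 * r ^ 3 * (r ^ 4) ^ 2) := by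
      apply mul_le_mul_of_nonneg_left _ (by positivity)
      have e2 : h * r ^ 12 / ((K : ℝ) * L) ^ 3 ≤ (P4 E U1 x y : ℝ) / ((K : ℝ) * L) ^ 3 := by
        apply div_le_div_of_nonneg_right _ (by positivity)
        calc h * r ^ 12 = h * (r ^ 4) ^ 3 := by ring
          _ ≤ _ := hPxy
      have e3 : 3 * r ^ 3 * (r ^ 4) ^ 2 = 3 * r ^ 11 := by ring
      rw [e3]
      linarith
    refine le_trans ?_ hb1
    -- `(L-1)^3 ≥ L^3/4`
    have hL3 : (L : ℝ) ^ 3 / 4 ≤ ((L : ℝ) - 1) ^ 3 := by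
      obtain ⟨w, hw⟩ : ∃ w : ℝ, w = (L : ℝ) - 3 := ⟨_, rfl⟩
      have hw0 : 0 ≤ w := by rw [hw]; linarith
      have hLw : (L : ℝ) = w + 3 := by rw [hw]; ring
      rw [hLw]
      nlinarith [mul_nonneg hw0 hw0, mul_nonneg (mul_nonneg hw0 hw0) hw0]
    have hL3' : ((L : ℝ) - 1) ^ 3 ≤ (L : ℝ) ^ 3 := pow_le_pow_left₀ hL1 (by linarith) 3
    have hinner : 0 ≤ h * r ^ 12 / ((K : ℝ) * L) ^ 3 - 3 * r ^ 11 := by
      rw [sub_nonneg, le_div_iff₀ (by positivity)]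
      have h1 : 3 * (K : ℝ) ^ 3 * L ^ 3 ≤ h * r := by
        have : h0 * r ≤ h * r := mul_le_mul_of_nonneg_right hh1 hrpos.le
        have h24 : 3 * (K : ℝ) ^ 3 * L ^ 3 ≤ 24 * (L : ℝ) ^ 3 * K ^ 3 := by
          have : 0 ≤ (K : ℝ) ^ 3 * L ^ 3 := by positivity
          linarith
        linarith
      have h2 : 3 * r ^ 11 * ((K : ℝ) * L) ^ 3 = (3 * (K : ℝ) ^ 3 * L ^ 3) * r ^ 11 := by ring
      have h3 : h * r ^ 12 = (h * r) * r ^ 11 := by ring
      rw [h2, h3]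
      exact mul_le_mul_of_nonneg_right h1 (by positivity)
    have hb2 : K * ((L : ℝ) ^ 3 / 4) * (h * r ^ 12 / ((K : ℝ) * L) ^ 3 - 3 * r ^ 11) ≤
        K * ((L : ℝ) - 1) ^ 3 * (h * r ^ 12 / ((K : ℝ) * L) ^ 3 - 3 * r ^ 11) := by
      apply mul_le_mul_of_nonneg_right _ hinner
      exact mul_le_mul_of_nonneg_left hL3 (by positivity)
    refine le_trans ?_ hb2
    have e1 : K * ((L : ℝ) ^ 3 / 4) * (h * r ^ 12 / ((K : ℝ) * L) ^ 3 - 3 * r ^ 11) =
        (h * r ^ 12 - 3 * (K ^ 3 * L ^ 3) * r ^ 11) / (4 * K ^ 2) := by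
      field_simp
    have e2 : h / 16 * (r ^ 4) ^ 3 / (K : ℝ) ^ 2 = (h * r ^ 12 / 4) / (4 * K ^ 2) := by
      field_simp
      ring
    rw [e1, e2]
    apply div_le_div_of_nonneg_right _ (by positivity)
    have h1 : 24 * ((K : ℝ) ^ 3 * L ^ 3) ≤ h * r := by
      have : h0 * r ≤ h * r := mul_le_mul_of_nonneg_right hh1 hrpos.le
      linarith
    have h2 : 24 * ((K : ℝ) ^ 3 * L ^ 3) * r ^ 11 ≤ h * r * r ^ 11 :=
      mul_le_mul_of_nonneg_right h1 (by positivity)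
    have h3 : h * r * r ^ 11 = h * r ^ 12 := by ring
    have h4 : 0 ≤ (K : ℝ) ^ 3 * L ^ 3 * r ^ 11 := by positivity
    rw [h3] at h2
    linarith
  · intro k
    have h1 : (((U1 \ U2).filter (fun u => χ u = k)).card : ℝ) =
        ∑ l ∈ Finset.univ.erase z, ((U1.filter (fun u => τ u = (k, l))).card : ℝ) := by
      have h2 : ((U1 \ U2).filter (fun u => χ u = k)).card =
          ∑ l ∈ Finset.univ.erase z,
            (((U1 \ U2).filter (fun u => χ u = k)).filter (fun u => (τ u).2 = l)).card := by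
        apply Finset.card_eq_sum_card_fiberwise
        intro u hu
        obtain ⟨hu1, hu2⟩ := Finset.mem_filter.1 (Finset.mem_coe.1 hu)
        rw [hmem1] at hu1
        exact Finset.mem_coe.2 (Finset.mem_erase.2 ⟨hu1.2, Finset.mem_univ _⟩)
      rw [h2, Nat.cast_sum]
      apply Finset.sum_congr rfl
      intro l hl
      have hl' : l ≠ z := (Finset.mem_erase.1 hl).1
      congr 2
      ext u
      rw [Finset.mem_filter, Finset.mem_filter, Finset.mem_filter, hmem1, Prod.ext_iff]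
      constructor
      · rintro ⟨⟨⟨h3, h4⟩, h5⟩, h6⟩
        rw [hχ1 u h3] at h5
        exact ⟨h3, h5, h6⟩
      · rintro ⟨h3, h4, h5⟩
        simp only at h4 h5
        rw [hχ1 u h3]
        exact ⟨⟨⟨h3, by rw [h5]; exact hl'⟩, h4⟩, h5⟩
    rw [h1]
    refine (Finset.sum_le_sum (fun l _ => hupper (k, l))).trans ?_
    rw [Finset.sum_const, Finset.card_erase_of_mem (Finset.mem_univ z), Finset.card_univ,
      Fintype.card_fin, nsmul_eq_mul]
    have h3 : ((L - 1 : ℕ) : ℝ) ≤ L := by exact_mod_cast Nat.sub_le L 1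
    refine (mul_le_mul_of_nonneg_right h3 (add_nonneg (div_nonneg (Nat.cast_nonneg _) hKL.le)
      (pow_nonneg hrpos.le 3))).trans ?_
    rw [hs4]
    have h4 : L * (r ^ 4 / ((K : ℝ) * L) + r ^ 3) = (r ^ 4 + (K * L) * r ^ 3) / K := by
      field_simp
    rw [h4]
    apply div_le_div_of_nonneg_right _ (by positivity)
    have h5 : (2 * K * L) * r ^ 3 ≤ r * r ^ 3 := mul_le_mul_of_nonneg_right hrKL (by positivity)
    have h6 : 0 ≤ (K * L) * r ^ 3 := by positivity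
    linarith
  · intro k
    have h1 : ((U \ U1).filter (fun u => χ u = k)) = ((U \ U1).filter (fun u => χ0 u = k)) := by
      apply Finset.filter_congr
      intro u hu
      rw [Finset.mem_sdiff] at hu
      simp only [hχ, if_neg hu.2]
    rw [h1]
    refine (hχ0 k).trans ?_
    have h2 : ((U \ U1).card : ℝ) ≤ U.card := by exact_mod_cast Finset.card_le_card Finset.sdiff_subset
    have h3 : (U1.card : ℝ) ≤ U.card := by exact_mod_cast Finset.card_le_card hU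
    have h4 : (K : ℝ) ≤ U.card := by
      refine le_trans ?_ h3
      rw [hs4]
      have h5 : r ≤ r ^ 4 := by
        have : 1 ≤ r ^ 3 := one_le_pow₀ hr1
        first | linarith | nlinarith
      have h6 : (K : ℝ) ≤ 2 * K * L := by first | linarith | nlinarith
      linarith
    have hKpos : (0 : ℝ) < K := by positivity
    rw [div_add_one (ne_of_gt hKpos)]
    apply div_le_div_of_nonneg_right _ hKpos.le
    linarith

end H15C6
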